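import Pool.Agent.Lib.MP_ffb54b_al.P2.TR

set_option autoImplicit false
set_option linter.unusedSectionVars false

namespace Pool.Agent.Lib.MP_ffb54b_al.P2

open Finset Filter
open scoped commutatorElement

universe u v

/-- The group with series `K` agrees with the group with series `KJ` up to level `N`. -/
structure Lk {Γ J : Type*} [Group Γ] [Group J] (K : ℕ → Subgroup Γ) (KJ : ℕ → Subgroup J)
    (R : Γ → J → Prop) (N : ℕ) : Prop where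
  left : ∀ a, ∃ a', R a a'
  right : ∀ a', ∃ a, R a a'
  mul : ∀ {a b a' b'}, R a a' → R b b' → R (a * b) (a' * b')
  inv : ∀ {a a'}, R a a' → R a⁻¹ a'⁻¹
  mem : ∀ {a a' t}, R a a' → t ≤ N → (a ∈ K t ↔ a' ∈ KJ t)

/-- window coefficients of an element acting as `1 + s ^ m`. -/
def fm (m : ℕ) (k : ℕ) : ZMod 2 := if k = 0 ∨ k = m then 1 else 0

/-- window coefficients of `[y, h]`. -/
def fyh (d₈ : ZMod 2) : ℕ → ZMod 2
  | 0 => 1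
  | 7 => 1
  | 8 => d₈
  | _ => 0

/-- the element of the `y`-chains with class `vb t p`. -/
def vbG {Γ : Type u} [Group Γ] (x y u : Γ) (t : ZMod 2) (p : Bool) (i : ℕ) : Γ :=
  if p then vG x y u true i * vG x y u false i ^ t.val else vG x y u false i

/-- The inductive statement of LINES for a group. -/
def PhiG {Γ : Type*} [Group Γ] (K : ℕ → Subgroup Γ) (e : Bool → ℕ → Γ) (m : ℕ) : Prop :=
  (∀ p, ⁅e p m, e p (m + 2)⁆ ∈ K (2 * m + 6)) ∧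
    ⁅e false (m + 1), e false (m + 2)⁆ ∈ K (2 * m + 4) ∧
    (⁅e true (m + 1), e false (m + 1)⁆ * ⁅e true m, e false (m + 2)⁆ ∈ K (2 * m + 4) ∨
      ⁅e true (m + 1), e false (m + 1)⁆ * ⁅e true m, e false (m + 2)⁆ *
        ⁅e true (m + 1), e true (m + 2)⁆ ∈ K (2 * m + 4))

/-- The facts about the model group used in PART I. -/
structure JF {J : Type v} [Group J] (KJ : ℕ → Subgroup J) (x y u h : J) (e : Bool → ℕ → J)
    (cf : J → Bool → ℕ → ℕ → ZMod 2) (ch : ℕ → ZMod 2) (t c₆ c₇ c₈ d₈ : ZMod 2) : Prop where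
  lcs : LCS KJ x y u
  cls2 : ∀ C, ∃ w, ∀ i j l, w ≤ i → w ≤ j → w ≤ l → ∀ a ∈ KJ i, ∀ b ∈ KJ j, ∀ d ∈ KJ l,
    ⁅⁅a, b⁆, d⁆ ∈ KJ (i + j + l + C)
  sq : ∀ C, ∃ w, ∀ i, w ≤ i → ∀ a ∈ KJ i, a ^ 2 ∈ KJ (i + C)
  e_mem : ∃ w, ∀ p i, w ≤ i → e p i ∈ KJ i
  e_cls : ∃ w, ∀ p i, w ≤ i → ⁅y, e p i * (vbG x y u t p i)⁻¹⁆ ∈ KJ (i + 2)
  win : ∀ C f, ∃ w, ∀ p i, w ≤ i → WinG KJ y f (e p) i C (cf f p i)
  per : ∀ C, ∃ M' g, C + 2 ≤ 2 * M' ∧ g ∈ KJ (M' + 1) ∧ (∀ f : J, ⁅f, g⁆ ∈ KJ (2 * M')) ∧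
    (∀ p i, ∀ k < 2 * M' + C, cf g p i k = fm (2 * M') k) ∧
    ∀ f p i, ∀ k < C, cf f p (i + 2 * M') k = cf f p i k
  phi : ∃ w, ∀ m, w ≤ m → PhiG KJ e m
  ch_succ : ∀ i, ch (i + 1) = ch i + i
  cfx : ∀ p i, ∀ k < 3, cf x p i k = fx i (ch i) k
  cfy : ∀ p i, ∀ k < 5, cf y p i k = fy p i (ch i) k
  cfu : ∀ p i, ∀ k < 7, cf u p i k = fu p i k
  cfh : ∀ p i, ∀ k < 7, cf h p i k = fm 5 k
  cfyu : ∀ p i, ∀ k < 9, cf ⁅y, u⁆ p i k = fyu c₆ c₇ c₈ k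
  cfyh : ∀ p i, ∀ k < 9, cf ⁅y, h⁆ p i k = fyh d₈ k

namespace Lk

variable {Γ : Type u} {J : Type v} [Group Γ] [Group J] {K : ℕ → Subgroup Γ} {KJ : ℕ → Subgroup J}
  {R : Γ → J → Prop} {N : ℕ} (L : Lk K KJ R N) {a b x y u g : Γ} {a' b' x' y' u' g' : J}
include L

lemma one : R 1 1 := by
  obtain ⟨a', h⟩ := L.left 1
  simpa using L.mul h (L.inv h)

lemma comm (ha : R a a') (hb : R b b') : R ⁅a, b⁆ ⁅a', b'⁆ :=
  L.mul (L.mul (L.mul ha hb) (L.inv ha)) (L.inv hb)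

lemma pow (ha : R a a') (k : ℕ) : R (a ^ k) (a' ^ k) := by
  induction k with
  | zero => simpa using L.one
  | succ k ih => rw [pow_succ, pow_succ]; exact L.mul ih ha

lemma yc (hy : R y y') (ha : R a a') (j : ℕ) : R (P2.yc y j a) (P2.yc y' j a') := by
  induction j with
  | zero => exact ha
  | succ j ih => exact L.comm hy ih

lemma wp {e : ℕ → Γ} {e' : ℕ → J} (he : ∀ i, R (e i) (e' i)) (i : ℕ) (f : ℕ → ZMod 2) (w : ℕ) :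
    R (P2.wp e i f w) (P2.wp e' i f w) := by
  induction w with
  | zero => exact L.one
  | succ w ih => exact L.mul ih (L.pow (he _) _)

lemma vG (hx : R x x') (hy : R y y') (hu : R u u') (p : Bool) :
    ∀ i, R (P2.vG x y u p i) (P2.vG x' y' u' p i)
  | 0 => L.one
  | 1 => by cases p; exacts [hu, hx]
  | i + 2 => L.comm hy (vG hx hy hu p (i + 1))

lemma vbG (hx : R x x') (hy : R y y') (hu : R u u') (t : ZMod 2) (p : Bool) (i : ℕ) :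
    R (P2.vbG x y u t p i) (P2.vbG x' y' u' t p i) := by
  cases p
  · exact L.vG hx hy hu _ _
  · exact L.mul (L.vG hx hy hu _ _) (L.pow (L.vG hx hy hu _ _) _)

lemma winG {e : ℕ → Γ} {e' : ℕ → J} (he : ∀ i, R (e i) (e' i)) (hy : R y y') (hg : R g g')
    {i w : ℕ} (hN : i + 2 * w ≤ N) {f : ℕ → ZMod 2} (h : WinG KJ y' g' e' i w f) :
    WinG K y g e i w f :=
  (L.mem (L.yc hy (L.mul (L.mul (L.mul hg (he i)) (L.inv hg)) (L.inv (L.wp he i f w))) w) hN).2 h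

lemma phiG {e : Bool → ℕ → Γ} {e' : Bool → ℕ → J} {m : ℕ} (h0 : ∀ p, R (e p m) (e' p m))
    (h1 : ∀ p, R (e p (m + 1)) (e' p (m + 1))) (h2 : ∀ p, R (e p (m + 2)) (e' p (m + 2)))
    (hN : 2 * m + 6 ≤ N) (h : PhiG KJ e' m) : PhiG K e m :=
  ⟨fun p => (L.mem (L.comm (h0 p) (h2 p)) hN).2 (h.1 p),
    (L.mem (L.comm (h1 _) (h2 _)) (by omega)).2 h.2.1,
    h.2.2.imp (L.mem (L.mul (L.comm (h1 _) (h1 _)) (L.comm (h0 _) (h2 _))) (by omega)).2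
      (L.mem (L.mul (L.mul (L.comm (h1 _) (h1 _)) (L.comm (h0 _) (h2 _))) (L.comm (h1 _) (h2 _)))
        (by omega)).2⟩

end Lk

/-- The data of PART I: a family of groups approximating the model group better and better. -/
structure PI (U : Ultrafilter ℕ) (G : ℕ → Type u) [∀ n, Group (G n)] (J : Type v) [Group J] where
  K : ∀ n, ℕ → Subgroup (G n)
  x : ∀ n, G n
  y : ∀ n, G n
  u : ∀ n, G n
  c : ∀ n, ℕ → G n → W2 × W2
  σ : ℕ → ℕ → Bil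
  free : Free U
  lcs : ∀ n, LCS (K n) (x n) (y n) (u n)
  s1g : ∀ n, S1G (K n) (x n) (y n) (u n) (c n) (σ n)
  KJ : ℕ → Subgroup J
  xJ : J
  yJ : J
  uJ : J
  hJ : J
  eJ : Bool → ℕ → J
  cf : J → Bool → ℕ → ℕ → ZMod 2
  ch : ℕ → ZMod 2
  t : ZMod 2
  c₆ : ZMod 2
  c₇ : ZMod 2
  c₈ : ZMod 2
  d₈ : ZMod 2
  jf : JF KJ xJ yJ uJ hJ eJ cf ch t c₆ c₇ c₈ d₈
  R : ∀ n, G n → J → Prop
  N : ℕ → ℕ
  lk : ∀ n, Lk (K n) KJ (R n) (N n)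
  N_inf : ∀ d, ∀ᶠ n in U, d ≤ N n
  Rx : ∀ n, R n (x n) xJ
  Ry : ∀ n, R n (y n) yJ
  Ru : ∀ n, R n (u n) uJ

end Pool.Agent.Lib.MP_ffb54b_al.P2
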