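import Pool.Agent.Lib.MP_ffb54b_al.P2.AL
import Pool.Agent.Lib.MP_ffb54b_al.P2.PI0

set_option autoImplicit false
set_option linter.unusedSectionVars false

namespace Pool.Agent.Lib.MP_ffb54b_al.P2

open scoped commutatorElement

universe u

variable {Γ : Type u} [Group Γ]

/-- The subgroup `E_(n+1)` between `K (n + 1)` and `K n`: classes in the span of `b` and `σ a b`. -/
def EE (K : ℕ → Subgroup Γ) (x y u : Γ) (n : ℕ) : Subgroup Γ :=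
  Subgroup.closure {vG x y u false n, ⁅x, vG x y u false (n - 1)⁆} ⊔ K (n + 1)

/-- window coefficients `1 + r s ^ m`. -/
def fr (m : ℕ) (r : ZMod 2) (k : ℕ) : ZMod 2 := if k = 0 then 1 else if k = m then r else 0

/-- The finite level facts used in PART II in addition to `EG` (`h` acts as `1 + s ^ 2`, `q` as
`(1 + s ^ 3) ^ i`; `w` is an even level). -/
structure AG (K : ℕ → Subgroup Γ) (x y u h q : Γ) (e : Bool → ℕ → Γ) (w w₀ : ℕ) :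
    Prop where
  le : 8 ≤ w
  k2 : ∀ n, w ≤ n → ∀ k k', KE K (EE K x y u) u h q n k → KE K (EE K x y u) u h q n k' →
    k ∉ EE K x y u (n + 1) → k' ∉ EE K x y u (n + 1) → k * k'⁻¹ ∈ EE K x y u (n + 1)
  k3 : ∀ n, w ≤ n → ∀ g ∈ EE K x y u n, ∃ k ∈ K (n + 2), ⁅u, k⁆ ∈ K (n + 6) ∧ ⁅h, k⁆ ∈ K (n + 6) ∧
    ⁅q, k⁆ ∈ K (n + 6) ∧ ⁅u, g⁆ * k⁻¹ ∈ EE K x y u (n + 3)
  rel : ∃ m, 6 ≤ m ∧ yc y 3 (⁅u, vG x y u true m⁆ * (vG x y u true (m + 3))⁻¹) ∈ K (m + 7)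
  y1 : ∀ i, w₀ ≤ i → ⁅y, ⁅e true i, e false (i + 1)⁆⁆ ∉ K (2 * i + 4)
  ue : ∀ i, w₀ ≤ i → ⁅y, ⁅y, ⁅e true i, e false (i + 1)⁆⁆⁆ ∈ EE K x y u (2 * i + 5) →
    ⁅u, ⁅e true i, e false (i + 1)⁆⁆ ∈ K (2 * i + 6)
  winh : ∀ p i, w₀ ≤ i → WinG K y h (e p) i 4 (fr 2 1)
  winq : ∀ p i, w₀ ≤ i → WinG K y q (e p) i 5 (fr 3 i)
  baseD : ∃ D ∈ EE K x y u w, ∃ (r : ZMod 2) (w₁ : ℕ), ∀ p i, w₁ ≤ i →
    WinG K y D (e p) i (2 * w + 2) (fr (2 * w + 1) (i + r))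
  baseQ : ∃ Q ∈ EE K x y u w, ∃ w₁, ∀ p i, w₁ ≤ i →
    WinG K y Q (e p) i (2 * w + 2) (fr (2 * w + 1) 1)
  baseP : ∃ P ∈ K (w + 1), ⁅u, P⁆ ∈ K (w + 4) ∧ ⁅h, P⁆ ∈ K (w + 4) ∧ ⁅q, P⁆ ∈ K (w + 4) ∧
    ∃ w₁, ∀ p i, w₁ ≤ i → WinG K y P (e p) i (2 * w + 1) (fr (2 * w) 1)
  baseP' : ∃ P ∈ K (w + 1), ⁅u, P⁆ ∈ K (w + 5) ∧ ⁅h, P⁆ ∈ K (w + 5) ∧ ⁅q, P⁆ ∈ K (w + 5) ∧
    ∃ w₁, ∀ p i, w₁ ≤ i → WinG K y P (e p) i (2 * w + 3) (fr (2 * w + 2) 1)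

variable {K : ℕ → Subgroup Γ} {x y u : Γ} {c : ℕ → Γ → W2 × W2} {σ : ℕ → Bil} {n : ℕ} {g : Γ}

lemma le_EE : K (n + 1) ≤ EE K x y u n := le_sup_right

lemma b_mem_EE : vG x y u false n ∈ EE K x y u n :=
  Subgroup.mem_sup_left (Subgroup.subset_closure (by simp))

lemma xb_mem_EE : ⁅x, vG x y u false (n - 1)⁆ ∈ EE K x y u n :=
  Subgroup.mem_sup_left (Subgroup.subset_closure (by simp))

lemma EE_le_of {T : Subgroup Γ} (h1 : vG x y u false n ∈ T) (h2 : ⁅x, vG x y u false (n - 1)⁆ ∈ T)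
    (h3 : K (n + 1) ≤ T) : EE K x y u n ≤ T :=
  sup_le ((Subgroup.closure_le _).2 (by rintro _ (rfl | rfl); exacts [h1, h2])) h3

lemma xb_mem (L : LCS K x y u) (hn : 1 ≤ n) : ⁅x, vG x y u false (n - 1)⁆ ∈ K n :=
  L.ns.comm' (L.mem_one x) (L.vG_mem false (n - 1)) (by omega)

lemma EE_le (L : LCS K x y u) (hn : 1 ≤ n) : EE K x y u n ≤ K n :=
  EE_le_of (L.vG_mem _ _) (xb_mem L hn) (L.ns.anti n.le_succ)

lemma c_xb (L : LCS K x y u) (S : S1G K x y u c σ) (hn : 7 ≤ n) :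
    c n ⁅x, vG x y u false (n - 1)⁆ = (((n : ZMod 2) + 1) • ee false, σ n (ee true) (ee false)) := by
  obtain ⟨m, rfl⟩ := Nat.exists_eq_add_of_le' (show 1 ≤ n by omega)
  have := S.one m (by omega) true _ (L.vG_mem false m)
  rw [S.v m (by omega)] at this
  rw [Nat.add_sub_cancel, Nat.cast_succ, add_assoc, CharTwo.add_self_eq_zero, add_zero]
  simpa [vG] using this

/-- The description of `EE` by classes. -/
theorem mem_EE (L : LCS K x y u) (S : S1G K x y u c σ) (hn : 7 ≤ n) : g ∈ EE K x y u n ↔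
    g ∈ K n ∧ (c n g).1 true = 0 ∧ ∃ s : ZMod 2, (c n g).2 = s • σ n (ee true) (ee false) := by
  have := L.normal
  have C := S.cls n (by omega)
  have hb := L.vG_mem false n
  have hx := xb_mem L (show 1 ≤ n by omega)
  constructor
  · let T : Subgroup Γ :=
      { carrier := {g | g ∈ K n ∧ (c n g).1 true = 0 ∧
          ∃ s : ZMod 2, (c n g).2 = s • σ n (ee true) (ee false)}
        one_mem' := ⟨one_mem _, by simp [C.one], 0, by simp [C.one]⟩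
        mul_mem' := fun {a b} ⟨h1, h2, s, h3⟩ ⟨h4, h5, t, h6⟩ => ⟨mul_mem h1 h4, by
          simp [C.mul h1 h4, h2, h5], s + t, by simp [C.mul h1 h4, h3, h6, add_smul]⟩
        inv_mem' := fun {a} ⟨h1, h2, s, h3⟩ => ⟨inv_mem h1, by simp [C.inv h1, h2], -s, by
          rw [C.inv h1, Prod.snd_neg, h3, neg_smul]⟩ }
    refine fun h => EE_le_of (T := T) ⟨hb, by simp [S.v n (by omega), ee], 0, by
      simp [S.v n (by omega)]⟩ ⟨hx, by simp [c_xb L S hn, ee], 1, by simp [c_xb L S hn]⟩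
      (fun a ha => ⟨L.ns.anti n.le_succ ha, ?_⟩) h
    rw [(C.zero (L.ns.anti n.le_succ ha)).2 ha]
    exact ⟨rfl, 0, by simp⟩
  · rintro ⟨h1, h2, s, h3⟩
    have m := mul_mem (pow_mem hb ((c n g).1 false + s * ((n : ZMod 2) + 1)).val) (pow_mem hx s.val)
    refine pr_mem le_EE ((C.eq_iff h1 m).1 ?_) (mul_mem (pow_mem b_mem_EE _) (pow_mem xb_mem_EE _))
    rw [C.mul (pow_mem hb _) (pow_mem hx _), ← zpow_natCast, ← zpow_natCast, C.zpow hb, C.zpow hx,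
      natCast_zsmul, natCast_zsmul, ← Nat.cast_smul_eq_nsmul (ZMod 2),
      ← Nat.cast_smul_eq_nsmul (ZMod 2), ZMod.natCast_zmod_val, ZMod.natCast_zmod_val,
      S.v n (by omega), c_xb L S hn]
    refine Prod.ext (funext fun p => ?_) (by simp [h3])
    cases p
    · simp [ee, add_assoc, CharTwo.add_self_eq_zero]
    · simp [ee, h2]

lemma y_EE (L : LCS K x y u) (S : S1G K x y u c σ) (hn : 7 ≤ n) (hg : g ∈ EE K x y u n) :
    ⁅y, g⁆ ∈ EE K x y u (n + 1) := by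
  obtain ⟨h1, h2, -⟩ := (mem_EE L S hn).1 hg
  rw [mem_EE L S (by omega), S.yy n (by omega) g h1]
  exact ⟨L.ns.comm' (L.mem_one y) h1 (by omega), h2, 0, by simp⟩

end Pool.Agent.Lib.MP_ffb54b_al.P2
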