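import Pool.Agent.Lib.MP_ffb54b_al.P2.Sym2

set_option autoImplicit false
set_option linter.unusedSectionVars false

namespace Pool.Agent.Lib.MP_ffb54b_al.P2

open FS GA
open scoped commutatorElement

universe u v

variable {G : Type v} [Group G] {V : Type u} [AddCommGroup V]

/-- `g - 1` has degree at least `d`, with first two symbols `A` and `B`. -/
def GA.W (Φ : GA G V) (g : G) (d : ℤ) (A B : ℤ → Mat) : Prop :=
  Φ.δ g ∈ Φ.N d ∧ ∀ i, Φ.s0 (Φ.δ g) d i = A i ∧ Φ.s1 (Φ.δ g) d i = B i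

/-- `g - 1` has degree at least `d`, with scalar leading symbol `f`. -/
def GA.W0 (Φ : GA G V) (g : G) (d : ℤ) (f : ℤ → ZMod 2) : Prop :=
  Φ.δ g ∈ Φ.N d ∧ ∀ i, Φ.s0 (Φ.δ g) d i = f i • (1 : Mat)

/-- Elements of `E n` of central type. -/
def KE (K E : ℕ → Subgroup G) (u h q : G) (n : ℕ) (k : G) : Prop :=
  k ∈ E n ∧ ⁅u, k⁆ ∈ K (n + 4) ∧ ⁅h, k⁆ ∈ K (n + 4) ∧ ⁅q, k⁆ ∈ K (n + 4)

/-- The inductive statement. -/
def IH (Φ : GA G V) (K E : ℕ → Subgroup G) (u h q : G) (n : ℕ) : Prop :=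
  (∃ D ∈ E n, Φ.W0 D (2 * n + 1) Φ.par) ∧ (∃ Q ∈ E n, Φ.W0 Q (2 * n + 1) fun _ => 1) ∧
    ∃ P, KE K E u h q (n + 1) P ∧ Φ.W0 P (2 * n + 2) fun _ => 1

/-- The hypotheses of the action lemma. -/
structure AL (Φ : GA G V) (K E : ℕ → Subgroup G) (y u h q : G) (w : ℕ) : Prop where
  one : 1 ≤ w
  anti : Antitone K
  KE_le : ∀ n, w ≤ n → K (n + 1) ≤ E n
  EK_le : ∀ n, w ≤ n → E n ≤ K n
  lb : ∀ n, ∀ g ∈ K n, Φ.δ g ∈ Φ.N (2 * n - 2)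
  lbE : ∀ n, w ≤ n → ∀ g ∈ E n, Φ.δ g ∈ Φ.N (2 * n)
  yE : ∀ n, w ≤ n → ∀ g ∈ E n, ⁅y, g⁆ ∈ E (n + 1)
  sc : ∀ n, w ≤ n → ∀ g ∈ E n, Φ.δ ⁅h, g⁆ ∈ Φ.N (2 * n + 4) → ∀ i,
    Φ.s0 (Φ.δ ⁅h, g⁆) (2 * n + 4) (i + 1) = Φ.s0 (Φ.δ ⁅h, g⁆) (2 * n + 4) i
  k2 : ∀ n, w ≤ n → ∀ k k', KE K E u h q n k → KE K E u h q n k' → k ∉ E (n + 1) →
    k' ∉ E (n + 1) → k * k'⁻¹ ∈ E (n + 1)
  k3 : ∀ n, w ≤ n → ∀ g ∈ E n, ∃ k ∈ K (n + 2), ⁅u, k⁆ ∈ K (n + 6) ∧ ⁅h, k⁆ ∈ K (n + 6) ∧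
    ⁅q, k⁆ ∈ K (n + 6) ∧ ⁅u, g⁆ * k⁻¹ ∈ E (n + 3)
  wy : Φ.W y 1 (fun _ => 1) fun i => Φ.par i • 1 + Ea
  wu : Φ.W u 3 (fun _ => 1) fun _ => 0
  wh : Φ.W h 2 (fun _ => 1) fun _ => 0
  wq : Φ.W q 3 (fun i => Φ.par i • 1) fun _ => 0
  baseD : ∃ D ∈ E w, ∃ r, Φ.W0 D (2 * w + 1) fun i => Φ.par i + r
  baseQ : ∃ Q ∈ E w, Φ.W0 Q (2 * w + 1) fun _ => 1
  baseP : ∃ P, KE K E u h q w P ∧ Φ.W0 P (2 * w) fun _ => 1
  baseP' : ∃ P ∈ E w, ⁅u, P⁆ ∈ K (w + 5) ∧ ⁅h, P⁆ ∈ K (w + 5) ∧ ⁅q, P⁆ ∈ K (w + 5) ∧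
    Φ.W0 P (2 * w + 2) fun _ => 1

lemma mat_one_ne : (1 : Mat) ≠ 0 := one_ne_zero

namespace AL

variable {Φ : GA G V} {K E : ℕ → Subgroup G} {y u h q : G} {w : ℕ} (A : AL Φ K E y u h q w)
  {n : ℕ} {k g P : G} {f : ℤ → ZMod 2}
include A

lemma ke_s1 (hn : w ≤ n) (hk : KE K E u h q n k) (i : ℤ) : Φ.s1 (Φ.δ k) (2 * n) i = 0 := by
  have hT := A.lbE n hn k hk.1
  have deep : ∀ {g : G} {d : ℤ}, d ≤ 3 → ⁅g, k⁆ ∈ K (n + 4) → ∀ i,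
      Φ.s1 (cm (Φ.δ g) (Φ.δ k)) (d + 2 * n) i = 0 := fun hd hg i =>
    s1_deep (cm_of_δ (A.lb _ _ hg)) (by push_cast; omega) i
  have h1 : ∀ i, Φ.s1 (Φ.δ k) (2 * n) i = Φ.s1 (Φ.δ k) (2 * n) (i + 3) := fun i => by
    have := deep le_rfl hk.2.1 i
    simp only [s1_cm A.wu.1 hT rfl, A.wu.2, zero_mul, mul_zero, one_mul, mul_one, zero_add,
      add_zero] at this
    exact mat_eq_of_add this
  have h3 := deep le_rfl hk.2.2.2 i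
  simp only [s1_cm A.wq.1 hT rfl, A.wq.2, zero_mul, mul_zero, zero_add, add_zero, smul_mul_assoc,
    mul_smul_comm, one_mul, mul_one, ← h1, Φ.par_odd (i := i) n rfl, add_smul, one_smul, add_mul] at h3
  rwa [add_right_comm, mat_add_self, zero_add] at h3

lemma ke_test (hn : w ≤ n) (hP : KE K E u h q n P) (hP' : Φ.W0 P (2 * n) fun _ => 1)
    (hk : KE K E u h q n k) (h1 : k ∉ E (n + 1)) (i : ℤ) : Φ.s0 (Φ.δ k) (2 * n) i = 1 := by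
  have deep : ∀ g ∈ E (n + 1), Φ.s0 (Φ.δ g) (2 * n) i = 0 := fun g hg =>
    s0_deep (A.lbE _ (by omega) g hg) (by push_cast; omega) i
  have := deep _ (A.k2 n hn k P hk hP h1 fun h2 => mat_one_ne (by
    simpa using (hP'.2 i).symm.trans (deep P h2)))
  rw [s0_δ_mul (A.lbE n hn k hk.1) (δ_inv_mem hP'.1), s0_δ_inv hP'.1, hP'.2, one_smul] at this
  exact mat_eq_of_add this

lemma u_step (hn : w ≤ n) (hP : KE K E u h q (n + 1) P) (hP' : Φ.W0 P (2 * n + 2) fun _ => 1)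
    (hg : g ∈ E n) (hg' : Φ.W0 g (2 * n + 1) f) :
    (∀ i, Φ.s1 (Φ.δ g) (2 * n + 1) i = Φ.s1 (Φ.δ g) (2 * n + 1) (i + 3)) ∧
      ∃ k, KE K E u h q (n + 2) k ∧ Φ.W0 k (2 * n + 4) fun i => f i + f (i + 3) := by
  obtain ⟨k, h1, h2, h3, h4, h5⟩ := A.k3 n hn g hg
  have c1 : cm (Φ.δ u) (Φ.δ g) ∈ Φ.N (2 * n + 4) := cm_mem A.wu.1 hg'.1 (by omega)
  have c2 := δ_comm_mem c1
  have c3 : Φ.δ (⁅u, g⁆ * k⁻¹) ∈ Φ.N (2 * n + 6) :=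
    N_mono (A.lbE _ (by omega) _ h5) (by push_cast; omega)
  have c4 : Φ.δ k ∈ Φ.N (2 * n + 4) := by
    have := δ_mul_mem (δ_inv_mem (N_mono c3 (show 2 * (n : ℤ) + 4 ≤ _ by omega))) c2
    rwa [mul_inv_rev, inv_inv, inv_mul_cancel_right] at this
  have k1 : k ∈ E (n + 2) := by
    by_contra hk
    have := A.ke_test (n := n + 1) (by omega) hP (by push_cast; exact hP') ⟨A.KE_le _ (by omega) h1,
      A.anti (by omega) h2, A.anti (by omega) h3, A.anti (by omega) h4⟩ hk 0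
    exact mat_one_ne (this.symm.trans (s0_deep c4 (by push_cast; omega) 0))
  have k2 : KE K E u h q (n + 2) k := ⟨k1, h2, h3, h4⟩
  refine ⟨fun i => ?_, k, k2, c4, fun i => ?_⟩
  · have e1 := A.ke_s1 (n := n + 2) (by omega) k2 i
    rw [show 2 * ((n + 2 : ℕ) : ℤ) = 2 * n + 4 by push_cast; omega] at e1
    have e2 := s1_deep c3 (show 2 * (n : ℤ) + 4 + 2 ≤ _ by omega) i
    rw [s1_δ_mul c2 (δ_inv_mem c4) (by omega), s1_δ_inv c4 (by omega), e1, add_zero,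
      s1_δ_comm c1 (N_mono hg'.1 (by have := A.one; omega)), s0_deep A.wu.1 (by omega), mul_zero,
      add_zero, s1_cm A.wu.1 hg'.1 (by omega)] at e2
    simp only [A.wu.2, zero_mul, mul_zero, one_mul, mul_one, zero_add, add_zero] at e2
    exact mat_eq_of_add e2
  · have e2 := s0_deep c3 (show 2 * (n : ℤ) + 4 + 1 ≤ _ by omega) i
    rw [s0_δ_mul c2 (δ_inv_mem c4), s0_δ_inv c4, s0_δ_comm c1, s0_cm A.wu.1 hg'.1 (by omega)] at e2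
    simp only [A.wu.2, hg'.2, one_mul, mul_one] at e2
    rw [add_smul, mat_eq_of_add e2]

lemma y_step (hn : w ≤ n) (hP : KE K E u h q (n + 1) P) (hP' : Φ.W0 P (2 * n + 2) fun _ => 1)
    (hg : g ∈ E n) (hg' : Φ.W0 g (2 * n + 1) f) (hf : ∀ i, f (i + 2) = f i) :
    Φ.W ⁅y, g⁆ (2 * n + 2) (fun i => (f i + f (i + 1)) • 1) fun i => f (i + 1) • 1 := by
  have h3 := (A.u_step hn hP hP' hg hg').1
  have c1 : cm (Φ.δ h) (Φ.δ g) ∈ Φ.N (2 * n + 4) :=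
    N_succ (d := 2 * n + 3) (cm_mem A.wh.1 hg'.1 (by omega)) (fun i => by
      rw [s0_cm A.wh.1 hg'.1 (by omega)]
      simp only [A.wh.2, hg'.2, hf, one_mul, mul_one, mat_add_self]) (by omega)
  have h2 : ∀ i, Φ.s0 (Φ.δ ⁅h, g⁆) (2 * n + 4) i =
      Φ.s1 (Φ.δ g) (2 * n + 1) i + Φ.s1 (Φ.δ g) (2 * n + 1) (i + 2) := fun i => by
    rw [s0_δ_comm c1, ← s1_succ (d := 2 * n + 3) c1 (by omega), s1_cm A.wh.1 hg'.1 (by omega)]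
    simp only [A.wh.2, zero_mul, mul_zero, one_mul, mul_one, zero_add, add_zero]
  have h4 := A.sc n hn g hg (δ_comm_mem c1)
  simp only [h2] at h4
  have h5 : ∀ i, Φ.s1 (Φ.δ g) (2 * n + 1) (i + 1) = Φ.s1 (Φ.δ g) (2 * n + 1) i := fun i => by
    have e1 := h4 i
    have e2 := h4 (i + 1)
    have e3 := h3 i
    have e4 := h3 (i + 1)
    simp only [add_assoc] at e1 e2 e4
    norm_num at e1 e2 e4
    rw [← e3] at e1 e2
    rw [← e4] at e2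
    exact (add_left_cancel ((add_comm _ _).trans e1)).trans
      (add_left_cancel ((add_comm _ _).trans e2))
  have c2 : cm (Φ.δ y) (Φ.δ g) ∈ Φ.N (2 * n + 2) := cm_mem A.wy.1 hg'.1 (by omega)
  have c3 : ∀ i, Φ.s0 (cm (Φ.δ y) (Φ.δ g)) (2 * n + 2) i = (f i + f (i + 1)) • 1 := fun i => by
    rw [s0_cm A.wy.1 hg'.1 (by omega)]
    simp only [A.wy.2, hg'.2, one_mul, mul_one, add_smul]
  refine ⟨δ_comm_mem c2, fun i => ⟨by rw [s0_δ_comm c2, c3], ?_⟩⟩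
  rw [s1_δ_comm c2 (N_mono hg'.1 (by have := A.one; omega)), c3, s1_cm A.wy.1 hg'.1 (by omega)]
  simp only [A.wy.2, hg'.2, one_mul, mul_one, h5, add_assoc i 1 1, one_add_one_eq_two, hf,
    Φ.par_odd (i := i) (j := i + (2 * n + 1)) n (by omega), smul_mul_assoc, mul_smul_comm]
  rw [← one_smul (ZMod 2) (Φ.s1 (Φ.δ g) (2 * n + 1) i)]
  match_scalars <;> (generalize f i = a; generalize f (i + 1) = b; generalize Φ.par i = c; revert a b c; decide)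

lemma base : IH Φ K E u h q w := by
  obtain ⟨D, hD, r, hD'⟩ := A.baseD
  obtain ⟨Q, hQ, hQ'⟩ := A.baseQ
  obtain ⟨P, hP, hP'⟩ := A.baseP
  obtain ⟨P', h1, h2, h3, h4, h5⟩ := A.baseP'
  refine ⟨?_, ⟨Q, hQ, hQ'⟩, P', ⟨?_, h2, h3, h4⟩, h5⟩
  · rcases (by decide : ∀ r : ZMod 2, r = 0 ∨ r = 1) r with rfl | rfl
    · exact ⟨D, hD, by simpa using hD'⟩
    · refine ⟨D * Q, mul_mem hD hQ, δ_mul_mem hD'.1 hQ'.1, fun i => ?_⟩
      rw [s0_δ_mul hD'.1 hQ'.1, hD'.2, hQ'.2, ← add_smul, add_assoc, CharTwo.add_self_eq_zero,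
        add_zero]
  · by_contra hk
    exact mat_one_ne ((A.ke_test le_rfl hP hP' ⟨h1, A.anti (by omega) h2, A.anti (by omega) h3,
      A.anti (by omega) h4⟩ hk 0).symm.trans (s0_deep h5.1 (by omega) 0))

theorem ih (hn : w ≤ n) : IH Φ K E u h q n := by
  induction n, hn using Nat.le_induction with
  | base => exact A.base
  | succ n hn ih =>
  obtain ⟨⟨D, hD, hD'⟩, ⟨Q, hQ, hQ'⟩, P, hP, hP'⟩ := ih
  have e : 2 * ((n + 1 : ℕ) : ℤ) + 1 = 2 * n + 2 + 1 := by push_cast; omega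
  have d1 := A.y_step hn hP hP' hD hD' fun i => Φ.par_even 1 (by omega)
  have q1 := A.y_step hn hP hP' hQ hQ' fun i => rfl
  have p1 := A.ke_s1 (n := n + 1) (by omega) hP
  rw [show 2 * ((n + 1 : ℕ) : ℤ) = 2 * n + 2 by push_cast; omega] at p1
  have q2 : Φ.δ ⁅y, Q⁆ ∈ Φ.N (2 * n + 2 + 1) := N_succ q1.1 (fun i => by
    simp only [q1.2, CharTwo.add_self_eq_zero, zero_smul]) le_rfl
  have d2 : Φ.δ (⁅y, D⁆ * ⁅y, Q⁆ * P) ∈ Φ.N (2 * n + 2 + 1) :=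
    N_succ (δ_mul_mem (δ_mul_mem d1.1 q1.1) hP'.1) (fun i => by
      rw [s0_δ_mul (δ_mul_mem d1.1 q1.1) hP'.1, s0_δ_mul d1.1 q1.1]
      simp only [d1.2, q1.2, hP'.2, Φ.par_succ, ← add_assoc, CharTwo.add_self_eq_zero, zero_smul,
        zero_add, add_zero, mat_add_self]) le_rfl
  refine ⟨⟨⁅y, D⁆ * ⁅y, Q⁆ * P, mul_mem (mul_mem (A.yE n hn D hD) (A.yE n hn Q hQ)) hP.1, e ▸ d2,
    fun i => ?_⟩, ⟨⁅y, Q⁆, A.yE n hn Q hQ, e ▸ q2, fun i => ?_⟩, ?_⟩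
  · rw [e, ← s1_succ d2 rfl, s1_δ_mul (δ_mul_mem d1.1 q1.1) hP'.1 (by omega),
      s1_δ_mul d1.1 q1.1 (by omega)]
    simp only [d1.2, q1.2, p1, Φ.par_succ, add_smul, add_assoc, mat_add_self, add_zero]
  · rw [e, ← s1_succ q2 rfl, (q1.2 i).2]
  · obtain ⟨k, h1, h2⟩ := (A.u_step hn hP hP' hD hD').2
    refine ⟨k, h1, ?_⟩
    rw [show 2 * ((n + 1 : ℕ) : ℤ) + 2 = 2 * n + 4 by push_cast; omega]
    have : ∀ i, Φ.par (i + 3) = Φ.par i + 1 := fun i => Φ.par_odd 1 (by omega)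
    simpa only [this, ← add_assoc, CharTwo.add_self_eq_zero, zero_add] using h2

/-- Symbols of elements of central type. -/
theorem ke_sym (hn : w + 1 ≤ n) (hk : KE K E u h q n k) :
    ∃ s : ZMod 2, (s = 0 ↔ k ∈ E (n + 1)) ∧ Φ.W k (2 * n) (fun _ => s • 1) fun _ => 0 := by
  obtain ⟨n, rfl⟩ := Nat.exists_eq_add_of_le' (show 1 ≤ n by omega)
  obtain ⟨-, -, P, hP, hP'⟩ := A.ih (n := n) (by omega)
  have h0 := A.lbE (n + 1) (by omega) k hk.1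
  by_cases h1 : k ∈ E (n + 1 + 1)
  · exact ⟨0, by simp [h1], h0, fun i => ⟨by
      simpa using s0_deep (A.lbE _ (by omega) k h1) (by push_cast; omega) i,
      A.ke_s1 (by omega) hk i⟩⟩
  · exact ⟨1, by simp [h1], h0, fun i => ⟨by
      simpa using A.ke_test (by omega) hP (by push_cast; exact hP') hk h1 i,
      A.ke_s1 (by omega) hk i⟩⟩

/-- If squaring raises the weight by `d` then `2` has degree at least `2 d - 2`. -/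
theorem two_deg {d m : ℕ} (hsq : ∀ n, m ≤ n → ∀ g ∈ K n, g ^ 2 ∈ K (n + d)) :
    (2 : AddMonoid.End V) ∈ Φ.N (2 * d - 2) := by
  obtain ⟨-, -, P, hP, hP'⟩ := A.ih (n := w + m + d) (by omega)
  obtain ⟨Z, hZ, -, e⟩ := exists_inv hP'.1 (by simpa using hP'.2)
  have h1 := A.lb _ _ (hsq _ (by omega) P (A.EK_le _ (by omega) hP.1))
  have h2 : 2 * Φ.δ P ∈ Φ.N (2 * (w + m + d : ℕ) + 2 + (2 * d - 2)) := by
    rw [show 2 * Φ.δ P = Φ.δ (P ^ 2) - Φ.δ P * Φ.δ P by rw [pow_two, δ_mul, two_mul]; abel]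
    exact sub_mem (N_mono h1 (by push_cast; omega)) (N_mul hP'.1 hP'.1 (by push_cast; omega))
  simpa [mul_assoc, e] using N_mul h2 hZ (show 2 * (d : ℤ) - 2 ≤ _ by omega)

end AL

end Pool.Agent.Lib.MP_ffb54b_al.P2
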