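import Pool.Agent.Lib.MP_ffb54b_al.P2.ADef

set_option autoImplicit false
set_option linter.unusedSectionVars false

namespace Pool.Agent.Lib.MP_ffb54b_al.P2

open scoped commutatorElement

universe v

/-- The further facts about the model group used for the export of `AG`. -/
structure JF2 {J : Type v} [Group J] (KJ : ℕ → Subgroup J) (x y u h q : J)
    (cf : J → Bool → ℕ → ℕ → ZMod 2) : Prop where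
  cfh : ∀ p i, ∀ k < 4, cf h p i k = fr 2 1 k
  cfq : ∀ p i, ∀ k < 5, cf q p i k = fr 3 i k
  base : ∀ w₀, ∃ w, w₀ ≤ w ∧ Even w ∧
    (∃ D ∈ KJ (w + 1), ∃ r : ZMod 2, ∀ p i, ∀ k < 2 * w + 2, cf D p i k = fr (2 * w + 1) (i + r) k) ∧
    (∃ Q ∈ KJ w, ⁅y, Q * (vG x y u false w)⁻¹⁆ ∈ KJ (w + 2) ∧
      ∀ p i, ∀ k < 2 * w + 2, cf Q p i k = fr (2 * w + 1) 1 k) ∧
    (∃ P ∈ KJ (w + 1), ⁅u, P⁆ ∈ KJ (w + 4) ∧ ⁅h, P⁆ ∈ KJ (w + 4) ∧ ⁅q, P⁆ ∈ KJ (w + 4) ∧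
      ∀ p i, ∀ k < 2 * w + 1, cf P p i k = fr (2 * w) 1 k) ∧
    ∃ P ∈ KJ (w + 1), ⁅u, P⁆ ∈ KJ (w + 5) ∧ ⁅h, P⁆ ∈ KJ (w + 5) ∧ ⁅q, P⁆ ∈ KJ (w + 5) ∧
      ∀ p i, ∀ k < 2 * w + 3, cf P p i k = fr (2 * w + 2) 1 k

end Pool.Agent.Lib.MP_ffb54b_al.P2
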