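import Pool.Agent.Lib.MP_ffb54b_al.P2.EDef

set_option autoImplicit false
set_option linter.unusedSectionVars false

namespace Pool.Agent.Lib.MP_ffb54b_al.P2

open Finset Filter

universe u

variable {U : Ultrafilter ℕ} {G : ℕ → Type u} [∀ n, Group (G n)] {K : ∀ n, ℕ → Subgroup (G n)}

lemma Good.bb {σ : Bil} (h : Good σ) (h0 : σ (ee false) (ee false) = 0) {s₁ s₂ : ZMod 2}
    (e : s₁ • σ (ee true) (ee true) + s₂ • σ (ee true) (ee false) = 0) : s₁ = 0 ∧ s₂ = 0 := by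
  have m := h.minor
  have e1 := congrFun e true
  have e2 := congrFun e false
  simp only [h0, Pi.zero_apply, mul_zero, and_true, Pi.add_apply, Pi.smul_apply, smul_eq_mul]
    at m e1 e2
  clear e
  revert m e1 e2
  generalize σ (ee true) (ee true) true = a1
  generalize σ (ee true) (ee true) false = a2
  generalize σ (ee true) (ee false) true = b1
  generalize σ (ee true) (ee false) false = b2
  revert a1 a2 b1 b2 s₁ s₂
  decide

lemma vb_sum (t : ZMod 2) (w : W2) :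
    w = w true • vb t true + (w false + t * w true) • vb t false := by
  revert t w; decide

lemma Inf.add_nonneg {ν d : Pos U} (h : Inf ν) (hd : 0 ≤ d) : Inf (ν + d) := h.mono (by linarith)

/-- `a` lies in `F ν` and has `V`-class `v`. -/
def Cl (H : Fam U K) (c : Pos U → H.L → W2 × W2) (ν : Pos U) (a : H.L) (v : W2) : Prop :=
  a ∈ H.F ν ∧ (c ν a).1 = v

lemma Cl.cast {H : Fam U K} {c : Pos U → H.L → W2 × W2} {ν μ : Pos U} {a : H.L} {v : W2}
    (h : Cl H c ν a v) (e : ν = μ) : Cl H c μ a v := e ▸ h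

namespace S1L

open Fam

variable {H : Fam U K} {x y u : ∀ n, G n} {c : Pos U → H.L → W2 × W2} {σ : Pos U → Bil}
  (S : S1L H x y u c σ) {ν μ κ m m' i j l : Pos U} {a a' k k' p p' q r : H.L} {e : ℕ} {v w : W2}
include S

lemma cl_add (hν : Inf ν) (h : Cl H c ν a v) (h' : Cl H c ν a' w) : Cl H c ν (a + a') (v + w) :=
  ⟨add_mem h.1 h'.1, by rw [S.add hν h.1 h'.1, Prod.fst_add, h.2, h'.2]⟩

lemma cl_sub (hν : Inf ν) (h : Cl H c ν a v) (h' : Cl H c ν a' w) : Cl H c ν (a - a') (v + w) :=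
  ⟨sub_mem h.1 h'.1, by rw [S.c_sub hν h.1 h'.1, Prod.fst_add, h.2, h'.2]⟩

lemma cl_val (hν : Inf ν) (s : ZMod 2) (h : Cl H c ν a v) : Cl H c ν (s.val • a) (s • v) :=
  ⟨nsmul_mem h.1 _, by rw [S.c_val hν, Prod.smul_fst, h.2]⟩

lemma cl_deep (hν : Inf ν) (h : a ∈ H.F (ν + 1)) : Cl H c ν a 0 := ⟨H.up1 h, S.cW_deep hν h⟩

lemma cl_K (hν : Inf ν) (h : k ∈ H.Ks y ν) : Cl H c ν k 0 := ⟨K_F h, S.K_cW hν h⟩

lemma cl_Y (hν : Inf ν) (h : Cl H c ν a v) : Cl H c (ν + 1) (H.Y y a) v :=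
  ⟨S.Y_mem h.1, (S.cW_Y hν h.1).trans h.2⟩

lemma cl_X (hν : Inf ν) (h : Cl H c ν a v) : Cl H c (ν + 1) (H.Y x a) (red 2 ν • v) :=
  ⟨S.deg _ h.1, by
    have := congrArg Prod.fst (S.one hν h.1 true)
    rw [h.2, lam, if_pos rfl, one_mul] at this
    exact this⟩

lemma cl_π (hν : Inf ν) (h : Cl H c ν a v) : Cl H c ν (H.π y a) v :=
  ⟨P_F (S.π_spec hν h.1).1, (S.cW_π hν h.1).trans h.2⟩

lemma cl_zero (hν : Inf ν) (h : Cl H c ν a v) (h' : a ∈ H.F (ν + 1)) : v = 0 :=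
  h.2.symm.trans (S.cW_deep hν h')

lemma π_val (hν : Inf ν) (s : ZMod 2) : H.π y (s.val • a) = s.val • H.π y a := by
  rcases z2' s with rfl | rfl
  · simpa using S.π_K hν (zero_mem _)
  · simp [ZMod.val_one]

lemma π_mem_iff (hν : Inf ν) (ha : a ∈ H.F ν) (w : ℕ) :
    (H.Y y ^ w) a ∈ H.F (ν + 2 * w) ↔ H.π y a ∈ H.F (ν + w) := by
  obtain ⟨k, hk, p, hp, rfl⟩ := S.decomp hν ha
  rw [S.π_eq hν hk hp, map_add, add_mem_cancel_left (hk w)]
  refine ⟨fun h => ?_, fun h => H.cast (S.Ypow_mem w h) (by ring)⟩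
  have key : ∀ t ≤ w, p ∈ H.Ps y (ν + t) := fun t => by
    induction t with
    | zero => simpa using hp
    | succ t ih =>
      intro ht
      obtain ⟨s, rfl⟩ := Nat.exists_eq_add_of_lt ht
      have h1 := ih (by omega)
      rw [Nat.cast_succ, ← add_assoc]
      refine S.P_succ (hν.add_nat t) h1 ?_
      rw [← S.cW_Ypow (t + s + 1) (hν.add_nat t) (P_F h1)]
      exact S.cW_deep ((hν.add_nat t).add_nat _) (H.up h s (by push_cast; ring))
  exact P_F (key w le_rfl)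

lemma win_π {g : ∀ n, G n} {ε : Pos U → H.L} {w : ℕ} {f : ℕ → ZMod 2} (hν : Inf ν)
    (he : ∀ {ν}, Inf ν → ε ν ∈ H.F ν) (h : H.WinL y g ε ν w f) :
    H.π y (H.ρ g (ε ν)) - ∑ t ∈ range w, (f t).val • H.π y (ε (ν + t)) ∈ H.F (ν + w) := by
  have m : ∀ t : ℕ, ε (ν + t) ∈ H.F ν := fun t => H.up (he (hν.add_nat t)) t rfl
  have ms : ∀ n, ∑ t ∈ range n, (f t).val • ε (ν + t) ∈ H.F ν := fun n =>
    sum_mem fun t _ => nsmul_mem (m t) _
  have m0 := H.pns.ρ_mem_F g (he hν)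
  have e1 : ∀ n, H.π y (∑ t ∈ range n, (f t).val • ε (ν + t)) =
      ∑ t ∈ range n, (f t).val • H.π y (ε (ν + t)) := fun n => by
    induction n with
    | zero => simpa using S.π_K hν (zero_mem _)
    | succ n ih => rw [sum_range_succ, sum_range_succ, S.π_add hν (ms n) (nsmul_mem (m n) _), ih,
        S.π_val hν]
  have := (S.π_mem_iff hν (sub_mem m0 (ms w)) w).1 h
  rwa [S.π_sub hν m0 (ms w), e1] at this

lemma Th_smul (hT : H.ExKP y e) (hm : Inf m) (hj : Inf j) (hk : k ∈ H.Ks y m) (s : ZMod 2) (v : W2) :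
    S.Th e m j k (s • v) = s • S.Th e m j k v := by
  rcases z2' s with rfl | rfl
  · simpa using S.Th_add hT hm hj hk 0 0
  · simp

lemma cl_lie (hT : H.ExKP y e) (hm : Inf m) (hj : Inf j) (hk : k ∈ H.Ks y m) (hp : p ∈ H.Ps y j) :
    Cl H c (m + j + e) ⁅k, p⁆ (S.Th e m j k (c j p).1) := ⟨hT hm hj hk hp, S.Th_eq hT hm hj hk hp⟩

lemma lie_PK (hμ : Inf μ) (hν : Inf ν) (hp : p ∈ H.Ps y μ) (hk : k ∈ H.Ks y ν) :
    ⁅p, k⁆ ∈ H.Ps y (μ + ν) := by
  rw [← lie_skew, add_comm]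
  exact neg_mem (S.lie_KP hν hμ hk hp)

omit S in
lemma exPK (hT : H.ExKP y e) (hμ : Inf μ) (hν : Inf ν) (hp : p ∈ H.Ps y μ) (hk : k ∈ H.Ks y ν) :
    ⁅p, k⁆ ∈ H.F (μ + ν + e) := by
  rw [← lie_skew, add_comm μ]
  exact neg_mem (hT hν hμ hk hp)

/-- the `P`-part of a bracket. -/
lemma π_lie (hμ : Inf μ) (hν : Inf ν) (ha : a ∈ H.F μ) (ha' : a' ∈ H.F ν) :
    H.π y ⁅a, a'⁆ = ⁅a - H.π y a, H.π y a'⁆ + ⁅H.π y a, a' - H.π y a'⁆ := by
  obtain ⟨k, hk, p, hp, rfl⟩ := S.decomp hμ ha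
  obtain ⟨k', hk', p', hp', rfl⟩ := S.decomp hν ha'
  rw [S.π_eq hμ hk hp, S.π_eq hν hk' hp', add_sub_cancel_right, add_sub_cancel_right,
    ← S.π_eq (hμ.add hν) (add_mem (lie_KK hk hk') (S.lie_PP hμ hν hp hp'))
      (add_mem (S.lie_KP hμ hν hk hp') (S.lie_PK hμ hν hp hk'))]
  congr 1
  simp only [add_lie, lie_add]; abel

lemma π_lie_mem (hT : H.ExKP y e) (hμ : Inf μ) (hν : Inf ν) (ha : a ∈ H.F μ) (ha' : a' ∈ H.F ν) :
    H.π y ⁅a, a'⁆ ∈ H.F (μ + ν + e) := by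
  rw [S.π_lie hμ hν ha ha']
  exact add_mem (hT hμ hν (S.π_spec hμ ha).2 (S.π_spec hν ha').1)
    (exPK hT hμ hν (S.π_spec hμ ha).1 (S.π_spec hν ha').2)

/-- the `P`-part of `g - 1` on a bracket `[k, p]`. -/
lemma π_Y_lie (g : ∀ n, G n) (hT : H.ExKP y e) (hm : Inf m) (hj : Inf j) (hk : k ∈ H.Ks y m)
    (hp : p ∈ H.Ps y j) (s : ℕ) (h : H.Y g k ∈ H.F (m + s)) :
    H.π y (H.Y g ⁅k, p⁆) - ⁅k, H.π y (H.Y g p)⁆ ∈ H.F (m + j + e + s) := by
  have h1 : H.Y g p ∈ H.F j := H.up1 (S.deg g (P_F hp))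
  have h2 : H.Y g k ∈ H.F m := H.up h s rfl
  have hs := hm.add_nat s
  have n1 := H.lie_mem h2 (P_F hp)
  have n2 := H.lie_mem (K_F hk) h1
  have n3 := H.lie_mem h2 h1
  rw [Y_lie, S.π_add (hm.add hj) (add_mem n1 n2) n3, S.π_add (hm.add hj) n1 n2,
    S.π_lie hm hj (K_F hk) h1, S.π_K hm hk, zero_lie, add_zero, sub_zero]
  convert H.cast (add_mem (S.π_lie_mem hT hs hj h (P_F hp)) (S.π_lie_mem hT hs hj h h1))
    (show m + s + j + e = m + j + e + s by ring) using 1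
  abel

/-- `x` at order one. -/
lemma x_order (hT : H.ExKP y e) (hm : Inf m) (hj : Inf j) (hk : k ∈ H.Ks y m) (v : W2) :
    red 2 (m + e : Pos U) • S.Th e m j k v = 0 := by
  have hp := S.pw_P hj v
  have hN := (hm.add hj).add_nat e
  have h1 := S.cl_π hN.succ (S.cl_X hN (S.cl_lie hT hm hj hk hp))
  have h2 := S.cl_π hj.succ (S.cl_X hj (v := v) ⟨P_F hp, S.cW_pw hj v⟩)
  have h3 := S.cl_lie hT hm hj.succ hk (S.π_spec hj.succ (S.deg x (P_F hp))).1
  have h4 := S.π_Y_lie x hT hm hj hk hp 2 (H.cast (S.cen (i := 1) le_rfl hm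
    (.of_forall (S.vG_mem true 1)) (K_F hk) (S.K_cW hm hk)) (by push_cast; ring))
  have h5 := S.cl_zero hN.succ (S.cl_sub hN.succ h1 (h3.cast (by ring))) (H.cast h4 (by
    push_cast; ring))
  rw [show (c (j + 1) (H.π y (H.ρ x (S.pw j v) - S.pw j v))).1 = _ from h2.2, S.Th_succ hT hm hj hk,
    S.Th_smul hT hm hj hk, S.cW_pw hj, ← add_smul] at h5
  rw [← h5]
  congr 1
  simp only [map_add]
  generalize red 2 j = z
  generalize red 2 m = a
  generalize red 2 (e : Pos U) = b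
  revert a b z
  decide

end S1L

namespace Ctr

open Fam

variable {H : Fam U K} {y : ∀ n, G n} {A : H.L →+ H.L} {d ν : Pos U} {a k p : H.L} (hA : Ctr H A d)
include hA

lemma Y (g : ∀ n, G n) (a : H.L) : A (H.Y g a) = H.Y g (A a) := by
  rw [Y_apply, Y_apply, map_sub, hA.equi]

lemma Ypow (j : ℕ) (a : H.L) : A ((H.Y y ^ j) a) = (H.Y y ^ j) (A a) := by
  induction j with
  | zero => rfl
  | succ j ih => rw [Y_succ, Y_succ, hA.Y, ih]

lemma memK (hν : Inf ν) (hk : k ∈ H.Ks y ν) : A k ∈ H.Ks y (ν + d) := fun j => by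
  rw [← hA.Ypow]
  exact H.cast (hA.mem (hν.of_eq (2 * j) (by push_cast; ring)) (hk j)) (by ring)

lemma memP (hν : Inf ν) (hp : p ∈ H.Ps y ν) : A p ∈ H.Ps y (ν + d) := fun j => by
  obtain ⟨w, hw, e⟩ := hp j
  exact ⟨A w, H.cast (hA.mem (hν.sub_nat j) hw) (by ring), by rw [← hA.Ypow, e]⟩

lemma lie' (a b : H.L) : A ⁅a, b⁆ = ⁅a, A b⁆ := by
  rw [← lie_skew, map_neg, hA.lie, lie_skew]

end Ctr

namespace EH

open Fam

variable {H : Fam U K} {x y u : ∀ n, G n} {c : Pos U → H.L → W2 × W2} {σ : Pos U → Bil}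
  {b : Bool → Pos U → H.L} {ch : Pos U → ZMod 2} {t c₆ c₇ c₈ : ZMod 2}
  (E : EH H x y u c σ b ch t c₆ c₇ c₈) {ν μ m i j l : Pos U} {a a' k k' p p' q r : H.L} {e : ℕ}
include E

lemma bP (s : Bool) (hν : Inf ν) : H.π y (b s ν) ∈ H.Ps y ν := (E.s.π_spec hν (E.e_mem s hν)).1

lemma bK (s : Bool) (hν : Inf ν) : b s ν - H.π y (b s ν) ∈ H.Ks y ν :=
  (E.s.π_spec hν (E.e_mem s hν)).2

lemma bC (s : Bool) (hν : Inf ν) : Cl H c ν (H.π y (b s ν)) (vb t s) :=
  E.s.cl_π hν ⟨E.e_mem s hν, E.e_cls s hν⟩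

lemma P_span (hν : Inf ν) (hp : p ∈ H.Ps y ν) : ∃ s₁ s₂ : ZMod 2,
    p - (s₁.val • H.π y (b true ν) + s₂.val • H.π y (b false ν)) ∈ H.Ps y (ν + 1) ∧
      (c ν p).1 = s₁ • vb t true + s₂ • vb t false :=
  ⟨_, _, E.s.P_sub hν hp (add_mem (nsmul_mem (E.bP _ hν) _) (nsmul_mem (E.bP _ hν) _))
    ((vb_sum t _).trans (E.s.cl_add hν (E.s.cl_val hν _ (E.bC _ hν))
      (E.s.cl_val hν _ (E.bC _ hν))).2.symm), vb_sum t _⟩

lemma wy (s : Bool) (hν : Inf ν) : H.Y y (H.π y (b s ν)) - H.π y (b s (ν + 1)) -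
    (red 2 ν + ind s).val • H.π y (b s (ν + 2)) ∈ H.F (ν + 3) := by
  have h := E.s.win_π hν (E.e_mem s) (E.winy s hν)
  have m := E.e_mem s hν
  rw [show H.ρ y (b s ν) = H.Y y (b s ν) + b s ν by rw [Y_apply, sub_add_cancel],
    E.s.π_add hν (H.up1 (E.s.Y_mem m)) m, E.s.π_Y hν m] at h
  simp only [sum_range_succ, sum_range_zero, fy, ZMod.val_one, one_smul, Nat.cast_zero,
    Nat.cast_one, Nat.cast_ofNat, add_zero, zero_add] at h
  have h3 := nsmul_mem (P_F (E.bP s (hν.add_nat 3))) (red 2 ν + ind s).val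
  have h4 := nsmul_mem (H.up (P_F (E.bP s (hν.add_nat 4))) (ν := ν + 3) 1 (by push_cast; ring))
    (ch ν + ind s * (red 2 ν + 1)).val
  simp only [Nat.cast_ofNat] at h3 h4
  convert add_mem (add_mem (H.up h (ν := ν + 3) 2 (by push_cast; ring)) h3) h4 using 1
  abel

lemma wu (s : Bool) (hν : Inf ν) :
    H.π y (H.Y u (H.π y (b s ν))) - H.π y (b s (ν + 3)) ∈ H.F (ν + 5) := by
  have h := E.s.win_π hν (E.e_mem s) (E.winu s hν)
  have m := P_F (E.bP s hν)
  have m1 : H.Y u (H.π y (b s ν)) ∈ H.F ν := H.up1 (E.s.deg u m)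
  have m2 := H.pns.ρ_mem_F u (K_F (E.bK s hν))
  rw [show H.ρ u (b s ν) = H.Y u (H.π y (b s ν)) + H.π y (b s ν) + H.ρ u (b s ν - H.π y (b s ν)) by
    rw [Y_apply, map_sub]; abel, E.s.π_add hν (add_mem m1 m) m2, E.s.π_add hν m1 m,
    E.s.π_P hν (E.bP s hν)] at h
  simp only [sum_range_succ, sum_range_zero, fu, ZMod.val_one, one_smul, Nat.cast_zero,
    Nat.cast_ofNat, add_zero, zero_add, ZMod.val_zero, zero_smul] at h
  have h6 := nsmul_mem (H.up (P_F (E.bP s (hν.add_nat 6))) (ν := ν + 5) 1 (by push_cast; ring))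
    (red 2 ν + ind s).val
  simp only [Nat.cast_ofNat] at h6
  convert sub_mem (add_mem (H.up h (ν := ν + 5) 2 (by push_cast; ring)) h6)
    (E.kst hν (E.bK s hν)) using 1
  abel

lemma wu' (hν : Inf ν) (hp : p ∈ H.Ps y ν) : Cl H c (ν + 3) (H.π y (H.Y u p)) (c ν p).1 := by
  have hU : ∀ {ν a}, a ∈ H.F ν → H.Y u a ∈ H.F ν := fun ha => H.up1 (E.s.deg u ha)
  have step : ∀ {ν p}, Inf ν → p ∈ H.Ps y ν → ∃ p' ∈ H.Ps y (ν + 1),
      Cl H c (ν + 3) (H.π y (H.Y u p) - H.π y (H.Y u p')) (c ν p).1 := by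
    intro ν p hν hp
    obtain ⟨s₁, s₂, h1, h2⟩ := E.P_span hν hp
    have h3 : Inf (ν + 3) := by simpa using hν.add_nat 3
    have h4 : ∀ s, Cl H c (ν + 3) (H.π y (H.Y u (H.π y (b s ν)))) (vb t s) := fun s => by
      simpa using E.s.cl_add h3 (E.s.cl_deep h3 (H.up (E.wu s hν) 1 (by push_cast; ring)))
        (E.bC s h3)
    refine ⟨_, h1, ?_⟩
    have m : ∀ s (z : ZMod 2), z.val • H.Y u (H.π y (b s ν)) ∈ H.F ν := fun s z =>
      nsmul_mem (hU (P_F (E.bP s hν))) _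
    rw [← E.s.π_sub hν (hU (P_F hp)) (hU (H.up1 (P_F h1))), ← map_sub, sub_sub_cancel, map_add,
      map_nsmul, map_nsmul, E.s.π_add hν (m _ _) (m _ _), E.s.π_val hν, E.s.π_val hν, h2]
    exact E.s.cl_add h3 (E.s.cl_val h3 _ (h4 _)) (E.s.cl_val h3 _ (h4 _))
  have key : ∀ d ≤ 3, ∀ {ν p}, Inf ν → p ∈ H.Ps y ν → H.π y (H.Y u p) ∈ H.F (ν + (d : ℕ)) := by
    intro d
    induction d with
    | zero => exact fun _ ν p hν hp => by simpa using P_F (E.s.π_spec hν (hU (P_F hp))).1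
    | succ d ih =>
      intro hd ν p hν hp
      obtain ⟨p', h1, h2⟩ := step hν hp
      obtain ⟨f, hf⟩ := Nat.exists_eq_add_of_le hd
      simpa using add_mem (H.up h2.1 (ν := ν + (d + 1 : ℕ)) f (by
        rw [add_assoc, ← Nat.cast_add, ← hf]; rfl))
        (H.cast (ih (by omega) hν.succ h1) (by push_cast; ring))
  obtain ⟨p', h1, h2⟩ := step hν hp
  have h3 : Inf (ν + 3) := by simpa using hν.add_nat 3
  simpa using E.s.cl_add h3 h2 (E.s.cl_deep h3 (H.cast (key 3 le_rfl hν.succ h1)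
    (by push_cast; ring)))

/-- An operator of even degree that almost commutes with `y` and `u` has no `N`-part. -/
theorem comm (A : H.L →+ H.L) {d : Pos U} (hd : 0 ≤ d) (hd2 : red 2 d = 0) {s n : ZMod 2}
    (hP : ∀ {ν p}, Inf ν → p ∈ H.Ps y ν → A p ∈ H.Ps y (ν + d))
    (hY : ∀ {ν p}, Inf ν → p ∈ H.Ps y ν → H.Y y (A p) - A (H.Y y p) ∈ H.F (ν + d + 3))
    (hU : ∀ {ν p}, Inf ν → p ∈ H.Ps y ν →
      H.π y (H.Y u (A p)) - A (H.π y (H.Y u p)) ∈ H.F (ν + d + 5))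
    (hM : ∀ {ν p}, Inf ν → p ∈ H.Ps y ν →
      (c (ν + d) (A p)).1 = s • (c ν p).1 + (n * (c ν p).1 true) • ee false)
    (hν : Inf ν) : n = 0 := by
  have S := E.s
  let ε : Bool → Pos U → H.L := fun s ν => H.π y (b s ν)
  let r : Pos U → H.L := fun ν => A (ε true ν) - s.val • ε true (ν + d) - n.val • ε false (ν + d)
  have hA : ∀ {ν}, Inf ν → Cl H c (ν + d) (A (ε true ν)) (s • vb t true + n • vb t false) :=
    fun hν => ⟨P_F (hP hν (E.bP _ hν)), by
      rw [hM hν (E.bP _ hν), (E.bC _ hν).2]; simp [vb, ee]⟩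
  have hr : ∀ {ν}, Inf ν → r ν ∈ H.Ps y (ν + d + 1) := fun {ν} hν => by
    have h0 := hν.add_nonneg hd
    refine S.P_succ h0 (sub_mem (sub_mem (hP hν (E.bP _ hν)) (nsmul_mem (E.bP _ h0) _))
      (nsmul_mem (E.bP _ h0) _)) ((S.cl_sub h0 (S.cl_sub h0 (hA hν) (S.cl_val h0 _ (E.bC _ h0)))
        (S.cl_val h0 _ (E.bC _ h0))).2.trans ?_)
    rw [add_assoc, w2_add_self]
  let a₁ : Pos U → W2 := fun ν => (c (ν + d + 1) (r ν)).1
  have ha : ∀ {ν}, Inf ν → Cl H c (ν + d + 1) (r ν) (a₁ ν) := fun hν => ⟨P_F (hr hν), rfl⟩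
  have eY : ∀ {ν}, Inf ν → a₁ (ν + 1) = a₁ ν + n • vb t false := by
    intro ν hν
    have h0 := hν.add_nonneg hd
    have h2 : Inf (ν + 2) := by simpa using hν.add_nat 2
    have h3 : Inf (ν + d + 2) := by simpa using h0.add_nat 2
    have w1 := E.wy true h0
    have w2 := E.wy false h0
    have w3 := P_F (hP (hν.add_nat 3) (S.P_of_F hν (sub_mem (sub_mem (P_up (S.P_Y (E.bP true hν)) 1
      (by simp)) (P_up (E.bP true hν.succ) 1 (by simp))) (nsmul_mem (P_up (E.bP true h2) 2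
      (by simp)) _)) 3 (E.wy true hν)))
    rw [map_add (red 2), hd2, add_zero] at w1 w2
    have k1 := S.cl_sub h3 (S.cl_sub h3 (S.cl_add h3 (S.cl_add h3
      (S.cl_val h3 s (S.cl_val h3 (red 2 ν + ind true) (E.bC true h3)))
      (S.cl_val h3 n (S.cl_val h3 (red 2 ν + ind false) (E.bC false h3))))
      ((S.cl_Y h0.succ (ha hν)).cast (by ring))) ((ha hν.succ).cast (by ring)))
      (S.cl_val h3 (red 2 ν + ind true) ((hA h2).cast (by ring)))
    have k2 := S.cl_zero h3 k1 (by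
      convert H.cast (add_mem (sub_mem (sub_mem (hY hν (E.bP true hν)) (nsmul_mem w1 s.val))
        (nsmul_mem w2 n.val)) (H.cast w3 (by push_cast; ring))) (show _ = ν + d + 2 + 1 by ring)
        using 1
      simp only [r, ε, map_sub, map_nsmul, smul_sub, show ν + 1 + d = ν + d + 1 by ring]
      abel)
    revert k2
    generalize a₁ (ν + 1) = v1
    generalize a₁ ν = v0
    generalize red 2 ν = z
    clear * -
    revert v0 v1 z s n t
    decide
  have eU : a₁ (ν + 3) = a₁ ν := by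
    have h0 := hν.add_nonneg hd
    have h3 : Inf (ν + 3) := by simpa using hν.add_nat 3
    have h4 : Inf (ν + d + 4) := by simpa using h0.add_nat 4
    have hU' : ∀ {ν a}, a ∈ H.F ν → H.Y u a ∈ H.F ν := fun ha => H.up1 (E.s.deg u ha)
    have w3 := P_F (hP (hν.add_nat 5) (S.P_of_F hν (sub_mem (S.π_spec hν (hU' (P_F (E.bP true hν)))).1
      (P_up (E.bP true h3) 3 (by simp))) 5 (E.wu true hν)))
    have k1 := S.cl_sub h4 ((E.wu' h0.succ (hr hν)).cast (by ring)) ((ha h3).cast (by ring))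
    have m1 := hU' (P_F (hP hν (E.bP true hν)))
    have m2 : ∀ s' (z : ZMod 2), z.val • H.Y u (ε s' (ν + d)) ∈ H.F (ν + d) := fun s' z =>
      nsmul_mem (hU' (P_F (E.bP s' h0))) _
    have k2 := S.cl_zero h4 k1 (by
      convert H.cast (add_mem (add_mem (add_mem (hU hν (E.bP true hν))
        (neg_mem (nsmul_mem (E.wu true h0) s.val))) (neg_mem (nsmul_mem (E.wu false h0) n.val)))
        (H.cast w3 (by push_cast; ring))) (show _ = ν + d + 4 + 1 by ring) using 1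
      simp only [r, map_sub, map_nsmul]
      rw [S.π_sub h0 (sub_mem m1 (m2 _ _)) (m2 _ _), S.π_sub h0 m1 (m2 _ _), S.π_val h0, S.π_val h0]
      simp only [ε, smul_sub, show ν + 3 + d = ν + d + 3 by ring]
      abel)
    exact (w2_eq_of_add k2).symm
  have e1 := eY hν
  have e2 := eY hν.succ
  have e3 := eY hν.succ.succ
  rw [show ν + 1 + 1 + 1 = ν + 3 by ring, eU, e2, e1] at e3
  revert e3
  generalize a₁ ν = v
  clear * -
  revert v n t
  decide

lemma K_rep (hi : Inf i) (hj : Inf j) (hk : k ∈ H.Ks y (i + j)) : ∃ s₁ s₂ : ZMod 2,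
    k - (s₁.val • ⁅E.s.pw i (ee true), E.s.pw j (ee true)⁆ +
      s₂.val • ⁅E.s.pw i (ee true), E.s.pw j (ee false)⁆) ∈ H.Ks y (i + j + 1) := by
  have S := E.s
  have hN := hi.add hj
  rcases z2' (red 2 (i + j)) with ho | ho
  · exact ⟨0, 0, by simpa using S.K_even hN hk ho⟩
  obtain ⟨s₁, s₂, s₃, h⟩ := S.σ_span hN ho (c (i + j) k).2
  have mm : ∀ s (z : ZMod 2), z.val • ⁅S.pw i (ee true), S.pw j (ee s)⁆ ∈ H.Ks y (i + j) :=
    fun s z => nsmul_mem (S.lie_PP hi hj (S.pw_P hi _) (S.pw_P hj _)) _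
  refine ⟨s₁, s₂, S.K_sub hN hk (add_mem (mm _ _) (mm _ _)) ?_⟩
  rw [S.add hN (K_F (mm _ _)) (K_F (mm _ _)), S.c_val hN, S.c_val hN]
  simp only [Prod.snd_add, Prod.smul_snd, S.cZ_lie hi hj (S.pw_F hi _) (S.pw_F hj _),
    S.cW_pw hi, S.cW_pw hj]
  rw [h, E.bb hN, smul_zero, add_zero]

lemma K_indep (hi : Inf i) (hj : Inf j) (ho : red 2 (i + j) = 1) (hp : Cl H c i p (ee true))
    (hq : Cl H c j q (ee true)) (hr : Cl H c j r (ee false)) {s₁ s₂ : ZMod 2}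
    (h : s₁.val • ⁅p, q⁆ + s₂.val • ⁅p, r⁆ ∈ H.F (i + j + 1)) : s₁ = 0 ∧ s₂ = 0 := by
  have S := E.s
  have hN := hi.add hj
  have h1 := S.cZ_deep hN h
  rw [S.add hN (nsmul_mem (H.lie_mem hp.1 hq.1) _) (nsmul_mem (H.lie_mem hp.1 hr.1) _), S.c_val hN,
    S.c_val hN, Prod.snd_add, Prod.smul_snd, Prod.smul_snd, S.cZ_lie hi hj hp.1 hq.1,
    S.cZ_lie hi hj hp.1 hr.1, hp.2, hq.2, hr.2] at h1
  exact (S.good hN ho).bb (E.bb hN) h1

/-- A centroid operator has even degree and symbol one. -/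
theorem ctr_symbol {A : H.L →+ H.L} {d : Pos U} (hA : Ctr H A d) :
    red 2 d = 0 ∧ ∀ {ν a}, Inf ν → a ∈ H.F ν → (c (ν + d) (A a)).1 = (c ν a).1 := by
  have S := E.s
  have hd := hA.nonneg
  let M : Pos U → W2 → W2 := fun j v => (c (j + d) (A (S.pw j v))).1
  have m1 : ∀ {j : Pos U} {a : H.L}, Inf j → a ∈ H.F j → Cl H c (j + d) (A a) (M j (c j a).1) := by
    intro j a hj ha
    have h0 := hj.add_nonneg hd
    have h1 := S.π_spec hj ha
    have h2 := S.P_sub hj h1.1 (S.pw_P hj (c j a).1) (by rw [S.cW_pw hj, S.cW_π hj ha])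
    have := S.cl_add h0 (S.cl_add h0 (S.cl_K h0 (hA.memK hj h1.2)) (S.cl_deep h0
      (H.cast (hA.mem hj.succ (P_F h2)) (by ring)))) ⟨hA.mem hj (S.pw_F hj (c j a).1), rfl⟩
    rw [← map_add, ← map_add, zero_add, zero_add] at this
    convert this using 2
    abel
  have madd : ∀ {j : Pos U} v w, Inf j → M j (v + w) = M j v + M j w := by
    intro j v w hj
    have h := (m1 hj (add_mem (S.pw_F hj v) (S.pw_F hj w))).2
    rw [S.add hj (S.pw_F hj _) (S.pw_F hj _), Prod.fst_add, S.cW_pw hj, S.cW_pw hj, map_add,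
      S.add (hj.add_nonneg hd) (hA.mem hj (S.pw_F hj _)) (hA.mem hj (S.pw_F hj _))] at h
    exact h.symm
  have msum : ∀ {j : Pos U} v, Inf j → M j v = v true • M j (ee true) + v false • M j (ee false) := by
    intro j v hj
    have z1 : M j 0 = 0 := by simpa using madd 0 0 hj
    conv_lhs => rw [W2.eq_sum v, madd _ _ hj]
    rcases z2' (v true) with h1 | h1 <;> rcases z2' (v false) with h3 | h3 <;>
      simp only [h1, h3, zero_smul, one_smul, z1]
  have mY : ∀ {j : Pos U} v, Inf j → M (j + 1) v = M j v := by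
    intro j v hj
    have h := (m1 hj.succ (S.Y_mem (S.pw_F hj v))).2
    rw [S.cW_Y hj (S.pw_F hj _), S.cW_pw hj, hA.Y, S.c_cast (show j + 1 + d = j + d + 1 by ring),
      S.cW_Y (hj.add_nonneg hd) (hA.mem hj (S.pw_F hj _))] at h
    exact h.symm
  have rel : ∀ {i j : Pos U}, Inf i → Inf j → ∀ s t,
      σ (i + j + d) (M i (ee s)) (ee t) = σ (i + j + d) (ee s) (M j (ee t)) := by
    intro i j hi hj s t
    have h1 := S.cZ_lie (hi.add_nonneg hd) hj (hA.mem hi (S.pw_F hi (ee s))) (S.pw_F hj (ee t))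
    have h3 := S.cZ_lie hi (hj.add_nonneg hd) (S.pw_F hi (ee s)) (hA.mem hj (S.pw_F hj (ee t)))
    rw [show i + d + j = i + j + d by ring, ← hA.lie, S.cW_pw hj] at h1
    rw [show i + (j + d) = i + j + d by ring, ← hA.lie', S.cW_pw hi] at h3
    exact h1.symm.trans h3
  obtain ⟨ν, a₀, hν, ha₀, hne⟩ := hA.ne
  have hb : ∀ {j}, Inf j → ∀ t, M j (ee t) = M ν (ee t) := fun {j} hj t => by
    rcases z2' (red 2 (j + ν + d : Pos U)) with h | h
    · rw [← mY _ hν]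
      exact (S.good ((hj.add hν.succ).add_nonneg hd) (by
        rw [← red_succ_of h]; congr 1; ring)).ab (rel hj hν.succ) t
    · exact (S.good ((hj.add hν).add_nonneg hd) h).ab (rel hj hν) t
  obtain ⟨j, hj, ho⟩ : ∃ j, Inf j ∧ red 2 (j + ν + d : Pos U) = 1 := by
    obtain ⟨j, hj, -, -, h⟩ := exists_small hν hν (1 - red 2 (ν + d))
    exact ⟨j, hj, by rw [add_assoc, map_add, h]; ring⟩
  have hN := (hj.add hν).add_nonneg hd
  have g := S.good hN ho
  have r1 := rel hj hν true false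
  rw [hb hj, S.symm _ (ee true), (g.left _).1, (g.left _).2, E.bb hN, smul_zero, add_zero] at r1
  obtain ⟨r2, r3⟩ := g.bb (E.bb hN) (s₁ := M ν (ee false) true)
    (s₂ := M ν (ee false) false + M ν (ee true) true) (by
      rw [add_smul, ← add_assoc, ← r1, w2_add_self])
  set s := M ν (ee true) true with hs
  set n := M ν (ee true) false with hn
  have hM : ∀ {j a}, Inf j → a ∈ H.F j →
      (c (j + d) (A a)).1 = s • (c j a).1 + (n * (c j a).1 true) • ee false := by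
    intro j a hj ha
    rw [(m1 hj ha).2, msum _ hj, hb hj, hb hj, W2.eq_sum (M ν (ee true)),
      W2.eq_sum (M ν (ee false)), r2, ← hs, ← hn, show M ν (ee false) false = s from
        (eq_neg_of_add_eq_zero_left r3).trans (ZMod.neg_eq_self_mod_two s)]
    generalize (c j a).1 = v
    clear_value s n
    clear * -
    revert v s n
    decide
  have nz : ¬ (s = 0 ∧ n = 0) := by
    rintro ⟨s0, n0⟩
    have h1 : ∀ {j p}, Inf j → p ∈ H.Ps y j → A p ∈ H.F (j + d + 1) := fun hj hp =>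
      P_F (S.P_succ (hj.add_nonneg hd) (hA.memP hj hp) (by rw [hM hj (P_F hp), s0, n0]; simp))
    obtain ⟨k, hk, p, hp, rfl⟩ := S.decomp hν ha₀
    refine hne (map_add A k p ▸ add_mem ?_ (h1 hν hp))
    refine S.K_desc hν ((H.F (ν + d + 1)).comap A) 1
      (fun k hk => H.cast (hA.mem (hν.add_nat 1) (K_F hk)) (by push_cast; ring))
      (fun {i j p q} t hi hj ht _ hp hq => ?_) hk
    rw [AddSubgroup.mem_comap, hA.lie]
    exact H.up (H.lie_mem (h1 hi hp) (P_F hq)) t (by linear_combination ht)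
  have hd2 : red 2 d = 0 := by
    have h0 := hν.add_nonneg hd
    have h1 : Cl H c ν (S.pw ν (ee true)) (ee true) := ⟨S.pw_F hν _, S.cW_pw hν _⟩
    have h2 := (S.cl_X h0 (v := _) ⟨hA.mem hν h1.1, hM hν h1.1⟩).2
    have h3 := S.cl_X hν h1
    rw [← hA.Y, show ν + d + 1 = ν + 1 + d by ring, hM hν.succ h3.1, h3.2, h1.2, map_add] at h2
    revert h2 nz
    generalize red 2 ν = z1
    generalize red 2 d = z2
    clear_value s n
    clear * -
    revert z1 z2 s n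
    decide
  have n0 : n = 0 := E.comm A hd hd2 (fun hν hp => hA.memP hν hp)
    (fun _ _ => by rw [hA.Y, sub_self]; exact zero_mem _) (fun {j p} hj hp => by
      have h1 := S.π_spec hj (H.up1 (S.deg u (P_F hp)))
      have h2 := S.π_eq (hj.add_nonneg hd) (hA.memK hj h1.2) (hA.memP hj h1.1)
      rw [← map_add, sub_add_cancel] at h2
      rw [← hA.Y, show H.π y (A (H.Y u p)) = _ from h2, Y_apply, sub_self]
      exact zero_mem _) (fun hν hp => hM hν (P_F hp)) hν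
  have s1 : s = 1 := (z2' s).resolve_left fun h => nz ⟨h, n0⟩
  exact ⟨hd2, fun hj ha => by rw [hM hj ha, s1, n0]; simp⟩

/-- A centroid operator is bijective on the factors. -/
theorem centroid {A : H.L →+ H.L} {d : Pos U} (hA : Ctr H A d) : red 2 d = 0 ∧
    (∀ {ν a}, Inf ν → a ∈ H.F ν → (c (ν + d) (A a)).1 = (c ν a).1) ∧
    (∀ {ν a}, Inf ν → a ∈ H.F ν → A a ∈ H.F (ν + d + 1) → a ∈ H.F (ν + 1)) ∧
    ∀ {ν a'}, Inf ν → a' ∈ H.F (ν + d) → ∃ a ∈ H.F ν, A a - a' ∈ H.F (ν + d + 1) := by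
  have S := E.s
  have hd := hA.nonneg
  obtain ⟨h1, h2⟩ := E.ctr_symbol hA
  have cp : ∀ {j} (hj : Inf j) v, Cl H c (j + d) (A (S.pw j v)) v := fun hj v =>
    ⟨hA.mem hj (S.pw_F hj v), (h2 hj (S.pw_F hj v)).trans (S.cW_pw hj v)⟩
  have cq : ∀ {j} (hj : Inf j) v, Cl H c j (S.pw j v) v := fun hj v => ⟨S.pw_F hj v, S.cW_pw hj v⟩
  refine ⟨h1, h2, fun {ν a} hν ha h => ?_, fun {ν a'} hν ha' => ?_⟩
  · have h0 := hν.add_nonneg hd
    obtain ⟨k, hk, p, hp, rfl⟩ := S.decomp hν ha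
    rw [map_add] at h
    obtain ⟨h3, h4⟩ := S.KP_sep h0 (hA.memK hν hk) (hA.memP hν hp) 1 (by simpa using h)
    refine add_mem ?_ (P_F (S.P_succ hν hp ?_))
    · rcases z2' (red 2 ν) with ho | ho
      · exact K_F (S.K_even hν hk ho)
      obtain ⟨κ, hκ, h5, -, -⟩ := exists_small hν hν 0
      obtain ⟨s₁, s₂, h6⟩ := E.K_rep hκ h5 (K_cast hk (by ring))
      have h7 := sub_mem (K_F h3) (H.cast (hA.mem (hκ.add h5).succ (K_F h6)) (by push_cast; ring))
      rw [map_sub, sub_sub_cancel, map_add, map_nsmul, map_nsmul, hA.lie, hA.lie] at h7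
      obtain ⟨rfl, rfl⟩ := E.K_indep (hκ.add_nonneg hd) h5 (by
        rw [show κ + d + (ν - κ) = ν + d by ring, map_add, h1, ho, add_zero]) (cp hκ _) (cq h5 _)
        (cq h5 _) (H.cast h7 (by push_cast; ring))
      simpa using K_F h6
    · rw [← h2 hν (P_F hp)]
      exact S.cW_deep h0 (by simpa using P_F h4)
  · have h0 := hν.add_nonneg hd
    obtain ⟨k, hk, p, hp, rfl⟩ := S.decomp h0 ha'
    obtain ⟨κ, hκ, h5, -, -⟩ := exists_small hν hν 0
    have hκ' := hκ.add_nonneg hd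
    obtain ⟨s₁, s₂, h6⟩ := E.K_rep hκ' h5 (K_cast hk (by ring))
    have mm : ∀ s (z : ZMod 2), z.val • ⁅S.pw κ (ee true), S.pw (ν - κ) (ee s)⁆ ∈ H.F ν :=
      fun s z => nsmul_mem (H.cast (H.lie_mem (S.pw_F hκ _) (S.pw_F h5 _)) (by ring)) _
    have h7 : ∀ s (z : ZMod 2), z.val • ⁅A (S.pw κ (ee true)) - S.pw (κ + d) (ee true),
        S.pw (ν - κ) (ee s)⁆ ∈ H.F (ν + d + 1) := fun s z => nsmul_mem (H.cast (H.lie_mem
      (P_F (S.P_sub hκ' (hA.memP hκ (S.pw_P hκ _)) (S.pw_P hκ' _)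
        ((cp hκ _).2.trans (S.cW_pw hκ' _).symm))) (S.pw_F h5 _)) (by ring)) _
    refine ⟨_, add_mem (add_mem (mm true s₁) (mm false s₂)) (S.pw_F hν (c (ν + d) p).1), ?_⟩
    convert add_mem (sub_mem (add_mem (h7 true s₁) (h7 false s₂)) (H.cast (K_F h6) (by ring)))
      (P_F (S.P_sub h0 (hA.memP hν (S.pw_P hν _)) hp (cp hν (c (ν + d) p).1).2)) using 1
    simp only [map_add, map_nsmul, hA.lie, sub_lie, smul_sub]
    abel

/-- Normal form of the leading term of triple brackets. -/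
theorem T_normal (hT : H.ExKP y e) (hn : ¬ H.ExKP y (e + 1)) : red 2 (e : Pos U) = 1 ∧
    ∀ {i j l : Pos U} {p q r : H.L}, Inf i → Inf j → Inf l → red 2 (i + j) = 1 →
      p ∈ H.Ps y i → q ∈ H.Ps y j → r ∈ H.Ps y l →
      (c (i + j + l + e) ⁅⁅p, q⁆, r⁆).1 = T0 (c i p).1 (c j q).1 (c l r).1 := by
  have S := E.s
  obtain ⟨ν, hν⟩ : ∃ ν : Pos U, Inf ν := ⟨_, H.free.inf_id⟩
  have h1 := hν.succ
  have o : red 2 (ν + (ν + 1)) = 1 := by
    rw [show ν + (ν + 1) = 2 * ν + 1 by ring, map_add, map_mul, red_two, map_one]; ring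
  have hm := hν.add h1
  obtain ⟨T, s1, s2, hT'⟩ := S.T_const hT hν
  have kk : ∀ s v, ⁅S.pw ν s, S.pw (ν + 1) v⁆ ∈ H.Ks y (ν + (ν + 1)) := fun s v =>
    S.lie_PP hν h1 (S.pw_P hν _) (S.pw_P h1 _)
  have eT : ∀ s v w {l}, Inf l → S.Th e (ν + (ν + 1)) l ⁅S.pw ν s, S.pw (ν + 1) v⁆ w = T s v w :=
    fun s v w l hl => by
      have := hT' hν h1 hl o (S.pw_P hν s) (S.pw_P h1 v) (S.pw_P hl w)
      rwa [S.cW_pw hν, S.cW_pw h1, S.cW_pw hl] at this
  have nz : ¬ ∀ s v w, T s v w = 0 := fun h => hn (S.exKP_succ hT hν h1 hν o fun s v w =>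
    (eT s v w hν).trans (h s v w))
  have he : red 2 (e : Pos U) = 1 := by
    refine (z2' _).resolve_left fun h => nz fun s v w => ?_
    have := S.x_order hT hm hν (kk s v) w
    rwa [map_add, o, h, add_zero, one_smul, eT _ _ _ hν] at this
  have t3 : ∀ s v w, T s v w = w true • T s v (ee true) + w false • T s v (ee false) := by
    intro s v w
    rw [← eT _ _ _ hν, ← eT _ _ _ hν, ← eT _ _ _ hν, ← S.Th_smul hT hm hν (kk s v),
      ← S.Th_smul hT hm hν (kk s v), ← S.Th_add hT hm hν (kk s v), ← W2.eq_sum]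
  have tbb : ∀ w, T (ee false) (ee false) w = 0 := fun w => by
    rw [← eT _ _ _ hν, S1L.Th]
    refine S.cW_deep ((hm.add hν).add_nat e) (H.cast (hT hm.succ hν (S.K_succ' hm (kk _ _) ?_)
      (S.pw_P hν w)) (by ring))
    rw [S.cZ_lie hν h1 (S.pw_F hν _) (S.pw_F h1 _), S.cW_pw hν, S.cW_pw h1, E.bb hm]
  have tf : ∀ s v w, T s v w = (s true * v true * w true) • T (ee true) (ee true) (ee true) +
      T0 s v w false • T (ee true) (ee true) (ee false) := by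
    intro s v w
    have b1 : T (ee true) (ee false) (ee false) = 0 := by rw [s2, tbb]
    have b2 : T (ee false) (ee true) (ee false) = 0 := by rw [s1, b1]
    have b3 : T (ee false) (ee true) (ee true) = T (ee true) (ee true) (ee false) := s2 _ _ _
    have b4 : T (ee true) (ee false) (ee true) = T (ee true) (ee true) (ee false) := by rw [s1, b3]
    rw [t3, s2 s v, s2 s v, t3 v _ s, t3 v _ s, s2 v, s2 v, s2 v, s2 v, t3 _ _ v, t3 (ee true) (ee false) v,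
      t3 (ee false) (ee true) v, tbb, b1, b2, b3, b4]
    simp only [T0, Bool.false_eq_true, if_false]
    module
  have hN := (hm.add hm).add_nat e
  have oN : red 2 (ν + (ν + 1) + (ν + (ν + 1)) + e : Pos U) = 1 := by
    rw [map_add, map_add, o, he]; rfl
  have g := S.good hN oN
  have f1 := S.four_leg hT hm hν h1 (kk (ee true) (ee true)) (ee true) (ee false)
  have f2 := S.four_leg hT hm hν h1 (kk (ee true) (ee false)) (ee true) (ee true)
  rw [← lie_skew, S.c_neg hN (S.exKK hT hm hm (kk _ _) (kk _ _)), f1, eT _ _ _ hν, eT _ _ _ hν,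
    eT _ _ _ h1, eT _ _ _ h1, S.symm _ (ee true), S.symm _ (ee true), w2_add_self, (g.left _).1,
    (g.left _).2, E.bb hN, smul_zero, add_zero] at f2
  set A3 := T (ee true) (ee true) (ee true)
  set A2 := T (ee true) (ee true) (ee false)
  obtain ⟨r2, r3⟩ := g.bb (E.bb hN) (s₁ := A2 true) (s₂ := A3 true + A2 false) (by
    rw [← f2, add_smul]; abel)
  have r4 : A2 false = A3 true := (eq_neg_of_add_eq_zero_right r3).trans (ZMod.neg_eq_self_mod_two _)
  let z := ⁅H.π y (b true ν), H.π y (b true (ν + 1))⁆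
  have hz : z ∈ H.Ks y (ν + (ν + 1)) := S.lie_PP hν h1 (E.bP _ hν) (E.bP _ h1)
  have hz' : ⁅b true ν, b true (ν + 1)⁆ - z ∈ H.F (ν + (ν + 1) + 9) := by
    convert add_mem (add_mem (S.exKK E.ex hν h1 (E.bK true hν) (E.bK true h1))
      (E.ex hν h1 (E.bK true hν) (E.bP true h1))) (S1L.exPK E.ex hν h1 (E.bP true hν) (E.bK true h1))
      using 1
    · rfl
    · simp only [z, sub_lie, lie_sub]; abel
  have hY : ∀ (g : ∀ n, G n) (s : ℕ), s ≤ 9 → H.Y g ⁅b true ν, b true (ν + 1)⁆ ∈ H.F (2 * ν + 1 + s) →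
      H.Y g z ∈ H.F (ν + (ν + 1) + s) := fun g s hs h => by
    obtain ⟨f, hf⟩ := Nat.exists_eq_add_of_le hs
    have h2 := H.up (H.up1 (S.deg g hz')) (ν := ν + (ν + 1) + s) f (by
      rw [add_assoc _ (s : Pos U), ← Nat.cast_add, ← hf]; rfl)
    rw [← Y_apply, map_sub] at h2
    simpa using sub_mem (H.cast h (by ring)) h2
  have hP : ∀ {j p}, Inf j → p ∈ H.Ps y j → ⁅z, p⁆ ∈ H.Ps y (j + (ν + (ν + 1) + e)) :=
    fun hj hp => P_cast (S.P_of_F (hm.add hj) (S.lie_KP hm hj hz hp) e (hT hm hj hz hp)) (by ring)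
  have n0 : A3 false = 0 := E.comm (AddMonoidHom.mk' (fun a => ⁅z, a⁆) (lie_add z))
    (d := ν + (ν + 1) + e) (hm.add_nat e).nonneg (by rw [map_add, o, he]; rfl) (s := A3 true) hP
    (fun {j p} hj hp => by
      have h2 := S.π_Y_lie y hT hm hj hz hp 3 (hY y 3 (by norm_num)
        (H.cast (E.killY hν) (by push_cast; ring)))
      rw [S.π_P hj.succ (S.P_Y hp), S.π_P ((hm.add hj).succ) (S.P_Y (S.lie_KP hm hj hz hp))] at h2
      exact H.cast h2 (by push_cast; ring))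
    (fun {j p} hj hp => H.cast (S.π_Y_lie u hT hm hj hz hp 5 (hY u 5 (by norm_num)
      (H.cast (E.killU hν) (by push_cast; ring)))) (by push_cast; ring))
    (fun {j p} hj hp => by
      have h2 := hT' hν h1 hj o (E.bP true hν) (E.bP true h1) hp
      rw [(E.bC _ hν).2, (E.bC _ h1).2, tf, W2.eq_sum A3, W2.eq_sum A2, r2, r4] at h2
      rw [show j + (ν + (ν + 1) + e) = ν + (ν + 1) + j + e by ring]
      refine h2.trans ?_
      generalize (c j p).1 = v
      generalize A3 true = a1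
      generalize A3 false = a2
      clear * -
      revert v a1 a2 t
      decide) hν
  have m1 : A3 true = 1 := (z2' _).resolve_left fun h => nz fun s v w => by
    rw [tf, W2.eq_sum A3, W2.eq_sum A2, r2, r4, n0, h]; simp
  refine ⟨he, fun hi hj hl ho hp hq hr => ?_⟩
  rw [hT' hi hj hl ho hp hq hr, tf, W2.eq_sum A3, W2.eq_sum A2, r2, r4, n0, m1]
  funext s
  cases s <;> simp [T0, ee]

end EH

end Pool.Agent.Lib.MP_ffb54b_al.P2
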