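import Pool.Agent.Lib.MP_ffb54b_al.P2.PI3
import Pool.Agent.Lib.MP_ffb54b_al.P2.AX0
import Pool.Agent.Lib.MP_ffb54b_al.P2.E1

set_option autoImplicit false
set_option linter.unusedSectionVars false

namespace Pool.Agent.Lib.MP_ffb54b_al.P2

open Finset Filter
open scoped commutatorElement

universe u

namespace LD

variable {V : Type*} [AddCommGroup V] [Module (ZMod 2) V] {D : LD V}

theorem indep {m : ℤ} (hb : D.S m false false ∈ D.F (m + 1)) (s : ZMod 2)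
    (h : D.S m true true + s • D.S m true false ∈ D.F (m + 1)) : False := by
  refine D.two_zero (a := D.S m true false) (fun k hk => ?_) h hb
  obtain ⟨c1, c2, c3, h⟩ := D.gen m k hk
  refine ⟨c2 + c1 * s, c1, c3, mem2 h ?_⟩
  simp only [S]
  generalize c1 = a; generalize c2 = b; generalize s = d; generalize c3 = e
  match_scalars <;> (revert a b d e; decide)

theorem yS' (m : ℤ) :
    D.Y (D.S m true false) + D.T m true false + D.S (m + 1) true false ∈ D.F (m + 2) := by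
  simpa [ind] using D.yS m true false

variable (h : ∀ k, D.Phi k)
include h

theorem y_ne (m : ℤ) : D.Y (D.S m true false) ∉ D.F (m + 2) := fun h1 => by
  have e : m + 1 + 1 = m + 2 := by ring
  have h2 := add_mem (yS' (D := D) m) h1
  obtain ⟨-, hb, h3 | h3⟩ := h m
  · refine D.not_wb (m := m + 1) (e ▸ mem2 (add_mem h2 h3) ?_) (e ▸ hb)
    match_scalars <;> decide
  · refine indep (m := m + 1) (e ▸ hb) 1 (e ▸ mem2 (add_mem h2 h3) ?_)
    match_scalars <;> decide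

theorem u_mem (m : ℤ) (s : ZMod 2)
    (hs : D.Y (D.Y (D.S m true false)) + s • D.S (m + 2) true false ∈ D.F (m + 3)) :
    D.U (D.S m true false) ∈ D.F (m + 3) := by
  have e1 : m + 1 + 1 = m + 2 := by ring
  have e2 : m + 1 + 2 = m + 3 := by ring
  have e3 : m + 2 + 1 = m + 3 := by ring
  have a1 := D.degY1 (yS' (D := D) m) e3.ge
  have a2 := yS' (D := D) (m + 1)
  have a3 : D.Y (D.T m true false) ∈ D.F (m + 3) := by
    rcases (h m).2.2 with h3 | h3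
    · exact D.degY1 h3 e3.ge
    · have a4 := D.degY1 h3 e3.ge
      rw [map_add] at a4
      exact of_add a4 (e2 ▸ killY (h2of (fun p m => (h m).1 p) true) (m + 1))
  obtain ⟨-, hb, h3⟩ := h (m + 1)
  rw [e1, e2] at a2 hb h3
  rw [map_add, map_add] at a1
  rcases h3 with h3 | h3
  · exact of_add (D.u_S m true false) h3
  · refine (indep (m := m + 2) (e3 ▸ hb) (s + 1)
      (e3 ▸ mem2 (add_mem (add_mem (add_mem (add_mem a1 a2) a3) hs) h3) ?_)).elim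
    generalize s = d
    match_scalars <;> (revert d; decide)

end LD

variable {U : Ultrafilter ℕ} {G : ℕ → Type u} [∀ n, Group (G n)] {K : ∀ n, ℕ → Subgroup (G n)}

/-- classes in the span of `b` and `σ a b`. -/
def EL (H : Fam U K) (c : Pos U → H.L → W2 × W2) (σ : Pos U → Bil) (ν : Pos U) (a : H.L) : Prop :=
  a ∈ H.F ν ∧ (c ν a).1 true = 0 ∧ ∃ s : ZMod 2, (c ν a).2 = s • σ ν (ee true) (ee false)

namespace BH

open Fam

variable {H : Fam U K} {x y u h : ∀ n, G n} {c : Pos U → H.L → W2 × W2} {σ : Pos U → Bil}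
  {E : Bool → Pos U → H.L} {ch : Pos U → ZMod 2} {t c₆ c₇ c₈ d₈ : ZMod 2}
  (B : BH H x y u h c σ E ch t c₆ c₇ c₈ d₈) {ν μ κ : Pos U} {a a' z : H.L} {g : ∀ n, G n}
include B

lemma el_deep (hν : Inf ν) (ha : a ∈ H.F (ν + 1)) : EL H c σ ν a :=
  ⟨H.up1 ha, by rw [B.s.cW_deep hν ha]; rfl, 0, by rw [B.s.cZ_deep hν ha, zero_smul]⟩

lemma vd_of_win {m : ℕ} (hm : 1 ≤ m) (r : Pos U → ZMod 2)
    (hw : ∀ p {ν}, Inf ν → H.WinP y g (E p) ν (m + 1) (fr m (r ν))) :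
    H.VD y g m ∧ ∀ {ν} v, Inf ν → B.s.Sym g m ν v = r ν • v := by
  have key : ∀ p {ν}, Inf ν → H.π y (H.ρ g (E p ν) - E p ν) - H.π y ((r ν).val • E p (ν + m)) ∈
      H.F (ν + m + 1) := fun p ν hν => by
    have h1 := hw p hν
    rw [WinP, sum_eq_add 0 m (by omega) (fun k _ hk => by simp [fr, hk.1, hk.2])
      (fun hk => (hk (mem_range.2 (by omega))).elim)
      (fun hk => (hk (mem_range.2 (by omega))).elim)] at h1
    simp only [fr, if_true, ZMod.val_one, one_smul, Nat.cast_zero, add_zero,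
      if_neg (show m ≠ 0 by omega), ← sub_sub] at h1
    rw [← B.s.π_sub hν (B.s.A_mem g (B.mem p hν))
      (H.F_add_nat m (nsmul_mem (B.mem p (hν.add_nat m)) _))]
    exact H.cast h1 (by push_cast; ring)
  have mm : ∀ p {ν}, Inf ν → H.π y ((r ν).val • E p (ν + m)) ∈ H.F (ν + m) := fun p ν hν =>
    B.s.π_mem (hν.add_nat m) (nsmul_mem (B.mem p (hν.add_nat m)) _)
  have ext : ∀ {s : ℕ} {ν : Pos U} (ρ : ZMod 2), H.VD y g s → Inf ν →
      (∀ p, (c (ν + s) (H.π y (H.ρ g (E p ν) - E p ν))).1 = ρ • vb t p) →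
      ∀ v, B.s.Sym g s ν v = ρ • v := fun ρ h1 hν h2 v => by
    have h3 := fun p => (B.s.Sym_eq B.ex h1 hν (B.mem p hν)).symm.trans (h2 p)
    simp only [B.cls _ hν] at h3
    rw [vb_sum t v, B.s.Sym_add B.ex h1 hν, B.s.Sym_smul B.ex h1 hν, B.s.Sym_smul B.ex h1 hν, h3, h3]
    module
  have vd : ∀ s, 1 ≤ s → s ≤ m → H.VD y g s := fun s hs => by
    induction s, hs using Nat.le_induction with
    | base => exact fun _ => B.s.VD_one g
    | succ s hs ih =>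
      intro hs'
      have h1 : H.VD y g s := ih (by omega)
      refine fun {_ _} => B.s.VD_succ B.ex h1 fun {ν} v hν =>
        (ext 0 h1 hν (fun p => ?_) v).trans (zero_smul _ _)
      have h2 := add_mem (H.up1 (key p hν)) (mm p hν)
      rw [sub_add_cancel] at h2
      rw [zero_smul, B.s.cW_deep (hν.add_nat s) (H.cast (H.F_anti_nat hs' h2) (by push_cast; ring))]
  refine ⟨vd m hm le_rfl, fun {ν} v hν => ext _ (vd m hm le_rfl) hν (fun p => ?_) v⟩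
  rw [B.s.c_congr (hν.add_nat m) (mm p hν) (key p hν), B.s.cW_π (hν.add_nat m)
    (nsmul_mem (B.mem p (hν.add_nat m)) _), B.s.c_val (hν.add_nat m), Prod.smul_fst,
    B.cls p (hν.add_nat m)]

lemma vd_u : H.VD y u 3 ∧ ∀ {ν} v, Inf ν → B.s.Sym u 3 ν v = v := by
  have := B.vd_of_win (g := u) (m := 3) (by norm_num) (fun _ => 1) fun p ν hν =>
    S1L.winP_congr (B.s.winP_mono hν (B.mem p hν) (fun k _ => B.mem p (hν.add_nat k))
      (B.winu p hν) (by norm_num)) fun k hk => by interval_cases k <;> rfl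
  exact ⟨this.1, fun v hν => (this.2 v hν).trans (one_smul _ _)⟩

lemma kd_of (hg : ∀ {i j : Pos U} {p q : H.L}, Inf i → Inf j → red 2 (i + j) = 1 → p ∈ H.F i →
    q ∈ H.F j → H.ρ g ⁅p, q⁆ - ⁅p, q⁆ ∈ H.F (i + j + (3 : ℕ))) : H.KD y g 4 := fun {ν k} hν hk => by
  refine B.s.K_desc hν ((H.F (ν + (4 : ℕ))).comap (H.Y g : H.L →+ H.L)) 3
    (fun k hk => H.cast (B.s.deg g (K_F hk)) (by push_cast; ring))
    (fun {i j p q} s hi hj e ho hp hq => ?_) hk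
  have h1 := B.s.K_of_F (hi.add hj) (B.s.A_K B.ex g (hi.add hj) (B.s.lie_PP hi hj hp hq)) 3
    (hg hi hj ho (P_F hp) (P_F hq))
  have h2 := B.s.K_even ((hi.add hj).add_nat 3) h1 (by rw [map_add, ho, map_natCast]; rfl)
  exact H.up (K_F h2) s (by rw [e]; push_cast; ring)

lemma kd_three (h1 : H.VD y g 3) : H.KD y g 4 :=
  B.kd_of fun hi hj _ hp hq => (B.s.Sym_lie B.ex h1 (by norm_num) hi hj hp hq).1

lemma kd_two (h1 : H.VD y g 2) (h2 : ∀ {ν} v, Inf ν → B.s.Sym g 2 ν v = v) : H.KD y g 4 :=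
  B.kd_of fun {i j p q} hi hj _ hp hq => by
    obtain ⟨a1, a2⟩ := B.s.Sym_lie B.ex h1 (by norm_num) hi hj hp hq
    rw [h2 _ hi, h2 _ hj, w2_add_self] at a2
    exact H.cast (K_F (B.s.K_succ' ((hi.add hj).add_nat 2) (B.s.K_of_F (hi.add hj)
      (B.s.A_K B.ex g (hi.add hj) (B.s.lie_K B.ex hi hj hp hq)) 2 a1) a2)) (by push_cast; ring)

lemma rel (hν : Inf ν) (ha : a ∈ H.F ν) :
    (H.Y y ^ 3) (H.ρ u a - a - (H.Y y ^ 3) a) ∈ H.F (ν + (7 : ℕ)) := by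
  have m1 := B.s.deg u ha
  have m3 := B.s.Ypow_mem 3 ha
  have m2 : (H.Y y ^ 3) a ∈ H.F (ν + 1) := H.up m3 2 (by push_cast; ring)
  have m := sub_mem m1 m2
  have h3 := hν.add_nat 3
  obtain ⟨hp, hk⟩ := B.s.π_spec hν.succ m
  have v1 := B.vd_u.1 hν ha
  have v2 := B.s.π_mem h3 m3
  have e := B.s.π_sub hν.succ m1 m2
  have h1 : H.π y (H.ρ u a - a - (H.Y y ^ 3) a) ∈ H.F (ν + (3 : ℕ)) := e ▸ sub_mem v1 v2
  have h2 := B.s.P_succ h3 (P_cast (B.s.P_of_F hν.succ hp 2 (H.cast h1 (by push_cast; ring)))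
    (by push_cast; ring)) (by
      rw [e, B.s.c_sub h3 v1 v2, Prod.fst_add, B.s.Sym_eq B.ex B.vd_u.1 hν ha, B.vd_u.2 _ hν,
        B.s.cW_π h3 m3, B.s.cW_Ypow 3 hν ha, w2_add_self])
  have h4 := add_mem (H.cast (hk 3) (ν := ν + (7 : ℕ)) (by push_cast; ring))
    (H.cast (B.s.Ypow_mem 3 (P_F h2)) (by push_cast; ring))
  rwa [← map_add, sub_add_cancel] at h4

lemma π_two (h1 : H.VD y g 2) (h2 : ∀ {ν} v, Inf ν → B.s.Sym g 2 ν v = v) (hν : Inf ν)
    (ha : a ∈ H.F ν) (hg : H.ρ g a - a ∈ H.F (ν + (4 : ℕ))) : H.π y a ∈ H.F (ν + 1 + 1) := by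
  have a1 := B.s.π_mem (hν.add_nat 4) hg
  have a2 := B.s.Sym_eq B.ex h1 hν ha
  rw [h2 _ hν, B.s.cW_deep (hν.add_nat 2) (H.up a1 1 (by push_cast; ring))] at a2
  have a3 := B.s.P_succ hν (B.s.π_spec hν ha).1 ((B.s.cW_π hν ha).trans a2.symm)
  have a4 := B.s.Sym_eq B.ex h1 hν.succ (P_F a3)
  rw [h2 _ hν.succ, ← B.s.π_A B.ex g hν ha,
    B.s.cW_deep (hν.succ.add_nat 2) (H.cast a1 (by push_cast; ring))] at a4
  exact P_F (B.s.P_succ hν.succ a3 a4.symm)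

variable (hp : ∀ ν, Inf ν → H.PhiH E ν)
include hp

lemma k3 (hν : Inf ν) (ha : EL H c σ ν a) :
    ∃ k ∈ H.Ks y (ν + (2 : ℕ)), EL H c σ (ν + (3 : ℕ)) (H.ρ u a - a - k) := by
  have m1 := B.s.deg u ha.1
  obtain ⟨h1, h2⟩ := B.s.π_spec hν.succ m1
  have v1 := B.vd_u.1 hν ha.1
  have h3 := hν.add_nat 3
  refine ⟨_, K_cast (B.s.K_succ' hν.succ h2 ?_) (by push_cast; ring), ?_⟩
  · have e := B.s.one hν ha.1 false
    rw [B.s.c_sub hν.succ m1 (P_F h1), Prod.snd_add, B.s.P_cZ hν.succ h1, add_zero,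
      show u = vG x y u false 1 from rfl, e, W2.eq_sum (c ν a).1, ha.2.1]
    simp [B.bb hp hν.succ]
  · rw [sub_sub_cancel]
    refine ⟨v1, by rw [B.s.Sym_eq B.ex B.vd_u.1 hν ha.1, B.vd_u.2 _ hν, ha.2.1], 0, ?_⟩
    rw [zero_smul]
    exact B.s.P_cZ h3 (P_cast (B.s.P_of_F hν.succ h1 2 (H.cast v1 (by push_cast; ring)))
      (by push_cast; ring))

lemma k2 (hν : Inf ν) (ha : EL H c σ ν a) (ha' : EL H c σ ν a') (h1 : H.π y a ∈ H.F (ν + 1 + 1))
    (h1' : H.π y a' ∈ H.F (ν + 1 + 1)) (h2 : ¬EL H c σ (ν + 1) a) (h2' : ¬EL H c σ (ν + 1) a') :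
    EL H c σ (ν + 1) (a - a') := by
  have up : ∀ {b : H.L}, b ∈ H.F ν → H.π y b ∈ H.F (ν + 1 + 1) → (c ν b).2 = 0 →
      b ∈ H.F (ν + 1) ∧ (c (ν + 1) b).1 = 0 := fun {b} hb h3 h4 => by
    have h5 := B.s.mem_succ hν hb (by rw [← B.s.cW_π hν hb, B.s.cW_deep hν (H.up1 h3)]) h4
    exact ⟨h5, by rw [← B.s.cW_π hν.succ h5, B.s.cW_deep hν.succ h3]⟩
  have m := sub_mem ha.1 ha'.1
  have m' : H.π y (a - a') ∈ H.F (ν + 1 + 1) := B.s.π_sub hν ha.1 ha'.1 ▸ sub_mem h1 h1'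
  rcases z2' (red 2 ν) with ho | ho
  · have key : ∀ {b : H.L}, b ∈ H.F ν → H.π y b ∈ H.F (ν + 1 + 1) → ¬EL H c σ (ν + 1) b →
        b ∈ H.F (ν + 1) ∧ ∃ s : ZMod 2, (c (ν + 1) b).2 = σ (ν + 1) (ee true) (ee true) +
          s • σ (ν + 1) (ee true) (ee false) := fun {b} hb h3 h4 => by
      obtain ⟨h5, h6⟩ := up hb h3 (B.s.even hν ho hb)
      obtain ⟨s₁, s₂, s₃, e⟩ := B.s.σ_span hν.succ (red_succ_of ho) (c (ν + 1) b).2
      rw [B.bb hp hν.succ, smul_zero, add_zero] at e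
      rcases z2' s₁ with rfl | rfl
      · exact (h4 ⟨h5, by rw [h6]; rfl, s₂, by simpa using e⟩).elim
      · exact ⟨h5, s₂, by simpa using e⟩
    obtain ⟨a1, s, a2⟩ := key ha.1 h1 h2
    obtain ⟨a3, s', a4⟩ := key ha'.1 h1' h2'
    obtain ⟨a5, a6⟩ := up m m' (B.s.even hν ho m)
    refine ⟨a5, by rw [a6]; rfl, s + s', ?_⟩
    rw [B.s.c_sub hν.succ a1 a3, Prod.snd_add, a2, a4, add_add_add_comm, w2_add_self, zero_add,
      add_smul]
  · have fin : ∀ {b : H.L}, b ∈ H.F ν → H.π y b ∈ H.F (ν + 1 + 1) → (c ν b).2 = 0 →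
        EL H c σ (ν + 1) b := fun {b} hb h3 h4 => by
      obtain ⟨h5, h6⟩ := up hb h3 h4
      exact ⟨h5, by rw [h6]; rfl, 0, by rw [B.s.even hν.succ (red_succ_of' ho) h5, zero_smul]⟩
    have key : ∀ {b : H.L}, EL H c σ ν b → H.π y b ∈ H.F (ν + 1 + 1) → ¬EL H c σ (ν + 1) b →
        (c ν b).2 = σ ν (ee true) (ee false) := fun {b} ⟨hb, _, s, e⟩ h3 h4 => by
      rcases z2' s with rfl | rfl
      · exact (h4 (fin hb h3 (by simpa using e))).elim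
      · simpa using e
    exact fin m m' (by rw [B.s.c_sub hν ha.1 ha'.1, Prod.snd_add, key ha h1 h2, key ha' h1' h2',
      w2_add_self])

lemma y_ne (hν : Inf ν) : H.Y y ⁅E true ν, E false (ν + 1)⁆ ∉ H.F (2 * ν + (4 : ℕ)) := fun h1 => by
  obtain ⟨_⟩ := B.exists_mod
  refine LD.y_ne (D := (B.lv hν).toLD) (fun k => ((B.lv hν).phi_iff k).2
    ((B.lv_phi hν k).2 (hp _ (hν.add_int k)))) 0 ((B.lv hν).memF (n := 4)
      ((((B.lv hν).cen_ρ _ ((B.lv hν).cen_lie _ _))).add ((B.lv hν).cen_lie _ _)) ?_ le_rfl)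
  rw [Y_apply, sub_eq_add_neg, B.neg_eq] at h1
  simpa [lv, LV.toLD, LD.S, LV.op_apply] using h1

lemma u_mem (hν : Inf ν)
    (h1 : EL H c σ (2 * ν + (5 : ℕ)) (H.Y y (H.Y y ⁅E true ν, E false (ν + 1)⁆))) :
    H.Y u ⁅E true ν, E false (ν + 1)⁆ ∈ H.F (2 * ν + (7 : ℕ)) := by
  obtain ⟨_⟩ := B.exists_mod
  obtain ⟨a1, -, s, a2⟩ := h1
  have hκ := hν.two_mul.add_nat 5
  have k0 := B.s.lie_K B.ex hν hν.succ (B.mem true hν) (B.mem false hν.succ)
  have k1 := B.cen_K ((hν.add hν.succ).of_eq 4 (by push_cast; ring)) (K_Y (K_Y k0))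
  obtain ⟨a3, a4⟩ := B.lieE (hν.add_nat 2) (hν.add_nat 3) (κ := 2 * ν + (5 : ℕ))
    (by push_cast; ring) true false
  have a5 := nsmul_mem a3 s.val
  have a6 := (B.s.zero hκ (add_mem a1 a5)).1 (by
    rw [B.s.add hκ a1 a5, B.s.c_val hκ, a4]
    refine Prod.ext (by simpa using B.s.K_cW hκ (B.K_cen hκ k1 a1)) ?_
    have hb := B.bb hp hκ
    rw [Prod.snd_add, a2]
    generalize σ (2 * ν + (5 : ℕ)) = τ at hb
    simp [vb, hb, w2_add_self])
  have a7 := LD.u_mem (D := (B.lv hν).toLD) (fun k => ((B.lv hν).phi_iff k).2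
    ((B.lv_phi hν k).2 (hp _ (hν.add_int k)))) 0 s ((B.lv hν).memF (n := 6) ?_ ?_ le_rfl)
  · have a8 := a7.2
    rw [Y_apply, sub_eq_add_neg, B.neg_eq]
    simpa [lv, LV.toLD, LD.S, LV.op_apply] using a8
  · have c0 := (B.lv hν).cen_lie ((B.lv hν).e true 0) ((B.lv hν).e false (0 + 1))
    have c1 := ((B.lv hν).cen_ρ y c0).add c0
    exact (((B.lv hν).cen_ρ y c1).add c1).add (((B.lv hν).cen_lie _ _).smul s)
  · simp only [Y_apply, sub_eq_add_neg, B.neg_eq, ← smul_val] at a6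
    have e : (2 * ν + (5 : ℕ) + 1 : Pos U) = 2 * ν + 6 := by push_cast; ring
    rw [e] at a6
    simpa [lv, LV.toLD, LD.S, LV.op_apply] using a6

end BH

end Pool.Agent.Lib.MP_ffb54b_al.P2
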