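import Pool.Agent.Lib.MP_ffb54b_al.P2.AX1

set_option autoImplicit false
set_option linter.unusedSectionVars false

namespace Pool.Agent.Lib.MP_ffb54b_al.P2

open Finset Filter
open scoped commutatorElement

universe u v

variable {U : Ultrafilter ℕ} {G : ℕ → Type u} [∀ n, Group (G n)] {J : Type v} [Group J]

lemma vG_three {Γ : Type u} [Group Γ] (x y u : Γ) (p : Bool) {m : ℕ} (hm : 1 ≤ m) :
    vG x y u p (m + 3) = yc y 3 (vG x y u p m) := by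
  rw [vG_succ x y u p (i := m + 2) (by omega), vG_succ x y u p (i := m + 1) (by omega),
    vG_succ x y u p hm]
  rfl

namespace PI

open Fam

variable (P : PI U G J) {ν μ : Pos U} {a : ∀ n, G n}

lemma ee_Ev (hν : Inf ν) (h : ∀ᶠ n in U, a n ∈ EE (P.K n) (P.x n) (P.y n) (P.u n) (lev ν n)) :
    a ∈ Ev P.K ν := by
  filter_upwards [h, hν.le_lev 1] with n h1 h2
  exact EE_le (P.lcs n) h2 h1

lemma el_iff0 (hν : Inf ν) (ha : a ∈ Ev P.K ν) :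
    EL P.H (P.H.lead P.c) (σL P.σ) ν (P.H.cls ν a) ↔
      ∀ᶠ n in U, a n ∈ EE (P.K n) (P.x n) (P.y n) (P.u n) (lev ν n) := by
  have h0 := (P.H.lead_cls (P.H.loc_of_cls (cls_of_s1g (U := U) P.s1g)) hν ha).and
    ((σL_spec P.σ ν).and (hν.le_lev 7))
  constructor
  · rintro ⟨-, h1, s, h2⟩
    filter_upwards [h0, mem_Ev.1 ha] with n ⟨h3, h4, h5⟩ h6
    exact (mem_EE (P.lcs n) (P.s1g n) h5).2 ⟨h6, h3 ▸ h1, s, by rw [h3, h4, h2]⟩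
  · intro h
    obtain ⟨n, ⟨h3, h4, h5⟩, h6⟩ := (h0.and h).exists
    obtain ⟨-, h1, s, h2⟩ := (mem_EE (P.lcs n) (P.s1g n) h5).1 h6
    exact ⟨P.H.pns.cls_mem hν ha, h3 ▸ h1, s, by rw [← h3, ← h4, h2]⟩

lemma el_iff (hν : Inf ν) (ha : a ∈ Ev P.K ν) (d : ℕ) :
    EL P.H (P.H.lead P.c) (σL P.σ) (ν + d) (P.H.cls ν a) ↔
      ∀ᶠ n in U, a n ∈ EE (P.K n) (P.x n) (P.y n) (P.u n) (lev ν n + d) := by
  have e : (∀ᶠ n in U, a n ∈ EE (P.K n) (P.x n) (P.y n) (P.u n) (lev ν n + d)) ↔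
      ∀ᶠ n in U, a n ∈ EE (P.K n) (P.x n) (P.y n) (P.u n) (lev (ν + d : Pos U) n) :=
    eventually_congr ((lev_add_nat hν.nonneg d).mono fun n h => by rw [h])
  have e' : P.H.cls ν a = P.H.cls (ν + d) a := P.H.pns.cls_near (Near.add_nat ν d) a
  rw [e]
  exact ⟨fun h => (P.el_iff0 (hν.add_nat d)
      ((P.H.pns.cls_mem_iff hν ha (Near.add_nat ν d)).1 h.1)).1 (e' ▸ h),
    fun h => e' ▸ (P.el_iff0 (hν.add_nat d) (P.ee_Ev (hν.add_nat d) h)).2 h⟩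

lemma act_iff (g : ∀ n, G n) (hν : Inf ν) (ha : a ∈ Ev P.K ν) (d : ℕ) :
    P.H.ρ g (P.H.cls ν a) - P.H.cls ν a ∈ P.H.F (ν + d) ↔
      ∀ᶠ n in U, ⁅g n, a n⁆ ∈ P.K n (lev ν n + d) := by
  rw [show P.H.ρ g (P.H.cls ν a) - P.H.cls ν a = _ from P.H.pns.ρ_sub_cls g hν ha]
  exact P.H.cls_mem_nat hν (P.H.comm_Ev g ha) d

end PI

namespace TB

open Fam

variable {P : PI U G J} {C : ℕ} {e : Bool → ∀ n, ℕ → G n} (T : TB P C e) {h q : J}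
  (F2 : JF2 P.KJ P.xJ P.yJ P.uJ h q P.cf)
include T

lemma rel : ∀ᶠ n in U, ∃ m, 6 ≤ m ∧ yc (P.y n) 3 (⁅P.u n, vG (P.x n) (P.y n) (P.u n) true m⁆ *
    (vG (P.x n) (P.y n) (P.u n) true (m + 3))⁻¹) ∈ P.K n (m + 7) := by
  have hν := P.ω_inf
  have ha : (fun n => vG (P.x n) (P.y n) (P.u n) true (lev P.ω n)) ∈ Ev P.K P.ω :=
    .of_forall fun n => (P.lcs n).vG_mem _ _
  have h1 := T.bh.rel hν (P.H.pns.cls_mem hν ha)
  have m1 := P.H.comm_Ev P.u ha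
  have m2 := P.H.yc_Ev P.y 3 ha
  rw [P.H.pns.ρ_sub_cls P.u hν ha, show (P.H.Y P.y ^ 3) (P.H.pns.cls P.ω _) = _ from
    P.H.Ypow_cls hν ha 3, ← P.H.pns.cls_div hν m1 m2, show (P.H.Y P.y ^ 3) (P.H.pns.cls P.ω _) = _
    from P.H.Ypow_cls hν (mul_mem m1 (inv_mem m2)) 3,
    P.H.cls_mem_nat hν (P.H.yc_Ev P.y 3 (mul_mem m1 (inv_mem m2)))] at h1
  filter_upwards [h1, hν.le_lev 6] with n h2 h3
  refine ⟨_, h3, ?_⟩
  rw [vG_three _ _ _ _ (by omega)]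
  simp only [yc_apply, Pi.mul_apply, Pi.inv_apply] at h2
  exact h2

lemma y1ue : ∃ w, ∀ᶠ n in U, ∀ i, w ≤ i →
    ⁅P.y n, ⁅e true n i, e false n (i + 1)⁆⁆ ∉ P.K n (2 * i + 4) ∧
    (⁅P.y n, ⁅P.y n, ⁅e true n i, e false n (i + 1)⁆⁆⁆ ∈
      EE (P.K n) (P.x n) (P.y n) (P.u n) (2 * i + 5) →
      ⁅P.u n, ⁅e true n i, e false n (i + 1)⁆⁆ ∈ P.K n (2 * i + 6)) := by
  refine underspill_nat P.free fun ν hν => Eventually.and ?_ (ev_imp fun h1 => ?_)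
  · rw [Ultrafilter.eventually_not, ← P.H.Y_lie_El hν (T.mem _ hν) (T.mem _ hν.succ)]
    exact T.bh.y_ne T.phi hν
  rw [← P.H.Y_lie_El hν (T.mem _ hν) (T.mem _ hν.succ)]
  refine P.H.up (T.bh.u_mem T.phi hν ?_) 1 (by push_cast; ring)
  have a := P.H.lie_El (e := e true) (e' := e false) hν (i := 0) (j := 1)
    (by simpa using T.mem _ hν) (by simpa using T.mem _ hν.succ)
  simp only [Nat.cast_zero, add_zero, Nat.cast_one] at a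
  have h2 := hν.two_mul
  rw [a.2, Y_apply, Y_apply, P.H.pns.ρ_sub_cls P.y h2 a.1,
    P.H.pns.ρ_sub_cls P.y h2 (P.H.comm_Ev P.y a.1)]
  refine (P.el_iff h2 (P.H.comm_Ev P.y (P.H.comm_Ev P.y a.1)) 5).2 ?_
  filter_upwards [h1, lev_two hν] with n h3 h4
  rw [h4]
  exact h3

include F2

lemma vd_h : P.H.VD P.y (P.ℓ h) 2 ∧ ∀ {ν} v, Inf ν → P.S.Sym (P.ℓ h) 2 ν v = v := by
  have := T.bh.vd_of_win (g := P.ℓ h) (m := 2) (by norm_num) (fun _ => 1) fun p ν hν =>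
    T.winw (.of_forall (P.Rℓ h)) p hν (by linarith [T.nine])
      (.of_forall fun n k hk => F2.cfh p _ k (by omega))
  exact ⟨this.1, fun v hν => (this.2 v hν).trans (one_smul _ _)⟩

lemma vd_q : P.H.VD P.y (P.ℓ q) 3 :=
  (T.bh.vd_of_win (g := P.ℓ q) (m := 3) (by norm_num) (red 2) fun p ν hν =>
    T.winw (.of_forall (P.Rℓ q)) p hν (by linarith [T.nine])
      ((red_lev 2 hν.nonneg).mono fun n hn k hk => hn ▸ F2.cfq p _ k (by omega))).1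

lemma k2 : ∃ w, ∀ᶠ n in U, ∀ i, w ≤ i → ∀ k k',
    KE (P.K n) (EE (P.K n) (P.x n) (P.y n) (P.u n)) (P.u n) (P.ℓ h n) (P.ℓ q n) i k →
    KE (P.K n) (EE (P.K n) (P.x n) (P.y n) (P.u n)) (P.u n) (P.ℓ h n) (P.ℓ q n) i k' →
    k ∉ EE (P.K n) (P.x n) (P.y n) (P.u n) (i + 1) →
    k' ∉ EE (P.K n) (P.x n) (P.y n) (P.u n) (i + 1) →
    k * k'⁻¹ ∈ EE (P.K n) (P.x n) (P.y n) (P.u n) (i + 1) := by
  obtain ⟨w, hw⟩ := underspill P.free (X := fun n => ℕ × G n × G n) (fun _ z => z.1)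
    (q := fun n z => KE (P.K n) (EE (P.K n) (P.x n) (P.y n) (P.u n)) (P.u n) (P.ℓ h n) (P.ℓ q n)
      z.1 z.2.1 → KE (P.K n) (EE (P.K n) (P.x n) (P.y n) (P.u n)) (P.u n) (P.ℓ h n) (P.ℓ q n)
      z.1 z.2.2 → z.2.1 ∉ EE (P.K n) (P.x n) (P.y n) (P.u n) (z.1 + 1) →
      z.2.2 ∉ EE (P.K n) (P.x n) (P.y n) (P.u n) (z.1 + 1) →
      z.2.1 * z.2.2⁻¹ ∈ EE (P.K n) (P.x n) (P.y n) (P.u n) (z.1 + 1)) fun z hν => by
    have hl := lev_pos (U := U) fun n => (z n).1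
    generalize (pos U fun n => (z n).1) = ν at hν hl
    have key : ∀ {a : ∀ n, G n}, (∀ᶠ n in U, KE (P.K n) (EE (P.K n) (P.x n) (P.y n) (P.u n))
        (P.u n) (P.ℓ h n) (P.ℓ q n) (z n).1 (a n)) →
        (∀ᶠ n in U, a n ∉ EE (P.K n) (P.x n) (P.y n) (P.u n) ((z n).1 + 1)) →
        a ∈ Ev P.K ν ∧ EL P.H (P.H.lead P.c) (σL P.σ) ν (P.H.cls ν a) ∧
        P.H.π P.y (P.H.cls ν a) ∈ P.H.F (ν + 1 + 1) ∧
        ¬EL P.H (P.H.lead P.c) (σL P.σ) (ν + 1) (P.H.cls ν a) := fun {a} h1 h2 => by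
      have h3 := (h1.and hl).mono fun n h => (h.2 ▸ h.1.1 :
        a n ∈ EE (P.K n) (P.x n) (P.y n) (P.u n) (lev ν n))
      have ha := P.ee_Ev hν h3
      refine ⟨ha, (P.el_iff0 hν ha).2 h3, T.bh.π_two (T.vd_h F2).1 (T.vd_h F2).2 hν
        (P.H.pns.cls_mem hν ha) ((P.act_iff _ hν ha 4).2
        ((h1.and hl).mono fun n h => h.2 ▸ h.1.2.2.1)), fun h4 => ?_⟩
      obtain ⟨n, h5, h6, h7⟩ := (((P.el_iff hν ha 1).1 (by simpa using h4)).and (h2.and hl)).exists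
      exact h6 (h7 ▸ h5)
    refine ev_imp fun h1 => ev_imp fun h2 => ev_imp fun h3 => ev_imp fun h4 => ?_
    obtain ⟨a1, a2, a3, a4⟩ := key (a := fun n => (z n).2.1) h1 h3
    obtain ⟨b1, b2, b3, b4⟩ := key (a := fun n => (z n).2.2) h2 h4
    have h5 := T.bh.k2 T.phi hν a2 b2 a3 b3 a4 b4
    rw [← P.H.pns.cls_div hν a1 b1] at h5
    filter_upwards [(P.el_iff hν (mul_mem a1 (inv_mem b1)) 1).1 (by simpa using h5), hl]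
      with n h6 h7
    exact h7 ▸ h6
  exact ⟨w, hw.mono fun n h i hi k k' => h (i, k, k') hi⟩

lemma k3 : ∃ w, ∀ᶠ n in U, ∀ i, w ≤ i → ∀ g, g ∈ EE (P.K n) (P.x n) (P.y n) (P.u n) i →
    ∃ k ∈ P.K n (i + 2), ⁅P.u n, k⁆ ∈ P.K n (i + 6) ∧ ⁅P.ℓ h n, k⁆ ∈ P.K n (i + 6) ∧
      ⁅P.ℓ q n, k⁆ ∈ P.K n (i + 6) ∧
      ⁅P.u n, g⁆ * k⁻¹ ∈ EE (P.K n) (P.x n) (P.y n) (P.u n) (i + 3) := by
  refine under1 P.free fun ν a hν => ev_imp fun h1 => ?_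
  have ha := P.ee_Ev hν h1
  obtain ⟨k, hk, h2⟩ := T.bh.k3 T.phi hν ((P.el_iff0 hν ha).2 h1)
  obtain ⟨b, hb, rfl⟩ := (P.H.pns.mem_F (hν.add_nat 2)).1 (K_F hk)
  have hb' := P.H.Ev_up hb
  rw [← P.H.pns.cls_near (Near.add_nat ν 2)] at hk h2
  have kd : ∀ {g : ∀ n, G n}, P.H.KD P.y g 4 → ∀ᶠ n in U, ⁅g n, b n⁆ ∈ P.K n (lev ν n + 6) :=
    fun hg => (P.act_iff _ hν hb' 6).1 (P.H.cast (hg (hν.add_nat 2) hk) (by push_cast; ring))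
  rw [show P.H.ρ P.u (P.H.cls ν a) - P.H.cls ν a = _ from P.H.pns.ρ_sub_cls P.u hν ha,
    ← P.H.pns.cls_div hν (P.H.comm_Ev P.u ha) hb'] at h2
  filter_upwards [(mem_Ev_add_nat hν.nonneg).1 hb, kd (T.bh.kd_three T.bh.vd_u.1),
    kd (T.bh.kd_two (T.vd_h F2).1 (T.vd_h F2).2), kd (T.bh.kd_three (T.vd_q F2)),
    (P.el_iff hν (mul_mem (P.H.comm_Ev P.u ha) (inv_mem hb')) 3).1 h2] with n a1 a2 a3 a4 a5
  exact ⟨b n, a1, a2, a3, a4, a5⟩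

end TB

/-- PART I: the finite level facts hold for most members of the family. -/
theorem PI.export (P : PI U G J) {h q : J} (F2 : JF2 P.KJ P.xJ P.yJ P.uJ h q P.cf) :
    ∃ (e : Bool → ∀ n, ℕ → G n) (w w₀ : ℕ), ∀ᶠ n in U,
      EG (P.K n) (P.x n) (P.y n) (P.u n) (P.c n) (P.σ n) (fun p => e p n) P.ch P.t P.c₆ P.c₇ P.c₈
        w₀ ∧
      AG (P.K n) (P.x n) (P.y n) (P.u n) (P.ℓ h n) (P.ℓ q n) (fun p => e p n) w w₀ := by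
  obtain ⟨e₀, T₀⟩ := P.exists_tb (le_refl 9)
  obtain ⟨w2, h2⟩ := T₀.k2 F2
  obtain ⟨w3, h3⟩ := T₀.k3 F2
  obtain ⟨w, hw, he, ⟨D, hD, r, cD⟩, ⟨Q, hQ, hQ', cQ⟩, ⟨A, a0, a1, a2, a3, cA⟩,
    ⟨A', b0, b1, b2, b3, cB⟩⟩ := F2.base (w2 + w3 + 8)
  obtain ⟨e, T⟩ := P.exists_tb (C := 2 * w + 9) (by omega)
  obtain ⟨w4, h4⟩ := T.eg
  obtain ⟨w5, h5⟩ := T.y1ue
  obtain ⟨w6, h6⟩ := T.winG (.of_forall (P.Rℓ h)) (w := 4) (by omega)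
  obtain ⟨w7, h7⟩ := T.winG (.of_forall (P.Rℓ q)) (w := 5) (by omega)
  obtain ⟨wD, hD'⟩ := T.winG (.of_forall (P.Rℓ D)) (w := 2 * w + 2) (by omega)
  obtain ⟨wQ, hQ''⟩ := T.winG (.of_forall (P.Rℓ Q)) (w := 2 * w + 2) (by omega)
  obtain ⟨wA, hA⟩ := T.winG (.of_forall (P.Rℓ A)) (w := 2 * w + 1) (by omega)
  obtain ⟨wB, hB⟩ := T.winG (.of_forall (P.Rℓ A')) (w := 2 * w + 3) (by omega)
  refine ⟨e, w, w4 + w5 + w6 + w7, ?_⟩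
  filter_upwards [h2, h3, h4, h5, h6, h7, hD', hQ'', hA, hB, T.rel, P.N_inf (w + 5)]
    with n c2 c3 c4 c5 c6 c7 cD' cQ' cA' cB' cr hN
  have L := P.lk n
  have lm : ∀ {f : J} {t : ℕ}, t ≤ w + 5 → f ∈ P.KJ t → P.ℓ f n ∈ P.K n t := fun ht hf =>
    (L.mem (P.Rℓ _ n) (ht.trans hN)).2 hf
  have lc : ∀ {g : G n} {g' f : J} {t : ℕ}, P.R n g g' → t ≤ w + 5 → ⁅g', f⁆ ∈ P.KJ t →
      ⁅g, P.ℓ f n⁆ ∈ P.K n t := fun hg ht hf => (L.mem (L.comm hg (P.Rℓ _ n)) (ht.trans hN)).2 hf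
  refine ⟨c4 _ (by omega), by omega, fun i hi => c2 i (by omega), fun i hi => c3 i (by omega), cr,
    fun i hi => (c5 i (by omega)).1, fun i hi => (c5 i (by omega)).2,
    fun p i hi => (c6 i (by omega) p).congr (F2.cfh p i),
    fun p i hi => (c7 i (by omega) p).congr (F2.cfq p i),
    ⟨_, le_EE (lm (by omega) hD), r, wD, fun p i hi => (cD' i hi p).congr (cD p i)⟩,
    ⟨_, ?_, wQ, fun p i hi => (cQ' i hi p).congr (cQ p i)⟩,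
    ⟨_, lm (by omega) a0, lc (P.Ru n) (by omega) a1, lc (P.Rℓ _ n) (by omega) a2,
      lc (P.Rℓ _ n) (by omega) a3, wA, fun p i hi => (cA' i hi p).congr (cA p i)⟩,
    ⟨_, lm (by omega) b0, lc (P.Ru n) (by omega) b1, lc (P.Rℓ _ n) (by omega) b2,
      lc (P.Rℓ _ n) (by omega) b3, wB, fun p i hi => (cB' i hi p).congr (cB p i)⟩⟩
  have := (P.lcs n).normal
  have S := P.s1g n
  have m1 := lm (by omega) hQ
  have m2 := (P.lcs n).vG_mem false w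
  have d1 := (L.mem (L.comm (P.Ry n) (L.mul (P.Rℓ Q n) (L.inv
    (L.vG (P.Rx n) (P.Ry n) (P.Ru n) false w)))) (show w + 2 ≤ P.N n by omega)).2 hQ'
  have d2 := S.yy w (by omega) _ (mul_mem m1 (inv_mem m2))
  rw [((S.cls _ (by omega)).zero ((P.lcs n).ns.anti (by omega) d1)).2 d1,
    (S.cls w (by omega)).mul m1 (inv_mem m2), (S.cls w (by omega)).inv m2, S.v w (by omega)] at d2
  refine (mem_EE (P.lcs n) S (by omega)).2 ⟨m1, ?_, 0, by rw [S.even w (by omega) he, zero_smul]⟩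
  simpa [ee] using (congrFun (congrArg Prod.fst d2) true).symm

end Pool.Agent.Lib.MP_ffb54b_al.P2
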