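import Pool.Agent.Lib.MP_ffb54b_al.NT

set_option autoImplicit false
set_option linter.unusedSectionVars false

namespace Pool.Agent.Lib.MP_ffb54b_al.P2

open PowerSeries

/-- Power series over the field with two elements. -/
abbrev R2 : Type := (ZMod 2)⟦X⟧

/-- The Nottingham group for `p = 2`. -/
abbrev J2 : Type := Nott 2

instance : CharP R2 2 := charP_of_injective_ringHom (C_injective (R := ZMod 2)) 2

lemma two_R2 : (2 : R2) = 0 := CharTwo.two_eq_zero

lemma sq_eq_expand (a : R2) : a ^ 2 = expand 2 two_ne_zero a := by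
  have := MvPowerSeries.map_frobenius_expand (R := ZMod 2) (σ := Unit) 2 two_ne_zero (f := a)
  rw [ZMod.frobenius_zmod, MvPowerSeries.map_id] at this
  exact this.symm

lemma coeff_sq_even (a : R2) (n : ℕ) : coeff (2 * n) (a ^ 2) = coeff n a := by
  rw [sq_eq_expand, coeff_expand_mul]

lemma coeff_sq_odd (a : R2) (n : ℕ) : coeff (2 * n + 1) (a ^ 2) = 0 := by
  rw [sq_eq_expand, coeff_expand_of_not_dvd _ _ _ (by omega)]

/-- The even part. -/
noncomputable def ev (φ : R2) : R2 := mk fun n => coeff (2 * n) φ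

/-- The odd part. -/
noncomputable def od (φ : R2) : R2 := mk fun n => coeff (2 * n + 1) φ

@[simp] lemma coeff_ev (φ : R2) (n : ℕ) : coeff n (ev φ) = coeff (2 * n) φ := coeff_mk _ _

@[simp] lemma coeff_od (φ : R2) (n : ℕ) : coeff n (od φ) = coeff (2 * n + 1) φ := coeff_mk _ _

lemma ev_add (a b : R2) : ev (a + b) = ev a + ev b := by ext; simp

lemma od_add (a b : R2) : od (a + b) = od a + od b := by ext; simp

lemma ev_mk (a b : R2) : ev (a ^ 2 + X * b ^ 2) = a := by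
  ext n
  rcases n with _ | n
  · simp
  · rw [coeff_ev, map_add, coeff_sq_even, show 2 * (n + 1) = 2 * n + 1 + 1 by ring, coeff_succ_X_mul,
      coeff_sq_odd, add_zero]

lemma od_mk (a b : R2) : od (a ^ 2 + X * b ^ 2) = b := by
  ext n
  rw [coeff_od, map_add, coeff_sq_odd, coeff_succ_X_mul, coeff_sq_even, zero_add]

lemma decomp (φ : R2) : φ = ev φ ^ 2 + X * od φ ^ 2 := by
  ext n
  obtain ⟨n, rfl | rfl⟩ := n.even_or_odd'
  · rw [← coeff_ev, ← coeff_ev, ev_mk]
  · rw [← coeff_od, ← coeff_od, od_mk]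

lemma deriv_eq (φ : R2) : d⁄dX _ φ = od φ ^ 2 := by
  conv_lhs => rw [decomp φ]
  simp only [map_add, Derivation.leibniz, Derivation.leibniz_pow, derivative_X, smul_eq_mul,
    nsmul_eq_mul, Nat.cast_ofNat, two_R2]
  ring

lemma dvd_ev {n : ℕ} {φ : R2} (h : X ^ (2 * n) ∣ X * φ) : X ^ n ∣ ev φ := X_pow_dvd_iff.2 fun m hm => by
  rw [coeff_ev, ← coeff_succ_X_mul]
  exact X_pow_dvd_iff.1 h _ (by omega)

lemma dvd_od {n : ℕ} {φ : R2} (h : X ^ (2 * n) ∣ φ) : X ^ n ∣ od φ := X_pow_dvd_iff.2 fun m hm => by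
  rw [coeff_od]
  exact X_pow_dvd_iff.1 h _ (by omega)

lemma ev_one : ev 1 = 1 := by simpa using ev_mk 1 0

lemma od_one : od 1 = 0 := by simpa using od_mk 1 0

lemma dvd_sq {n : ℕ} {φ : R2} (h : X ^ n ∣ φ) : X ^ (2 * n) ∣ φ ^ 2 := by
  rw [mul_comm, pow_mul]; exact pow_dvd_pow_of_dvd h 2

lemma dvd_mono {m n : ℕ} {φ : R2} (h : X ^ n ∣ φ) (hm : m ≤ n) : X ^ m ∣ φ :=
  (pow_dvd_pow _ hm).trans h

lemma dvd_mul2 {m n l : ℕ} {φ ψ : R2} (h : X ^ m ∣ φ) (h' : X ^ n ∣ ψ) (hl : l ≤ m + n) :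
    X ^ l ∣ φ * ψ := dvd_mono (pow_add (X : R2) m n ▸ mul_dvd_mul h h') hl

lemma dvd_d {n : ℕ} {f : R2} (h : X ^ (n + 1) ∣ f) : X ^ n ∣ d⁄dX _ f :=
  X_pow_dvd_iff.2 fun m hm => by rw [coeff_derivative, X_pow_dvd_iff.1 h _ (by omega), zero_mul]

lemma coeff_eq_of_dvd {n m : ℕ} {a b : R2} (h : X ^ n ∣ a + b) (hm : m < n) :
    coeff m a = coeff m b := by
  have := X_pow_dvd_iff.1 h m hm
  rwa [map_add, add_eq_zero_iff_eq_neg, ZMod.neg_eq_self_mod_two] at this

lemma dvd_succ_iff {n : ℕ} {a : R2} (h : X ^ n ∣ a) : X ^ (n + 1) ∣ a ↔ coeff n a = 0 := by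
  rw [X_pow_dvd_iff]
  refine ⟨fun h => h _ (by omega), fun h' m hm => ?_⟩
  rcases Nat.lt_succ_iff_lt_or_eq.1 hm with h1 | rfl
  exacts [X_pow_dvd_iff.1 h m h1, h']

lemma coeff_lead {m n : ℕ} {a b : R2} (ha : X ^ m ∣ a) (hb : X ^ n ∣ b) :
    coeff (m + n) (a * b) = coeff m a * coeff n b := by
  obtain ⟨a, rfl⟩ := ha
  obtain ⟨b, rfl⟩ := hb
  rw [mul_mul_mul_comm, ← pow_add]
  simp [coeff_X_pow_mul']

/-- Substitution of an element of the group. -/
noncomputable def sb (g : J2) : R2 →+* R2 := (substAlgHom (R := ZMod 2) g.hasSubst).toRingHom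

variable {f g h : J2} {φ : R2} {n j : ℕ}

lemma sb_apply (g : J2) (φ : R2) : sb g φ = φ.subst g.ser := congrFun (coe_substAlgHom g.hasSubst) φ

lemma sb_X (g : J2) : sb g X = g.ser := by rw [sb_apply, subst_X g.hasSubst]

lemma sb_ser (f g : J2) : sb g f.ser = (f * g).ser := sb_apply _ _

lemma sb_mul (f g : J2) (φ : R2) : sb (f * g) φ = sb g (sb f φ) := by
  simp only [sb_apply, Nott.mul_ser]
  exact (subst_comp_subst_apply f.hasSubst g.hasSubst φ).symm

lemma sb_one (φ : R2) : sb 1 φ = φ := by rw [sb_apply, Nott.one_ser, X_subst]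

lemma sb_C (g : J2) (c : ZMod 2) : sb g (C c) = C c := by
  have : ∀ c : ZMod 2, c = 0 ∨ c = 1 := by decide
  rcases this c with rfl | rfl <;> simp

lemma sb_dvd (g : J2) (h : X ^ n ∣ φ) : X ^ n ∣ sb g φ := sb_apply g φ ▸ g.X_pow_dvd_subst h

lemma dvd_of_sb (g : J2) (h : X ^ n ∣ sb g φ) : X ^ n ∣ φ := by
  simpa [← sb_mul, sb_one] using sb_dvd g⁻¹ h

lemma sb_deriv (g : J2) (φ : R2) : d⁄dX _ (sb g φ) = sb g (d⁄dX _ φ) * od g.ser ^ 2 := by
  rw [sb_apply, derivative_subst g.hasSubst, sb_apply, deriv_eq g.ser]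

lemma sb_add_self (hg : X ^ n ∣ g.ser + X) (φ : R2) : X ^ n ∣ sb g φ + φ := by
  have := Nott.dvd_subst_sub φ g 1 (n := n) (by rwa [Nott.one_ser, CharTwo.sub_eq_add])
  rwa [Nott.one_ser, X_subst, CharTwo.sub_eq_add, ← sb_apply] at this

lemma sb_add (hg : X ^ (j + 1) ∣ g.ser + X) (h : X ^ n ∣ φ) : X ^ (n + j) ∣ sb g φ + φ := by
  obtain ⟨F, rfl⟩ := h
  obtain ⟨w, hw⟩ := sb_add_self hg F
  obtain ⟨H, hH⟩ := hg
  obtain ⟨z, hz⟩ := sub_dvd_pow_sub_pow (1 + X ^ j * H) 1 n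
  have e : g.ser = X * (1 + X ^ j * H) := by linear_combination hH - X * two_R2
  rw [map_mul, map_pow, sb_X, e, mul_pow]
  exact ⟨H * z * sb g F + X * w, by
    linear_combination X ^ n * sb g F * hz + X ^ n * hw⟩

lemma sq_dvd' (g : J2) : X ^ 2 ∣ g.ser + X := CharTwo.sub_eq_add g.ser X ▸ g.sq_dvd

lemma coeff_sb (g : J2) (h : X ^ n ∣ φ) : coeff n (sb g φ) = coeff n φ :=
  coeff_eq_of_dvd (sb_add (j := 1) (sq_dvd' g) h) (by omega)

lemma coeff_sb_succ (g : J2) (h : X ^ n ∣ φ) :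
    coeff (n + 1) (sb g φ) = coeff (n + 1) φ + n * coeff 2 g.ser * coeff n φ := by
  obtain ⟨F, rfl⟩ := h
  obtain ⟨H, hH⟩ := g.sq_dvd
  have h1 := X_pow_dvd_iff.1 (g.taylor (j := 0) hH n F) (n + 1) (by omega)
  have h2 : coeff 2 g.ser = constantCoeff H := by
    have := congrArg (coeff 2) hH
    simpa [coeff_X_pow_mul', coeff_X] using this
  rw [map_sub, map_sub, mul_assoc, ← nsmul_eq_mul, map_nsmul, coeff_X_pow_mul' (H * F), ← sb_apply]
    at h1
  simp only [add_zero, le_refl, if_true, tsub_self, coeff_zero_eq_constantCoeff, map_mul,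
    nsmul_eq_mul] at h1
  rw [h2, coeff_X_pow_mul' F n n]
  simp only [le_refl, if_true, tsub_self, coeff_zero_eq_constantCoeff, map_mul]
  linear_combination h1

/-- The even part of the series: `f = δ ^ 2 + X k ^ 2`. -/
noncomputable def dl (f : J2) : R2 := ev f.ser

/-- The odd part of the series. -/
noncomputable def kk (f : J2) : R2 := od f.ser

/-- The even part of `k`. -/
noncomputable def ka (f : J2) : R2 := ev (kk f)

/-- The odd part of `k`. -/
noncomputable def ps (f : J2) : R2 := od (kk f)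

lemma ser_eq (f : J2) : f.ser = dl f ^ 2 + X * kk f ^ 2 := decomp _

lemma kk_eq (f : J2) : kk f = ka f ^ 2 + X * ps f ^ 2 := decomp _

lemma X_dvd_dl (f : J2) : X ^ 1 ∣ dl f := X_pow_dvd_iff.2 fun m hm => by
  obtain rfl : m = 0 := by omega
  simp [dl, f.coeff_zero]

lemma kk_zero (f : J2) : constantCoeff (kk f) = 1 := by
  rw [← coeff_zero_eq_constantCoeff_apply, kk, coeff_od]
  exact f.coeff_one

lemma X_dvd_kk (f : J2) : X ^ 1 ∣ kk f + 1 := X_pow_dvd_iff.2 fun m hm => by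
  obtain rfl : m = 0 := by omega
  simp [kk_zero]
  rfl

lemma ev_sb (g : J2) (φ : R2) : ev (sb g φ) = sb g (ev φ) + dl g * sb g (od φ) := by
  rw [← ev_mk (_ + _) (kk g * sb g (od φ))]
  conv_lhs => rw [decomp φ]
  simp only [map_add, map_mul, map_pow, sb_X, ser_eq g]
  congr 1
  linear_combination -(sb g (ev φ) * dl g * sb g (od φ)) * two_R2

lemma od_sb (g : J2) (φ : R2) : od (sb g φ) = kk g * sb g (od φ) := by
  rw [← od_mk (sb g (ev φ) + dl g * sb g (od φ)) (kk g * _)]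
  conv_lhs => rw [decomp φ]
  simp only [map_add, map_mul, map_pow, sb_X, ser_eq g]
  congr 1
  linear_combination -(sb g (ev φ) * dl g * sb g (od φ)) * two_R2

lemma ev_mul (a b : R2) : ev (a * b) = ev a * ev b + X * (od a * od b) := by
  rw [← ev_mk (_ + _) (ev a * od b + od a * ev b)]
  conv_lhs => rw [decomp a, decomp b]
  congr 1
  linear_combination -(2 * X * (ev a * ev b * od a * od b)) * two_R2

lemma od_mul (a b : R2) : od (a * b) = ev a * od b + od a * ev b := by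
  rw [← od_mk (ev a * ev b + X * (od a * od b)) (_ + _)]
  conv_lhs => rw [decomp a, decomp b]
  congr 1
  linear_combination -(2 * X * (ev a * ev b * od a * od b)) * two_R2

lemma dl_mul (f g : J2) : dl (f * g) = sb g (dl f) + dl g * sb g (kk f) := by
  rw [dl, ← sb_ser, ev_sb]; rfl

lemma kk_mul (f g : J2) : kk (f * g) = sb g (kk f) * kk g := by
  rw [kk, ← sb_ser, od_sb, mul_comm]; rfl

lemma ka_mul (f g : J2) : ka (f * g) =
    (sb g (ka f) + dl g * sb g (ps f)) * ka g + X * (kk g * sb g (ps f) * ps g) := by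
  rw [ka, kk_mul, ev_mul, ev_sb, od_sb]; rfl

lemma ps_mul (f g : J2) : ps (f * g) =
    (sb g (ka f) + dl g * sb g (ps f)) * ps g + kk g * sb g (ps f) * ka g := by
  rw [ps, kk_mul, od_mul, ev_sb, od_sb]; rfl

lemma dl_one : dl 1 = 0 := by simpa [dl, Nott.one_ser] using ev_mk 0 1

lemma kk_one : kk 1 = 1 := by simpa [kk, Nott.one_ser] using od_mk 0 1

/-- The inverse of `k`. -/
noncomputable def ki (f : J2) : R2 := sb f (kk f⁻¹)

lemma ki_mul_kk (f : J2) : ki f * kk f = 1 := by rw [ki, ← kk_mul, inv_mul_cancel, kk_one]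

lemma kk_ne (f : J2) : kk f ≠ 0 := right_ne_zero_of_mul_eq_one (ki_mul_kk f)

lemma ki_mul (f g : J2) : ki (f * g) = sb g (ki f) * ki g := by
  have h1 := ki_mul_kk (f * g)
  have h2 := congrArg (sb g) (ki_mul_kk f)
  rw [map_mul, map_one] at h2
  rw [kk_mul] at h1
  linear_combination sb g (ki f) * ki g * h1 - ki (f * g) * ki g * kk g * h2 -
    ki (f * g) * ki_mul_kk g

lemma ki_one : ki 1 = 1 := by simpa [kk_one] using ki_mul_kk 1

lemma dvd_ki (h : X ^ n ∣ kk f + 1) : X ^ n ∣ ki f + 1 := by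
  convert h.mul_left (ki f) using 1
  linear_combination -ki_mul_kk f

/-- The first cocycle. -/
noncomputable def DD (f : J2) : R2 := dl f * ki f

/-- The second cocycle. -/
noncomputable def PP (f : J2) : R2 := (ps f * ka f + d⁄dX _ (dl f)) * ki f

lemma dl_eq (f : J2) : dl f = DD f * kk f := by rw [DD, mul_assoc, ki_mul_kk, mul_one]

lemma PP_mul_kk (f : J2) : PP f * kk f = ps f * ka f + d⁄dX _ (dl f) := by
  rw [PP, mul_assoc, ki_mul_kk, mul_one]

lemma DD_mul (f g : J2) : DD (f * g) = sb g (DD f) * ki g + DD g := by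
  have h2 := congrArg (sb g) (ki_mul_kk f)
  rw [map_mul, map_one] at h2
  simp only [DD, dl_mul, ki_mul, map_mul]
  linear_combination dl g * ki g * h2

lemma PP_mul (f g : J2) : PP (f * g) = kk g * sb g (PP f) + PP g := by
  refine mul_right_cancel₀ (kk_ne (f * g)) ?_
  have h1 := congrArg (sb g) (PP_mul_kk f)
  have h2 := congrArg (sb g) (kk_eq f)
  have h3 := PP_mul_kk g
  have h4 := kk_eq g
  have h5 := ser_eq g
  rw [PP_mul_kk, ps_mul, ka_mul, dl_mul, kk_mul]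
  simp only [map_add, map_mul, map_pow, Derivation.leibniz, smul_eq_mul, sb_deriv, sb_X,
    deriv_eq (kk f)] at h1 h2 ⊢
  change _ + (_ * kk g ^ 2 + (_ * (sb g (ps f) ^ 2 * kk g ^ 2) + _)) = _
  generalize sb g (ps f) = a at *
  generalize sb g (ka f) = b at *
  generalize sb g (kk f) = c at *
  generalize sb g (PP f) = d at *
  generalize sb g (d⁄dX _ (dl f)) = e at *
  have t := two_R2
  grind

lemma DD_one : DD 1 = 0 := by simp [DD, dl_one]

lemma PP_one : PP 1 = 0 := by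
  have := PP_mul 1 1
  simpa [kk_one, sb_one] using this

lemma X_dvd_DD (f : J2) : X ^ 1 ∣ DD f := (X_dvd_dl f).mul_right _

end Pool.Agent.Lib.MP_ffb54b_al.P2
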