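import Pool.Agent.Lib.MP_ffb54b_al.P2.PI0
import Pool.Agent.Lib.MP_ffb54b_al.P2.JCoc
import Pool.Agent.Lib.MP_ffb54b_al.Final

set_option autoImplicit false
set_option linter.unusedSectionVars false

namespace Pool.Agent.Lib.MP_ffb54b_al.P2

open Subgroup
open scoped commutatorElement

universe u v

namespace Lk

variable {Γ : Type u} {J : Type v} [Group Γ] [Group J] {K : ℕ → Subgroup Γ} {KJ : ℕ → Subgroup J}
  {R : Γ → J → Prop} {N : ℕ} (L : Lk K KJ R N) {x y u : Γ} {x' y' u' : J}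
include L

/-- The image of a subgroup under the link. -/
def img (T : Subgroup Γ) : Subgroup J where
  carrier := {a' | ∃ a ∈ T, R a a'}
  one_mem' := ⟨1, one_mem _, L.one⟩
  mul_mem' := fun ⟨a, ha, h⟩ ⟨b, hb, h'⟩ => ⟨a * b, mul_mem ha hb, L.mul h h'⟩
  inv_mem' := fun ⟨a, ha, h⟩ => ⟨a⁻¹, inv_mem ha, L.inv h⟩

lemma le_img {T : Subgroup Γ} {m : ℕ} (hm : m ≤ N) (h : K m ≤ T) : KJ m ≤ L.img T := fun a' ha =>
  (L.right a').imp fun _ r => ⟨h ((L.mem r hm).2 ha), r⟩

lemma le_of_img {T : Subgroup Γ} {m j : ℕ} (hm : m ≤ N) (h : K m ≤ T) (hj : j ≤ N)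
    (h' : KJ j ≤ L.img T) : K j ≤ T := fun a ha => by
  obtain ⟨a', r⟩ := L.left a
  obtain ⟨b, hb, r'⟩ := h' ((L.mem r hj).1 ha)
  simpa using mul_mem (h ((L.mem (L.mul r (L.inv r')) hm).2 (by simp))) hb

lemma base (hN : 7 ≤ N) (hx : R x x') (hy : R y y') (hu : R u u') (B : Base KJ x' y' u') :
    Base K x y u := by
  have v := L.vG hx hy hu
  have w : ∀ (p q : Bool) i, R (if p then P2.vG x y u q i else 1) (if p then P2.vG x' y' u' q i else 1) :=
    fun p q i => by cases p; exacts [L.one, v _ _]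
  exact ⟨fun p q => (L.mem (L.mul (L.comm (v _ _) (v _ _)) (L.inv (w _ _ _))) (by omega)).2 (B.h4 p q),
    fun p q r => (L.mem (L.comm (v _ _) (L.comm (v _ _) (v _ _))) hN).2 (B.h5 p q r),
    fun p q => (L.mem (L.comm hy (L.comm (v _ _) (v _ _))) hN).2 (B.h5y p q),
    fun T h a b => L.le_of_img hN h (by omega) (B.span _ (L.le_img hN h) ⟨_, a, v _ _⟩ ⟨_, b, v _ _⟩),
    (L.mem (L.comm (v _ _) (v _ _)) hN).2 B.mid,
    fun p q => (L.mem (L.mul (L.comm (v _ _) (v _ _)) (L.inv (w _ _ _))) hN).2 (B.one p q),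
    fun p q => (L.mem (L.mul (L.comm (v _ _) (v _ _)) (L.inv (w _ _ _))) hN).2 (B.two p q)⟩

end Lk

variable {G : Type u} [Group G] [TopologicalSpace G] [IsTopologicalGroup G]

lemma gamma_ns : NS (gamma G) := by
  have c1 : ∀ i, ⁅gamma G (i + 1), ⊤⁆ ≤ gamma G (i + 2) := fun i => le_topologicalClosure _
  have key : ∀ j i, ⁅gamma G (j + 1), gamma G (i + 1)⁆ ≤ gamma G (i + j + 2) := by
    intro j
    induction j with
    | zero => intro i; rw [commutator_comm]; exact c1 i
    | succ j ih =>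
      intro i
      refine closure_comm_le (gamma_closed _) (three_sub ?_ ?_)
      · refine (commutator_mono ((commutator_comm_le _ _).trans (c1 i)) le_rfl).trans ?_
        rw [commutator_comm]
        exact (ih (i + 1)).trans (le_of_eq (by congr 1; omega))
      · exact (commutator_mono ((commutator_comm_le _ _).trans (ih i)) le_rfl).trans (c1 _)
  refine ⟨gamma_anti, fun {i j a b} ha hb => ?_⟩
  rcases i with _ | i
  · rw [zero_add]
    exact commutator_le_right ⊤ _ (commutator_mem_commutator (mem_top a) hb)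
  rcases j with _ | j
  · exact commutator_le_left _ ⊤ (commutator_mem_commutator ha (mem_top b))
  · rw [show i + 1 + (j + 1) = j + i + 2 by omega]
    exact key i j (commutator_mem_commutator ha hb)

lemma relIndex_eq (hH : ∀ i, 1 ≤ i → Nonempty (Factor G i ≃* Factor J2 i)) {i : ℕ} (hi : 1 ≤ i) :
    (gamma G (i + 1)).relIndex (gamma G i) = (gamma J2 (i + 1)).relIndex (gamma J2 i) :=
  (hH i hi).elim fun e => Nat.card_congr e.toEquiv

lemma index_eq (hH : ∀ i, 1 ≤ i → Nonempty (Factor G i ≃* Factor J2 i)) :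
    ∀ i, (gamma G i).index = (gamma J2 i).index
  | 0 => index_top.trans index_top.symm
  | 1 => index_top.trans index_top.symm
  | i + 2 => by
    rw [← relIndex_mul_index (gamma_anti (i + 1).le_succ),
      ← relIndex_mul_index (gamma_anti (G := J2) (i + 1).le_succ), index_eq hH (i + 1),
      relIndex_eq hH (by omega)]

lemma exists_lk (ho : ∀ n, IsOpen (gamma J2 n : Set J2)) {n : ℕ} (hG : IsApprox G 2 n) :
    ∃ R, Lk (gamma G) (gamma J2) R n := by
  obtain ⟨f, h1, h2, h3⟩ := hG.exists_hom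
  have := QuotientGroup.discreteTopology (ho n)
  let π := QuotientGroup.mk' (gamma J2 n)
  have h1' : Continuous π := QuotientGroup.continuous_mk
  have h2' : Function.Surjective π := QuotientGroup.mk'_surjective _
  refine ⟨fun a a' => f a = π a', fun a => (h2' (f a)).imp fun _ h => h.symm, fun a' => h2 _,
    fun h h' => by rw [map_mul, map_mul, h, h'], fun h => by rw [map_inv, map_inv, h],
    fun {a a' t} h ht => ?_⟩
  have e1 : a ∈ gamma G t ↔ f a ∈ gamma _ t := by
    rw [← map_gamma h1 h2, ← mem_comap, comap_map_eq, sup_eq_left.2 (h3.le.trans (gamma_anti ht))]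
  have e2 : a' ∈ gamma J2 t ↔ π a' ∈ gamma _ t := by
    rw [← map_gamma h1' h2', ← mem_comap, comap_map_eq,
      sup_eq_left.2 ((QuotientGroup.ker_mk' _).le.trans (gamma_anti ht))]
  rw [e1, e2, h]

lemma Lk.lcs {R : G → J2 → Prop} {N : ℕ} (L : Lk (gamma G) (gamma J2) R N) (hN : 3 ≤ N)
    (hi : ∀ n, (gamma J2 n).index ≠ 0) (hH : ∀ i, 1 ≤ i → Nonempty (Factor G i ≃* Factor J2 i))
    {x y u : G} {x' y' u' : J2} (hx : R x x') (hy : R y y') (hu : R u u')
    (H : LCS (gamma J2) x' y' u') : LCS (gamma G) x y u where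
  normal := inferInstance
  ns := gamma_ns
  top := rfl
  gen1 T h a b c := top_le_iff.1 (L.le_of_img (j := 1) (by omega) h (by omega)
    (H.gen1 _ (L.le_img (by omega) h) ⟨_, a, hx⟩ ⟨_, b, hy⟩ ⟨_, c, hu⟩).ge)
  sq g hg := (L.left g).elim fun _ r =>
    (L.mem (L.pow r 2) hN).2 (H.sq _ ((L.mem r (by omega)).1 hg))
  gen n hn T h h' := by
    obtain ⟨n, rfl⟩ := Nat.exists_eq_add_of_le' hn
    have : (gamma G (n + 1 + 2)).FiniteIndex := ⟨index_eq hH _ ▸ hi _⟩
    refine topologicalClosure_minimal _ (commutator_le.2 fun k hk g _ => ?_) (isClosed_of_isOpen _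
      (isOpen_mono h (isOpen_of_isClosed_of_finiteIndex _ (gamma_closed _))))
    rw [← commutatorElement_inv]
    exact inv_mem (h' g k hk)
  idx_even m hm := (relIndex_eq hH (by omega)).trans (H.idx_even m hm)
  idx_odd m hm := (relIndex_eq hH (by omega)).trans (H.idx_odd m hm)

/-- Approximations with the factors of the Nottingham group inherit the data of `S1`. -/
theorem exists_app (ho : ∀ n, IsOpen (gamma J2 n : Set J2)) (hi : ∀ n, (gamma J2 n).index ≠ 0)
    {x' y' u' : J2} (H : LCS (gamma J2) x' y' u') (B : Base (gamma J2) x' y' u') {n : ℕ}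
    (hn : 7 ≤ n) (hG : IsApprox G 2 n) (hH : ∀ i, 1 ≤ i → Nonempty (Factor G i ≃* Factor J2 i)) :
    ∃ R x y u c σ, Lk (gamma G) (gamma J2) R n ∧ R x x' ∧ R y y' ∧ R u u' ∧
      LCS (gamma G) x y u ∧ S1G (gamma G) x y u c σ := by
  obtain ⟨R, L⟩ := exists_lk ho hG
  obtain ⟨x, hx⟩ := L.right x'
  obtain ⟨y, hy⟩ := L.right y'
  obtain ⟨u, hu⟩ := L.right u'
  have l := L.lcs (by omega) hi hH hx hy hu H
  obtain ⟨c, σ, S⟩ := l.exists_s1g (L.base hn hx hy hu B)
  exact ⟨R, x, y, u, c, σ, L, hx, hy, hu, l, S⟩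

end Pool.Agent.Lib.MP_ffb54b_al.P2
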