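import Pool.Agent.Lib.MP_ffb54b_al.P2.E1

set_option autoImplicit false
set_option linter.unusedSectionVars false

namespace Pool.Agent.Lib.MP_ffb54b_al.P2

open Finset Filter
open scoped commutatorElement

universe u

variable {U : Ultrafilter ℕ} {G : ℕ → Type u} [∀ n, Group (G n)] {K : ∀ n, ℕ → Subgroup (G n)}

lemma exists_ge (ν : Pos U) (t : ZMod 2) : ∃ l, ν ≤ l ∧ red 2 l = t := by
  by_cases h : red 2 ν = t
  · exact ⟨ν, le_rfl, h⟩
  · refine ⟨ν + 1, by linarith, ?_⟩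
    rw [map_add, map_one]
    revert h; generalize red 2 ν = s; revert s t; decide

/-- In characteristic two, squares gain an infinite depth at all large levels. -/
lemma Fam.sq_deep (H : Fam U K) (h : ∀ a : H.L, a + a = 0) : ∃ D : Pos U, Inf D ∧
    ∀ {μ : Pos U} {g : ∀ n, G n}, pos U id ≤ μ → g ∈ Ev K μ → g ^ 2 ∈ Ev K (μ + D) := by
  obtain ⟨D, hD, h1⟩ := overspill H.free
    (q := fun n d => ∀ j, n ≤ j → ∀ g ∈ K n j, g ^ 2 ∈ K n (j + d)) fun d => by
    obtain ⟨w, hw⟩ := underspill_nat H.free (q := fun n j => ∀ g ∈ K n j, g ^ 2 ∈ K n (j + d))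
      fun ν hν => ev_forall.2 fun g => by
        by_cases hg : g ∈ Ev K ν
        · have h2 := (H.pns.cls_eq_zero hν (pow_mem hg 2)).1 (by
            rw [H.pns.cls_pow hν hg, two_nsmul, h]) d
          rw [Int.cast_natCast, mem_Ev_add_nat hν.nonneg] at h2
          exact h2.mono fun n h _ => h
        · exact (Ultrafilter.eventually_not.2 hg).mono fun n h h' => (h h').elim
    filter_upwards [hw, H.free w] with n h1 h2 j hj using h1 j (h2.trans hj)
  refine ⟨D, hD, fun {μ g} hμ hg => (mem_Ev_add (H.free.inf_id.mono hμ).nonneg hD.nonneg).2 ?_⟩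
  filter_upwards [h1, hg, lev_le hμ, lev_pos (U := U) id] with n h2 h3 h4 h5
  exact h2 _ le_rfl _ (by rw [h5] at h4; exact h4) _ h3

namespace EH

open Fam

variable {H : Fam U K} {x y u : ∀ n, G n} {c : Pos U → H.L → W2 × W2} {σ : Pos U → Bil}
  {b : Bool → Pos U → H.L} {ch : Pos U → ZMod 2} {t c₆ c₇ c₈ : ZMod 2}
  (E : EH H x y u c σ b ch t c₆ c₇ c₈) {ν μ m i j l : Pos U} {a a' k k' p p' q r : H.L} {e : ℕ}
include E

lemma K_faith (hT : H.ExKP y e) (hn : ¬ H.ExKP y (e + 1)) (hμ : Inf μ) (hl : Inf l)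
    (hk : k ∈ H.Ks y μ) (h : ⁅k, E.s.pw l (ee true)⁆ ∈ H.F (μ + l + e + 1)) :
    k ∈ H.Ks y (μ + 1) := by
  have S := E.s
  rcases z2' (red 2 μ) with ho | ho
  · exact S.K_even hμ hk ho
  obtain ⟨κ, hκ, h5, -, -⟩ := exists_small hμ hμ 0
  obtain ⟨s₁, s₂, h6⟩ := E.K_rep hκ h5 (K_cast hk (by ring))
  have hN := (hμ.add hl).add_nat e
  have h1 : ∀ s, Cl H c (μ + l + e) ⁅⁅S.pw κ (ee true), S.pw (μ - κ) (ee s)⁆, S.pw l (ee true)⁆
      (ee s) := fun s => Cl.cast ⟨hT (hκ.add h5) hl (S.lie_PP hκ h5 (S.pw_P hκ _) (S.pw_P h5 _))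
        (S.pw_P hl _), by
      rw [(E.T_normal hT hn).2 hκ h5 hl (by rw [add_sub_cancel, ho]) (S.pw_P hκ _) (S.pw_P h5 _)
        (S.pw_P hl _), S.cW_pw hκ, S.cW_pw h5, S.cW_pw hl]
      cases s <;> decide⟩ (by ring)
  have h2 := sub_mem h (H.cast (hT (hκ.add h5).succ hl h6 (S.pw_P hl (ee true))) (by ring))
  rw [sub_lie, sub_sub_cancel, add_lie, nsmul_lie, nsmul_lie] at h2
  have h3 := S.cl_zero hN (S.cl_add hN (S.cl_val hN s₁ (h1 true)) (S.cl_val hN s₂ (h1 false))) h2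
  obtain ⟨rfl, rfl⟩ : s₁ = 0 ∧ s₂ = 0 := by
    revert h3; clear * -; revert s₁ s₂; decide
  simpa using h6

/-- If the excess is finite, the characteristic is not two. -/
theorem two_ne (hT : H.ExKP y e) (hn : ¬ H.ExKP y (e + 1)) : ∃ a : H.L, a + a ≠ 0 := by
  by_contra! h2
  have S := E.s
  obtain ⟨D, hD, hsq⟩ := H.sq_deep h2
  obtain ⟨ν, r, hν, -, hr⟩ := hD.exists_div (show 0 < 2 by norm_num)
  have hr' : 2 * ν ≤ D := by
    have : (0 : Pos U) ≤ r := Nat.cast_nonneg r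
    push_cast at hr
    linarith
  obtain ⟨a, ha, eA⟩ := (H.pns.mem_F hν).1 (S.pw_F hν (ee true))
  obtain ⟨j, hj⟩ := exists_least (U := U)
    (q := fun n j => (a ^ 2) n ∉ K n (j + 1) ∨ 2 * lev ν n + 1 ≤ j)
    (.of_forall fun n => ⟨_, Or.inr le_rfl⟩)
  have ha2 : a ^ 2 ∈ Ev K ν := pow_mem ha 2
  have e2 : pos U (fun n => 2 * lev ν n + 1) = 2 * ν + 1 := by
    rw [pos_add_const, pos_mul, pos_lev hν.nonneg, pos_const]; simp
  have j1 : ν ≤ pos U j := pos_lev hν.nonneg ▸ pos_le.2 (by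
    filter_upwards [hj, ha2, lev_pos (lev ν)] with n h1 h2 h3
    by_contra h4
    exact h1.1.elim (fun h => h ((H.ns n).anti (by omega) h2)) (by omega))
  have j2 : pos U j ≤ 2 * ν + 1 := e2 ▸ pos_le.2 (hj.mono fun n h =>
    not_lt.1 fun h' => h.2 _ h' (Or.inr le_rfl))
  have hμ := hν.mono j1
  have hs : a ^ 2 ∈ Ev K (pos U j) := mem_Ev_pos.2 (by
    filter_upwards [hj, inf_pos.1 hμ 1] with n h1 h2
    have := h1.2 (j n - 1) (by omega)
    rw [not_or, not_not, Nat.sub_add_cancel h2] at this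
    exact this.1)
  have j3 : pos U j = 2 * ν + 1 ∨ H.cls (pos U j) (a ^ 2) ∉ H.F (pos U j + 1) := by
    rcases Ultrafilter.eventually_or.1 (hj.mono fun n h => h.1) with h | h
    · refine Or.inr fun h' => Ultrafilter.eventually_not.1 h ?_
      have := (H.pns.cls_mem_iff hμ hs ⟨1, by simp⟩).1 h'
      rwa [← Nat.cast_one, ← pos_add_const, mem_Ev_pos] at this
    · exact Or.inl (j2.antisymm (e2 ▸ pos_le.2 h))
  generalize pos U j = μ at j1 j2 hμ hs j3
  have key : ∀ {l W}, pos U id ≤ l → W ∈ H.F l →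
      (Near μ (2 * ν) → ⁅H.cls μ (a ^ 2), W⁆ = ⁅S.pw ν (ee true), ⁅S.pw ν (ee true), W⁆⁆) ∧
      (¬ Near μ (2 * ν) → ⁅H.cls μ (a ^ 2), W⁆ = 0) := by
    intro l W hl' hW
    have hl := H.free.inf_id.mono hl'
    obtain ⟨w, hw, rfl⟩ := (H.pns.mem_F hl).1 hW
    have m1 := H.pns.comm ha hw
    have m2 : ⁅a, w⁆ ^ 2 ∈ Ev K (μ + l + (ν - 1)) :=
      H.pns.anti (by linarith) (hsq (by linarith [hν.nonneg]) m1)
    have m3 : ⁅a, w⁆ ^ 2 ∈ Ev K (μ + l) :=
      H.pns.anti (by linarith [lt_iff_add_one_le.1 hν.pos]) m2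
    have e1 : ⁅a ^ 2, w⁆ * (⁅a, w⁆ ^ 2)⁻¹ = ⁅a, ⁅a, w⁆⁆ := by
      simp only [commutatorElement_def, pow_two]; group
    have e3 := H.pns.cls_div (hμ.add hl) (H.pns.comm hs hw) m3
    rw [e1, H.pns.cls_deep (hμ.add hl) (hν.of_eq (-1) (by push_cast; ring)) m2, sub_zero] at e3
    rw [H.pns.lie_cls hμ hl hs hw, ← e3, ← eA, H.pns.lie_cls hν hl ha hw,
      H.pns.lie_cls hν (hν.add hl) ha m1]
    refine ⟨fun h => H.pns.cls_near (by
      convert h.add (Near.rfl (ν := l)) using 1; ring) _, fun h => ?_⟩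
    have h3 := (near_or_inf j2).resolve_left fun h' => h (h'.trans ⟨-1, by push_cast; ring⟩)
    exact H.pns.cls_deep (hμ.add hl) (h3.of_eq (-1) rfl)
      (H.pns.anti (by push_cast; linarith) (H.pns.comm ha m1))
  obtain ⟨k, hk, p, hp, ek⟩ := S.decomp hμ (H.pns.cls_mem hμ hs)
  have hA := S.pw_P hν (ee true)
  rcases j2.eq_or_lt with rfl | j4
  · obtain ⟨l, hl', ho⟩ := exists_ge (pos U id) (1 - red 2 ν)
    have hl := H.free.inf_id.mono hl'
    have hW := S.pw_P hl (ee true)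
    have hN := ((hν.add hl).add hν).add_nat e
    have h1 := S.π_lie_mem hT hμ hl (H.pns.cls_mem hμ hs) (P_F hW)
    rw [(key hl' (P_F hW)).1 ⟨-1, by push_cast; ring⟩, S.π_P (hν.add (hν.add hl))
      (S.lie_PK hν (hν.add hl) hA (S.lie_PP hν hl hA hW)), ← lie_skew, neg_mem_iff] at h1
    have h3 := (E.T_normal hT hn).2 hν hl hν (by rw [map_add, ho]; ring) hA hW hA
    rw [S.cW_deep hN (H.cast h1 (by ring)), S.cW_pw hν, S.cW_pw hl] at h3
    revert h3; decide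
  · replace j3 := j3.resolve_left j4.ne
    rw [lt_add_one_iff] at j4
    obtain ⟨l, hl', ho⟩ := exists_ge (pos U id) (1 - red 2 μ)
    have hl := H.free.inf_id.mono hl'
    have hW := S.pw_P hl (ee true)
    have hN := hμ.add hl
    have hR : ⁅H.cls μ (a ^ 2), S.pw l (ee true)⁆ ∈ H.Ps y (μ + l) ∧
        (μ < 2 * ν → ⁅H.cls μ (a ^ 2), S.pw l (ee true)⁆ ∈ H.F (μ + l + e + 1)) := by
      by_cases hc : Near μ (2 * ν)
      · rw [(key hl' (P_F hW)).1 hc]
        have h1 := S.lie_PP hν hl hA hW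
        obtain ⟨f, hf⟩ := hc.exists_nat j4
        refine ⟨P_up (S.lie_PK hν (hν.add hl) hA h1) f (by linear_combination hf), fun h => ?_⟩
        obtain ⟨f', hf'⟩ := ((Near.add_nat μ 1).symm.trans hc).exists_nat
          (by simpa using lt_iff_add_one_le.1 h)
        exact H.up (S1L.exPK hT hν (hν.add hl) hA h1) f' (by push_cast at hf'; linear_combination hf')
      · rw [(key hl' (P_F hW)).2 hc]
        exact ⟨zero_mem _, fun _ => zero_mem _⟩
    rw [show H.cls μ (a ^ 2) = _ from ek] at hR j3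
    rw [add_lie] at hR
    have h0 : ⁅p, S.pw l (ee true)⁆ = 0 := S.KP_disj hN (S.lie_PP hμ hl hp hW)
      ((add_mem_cancel_left (S.lie_KP hμ hl hk hW)).1 hR.1)
    have h1 := S.cZ_lie hμ hl (P_F hp) (P_F hW)
    have g := S.good hN (by rw [map_add, ho]; ring)
    rw [h0, S.c_zero hN, S.cW_pw hl, (g.left _).1] at h1
    have h3 := g.bb (E.bb hN) h1.symm
    have h4 := P_F (S.P_succ hμ hp (w2_ext h3.1 h3.2))
    refine j3 (add_mem (K_F (y := y) ?_) h4)
    rcases j4.lt_or_eq with h | h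
    · rw [h0, add_zero] at hR
      exact E.K_faith hT hn hμ hl hk (hR.2 h)
    · exact S.K_even hμ hk (by rw [h, map_mul, red_two, zero_mul])

end EH

end Pool.Agent.Lib.MP_ffb54b_al.P2
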