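import Pool.Agent.Lib.MP_ffb54b_al.P2.EDef

set_option autoImplicit false
set_option linter.unusedSectionVars false

namespace Pool.Agent.Lib.MP_ffb54b_al.P2

open Finset Filter

/-- invariance of `f` under a window. -/
def InvW (f : ℤ → ℤ → ZMod 2) (N : ℤ) (w : ℕ) (φ ψ : ℤ → ℕ → ZMod 2) : Prop :=
  ∀ i j, N < i + j + w → f i j = ∑ k ∈ range w, ∑ l ∈ range w, φ i k * ψ j l * f (i + k) (j + l)

lemma win_kill (f : ℤ → ℤ → ZMod 2) (par ch : ℤ → ZMod 2) (N : ℤ) (p q : Bool) (c₆ c₇ c₈ : ZMod 2)
    (hpar : ∀ i, par (i + 1) = par i + 1) (hch : ∀ i, ch (i + 1) = ch i + par i)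
    (top : ∀ i j, N < i + j → f i j = 0)
    (hx : InvW f N 3 (fun i => fx (par i) (ch i)) fun i => fx (par i) (ch i))
    (hy : InvW f N 5 (fun i => fy p (par i) (ch i)) fun i => fy q (par i) (ch i))
    (hu : InvW f N 7 (fun i => fu p (par i)) fun i => fu q (par i))
    (hv : InvW f N 9 (fun _ => fyu c₆ c₇ c₈) fun _ => fyu c₆ c₇ c₈)
    (hpq : p = true ∨ q = true) {i j : ℤ} (hij : i + j = N) : f i j = 0 := by
  have t2 : (2 : ZMod 2) = 0 := rfl
  have ep : ∀ i, par i = par 0 + i := fun i => by
    induction i using Int.induction_on with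
    | zero => simp
    | succ i ih => rw [hpar, ih]; push_cast; ring
    | pred i ih =>
      have := hpar (-i - 1)
      rw [sub_add_cancel, ih] at this
      push_cast at this ⊢
      linear_combination -this
  let Bal : ℤ → Prop := fun S => ∀ i j, i + j = S → f i j = f 0 S
  have hi : ∀ S, N < S → Bal S := fun S h i j e => by rw [top i j (by omega), top 0 S (by omega)]
  have step : ∀ S, N - 4 < S → Bal (S + 1) → Bal (S + 2) → Bal (S + 3) →
      (∀ i j, i + j + 3 = S → f (i + 3) j = f i (j + 3)) → Bal S := by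
    intro S hS b1 b2 b3 p3
    have p5 : ∀ i j, i + j + 5 = S → f (i + 5) j = f i (j + 5) := fun i j e => by
      have := hv i j (by push_cast; omega)
      simp only [sum_range_succ, sum_range_zero, fyu, Nat.cast_ofNat, Nat.cast_zero, Nat.cast_one,
        add_zero, zero_add, mul_zero, zero_mul, one_mul, mul_one] at this
      simp (disch := omega) only [top, mul_zero, add_zero] at this
      rw [b1 (i + 6) j (by omega), b1 i (j + 6) (by omega), b2 (i + 7) j (by omega),
        b2 i (j + 7) (by omega), b3 (i + 8) j (by omega), b3 i (j + 8) (by omega)] at this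
      linear_combination -this - (f i (j + 5) + c₆ * f 0 (S + 1) + c₇ * f 0 (S + 2) +
        c₈ * f 0 (S + 3)) * t2
    have p1 : ∀ i j, i + j + 1 = S → f (i + 1) j = f i (j + 1) := fun i j e => by
      have a1 := p5 (i + 1) (j - 5) (by omega)
      have a2 := p3 (i + 3) (j - 5) (by omega)
      have a3 := p3 i (j - 2) (by omega)
      ring_nf at a1 a2 a3 ⊢
      rw [← a1, a2, a3]
    intro i j e
    obtain rfl : j = S - i := by omega
    induction i using Int.induction_on with
    | zero => simp
    | succ i ih => rw [p1 _ _ (by omega), ← ih (by omega)]; congr 1; ring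
    | pred i ih => rw [← ih (by omega), ← sub_add_cancel (-(i : ℤ)) 1, p1 _ _ (by omega)]; congr 1 <;> ring
  have p3 : ∀ S, N - 3 < S → ∀ i j, i + j + 3 = S → f (i + 3) j = f i (j + 3) := fun S hS i j e => by
    have := hu i j (by push_cast; omega)
    simp only [sum_range_succ, sum_range_zero, fu, Nat.cast_ofNat, Nat.cast_zero,
      add_zero, zero_add, mul_zero, zero_mul, one_mul, mul_one] at this
    simp (disch := omega) only [top, mul_zero, add_zero] at this
    linear_combination -this - f i (j + 3) * t2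
  have b0 : Bal N := step N (by omega) (hi _ (by omega)) (hi _ (by omega)) (hi _ (by omega))
    (p3 _ (by omega))
  have b1 : Bal (N - 1) := step _ (by omega) (by simpa using b0) (hi _ (by omega)) (hi _ (by omega))
    (p3 _ (by omega))
  have b2 : Bal (N - 2) := step _ (by omega) (by convert b1 using 1; ring) (by simpa using b0)
    (hi _ (by omega)) (p3 _ (by omega))
  rw [b0 i j hij]
  refine (z2' _).resolve_right fun h0 => ?_
  have c0 : ∀ i j, i + j = N → f i j = 1 := fun i j e => (b0 i j e).trans h0
  have x1 := hx 0 (N - 1) (by push_cast; omega)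
  have x2 := hx 0 (N - 2) (by push_cast; omega)
  have y2 := hy 0 (N - 2) (by push_cast; omega)
  have y3 := hy 0 (N - 3) (by push_cast; omega)
  have y4 := hy 0 (N - 4) (by push_cast; omega)
  obtain ⟨F₁, c1⟩ : ∃ F, ∀ i j, i + j = N - 1 → f i j = F := ⟨_, b1⟩
  obtain ⟨F₂, c2⟩ : ∃ F, ∀ i j, i + j = N - 2 → f i j = F := ⟨_, b2⟩
  simp only [sum_range_succ, sum_range_zero, fx, fy, Nat.cast_ofNat, Nat.cast_zero, Nat.cast_one,
    add_zero, zero_add, one_mul, mul_one] at x1 x2 y2 y3 y4
  simp (disch := omega) only [top, c0, c1, c2, mul_zero, add_zero, mul_one] at x1 x2 y2 y3 y4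
  have q3 : par (N - 3) = par (N - 4) + 1 := by rw [← hpar]; congr 1; ring
  have q2 : par (N - 2) = par (N - 3) + 1 := by rw [← hpar]; congr 1; ring
  have q1 : par (N - 1) = par (N - 2) + 1 := by rw [← hpar]; congr 1; ring
  have r3 : ch (N - 3) = ch (N - 4) + par (N - 4) := by rw [← hch]; congr 1; ring
  have r2 : ch (N - 2) = ch (N - 3) + par (N - 3) := by rw [← hch]; congr 1; ring
  rw [q1, q2, q3] at x1
  rw [r2, r3, q2, q3] at x2
  rw [q2, q3] at y2
  rw [q3] at y3
  have hN : par 0 + par (N - 4) = 1 := by linear_combination x1 + (par 0 + par (N - 4) + 1) * t2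
  obtain ⟨rfl, rfl⟩ : p = true ∧ q = true := by
    revert y2 hN hpq
    generalize par 0 = a1
    generalize par (N - 4) = a2
    clear * -
    revert a1 a2 F₁ F₂ p q
    decide
  have b3 : Bal (N - 3) := step _ (by omega) (by convert b2 using 1; ring)
    (by convert b1 using 1; ring) (by simpa using b0) fun i j e => by
    have := hu i j (by push_cast; omega)
    simp only [sum_range_succ, sum_range_zero, fu, Nat.cast_ofNat, Nat.cast_zero,
      add_zero, zero_add, mul_zero, zero_mul, one_mul, mul_one] at this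
    simp (disch := omega) only [top, c0, mul_zero, add_zero, mul_one] at this
    obtain rfl : N = i + j + 6 := by omega
    rw [ep (i + j + 6 - 4)] at hN
    rw [ep i, ep j] at this
    push_cast at hN
    linear_combination -this - hN - (f i (j + 3) + 1 + ind true - 1) * t2
  rw [b3 0 (N - 4 + 1) (by omega), b3 1 (N - 4) (by omega)] at y4
  revert x2 y3 y4 hN
  generalize par 0 = a1
  generalize par (N - 4) = a2
  generalize ch 0 = a3
  generalize ch (N - 4) = a4
  generalize f 0 (N - 3) = a5
  generalize f 0 (N - 4) = a6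
  clear * -
  revert a1 a2 a3 a4 a5 a6 F₁ F₂
  decide

end Pool.Agent.Lib.MP_ffb54b_al.P2
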