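import Pool.Agent.Lib.MP_ffb54b_al.P2.Gal

set_option autoImplicit false
set_option linter.unusedSectionVars false

namespace Pool.Agent.Lib.MP_ffb54b_al.P2

open Filter Subgroup
open scoped commutatorElement

universe u

section Fin

variable {Γ : Type u} [Group Γ]

/-- Squaring shifts the series by `d` from level `w` on. -/
structure SqF (K : ℕ → Subgroup Γ) (w d : ℕ) : Prop where
  q1 : ∀ j, w ≤ j → ∀ g ∈ K j, g ^ 2 ∈ K (j + d)
  q2 : ∀ j, w ≤ j → ∀ g ∈ K j, g ^ 2 ∈ K (j + d + 1) → g ∈ K (j + 1)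
  q3 : ∀ j, w ≤ j → ∀ h ∈ K (j + d), ∃ g ∈ K j, h * (g ^ 2)⁻¹ ∈ K (j + d + 1)

namespace SqF

variable {K : ℕ → Subgroup Γ} [∀ i, (K i).Normal] {w d : ℕ} (h : SqF K w d)
  (hK : NS K) {i j M : ℕ} {a b g : Γ}
include h

lemma pow_mem (hj : w ≤ j) (hg : g ∈ K j) (k : ℕ) : g ^ 2 ^ k ∈ K (j + k * d) := by
  induction k with
  | zero => simpa using hg
  | succ k ih =>
    rw [pow_succ, pow_mul, add_mul, one_mul, ← add_assoc]
    exact h.q1 _ (by omega) _ ih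

lemma pow_inj (hj : w ≤ j) (hg : g ∈ K j) (k : ℕ) (H : g ^ 2 ^ k ∈ K (j + k * d + 1)) :
    g ∈ K (j + 1) := by
  induction k with
  | zero => simpa using H
  | succ k ih =>
    rw [pow_succ, pow_mul, add_mul, one_mul, ← add_assoc] at H
    exact ih (h.q2 _ (by omega) _ (h.pow_mem hj hg k) H)

include hK

lemma sq_congr (hb : b ∈ K j) (hM : w ≤ M) (hd : d ≤ j) (e : pr K M a = pr K M b) :
    pr K (M + d) (a ^ 2) = pr K (M + d) (b ^ 2) := by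
  have h1 := pr_eq.1 e
  have e1 : a ^ 2 * (b ^ 2)⁻¹ = (a * b⁻¹) ^ 2 * ⁅(a * b⁻¹)⁻¹, b⁆ := by
    simp only [commutatorElement_def, pow_two]; group
  rw [pr_eq, e1]
  exact mul_mem (h.q1 _ hM _ h1) (hK.comm' (inv_mem h1) hb (by omega))

lemma pow_mul' (hj : w ≤ j) (ha : a ∈ K j) (hb : b ∈ K j) (hM : w ≤ M) (hd : d ≤ j)
    (hM' : M + d ≤ j + j) (k : ℕ) :
    pr K (M + k * d) ((a * b) ^ 2 ^ k) = pr K (M + k * d) (a ^ 2 ^ k * b ^ 2 ^ k) := by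
  induction k with
  | zero => simp
  | succ k ih =>
    have m1 := h.pow_mem hj ha k
    have m2 := h.pow_mem hj hb k
    rw [pow_succ, pow_mul, pow_mul, pow_mul, add_mul, one_mul, ← add_assoc,
      h.sq_congr hK (mul_mem m1 m2) (by omega) (by omega) ih]
    have := hK.pr_comm (n := M + k * d + d) m1 m2 (by omega)
    simp only [pow_two, map_mul]
    rw [mul_assoc, ← mul_assoc (pr K _ (b ^ 2 ^ k)), ← this]
    simp only [mul_assoc]

lemma pow_comm (hi : w ≤ i) (ha : a ∈ K i) (hb : b ∈ K j) (hM : w ≤ M) (hd : d ≤ i)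
    (hM' : M + d ≤ i + i + j) (k : ℕ) :
    pr K (M + k * d) ⁅a ^ 2 ^ k, b⁆ = pr K (M + k * d) (⁅a, b⁆ ^ 2 ^ k) := by
  induction k with
  | zero => simp
  | succ k ih =>
    have m1 := h.pow_mem hi ha k
    have m2 := h.pow_mem (j := i + j) (by omega) (hK.comm ha hb) k
    rw [pow_succ, pow_mul, pow_mul, add_mul, one_mul, ← add_assoc,
      ← h.sq_congr hK m2 (by omega) (by omega) ih, pow_two, pow_two,
      hK.mul_left m1 m1 hb (by omega), map_mul]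

lemma pow_surj (hj : w ≤ j) (hd : d ≤ j) (k : ℕ) (hb : b ∈ K (j + k * d)) :
    ∃ g ∈ K j, pr K (j + k * d + 1) b = pr K (j + k * d + 1) (g ^ 2 ^ k) := by
  induction k generalizing b with
  | zero => exact ⟨b, by simpa using hb, by simp⟩
  | succ k ih =>
    rw [add_mul, one_mul, ← add_assoc] at hb ⊢
    obtain ⟨g₁, h1, e1⟩ := h.q3 _ (by omega) _ hb
    obtain ⟨g, h2, e2⟩ := ih h1
    refine ⟨g, h2, (pr_eq.2 e1).trans ?_⟩
    rw [pow_succ 2, pow_mul, add_right_comm]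
    exact h.sq_congr hK (h.pow_mem hj h2 k) (by omega) (by omega) e2

end SqF

end Fin

variable {U : Ultrafilter ℕ} {G : ℕ → Type u} [∀ n, Group (G n)] {K : ∀ n, ℕ → Subgroup (G n)}

/-- A bijective centroid element shifting the filtration by `κ`. -/
structure Shift (H : Fam U K) (κ : Pos U) (T : H.L →+ H.L) : Prop where
  inf : Inf κ
  mem : ∀ {ν a}, Inf ν → a ∈ H.F ν → T a ∈ H.F (ν + κ)
  inj : ∀ {ν a}, Inf ν → a ∈ H.F ν → T a ∈ H.F (ν + κ + 1) → a ∈ H.F (ν + 1)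
  surj : ∀ {ν b}, Inf ν → b ∈ H.F (ν + κ) → ∃ a ∈ H.F ν, b - T a ∈ H.F (ν + κ + 1)
  lie : ∀ {ν μ a b}, Inf ν → Inf μ → a ∈ H.F ν → b ∈ H.F μ → T ⁅a, b⁆ = ⁅T a, b⁆
  ρ : ∀ g a, T (H.ρ g a) = H.ρ g (T a)

theorem Fam.exists_shift (H : Fam U K) {w d : ℕ} (hd : 1 ≤ d) (h : ∀ᶠ n in U, SqF (K n) w d) :
    ∃ κ T, Shift H κ T := by
  let κ : Pos U := pos U fun n => n * d
  have hκ : Inf κ := inf_pos.2 fun c => (H.free c).mono fun n h => h.trans (Nat.le_mul_of_pos_right n hd)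
  let s : (∀ n, G n) → ∀ n, G n := fun a n => a n ^ 2 ^ n
  have lv : ∀ {ν : Pos U}, Inf ν → ∀ᶠ n in U, lev (ν + κ) n = lev ν n + n * d := fun hν =>
    ((lev_add hν.nonneg hκ.nonneg).and (lev_pos fun n => n * d)).mono fun n h => by rw [h.1, h.2]
  have m1 : ∀ {ν : Pos U} {a}, Inf ν → a ∈ Ev K ν → s a ∈ Ev K (ν + κ) := by
    intro ν a hν ha
    filter_upwards [h, ha, lv hν, hν.le_lev w] with n h1 h2 h3 h4
    have := H.normal n
    rw [h3]; exact h1.pow_mem h4 h2 n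
  have m2 : ∀ {ν : Pos U} {a b}, Inf ν → a ∈ Ev K ν → b ∈ Ev K ν →
      H.cls (ν + κ) (s (a * b)) = H.cls (ν + κ) (s a) + H.cls (ν + κ) (s b) := by
    intro ν a b hν ha hb
    rw [← H.pns.cls_mul (hν.add hκ) (m1 hν ha) (m1 hν hb), ← sub_eq_zero,
      ← H.pns.cls_div (hν.add hκ) (m1 hν (mul_mem ha hb)) (mul_mem (m1 hν ha) (m1 hν hb))]
    refine H.pns.cls_deep (hν.add hκ) (hν.sub_nat d) ?_
    filter_upwards [h, ha, hb, lv hν, hν.le_lev (w + d), lev_add (hν.add hκ).nonneg (hν.sub_nat d).nonneg,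
      lev_add_nat (hν.sub_nat d).nonneg d] with n h1 h2 h3 h4 h5 h6 h7
    have := H.normal n
    rw [sub_add_cancel] at h7
    exact (H.ns n).anti (by omega) (pr_eq.1 (h1.pow_mul' (H.ns n) (M := lev ν n + lev (ν - d : Pos U) n)
      (by omega) h2 h3 (by omega) (by omega) (by omega) n))
  have s1 : s 1 = 1 := funext fun n => one_pow _
  obtain ⟨T, hT⟩ := H.pns.exists_lift (fun A a => H.pns.cg (A + κ) (s a)) (fun A a ha b hb => by
    rcases ha with rfl | ⟨ν, rfl, hν, ha⟩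
    · rw [one_mul, s1, H.pns.cg_one, zero_add]
    rcases hb with rfl | ⟨μ, e, hμ, hb⟩
    · rw [mul_one, s1, H.pns.cg_one, add_zero]
    rcases le_total ν μ with h1 | h1
    · exact m2 hν ha (H.pns.anti h1 hb)
    · rw [← e]; exact m2 hμ (H.pns.anti h1 ha) hb) fun A a ha ha' => by
    rcases ha with rfl | ⟨ν, rfl, hν, ha⟩
    · rw [s1, H.pns.cg_one]
    refine (H.pns.cls_eq_zero (hν.add hκ) (m1 hν ha)).2 fun c => ?_
    rw [add_right_comm]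
    exact m1 (hν.add_int c) (ha' _ (gx_eq.2 (Near.add_int ν c)).symm)
  have t1 : ∀ {ν : Pos U} {a}, Inf ν → a ∈ Ev K ν → T (H.cls ν a) = H.cls (ν + κ) (s a) :=
    fun hν ha => hT _ _ (H.pns.mem_S hν ha)
  refine ⟨κ, T, hκ, fun {ν a} hν ha0 => ?_, fun {ν a} hν ha0 h1 => ?_, fun {ν b} hν hb0 => ?_,
    fun {ν μ a b} hν hμ ha0 hb0 => ?_, fun g a => ?_⟩
  · obtain ⟨a, ha, rfl⟩ := (H.pns.mem_F hν).1 ha0
    rw [t1 hν ha]
    exact H.pns.cls_mem (hν.add hκ) (m1 hν ha)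
  · obtain ⟨a, ha, rfl⟩ := (H.pns.mem_F hν).1 ha0
    rw [t1 hν ha, H.pns.cls_mem_iff (hν.add hκ) (m1 hν ha) ⟨1, by simp⟩,
      mem_Ev_succ (hν.add hκ).nonneg] at h1
    rw [H.pns.cls_mem_iff hν ha ⟨1, by simp⟩, mem_Ev_succ hν.nonneg]
    filter_upwards [h, ha, lv hν, hν.le_lev w, h1] with n h1 h2 h3 h4 h5
    have := H.normal n
    exact h1.pow_inj h4 h2 n (h3 ▸ h5)
  · obtain ⟨b, hb, rfl⟩ := (H.pns.mem_F (hν.add hκ)).1 hb0
    obtain ⟨a, ha⟩ := (ev_exists (q := fun n (g : G n) => g ∈ K n (lev ν n) ∧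
        b n * (g ^ 2 ^ n)⁻¹ ∈ K n (lev (ν + κ) n + 1))).1 (by
      filter_upwards [h, hb, lv hν, hν.le_lev (w + d)] with n h1 h2 h3 h4
      have := H.normal n
      rw [h3] at h2 ⊢
      exact (h1.pow_surj (H.ns n) (by omega) (by omega) n h2).imp fun g hg => ⟨hg.1, pr_eq.1 hg.2⟩)
    have ha' : a ∈ Ev K ν := ha.mono fun n h => h.1
    refine ⟨_, H.pns.cls_mem hν ha', ?_⟩
    rw [t1 hν ha', H.pns.cls_sub_mem (hν.add hκ) hb (m1 hν ha') ⟨1, by simp⟩,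
      mem_Ev_succ (hν.add hκ).nonneg]
    exact ha.mono fun n h => h.2
  · obtain ⟨a, ha, rfl⟩ := (H.pns.mem_F hν).1 ha0
    obtain ⟨b, hb, rfl⟩ := (H.pns.mem_F hμ).1 hb0
    have n1 := m1 (hν.add hμ) (H.pns.comm ha hb)
    have n2 : ⁅s a, b⁆ ∈ Ev K (ν + μ + κ) := H.pns.comm' (m1 hν ha) hb (by rw [add_right_comm])
    have hN := (hν.add hμ).add hκ
    rw [H.pns.lie_cls hν hμ ha hb, t1 (hν.add hμ) (H.pns.comm ha hb), t1 hν ha,
      H.pns.lie_cls (hν.add hκ) hμ (m1 hν ha) hb, add_right_comm ν κ μ, eq_comm, ← sub_eq_zero,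
      ← H.pns.cls_div hN n2 n1]
    refine H.pns.cls_deep hN (hν.sub_nat d) ?_
    filter_upwards [h, ha, hb, lv (hν.add hμ), hν.le_lev (w + d), lev_add hN.nonneg (hν.sub_nat d).nonneg,
      lev_add_nat (hν.sub_nat d).nonneg d, lev_add hν.nonneg hμ.nonneg] with n h1 h2 h3 h4 h5 h6 h7 h8
    have := H.normal n
    rw [sub_add_cancel] at h7
    exact (H.ns n).anti (by omega) (pr_eq.1 (h1.pow_comm (H.ns n)
      (M := lev ν n + lev μ n + lev (ν - d : Pos U) n) (by omega) h2 h3 (by omega) (by omega) (by omega) n))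
  · refine H.pns.induction_F a (fun ν hν a ha0 => ?_) (by simp) fun a b h1 h2 => by
      simp only [map_add, h1, h2]
    obtain ⟨a, ha, rfl⟩ := (H.pns.mem_F hν).1 ha0
    rw [H.pns.ρ_cls g hν ha, t1 hν ((H.pns.normal ν).conj_mem _ ha g), t1 hν ha,
      H.pns.ρ_cls g (hν.add hκ) (m1 hν ha)]
    congr 1
    exact funext fun n => conj_pow

lemma under_pair (hU : Free U) {q : ∀ n, ℕ → G n → Prop}
    (h : ∀ (ν : Pos U) (a : ∀ n, G n), Inf ν → ∀ᶠ n in U, q n (lev ν n) (a n)) :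
    ∃ w : ℕ, ∀ᶠ n in U, ∀ j, w ≤ j → ∀ g, q n j g := by
  obtain ⟨w, hw⟩ := underspill hU (X := fun n => ℕ × G n) (fun _ x => x.1)
    (q := fun n x => q n x.1 x.2) fun x hx =>
      ((h _ (fun n => (x n).2) hx).and (lev_pos fun n => (x n).1)).mono fun n h => h.2 ▸ h.1
  exact ⟨w, hw.mono fun n h j hj g => h (j, g) hj⟩

theorem Fam.exists_sqf (H : Fam U K) {d : ℕ}
    (h1 : ∀ {ν a}, Inf ν → a ∈ H.F ν → a + a ∈ H.F (ν + d))
    (h2 : ∀ {ν a}, Inf ν → a ∈ H.F ν → a + a ∈ H.F (ν + d + 1) → a ∈ H.F (ν + 1))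
    (h3 : ∀ {ν b}, Inf ν → b ∈ H.F (ν + d) → ∃ a ∈ H.F ν, b - (a + a) ∈ H.F (ν + d + 1)) :
    ∃ w, ∀ᶠ n in U, SqF (K n) w d := by
  have sq : ∀ {ν : Pos U} {a}, Inf ν → a ∈ Ev K ν → H.cls ν (a ^ 2) = H.cls ν a + H.cls ν a :=
    fun hν ha => by rw [pow_two]; exact H.pns.cls_mul hν ha ha
  have m1 : ∀ {ν : Pos U} {a}, Inf ν → a ∈ Ev K ν → a ^ 2 ∈ Ev K (ν + d : Pos U) := fun hν ha =>
    (H.pns.cls_mem_iff hν (pow_mem ha 2) (Near.add_nat _ d)).1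
      (by rw [show H.pns.cls _ _ = _ from sq hν ha]; exact h1 hν (H.pns.cls_mem hν ha))
  have nr : ∀ ν : Pos U, Near ν (ν + d + 1) := fun ν => ⟨d + 1, by push_cast; ring⟩
  have lv : ∀ {ν : Pos U}, Inf ν → ∀ᶠ n in U, lev (ν + d + 1 : Pos U) n = lev ν n + d + 1 :=
    fun hν => ((lev_succ (hν.add_nat d).nonneg).and (lev_add_nat hν.nonneg d)).mono
      fun n h => by rw [h.1, h.2]
  obtain ⟨w1, e1⟩ := under_pair (G := G) H.free (q := fun n j g => g ∈ K n j → g ^ 2 ∈ K n (j + d))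
    fun ν a hν => Ultrafilter.eventually_imp.2 fun ha => (mem_Ev_add_nat hν.nonneg).1 (m1 hν ha)
  obtain ⟨w2, e2⟩ := under_pair (G := G) H.free
    (q := fun n j g => g ∈ K n j → g ^ 2 ∈ K n (j + d + 1) → g ∈ K n (j + 1))
    fun ν a hν => Ultrafilter.eventually_imp.2 fun ha => Ultrafilter.eventually_imp.2 fun h => by
      refine (mem_Ev_succ hν.nonneg).1 ((H.pns.cls_mem_iff hν ha ⟨1, by simp⟩).1
        (h2 hν (H.pns.cls_mem hν ha) ?_))
      rw [← sq hν ha, H.pns.cls_mem_iff hν (pow_mem ha 2) (nr ν)]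
      exact (mem_Ev_of (lv hν)).2 h
  obtain ⟨w3, e3⟩ := under_pair (G := G) H.free
    (q := fun n j g => g ∈ K n (j + d) → ∃ r ∈ K n j, g * (r ^ 2)⁻¹ ∈ K n (j + d + 1))
    fun ν b hν => Ultrafilter.eventually_imp.2 fun hb => by
      have hb' : b ∈ Ev K (ν + d : Pos U) := (mem_Ev_add_nat hν.nonneg).2 hb
      obtain ⟨a, ha0, h⟩ := h3 hν (H.pns.cls_mem (hν.add_nat d) hb')
      obtain ⟨a, ha, rfl⟩ := (H.pns.mem_F hν).1 ha0
      rw [← sq hν ha, ← H.pns.cls_near (Near.add_nat ν d), H.pns.cls_sub_mem hν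
        (H.pns.anti (le_add_of_nonneg_right (Nat.cast_nonneg d)) hb') (pow_mem ha 2) (nr ν)] at h
      exact (Eventually.and ha ((mem_Ev_of (lv hν)).1 h)).mono fun n h => ⟨a n, h⟩
  refine ⟨w1 + w2 + w3, ?_⟩
  filter_upwards [e1, e2, e3] with n e1 e2 e3
  exact ⟨fun j hj => e1 j (by omega), fun j hj => e2 j (by omega), fun j hj => e3 j (by omega)⟩

end Pool.Agent.Lib.MP_ffb54b_al.P2
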