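import Pool.Agent.Lib.MP_ffb54b_al.P2.Kil1
import Pool.Agent.Lib.MP_ffb54b_al.P2.Kil2
import Pool.Agent.Lib.MP_ffb54b_al.P2.E1

set_option autoImplicit false
set_option linter.unusedSectionVars false

namespace Pool.Agent.Lib.MP_ffb54b_al.P2

open Filter Finset

universe u

variable {U : Ultrafilter ℕ} {G : ℕ → Type u} [∀ n, Group (G n)] {K : ∀ n, ℕ → Subgroup (G n)}

namespace Shift

variable {H : Fam U K} {κ : Pos U} {T : H.L →+ H.L} (h : Shift H κ T) {ν : Pos U} {a b : H.L}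
include h

lemma refl (hν : Inf ν) (ha : a ∈ H.F ν) (t : ℕ) (e : T a ∈ H.F (ν + t + κ)) : a ∈ H.F (ν + t) := by
  induction t with
  | zero => simpa using ha
  | succ t ih =>
    rw [Nat.cast_succ, ← add_assoc] at e ⊢
    exact h.inj (hν.add_nat t) (ih (H.up1 (H.cast e (by ring)))) (H.cast e (by ring))

lemma eq_zero (hν : Inf ν) (ha : a ∈ H.F ν) (e : T a = 0) : a = 0 :=
  H.pns.F_sep fun t => h.refl hν ha t (e ▸ zero_mem _)

lemma onto (hν : Inf ν) (hb : b ∈ H.F (ν + κ)) : ∃ a ∈ H.F ν, T a = b := by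
  have step : ∀ t : ℕ, ∀ b ∈ H.F (ν + t + κ), ∃ x, x ∈ H.F (ν + t) ∧
      b - T x ∈ H.F (ν + (t + 1 : ℕ) + κ) := fun t b hb =>
    (h.surj (hν.add_nat t) hb).imp fun x hx => ⟨hx.1, H.cast hx.2 (by push_cast; ring)⟩
  choose! f hf using step
  let r : ℕ → H.L := fun t => Nat.rec b (fun t x => x - T (f t x)) t
  have hr : ∀ t : ℕ, r t ∈ H.F (ν + t + κ) := fun t => by
    induction t with
    | zero => simpa [r] using hb
    | succ t ih => exact (hf _ _ ih).2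
  obtain ⟨a, ha⟩ := H.complete (fun t => f t (r t)) fun t => (hf _ _ (hr t)).1
  refine ⟨a, by simpa using ha 0, sub_eq_zero.1 (H.pns.F_sep (ν := ν + κ) fun t => ?_)⟩
  have e : ∀ t, b - T (∑ j ∈ range t, f j (r j)) = r t := fun t => by
    induction t with
    | zero => simp [r]
    | succ t ih => rw [sum_range_succ, map_add, ← sub_sub, ih]
  have := sub_mem (h.mem (hν.add_nat t) (ha t)) (hr t)
  rw [← e t, map_sub, sub_sub, add_sub_cancel] at this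
  exact H.cast this (by ring)

lemma lie_all (a b : H.L) : T ⁅a, b⁆ = ⁅T a, b⁆ := by
  refine H.pns.induction_F a (fun ν hν a ha => ?_) (by simp) fun a a' h1 h2 => by
    simp only [add_lie, map_add, h1, h2]
  exact H.pns.induction_F b (fun μ hμ b hb => h.lie hν hμ ha hb) (by simp) fun b b' h1 h2 => by
    simp only [lie_add, map_add, h1, h2]

end Shift

/-- The galaxy of `κ` as a subgroup. -/
def Fam.Gl (H : Fam U K) (κ : Pos U) : AddSubgroup H.L where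
  carrier := {a | ∃ i : ℤ, a ∈ H.F (κ + i)}
  zero_mem' := ⟨0, zero_mem _⟩
  neg_mem' h := h.imp fun _ h => neg_mem h
  add_mem' := by
    rintro a b ⟨i, ha⟩ ⟨j, hb⟩
    have m : ∀ {i j : ℤ}, i ≤ j → H.F (κ + j) ≤ H.F (κ + i) := fun h =>
      H.pns.F_anti ((Near.add_int _ _).symm.trans (Near.add_int _ _)) (by simpa using h)
    exact ⟨min i j, add_mem (m (min_le_left _ _) ha) (m (min_le_right _ _) hb)⟩

/-- The filtration of one galaxy. -/
noncomputable def Fam.GF (H : Fam U K) (κ : Pos U) (i : ℤ) : AddSubgroup (H.Gl κ) :=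
  (H.F (κ + i)).addSubgroupOf _

lemma Fam.exists_retr (H : Fam U K) {κ : Pos U} (hκ : Inf κ) :
    ∃ π : H.L →+ H.Gl κ, ∀ a : H.Gl κ, π a = a := by
  obtain ⟨φ, h1, h2⟩ := H.pns.exists_proj (κ : Gx (Pos U))
  have e : ∀ {i : ℤ} {a}, a ∈ H.F (κ + i) → φ a = a := fun {i a} ha => by
    obtain ⟨a, -, rfl⟩ := (H.pns.mem_F (hκ.add_int i)).1 ha
    rw [← H.pns.cls_near (Near.add_int κ i)]
    exact h1 a
  have m : ∀ a, φ a ∈ H.Gl κ := fun a => by
    refine H.pns.induction_F a (fun ν hν a ha => ?_) (by simp) fun a b h1 h2 => by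
      rw [map_add]; exact add_mem h1 h2
    by_cases hn : Near κ ν
    · obtain ⟨i, rfl⟩ := hn
      exact (e ha).symm ▸ ⟨i, ha⟩
    · obtain ⟨a, -, rfl⟩ := (H.pns.mem_F hν).1 ha
      rw [show φ (H.pns.cls ν a) = 0 from h2 _ (fun e => hn (gx_eq.1 e).symm) a]
      exact zero_mem _
  exact ⟨φ.codRestrict _ m, fun a => Subtype.ext (a.2.elim fun _ h => e h)⟩

variable {H : Fam U K} {x y u : ∀ n, G n} {c : Pos U → H.L → W2 × W2} {σ : Pos U → Bil}

lemma S1L.tf (S : S1L H x y u c σ) {κ : Pos U} (hκ : Inf κ) {d : ℕ} (hd : 1 ≤ d)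
    (h1 : ∀ {ν a}, Inf ν → a ∈ H.F ν → a + a ∈ H.F (ν + d))
    (h2 : ∀ {ν a}, Inf ν → a ∈ H.F ν → a + a ∈ H.F (ν + d + 1) → a ∈ H.F (ν + 1))
    (h3 : ∀ {ν b}, Inf ν → b ∈ H.F (ν + d) → ∃ a ∈ H.F ν, b - (a + a) ∈ H.F (ν + d + 1)) :
    TF (H.GF κ) d where
  pos := hd
  anti i j h a ha :=
    H.pns.F_anti ((Near.add_int _ _).symm.trans (Near.add_int _ _)) (by simpa using h) ha
  sep h := Subtype.ext (H.pns.F_sep (ν := κ) fun t => H.cast (h t) (by push_cast; rfl))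
  exh a := a.2
  complete i z hz := by
    obtain ⟨a, ha⟩ := H.complete (ν := κ + (i : Pos U)) (fun t => z t) fun t =>
      H.cast (hz t) (by push_cast; ring)
    refine ⟨⟨a, i, by simpa using ha 0⟩, fun t => H.cast (μ := κ + (i : Pos U) + t) ?_ (by push_cast; ring)⟩
    simpa using ha t
  fin i := by
    classical
    have hν := hκ.add_int i
    have ex : ∀ q : W2 × W2, ∃ r : H.Gl κ, r ∈ H.GF κ i ∧
        ((∃ a ∈ H.GF κ i, c (κ + i) a = q) → c (κ + i) r = q) := fun q => by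
      by_cases h : ∃ a ∈ H.GF κ i, c (κ + i) a = q
      · exact h.imp fun a ha => ⟨ha.1, fun _ => ha.2⟩
      · exact ⟨0, zero_mem _, fun h' => (h h').elim⟩
    choose r m e using ex
    refine ⟨univ.image r, fun b hb => ?_, fun a ha => ⟨_, mem_image_of_mem r (mem_univ (c (κ + i) a)),
      H.cast ((S.zero hν (sub_mem ha (m _))).1 ?_) (by push_cast; ring)⟩⟩
    · obtain ⟨q, -, rfl⟩ := mem_image.1 hb
      exact m q
    · refine (S.c_sub hν ha (m _)).trans ?_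
      exact (congrArg _ (e _ ⟨a, ha, rfl⟩)).trans (Prod.ext (w2_add_self _) (w2_add_self _))
  two {i a} ha := by
    rw [two_nsmul]
    exact H.cast (h1 (hκ.add_int i) ha) (by push_cast; ring)
  inj {i a} ha h := by
    rw [two_nsmul] at h
    exact H.cast (h2 (hκ.add_int i) ha (H.cast h (by push_cast; ring))) (by push_cast; ring)
  surj {i b} hb := by
    obtain ⟨a, ha, h⟩ := h3 (hκ.add_int i) (H.cast hb (by push_cast; ring))
    refine ⟨⟨a, i, ha⟩, ha, ?_⟩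
    rw [two_nsmul]
    exact H.cast h (by push_cast; ring)

variable {b : Bool → Pos U → H.L} {ch : Pos U → ZMod 2} {t c₆ c₇ c₈ : ZMod 2} {e : ℕ}

lemma EH.two_deg (E : EH H x y u c σ b ch t c₆ c₇ c₈) (h2 : ∃ a : H.L, a + a ≠ 0) :
    ∃ d : ℕ, 1 ≤ d ∧ (∀ {ν a}, Inf ν → a ∈ H.F ν → a + a ∈ H.F (ν + d)) ∧
      (∀ {ν a}, Inf ν → a ∈ H.F ν → a + a ∈ H.F (ν + d + 1) → a ∈ H.F (ν + 1)) ∧
      ∀ {ν b}, Inf ν → b ∈ H.F (ν + d) → ∃ a ∈ H.F ν, b - (a + a) ∈ H.F (ν + d + 1) := by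
  have S := E.s
  obtain ⟨d, h3, h4⟩ : ∃ d, H.ExTwo y (9 + d) ∧ ¬H.ExTwo y (9 + (d + 1)) := by
    by_contra hc
    have all : ∀ d, H.ExTwo y (9 + d) := fun d => by
      induction d with
      | zero => exact E.two
      | succ d ih => by_contra h; exact hc ⟨d, ih, h⟩
    obtain ⟨a, ha⟩ := h2
    refine ha (H.pns.induction_F a (fun ν hν a ha => H.pns.F_sep fun d =>
      H.F_anti_nat (Nat.le_add_left d 9) (S.exTwo_F (all d) hν ha)) (by simp) fun a b h1 h2 => ?_)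
    rw [add_add_add_comm, h1, h2, add_zero]
  have hA : Ctr H (AddMonoidHom.mk' (fun a => a + a) fun a b => add_add_add_comm a b a b)
      (9 + d : ℕ) := by
    refine ⟨Nat.cast_nonneg _, S.exTwo_F h3, fun g a => (map_add _ _ _).symm,
      fun a b => (add_lie _ _ _).symm, by_contra fun h => h4 fun {j p} hj hp => ?_⟩
    exact by_contra fun h' => h ⟨j, p, hj, Fam.P_F hp, fun h'' => h' (H.cast h'' (by push_cast; ring))⟩
  obtain ⟨-, -, h5, h6⟩ := E.centroid hA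
  exact ⟨9 + d, by omega, S.exTwo_F h3, h5, fun hν hb => (h6 hν hb).imp fun a ha =>
    ⟨ha.1, by rw [← neg_sub]; exact neg_mem ha.2⟩⟩

lemma EH.triple (E : EH H x y u c σ b ch t c₆ c₇ c₈) (hT : H.ExKP y e) (hn : ¬H.ExKP y (e + 1))
    {i l : Pos U} {r : H.L} {v : W2} (hi : Inf i) (hl : Inf l) (hr : Cl H c l r v) :
    Cl H c (i + (i + 1) + l + e) ⁅⁅E.s.pw i (ee true), E.s.pw (i + 1) (ee true)⁆, r⁆ v := by
  have S := E.s
  have hp := S.pw_P hi (ee true)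
  have hq := S.pw_P hi.succ (ee true)
  have hz := S.lie_PP hi hi.succ hp hq
  have hN := hi.add hi.succ
  obtain ⟨k, hk, p, hp', rfl⟩ := S.decomp hl hr.1
  have h1 := S.cl_K ((hN.add hl).add_nat e)
    (S.K_of_F (hN.add hl) (Fam.lie_KK hz hk) e (S.exKK hT hN hl hz hk))
  have h2 := (E.T_normal hT hn).2 hi hi.succ hl (by
    rw [← add_assoc, map_add, map_add, map_one, CharTwo.add_self_eq_zero, zero_add]) hp hq hp'
  have h3 := hr.2
  rw [S.add hl (Fam.K_F hk) (Fam.P_F hp'), Prod.fst_add, S.K_cW hl hk, zero_add] at h3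
  rw [S.cW_pw hi, S.cW_pw hi.succ, h3, show T0 (ee true) (ee true) v = v by
    clear h2 h3 hr; revert v; decide] at h2
  rw [lie_add]
  simpa using S.cl_add ((hN.add hl).add_nat e) h1 ⟨hT hN hl hz hp', h2⟩

theorem EH.exists_kil (E : EH H x y u c σ b ch t c₆ c₇ c₈) (hT : H.ExKP y e)
    (hn : ¬H.ExKP y (e + 1)) (h2 : ∃ a : H.L, a + a ≠ 0) :
    ∃ (ν₀ : Pos U) (Sq : H.L →+ H.L) (B : Type) (_ : AddCommGroup B) (β : H.L →+ H.L →+ B) (n : ℤ),
      Kil H ν₀ Sq β n := by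
  have S := E.s
  obtain ⟨d, hd, t1, t2, t3⟩ := E.two_deg h2
  obtain ⟨w, hw⟩ := H.exists_sqf t1 t2 t3
  obtain ⟨κ, T, h⟩ := H.exists_shift hd hw
  have hκ := h.inf
  have hA : Ctr H T κ := ⟨hκ.nonneg, h.mem, h.ρ, h.lie_all, κ, _, hκ, S.pw_F hκ (ee true),
    fun h' => absurd (S.cl_zero hκ ⟨S.pw_F hκ _, S.cW_pw hκ _⟩ (h.inj hκ (S.pw_F hκ _) h'))
      (by decide)⟩
  have i1 : ∀ {r s : H.Gl κ}, T r = T s → r = s := fun {r s} e => by
    obtain ⟨i, hi⟩ := (r - s).2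
    exact sub_eq_zero.1 (Subtype.ext (h.eq_zero (hκ.add_int i) hi (sub_eq_zero.2 e ▸ map_sub T _ _)))
  have i2 : ∀ {r s : H.Gl κ}, T (T r) = T (T s) → r = s := fun {r s} e => by
    obtain ⟨i, hi⟩ := (r - s).2
    refine i1 (sub_eq_zero.1 (h.eq_zero ((hκ.add_int i).add hκ) ?_ (by rw [map_sub, e, sub_self])))
    exact map_sub T _ _ ▸ h.mem (hκ.add_int i) hi
  have ex : ∀ {i j : ℤ} {a a' : H.Gl κ}, a ∈ H.GF κ i → a' ∈ H.GF κ j →
      ∃ r ∈ H.GF κ (i + j), T r = ⁅(a : H.L), (a' : H.L)⁆ := fun {i j a a'} ha ha' => by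
    obtain ⟨r, hr, e⟩ := h.onto (hκ.add_int (i + j)) (H.cast (H.lie_mem ha ha') (by push_cast; ring))
    exact ⟨⟨r, _, hr⟩, hr, e⟩
  have ex' : ∀ a a' : H.Gl κ, ∃ r : H.Gl κ, T r = ⁅(a : H.L), (a' : H.L)⁆ := fun a a' =>
    a.2.elim fun _ ha => a'.2.elim fun _ ha' => (ex ha ha').imp fun _ h => h.2
  choose m hm using ex'
  obtain ⟨μ, hμ⟩ : ∃ μ : H.Gl κ →+ H.Gl κ →+ H.Gl κ, ∀ a a', T (μ a a') = ⁅(a : H.L), (a' : H.L)⁆ :=
    ⟨AddMonoidHom.mk' (fun a => AddMonoidHom.mk' (m a) fun a' a'' => i1 (by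
      simp only [hm, AddSubgroup.coe_add, map_add, lie_add])) fun a a' => AddMonoidHom.ext fun a'' =>
        i1 (by simp only [hm, AddMonoidHom.mk'_apply, AddMonoidHom.add_apply, AddSubgroup.coe_add,
          map_add, add_lie]), hm⟩
  have mem : ∀ {i j : ℤ} {a a' : H.Gl κ}, a ∈ H.GF κ i → a' ∈ H.GF κ j → μ a a' ∈ H.GF κ (i + j) :=
    fun ha ha' => by
      obtain ⟨r, hr, e⟩ := ex ha ha'
      rwa [i1 ((hμ _ _).trans e.symm)]
  let ρ : (∀ n, G n) → H.Gl κ →+ H.Gl κ := fun g => ((H.ρ g).comp (H.Gl κ).subtype).codRestrict _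
    fun a => a.2.imp fun _ ha => H.pns.ρ_mem_F g ha
  have hρ : ∀ g a, (ρ g a : H.L) = H.ρ g a := fun _ _ => rfl
  have tl : TL (H.GF κ) μ ρ := by
    refine ⟨mem, fun a => i1 (by simp [hμ]), fun a a' a'' => i2 ?_,
      fun g i a ha => H.pns.ρ_mem_F g ha, fun g a => Subtype.ext ?_, fun g a a' => i1 ?_, ?_⟩
    · rw [AddSubgroup.coe_add, map_add, map_add, hμ, hμ, hμ, hA.lie', hA.lie, hA.lie', hμ, hμ, hμ,
        leibniz_lie]
    · rw [hρ, hρ, ← H.pns.ρ_mul, inv_mul_cancel, H.pns.ρ_one]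
    · rw [hρ, h.ρ, hμ, hμ, hρ, hρ, H.pns.ρ_lie]
    · have m0 : S.pw κ (ee true) ∈ H.F (κ + (0 : ℤ)) := by simpa using S.pw_F hκ _
      have m1 : S.pw (κ + 1) (ee true) ∈ H.F (κ + (1 : ℤ)) := by simpa using S.pw_F hκ.succ _
      let p : H.Gl κ := ⟨_, _, m0⟩
      let q : H.Gl κ := ⟨_, _, m1⟩
      have key : ∀ n : ℕ, ∃ i : ℤ, Cl H c (κ + i) ((μ (μ p q))^[n] p : H.Gl κ) (ee true) := by
        intro n
        induction n with
        | zero => exact ⟨0, m0, by simpa using S.cW_pw hκ _⟩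
        | succ n ih =>
          obtain ⟨i, hi⟩ := ih
          rw [Function.iterate_succ_apply']
          generalize (μ (μ p q))^[n] p = r at hi
          have hl := hκ.add_int (0 + 1 + i)
          have h3 := E.triple hT hn hκ (hκ.add_int i) hi
          have h4 : μ (μ p q) r ∈ H.GF κ (0 + 1 + i) := mem (mem m0 m1) hi.1
          rw [← hμ p q, ← hA.lie, ← hμ] at h3
          have h5 := h.refl (hl.add hκ) (h.mem hl h4) e (H.cast h3.1 (by push_cast; ring))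
          have h6 := h.refl hl h4 e (H.cast h5 (by ring))
          have h7 := (E.ctr_symbol hA).2 (hl.add_nat e) h6
          have h8 := (E.ctr_symbol hA).2 ((hl.add_nat e).add hκ) (h.mem (hl.add_nat e) h6)
          refine ⟨0 + 1 + i + e, Cl.cast ⟨h6, ?_⟩ (by push_cast; ring)⟩
          exact h7.symm.trans (h8.symm.trans (h3.cast (by push_cast; ring)).2)
      refine ⟨p, q, p, fun n h0 => ?_⟩
      obtain ⟨i, hi⟩ := key n
      rw [h0] at hi
      exact absurd (S.cl_zero (hκ.add_int i) hi (zero_mem _)) (by decide)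
  obtain ⟨B, _, β, n, b1, ⟨i, a, ha, a', ha', b2⟩, -, b3, b4⟩ := tl.kill (S.tf hκ hd t1 t2 t3)
  obtain ⟨π, hπ⟩ := H.exists_retr hκ
  have hb : ∀ a a' : H.Gl κ, ((β.comp π).compl₂ π) a a' = β a a' := fun a a' => by
    simp only [AddMonoidHom.compl₂_apply, AddMonoidHom.comp_apply, hπ]
  refine ⟨κ, T, B, _, (β.comp π).compl₂ π, n, hκ, h.mem, h.ρ, h.lie_all, h.inj, h.onto,
    fun {i j a a'} ha ha' hl => (hb ⟨a, i, ha⟩ ⟨a', j, ha'⟩).trans (b1 ha ha' hl),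
    ⟨i, n - i, by ring, a, ha, a', ha', (hb a a').symm ▸ b2⟩,
    fun {i z a a' r r'} hz ha ha' hr hr' e1 e2 => ?_, fun g i a a' ha ha' => ?_⟩
  · have := b3 ⟨z, i, hz⟩ ⟨a, i, ha⟩ ⟨a', i, ha'⟩
    rwa [i1 (s := ⟨r, i, hr⟩) ((hμ _ _).trans e1.symm), i1 (s := ⟨r', i, hr'⟩) ((hμ _ _).trans e2.symm),
      ← hb, ← hb] at this
  · have := b4 g ⟨a, i, ha⟩ ⟨a', i, ha'⟩
    rwa [← hb, ← hb] at this

end Pool.Agent.Lib.MP_ffb54b_al.P2
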