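import Pool.Agent.Lib.MP_ffb54b_al.P2.E2
import Pool.Agent.Lib.MP_ffb54b_al.P2.E4
import Pool.Agent.Lib.MP_ffb54b_al.P2.Kil3

set_option autoImplicit false
set_option linter.unusedSectionVars false

namespace Pool.Agent.Lib.MP_ffb54b_al.P2

open Finset Filter
open scoped commutatorElement

universe u

variable {U : Ultrafilter ℕ} {G : ℕ → Type u} [∀ n, Group (G n)] {K : ∀ n, ℕ → Subgroup (G n)}

namespace EH

open Fam

variable {H : Fam U K} {x y u : ∀ n, G n} {c : Pos U → H.L → W2 × W2} {σ : Pos U → Bil}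
  {b : Bool → Pos U → H.L} {ch : Pos U → ZMod 2} {t c₆ c₇ c₈ : ZMod 2}
  (E : EH H x y u c σ b ch t c₆ c₇ c₈) {e : ℕ} {ν₀ : Pos U} {B : Type} [AddCommGroup B]
  {β : H.L →+ H.L →+ B}
include E

lemma form_KP {N : ℤ} (h₀ : Inf ν₀)
    (top : ∀ {i j : ℤ} {a a'}, a ∈ H.F (ν₀ + i) → a' ∈ H.F (ν₀ + j) → N < i + j → β a a' = 0)
    (inv : ∀ {i j : ℤ} {a a'}, a ∈ H.F (ν₀ + i) → a' ∈ H.F (ν₀ + j) →
      β (H.ρ y a) (H.ρ y a') = β a a') {i j : ℤ} {k p : H.L} (hk : k ∈ H.Ks y (ν₀ + i))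
    (hp : p ∈ H.Ps y (ν₀ + j)) : β k p = 0 := by
  have key : ∀ r : ℕ, ∀ {i j : ℤ} {k p : H.L}, N < i + j + r → k ∈ H.Ks y (ν₀ + i) →
      p ∈ H.Ps y (ν₀ + j) → β k p = 0 := by
    intro r
    induction r with
    | zero => exact fun h hk hp => top (K_F hk) (P_F hp) (by simpa using h)
    | succ r ih =>
      intro i j k p h hk hp
      obtain ⟨p', hp', rfl⟩ := E.s.P_div (h₀.add_int (j - 1)) (P_cast hp (by push_cast; ring))
      have h1 := inv (K_F hk) (P_F hp')
      have h2 : H.Y y k ∈ H.Ks y (ν₀ + (i + 2 : ℤ)) := K_cast (K_Y hk) (by push_cast; ring)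
      rw [← sub_add_cancel (H.ρ y k) k, ← sub_add_cancel (H.ρ y p') p', ← Y_apply, ← Y_apply] at h1
      simp only [map_add, AddMonoidHom.add_apply] at h1
      rw [ih (by push_cast at h; omega) h2 hp, ih (by push_cast at h; omega) h2 hp'] at h1
      simpa using h1
  exact key (N - i - j + 1).toNat (by omega) hk hp

/-- The truncated Killing form cannot exist. -/
theorem kil_false (hT : H.ExKP y e) (hn : ¬ H.ExKP y (e + 1)) {Sq : H.L →+ H.L} {N : ℤ}
    (Q : Kil H ν₀ Sq β N) : False := by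
  classical
  have S := E.s
  have h₀ := Q.inf
  have hi : ∀ i : ℤ, Inf (ν₀ + i) := h₀.add_int
  have top := @Q.top
  have lo : ∀ {i j : ℤ} {a}, a ∈ H.F (ν₀ + i) → j ≤ i → a ∈ H.F (ν₀ + j) := fun {i j a} ha h => by
    obtain ⟨k, rfl⟩ := Int.le.dest h
    exact H.up ha k (by push_cast; ring)
  have inv : ∀ g {i j : ℤ} {a a'}, a ∈ H.F (ν₀ + i) → a' ∈ H.F (ν₀ + j) →
      β (H.ρ g a) (H.ρ g a') = β a a' := fun g i j a a' ha ha' =>
    Q.inv g (lo ha (min_le_left i j)) (lo ha' (min_le_right i j))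
  have hC : Ctr H Sq ν₀ := ⟨h₀.nonneg, Q.mem, Q.equi, Q.lie, ν₀, S.pw ν₀ (ee true), h₀, S.pw_F h₀ _,
    fun h => absurd ((S.cW_pw h₀ _).symm.trans (S.cW_deep h₀ (Q.inj h₀ (S.pw_F h₀ _) h)))
      (by decide)⟩
  have inj : ∀ {ν a} (r : ℕ), Inf ν → a ∈ H.F ν → Sq a ∈ H.F (ν + ν₀ + r) → a ∈ H.F (ν + r) := by
    intro ν a r hν ha
    induction r with
    | zero => exact fun _ => by simpa using ha
    | succ r ih =>
      exact fun h => H.cast (Q.inj (hν.add_nat r) (ih (H.up h 1 (by push_cast; ring)))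
        (H.cast h (by push_cast; ring))) (by push_cast; ring)
  have sK : ∀ {ν k}, Inf ν → k ∈ H.Ks y (ν + ν₀) → ∃ a ∈ H.Ks y ν, Sq a = k := by
    intro ν k hν hk
    obtain ⟨a, ha, rfl⟩ := Q.surj hν (K_F hk)
    refine ⟨a, S.K_of_π hν ha fun r => inj r hν (P_F (S.π_spec hν ha).1) ?_, rfl⟩
    rw [S.KP_disj (hν.add h₀) (by
      simpa using sub_mem hk (hC.memK hν (S.π_spec hν ha).2)) (hC.memP hν (S.π_spec hν ha).1)]
    exact zero_mem _
  have asc : ∀ {i j l : ℤ} {z a a' w}, z ∈ H.F (ν₀ + l) → a ∈ H.F (ν₀ + i) → a' ∈ H.F (ν₀ + j) →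
      w ∈ H.F (ν₀ + (l + i : ℤ)) → Sq w = ⁅z, a⁆ → ∀ r : ℕ, ⁅z, a'⁆ ∈ H.F (ν₀ + l + (ν₀ + j) + r) →
      N < i + j + l + r → β w a' = 0 := by
    intro i j l z a a' w hz ha ha' hw ew r hr hN
    obtain ⟨w', hw', ew'⟩ := Q.surj (hi (l + j + r)) (H.cast hr (by push_cast; ring))
    have := Q.assoc (i := -(i.natAbs + j.natAbs + l.natAbs)) (lo hz (by omega)) (lo ha (by omega))
      (lo ha' (by omega)) (lo hw (by omega)) (lo hw' (by omega)) ew ew'
    rwa [top ha hw' (by omega), add_zero] at this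
  have KK : ∀ r : ℕ, ∀ {i j : ℤ} {k k'}, k ∈ H.Ks y (ν₀ + i) → k' ∈ H.Ks y (ν₀ + j) →
      N < i + j + 9 → N < i + j + r → β k k' = 0 := by
    intro r
    induction r with
    | zero => exact fun hk hk' _ h => top (K_F hk) (K_F hk') (by simpa using h)
    | succ r ih =>
      intro i j k k' hk hk' h9 h
      refine S.K_ind (hi 0) (hi i) (Q := fun w => ∀ a ∈ H.Ks y (ν₀ + i), Sq a = w → β a k' = 0)
        (fun w hw a ha ea => ?_) (fun s s' _ a ha ea => ?_) (fun w hw w' hw' h1 h2 a ha ea => ?_)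
        (K_cast (hC.memK (hi i) hk) (by push_cast; ring)) k hk rfl
      · exact ih (i := i + 1) (K_cast (S.K_succ (hi i) ha (Q.inj (hi i) (K_F ha)
          (ea ▸ H.cast (K_F hw) (by push_cast; ring)))) (by push_cast; ring)) hk' (by omega)
          (by push_cast at h; omega)
      · exact asc (S.pw_F (hi 0) _) (S.pw_F (hi i) _) (K_F hk') (by simpa using K_F ha) ea 9
          (S1L.exPK E.ex (hi 0) (hi j) (S.pw_P (hi 0) _) hk') (by push_cast; omega)
      · obtain ⟨a₁, m1, e1⟩ := sK (hi i) (K_cast hw (by push_cast; ring))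
        have := h2 _ (sub_mem ha m1) (by rw [map_sub, ea, e1, add_sub_cancel_left])
        rwa [map_sub, AddMonoidHom.sub_apply, h1 _ m1 e1, sub_zero] at this
  have bπ : ∀ {i j : ℤ} {a a'}, a ∈ H.F (ν₀ + i) → a' ∈ H.F (ν₀ + j) → N < i + j + 9 →
      β a a' = β (H.π y a) (H.π y a') := by
    intro i j a a' ha ha' h
    obtain ⟨k, hk, p, hp, rfl⟩ := S.decomp (hi i) ha
    obtain ⟨k', hk', p', hp', rfl⟩ := S.decomp (hi j) ha'
    rw [S.π_eq (hi i) hk hp, S.π_eq (hi j) hk' hp']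
    simp only [map_add, AddMonoidHom.add_apply]
    rw [KK 9 hk hk' h h, E.form_KP h₀ top (inv y) hk hp', show β p k' = 0 from
      E.form_KP (β := β.flip) (N := N) h₀ (fun ha ha' h => top ha' ha (by omega))
        (fun ha ha' => inv y ha' ha) hk' hp]
    simp
  have bb : ∀ {i j : ℤ} {p q}, i + j = N → p ∈ H.Ps y (ν₀ + i) → q ∈ H.Ps y (ν₀ + j) →
      (c (ν₀ + i) p).1 = ee false → (c (ν₀ + j) q).1 = ee false → β p q = 0 := by
    intro i j p q hij hp hq cp cq
    have o : red 2 (ν₀ + (0 : ℤ) + (ν₀ + (1 : ℤ)) : Pos U) = 1 := by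
      rw [show ν₀ + (0 : ℤ) + (ν₀ + (1 : ℤ)) = 2 * ν₀ + 1 by push_cast; ring, map_add, map_mul,
        red_two, map_one]; ring
    have hA := S.pw_P (hi 0) (ee true)
    have hB := S.pw_P (hi 1) (ee false)
    have hT' := fun {l r} hl hr => (E.T_normal hT hn).2 (l := l) (r := r) (hi 0) (hi 1) hl o hA hB hr
    rw [S.cW_pw (hi 0), S.cW_pw (hi 1)] at hT'
    obtain ⟨z, hz, ez⟩ := sK (hi 1) (K_cast (S.lie_PP (hi 0) (hi 1) hA hB) (by push_cast; ring))
    have cz : ∀ {l r}, Inf l → r ∈ H.Ps y l →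
        Cl H c (ν₀ + (1 : ℤ) + l + e) ⁅z, r⁆ (T0 (ee true) (ee false) (c l r).1) := fun hl hr =>
      ⟨hT (hi 1) hl hz hr, by
        rw [← (E.ctr_symbol hC).2 (((hi 1).add hl).add_nat e) (hT (hi 1) hl hz hr), Q.lie, ez,
          ← hT' hl hr]
        exact congrArg Prod.fst (S.c_cast (by push_cast; ring))⟩
    have hl := hi (i - 1 - e)
    have h1 := cz hl (S.pw_P hl (ee true))
    obtain ⟨w, hw, ew⟩ := Q.surj (hi i) (H.cast h1.1 (by push_cast; ring))
    have h2 : w ∈ H.Ps y (ν₀ + i) := S.P_of_π (hi i) hw fun r => inj r (hi i)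
      (K_F (S.π_spec (hi i) hw).2) (by
        rw [S.KP_disj ((hi i).add h₀) (hC.memK (hi i) (S.π_spec (hi i) hw).2) (by
          rw [map_sub, ew]
          exact sub_mem (P_cast (S.P_of_F ((hi 1).add hl) (S.lie_KP (hi 1) hl hz (S.pw_P hl _)) e
            h1.1) (by push_cast; ring)) (hC.memP (hi i) (S.π_spec (hi i) hw).1))]
        exact zero_mem _)
    have h3 := S.P_sub (hi i) hp h2 (by
      rw [cp, ← (E.ctr_symbol hC).2 (hi i) hw, ew,
        (h1.cast (show _ = ν₀ + i + ν₀ by push_cast; ring)).2, S.cW_pw hl]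
      decide)
    have h4 := top (i := i + 1) (H.cast (P_F h3) (by push_cast; ring)) (P_F hq) (by omega)
    rw [map_sub, AddMonoidHom.sub_apply, sub_eq_zero] at h4
    have h5 := S.P_succ (((hi 1).add (hi j)).add_nat e) (S.P_of_F ((hi 1).add (hi j))
      (S.lie_KP (hi 1) (hi j) hz hq) e (hT (hi 1) (hi j) hz hq)) (by
        rw [(cz (hi j) hq).2, cq]; decide)
    exact h4.trans (asc (K_F hz) (S.pw_F hl _) (P_F hq) (lo hw (by omega)) ew (e + 1)
      (H.cast (P_F h5) (by push_cast; ring)) (by push_cast; omega))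
  let ε : Bool → ℤ → H.L := fun s i => H.π y (b s (ν₀ + i))
  have hε : ∀ s (i : ℤ), ε s i ∈ H.F (ν₀ + i) := fun s i => P_F (E.bP s (hi i))
  have up : ∀ {i : ℤ} (k : ℕ) {a}, a ∈ H.F (ν₀ + (i + k : ℤ)) → a ∈ H.F (ν₀ + i) :=
    fun k a ha => H.up ha k (by push_cast; ring)
  have two : ∀ s s' (i j : ℤ), N < i + j + 9 → β (ε s i) (ε s' j) ∈ AddSubgroup.torsionBy B (2 : ℕ) :=
    fun s s' i j h => AddSubgroup.torsionBy.nsmul_iff.2 (by
      rw [two_nsmul, ← AddMonoidHom.add_apply, ← map_add]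
      exact top (i := i + 9) (H.cast (E.two (hi i) (E.bP s (hi i))) (by push_cast; ring)) (hε s' j)
        (by omega))
  have win : ∀ {g : ∀ n, G n} {s s' : Bool} {i j : ℤ} {w : ℕ} {φ ψ : ℕ → ZMod 2}, w ≤ 9 →
      N < i + j + w → H.WinL y g (b s) (ν₀ + i) w φ → H.WinL y g (b s') (ν₀ + j) w ψ →
      β (ε s i) (ε s' j) = ∑ k ∈ range w, ∑ l ∈ range w,
        (φ k).val • (ψ l).val • β (ε s (i + k)) (ε s' (j + l)) := by
    intro g s s' i j w φ ψ hw h w1 w2
    have m1 := E.e_mem s (hi i)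
    have m2 := E.e_mem s' (hi j)
    have r1 := S.win_π (hi i) (E.e_mem s) w1
    have r2 := S.win_π (hi j) (E.e_mem s') w2
    have ms : ∑ k ∈ range w, (φ k).val • ε s (i + k) ∈ H.F (ν₀ + i) :=
      sum_mem fun k _ => nsmul_mem (up k (hε _ _)) _
    simp only [add_assoc ν₀, ← Int.cast_natCast (R := Pos U), ← Int.cast_add] at r1 r2
    have e1 := top r1 (P_F (S.π_spec (hi j) (H.pns.ρ_mem_F g m2)).1) (by omega)
    have e2 := top ms r2 (by omega)
    rw [map_sub, AddMonoidHom.sub_apply, sub_eq_zero] at e1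
    rw [map_sub, sub_eq_zero] at e2
    rw [← bπ m1 m2 (by omega), ← inv g m1 m2, bπ (H.pns.ρ_mem_F g m1) (H.pns.ρ_mem_F g m2) (by omega),
      e1, e2]
    simp only [map_sum, map_nsmul, AddMonoidHom.finsetSum_apply, AddMonoidHom.nsmul_apply, smul_sum]
    rw [sum_comm]
    exact sum_congr rfl fun k _ => sum_congr rfl fun l _ => smul_comm _ _ _
  have key : ∀ s s' (i j : ℤ), i + j = N → β (ε s i) (ε s' j) = 0 := by
    intro s s' i j hij
    by_cases hs : s = true ∨ s' = true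
    swap
    · obtain ⟨rfl, rfl⟩ : s = false ∧ s' = false := by simpa using hs
      exact bb hij (E.bP _ (hi i)) (E.bP _ (hi j)) (E.bC _ (hi i)).2 (E.bC _ (hi j)).2
    let _ : Module (ZMod 2) (AddSubgroup.torsionBy B (2 : ℕ)) := AddSubgroup.torsionBy.zmodModule
    let F : ℤ → ℤ → AddSubgroup.torsionBy B (2 : ℕ) := fun i j =>
      if h : N < i + j + 9 then ⟨_, two s s' i j h⟩ else 0
    have hF : ∀ {i j}, N < i + j + 9 → (F i j : B) = β (ε s i) (ε s' j) := fun h => by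
      simp only [F, dif_pos h]
    rw [← hF (by omega), ZeroMemClass.coe_eq_zero, ← Module.forall_dual_apply_eq_zero_iff (ZMod 2)]
    intro χ
    have inv : ∀ {g : ∀ n, G n} {w : ℕ} {φ ψ : ℤ → ℕ → ZMod 2}, w ≤ 9 →
        (∀ i : ℤ, H.WinL y g (b s) (ν₀ + i) w (φ i)) →
        (∀ i : ℤ, H.WinL y g (b s') (ν₀ + i) w (ψ i)) →
        InvW (fun i j => χ (F i j)) N w φ ψ := by
      intro g w φ ψ hw w1 w2 i j h
      simp only [← smul_eq_mul, ← map_smul, ← map_sum]
      congr 1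
      refine Subtype.ext ?_
      rw [hF (by omega), win hw h (w1 i) (w2 j)]
      simp only [AddSubgroup.val_finsetSum]
      refine sum_congr rfl fun k _ => sum_congr rfl fun l _ => ?_
      rw [← hF (by omega)]
      rcases z2' (φ i k) with h1 | h1 <;> rcases z2' (ψ j l) with h2 | h2 <;>
        simp [h1, h2, ZMod.val_one]
    exact win_kill (fun i j => χ (F i j))
      (fun i => red 2 (ν₀ + (i : Pos U))) (fun i => ch (ν₀ + i)) N s s'
      c₆ c₇ c₈ (fun i => by push_cast; rw [← add_assoc, map_add, map_one])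
      (fun i => by push_cast; rw [← add_assoc, E.ch_succ (hi i)])
      (fun i j h => by
        rw [show F i j = 0 from Subtype.ext ((hF (by omega)).trans (top (hε _ _) (hε _ _) h)),
          map_zero])
      (inv (by norm_num) (fun i => E.winx s (hi i)) fun i => E.winx s' (hi i))
      (inv (by norm_num) (fun i => E.winy s (hi i)) fun i => E.winy s' (hi i))
      (inv (by norm_num) (fun i => E.winu s (hi i)) fun i => E.winu s' (hi i))
      (inv (by norm_num) (fun i => E.winyu s (hi i)) fun i => E.winyu s' (hi i)) hs hij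
  obtain ⟨i, j, hij', a, ha, a', ha', hne⟩ := Q.ne
  rw [bπ ha ha' (by omega)] at hne
  have hp := (S.π_spec (hi i) ha).1
  have hq := (S.π_spec (hi j) ha').1
  obtain ⟨s₁, s₂, h1, -⟩ := E.P_span (hi i) hp
  obtain ⟨s₃, s₄, h2, -⟩ := E.P_span (hi j) hq
  have e1 := top (i := i + 1) (H.cast (P_F h1) (by push_cast; ring)) (P_F hq) (by omega)
  have e2 := top (j := j + 1) (add_mem (nsmul_mem (hε true i) s₁.val) (nsmul_mem (hε false i) s₂.val))
    (H.cast (P_F h2) (by push_cast; ring)) (by omega)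
  rw [map_sub, AddMonoidHom.sub_apply, sub_eq_zero] at e1
  rw [map_sub, sub_eq_zero] at e2
  refine hne (e1.trans (e2.trans ?_))
  have k : ∀ s s', β (H.π y (b s (ν₀ + i))) (H.π y (b s' (ν₀ + j))) = 0 := fun s s' =>
    key s s' i j hij'
  simp only [ε, map_add, map_nsmul, AddMonoidHom.add_apply, AddMonoidHom.nsmul_apply, k, smul_zero,
    add_zero]

/-- The excess is infinite. -/
theorem exKP_all (e : ℕ) : H.ExKP y e := by
  induction e with
  | zero => exact E.s.exKP_zero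
  | succ e ih =>
    by_contra hn
    obtain ⟨ν₀, Sq, B, _, β, n, Q⟩ := E.exists_kil ih hn (E.two_ne ih hn)
    exact E.kil_false ih hn Q

end EH

end Pool.Agent.Lib.MP_ffb54b_al.P2
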