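import Mathlib

set_option autoImplicit false

namespace Pool.Agent.Lib.MP_ffb54b_al.P2

/-- indicator of the first basis vector (`true` = alpha, `false` = beta). -/
def ind (p : Bool) : ZMod 2 := if p then 1 else 0

/-- Abstract data for the LINES step.  `F m` is the part of the centre of level `2 m + 1`,
`B i j p q` is the bracket of the basis vectors `p_i`, `q_j`; `X Y U H A2 A3` are `g - 1` for
`g = x, y, u, h5, [y,u], [y,h5]`. -/
structure LD (K : Type*) [AddCommGroup K] [Module (ZMod 2) K] where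
  F : ℤ → Submodule (ZMod 2) K
  anti : ∀ m n, m ≤ n → F n ≤ F m
  B : ℤ → ℤ → Bool → Bool → K
  memB : ∀ i j p q m, 2 * m ≤ i + j → B i j p q ∈ F m
  symm : ∀ i j p q, B i j p q = B j i q p
  alt : ∀ i p, B i i p p = 0
  const : ∀ i j p q m, i + j = 2 * m + 1 → B i j p q + B m (m + 1) p q ∈ F (m + 1)
  gen : ∀ m k, k ∈ F m → ∃ c1 c2 c3 : ZMod 2, k + (c1 • B m (m + 1) true true +
    c2 • B m (m + 1) true false + c3 • B m (m + 1) false false) ∈ F (m + 1)
  dimLow : ∀ m z, ¬ ∀ k ∈ F m, k ∈ F (m + 1) ∨ k + z ∈ F (m + 1)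
  dimUp : ∀ m, ∃ c1 c2 c3 : ZMod 2, ¬ (c1 = 0 ∧ c2 = 0 ∧ c3 = 0) ∧
    c1 • B m (m + 1) true true + c2 • B m (m + 1) true false + c3 • B m (m + 1) false false
      ∈ F (m + 1)
  par : ℤ → ZMod 2
  par_succ : ∀ i, par (i + 1) = par i + 1
  ch : ℤ → ZMod 2
  ch_succ : ∀ i, ch (i + 1) = ch i + par i
  X : K →ₗ[ZMod 2] K
  Y : K →ₗ[ZMod 2] K
  U : K →ₗ[ZMod 2] K
  H : K →ₗ[ZMod 2] K
  A2 : K →ₗ[ZMod 2] K
  A3 : K →ₗ[ZMod 2] K
  degX : ∀ m k, k ∈ F m → X k ∈ F (m + 1)
  degY : ∀ m k, k ∈ F m → Y k ∈ F (m + 1)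
  degU : ∀ m k, k ∈ F m → U k ∈ F (m + 1)
  degH : ∀ m k, k ∈ F m → H k ∈ F (m + 1)
  degA2 : ∀ m k, k ∈ F m → A2 k ∈ F (m + 1)
  degA3 : ∀ m k, k ∈ F m → A3 k ∈ F (m + 1)
  relU : ∀ k, Y (U k) + U (Y k) = A2 (k + U k + Y k + U (Y k))
  relH : ∀ k, Y (H k) + H (Y k) = A3 (k + H k + Y k + H (Y k))
  c6 : ZMod 2
  c7 : ZMod 2
  c8 : ZMod 2
  d8 : ZMod 2
  winX : ∀ i j p q m, 2 * m ≤ i + j + 3 → X (B i j p q) +
    (par i • B (i + 1) j p q + par j • B i (j + 1) p q +
      (ch i • B (i + 2) j p q + (par i * par j) • B (i + 1) (j + 1) p q + ch j • B i (j + 2) p q))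
      ∈ F m
  winY : ∀ i j p q m, 2 * m ≤ i + j + 5 → Y (B i j p q) +
    (B (i + 1) j p q + B i (j + 1) p q +
      ((par i + ind p) • B (i + 2) j p q + B (i + 1) (j + 1) p q +
        (par j + ind q) • B i (j + 2) p q) +
      ((par i + ind p) • B (i + 3) j p q + (par i + ind p) • B (i + 2) (j + 1) p q +
        (par j + ind q) • B (i + 1) (j + 2) p q + (par j + ind q) • B i (j + 3) p q) +
      ((ch i + ind p * (par i + 1)) • B (i + 4) j p q + (par i + ind p) • B (i + 3) (j + 1) p q +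
        ((par i + ind p) * (par j + ind q)) • B (i + 2) (j + 2) p q +
        (par j + ind q) • B (i + 1) (j + 3) p q + (ch j + ind q * (par j + 1)) • B i (j + 4) p q))
      ∈ F m
  winU : ∀ i j p q m, 2 * m ≤ i + j + 7 → U (B i j p q) +
    (B (i + 3) j p q + B i (j + 3) p q +
      ((par i + ind p) • B (i + 6) j p q + B (i + 3) (j + 3) p q +
        (par j + ind q) • B i (j + 6) p q)) ∈ F m
  winH : ∀ i j p q m, 2 * m ≤ i + j + 7 → H (B i j p q) +
    (B (i + 5) j p q + B i (j + 5) p q) ∈ F m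
  winA2 : ∀ i j p q m, 2 * m ≤ i + j + 9 → A2 (B i j p q) +
    (B (i + 5) j p q + B i (j + 5) p q + c6 • (B (i + 6) j p q + B i (j + 6) p q) +
      c7 • (B (i + 7) j p q + B i (j + 7) p q) + c8 • (B (i + 8) j p q + B i (j + 8) p q)) ∈ F m
  winA3 : ∀ i j p q m, 2 * m ≤ i + j + 9 → A3 (B i j p q) +
    (B (i + 7) j p q + B i (j + 7) p q + d8 • (B (i + 8) j p q + B i (j + 8) p q)) ∈ F m

variable {K : Type*} [AddCommGroup K] [Module (ZMod 2) K]

theorem mem2 {S : Submodule (ZMod 2) K} {x y : K} (h : y ∈ S) (e : (1 : ZMod 2) • x = y) :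
    x ∈ S := by
  rw [one_smul] at e; rw [e]; exact h

theorem z2 (a : ZMod 2) : a = 0 ∨ a = 1 := by revert a; decide

namespace LD

variable (D : LD K)

/-- representative of `sigma` at level `2 m + 1`. -/
def S (m : ℤ) (p q : Bool) : K := D.B m (m + 1) p q

/-- representative of `Delta` at level `2 m + 3`. -/
def T (m : ℤ) (p q : Bool) : K := D.B (m + 1) (m + 1) p q + D.B m (m + 2) p q

/-- The inductive statement. -/
def Phi (m : ℤ) : Prop :=
  (∀ p, D.T m p p ∈ D.F (m + 3)) ∧ D.S (m + 1) false false ∈ D.F (m + 2) ∧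
    (D.T m true false ∈ D.F (m + 2) ∨ D.T m true false + D.S (m + 1) true true ∈ D.F (m + 2))

theorem up {m n : ℤ} {k : K} (h : k ∈ D.F n) (hmn : m ≤ n) : k ∈ D.F m := D.anti m n hmn h

theorem par_add (i k : ℤ) : D.par (i + k) = D.par i + (k : ZMod 2) := by
  induction k using Int.induction_on with
  | zero => simp
  | succ k ih => rw [← add_assoc, D.par_succ, ih]; push_cast; ring
  | pred k ih =>
    have h := D.par_succ (i + (-(k : ℤ) - 1))
    have e : i + (-(k : ℤ) - 1) + 1 = i + -(k : ℤ) := by ring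
    rw [e, ih] at h
    push_cast at h ⊢
    linear_combination -h

theorem par_even {i j : ℤ} (m : ℤ) (h : j = i + 2 * m) : D.par j = D.par i := by
  rw [h, D.par_add]; push_cast
  have : (2 : ZMod 2) = 0 := by decide
  rw [this]; ring

theorem par_odd {i j : ℤ} (m : ℤ) (h : j = i + 2 * m + 1) : D.par j = D.par i + 1 := by
  rw [h, D.par_succ, D.par_even m rfl]

theorem ch_sum (m k : ℤ) :
    D.ch (m - k) + D.ch (m + 1 + k) + D.par (m - k) * D.par (m + 1 + k) = D.par m := by
  have key : ∀ k : ℤ, D.ch (m - (k + 1)) + D.ch (m + 1 + (k + 1)) +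
      D.par (m - (k + 1)) * D.par (m + 1 + (k + 1)) =
      D.ch (m - k) + D.ch (m + 1 + k) + D.par (m - k) * D.par (m + 1 + k) := by
    intro k
    have h1 := D.ch_succ (m - (k + 1))
    have h2 := D.ch_succ (m + 1 + k)
    have h3 := D.par_succ (m - (k + 1))
    have h4 := D.par_succ (m + 1 + k)
    have e1 : m - (k + 1) + 1 = m - k := by ring
    have e2 : m + 1 + k + 1 = m + 1 + (k + 1) := by ring
    rw [e1] at h1 h3
    rw [e2] at h2 h4
    rw [h1, h2, h3, h4]
    generalize D.ch (m - (k + 1)) = a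
    generalize D.ch (m + 1 + k) = b
    generalize D.par (m - (k + 1)) = c
    generalize D.par (m + 1 + k) = d
    revert a b c d; decide
  induction k using Int.induction_on with
  | zero =>
    simp only [sub_zero, add_zero]
    rw [D.ch_succ, D.par_succ]
    generalize D.ch m = a
    generalize D.par m = b
    revert a b; decide
  | succ k ih => rw [key]; exact ih
  | pred k ih =>
    have h := key (-(k : ℤ) - 1)
    have e : -(k : ℤ) - 1 + 1 = -(k : ℤ) := by ring
    rw [e] at h
    rw [← h]; exact ih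

theorem ch_sum' {i j m : ℤ} (h : i + j = 2 * m + 1) :
    D.ch j = D.ch i + D.par m := by
  have h1 := D.ch_sum m (m - i)
  have e1 : m - (m - i) = i := by ring
  have e2 : m + 1 + (m - i) = j := by omega
  rw [e1, e2, D.par_odd (i := i) (j := j) (m - i) (by omega)] at h1
  revert h1
  generalize D.ch i = a
  generalize D.ch j = b
  generalize D.par i = c
  generalize D.par m = d
  revert a b c d; decide

/-- induction along an antidiagonal. -/
theorem antidiag (N : Submodule (ZMod 2) K) (s : ℤ) (p q : Bool) (t : K)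
    (h : ∀ i j, i + j + 1 = s → D.B (i + 1) j p q + D.B i (j + 1) p q + t ∈ N)
    {i j i' j' : ℤ} (h1 : i + j = s) (h2 : i' + j' = s) :
    D.B i j p q + D.B i' j' p q + (D.par i + D.par i') • t ∈ N := by
  have key : ∀ k : ℤ, D.B i j p q + D.B (i + k) (j - k) p q + (D.par i + D.par (i + k)) • t ∈ N := by
    intro k
    induction k using Int.induction_on with
    | zero =>
      refine mem2 N.zero_mem ?_
      simp only [add_zero, sub_zero]
      match_scalars
      · decide
      · generalize D.par i = a; revert a; decide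
    | succ k ih =>
      have h3 := h (i + k) (j - (k + 1)) (by omega)
      have e1 : i + (k : ℤ) + 1 = i + (k + 1) := by ring
      have e2 : j - ((k : ℤ) + 1) + 1 = j - k := by ring
      have e3 := D.par_succ (i + k)
      rw [e1] at e3
      rw [e1, e2] at h3
      refine mem2 (N.add_mem ih h3) ?_
      rw [e3]
      match_scalars <;> first | decide | (generalize D.par i = a; generalize D.par (i + k) = b; revert a b; decide)
    | pred k ih =>
      have h3 := h (i + (-(k : ℤ) - 1)) (j - -(k : ℤ)) (by omega)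
      have e1 : i + (-(k : ℤ) - 1) + 1 = i + -(k : ℤ) := by ring
      have e2 : j - -(k : ℤ) + 1 = j - (-(k : ℤ) - 1) := by ring
      have e3 := D.par_succ (i + (-(k : ℤ) - 1))
      rw [e1] at e3
      rw [e1, e2] at h3
      rw [e3] at ih
      refine mem2 (N.add_mem ih h3) ?_
      match_scalars <;> first | decide | (generalize D.par i = a; generalize D.par (i + (-(k : ℤ) - 1)) = b; revert a b; decide)
  have h4 := key (i' - i)
  have e1 : i + (i' - i) = i' := by ring
  have e2 : j - (i' - i) = j' := by omega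
  rwa [e1, e2] at h4

end LD

end Pool.Agent.Lib.MP_ffb54b_al.P2
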