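import Pool.Agent.Lib.MP_ffb54b_al.P2.Tc
import Pool.Agent.Lib.MP_ffb54b_al.P2.Lines

set_option autoImplicit false
set_option linter.unusedSectionVars false

namespace Pool.Agent.Lib.MP_ffb54b_al.P2

open Finset Filter
open scoped commutatorElement

universe u

section Fin

variable {Γ : Type u} [Group Γ]

/-- the iterated commutator `[y, ..., y, a]`. -/
def yc (y : Γ) : ℕ → Γ → Γ
  | 0, a => a
  | j + 1, a => ⁅y, yc y j a⁆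

/-- the ordered product of the `e (i + k) ^ f k`, `k < w`. -/
def wp (e : ℕ → Γ) (i : ℕ) (f : ℕ → ZMod 2) : ℕ → Γ
  | 0 => 1
  | k + 1 => wp e i f k * e (i + k) ^ (f k).val

/-- finite level window: `g (e i) g⁻¹` is `∏ k < w, e (i + k) ^ f k` up to level `i + w` and elements
on which `y` has slope two. -/
def WinG (K : ℕ → Subgroup Γ) (y g : Γ) (e : ℕ → Γ) (i w : ℕ) (f : ℕ → ZMod 2) : Prop :=
  yc y w (g * e i * g⁻¹ * (wp e i f w)⁻¹) ∈ K (i + 2 * w)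

/-- window coefficients of `x`. -/
def fx (a b : ZMod 2) : ℕ → ZMod 2
  | 0 => 1
  | 1 => a
  | _ => b

/-- window coefficients of `y`. -/
def fy (p : Bool) (a b : ZMod 2) : ℕ → ZMod 2
  | 0 => 1
  | 1 => 1
  | 2 => a + ind p
  | 3 => a + ind p
  | _ => b + ind p * (a + 1)

/-- window coefficients of `u`. -/
def fu (p : Bool) (a : ZMod 2) : ℕ → ZMod 2
  | 0 => 1
  | 3 => 1
  | 6 => a + ind p
  | _ => 0

/-- window coefficients of `[y, u]`. -/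
def fyu (c₆ c₇ c₈ : ZMod 2) : ℕ → ZMod 2
  | 0 => 1
  | 5 => 1
  | 6 => c₆
  | 7 => c₇
  | 8 => c₈
  | _ => 0

/-- the classes of the basis elements. -/
def vb (t : ZMod 2) (p : Bool) : W2 := if p then ee true + t • ee false else ee false

/-- The finite level facts used when the excess is finite (`c`, `σ` as in `S1G`). -/
structure EG (K : ℕ → Subgroup Γ) (x y u : Γ) (c : ℕ → Γ → W2 × W2) (σ : ℕ → Bil)
    (e : Bool → ℕ → Γ) (ch : ℕ → ZMod 2) (t c₆ c₇ c₈ : ZMod 2) (w₀ : ℕ) : Prop where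
  e_mem : ∀ p i, w₀ ≤ i → e p i ∈ K i
  e_cls : ∀ p i, w₀ ≤ i → (c i (e p i)).1 = vb t p
  bb : ∀ i, w₀ ≤ i → σ i (ee false) (ee false) = 0
  ex : ∀ i j, w₀ ≤ i → w₀ ≤ j → ∀ a ∈ K i, ∀ b ∈ K j, yc y 9 a ∈ K (i + 18) → ⁅a, b⁆ ∈ K (i + j + 9)
  two : ∀ i, w₀ ≤ i → ∀ a ∈ K i, a ^ 2 ∈ K (i + 9)
  kst : ∀ i, w₀ ≤ i → ∀ a ∈ K i, yc y 5 a ∈ K (i + 10) → yc y 5 (u * a * u⁻¹) ∈ K (i + 10)
  killY : ∀ i, w₀ ≤ i → ⁅y, ⁅e true i, e true (i + 1)⁆⁆ ∈ K (2 * i + 4)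
  killU : ∀ i, w₀ ≤ i → ⁅u, ⁅e true i, e true (i + 1)⁆⁆ ∈ K (2 * i + 6)
  ch_succ : ∀ i, ch (i + 1) = ch i + i
  winx : ∀ p i, w₀ ≤ i → WinG K y x (e p) i 3 (fx i (ch i))
  winy : ∀ p i, w₀ ≤ i → WinG K y y (e p) i 5 (fy p i (ch i))
  winu : ∀ p i, w₀ ≤ i → WinG K y u (e p) i 7 (fu p i)
  winyu : ∀ p i, w₀ ≤ i → WinG K y ⁅y, u⁆ (e p) i 9 (fyu c₆ c₇ c₈)

end Fin

variable {U : Ultrafilter ℕ} {G : ℕ → Type u} [∀ n, Group (G n)] {K : ∀ n, ℕ → Subgroup (G n)}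

/-- window in the galaxy Lie ring, modulo `K` and `F (ν + w)`. -/
def Fam.WinL (H : Fam U K) (y g : ∀ n, G n) (e : Pos U → H.L) (ν : Pos U) (w : ℕ)
    (f : ℕ → ZMod 2) : Prop :=
  (H.Y y ^ w) (H.ρ g (e ν) - ∑ k ∈ range w, (f k).val • e (ν + k)) ∈ H.F (ν + 2 * w)

/-- The facts used when the excess is finite, in the galaxy Lie ring. -/
structure EH (H : Fam U K) (x y u : ∀ n, G n) (c : Pos U → H.L → W2 × W2) (σ : Pos U → Bil)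
    (e : Bool → Pos U → H.L) (ch : Pos U → ZMod 2) (t c₆ c₇ c₈ : ZMod 2) : Prop where
  s : S1L H x y u c σ
  e_mem : ∀ p {ν}, Inf ν → e p ν ∈ H.F ν
  e_cls : ∀ p {ν}, Inf ν → (c ν (e p ν)).1 = vb t p
  bb : ∀ {ν}, Inf ν → σ ν (ee false) (ee false) = 0
  ex : H.ExKP y 9
  two : H.ExTwo y 9
  kst : ∀ {ν k}, Inf ν → k ∈ H.Ks y ν → H.π y (H.ρ u k) ∈ H.F (ν + 5)
  killY : ∀ {ν}, Inf ν → H.Y y ⁅e true ν, e true (ν + 1)⁆ ∈ H.F (2 * ν + 4)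
  killU : ∀ {ν}, Inf ν → H.Y u ⁅e true ν, e true (ν + 1)⁆ ∈ H.F (2 * ν + 6)
  ch_succ : ∀ {ν}, Inf ν → ch (ν + 1) = ch ν + red 2 ν
  winx : ∀ p {ν}, Inf ν → H.WinL y x (e p) ν 3 (fx (red 2 ν) (ch ν))
  winy : ∀ p {ν}, Inf ν → H.WinL y y (e p) ν 5 (fy p (red 2 ν) (ch ν))
  winu : ∀ p {ν}, Inf ν → H.WinL y u (e p) ν 7 (fu p (red 2 ν))
  winyu : ∀ p {ν}, Inf ν → H.WinL y ⁅y, u⁆ (e p) ν 9 (fyu c₆ c₇ c₈)

/-- The output of the Killing form construction in the galaxy of `ν₀`. -/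
structure Kil (H : Fam U K) (ν₀ : Pos U) (Sq : H.L →+ H.L) {B : Type} [AddCommGroup B]
    (β : H.L →+ H.L →+ B) (n : ℤ) : Prop where
  inf : Inf ν₀
  mem : ∀ {ν a}, Inf ν → a ∈ H.F ν → Sq a ∈ H.F (ν + ν₀)
  equi : ∀ g a, Sq (H.ρ g a) = H.ρ g (Sq a)
  lie : ∀ a b, Sq ⁅a, b⁆ = ⁅Sq a, b⁆
  inj : ∀ {ν a}, Inf ν → a ∈ H.F ν → Sq a ∈ H.F (ν + ν₀ + 1) → a ∈ H.F (ν + 1)
  surj : ∀ {ν b}, Inf ν → b ∈ H.F (ν + ν₀) → ∃ a ∈ H.F ν, Sq a = b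
  top : ∀ {i j : ℤ} {a b}, a ∈ H.F (ν₀ + i) → b ∈ H.F (ν₀ + j) → n < i + j → β a b = 0
  ne : ∃ i j : ℤ, i + j = n ∧ ∃ a ∈ H.F (ν₀ + i), ∃ b ∈ H.F (ν₀ + j), β a b ≠ 0
  assoc : ∀ {i : ℤ} {z a b a' b'}, z ∈ H.F (ν₀ + i) → a ∈ H.F (ν₀ + i) → b ∈ H.F (ν₀ + i) →
    a' ∈ H.F (ν₀ + i) → b' ∈ H.F (ν₀ + i) → Sq a' = ⁅z, a⁆ → Sq b' = ⁅z, b⁆ → β a' b + β a b' = 0
  inv : ∀ g {i : ℤ} {a b}, a ∈ H.F (ν₀ + i) → b ∈ H.F (ν₀ + i) → β (H.ρ g a) (H.ρ g b) = β a b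

/-- A centroid operator of degree `d`. -/
structure Ctr (H : Fam U K) (A : H.L →+ H.L) (d : Pos U) : Prop where
  nonneg : 0 ≤ d
  mem : ∀ {ν a}, Inf ν → a ∈ H.F ν → A a ∈ H.F (ν + d)
  equi : ∀ g a, A (H.ρ g a) = H.ρ g (A a)
  lie : ∀ a b, A ⁅a, b⁆ = ⁅A a, b⁆
  ne : ∃ ν a, Inf ν ∧ a ∈ H.F ν ∧ A a ∉ H.F (ν + d + 1)

/-- The leading term of triple brackets: the product in `F_2[N] / N ^ 2`. -/
def T0 (s t v : W2) : W2 := fun b => if b then s true * t true * v true else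
  s false * t true * v true + s true * t false * v true + s true * t true * v false

end Pool.Agent.Lib.MP_ffb54b_al.P2

theorem Pool.Agent.Lib.MP_ffb54b_al.P2.EDef.rlz0 : True := by
  have := @Pool.Agent.Lib.MP_ffb54b_al.P2.fu.eq_4
  trivial

theorem Pool.Agent.Lib.MP_ffb54b_al.P2.EDef.rlz1 : True := by
  have := @Pool.Agent.Lib.MP_ffb54b_al.P2.fy.eq_5
  trivial

theorem Pool.Agent.Lib.MP_ffb54b_al.P2.EDef.rlz2 : True := by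
  have := @Pool.Agent.Lib.MP_ffb54b_al.P2.fyu.eq_6
  trivial

theorem Pool.Agent.Lib.MP_ffb54b_al.P2.EDef.rlz3 : True := by
  have := @Pool.Agent.Lib.MP_ffb54b_al.P2.fx.eq_3
  trivial
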