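import Pool.Agent.Lib.MP_ffb54b_al.P2.LB
import Pool.Agent.Lib.MP_ffb54b_al.P2.EDef

set_option autoImplicit false
set_option linter.unusedSectionVars false

namespace Pool.Agent.Lib.MP_ffb54b_al.P2

open Finset Filter
open scoped commutatorElement

universe u

/-- a sequence defined by recursion with step `M` from `B` on. -/
def recE {X : Type*} (a : ℕ → X) (B M : ℕ) (step : X → ℕ → X) (i : ℕ) : X :=
  if _h : B ≤ i ∧ 0 < M ∧ 0 < i then step (recE a B M step (i - M)) i else a i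
termination_by i
decreasing_by omega

lemma recE_lt {X : Type*} (a : ℕ → X) {B M : ℕ} (step : X → ℕ → X) {i : ℕ} (h : i < B) :
    recE a B M step i = a i := by
  rw [recE, dif_neg (by omega)]

lemma recE_ge {X : Type*} (a : ℕ → X) {B M : ℕ} (step : X → ℕ → X) {i : ℕ} (h : B ≤ i)
    (hM : 0 < M) (hi : 0 < i) : recE a B M step i = step (recE a B M step (i - M)) i := by
  rw [recE, dif_pos ⟨h, hM, hi⟩]

lemma map_yc {Γ Γ' : Type u} [Group Γ] [Group Γ'] (f : Γ →* Γ') (y : Γ) (j : ℕ) (a : Γ) :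
    f (yc y j a) = yc (f y) j (f a) := by
  induction j with
  | zero => rfl
  | succ j ih => simp only [yc, map_commutatorElement, ih]

variable {U : Ultrafilter ℕ} {G : ℕ → Type u} [∀ n, Group (G n)] {K : ∀ n, ℕ → Subgroup (G n)}

lemma yc_apply (y a : ∀ n, G n) (j n : ℕ) : yc y j a n = yc (y n) j (a n) :=
  map_yc (Pi.evalMonoidHom G n) y j a

/-- the class of the member of level `ν` of a family of sequences. -/
noncomputable def Fam.El (H : Fam U K) (e : ∀ n, ℕ → G n) (ν : Pos U) : H.L :=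
  H.cls ν fun n => e n (lev ν n)

/-- the members of infinite level lie in the series. -/
def EvMem (U : Ultrafilter ℕ) (K : ∀ n, ℕ → Subgroup (G n)) (e : ∀ n, ℕ → G n) (ν : Pos U) : Prop :=
  (fun n => e n (lev ν n)) ∈ Ev K ν

namespace Fam

variable (H : Fam U K) {ν μ : Pos U} {a b g y : ∀ n, G n} {e : ∀ n, ℕ → G n}
include H

lemma comm_Ev (g : ∀ n, G n) (ha : a ∈ Ev K ν) : ⁅g, a⁆ ∈ Ev K ν :=
  mul_mem ((H.pns.normal ν).conj_mem _ ha g) (inv_mem ha)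

lemma yc_Ev (y : ∀ n, G n) (j : ℕ) (ha : a ∈ Ev K ν) : yc y j a ∈ Ev K ν := by
  induction j with
  | zero => exact ha
  | succ j ih => exact H.comm_Ev y ih

lemma Ypow_cls (hν : Inf ν) (ha : a ∈ Ev K ν) (j : ℕ) :
    (H.Y y ^ j) (H.cls ν a) = H.cls ν (yc y j a) := by
  induction j with
  | zero => rfl
  | succ j ih => rw [Y_succ, ih, Y_apply, H.pns.ρ_sub_cls y hν (H.yc_Ev y j ha)]; rfl

lemma cls_mem_nat (hν : Inf ν) (ha : a ∈ Ev K ν) (d : ℕ) :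
    H.cls ν a ∈ H.F (ν + d) ↔ ∀ᶠ n in U, a n ∈ K n (lev ν n + d) := by
  rw [H.pns.cls_mem_iff hν ha (Near.add_nat ν d), mem_Ev_add_nat hν.nonneg]

lemma Ypow_mem_iff (hν : Inf ν) (ha : a ∈ Ev K ν) (j : ℕ) :
    (H.Y y ^ j) (H.cls ν a) ∈ H.F (ν + 2 * j) ↔
      ∀ᶠ n in U, yc (y n) j (a n) ∈ K n (lev ν n + 2 * j) := by
  rw [H.Ypow_cls hν ha, show ν + 2 * j = ν + (2 * j : ℕ) by push_cast; ring,
    H.cls_mem_nat hν (H.yc_Ev y j ha)]
  simp only [yc_apply]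

lemma El_mem (hν : Inf ν) (h : EvMem U K e ν) : H.El e ν ∈ H.F ν := H.pns.cls_mem hν h

lemma shift_Ev (hν : Inf ν) {k : ℕ} (h : EvMem U K e (ν + k)) :
    (fun n => e n (lev ν n + k)) ∈ Ev K (ν + k : Pos U) := by
  filter_upwards [mem_Ev.1 h, lev_add_nat hν.nonneg k] with n h1 h2
  rw [← h2]; exact h1

lemma Ev_up {k : ℕ} (h : a ∈ Ev K (ν + k : Pos U)) : a ∈ Ev K ν :=
  H.pns.anti (le_add_of_nonneg_right (Nat.cast_nonneg k)) h

lemma El_add (hν : Inf ν) {k : ℕ} (h : EvMem U K e (ν + k)) :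
    H.El e (ν + k) = H.cls ν fun n => e n (lev ν n + k) := by
  rw [El, H.cls_congr (hν.add_nat k) h (b := fun n => e n (lev ν n + k))
    ((lev_add_nat hν.nonneg k).mono fun n h => by simp only [h])]
  exact (H.pns.cls_near (Near.add_nat ν k) _).symm

lemma cls_wp (hν : Inf ν) (f : ℕ → ZMod 2) (w : ℕ) (h : ∀ k < w, EvMem U K e (ν + k)) :
    (fun n => wp (e n) (lev ν n) f w) ∈ Ev K ν ∧
    H.cls ν (fun n => wp (e n) (lev ν n) f w) = ∑ k ∈ range w, (f k).val • H.El e (ν + k) := by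
  induction w with
  | zero => exact ⟨one_mem _, by rw [sum_range_zero]; exact H.pns.cls_one⟩
  | succ w ih =>
    obtain ⟨h1, h2⟩ := ih fun k hk => h k (by omega)
    have h3 := H.Ev_up (H.shift_Ev hν (h w (by omega)))
    refine ⟨mul_mem h1 (pow_mem h3 _), ?_⟩
    rw [sum_range_succ, ← h2, H.El_add hν (h w (by omega)), ← H.pns.cls_pow hν h3,
      ← H.pns.cls_mul hν h1 (pow_mem h3 _)]
    rfl

omit H in
lemma wp_congr {Γ : Type u} [Group Γ] (e : ℕ → Γ) (i : ℕ) {f f' : ℕ → ZMod 2} {w : ℕ}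
    (h : ∀ k < w, f k = f' k) : wp e i f w = wp e i f' w := by
  induction w with
  | zero => rfl
  | succ w ih => rw [wp, wp, ih fun k hk => h k (by omega), h w (by omega)]

lemma winL_ev (hν : Inf ν) {w : ℕ} (h0 : EvMem U K e ν) (h : ∀ k < w, EvMem U K e (ν + k))
    {f : ℕ → ZMod 2} {f' : ℕ → ℕ → ZMod 2} (hf : ∀ k < w, ∀ᶠ n in U, f' n k = f k) :
    H.WinL y g (H.El e) ν w f ↔ ∀ᶠ n in U, WinG (K n) (y n) (g n) (e n) (lev ν n) w (f' n) := by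
  obtain ⟨h1, h2⟩ := H.cls_wp hν f w h
  have h3 := (H.pns.normal ν).conj_mem _ h0 g
  rw [WinL, ← h2, El, H.pns.ρ_cls g hν h0, ← H.pns.cls_div hν h3 h1,
    H.Ypow_mem_iff hν (mul_mem h3 (inv_mem h1))]
  refine eventually_congr ?_
  filter_upwards [(eventually_all_finset (range w)).2 fun k hk => hf k (mem_range.1 hk)] with n hn
  rw [WinG, wp_congr (e n) (lev ν n) fun k hk => hn k (mem_range.2 hk)]
  rfl

/-- window modulo `K`, by the `P`-part. -/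
def WinP (y g : ∀ n, G n) (E : Pos U → H.L) (ν : Pos U) (w : ℕ) (f : ℕ → ZMod 2) : Prop :=
  H.π y (H.ρ g (E ν) - ∑ k ∈ range w, (f k).val • E (ν + k)) ∈ H.F (ν + w)

end Fam

namespace S1L

open Fam

variable {H : Fam U K} {x y u : ∀ n, G n} {c : Pos U → H.L → W2 × W2} {σ : Pos U → Bil}
  (S : S1L H x y u c σ) {ν μ : Pos U} {a a' : H.L} {g h : ∀ n, G n} {E E' : Pos U → H.L}
  {w M : ℕ} {f : ℕ → ZMod 2}
include S

/-- elements of `F ν` whose `P`-part lies in `F μ`. -/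
def KF (hν : Inf ν) (μ : Pos U) : AddSubgroup H.L where
  carrier := {a | a ∈ H.F ν ∧ H.π y a ∈ H.F μ}
  zero_mem' := ⟨zero_mem _, by rw [S.π_K hν (zero_mem _)]; exact zero_mem _⟩
  add_mem' ha hb := ⟨add_mem ha.1 hb.1, by rw [S.π_add hν ha.1 hb.1]; exact add_mem ha.2 hb.2⟩
  neg_mem' ha := ⟨neg_mem ha.1, by rw [S.π_neg hν ha.1]; exact neg_mem ha.2⟩

lemma mem_KF (hν : Inf ν) (h1 : a ∈ H.F ν) (h2 : H.π y a ∈ H.F μ) : a ∈ S.KF hν μ := ⟨h1, h2⟩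

lemma win_mem (h0 : E ν ∈ H.F ν) (hE : ∀ k < w, E (ν + k) ∈ H.F (ν + k)) :
    H.ρ g (E ν) - ∑ k ∈ range w, (f k).val • E (ν + k) ∈ H.F ν :=
  sub_mem (H.pns.ρ_mem_F g h0) (sum_mem fun k hk =>
    nsmul_mem (H.F_add_nat k (hE k (mem_range.1 hk))) _)

lemma winP_iff (hν : Inf ν) (h0 : E ν ∈ H.F ν) (hE : ∀ k < w, E (ν + k) ∈ H.F (ν + k)) :
    H.WinP y g E ν w f ↔ H.WinL y g E ν w f :=
  ⟨S.Ypow_of_π hν (S.win_mem h0 hE), S.π_of_Ypow hν (S.win_mem h0 hE)⟩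

omit S in
lemma winP_congr {f' : ℕ → ZMod 2} (h : H.WinP y g E ν w f) (hf : ∀ k < w, f' k = f k) :
    H.WinP y g E ν w f' := by
  rw [WinP, sum_congr rfl fun k hk => by rw [hf k (mem_range.1 hk)]]
  exact h

lemma winP_mono (hν : Inf ν) (h0 : E ν ∈ H.F ν) (hE : ∀ k < w, E (ν + k) ∈ H.F (ν + k))
    (h : H.WinP y g E ν w f) {w' : ℕ} (hw : w' ≤ w) : H.WinP y g E ν w' f := by
  have h1 : _ ∈ S.KF hν (ν + w') := ⟨S.win_mem h0 hE, H.F_anti_nat hw h⟩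
  have h2 : ∑ k ∈ Ico w' w, (f k).val • E (ν + k) ∈ S.KF hν (ν + w') := sum_mem fun k hk =>
    AddSubgroup.nsmul_mem _ (S.mem_KF hν (H.F_add_nat k (hE k (mem_Ico.1 hk).2))
      (H.F_anti_nat (mem_Ico.1 hk).1 (S.π_mem (hν.add_nat k) (hE k (mem_Ico.1 hk).2)))) _
  have h3 := (add_mem h1 h2).2
  rw [← sum_range_add_sum_Ico _ hw] at h3
  rw [WinP]
  convert h3 using 2
  abel

variable (hT : ∀ e, H.ExKP y e)
include hT

lemma winP_change (hν : Inf ν) (h0 : E ν ∈ H.F ν) (hE : ∀ k < w, E (ν + k) ∈ H.F (ν + k))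
    (h0' : E' ν ∈ H.F ν) (hE' : ∀ k < w, E' (ν + k) ∈ H.F (ν + k))
    (d0 : H.π y (E' ν - E ν) ∈ H.F (ν + w))
    (d : ∀ k < w, H.π y (E' (ν + k) - E (ν + k)) ∈ H.F (ν + w)) (h : H.WinP y g E ν w f) :
    H.WinP y g E' ν w f := by
  have h1 : _ ∈ S.KF hν (ν + w) := ⟨S.win_mem h0 hE, h⟩
  have h2 : H.ρ g (E' ν - E ν) ∈ S.KF hν (ν + w) :=
    ⟨H.pns.ρ_mem_F g (sub_mem h0' h0), S.π_ρ hT g hν (sub_mem h0' h0) d0⟩
  have h3 : ∑ k ∈ range w, (f k).val • (E' (ν + k) - E (ν + k)) ∈ S.KF hν (ν + w) :=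
    sum_mem fun k hk => AddSubgroup.nsmul_mem _ (S.mem_KF hν (H.F_add_nat k
      (sub_mem (hE' k (mem_range.1 hk)) (hE k (mem_range.1 hk)))) (d k (mem_range.1 hk))) _
  have h4 := (sub_mem (add_mem h1 h2) h3).2
  simp only [smul_sub, sum_sub_distrib, map_sub] at h4
  rw [WinP]
  convert h4 using 2
  abel

/-- one step of the transfer. -/
lemma transfer_step (hν : Inf ν) (hE : ∀ {μ}, Inf μ → E μ ∈ H.F μ) (h1 : H.VD y h M)
    (h2 : H.VD y ⁅g, h⁆ (M + w))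
    (d0 : H.π y (H.ρ h (E ν) - E ν - E (ν + M)) ∈ H.F (ν + M + w))
    (d : ∀ k < w, H.π y (H.ρ h (E (ν + k)) - E (ν + k) - E (ν + k + M)) ∈ H.F (ν + M + w))
    (hw : H.WinP y g E ν w f) : H.WinP y g E (ν + M) w f := by
  have m0 := hE hν
  have mM : E (ν + M) ∈ H.F ν := H.F_add_nat M (hE (hν.add_nat M))
  have m1 := sub_mem (S.A_mem h m0) mM
  have a1 : H.ρ g (H.ρ h (E ν) - E ν - E (ν + M)) ∈ S.KF hν (ν + M + w) :=
    ⟨H.pns.ρ_mem_F g m1, H.cast (S.π_ρ hT g hν m1 (d := M + w) (H.cast d0 (by push_cast; ring)))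
      (by push_cast; ring)⟩
  have m2 := H.pns.ρ_mem_F (h * g) m0
  have a2 : H.ρ ⁅g, h⁆ (H.ρ (h * g) (E ν)) - H.ρ (h * g) (E ν) ∈ S.KF hν (ν + M + w) :=
    ⟨S.A_mem _ m2, H.cast (h2 hν m2) (by push_cast; ring)⟩
  have m3 := S.win_mem (g := g) (f := f) (w := w) m0 fun k _ => hE (hν.add_nat k)
  have a3 : _ ∈ S.KF hν (ν + M + w) := ⟨S.A_mem h m3, H.cast (S.VD_apply hT h1 hν m3 hw) (by ring)⟩
  have a4 : ∑ k ∈ range w, (f k).val • (H.ρ h (E (ν + k)) - E (ν + k) - E (ν + k + M)) ∈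
      S.KF hν (ν + M + w) := sum_mem fun k hk => AddSubgroup.nsmul_mem _
    (S.mem_KF hν (sub_mem (H.F_add_nat k (S.A_mem h (hE (hν.add_nat k))))
      (H.up (hE ((hν.add_nat k).add_nat M)) (k + M) (by push_cast; ring))) (d k (mem_range.1 hk))) _
  have a5 := (add_mem (add_mem (sub_mem a2 a1) a3) a4).2
  rw [← H.pns.ρ_mul, show ⁅g, h⁆ * (h * g) = g * h by rw [commutatorElement_def]; group,
    H.pns.ρ_mul, H.pns.ρ_mul] at a5
  simp only [smul_sub, sum_sub_distrib, map_sub, map_sum, map_nsmul] at a5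
  rw [WinP]
  simp only [add_right_comm ν (M : Pos U)] at a5 ⊢
  convert a5 using 2
  abel

end S1L

end Pool.Agent.Lib.MP_ffb54b_al.P2
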