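import Pool.Agent.Lib.MP_ffb54b_al.P2.E5
import Pool.Agent.Lib.MP_ffb54b_al.P2.TR

set_option autoImplicit false
set_option linter.unusedSectionVars false

namespace Pool.Agent.Lib.MP_ffb54b_al.P2

open Finset Filter
open scoped commutatorElement

universe u

variable {U : Ultrafilter ℕ} {G : ℕ → Type u} [∀ n, Group (G n)] {K : ∀ n, ℕ → Subgroup (G n)}
  {x y u : ∀ n, G n} {c : ∀ n, ℕ → G n → W2 × W2} {σ : ℕ → ℕ → Bil} {e : ∀ n, Bool → ℕ → G n}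
  {ch : ℕ → ZMod 2} {t c₆ c₇ c₈ : ZMod 2} {w₀ : ℕ}

/-- the extension of a sequence to positions. -/
noncomputable def chL (U : Ultrafilter ℕ) (ch : ℕ → ZMod 2) (ν : Pos U) : ZMod 2 :=
  ulim U fun n => ch (lev ν n)

lemma chL_spec (ch : ℕ → ZMod 2) (ν : Pos U) : ∀ᶠ n in U, ch (lev ν n) = chL U ch ν := ulim_spec U _

/-- The finite level facts give the facts in the galaxy Lie ring. -/
theorem Fam.eh (H : Fam U K) (L : ∀ n, LCS (K n) (x n) (y n) (u n))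
    (S : ∀ n, S1G (K n) (x n) (y n) (u n) (c n) (σ n))
    (E : ∀ᶠ n in U, EG (K n) (x n) (y n) (u n) (c n) (σ n) (e n) ch t c₆ c₇ c₈ w₀) :
    EH H x y u (H.lead c) (σL σ) (fun p => H.El fun n => e n p) (chL U ch) t c₆ c₇ c₈ := by
  have S' := H.s1l L S
  have hl := H.loc_of_cls (cls_of_s1g S)
  have em : ∀ p {ν : Pos U}, Inf ν → EvMem U K (fun n => e n p) ν := fun p ν hν => by
    filter_upwards [E, hν.le_lev w₀] with n h1 h2 using h1.e_mem p _ h2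
  have win : ∀ {g : ∀ n, G n} {p w} {ν : Pos U} {f : ℕ → ZMod 2} (f' : ZMod 2 → ZMod 2 → ℕ → ZMod 2),
      Inf ν → f' (red 2 ν) (chL U ch ν) = f → (∀ᶠ n in U, ∀ i, w₀ ≤ i →
        WinG (K n) (y n) (g n) (e n p) i w (f' i (ch i))) → H.WinL y g (H.El fun n => e n p) ν w f := by
    intro g p w ν f f' hν hf h
    refine (H.winL_ev hν (em p hν) (fun k _ => em p (hν.add_nat k)) (f' := fun _ => f)
      fun _ _ => .of_forall fun _ => rfl).2 ?_
    filter_upwards [h, hν.le_lev w₀, red_lev 2 hν.nonneg, chL_spec ch ν] with n h1 h2 h3 h4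
    rw [← hf, ← h3, ← h4]
    exact h1 _ h2
  have kill : ∀ (g : ∀ n, G n) (s : ℕ) {ν : Pos U}, Inf ν → (∀ᶠ n in U, ∀ i, w₀ ≤ i →
      ⁅g n, ⁅e n true i, e n true (i + 1)⁆⁆ ∈ K n (2 * i + s)) →
      H.Y g ⁅H.El (fun n => e n true) ν, H.El (fun n => e n true) (ν + 1)⁆ ∈ H.F (2 * ν + s) := by
    intro g s ν hν h
    have h1 := em true (hν.add_nat 1)
    have h2 := H.Ev_up (H.shift_Ev hν h1)
    have h3 := H.pns.comm (em true hν) h2
    rw [show ν + 1 = ν + (1 : ℕ) by simp, H.El_add hν h1, Fam.El, H.pns.lie_cls hν hν (em true hν) h2, Fam.Y_apply,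
      H.pns.ρ_sub_cls g (hν.add hν) h3, two_mul, H.cls_mem_nat (hν.add hν) (H.comm_Ev g h3)]
    filter_upwards [h, hν.le_lev w₀, lev_add hν.nonneg hν.nonneg] with n h1 h2 h3
    rw [h3, ← two_mul]
    exact h1 _ h2
  refine ⟨S', fun p ν hν => H.El_mem hν (em p hν), fun p ν hν => ?_, fun {ν} hν => ?_,
    fun {m j k p} hm hj hk hp => ?_, fun {j p} hj hp => ?_, fun {ν k} hν hk => ?_,
    fun hν => kill y 4 hν (E.mono fun n h => h.killY), fun hν => kill u 6 hν (E.mono fun n h => h.killU),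
    fun {ν} hν => ?_, fun p ν hν => win fx hν rfl (E.mono fun n h => h.winx p),
    fun p ν hν => win (fy p) hν rfl (E.mono fun n h => h.winy p),
    fun p ν hν => win (fun a _ => fu p a) hν rfl (E.mono fun n h => h.winu p),
    fun p ν hν => win (fun _ _ => fyu c₆ c₇ c₈) hν rfl (E.mono fun n h => h.winyu p)⟩
  · obtain ⟨n, h1, h2, h3⟩ := ((H.lead_cls hl hν (em p hν)).and (E.and (hν.le_lev w₀))).exists
    exact (congrArg Prod.fst h1).symm.trans (h2.e_cls p _ h3)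
  · obtain ⟨n, h1, h2, h3⟩ := ((σL_spec σ ν).and (E.and (hν.le_lev w₀))).exists
    exact h1 ▸ h2.bb _ h3
  · obtain ⟨a, ha, rfl⟩ := (H.pns.mem_F hm).1 (Fam.K_F hk)
    obtain ⟨b, hb, rfl⟩ := (H.pns.mem_F hj).1 (Fam.P_F hp)
    rw [H.pns.lie_cls hm hj ha hb, H.cls_mem_nat (hm.add hj) (H.pns.comm ha hb)]
    filter_upwards [E, hm.le_lev w₀, hj.le_lev w₀, ha, hb, (H.Ypow_mem_iff hm ha 9).1 (hk 9),
      lev_add hm.nonneg hj.nonneg] with n h1 h2 h3 h4 h5 h6 h7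
    rw [h7]
    exact h1.ex _ _ h2 h3 _ h4 _ h5 h6
  · obtain ⟨a, ha, rfl⟩ := (H.pns.mem_F hj).1 (Fam.P_F hp)
    rw [← two_nsmul, ← H.pns.cls_pow hj ha, H.cls_mem_nat hj (pow_mem ha 2)]
    filter_upwards [E, hj.le_lev w₀, ha] with n h1 h2 h3 using h1.two _ h2 _ h3
  · obtain ⟨a, ha, rfl⟩ := (H.pns.mem_F hν).1 (Fam.K_F hk)
    have h0 := (H.pns.normal ν).conj_mem _ ha u
    refine (S'.π_mem_iff hν (H.pns.ρ_mem_F u (Fam.K_F hk)) 5).1 ?_
    rw [H.pns.ρ_cls u hν ha, H.Ypow_mem_iff hν h0]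
    filter_upwards [E, hν.le_lev w₀, ha, (H.Ypow_mem_iff hν ha 5).1 (hk 5)] with n h1 h2 h3 h4
      using h1.kst _ h2 _ h3 h4
  · obtain ⟨n, h1, h2, h3, h4, h5⟩ := ((chL_spec ch (ν + 1)).and ((chL_spec ch ν).and
      ((red_lev 2 hν.nonneg).and ((lev_succ hν.nonneg).and E)))).exists
    rw [← h1, ← h2, ← h3, h4, h5.ch_succ]

/-- The constant family. -/
theorem EG.eh {Γ : Type u} [Group Γ] {K : ℕ → Subgroup Γ} {x y u : Γ} {c : ℕ → Γ → W2 × W2}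
    {σ : ℕ → Bil} {e : Bool → ℕ → Γ} (E : EG K x y u c σ e ch t c₆ c₇ c₈ w₀) (L : LCS K x y u)
    (S : S1G K x y u c σ) (H : Fam U fun _ : ℕ => K) :
    EH H (fun _ => x) (fun _ => y) (fun _ => u) (H.lead fun _ => c) (σL fun _ => σ)
      (fun p => H.El fun _ => e p) (chL U ch) t c₆ c₇ c₈ :=
  H.eh (fun _ => L) (fun _ => S) (.of_forall fun _ => E)

end Pool.Agent.Lib.MP_ffb54b_al.P2
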