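import Pool.Agent.Lib.MP_ffb54b_al.P2.JWin

set_option autoImplicit false
set_option linter.unusedSectionVars false

namespace Pool.Agent.Lib.MP_ffb54b_al.P2

open PowerSeries Finset
open scoped commutatorElement

variable {f g x y u : J2} {i j n w m : ℕ} {p q : Bool}

lemma cf2_eq (f : J2) (p : Bool) (i k : ℕ) :
    cf2 f p i k = coeff (i + k) (f⁻¹.ser ^ i * uu p f⁻¹) := by
  rw [cf2, map_pow, sb_X, uu]

lemma cf2_of {z v : R2} (hs : f⁻¹.ser = X * z) (p : Bool) (i : ℕ) {k : ℕ}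
    (h : X ^ n ∣ z ^ i * uu p f⁻¹ + v) (hk : k < n) : cf2 f p i k = coeff k v := by
  rw [cf2_eq, hs, mul_pow, mul_assoc, add_comm i, coeff_X_pow_mul, coeff_eq_of_dvd h hk]

lemma pow_three (z : R2) (n : ℕ) :
    ∃ r, (1 + z) ^ n = 1 + n * z + (n.choose 2 : ℕ) * z ^ 2 + z ^ 3 * r := by
  induction n with
  | zero => exact ⟨0, by simp⟩
  | succ n ih =>
    obtain ⟨r, hr⟩ := ih
    refine ⟨r + (n.choose 2 : ℕ) + z * r, ?_⟩
    rw [pow_succ, hr, Nat.choose_succ_succ' n 1, Nat.choose_one_right]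
    push_cast
    ring

lemma coeff_nat (a : ℕ) (k : ℕ) (φ : R2) : coeff k ((a : R2) * φ) = a * coeff k φ := by
  rw [← nsmul_eq_mul, map_nsmul, nsmul_eq_mul]

lemma uu_isH (h : IsH f m) (p : Bool) :
    X ^ (5 * m) ∣ uu p f + (1 + X ^ m + if p then X ^ (2 * m) + X ^ (3 * m) + X ^ (4 * m) else 0) := by
  have hk : kk f = 1 + X ^ m := by linear_combination h.2 - two_R2
  cases p
  · simp [uu, hk, CharTwo.add_self_eq_zero]
  · refine ⟨ki f, ?_⟩
    have := ki_mul_kk f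
    rw [hk] at this
    simp only [uu, if_true]
    linear_combination -(1 + X ^ m + X ^ (2 * m) + X ^ (3 * m) + X ^ (4 * m)) * this +
      (ki f * (1 + X ^ m + X ^ (2 * m) + X ^ (3 * m) + X ^ (4 * m))) * two_R2

lemma cf_x (hx : x⁻¹.ser = X + X ^ 2) (p : Bool) (i : ℕ) :
    ∀ k < 3, cf2 x p i k = fx i (i.choose 2 : ℕ) k := fun k hk => by
  have hk1 : kk x⁻¹ = 1 := by
    rw [kk, hx, show (X + X ^ 2 : R2) = X ^ 2 + X * 1 ^ 2 by ring, od_mk]
  have hu : uu p x⁻¹ = 1 := by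
    cases p
    · exact hk1
    · simpa [hk1, uu] using ki_mul_kk x⁻¹
  obtain ⟨r, hr⟩ := pow_three X i
  rw [cf2_of (z := 1 + X) (v := 1 + (i : R2) * X + (i.choose 2 : R2) * X ^ 2) (n := 3)
    (by rw [hx]; ring) p i ⟨r, by
      rw [hu, hr]
      linear_combination (1 + (i : R2) * X + (i.choose 2 : R2) * X ^ 2) * two_R2⟩ hk]
  simp only [map_add, coeff_nat]
  interval_cases k <;> simp [fx, coeff_X, coeff_X_pow, coeff_one]

lemma cf_y (hy : y⁻¹.ser = X + X ^ 3) (p : Bool) (i : ℕ) :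
    ∀ k < 5, cf2 y p i k = fy p i (i.choose 2 : ℕ) k := fun k hk => by
  obtain ⟨r, hr⟩ := pow_three (X ^ 2) i
  obtain ⟨s, hs⟩ := uu_isH (IsH.of_ser (m := 1) hy) p
  have t := two_R2
  cases p
  · rw [cf2_of (z := 1 + X ^ 2) (v := 1 + X + (i : R2) * X ^ 2 + (i : R2) * X ^ 3 + (i.choose 2 : R2) * X ^ 4)
      (n := 5) (by rw [hy]; ring) false i ⟨(1 + X ^ 2) ^ i * s + (i.choose 2 : R2) +
        X * r * (1 + X), by
        simp only [Bool.false_eq_true, if_false] at hs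
        linear_combination (1 + X ^ 2) ^ i * hs - (1 + X) * hr -
          ((i.choose 2 : R2) * X ^ 5 + X ^ 6 * r * (1 + X)) * t⟩ hk]
    interval_cases k <;> simp [fy, ind, coeff_nat, coeff_X, coeff_X_pow, coeff_one]
  · rw [cf2_of (z := 1 + X ^ 2) (v := 1 + X + X ^ 2 + (i : R2) * X ^ 2 + X ^ 3 + (i : R2) * X ^ 3 + X ^ 4 +
      (i : R2) * X ^ 4 + (i.choose 2 : R2) * X ^ 4) (n := 5) (by rw [hy]; ring) true i
      ⟨(1 + X ^ 2) ^ i * s + (i : R2) * (1 + X) + (i.choose 2 : R2) * (1 + X + X ^ 2 + X ^ 3) +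
        X * r * (1 + X + X ^ 2 + X ^ 3 + X ^ 4), by
        simp only [if_true] at hs
        linear_combination (1 + X ^ 2) ^ i * hs - (1 + X + X ^ 2 + X ^ 3 + X ^ 4) * hr -
          (X ^ 5 * ((i : R2) * (1 + X) + (i.choose 2 : R2) * (1 + X + X ^ 2 + X ^ 3) +
            X * r * (1 + X + X ^ 2 + X ^ 3 + X ^ 4))) * t⟩ hk]
    interval_cases k <;> simp [fy, ind, coeff_nat, coeff_X, coeff_X_pow, coeff_one] <;> ring

lemma cf_u (hu : u⁻¹.ser = X + X ^ 7) (p : Bool) (i : ℕ) :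
    ∀ k < 7, cf2 u p i k = fu p i k := fun k hk => by
  obtain ⟨r, hr⟩ := jb_pow (X ^ 6) i
  obtain ⟨s, hs⟩ := uu_isH (IsH.of_ser (m := 3) hu) p
  have t := two_R2
  cases p
  · rw [cf2_of (z := 1 + X ^ 6) (v := 1 + X ^ 3 + (i : R2) * X ^ 6)
      (n := 7) (by rw [hu]; ring) false i ⟨(1 + X ^ 6) ^ i * X ^ 8 * s + (i : R2) * X ^ 2 +
        X ^ 5 * r * (1 + X ^ 3), by
        simp only [Bool.false_eq_true, if_false] at hs
        linear_combination (1 + X ^ 6) ^ i * hs - (1 + X ^ 3) * hr -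
          (X ^ 7 * ((i : R2) * X ^ 2 + X ^ 5 * r * (1 + X ^ 3))) * t⟩ hk]
    interval_cases k <;> simp [fu, ind, coeff_nat, coeff_X_pow, coeff_one]
  · rw [cf2_of (z := 1 + X ^ 6) (v := 1 + X ^ 3 + X ^ 6 + (i : R2) * X ^ 6)
      (n := 7) (by rw [hu]; ring) true i ⟨(1 + X ^ 6) ^ i * X ^ 8 * s + (X ^ 2 + X ^ 5) +
        (i : R2) * (X ^ 2 + X ^ 5 + X ^ 8 + X ^ 11) +
        X ^ 5 * r * (1 + X ^ 3 + X ^ 6 + X ^ 9 + X ^ 12), by
        simp only [if_true] at hs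
        linear_combination (1 + X ^ 6) ^ i * hs - (1 + X ^ 3 + X ^ 6 + X ^ 9 + X ^ 12) * hr -
          (X ^ 7 * ((X ^ 2 + X ^ 5) + (i : R2) * (X ^ 2 + X ^ 5 + X ^ 8 + X ^ 11) +
            X ^ 5 * r * (1 + X ^ 3 + X ^ 6 + X ^ 9 + X ^ 12))) * t⟩ hk]
    interval_cases k <;> simp [fu, ind, coeff_nat, coeff_X_pow, coeff_one, add_comm]

lemma OD.cf_eq (h : OD f m) (p : Bool) (i : ℕ) {k : ℕ} (hk : k < 2 * m) :
    cf2 f p i k = coeff k (kk f⁻¹) := by
  obtain ⟨s, hs⟩ := h.inv.ser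
  obtain ⟨r, hr⟩ := jb_pow (X ^ (2 * m) * s) i
  have h1 : X ^ (2 * m) ∣ uu p f⁻¹ + kk f⁻¹ := by
    cases p
    · simp [uu, CharTwo.add_self_eq_zero]
    · convert (dvd_sq h.inv.k).mul_left (ki f⁻¹) using 1
      simp only [uu, if_true]
      linear_combination -(kk f⁻¹ + 2) * ki_mul_kk f⁻¹ - two_R2
  refine cf2_of (z := 1 + X ^ (2 * m) * s) (n := 2 * m)
    (by linear_combination hs - X * two_R2) p i ?_ hk
  convert dvd_add h1 (dvd_mul_right (X ^ (2 * m)) (((i : R2) * s + X ^ (2 * m) * s ^ 2 * r) * uu p f⁻¹))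
    using 1
  rw [hr]
  ring

lemma OD.low (h : OD f m) {k : ℕ} (hk : k ≤ m) (hm : 0 < m) : coeff k (kk f) = fm m k := by
  have h1 : coeff k (kk f) = coeff k (kk f + 1) + coeff k 1 := by
    rw [map_add, add_assoc, CharTwo.add_self_eq_zero, add_zero]
  rw [h1, coeff_one, fm]
  rcases hk.eq_or_lt with rfl | hk
  · rw [h.2, if_neg hm.ne', if_pos (Or.inr rfl), add_zero]
  · rw [X_pow_dvd_iff.1 h.k k hk, zero_add]
    simp [hk.ne]

lemma fr_one (m k : ℕ) : fr m 1 k = fm m k := by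
  rw [fr, fm]
  split_ifs <;> tauto

lemma sb_pow_two (g : J2) (s : ℕ) : X ^ (2 * 2 ^ s) ∣ sb g (X ^ 2 ^ s) + X ^ 2 ^ s := by
  induction s with
  | zero => simpa [sb_X] using sq_dvd' g
  | succ s ih =>
    rw [pow_succ 2 s, pow_mul X (2 ^ s) 2, sb_sq, mul_comm (2 ^ s) 2]
    exact dvd_sq ih

lemma per_comm (hf : IsH f (2 * m)) (hm : 2 ≤ m) (g : J2)
    (h : X ^ (2 * (2 * m)) ∣ sb g (X ^ (2 * m)) + X ^ (2 * m)) : ⁅g, f⁆ ∈ Gm (2 * m) := by
  have s : X ^ (4 * m + 1) ∣ f.ser + X := hf.ser ▸ pow_dvd_pow _ (by omega)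
  have k : X ^ (2 * m) ∣ kk f + 1 := hf.2 ▸ dvd_rfl
  have a0 := DD_comm g f
  have b0 := PP_comm g f
  rw [hf.D, map_zero, zero_mul, add_zero, add_zero] at a0
  rw [hf.P, map_zero, mul_zero, add_zero, add_zero, mul_comm (kk f)] at b0
  have e : sb g (X ^ (2 * m)) + X ^ (2 * m) = sb g (kk f) + kk f := by
    rw [← hf.2, map_add, map_one]
    linear_combination two_R2
  rw [e] at h
  exact mem_Gm_deep (by omega)
    (lead_DD a0 (act_dvd s (dvd_ki k) (X_dvd_DD g) (by omega) (by omega))).1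
    (lead_PP b0 (act_dvd0 s k (PP g) (by omega) le_rfl)).1
    (lead_PP (kk_comm g f) (dvd_add ((dvd_mono (sb_add_self s _) (by omega)).mul_right _)
      (h.mul_right _))).1

lemma cf2_per (f : J2) (p : Bool) (i s : ℕ) {k : ℕ} (hk : k < 2 ^ s) :
    cf2 f p (i + 2 ^ s) k = cf2 f p i k := by
  have h1 := dvd_mul2 ((sb_dvd f⁻¹ (dvd_refl (X ^ i))).mul_right (if p then ki f⁻¹ else kk f⁻¹))
    (sb_pow_two f⁻¹ s) le_rfl
  rw [cf2, cf2, pow_add, map_mul (sb f⁻¹), mul_right_comm, ← coeff_mul_X_pow _ (2 ^ s) (i + k),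
    add_right_comm i k]
  rw [mul_add] at h1
  exact coeff_eq_of_dvd h1 (by omega)

lemma a_lead (hx : x⁻¹.ser = X + X ^ 2) (hy : y⁻¹.ser = X + X ^ 3) (i : ℕ) :
    X ^ (i + 1) ∣ DD (vG x y u true (i + 1)) ∧ coeff (i + 1) (DD (vG x y u true (i + 1))) = 1 := by
  induction i with
  | zero =>
    refine ⟨X_dvd_DD _, ?_⟩
    have h0 := DD_mul x x⁻¹
    rw [mul_inv_cancel, DD_one, eq_comm, CharTwo.add_eq_zero] at h0
    rw [show vG x y u true (0 + 1) = x from rfl, (lead_DD h0 (X_dvd_DD _)).2,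
      ← coeff_dl (X_dvd_DD _), coeff_one_dl, hx]
    simp [coeff_X]
  | succ i ih =>
    have hD : DD y = 0 := PowerSeries.ext fun n =>
      X_pow_dvd_iff.1 ((y_od hy).1 (n + 1)).1 n (by omega)
    have a0 := DD_comm y (vG x y u true (i + 1))
    rw [hD, map_zero, zero_mul, add_zero, zero_add] at a0
    obtain ⟨a1, a2⟩ := act_coeff y (X_dvd_ki y) ih.1
    obtain ⟨a3, a4⟩ := lead_DD a0 a1
    refine ⟨a3, a4.trans ?_⟩
    rw [a2, ih.2, y_two hy, coeff_one_ki, y_three hy, mul_zero, zero_add, mul_one]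

lemma b_lead (hy : y⁻¹.ser = X + X ^ 3) (hu : u⁻¹.ser = X + X ^ 7) (i : ℕ) (q : Bool) :
    coeff (i + 1) (CC q (vG x y u false (i + 1))) = if q then 0 else 1 := by
  have h := vG_od (x := x) hy hu i
  generalize vG x y u false (i + 1) = f at h
  cases q
  · have h1 := dvd_d (dvd_dl (h.1 (i + 3)).1)
    have h2 : X ^ (i + 1) ∣ ps f := dvd_ps h.k (by omega)
    have h3 : coeff (i + 1) (ps f) = 1 := by
      rw [← h.2, show 2 * i + 3 = 2 * (i + 1) + 1 by ring, ← coeff_od, od_add, od_one, add_zero, ps]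
    simp only [CC, Bool.false_eq_true, if_false]
    rw [PP, coeff_mul_one (X_dvd_ki f) (dvd_add (h2.mul_right _) (dvd_mono h1 (by omega))),
      map_add, coeff_mul_one (X_dvd_ka f) h2, h3, X_pow_dvd_iff.1 h1 _ (by omega), add_zero]
  · exact X_pow_dvd_iff.1 (h.1 (i + 2)).1 _ (by omega)

/-- The facts about the Nottingham group used in PART I. -/
theorem jf {KJ : ℕ → Subgroup J2} (L : LCS KJ x y u) (hK : ∀ w, 3 ≤ w → KJ w = Gm w)
    (hx : x⁻¹.ser = X + X ^ 2) (hy : y⁻¹.ser = X + X ^ 3) (hu : u⁻¹.ser = X + X ^ 7) :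
    ∃ h e ch t c₆ c₇ c₈ d₈, JF KJ x y u h e cf2 ch t c₆ c₇ c₈ d₈ := by
  obtain ⟨e, B⟩ := exists_basX
  obtain ⟨h, hh⟩ := exists_isH 4
  have o1 : OD ⁅y, u⁆ 5 := vG_od (x := x) hy hu 1
  have o2 : OD ⁅y, h⁻¹⁆ 7 := (y_od hy).step hh.od.inv (by decide) (by norm_num)
  have mv : ∀ p i, vG x y u p (i + 4) ∈ Gm (i + 4) := fun p i => hK (i + 4) (by omega) ▸ L.vG_mem p _
  have ht : ∀ i, coeff (i + 4) (PP (vG x y u true (i + 4))) = coeff 4 (PP (vG x y u true 4)) :=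
    fun i => by
      induction i with
      | zero => rfl
      | succ i ih => exact (y_lead hy (w := i + 3) (by omega) false (mv true i)).trans ih
  refine ⟨h⁻¹, e, fun i => (i.choose 2 : ℕ), coeff 4 (PP (vG x y u true 4)),
    coeff 6 (kk ⁅y, u⁆⁻¹), coeff 7 (kk ⁅y, u⁆⁻¹), coeff 8 (kk ⁅y, u⁆⁻¹), coeff 8 (kk ⁅y, h⁻¹⁆⁻¹),
    L, jf_cls2 hK, jf_sq hK, ⟨6, fun p i hi => hK i (by omega) ▸ B.bas.mem p i hi⟩,
    ⟨6, fun p i hi => ?_⟩, fun C f => ⟨2 * C + 4, fun p i hi => ?_⟩, fun C => ?_,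
    jf_phi hK B.bas, fun i => ?_, cf_x hx, cf_y hy, cf_u hu,
    fun p i k hk => (hh.cf (by norm_num) p i (by omega)).trans (fr_one _ _),
    fun p i k hk => ?_, fun p i k hk => ?_⟩
  · obtain ⟨i, rfl⟩ : ∃ v, i = v + 4 := ⟨i - 4, by omega⟩
    obtain ⟨m1, h1⟩ := B p (i + 2)
    have key : vbG x y u (coeff 4 (PP (vG x y u true 4))) p (i + 4) ∈ Gm (i + 4) ∧ ∀ q,
        coeff (i + 4) (CC q (vbG x y u (coeff 4 (PP (vG x y u true 4))) p (i + 4))) =
          if p = q then 1 else 0 := by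
      have hb := b_lead (x := x) hy hu (i + 3)
      have ha := (a_lead (u := u) hx hy (i + 3)).2
      cases p
      · exact ⟨mv _ _, fun q => (hb q).trans (by cases q <;> rfl)⟩
      refine ⟨mul_mem (mv _ _) (pow_mem (mv _ _) _), fun q => ?_⟩
      rw [← ht i]
      rcases z2' (coeff (i + 4) (PP (vG x y u true (i + 4)))) with h0 | h0
      · cases q
        · simp [vbG, h0, CC]
        · simpa [vbG, h0, CC]
      · simp only [vbG, h0, if_true, ZMod.val_one, pow_one]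
        rw [coeff_eq_of_dvd (CC_add (i := i + 2) q (mv _ _) (mv _ _)) (by omega), map_add, hb q]
        cases q
        · simp [CC, h0, CharTwo.add_self_eq_zero]
        · simpa [CC]
    rw [hK _ (by omega)]
    refine y_gain hy (by omega) (mul_mem m1 (inv_mem key.1)) fun q => ?_
    rw [coeff_eq_of_dvd (CC_div (i := i + 2) q m1 key.1) (by omega), map_add, key.2,
      coeff_eq_of_dvd (h1 q) (by omega)]
    split_ifs <;> simp [CharTwo.add_self_eq_zero]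
  · rw [WinG, hK _ (by omega)]
    exact B.win hy hi f p
  · have h2 : C + 2 < 2 ^ (C + 2) := Nat.lt_two_pow_self
    have e2 : 2 ^ (C + 3) = 2 * 2 ^ (C + 2) := by ring
    obtain ⟨g, hg⟩ := exists_isH (2 * 2 ^ (C + 2) - 1)
    rw [show 2 * 2 ^ (C + 2) - 1 + 1 = 2 * 2 ^ (C + 2) by omega] at hg
    refine ⟨2 ^ (C + 2), g⁻¹, by omega, ?_, fun f => ?_,
      fun p i k hk => (hg.cf (by omega) p i (by omega)).trans (fr_one _ _), fun f p i k hk => ?_⟩
    · rw [hK _ (by omega)]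
      exact inv_mem (hg.mem (by simp [parity_simps]) le_rfl)
    · rw [hK _ (by omega), ← inv_inv f]
      exact comm_inv (Gm_normal (by omega)) (per_comm hg (by omega) _ (e2 ▸ sb_pow_two _ _))
    · exact e2 ▸ cf2_per f p i (C + 3) (by omega)
  · rw [Nat.choose_succ_succ' i 1, Nat.choose_one_right, Nat.cast_add, add_comm]
  · rw [o1.cf_eq p i (by omega)]
    have := fun k hk => o1.inv.low (k := k) hk (by norm_num)
    interval_cases k <;> first | rfl | exact this _ (by norm_num)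
  · rw [o2.cf_eq p i (by omega)]
    have := fun k hk => o2.inv.low (k := k) hk (by norm_num)
    interval_cases k <;> first | rfl | exact this _ (by norm_num)

end Pool.Agent.Lib.MP_ffb54b_al.P2
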