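import Pool.Agent.Lib.MP_ffb54b_al.P2.App
import Pool.Agent.Lib.MP_ffb54b_al.P2.AX2
import Pool.Agent.Lib.MP_ffb54b_al.P2.JFin

set_option autoImplicit false
set_option linter.unusedSectionVars false

namespace Pool.Agent.Lib.MP_ffb54b_al.P2

open Subgroup PowerSeries Filter
open scoped commutatorElement

universe u

variable {G : Type u} [Group G] [TopologicalSpace G] [IsTopologicalGroup G]

lemma mono_of_open (ho : ∀ n, IsOpen (gamma J2 n : Set J2)) {n m : ℕ} (h : IsApprox G 2 n)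
    (hm : m ≤ n) : IsApprox G 2 m := by
  obtain ⟨f, h1, h2, h3⟩ := h.exists_hom
  have := QuotientGroup.discreteTopology (ho n)
  obtain ⟨⟨e⟩, _⟩ := quot_equiv h1 h2 (h3.le.trans (gamma_anti hm))
  obtain ⟨⟨e'⟩, _⟩ := quot_equiv (f := QuotientGroup.mk' (gamma J2 n))
    QuotientGroup.continuous_mk (QuotientGroup.mk'_surjective _)
    ((QuotientGroup.ker_mk' _).le.trans (gamma_anti hm))
  exact ⟨h.1, h.2.1, ⟨⟨e.trans e'.symm, continuous_of_discreteTopology,
    continuous_of_discreteTopology⟩⟩⟩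

/-- Good enough approximations with the factors of the Nottingham group satisfy the finite level
hypotheses of PART II. -/
theorem exists_part1 (ho : ∀ n, IsOpen (gamma J2 n : Set J2)) (hi : ∀ n, (gamma J2 n).index ≠ 0)
    {x' y' u' : J2} (hx : x'⁻¹.ser = X + X ^ 2) (hy : y'⁻¹.ser = X + X ^ 3)
    (hu : u'⁻¹.ser = X + X ^ 7) (H : LCS (gamma J2) x' y' u') (B : Base (gamma J2) x' y' u')
    (hK : ∀ w, 3 ≤ w → gamma J2 w = Gm w) :
    ∃ n₀, ∀ (G : Type u) [Group G] [TopologicalSpace G] [IsTopologicalGroup G], IsApprox G 2 n₀ →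
      (∀ i, 1 ≤ i → Nonempty (Factor G i ≃* Factor J2 i)) →
      ∃ x y u c σ e ch t c₆ c₇ c₈ h q w w₀, LCS (gamma G) x y u ∧ S1G (gamma G) x y u c σ ∧
        EG (gamma G) x y u c σ e ch t c₆ c₇ c₈ w₀ ∧ AG (gamma G) x y u h q e w w₀ := by
  by_contra hc
  have hc' := fun n => not_forall.1 (not_exists.1 hc (n + 7))
  simp only [not_forall] at hc'
  choose G i1 i2 i3 hG hH hn using hc'
  choose R x y u c σ L Rx Ry Ru l S using fun n => exists_app ho hi H B (by omega) (hG n) (hH n)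
  obtain ⟨h, e, ch, t, c₆, c₇, c₈, d₈, F⟩ := jf H hK hx hy hu
  obtain ⟨h', q, F2⟩ := jf2 H hK hy hu
  let P : PI (hyperfilter ℕ) G J2 := ⟨fun n => gamma (G n), x, y, u, c, σ, free_hyper, l, S,
    gamma J2, x', y', u', h, e, cf2, ch, t, c₆, c₇, c₈, d₈, F, R, fun n => n + 7, L,
    fun d => (free_hyper d).mono fun n hn => by omega, Rx, Ry, Ru⟩
  obtain ⟨e', w, w₀, hev⟩ := P.export F2
  obtain ⟨n, h1, h2⟩ := hev.exists
  exact hn n ⟨_, _, _, _, _, _, _, _, _, _, _, _, _, _, _, l n, S n, h1, h2⟩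

end Pool.Agent.Lib.MP_ffb54b_al.P2
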