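import Pool.Agent.Lib.MP_ffb54b_al.P2.Fld2

set_option autoImplicit false
set_option linter.unusedSectionVars false

namespace Pool.Agent.Lib.MP_ffb54b_al.P2

open FS GA PowerSeries Filter
open scoped commutatorElement

universe u v

variable {G : Type v} [Group G] {V : Type u} [AddCommGroup V]

/-- Sequences of central type. -/
structure SQ (Φ : GA G V) (K E : ℕ → Subgroup G) (x y u h q : G) (w : ℕ) (U : Ultrafilter ℕ)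
    (M : ℕ → ℕ) (𝒦 : Set (ℕ → G)) (z k₁ : ℕ → G) (ch : ℤ → ZMod 2) : Prop where
  al : AL Φ K E y u h q w
  two : (2 : AddMonoid.End V) = 0
  inf : ∀ c, ∀ᶠ n in U, c ≤ M n
  comm_mem : ∀ k ∈ 𝒦, ∀ g : G, (fun n => ⁅g, k n⁆) ∈ 𝒦
  cen : ∀ k ∈ 𝒦, ∀ m : ℕ → G, (∀ᶠ n in U, m n ∈ K (M n)) → ∀ c, ∀ᶠ n in U,
    ⁅k n, m n⁆ ∈ K (2 * M n + c)
  deg : ∀ k ∈ 𝒦, ∀ (g : G) j, (∀ᶠ n in U, k n ∈ E (M n + j)) → ∀ᶠ n in U, ⁅g, k n⁆ ∈ E (M n + j + 1)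
  ke : ∀ k ∈ 𝒦, ∀ j, (∀ᶠ n in U, k n ∈ E (M n + j)) → ∀ᶠ n in U, KE K E u h q (M n + j) (k n)
  z_mem : z ∈ 𝒦
  z_E : ∀ᶠ n in U, z n ∈ E (M n) ∧ z n ∉ E (M n + 1)
  k_mem : k₁ ∈ 𝒦
  k_E : ∀ᶠ n in U, k₁ n ∈ E (M n + 1) ∧ k₁ n ∉ E (M n + 2)
  yz : ∀ᶠ n in U, ⁅y, z n⁆ ∈ E (M n + 3)
  yk : ∀ᶠ n in U, ⁅y, k₁ n⁆ ∉ E (M n + 4)
  uz : ∀ᶠ n in U, ⁅u, z n⁆ ∈ E (M n + 5)
  uk : ∀ᶠ n in U, ⁅y, ⁅y, k₁ n⁆⁆ ∈ E (M n + 5) → ⁅u, k₁ n⁆ ∈ E (M n + 6)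
  wx : Φ.W x 1 (fun i => Φ.par i • 1) fun i => ch i • 1
  ch_two : ∀ i, ch (i + 2) = ch i + 1

namespace SQ

variable {Φ : GA G V} {K E : ℕ → Subgroup G} {x y u h q g : G} {w : ℕ} {U : Ultrafilter ℕ}
  {M : ℕ → ℕ} {𝒦 : Set (ℕ → G)} {z k₁ k m : ℕ → G} {ch : ℤ → ZMod 2}
  (S : SQ Φ K E x y u h q w U M 𝒦 z k₁ ch) {j : ℕ} {d : ℤ} {T T' : AddMonoid.End V}
include S

lemma sym (hk : k ∈ 𝒦) (h1 : ∀ᶠ n in U, k n ∈ E (M n + j)) : ∀ᶠ n in U, ∃ s : ZMod 2,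
    (s = 0 ↔ k n ∈ E (M n + j + 1)) ∧ Φ.W (k n) (2 * M n + 2 * j) (fun _ => s • 1) fun _ => 0 := by
  filter_upwards [S.ke k hk j h1, S.inf (w + 1)] with n h2 h3
  simpa only [Nat.cast_add, mul_add] using S.al.ke_sym (by omega) h2

lemma sym_one (hk : k ∈ 𝒦) (h1 : ∀ᶠ n in U, k n ∈ E (M n + j))
    (h2 : ∀ᶠ n in U, k n ∉ E (M n + j + 1)) :
    ∀ᶠ n in U, Φ.W (k n) (2 * M n + 2 * j) (fun _ => 1) fun _ => 0 := by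
  filter_upwards [S.sym hk h1, h2] with n ⟨s, h3, h4⟩ h5
  simpa [(zmod2 s).resolve_left (mt h3.1 h5)] using h4

lemma exists_Z : ∃ Z : ℕ → AddMonoid.End V, ∀ᶠ n in U, Z n ∈ Φ.N (-(2 * M n)) ∧
    Z n * Φ.δ (z n) = 1 ∧ Φ.δ (z n) * Z n = 1 ∧
      ∀ i, Φ.s0 (Z n) (-(2 * M n)) i = 1 ∧ Φ.s1 (Z n) (-(2 * M n)) i = 0 := by
  refine (ev_exists (q := fun n (Z : AddMonoid.End V) => Z ∈ Φ.N (-(2 * M n)) ∧
    Z * Φ.δ (z n) = 1 ∧ Φ.δ (z n) * Z = 1 ∧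
      ∀ i, Φ.s0 Z (-(2 * M n)) i = 1 ∧ Φ.s1 Z (-(2 * M n)) i = 0)).1 ?_
  filter_upwards [S.sym_one (j := 0) S.z_mem (S.z_E.mono fun _ h => h.1)
    (S.z_E.mono fun _ h => h.2)] with n hn
  simp only [Nat.cast_zero, mul_zero, add_zero] at hn
  obtain ⟨Z, h1, h2, h3⟩ := exists_inv hn.1 fun i => (hn.2 i).1
  exact ⟨Z, h1, h2, h3, fun i => ⟨s0_inv hn.1 (fun i => (hn.2 i).1) h1 h2 i,
    s1_inv hn.1 (fun i => (hn.2 i).1) (fun i => (hn.2 i).2) h1 h2 i⟩⟩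

lemma EK (h1 : ∀ᶠ n in U, m n ∈ E (M n + j)) : ∀ᶠ n in U, m n ∈ K (M n) := by
  filter_upwards [h1, S.inf w] with n h2 h3
  exact S.al.anti (by omega) (S.al.EK_le _ (by omega) h2)

lemma EN (h1 : ∀ᶠ n in U, m n ∈ E (M n + j)) : ∀ᶠ n in U, Φ.δ (m n) ∈ Φ.N (2 * M n + 2 * j) := by
  filter_upwards [h1, S.inf w] with n h2 h3
  exact N_mono (S.al.lbE _ (by omega) _ h2) (by push_cast; omega)

lemma y_deg (hk : k ∈ 𝒦) (h1 : ∀ᶠ n in U, k n ∈ E (M n + j)) :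
    ∀ᶠ n in U, ⁅y, k n⁆ ∈ E (M n + (j + 2)) := by
  filter_upwards [S.sym hk h1, S.sym (j := j + 1) (S.comm_mem k hk y) (S.deg k hk y j h1)]
    with n ⟨s, _, h2⟩ ⟨t, h3, h4⟩
  have c1 : cm (Φ.δ y) (Φ.δ (k n)) ∈ Φ.N (2 * M n + 2 * j + 3) :=
    N_succ2 (cm_mem S.al.wy.1 h2.1 le_rfl) (fun i => by
      simp only [s0_cm S.al.wy.1 h2.1 rfl, S.al.wy.2, h2.2, one_mul, mul_one, mat_add_self])
      (fun i => by
        simp only [s1_cm S.al.wy.1 h2.1 rfl, S.al.wy.2, h2.2, one_mul, mul_one, mul_zero, zero_mul,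
          add_zero, zero_add, smul_mul_assoc, mul_smul_comm,
          Φ.par_even (i := i) (j := i + (2 * M n + 2 * j)) (M n + j) (by omega), mat_add_self])
      (by omega)
  have := (h4.2 0).1
  rw [s0_deep (δ_comm_mem c1) (by push_cast; omega), eq_comm, smul_eq_zero,
    or_iff_left mat_one_ne] at this
  exact h3.1 this

lemma u_deg (hk : k ∈ 𝒦) (h1 : ∀ᶠ n in U, k n ∈ E (M n + j)) :
    ∀ᶠ n in U, ⁅u, k n⁆ ∈ E (M n + (j + 3)) := by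
  filter_upwards [S.ke k hk j h1, S.inf w] with n h2 h3
  exact S.al.KE_le _ (by omega) h2.2.1

variable {Z : ℕ → AddMonoid.End V} (hZ : ∀ᶠ n in U, Z n ∈ Φ.N (-(2 * M n)) ∧
    Z n * Φ.δ (z n) = 1 ∧ Φ.δ (z n) * Z n = 1 ∧
      ∀ i, Φ.s0 (Z n) (-(2 * M n)) i = 1 ∧ Φ.s1 (Z n) (-(2 * M n)) i = 0)
include hZ

omit S in
lemma ZN (h1 : ∀ᶠ n in U, Φ.δ (m n) ∈ Φ.N (2 * M n + d)) :
    ∀ᶠ n in U, Z n * Φ.δ (m n) ∈ Φ.N d :=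
  (hZ.and h1).mono fun _ h => N_mul h.1.1 h.2 (by omega)

omit S in
lemma lim_s0 (hT : Φ.IsLim U (fun n => Z n * Φ.δ (m n)) T) {f : ℤ → Mat}
    (h1 : ∀ᶠ n in U, Φ.δ (m n) ∈ Φ.N (2 * M n + d) ∧ ∀ i, Φ.s0 (Φ.δ (m n)) (2 * M n + d) i = f i)
    (i : ℤ) : Φ.s0 T d i = f i := by
  obtain ⟨n, h2, h3, h4⟩ := ((hT.s0 (ZN hZ (h1.mono fun _ h => h.1)) i).and (hZ.and h1)).exists
  rw [h2, s0_mul h3.1 h4.1 (by omega), (h3.2.2.2 _).1, h4.2, one_mul]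

omit S in
lemma lim_s1 (hT : Φ.IsLim U (fun n => Z n * Φ.δ (m n)) T) {f : ℤ → Mat}
    (h1 : ∀ᶠ n in U, Φ.δ (m n) ∈ Φ.N (2 * M n + d) ∧ ∀ i, Φ.s1 (Φ.δ (m n)) (2 * M n + d) i = f i)
    (i : ℤ) : Φ.s1 T d i = f i := by
  obtain ⟨n, h2, h3, h4⟩ := ((hT.s1 (ZN hZ (h1.mono fun _ h => h.1)) i).and (hZ.and h1)).exists
  rw [h2, s1_mul h3.1 h4.1 (by omega), (h3.2.2.2 _).1, (h3.2.2.2 _).2, h4.2, one_mul, zero_mul,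
    zero_add]

lemma lim_comm (hk : k ∈ 𝒦) (h1 : ∀ᶠ n in U, k n ∈ K (M n)) (h2 : ∀ᶠ n in U, m n ∈ K (M n))
    (hT : Φ.IsLim U (fun n => Z n * Φ.δ (k n)) T) (hT' : Φ.IsLim U (fun n => Z n * Φ.δ (m n)) T') :
    Commute T T' := by
  have lb : ∀ {m : ℕ → G}, (∀ᶠ n in U, m n ∈ K (M n)) → ∀ᶠ n in U, Z n * Φ.δ (m n) ∈ Φ.N (-2) :=
    fun h => ZN hZ (h.mono fun n h => S.al.lb _ _ h)
  refine ((hT.mul hT' (lb h1)).congr fun c => ?_).unique (hT'.mul hT (lb h2))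
  filter_upwards [hZ, lb h1, lb h2, S.cen k hk m h2 (c + 2), S.cen z S.z_mem m h2 (c + 2),
    S.cen k hk z (S.EK (j := 0) (S.z_E.mono fun _ h => h.1)) (c + 2)] with n z1 a1 a2 c1 c2 c3
  have z2 := N_mul z1.1 z1.1 le_rfl
  have e : ∀ a b : AddMonoid.End V, Z n * a * (Z n * b) =
      Z n * Z n * (a * b) - Z n * Z n * cm a (Φ.δ (z n)) * (Z n * b) := fun a b => by
    have e1 : Φ.δ (z n) * (Z n * b) = b := by rw [← mul_assoc, z1.2.2.1, one_mul]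
    have e2 : ∀ c, Z n * (Φ.δ (z n) * c) = c := fun c => by rw [← mul_assoc, z1.2.1, one_mul]
    simp only [cm, mul_sub, sub_mul, mul_assoc, e1, e2]
    abel
  convert add_mem (sub_mem (N_mul z2 (cm_of_δ (S.al.lb _ _ c1)) (show (c : ℤ) ≤ _ by push_cast; omega))
    (N_mul (N_mul z2 (cm_of_δ (S.al.lb _ _ c3)) le_rfl) a2 (by push_cast; omega)))
    (N_mul (N_mul z2 (neg_mem (cm_of_δ (S.al.lb _ _ c2))) le_rfl) a1 (by push_cast; omega)) using 1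
  rw [e, e]
  simp only [cm]
  noncomm_ring

lemma lim_conj (h1 : ∀ᶠ n in U, k n ∈ E (M n + j)) (h2 : ∀ᶠ n in U, ⁅g, k n⁆ ∈ E (M n + j + 1))
    (hT : Φ.IsLim U (fun n => Z n * Φ.δ (k n)) T)
    (hT' : Φ.IsLim U (fun n => Z n * Φ.δ ⁅g, k n⁆) T') :
    Φ.IsLim U (fun n => Z n * Φ.cj g (Φ.δ (k n))) (T + T') :=
  (hT.add hT').congr fun c => by
    filter_upwards [ZN hZ (S.EN (j := j + 1) h2), S.EN h1, S.inf c] with n a1 a2 a3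
    have e : Φ.cj g (Φ.δ (k n)) = Φ.δ (⁅g, k n⁆ * k n) := by
      rw [δ, map_sub, map_one, cj_apply, ← map_mul, ← map_mul, δ, commutatorElement_def,
        inv_mul_cancel_right]
    convert neg_mem (N_mul a1 a2 (show (c : ℤ) ≤ _ by push_cast; omega)) using 1
    rw [e, δ_mul]; noncomm_ring

lemma lim_act {a₀ : AddMonoid.End V} (hk : k ∈ 𝒦) (h1 : ∀ᶠ n in U, k n ∈ E (M n + j))
    (h0 : Φ.IsLim U (fun n => Z n * Φ.δ ⁅g, z n⁆) a₀) (hT : Φ.IsLim U (fun n => Z n * Φ.δ (k n)) T)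
    (hT' : Φ.IsLim U (fun n => Z n * Φ.δ ⁅g, k n⁆) T') : (1 + a₀) * Φ.cj g T = T + T' := by
  have z0 : ∀ᶠ n in U, z n ∈ E (M n + 0) := S.z_E.mono fun _ h => h.1
  have l1 := S.lim_conj hZ z0 (S.deg z S.z_mem g 0 z0) ((IsLim.const 1).congr fun c =>
    hZ.mono fun n h => by rw [h.2.1, sub_self]; exact zero_mem _) h0
  have l2 : Φ.IsLim U (fun n => Φ.ρ g * (Z n * Φ.δ (k n)) * Φ.ρ g⁻¹) (Φ.cj g T) :=
    ((IsLim.const _).mul hT (.of_forall fun _ => Φ.ρ_mem g)).mul (.const _)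
      ((ZN hZ (S.EN h1)).mono fun n h => N_mul (Φ.ρ_mem g) h le_rfl)
  refine ((l1.mul l2 ((hZ.and (S.EN z0)).mono fun n h => N_mul h.1.1 (conj_mem h.2 g)
    (show (0 : ℤ) ≤ _ by omega))).congr fun c => hZ.mono fun n h => ?_).unique
    (S.lim_conj hZ h1 (S.deg k hk g j h1) hT hT')
  rw [← cj_apply, mul_assoc, ← map_mul, ← mul_assoc, h.2.2.1, one_mul, sub_self]
  exact zero_mem _

omit hZ in
theorem exists_hom : ∃ θ : G →* Nott 2, (∀ n, ∀ g ∈ K (2 * n), θ g ∈ Nott.Jn 2 n) ∧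
    coeff 2 (θ x).ser = 1 ∧ (θ y ∈ Nott.Jn 2 2 ∧ coeff 3 (θ y).ser = 1) ∧ θ u ∈ Nott.Jn 2 5 := by
  obtain ⟨Z, hZ⟩ := S.exists_Z
  let A : ℕ → Set (AddMonoid.End V) := fun j => {T | ∃ k ∈ 𝒦, (∀ᶠ n in U, k n ∈ E (M n + j)) ∧
    Φ.IsLim U (fun n => Z n * Φ.δ (k n)) T}
  have ex : ∀ {m : ℕ → G} {j : ℕ}, (∀ᶠ n in U, m n ∈ E (M n + j)) →
      ∃ T, Φ.IsLim U (fun n => Z n * Φ.δ (m n)) T := fun h => exists_lim U (ZN hZ (S.EN h))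
  have mem : ∀ {m : ℕ → G} {j : ℕ} {T}, (∀ᶠ n in U, m n ∈ E (M n + j)) →
      Φ.IsLim U (fun n => Z n * Φ.δ (m n)) T → T ∈ Φ.N (2 * j) := fun h h' => h'.mem (ZN hZ (S.EN h))
  have z0 : ∀ᶠ n in U, z n ∈ E (M n + 0) := S.z_E.mono fun _ h => h.1
  have k0 : ∀ᶠ n in U, k₁ n ∈ E (M n + 1) := S.k_E.mono fun _ h => h.1
  have act : ∀ (g : G) r, (∀ k ∈ 𝒦, ∀ j, (∀ᶠ n in U, k n ∈ E (M n + j)) →
      ∀ᶠ n in U, ⁅g, k n⁆ ∈ E (M n + (j + r))) → Φ.Act A g r := fun g r hg => by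
    obtain ⟨a₀, h0⟩ := ex (hg z S.z_mem 0 z0)
    refine ⟨a₀, ⟨_, S.comm_mem z S.z_mem g, by simpa using hg z S.z_mem 0 z0, h0⟩, ?_⟩
    rintro j a ⟨k, hk, h1, h2⟩
    obtain ⟨a', h3⟩ := ex (hg k hk j h1)
    exact ⟨a', ⟨_, S.comm_mem k hk g, hg k hk j h1, h3⟩, S.lim_act hZ hk h1 h0 h2 h3⟩
  obtain ⟨τ, hτ⟩ := ex k0
  have kw := S.sym_one S.k_mem k0 (S.k_E.mono fun _ h => h.2)
  have t0 : τ ∈ Φ.N 2 := mem k0 hτ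
  have t1 := lim_s0 hZ (d := 2) hτ (kw.mono fun _ h => ⟨h.1, fun i => (h.2 i).1⟩)
  have t2 := lim_s1 hZ (d := 2) hτ (kw.mono fun _ h => ⟨h.1, fun i => (h.2 i).2⟩)
  obtain ⟨D, hD⟩ := (ev_exists (X := fun _ => G)).1 ((S.inf w).mono fun n h => (S.al.ih h).1)
  obtain ⟨Q, hQ⟩ := (ev_exists (X := fun _ => G)).1 ((S.inf w).mono fun n h => (S.al.ih h).2.1)
  have D0 : ∀ᶠ n in U, D n ∈ E (M n + 0) := hD.mono fun _ h => h.1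
  have Q0 : ∀ᶠ n in U, Q n ∈ E (M n + 0) := hQ.mono fun _ h => h.1
  obtain ⟨D', hD'⟩ := ex D0
  obtain ⟨Q', hQ'⟩ := ex Q0
  have F : FD Φ A τ Q' D' y u := ⟨S.two, fun ⟨_, _, h1, h2⟩ => mem h1 h2, ⟨_, S.k_mem, k0, hτ⟩, t1,
    hQ'.mem (ZN hZ (hQ.mono fun _ h => h.2.1)),
    fun i => (lim_s0 hZ hQ' (hQ.mono fun _ h => h.2) i).trans (one_smul _ _),
    hD'.mem (ZN hZ (hD.mono fun _ h => h.2.1)), lim_s0 hZ hD' (hD.mono fun _ h => h.2),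
    fun ⟨_, h1, h2, h3⟩ ⟨_, _, h4, h5⟩ => S.lim_comm hZ h1 (S.EK h2) (S.EK h4) h3 h5,
    fun ⟨_, h1, h2, h3⟩ => S.lim_comm hZ h1 (S.EK h2) (S.EK Q0) h3 hQ',
    fun ⟨_, h1, h2, h3⟩ => S.lim_comm hZ h1 (S.EK h2) (S.EK D0) h3 hD',
    fun g => act g 1 fun k hk j => S.deg k hk g j, act y 2 fun k hk j => S.y_deg hk,
    act u 3 fun k hk j => S.u_deg hk, S.al.wy, S.al.wu⟩
  obtain ⟨θ, h1, h2⟩ := F.exists_hom
  have key : ∀ (g : G) (r : ℕ), (∀ᶠ n in U, ⁅g, z n⁆ ∈ E (M n + r)) → ∀ a,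
      Φ.IsLim U (fun n => Z n * Φ.δ ⁅g, k₁ n⁆) a → Φ.cj g τ - τ - a ∈ Φ.N (2 * r + 2) :=
    fun g r hg a ha => by
    obtain ⟨a₀, h0⟩ := ex hg
    have := S.lim_act hZ S.k_mem k0 h0 hτ ha
    rw [add_mul, one_mul] at this
    rw [sub_sub, ← this, sub_add_cancel_left]
    exact neg_mem (N_mul (mem hg h0) (conj_mem t0 g) le_rfl)
  refine ⟨θ, fun n g hg => h1 g n ?_, h2 x 1 1 le_rfl ?_ ?_, ?_, ?_⟩
  · rcases n.eq_zero_or_pos with rfl | hn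
    · exact N_mono (cj_sub_mem t0 g) (by omega)
    · exact conj_sub_mem (cm_mem (S.al.lb _ _ hg) t0 (by push_cast; omega))
  rotate_left 2
  · have y1 := S.y_deg S.k_mem k0
    obtain ⟨a, ha⟩ := ex y1
    have a0 : a ∈ Φ.N 6 := mem y1 ha
    have a1 := lim_s0 hZ (d := 6) ha ((S.sym_one (S.comm_mem _ S.k_mem y) y1 S.yk).mono
      fun _ h => ⟨h.1, fun i => (h.2 i).1⟩)
    have a2 := key y 3 S.yz a ha
    have a3 : Φ.cj y τ - τ ∈ Φ.N 6 := by simpa using add_mem (N_mono a2 (by omega)) a0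
    exact ⟨h1 y 2 (N_mono a3 (by omega)), h2 y 2 1 (by omega) a3 fun i =>
      (s0_congr a0 a2 (by omega) i).trans ((a1 i).trans (one_smul _ _).symm)⟩
  · have u1 : ∀ᶠ n in U, ⁅u, k₁ n⁆ ∈ E (M n + 6) := (S.uk.and (S.y_deg (S.comm_mem _ S.k_mem y)
      (S.y_deg S.k_mem k0))).mono fun _ h => h.1 h.2
    obtain ⟨a, ha⟩ := ex u1
    have a2 := add_mem (N_mono (d' := 11) (key u 5 S.uz a ha) (by omega))
      (N_mono (mem u1 ha) (by omega))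
    exact h1 u 5 (by simpa using a2)
  all_goals
    have c1 : cm (Φ.δ x) τ ∈ Φ.N 4 := N_succ (d := 3) (cm_mem S.wx.1 t0 (by omega)) (fun i => by
      simp only [s0_cm S.wx.1 t0 (show (3 : ℤ) = _ by omega), S.wx.2, t1, one_mul, mul_one,
        Φ.par_even (i := i) (j := i + 2) 1 (by omega), mat_add_self]) (by omega)
  · exact conj_sub_mem c1
  · intro i
    refine (s0_conj_sub c1 i).trans ?_
    rw [← s1_succ (d := 3) c1 (by omega), s1_cm S.wx.1 t0 (by omega)]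
    simp only [S.wx.2, t1, t2, one_mul, mul_one, mul_zero, zero_mul, add_zero, zero_add, S.ch_two]
    rw [add_smul, add_right_comm, mat_add_self, zero_add]

end SQ

end Pool.Agent.Lib.MP_ffb54b_al.P2
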