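import Pool.Agent.Lib.MP_ffb54b_al.P2.Glue2b
import Pool.Agent.Lib.MP_ffb54b_al.P2.Phi

set_option autoImplicit false
set_option linter.unusedSectionVars false

namespace Pool.Agent.Lib.MP_ffb54b_al.P2

open Finset Filter FS Fam
open scoped commutatorElement

universe u

variable {Γ : Type u} [Group Γ] {U : Ultrafilter ℕ}

namespace P2H

variable {K : ℕ → Subgroup Γ} {x y u h q g : Γ} {c : ℕ → Γ → W2 × W2} {σ : ℕ → Bil}
  {e : Bool → ℕ → Γ} {ch : ℕ → ZMod 2} {t c₆ c₇ c₈ : ZMod 2} {w₀ w w₁ n d j : ℕ}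
  (P : P2H U K x y u h q c σ e ch t c₆ c₇ c₈ w₀ w w₁) {ν : Pos U} {k : ℕ → Γ}

/-- sequences of central type. -/
def KS : Set (ℕ → Γ) := {k | k ∈ Ev (fun _ : ℕ => K) (pos U id + pos U id) ∧
  P.H.cls (pos U id + pos U id) k ∈ P.H.Ks (cst Γ y) (pos U id + pos U id)}

include P

lemma inf : Inf (pos U id + pos U id) := P.H.free.inf_id.add P.H.free.inf_id

omit P in
lemma lev_two : ∀ᶠ n in U, lev (pos U id + pos U id) n = 2 * n := by
  filter_upwards [lev_add (pos_nonneg (U := U) id) (pos_nonneg id), lev_pos (U := U) id] with n h1 h2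
  rw [h1, h2, two_mul]; rfl

lemma mem_iff (hk : k ∈ Ev (fun _ : ℕ => K) (pos U id + pos U id)) (j : ℕ) :
    P.H.cls (pos U id + pos U id) k ∈ P.H.F (pos U id + pos U id + j) ↔
      ∀ᶠ n in U, k n ∈ K (2 * n + j) :=
  (P.H.cls_mem_nat P.inf hk j).trans (eventually_congr (lev_two.mono fun n h => by rw [h]))

lemma KS_K (hk : k ∈ P.KS) (h1 : ∀ᶠ n in U, k n ∈ K (2 * n + j)) :
    P.H.cls (pos U id + pos U id) k ∈ P.H.Ks (cst Γ y) (pos U id + pos U id + j) :=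
  P.eh.s.K_of_F P.inf hk.2 j ((P.mem_iff hk.1 j).2 h1)

lemma KS_comm (hk : k ∈ P.KS) (g : Γ) : (fun n => ⁅g, k n⁆) ∈ P.KS :=
  ⟨P.H.comm_Ev (cst Γ g) hk.1, by
    have := P.eh.s.A_K P.eh.exKP_all (cst Γ g) P.inf hk.2
    rwa [P.H.pns.ρ_sub_cls _ P.inf hk.1] at this⟩

lemma KS_cW (hk : k ∈ P.KS) (h1 : ∀ᶠ n in U, k n ∈ K (2 * n + j)) :
    ∀ᶠ n in U, (c (2 * n + j) (k n)).1 = 0 := by
  have hl : ∀ᶠ n in U, lev (pos U id + pos U id + j : Pos U) n = 2 * n + j := by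
    filter_upwards [lev_add_nat P.inf.nonneg j, lev_two (U := U)] with n h1 h2
    rw [h1, h2]
  have h2 := P.eh.s.K_cW (P.inf.add_nat j) (P.KS_K hk h1)
  have h3 := P.H.lead_cls (P.H.loc_of_cls (cls_of_s1g fun _ => P.S)) (P.inf.add_nat j)
    ((mem_Ev_of hl).2 h1)
  rw [Fam.cls, P.H.pns.cls_near (Near.add_nat _ j)] at h2
  filter_upwards [h3, hl] with n h4 h5
  rw [← h5, h4]
  exact h2

lemma KS_KD (hk : k ∈ P.KS) (h1 : ∀ᶠ n in U, k n ∈ K (2 * n + j))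
    (hg : P.H.KD (cst Γ y) (cst Γ g) d) : ∀ᶠ n in U, ⁅g, k n⁆ ∈ K (2 * n + j + d) := by
  have h2 := hg (P.inf.add_nat j) (P.KS_K hk h1)
  rw [P.H.pns.ρ_sub_cls _ P.inf hk.1, add_assoc, ← Nat.cast_add] at h2
  simpa only [add_assoc] using (P.mem_iff (P.KS_comm hk g).1 (j + d)).1 h2

lemma KS_cen (hk : k ∈ P.KS) {m : ℕ → Γ} (hm : ∀ᶠ n in U, m n ∈ K (2 * n)) (d : ℕ) :
    ∀ᶠ n in U, ⁅k n, m n⁆ ∈ K (2 * (2 * n) + d) := by
  have hm' : m ∈ Ev (fun _ : ℕ => K) (pos U id + pos U id) := (mem_Ev_of lev_two).2 hm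
  have h1 := P.eh.s.K_central P.eh.exKP_all P.inf hk.2 (P.H.cls (pos U id + pos U id) m)
  rw [P.H.pns.lie_cls P.inf P.inf hk.1 hm'] at h1
  filter_upwards [(P.H.cls_mem_nat (P.inf.add P.inf) (P.H.pns.comm hk.1 hm') d).1
    (by rw [Fam.cls, h1]; exact zero_mem _), lev_add P.inf.nonneg P.inf.nonneg, lev_two (U := U)]
    with n h2 h3 h4
  rw [h3, h4, ← two_mul] at h2
  exact h2

lemma KS_e (p : Bool) : (fun n => ⁅e true n, e p (n + 1)⁆) ∈ P.KS := by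
  have hi := P.H.free.inf_id
  have h1 : e true ∈ Ev (fun _ : ℕ => K) (pos U id) :=
    mem_Ev_pos.2 ((P.H.free w₀).mono fun n h => P.E.e_mem true n h)
  have h2 : (fun n => e p (n + 1)) ∈ Ev (fun _ : ℕ => K) (pos U id) :=
    mem_Ev_pos.2 ((P.H.free w₀).mono fun n h =>
      P.L.ns.anti n.le_succ (P.E.e_mem p (n + 1) (by omega)))
  have h3 := P.eh.s.lie_K P.eh.exKP_all hi hi (P.H.pns.cls_mem hi h1) (P.H.pns.cls_mem hi h2)
  rw [P.H.pns.lie_cls hi hi h1 h2] at h3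
  exact ⟨P.H.pns.comm h1 h2, h3⟩

lemma c_e (p : Bool) (h6 : 6 ≤ n) (hn : w₀ ≤ n) : ⁅e true n, e p (n + 1)⁆ ∈ K (2 * n + 1) ∧
    c (2 * n + 1) ⁅e true n, e p (n + 1)⁆ = (0, σ (2 * n + 1) (ee true) (ee p)) := by
  have h1 := P.E.e_mem true n hn
  have h2 := P.E.e_mem p (n + 1) (by omega)
  have h3 := P.S.br n (n + 1) h6 (by omega) _ h1 _ h2
  rw [P.E.e_cls _ _ hn, P.E.e_cls _ _ (by omega), show n + (n + 1) = 2 * n + 1 by ring] at h3
  refine ⟨P.L.ns.comm' h1 h2 (by omega), h3.trans (Prod.ext rfl ?_)⟩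
  have h4 := P.E.bb (2 * n + 1) (by omega)
  cases p
  · simp [vb, h4]
  · simp [vb, h4, P.S.symm _ (ee false) (ee true), add_assoc, w2_add_self]

lemma indep (h6 : 6 ≤ n) (hn : w₀ ≤ n) {s₁ s₂ : ZMod 2}
    (h : s₁ • σ (2 * n + 1) (ee true) (ee true) + s₂ • σ (2 * n + 1) (ee true) (ee false) = 0) :
    s₁ = 0 ∧ s₂ = 0 :=
  Good.bb ⟨P.S.symm _, P.S.σ_span _ (by omega) (odd_two_mul_add_one n)⟩ (P.E.bb _ (by omega)) h

theorem sqd (hν : Inf ν) : SQ (P.Φ hν) K (EE K x y u) x y u h q w U (fun n => 2 * n) P.KS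
    (fun n => ⁅e true n, e true (n + 1)⁆) (fun n => ⁅e true n, e false (n + 1)⁆)
    fun i => chL U ch (ν + i) where
  al := P.al hν
  two := P.two hν
  inf c := (P.H.free c).mono fun n h => by omega
  comm_mem _ hk g := P.KS_comm hk g
  cen _ hk _ hm d := P.KS_cen hk hm d
  deg k hk g j h1 := by
    have h2 : ∀ᶠ n in U, k n ∈ K (2 * n + j) := by
      filter_upwards [h1, P.H.free 1] with n h1 h2 using EE_le P.L (by omega) h1
    filter_upwards [h2, P.KS_cW hk h2, P.H.free 3] with n h3 h4 h5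
    exact le_EE (P.L.ns.anti (by omega) (P.S.cen 1 _ le_rfl (by omega) g (P.L.mem_one g) _ h3 h4))
  ke k hk j h1 := by
    have h2 : ∀ᶠ n in U, k n ∈ K (2 * n + j) := by
      filter_upwards [h1, P.H.free 1] with n h1 h2 using EE_le P.L (by omega) h1
    filter_upwards [h1, P.KS_KD hk h2 P.KDu, P.KS_KD hk h2 P.KDh, P.KS_KD hk h2 P.KDq]
      with n h3 h4 h5 h6 using ⟨h3, h4, h5, h6⟩
  z_mem := P.KS_e true
  z_E := by
    filter_upwards [P.H.free 6, P.H.free w₀] with n h1 h2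
    obtain ⟨h3, h4⟩ := P.c_e true h1 h2
    refine ⟨le_EE h3, fun h5 => ?_⟩
    obtain ⟨-, -, s, h6⟩ := (mem_EE P.L P.S (by omega)).1 h5
    rw [h4] at h6
    exact one_ne_zero (P.indep h1 h2 (s₁ := 1) (s₂ := s) (by
      rw [one_smul, ← h6, w2_add_self])).1
  k_mem := P.KS_e false
  k_E := by
    filter_upwards [P.H.free 6, P.H.free w₀] with n h1 h2
    obtain ⟨h3, h4⟩ := P.c_e false h1 h2
    refine ⟨(mem_EE P.L P.S (by omega)).2 ⟨h3, by rw [h4]; rfl, 1, by rw [h4, one_smul]⟩,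
      fun h5 => ?_⟩
    have h6 := ((P.S.cls (2 * n + 1) (by omega)).zero h3).2 (EE_le P.L (by omega) h5)
    rw [h4] at h6
    exact one_ne_zero (P.indep h1 h2 (s₁ := 0) (s₂ := 1) (by
      rw [one_smul, zero_smul, zero_add]; exact congrArg Prod.snd h6)).2
  yz := (P.H.free w₀).mono fun n h => le_EE (P.E.killY n h)
  yk := (P.H.free w₁).mono fun n h h1 => P.A.y1 n h (EE_le P.L (by omega) h1)
  uz := (P.H.free w₀).mono fun n h => le_EE (P.E.killU n h)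
  uk := by
    refine Ultrafilter.eventually_imp.2 fun h1 => ?_
    have h2 : ∀ᶠ n in U, ⁅u, ⁅e true n, e false (n + 1)⁆⁆ ∈ K (2 * n + 6) := by
      filter_upwards [h1, P.H.free w₁] with n h1 h2 using P.A.ue n h2 h1
    filter_upwards [h2, P.KS_cW (P.KS_comm (P.KS_e false) u) h2, P.H.free 1] with n h3 h4 h5
    exact (mem_EE P.L P.S (by omega)).2 ⟨h3, congrFun h4 true, 0, by
      rw [zero_smul]; exact P.S.even _ (by omega) ⟨n + 3, by ring⟩ _⟩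
  wx := P.wx hν
  ch_two i := by
    have hi := hν.add_int i
    rw [show ν + (i + 2 : ℤ) = ν + i + 1 + 1 by push_cast; ring, P.eh.ch_succ hi.succ,
      P.eh.ch_succ hi, map_add _ _ 1, map_one, add_assoc, ← add_assoc (red 2 _),
      CharTwo.add_self_eq_zero, zero_add]

end P2H

/-- PART II: the homomorphism to the Nottingham group. -/
theorem part2 {K : ℕ → Subgroup Γ} {x y u h q : Γ} {c : ℕ → Γ → W2 × W2} {σ : ℕ → Bil}
    {e : Bool → ℕ → Γ} {ch : ℕ → ZMod 2} {t c₆ c₇ c₈ : ZMod 2} {w₀ w w₁ : ℕ} (L : LCS K x y u)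
    (S : S1G K x y u c σ) (E : EG K x y u c σ e ch t c₆ c₇ c₈ w₀) (A : AG K x y u h q e w w₁) :
    ∃ θ : Γ →* Nott 2, (∀ n, ∀ g ∈ K (2 * n), θ g ∈ Nott.Jn 2 n) ∧
      PowerSeries.coeff 2 (θ x).ser = 1 ∧
      (θ y ∈ Nott.Jn 2 2 ∧ PowerSeries.coeff 3 (θ y).ser = 1) ∧ θ u ∈ Nott.Jn 2 5 :=
  (P2H.sqd ⟨L, S, E, A, fam_of_lcs free_hyper fun _ => L⟩ free_hyper.inf_id).exists_hom

end Pool.Agent.Lib.MP_ffb54b_al.P2
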