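import Pool.Agent.Lib.MP_ffb54b_al.P2.Onto4
import Pool.Agent.Lib.MP_ffb54b_al.P2.Final1
import Pool.Agent.Lib.MP_ffb54b_al.P2.Glue2

set_option autoImplicit false

namespace Pool.Agent.Lib.MP_ffb54b_al.P2.O4

universe u

/-- Rigidity of the Nottingham group in characteristic two. -/
theorem rigid2 : ∃ n₀, ∀ (G : Type u) [Group G] [TopologicalSpace G] [IsTopologicalGroup G],
    IsApprox G 2 n₀ → (∀ i, 1 ≤ i → Nonempty (Factor G i ≃* Factor (Nott 2) i)) →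
    Nonempty (G ≃ₜ* Nott 2) := by
  obtain ⟨x', y', u', hx, hy, hu, L, B, hK⟩ := lcsJ
  obtain ⟨n, hn⟩ := exists_part1.{u} isOpen_gamma index_gamma_ne hx hy hu L B hK
  refine ⟨n, fun G _ _ _ hG hH => ?_⟩
  obtain ⟨x, y, u, c, σ, e, ch, t, c₆, c₇, c₈, h, q, w, w₀, l, S, E, A⟩ := hn G hG hH
  obtain ⟨θ, h0, h1, h2, h3⟩ := part2 l S E A
  exact onto hG.1 l S (index_eq hH) θ h0 h1 h2 h3 A.rel

end Pool.Agent.Lib.MP_ffb54b_al.P2.O4
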