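import Pool.Agent.Lib.MP_ffb54b_al.P2.AL
import Pool.Agent.Lib.MP_ffb54b_al.Rigid

set_option autoImplicit false
set_option linter.unusedSectionVars false

namespace Pool.Agent.Lib.MP_ffb54b_al.P2

open FS GA PowerSeries Filter

universe u v

lemma zmod2 (s : ZMod 2) : s = 0 ∨ s = 1 := by revert s; decide

lemma dvd_sub_lead {k : ℕ} {f : (ZMod 2)⟦X⟧} (h : X ^ k ∣ f) :
    X ^ (k + 1) ∣ f - C (coeff k f) * X ^ k := X_pow_dvd_iff.2 fun m hm => by
  rw [map_sub, coeff_C_mul, coeff_X_pow]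
  split_ifs with e
  · simp [e]
  · simpa using X_pow_dvd_iff.1 h m (by omega)

namespace FS

variable {V : Type u} [AddCommGroup V] {Φ : FS V} {τ T T' e : AddMonoid.End V} {d : ℤ}

lemma N_sep' (h : ∀ n : ℕ, T ∈ Φ.N (n + d)) : T = 0 :=
  N_sep fun n => N_mono (h (n + (-d).toNat)) (by push_cast; omega)

lemma charP (Φ : FS V) (h2 : (2 : AddMonoid.End V) = 0) : CharP (AddMonoid.End V) 2 := by
  have : Nontrivial (AddMonoid.End V) := ⟨1, 0, fun h => mat_one_ne ((s0_one (Φ := Φ) 0).symm.trans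
    (s0_deep (d' := 1) (h ▸ zero_mem _) le_rfl 0))⟩
  exact CharTwo.of_one_ne_zero_of_two_eq_zero one_ne_zero h2

lemma exists_ev (h2 : (2 : AddMonoid.End V) = 0) (hτ : τ ∈ Φ.N 2) :
    ∃ ev : (ZMod 2)⟦X⟧ →+* AddMonoid.End V, ev X = τ ∧ ∀ (k : ℕ) f, X ^ k ∣ f → ev f ∈ Φ.N (2 * k) := by
  have := Φ.charP h2
  let pe : Polynomial (ZMod 2) →+* AddMonoid.End V :=
    Polynomial.eval₂RingHom' (ZMod.castHom (dvd_refl 2) _) τ fun a => by
      rcases zmod2 a with rfl | rfl <;> simp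
  have pX : pe Polynomial.X = τ := Polynomial.eval₂_X _ _
  have p0 : ∀ p, pe p ∈ Φ.N 0 := fun p => by
    induction p using Polynomial.induction_on with
    | C a => rcases zmod2 a with rfl | rfl <;> simp [N_one]
    | add p q hp hq => rw [map_add]; exact add_mem hp hq
    | monomial n a h => rw [pow_succ, ← mul_assoc, map_mul, pX]; exact N_mul h hτ (by omega)
  have p1 : ∀ (k : ℕ) (p q : Polynomial (ZMod 2)), X ^ k ∣ (p : (ZMod 2)⟦X⟧) - (q : (ZMod 2)⟦X⟧) →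
      pe p - pe q ∈ Φ.N (2 * k) := fun k p q h => by
    obtain ⟨r, hr⟩ : Polynomial.X ^ k ∣ p - q := Polynomial.X_pow_dvd_iff.2 fun m hm => by
      simpa using X_pow_dvd_iff.1 h m hm
    rw [← map_sub, hr, map_mul, map_pow, pX]
    exact N_mul (N_pow hτ k) (p0 r) (by omega)
  have tr : ∀ (n : ℕ) (f : (ZMod 2)⟦X⟧), X ^ n ∣ f - (trunc n f : (ZMod 2)⟦X⟧) := fun n f =>
    X_pow_dvd_iff.2 fun m hm => by simp [coeff_trunc, hm]
  choose ev hev using fun f : (ZMod 2)⟦X⟧ => exists_lim (Φ := Φ) (S := fun n => pe (trunc n f))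
    (hyperfilter ℕ) (.of_forall fun n => p0 _)
  have key : ∀ (k : ℕ) (f : (ZMod 2)⟦X⟧) (p : Polynomial (ZMod 2)), X ^ k ∣ f - (p : (ZMod 2)⟦X⟧) → ev f - pe p ∈ Φ.N (2 * k) :=
    fun k f p h => by
    rw [sub_eq_add_neg]
    refine ((hev f).add (.const _)).mem ((free_hyper k).mono fun n hn => ?_)
    rw [← sub_eq_add_neg]
    refine p1 k _ _ ?_
    simpa using dvd_sub h ((pow_dvd_pow _ hn).trans (tr n f))
  have e0 : ∀ f, ev f ∈ Φ.N 0 := fun f => by simpa using key 0 f 0 (by simp)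
  have ep : ∀ p : Polynomial (ZMod 2), ev p = pe p := fun p => sub_eq_zero.1
    (N_sep fun n => N_mono (key n p p (by simp)) (by omega))
  suffices h : (∀ f g (n : ℕ), ev (f * g) - ev f * ev g ∈ Φ.N n) ∧
      ∀ f g (n : ℕ), ev (f + g) - (ev f + ev g) ∈ Φ.N n from
    ⟨⟨⟨⟨ev, by simpa using ep 1⟩, fun f g => sub_eq_zero.1 (N_sep (h.1 f g))⟩,
      by simpa using ep 0, fun f g => sub_eq_zero.1 (N_sep (h.2 f g))⟩,
      by simpa [pX] using ep Polynomial.X, fun k f h => by simpa using key k f 0 (by simpa using h)⟩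
  refine ⟨fun f g n => ?_, fun f g n => ?_⟩
  · have h1 := key n (f * g) (trunc n f * trunc n g) (by
      convert dvd_add ((tr n f).mul_right g) ((tr n g).mul_left (trunc n f)) using 1
      push_cast; ring)
    convert N_mono (sub_mem (sub_mem h1 (N_mul (key n f _ (tr n f)) (e0 g) (by omega)))
      (N_mul (p0 (trunc n f)) (key n g _ (tr n g)) (by omega))) (show (n : ℤ) ≤ _ by omega) using 1
    simp only [map_mul]; noncomm_ring
  · have h1 := key n (f + g) (trunc n f + trunc n g) (by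
      convert dvd_add (tr n f) (tr n g) using 1
      push_cast; ring)
    convert N_mono (sub_mem (sub_mem h1 (key n f _ (tr n f))) (key n g _ (tr n g)))
      (show (n : ℤ) ≤ _ by omega) using 1
    simp only [map_add]; abel

/-- Evaluation of power series at an operator of degree two with symbol one. -/
structure IsEv (Φ : FS V) (τ : AddMonoid.End V) (ev : (ZMod 2)⟦X⟧ →+* AddMonoid.End V) : Prop where
  evX : ev X = τ
  mem : ∀ (k : ℕ) f, PowerSeries.X ^ k ∣ f → ev f ∈ Φ.N (2 * k)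
  sym : ∀ i, Φ.s0 τ 2 i = 1

namespace IsEv

variable {ev : (ZMod 2)⟦X⟧ →+* AddMonoid.End V} (E : Φ.IsEv τ ev) {f : (ZMod 2)⟦X⟧} {k j j' : ℕ}
  {m m' : ℤ}
include E

lemma τ_mem : τ ∈ Φ.N 2 := E.evX ▸ E.mem 1 _ (by simp)

lemma s0_pow : ∀ (k : ℕ) (i : ℤ), Φ.s0 (τ ^ k) (2 * k) i = 1
  | 0, i => by simpa using s0_one i
  | k + 1, i => by
    rw [pow_succ, s0_mul (d := 2 * k) (N_mono (N_pow E.τ_mem k) (by omega)) E.τ_mem
      (by push_cast; omega), s0_pow, E.sym, mul_one]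

lemma s0_ev (h : PowerSeries.X ^ k ∣ f) (i : ℤ) : Φ.s0 (ev f) (2 * k) i = coeff k f • 1 := by
  rw [← s0_congr (E.mem k _ h) (T' := ev (C (coeff k f) * PowerSeries.X ^ k)) (d' := 2 * (k + 1 : ℕ))
    (by rw [← neg_sub, ← map_sub]; exact neg_mem (E.mem _ _ (dvd_sub_lead h))) (by push_cast; omega)]
  rcases zmod2 (coeff k f) with e | e <;> rw [e]
  · simpa using s0_deep (d' := 2 * k + 1) (zero_mem _) le_rfl i
  · simpa [E.evX] using E.s0_pow k i

lemma s0_ev_mul (he : e ∈ Φ.N 0) (h : PowerSeries.X ^ k ∣ f) (i : ℤ) :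
    Φ.s0 (ev f * e) (2 * k) i = coeff k f • Φ.s0 e 0 i := by
  rw [s0_mul (E.mem k f h) he (by omega), E.s0_ev h, smul_mul_assoc, one_mul]

lemma dvd_of_mem (he : e ∈ Φ.N 0) (he' : Φ.s0 e 0 0 ≠ 0) (h : ev f * e ∈ Φ.N m) :
    ∀ k : ℕ, 2 * k ≤ m + 1 → PowerSeries.X ^ k ∣ f
  | 0, _ => by simp
  | k + 1, hk => by
    have h1 := dvd_of_mem he he' h k (by push_cast at hk; omega)
    have h2 := E.s0_ev_mul he h1 0
    rw [s0_deep h (by push_cast at hk; omega), eq_comm, smul_eq_zero, or_iff_left he'] at h2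
    simpa [h2] using dvd_sub_lead h1

lemma commute (hT : T ∈ Φ.N d) (h : Commute τ T) (f : (ZMod 2)⟦X⟧) : Commute (ev f) T :=
  haveI : Fact (Nat.Prime 2) := ⟨Nat.prime_two⟩
  sub_eq_zero.1 (dense_ext (AddMonoidHom.mk' (fun f => ev f * T - T * ev f) fun f g => by
    simp only [map_add]; noncomm_ring) (fun n => Φ.N (n + d)) (fun n f hf =>
      sub_mem (N_mul (E.mem n f hf) hT (by omega)) (N_mul hT (E.mem n f hf) (by omega)))
    (fun n => by simp [E.evX, (h.pow_left n).eq]) (fun _ => N_sep') f)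

omit E in
variable (Φ ev) in
/-- Operators close to a power series. -/
def _root_.Pool.Agent.Lib.MP_ffb54b_al.P2.FS.Ap (j : ℕ) (m : ℤ) : AddSubgroup (AddMonoid.End V) where
  carrier := {T | ∃ f, PowerSeries.X ^ j ∣ f ∧ T - ev f ∈ Φ.N (2 * j + m)}
  zero_mem' := ⟨0, by simp, by simp⟩
  add_mem' := fun ⟨f, h1, h2⟩ ⟨g, h3, h4⟩ => ⟨f + g, dvd_add h1 h3, by
    convert add_mem h2 h4 using 1
    rw [map_add]; abel⟩
  neg_mem' := fun ⟨f, h1, h2⟩ => ⟨-f, h1.neg_right, by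
    convert neg_mem h2 using 1
    rw [map_neg]; abel⟩

omit E in
lemma Ap_of_N (h : T ∈ Φ.N (2 * j + m)) : T ∈ Φ.Ap ev j m := ⟨0, by simp, by simpa using h⟩

omit E in
lemma Ap_mono (h : T ∈ Φ.Ap ev j m) (h1 : j' ≤ j) (h2 : 2 * j' + m' ≤ 2 * j + m) :
    T ∈ Φ.Ap ev j' m' := h.imp fun _ h => ⟨(pow_dvd_pow _ h1).trans h.1, N_mono h.2 h2⟩

omit E in
lemma Ap_ev (h : PowerSeries.X ^ j ∣ f) : ev f ∈ Φ.Ap ev j m := ⟨f, h, by simp⟩

lemma Ap_N (h : T ∈ Φ.Ap ev j m) (hm : 0 ≤ m) : T ∈ Φ.N (2 * j) := by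
  obtain ⟨f, h1, h2⟩ := h
  simpa using add_mem (N_mono h2 (by omega)) (E.mem j f h1)

lemma Ap_mul (h : T ∈ Φ.Ap ev j m) (h' : T' ∈ Φ.Ap ev j' m) (hm : 0 ≤ m) :
    T * T' ∈ Φ.Ap ev (j + j') m := by
  have h0 := E.Ap_N h' hm
  obtain ⟨f, h1, h2⟩ := h
  obtain ⟨g, h3, h4⟩ := h'
  refine ⟨f * g, by rw [pow_add]; exact mul_dvd_mul h1 h3, ?_⟩
  convert add_mem (N_mul h2 h0 (show 2 * ((j + j' : ℕ) : ℤ) + m ≤ _ by push_cast; omega))
    (N_mul (E.mem j f h1) h4 (by push_cast; omega)) using 1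
  rw [map_mul]; noncomm_ring

lemma Ap_sym (h : T ∈ Φ.Ap ev j m) (h1 : T ∈ Φ.N (2 * k)) (h2 : 2 * k + 1 ≤ 2 * j + m) :
    ∃ s : ZMod 2, ∀ i, Φ.s0 T (2 * k) i = s • 1 := by
  obtain ⟨f, -, h3⟩ := h
  have h4 : ev f * 1 ∈ Φ.N (2 * k) := by simpa using sub_mem h1 (N_mono h3 (by omega))
  have h5 := E.dvd_of_mem N_one (by rw [s0_one]; exact one_ne_zero) h4 k (by omega)
  exact ⟨coeff k f, fun i => by rw [s0_congr (E.mem k f h5) h3 h2, E.s0_ev h5]⟩

lemma exists_eq (he : e ∈ Φ.N 0) (h : ∀ n : ℕ, ∃ f, (T - ev f) * e ∈ Φ.N n) :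
    ∃ f, T * e = ev f * e := by
  choose f hf using h
  refine ⟨PowerSeries.mk fun k => ulim (hyperfilter ℕ) fun n => coeff k (f n), sub_eq_zero.1 (N_sep (Φ := Φ) fun m => ?_)⟩
  obtain ⟨n, h1, h2⟩ := ((free_hyper m).and ((eventually_all_finset (Finset.range m)).2 fun k _ =>
    ulim_spec (hyperfilter ℕ) fun n => coeff k (f n))).exists
  have h3 := E.mem m (f n - PowerSeries.mk fun k => ulim (hyperfilter ℕ) fun n => coeff k (f n))
    (X_pow_dvd_iff.2 fun k hk => by simp [h2 k (Finset.mem_range.2 hk)])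
  convert add_mem (N_mono (hf n) (show (m : ℤ) ≤ n by omega)) (N_mul h3 he (by omega)) using 1
  rw [map_sub]; noncomm_ring

end IsEv

end FS

lemma Ea_ee (p : Bool) : Ea (ee p) = if p then ee true else 0 := mkM_ee _ _

lemma mat_diag {S : Mat} {t : ZMod 2} (h : Ea * S + S * Ea = t • 1) (h1 : ∀ s : ZMod 2, S ≠ s • 1) :
    S ≠ 0 ∧ S * S = S ∧ ∀ M : Mat, ∃ s : ZMod 2, S * M * S = s • S := by
  have Ea_app : ∀ w, Ea w = w true • ee true := fun w => by simp [Ea, mkM]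
  have a1 := congrFun (LinearMap.congr_fun h (ee true)) false
  have a2 := congrFun (LinearMap.congr_fun h (ee false)) true
  simp [Ea_app, ee] at a1 a2
  have e : ∀ w, S w = (S (ee true) true * w true) • ee true + (S (ee false) false * w false) • ee false :=
    fun w => by
    conv_lhs => rw [W2.eq_sum w, map_add, map_smul, map_smul, W2.eq_sum (S (ee true)),
      W2.eq_sum (S (ee false))]
    simp only [ee] at a1 a2 ⊢
    rw [a1, a2]; module
  have h2 : S (ee true) true ≠ S (ee false) false := fun h2 => h1 (S (ee true) true)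
    (LinearMap.ext fun w => by
      rw [e, ← h2, LinearMap.smul_apply, Module.End.one_apply]
      conv_rhs => rw [W2.eq_sum w]
      module)
  refine ⟨by simpa using h1 0, ?_⟩
  rcases zmod2 (S (ee true) true) with e1 | e1 <;> rcases zmod2 (S (ee false) false) with e2 | e2 <;>
    rw [e1, e2] at e h2
  · exact (h2 rfl).elim
  · refine ⟨LinearMap.ext fun w => by simp [e, ee], fun M => ⟨M (ee false) false,
      LinearMap.ext fun w => by simp [e, smul_smul, mul_comm]⟩⟩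
  · refine ⟨LinearMap.ext fun w => by simp [e, ee], fun M => ⟨M (ee true) true,
      LinearMap.ext fun w => by simp [e, smul_smul, mul_comm]⟩⟩
  · exact (h2 rfl).elim

end Pool.Agent.Lib.MP_ffb54b_al.P2
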