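import Pool.Agent.Lib.MP_ffb54b_al.P2.Fld

set_option autoImplicit false
set_option linter.unusedSectionVars false

namespace Pool.Agent.Lib.MP_ffb54b_al.P2

open FS GA PowerSeries Filter FS.IsEv

universe u v

variable {G : Type v} [Group G] {V : Type u} [AddCommGroup V]

/-- Conjugation of operators. -/
def GA.cj (Φ : GA G V) (g : G) : AddMonoid.End V →+* AddMonoid.End V where
  toFun T := Φ.ρ g * T * Φ.ρ g⁻¹
  map_one' := by rw [mul_one, ← map_mul, mul_inv_cancel, map_one]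
  map_mul' S T := by
    simp only [mul_assoc]
    rw [← mul_assoc (Φ.ρ g⁻¹), ← map_mul, inv_mul_cancel, map_one, one_mul]
  map_zero' := by simp
  map_add' S T := by noncomm_ring

lemma GA.cj_apply (Φ : GA G V) (g : G) (T : AddMonoid.End V) :
    Φ.cj g T = Φ.ρ g * T * Φ.ρ g⁻¹ := rfl

lemma GA.cj_mul (Φ : GA G V) (g h : G) (T : AddMonoid.End V) :
    Φ.cj (g * h) T = Φ.cj g (Φ.cj h T) := by
  simp only [cj_apply, mul_inv_rev, map_mul Φ.ρ, mul_assoc]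

lemma GA.cj_one (Φ : GA G V) (T : AddMonoid.End V) : Φ.cj 1 T = T := by simp [cj_apply]

lemma GA.cj_sub_mem {Φ : GA G V} {T : AddMonoid.End V} {d : ℤ} (h : T ∈ Φ.N d) (g : G) :
    Φ.cj g T - T ∈ Φ.N (d + 1) := conj_sub_mem (cm_mem (Φ.δ_mem g) h (by omega))

/-- `g` acts on the family `A` with degree `r`. -/
def GA.Act (Φ : GA G V) (A : ℕ → Set (AddMonoid.End V)) (g : G) (r : ℕ) : Prop :=
  ∃ a₀ ∈ A r, ∀ j, ∀ a ∈ A j, ∃ a' ∈ A (j + r), (1 + a₀) * Φ.cj g a = a + a'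

/-- The data from which a field with an action is built. -/
structure FD (Φ : GA G V) (A : ℕ → Set (AddMonoid.End V)) (τ Q D : AddMonoid.End V) (y u : G) :
    Prop where
  two : (2 : AddMonoid.End V) = 0
  A_mem : ∀ {j a}, a ∈ A j → a ∈ Φ.N (2 * j)
  τ_mem : τ ∈ A 1
  τ_sym : ∀ i, Φ.s0 τ 2 i = 1
  Q_mem : Q ∈ Φ.N 1
  Q_sym : ∀ i, Φ.s0 Q 1 i = 1
  D_mem : D ∈ Φ.N 1
  D_sym : ∀ i, Φ.s0 D 1 i = Φ.par i • 1
  cA : ∀ {j j' a a'}, a ∈ A j → a' ∈ A j' → Commute a a'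
  cQ : ∀ {j a}, a ∈ A j → Commute a Q
  cD : ∀ {j a}, a ∈ A j → Commute a D
  act : ∀ g, Φ.Act A g 1
  acty : Φ.Act A y 2
  actu : Φ.Act A u 3
  wy : Φ.W y 1 (fun _ => 1) fun i => Φ.par i • 1 + Ea
  wu : Φ.W u 3 (fun _ => 1) fun _ => 0

variable {Φ : GA G V} {A : ℕ → Set (AddMonoid.End V)} {τ Q D T S e : AddMonoid.End V} {y u g : G}
  {ev : (ZMod 2)⟦X⟧ →+* AddMonoid.End V} {j r d : ℕ} {n : ℤ}

variable (Φ A) in
/-- Bounded operators commuting with `A`. -/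
def Com (S : AddMonoid.End V) : Prop := (∃ d, S ∈ Φ.N d) ∧ ∀ j, ∀ a ∈ A j, Commute a S

variable (Φ A) in
/-- The bounded bicommutant of `A`. -/
def Bic : Subring (AddMonoid.End V) where
  carrier := {T | (∃ d, T ∈ Φ.N d) ∧ ∀ S, Com Φ A S → Commute T S}
  zero_mem' := ⟨⟨0, zero_mem _⟩, fun S _ => .zero_left S⟩
  one_mem' := ⟨⟨0, N_one⟩, fun S _ => .one_left S⟩
  add_mem' := fun ⟨⟨d, h1⟩, h2⟩ ⟨⟨d', h3⟩, h4⟩ => ⟨⟨min d d', add_mem (N_mono h1 (min_le_left _ _))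
    (N_mono h3 (min_le_right _ _))⟩, fun S h => (h2 S h).add_left (h4 S h)⟩
  mul_mem' := fun ⟨⟨_, h1⟩, h2⟩ ⟨⟨_, h3⟩, h4⟩ => ⟨⟨_, N_mul h1 h3 le_rfl⟩,
    fun S h => (h2 S h).mul_left (h4 S h)⟩
  neg_mem' := fun ⟨⟨d, h1⟩, h2⟩ => ⟨⟨d, neg_mem h1⟩, fun S h => (h2 S h).neg_left⟩

lemma commute_inv {R : Type*} [Monoid R] {Z T S : R} (h1 : Z * T = 1) (h2 : T * Z = 1)
    (h : Commute T S) : Commute Z S := by
  change Z * S = S * Z
  rw [← mul_one (Z * S), ← h2, ← mul_assoc, mul_assoc Z, ← h.eq, ← mul_assoc, h1, one_mul]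

namespace FD

variable (F : FD Φ A τ Q D y u)
include F

lemma A_bic (h : T ∈ A j) : T ∈ Bic Φ A := ⟨⟨_, F.A_mem h⟩, fun _ hS => hS.2 j T h⟩

lemma bic_comm (h : T ∈ Bic Φ A) (h' : S ∈ Bic Φ A) : Commute T S :=
  h.2 S ⟨h'.1, fun _ _ ha => (h'.2 _ ⟨⟨_, F.A_mem ha⟩, fun _ _ hb => F.cA hb ha⟩).symm⟩

lemma com_cj (h : Com Φ A S) (g : G) : Com Φ A (Φ.cj g S) := by
  refine ⟨h.1.imp fun d hd => conj_mem hd g, fun j a ha => ?_⟩
  obtain ⟨a₀, h0, h1⟩ := F.act g⁻¹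
  obtain ⟨a', h2, h3⟩ := h1 j a ha
  have m : 1 + a₀ - 1 ∈ Φ.N 1 := by simpa using N_mono (F.A_mem h0) (by omega)
  obtain ⟨Z, -, z1, z2⟩ := exists_inv (Φ := Φ.toFS) (T := 1 + a₀) (d := 0)
    (add_mem N_one (N_mono (F.A_mem h0) (by omega))) fun i => by
      rw [s0_congr N_one m le_rfl, s0_one]
  have h4 : Commute (Φ.cj g⁻¹ a) S := by
    rw [← one_mul (Φ.cj g⁻¹ a), ← z1, mul_assoc, h3]
    exact (commute_inv z1 z2 ((Commute.one_left S).add_left (h.2 _ _ h0))).mul_left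
      ((h.2 _ _ ha).add_left (h.2 _ _ h2))
  simpa only [← cj_mul, mul_inv_cancel, cj_one] using h4.map (Φ.cj g)

lemma bic_cj (h : T ∈ Bic Φ A) (g : G) : Φ.cj g T ∈ Bic Φ A :=
  ⟨h.1.imp fun d hd => conj_mem hd g, fun S hS => by
    simpa only [← cj_mul, mul_inv_cancel, cj_one] using (h.2 _ (F.com_cj hS g⁻¹)).map (Φ.cj g)⟩

lemma bic_ev (E : Φ.IsEv τ ev) (f : (ZMod 2)⟦X⟧) : ev f ∈ Bic Φ A :=
  ⟨⟨_, E.mem 0 f (by simp)⟩, fun _ hS => hS.1.elim fun _ hd => E.commute hd (hS.2 _ _ F.τ_mem) f⟩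

lemma sym_succ (h : T ∈ Bic Φ A) (hn : T ∈ Φ.N n) (i : ℤ) : Φ.s0 T n (i + 1) = Φ.s0 T n i := by
  have := s0_cm F.Q_mem hn rfl i
  rw [cm, (h.2 Q ⟨⟨_, F.Q_mem⟩, fun _ _ => F.cQ⟩).eq, sub_self,
    s0_deep (d' := 1 + n + 1) (zero_mem _) le_rfl, F.Q_sym, F.Q_sym, one_mul, mul_one] at this
  exact (mat_eq_of_add this.symm).symm

lemma sym_const (h : T ∈ Bic Φ A) (hn : T ∈ Φ.N n) (i : ℤ) : Φ.s0 T n i = Φ.s0 T n 0 := by
  induction i using Int.induction_on with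
  | zero => rfl
  | succ i ih => rw [F.sym_succ h hn, ih]
  | pred i ih => rw [← ih, ← F.sym_succ h hn, sub_add_cancel]

lemma sym_odd (h : T ∈ Bic Φ A) {k : ℤ} (hn : T ∈ Φ.N (2 * k + 1)) : T ∈ Φ.N (2 * k + 2) :=
  N_succ hn (fun i => by
    have := s0_cm F.D_mem hn rfl i
    rw [cm, (h.2 D ⟨⟨_, F.D_mem⟩, fun _ _ => F.cD⟩).eq, sub_self,
      s0_deep (d' := 1 + (2 * k + 1) + 1) (zero_mem _) le_rfl, F.D_sym, F.D_sym, F.sym_succ h hn,
      Φ.par_odd (i := i) k (by omega), smul_mul_assoc, mul_smul_comm, one_mul, mul_one, add_smul,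
      add_right_comm, mat_add_self, zero_add, one_smul] at this
    exact this.symm) (by omega)

variable (E : Φ.IsEv τ ev) (P : ∀ j, ∀ a ∈ A j, a ∈ Φ.Ap ev j d)
include E P

lemma cj_A (hr : 1 ≤ r) (h : Φ.Act A g r) (hT : T ∈ A j) : Φ.cj g T - T ∈ Φ.Ap ev (j + r) d := by
  obtain ⟨a₀, h0, h1⟩ := h
  obtain ⟨a', h2, h3⟩ := h1 j T hT
  have e1 : Φ.cj g T - T = a' - a₀ * Φ.cj g T := by
    rw [add_mul, one_mul] at h3
    rw [sub_eq_sub_iff_add_eq_add, h3, add_comm]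
  have : ∀ m : ℕ, m ≤ d → Φ.cj g T ∈ Φ.Ap ev j m := fun m => by
    induction m with
    | zero => exact fun _ => Ap_of_N (by simpa [cj_apply] using conj_mem (F.A_mem hT) g)
    | succ m ih =>
      intro hm
      rw [← sub_add_cancel (Φ.cj g T) T, e1]
      exact add_mem (sub_mem (Ap_mono (P _ _ h2) (by omega) (by push_cast; omega))
        (Ap_mono (E.Ap_mul (Ap_mono (P _ _ h0) le_rfl (by omega)) (ih (by omega)) (by omega))
          (by omega) (by push_cast; omega))) (Ap_mono (P _ _ hT) le_rfl (by omega))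
  rw [e1]
  exact sub_mem (P _ _ h2) (add_comm r j ▸ E.Ap_mul (P _ _ h0) (this d le_rfl) (by omega))

lemma cj_pow (hr : 1 ≤ r) (h : Φ.Act A g r) :
    ∀ k : ℕ, Φ.cj g (τ ^ k) - τ ^ k ∈ Φ.Ap ev (k + r) d
  | 0 => by simp
  | k + 1 => by
    have h1 := F.cj_A E P hr h F.τ_mem
    have h2 : Φ.cj g τ ∈ Φ.Ap ev 1 d := by
      simpa using add_mem (Ap_mono h1 (by omega) (by push_cast; omega)) (P _ _ F.τ_mem)
    have h3 : τ ^ k ∈ Φ.Ap ev k d := by simpa [E.evX] using Ap_ev (ev := ev) (dvd_refl (X ^ k))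
    convert add_mem (Ap_mono (E.Ap_mul (cj_pow hr h k) h2 (by omega)) (j' := k + 1 + r) (m' := d)
      (by omega) (by push_cast; omega)) (Ap_mono (E.Ap_mul h3 h1 (by omega)) (by omega) (by push_cast; omega))
      using 1
    rw [pow_succ, map_mul]; noncomm_ring

lemma cj_ev (hr : 1 ≤ r) (h : Φ.Act A g r) : ∀ (m k : ℕ) (f : (ZMod 2)⟦X⟧), j ≤ k →
    j + r + d ≤ k + m → X ^ k ∣ f → Φ.cj g (ev f) - ev f ∈ Φ.Ap ev (j + r) d
  | 0, k, f, _, h2, h3 => Ap_of_N (N_mono (cj_sub_mem (E.mem k f h3) g) (by push_cast; omega))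
  | m + 1, k, f, h1, h2, h3 => by
    have h4 := cj_ev hr h m (k + 1) (f - C (coeff k f) * X ^ k) (by omega) (by omega)
      (dvd_sub_lead h3)
    rcases zmod2 (coeff k f) with e | e <;> rw [e] at h4
    · simpa using h4
    · convert add_mem h4 (Ap_mono (F.cj_pow E P hr h k) (by omega) (by push_cast; omega)) using 1
      simp only [map_one, one_mul, map_sub, map_pow, E.evX]; abel

lemma defect (hT : T ∈ A j) (h : T ∉ Φ.Ap ev j (d + 1 : ℕ)) : ∃ B ∈ Bic Φ A, ∃ k : ℕ,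
    B ∈ Φ.N (2 * k) ∧ (∀ s : ZMod 2, Φ.s0 B (2 * k) 0 ≠ s • 1) ∧
      ∃ t : ZMod 2, Ea * Φ.s0 B (2 * k) 0 + Φ.s0 B (2 * k) 0 * Ea = t • 1 := by
  obtain ⟨f, h1, h2⟩ := P j T hT
  have hB := sub_mem (F.A_bic hT) (F.bic_ev E f)
  obtain ⟨c, rfl | rfl⟩ := Nat.even_or_odd' d
  swap
  · exact (h ⟨f, h1, N_mono (F.sym_odd hB (k := j + c) (N_mono h2 (by push_cast; omega)))
      (by push_cast; omega)⟩).elim
  have h3 : T - ev f ∈ Φ.N (2 * (j + c : ℕ)) := N_mono h2 (by push_cast; omega)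
  have cj : ∀ {g r}, 1 ≤ r → Φ.Act A g r →
      Φ.cj g (T - ev f) - (T - ev f) ∈ Φ.Ap ev (j + r) (2 * c : ℕ) := fun {g r} hr hg => by
    convert sub_mem (F.cj_A E P hr hg hT) (F.cj_ev E P hr hg _ j f le_rfl (le_of_eq (add_assoc _ _ _))
      h1) using 1
    rw [map_sub]; abel
  refine ⟨_, hB, j + c, h3, fun s hs => h ⟨f + C s * X ^ (j + c), dvd_add h1
    ((pow_dvd_pow _ (Nat.le_add_right j c)).mul_left _), ?_⟩, ?_⟩
  · have h4 := (dvd_refl (X ^ (j + c) : (ZMod 2)⟦X⟧)).mul_left (C s)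
    rw [map_add, ← sub_sub]
    refine N_succ (sub_mem h3 (E.mem _ _ h4)) (fun i => ?_) (by push_cast; omega)
    rw [s0_sub h3 (E.mem _ _ h4), F.sym_const hB h3, hs, E.s0_ev h4]
    simp [coeff_X_pow, mat_add_self]
  generalize T - ev f = B at hB h3 cj
  have c0 := F.sym_const hB h3
  have c1 : cm (Φ.δ y) B ∈ Φ.N (2 * (j + c + 1 : ℕ)) :=
    N_succ (cm_mem F.wy.1 h3 le_rfl) (fun i => by
      simp only [s0_cm F.wy.1 h3 rfl, F.wy.2, one_mul, mul_one, F.sym_succ hB h3, mat_add_self])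
      (by push_cast; omega)
  have c2 : cm (Φ.δ u) B ∈ Φ.N (2 * (j + c + 2 : ℕ)) :=
    N_succ (cm_mem F.wu.1 h3 le_rfl) (fun i => by
      simp only [s0_cm F.wu.1 h3 rfl, F.wu.2, one_mul, mul_one]
      rw [c0, c0 (i + 3), mat_add_self]) (by push_cast; omega)
  obtain ⟨s, hs⟩ := E.Ap_sym (cj (by omega) F.acty) (conj_sub_mem c1) (by push_cast; omega)
  obtain ⟨t, ht⟩ := E.Ap_sym (cj (by omega) F.actu) (conj_sub_mem c2) (by push_cast; omega)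
  have e1 : ∀ i, Φ.s1 B (2 * (j + c : ℕ)) (i + 1) = Φ.s1 B (2 * (j + c : ℕ)) i +
      (s • 1 + (Ea * Φ.s0 B (2 * (j + c : ℕ)) 0 + Φ.s0 B (2 * (j + c : ℕ)) 0 * Ea)) := fun i => by
    have := hs i
    rw [cj_apply, s0_conj_sub c1, ← s1_succ (d := 1 + 2 * (j + c : ℕ)) c1 (by push_cast; omega),
      s1_cm F.wy.1 h3 rfl, c0, c0 (i + 1 + 1)] at this
    simp only [F.wy.2, one_mul, mul_one, Φ.par_even (i := i) (j + c : ℕ) rfl, add_mul, mul_add,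
      smul_mul_assoc, mul_smul_comm] at this
    rw [← this, ← one_smul (ZMod 2) (Φ.s1 B _ i)]
    match_scalars <;> (generalize Φ.par i = a; revert a; decide)
  have e2 := ht 0
  rw [cj_apply, s0_conj_sub c2, ← s1_succ (d := 3 + 2 * (j + c : ℕ)) c2 (by push_cast; omega),
    s1_cm F.wu.1 h3 rfl, show (0 : ℤ) + 3 = 0 + 1 + 1 + 1 by norm_num, e1, e1, e1] at e2
  simp only [F.wu.2, one_mul, mul_one, zero_mul, mul_zero, zero_add, add_zero] at e2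
  refine ⟨s + t, ?_⟩
  rw [add_smul, ← e2, ← one_smul (ZMod 2) (Φ.s1 B _ 0)]
  generalize Ea * Φ.s0 B (2 * (j + c : ℕ)) 0 + Φ.s0 B (2 * (j + c : ℕ)) 0 * Ea = M
  match_scalars <;> (generalize s = a; revert a; decide)

omit P in
lemma idem {B : AddMonoid.End V} (hB : B ∈ Bic Φ A) {k : ℕ} (h1 : B ∈ Φ.N (2 * k))
    (h2 : ∀ s : ZMod 2, Φ.s0 B (2 * k) 0 ≠ s • 1)
    (h3 : ∃ t : ZMod 2, Ea * Φ.s0 B (2 * k) 0 + Φ.s0 B (2 * k) 0 * Ea = t • 1) :
    ∃ e ∈ Bic Φ A, e ∈ Φ.N 0 ∧ Φ.s0 e 0 0 ≠ 0 ∧ e * e = e ∧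
      ∀ T ∈ Bic Φ A, T ∈ Φ.N 0 → ∀ m : ℕ, ∃ f, (T - ev f) * e ∈ Φ.N m := by
  have := Φ.charP F.two
  obtain ⟨t, h3⟩ := h3
  obtain ⟨d1, d2, d3⟩ := mat_diag h3 h2
  have t1 : τ ^ k ∈ Φ.N (2 * k) := N_mono (N_pow E.τ_mem k) (by omega)
  obtain ⟨Z, z0, z1, z2⟩ := exists_inv t1 (E.s0_pow k)
  have zb : Z ∈ Bic Φ A := ⟨⟨_, z0⟩, fun S hS =>
    commute_inv z1 z2 ((pow_mem (F.A_bic F.τ_mem) k).2 S hS)⟩
  have bb := mul_mem zb hB
  have b0 : Z * B ∈ Φ.N 0 := N_mul z0 h1 (by omega)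
  have b1 : ∀ i, Φ.s0 (Z * B) 0 i = Φ.s0 B (2 * k) 0 := fun i => by
    rw [s0_mul z0 h1 (by omega), s0_inv t1 (E.s0_pow k) z0 z1, one_mul, F.sym_const hB h1]
  generalize Z * B = b at bb b0 b1
  generalize Φ.s0 B (2 * k) 0 = M at d1 d2 d3 b1
  have p0 : ∀ n : ℕ, b ^ n ∈ Φ.N 0 := fun n => by simpa using N_pow b0 n
  have p1 : ∀ (n : ℕ) i, Φ.s0 (b ^ (n + 1)) 0 i = M := fun n => by
    induction n with
    | zero => simpa using b1
    | succ n ih => exact fun i => by rw [pow_succ, s0_mul (p0 _) b0 (by omega), ih, b1, d2]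
  have p2 : b * b - b ∈ Φ.N 1 := N_succ (d := 0) (sub_mem (N_mul b0 b0 (by omega)) b0) (fun i => by
    rw [s0_sub (N_mul b0 b0 (by omega)) b0, s0_mul b0 b0 (by omega), b1, b1, d2, mat_add_self])
    (by omega)
  obtain ⟨e, he⟩ := exists_lim (Φ := Φ.toFS) (S := fun n => b ^ 2 ^ n) (hyperfilter ℕ)
    (.of_forall fun n => p0 _)
  have e0 := he.mem (.of_forall fun n => p0 _)
  have eb : e ∈ Bic Φ A := ⟨⟨_, e0⟩, fun S hS => hS.1.elim fun _ hd =>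
    he.commute hd (.of_forall fun n => p0 _) (.of_forall fun n => (pow_mem bb _).2 S hS)⟩
  have e1 : ∀ i, Φ.s0 e 0 i = M := fun i => by
    obtain ⟨n, hn⟩ := (he.s0 (.of_forall fun n => p0 _) i).exists
    rw [hn, ← Nat.sub_add_cancel (Nat.one_le_two_pow (n := n)), p1]
  have e2 : e * e = e := ((he.mul he (.of_forall fun n => p0 _)).congr fun m =>
    (free_hyper m).mono fun n hn => by
      rw [← (Commute.refl b).mul_pow, ← sub_pow_char_pow_of_commute 2 n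
        ((Commute.refl b).mul_left (Commute.refl b))]
      refine N_mono (N_pow p2 _) ?_
      have := Nat.lt_two_pow_self (n := n)
      omega).unique he
  refine ⟨e, eb, e0, e1 0 ▸ d1, e2, fun T hT h0 m => ?_⟩
  induction m with
  | zero => exact ⟨0, by simpa using N_mul h0 e0 le_rfl⟩
  | succ m ih =>
    obtain ⟨f, hf⟩ := ih
    have r1 := mul_mem (sub_mem hT (F.bic_ev E f)) eb
    obtain ⟨c, rfl | rfl⟩ := Nat.even_or_odd' m
    swap
    · exact ⟨f, N_mono (F.sym_odd r1 (k := c) (N_mono hf (by push_cast; omega)))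
        (by push_cast; omega)⟩
    push_cast at hf
    obtain ⟨s, hs⟩ := d3 (Φ.s0 ((T - ev f) * e) (2 * c) 0)
    have h4 := (dvd_refl (X ^ c : (ZMod 2)⟦X⟧)).mul_left (C s)
    have h5 := N_mul (E.mem _ _ h4) e0 (show 2 * (c : ℤ) ≤ _ by omega)
    refine ⟨f + C s * X ^ c, ?_⟩
    rw [map_add, ← sub_sub, sub_mul]
    refine N_succ (sub_mem hf h5) (fun i => ?_) (by push_cast; omega)
    have r2 : (T - ev f) * e = e * ((T - ev f) * e) * e := by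
      rw [(F.bic_comm eb r1).eq, mul_assoc, mul_assoc, e2, e2]
    rw [s0_sub hf h5, E.s0_ev_mul e0 h4, r2, s0_mul (N_mul e0 hf le_rfl) e0 (by omega),
      s0_mul e0 hf rfl, e1, e1, F.sym_const r1 hf, hs]
    simp [coeff_X_pow, mat_add_self]

omit P in
lemma exists_e : ∃ e ∈ Bic Φ A, e ∈ Φ.N 0 ∧ Φ.s0 e 0 0 ≠ 0 ∧ e * e = e ∧
    ∀ g, ∃ f, Φ.cj g τ * e = ev f * e := by
  by_cases h : ∀ d : ℕ, ∀ j, ∀ a ∈ A j, a ∈ Φ.Ap ev j d
  · refine ⟨1, one_mem _, N_one, by rw [s0_one]; exact one_ne_zero, mul_one 1, fun g =>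
      E.exists_eq N_one fun n => ?_⟩
    obtain ⟨f, -, hf⟩ := add_mem (Ap_mono (F.cj_A E (h n) le_rfl (F.act g) F.τ_mem) (by omega)
      (by push_cast; omega)) (h n 1 τ F.τ_mem)
    exact ⟨f, by simpa using N_mono hf (by omega)⟩
  obtain ⟨d, h1, h2⟩ : ∃ d : ℕ, (∀ j, ∀ a ∈ A j, a ∈ Φ.Ap ev j d) ∧
      ¬∀ j, ∀ a ∈ A j, a ∈ Φ.Ap ev j (d + 1 : ℕ) := by
    by_contra h3
    refine h fun d => ?_
    induction d with
    | zero => exact fun j a ha => Ap_of_N (by simpa using F.A_mem ha)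
    | succ d ih => exact not_not.1 fun h4 => h3 ⟨d, ih, h4⟩
  simp only [not_forall] at h2
  obtain ⟨j, a, ha, h2⟩ := h2
  obtain ⟨B, hB, k, b1, b2, b3⟩ := F.defect E h1 ha h2
  obtain ⟨e, e1, e2, e3, e4, e5⟩ := F.idem E hB b1 b2 b3
  exact ⟨e, e1, e2, e3, e4, fun g => E.exists_eq e2 (e5 _ (F.bic_cj (F.A_bic F.τ_mem) g)
    (N_mono (conj_mem E.τ_mem g) (by omega)))⟩

omit E P in
lemma cj_idem (h : e ∈ Bic Φ A) (h0 : e ∈ Φ.N 0) (h1 : e * e = e) (g : G) : Φ.cj g e = e := by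
  have c := (F.bic_comm (F.bic_cj h g) h).eq
  have h2 : Φ.cj g e * Φ.cj g e = Φ.cj g e := by rw [← map_mul, h1]
  have h3 : (Φ.cj g e - e) * (Φ.cj g e - e) * (Φ.cj g e - e) = Φ.cj g e - e := by
    generalize Φ.cj g e = e' at c h2
    have a1 : e' * (e' * e) = e' * e := by rw [← mul_assoc, h2]
    have a2 : e * (e' * e) = e' * e := by rw [← mul_assoc, ← c, mul_assoc, h1]
    simp only [mul_sub, sub_mul, mul_assoc, h1, h2, ← c, a1, a2]
    abel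
  have h4 := cj_sub_mem h0 g
  refine sub_eq_zero.1 (N_sep (Φ := Φ.toFS) fun n => ?_)
  induction n with
  | zero => exact N_mono h4 (by omega)
  | succ n ih => exact h3 ▸ N_mul (N_mul h4 h4 le_rfl) ih (by push_cast; omega)

omit E P in
/-- The action on the field gives a homomorphism to the Nottingham group. -/
theorem exists_hom : ∃ θ : G →* Nott 2,
    (∀ g (r : ℕ), Φ.cj g τ - τ ∈ Φ.N (2 * r + 1) → θ g ∈ Nott.Jn 2 r) ∧
    ∀ g (r : ℕ) (s : ZMod 2), 1 ≤ r → Φ.cj g τ - τ ∈ Φ.N (2 * r + 2) →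
      (∀ i, Φ.s0 (Φ.cj g τ - τ) (2 * r + 2) i = s • 1) → coeff (r + 1) (θ g).ser = s := by
  have : Fact (Nat.Prime 2) := ⟨Nat.prime_two⟩
  have hτ : τ ∈ Φ.N 2 := F.A_mem F.τ_mem
  obtain ⟨ev, h1, h2⟩ := exists_ev F.two hτ
  have E : Φ.IsEv τ ev := ⟨h1, h2, F.τ_sym⟩
  obtain ⟨e, eb, e0, e1, e2, e3⟩ := F.exists_e E
  choose f hf using e3
  have key : ∀ g, ev (f g - X) * e = (Φ.cj g τ - τ) * e := fun g => by
    rw [map_sub, sub_mul, sub_mul, hf, h1]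
  have dv : ∀ g (r : ℕ), Φ.cj g τ - τ ∈ Φ.N (2 * r + 1) → X ^ (r + 1) ∣ f g - X := fun g r h =>
    E.dvd_of_mem e0 e1 (key g ▸ N_mul h e0 le_rfl) _ (by push_cast; omega)
  have d2 := fun g => X_pow_dvd_iff.1 (dv g 1 (cj_sub_mem hτ g))
  let φ : G → Nott 2 := fun g => ⟨f g, by simpa using d2 g 0 (by omega),
    by simpa [sub_eq_zero] using d2 g 1 (by omega)⟩
  have pw : ∀ {a b : AddMonoid.End V}, a ∈ Bic Φ A → b ∈ Bic Φ A → a * e = b * e → ∀ n : ℕ,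
      a ^ n * e = b ^ n * e := fun {a b} ha hb h n => by
    induction n with
    | zero => simp
    | succ n ih =>
      rw [pow_succ, pow_succ', mul_assoc, mul_assoc, h, ← ih, ← mul_assoc, ← mul_assoc,
        (F.bic_comm (pow_mem ha n) hb).eq]
  have sub : ∀ g k, Φ.cj g (ev k) * e = ev (k.subst (φ g).ser) * e := fun g k =>
    sub_eq_zero.1 (dense_ext (AddMonoidHom.mk' (fun k => Φ.cj g (ev k) * e -
      ev (k.subst (φ g).ser) * e) fun k l => by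
        simp only [map_add, subst_add (φ g).hasSubst]; noncomm_ring) (fun n => Φ.N n)
      (fun n k hk => sub_mem (N_mul (conj_mem (h2 n k hk) g) e0 (by omega))
        (N_mul (h2 n _ ((φ g).X_pow_dvd_subst hk)) e0 (by omega)))
      (fun n => by
        simp only [AddMonoidHom.mk'_apply, map_pow, subst_pow (φ g).hasSubst, subst_X (φ g).hasSubst,
          h1, sub_eq_zero]
        exact pw (F.bic_cj (F.A_bic F.τ_mem) g) (F.bic_ev E _) (hf g) n) (fun _ => N_sep) k)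
  have mul : ∀ g h, φ (g * h) = φ h * φ g := fun g h => Nott.ext (sub_eq_zero.1 (by
    have : ev (f (g * h) - (f h).subst (φ g).ser) * e = 0 := by
      rw [map_sub, sub_mul, ← hf, ← sub, cj_mul, ← F.cj_idem eb e0 e2 g, ← map_mul, ← map_mul, hf,
        sub_self]
    exact PowerSeries.ext fun k => X_pow_dvd_iff.1 (E.dvd_of_mem e0 e1 (m := 2 * (k + 1 : ℕ))
      (this ▸ zero_mem _) (k + 1) (by omega)) k k.lt_succ_self))
  refine ⟨MonoidHom.mk' (fun g => (φ g)⁻¹) fun g h => by rw [mul, mul_inv_rev],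
    fun g r h => inv_mem (dv g r h), fun g r s hr h hs => ?_⟩
  have m : φ g ∈ Nott.Jn 2 r := dv g r (N_mono h (by omega))
  have c1 := (Nott.nt.cls r hr).inv m
  have c2 := E.s0_ev_mul e0 (dv g r (N_mono h (by omega))) 0
  rw [key, s0_mul h e0 (by push_cast; omega), hs, smul_mul_assoc, one_mul] at c2
  have c3 : s = coeff (r + 1) (f g - X) := smul_left_injective _ e1 c2
  have c4 : coeff (r + 1) (X : (ZMod 2)⟦X⟧) = 0 := by rw [coeff_X, if_neg (by omega)]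
  simp only [neg_neg, map_sub, c4, sub_zero, CharTwo.neg_eq] at c1 c3
  exact c1.trans c3.symm

end FD

end Pool.Agent.Lib.MP_ffb54b_al.P2
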