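import Pool.Agent.Lib.MP_ffb54b_al.P2.Pos

set_option autoImplicit false
set_option linter.unusedSectionVars false

namespace Pool.Agent.Lib.MP_ffb54b_al.P2

open Filter Subgroup Finset
open scoped commutatorElement

universe u

variable {U : Ultrafilter ℕ} {G : ℕ → Type u} [∀ n, Group (G n)]

/-- Families lying eventually in the term of the series of level `ν`. -/
def Ev (K : ∀ n, ℕ → Subgroup (G n)) (ν : Pos U) : Subgroup (∀ n, G n) where
  carrier := {a | ∀ᶠ n in U, a n ∈ K n (lev ν n)}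
  one_mem' := Eventually.of_forall fun _ => one_mem _
  mul_mem' ha hb := (Eventually.and ha hb).mono fun _ h => mul_mem h.1 h.2
  inv_mem' ha := Eventually.mono ha fun _ h => inv_mem h

/-- A family of groups with series, and a free ultrafilter. -/
structure Fam (U : Ultrafilter ℕ) (K : ∀ n, ℕ → Subgroup (G n)) : Prop where
  free : Free U
  normal : ∀ n j, (K n j).Normal
  ns : ∀ n, NS (K n)

variable {K : ∀ n, ℕ → Subgroup (G n)} {ν μ κ : Pos U} {a b g : ∀ n, G n} {i j : ℕ → ℕ}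

lemma mem_Ev : a ∈ Ev K ν ↔ ∀ᶠ n in U, a n ∈ K n (lev ν n) := Iff.rfl

lemma mem_Ev_of {j : ℕ → ℕ} (e : ∀ᶠ n in U, lev ν n = j n) :
    a ∈ Ev K ν ↔ ∀ᶠ n in U, a n ∈ K n (j n) :=
  eventually_congr (e.mono fun _ h => by rw [h])

lemma mem_Ev_pos : a ∈ Ev K (pos U j) ↔ ∀ᶠ n in U, a n ∈ K n (j n) := mem_Ev_of (lev_pos j)

lemma mem_Ev_nat {c : ℕ} : a ∈ Ev K (c : Pos U) ↔ ∀ᶠ n in U, a n ∈ K n c := mem_Ev_of (lev_nat c)

lemma mem_Ev_add_nat (h : 0 ≤ ν) {c : ℕ} :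
    a ∈ Ev K (ν + c : Pos U) ↔ ∀ᶠ n in U, a n ∈ K n (lev ν n + c) := mem_Ev_of (lev_add_nat h c)

lemma mem_Ev_succ (h : 0 ≤ ν) : a ∈ Ev K (ν + 1) ↔ ∀ᶠ n in U, a n ∈ K n (lev ν n + 1) :=
  mem_Ev_of (lev_succ h)

lemma mem_Ev_add (h : 0 ≤ ν) (h' : 0 ≤ μ) :
    a ∈ Ev K (ν + μ) ↔ ∀ᶠ n in U, a n ∈ K n (lev ν n + lev μ n) := mem_Ev_of (lev_add h h')

namespace Fam

variable (H : Fam U K)
include H

lemma pns : PNS (Ev K : Pos U → Subgroup (∀ n, G n)) where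
  normal _ := ⟨fun _ ha b => Eventually.mono ha fun n h => (H.normal n _).conj_mem _ h (b n)⟩
  anti _ _ h _ ha := (Eventually.and ha (lev_le h)).mono fun n h => (H.ns n).anti h.2 h.1
  comm {ν μ _ _} ha hb := by
    filter_upwards [ha, hb, rep_add ν μ] with n h1 h2 h3
    exact (H.ns n).comm' h1 h2 (by simp only [lev]; omega)

/-- The galaxy Lie ring of the family. -/
abbrev L : Type u := H.pns.L

/-- The filtration of the galaxy Lie ring. -/
noncomputable abbrev F (ν : Pos U) : AddSubgroup H.L := H.pns.F ν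

/-- The class of a family of elements. -/
noncomputable abbrev cls (ν : Pos U) (a : ∀ n, G n) : H.L := H.pns.cls ν a

/-- The conjugation action. -/
noncomputable abbrev ρ (g : ∀ n, G n) : H.L →+ H.L := H.pns.ρ g

variable {x y : H.L}

lemma cls_congr (hν : Inf ν) (ha : a ∈ Ev K ν) (e : ∀ᶠ n in U, a n = b n) :
    H.cls ν a = H.cls ν b := by
  have hb : b ∈ Ev K ν := (Eventually.and ha e).mono fun n h => h.2 ▸ h.1
  rw [← sub_eq_zero, ← H.pns.cls_div hν ha hb, H.pns.cls_eq_zero hν (mul_mem ha (inv_mem hb))]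
  exact fun c => e.mono fun n h => by simp [h]

lemma ρ_congr (e : ∀ᶠ n in U, a n = b n) (x : H.L) : H.ρ a x = H.ρ b x := by
  have : H.ρ (b⁻¹ * a) x = x := H.pns.ρ_deep H.free.inf_id
    (Eventually.mono e fun n h => by simp [h]) x
  rw [← mul_inv_cancel_left b a, H.pns.ρ_mul, this]

lemma ρ_deg {w : ℕ} (hg : ∀ᶠ n in U, g n ∈ K n w) (hx : x ∈ H.F ν) : H.ρ g x - x ∈ H.F (ν + w) := by
  simpa using H.pns.ρ_deg (w := w) (by simpa using mem_Ev_nat.2 hg) hx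

lemma F_anti_nat {c d : ℕ} (h : c ≤ d) : H.F (ν + d) ≤ H.F (ν + c) :=
  H.pns.F_anti ((Near.add_nat ν c).symm.trans (Near.add_nat ν d)) (by simpa using h)

lemma F_succ : H.F (ν + 1) ≤ H.F ν := H.pns.F_anti ⟨1, by simp⟩ (by linarith)

lemma F_add_nat (c : ℕ) : H.F (ν + c) ≤ H.F ν :=
  H.pns.F_anti (Near.add_nat ν c) (le_add_of_nonneg_right (Nat.cast_nonneg c))

/-- Completeness for Cauchy sequences. -/
lemma cauchy (x : ℕ → H.L) (h0 : x 0 ∈ H.F ν) (h : ∀ c : ℕ, x (c + 1) - x c ∈ H.F (ν + c)) :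
    ∃ y, ∀ c : ℕ, y - x c ∈ H.F (ν + c) := by
  have h1 : ∀ c' c : ℕ, c' ≤ c → x c - x c' ∈ H.F (ν + c') := fun c' c hc => by
    induction c, hc using Nat.le_induction with
    | base => simp
    | succ c hc ih => simpa using add_mem (H.F_anti_nat hc (h c)) ih
  by_cases hν : Inf ν
  swap
  · refine ⟨x 0, fun c => ?_⟩
    rw [← neg_sub, H.pns.F_not_inf (by simpa using hν) (h1 0 c c.zero_le), neg_zero]
    exact zero_mem _
  have h2 : ∀ c, ∃ a ∈ Ev K ν, H.cls ν a = x c := fun c =>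
    (H.pns.mem_F hν).1 (by simpa using add_mem (H.F_add_nat 0 (h1 0 c c.zero_le)) h0)
  choose a ha e using h2
  obtain ⟨y, hy⟩ := sat H.free (fun c n (y : G n) => y * (a c n)⁻¹ ∈ K n (lev (ν + c : Pos U) n))
    fun c => ((eventually_all_finset (range (c + 1))).2 fun c' hc' =>
      (H.pns.cls_sub_mem hν (ha c) (ha c') (Near.add_nat ν c')).1 (by
        rw [show H.pns.cls ν (a c) = x c from e c, show H.pns.cls ν (a c') = x c' from e c']
        exact h1 c' c (by simpa [Nat.lt_succ_iff] using hc'))).mono fun n hn =>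
      ⟨a c n, fun c' hc' => hn c' (Finset.mem_range.2 (by omega))⟩
  have hy0 : y ∈ Ev K ν := by
    have : y * (a 0)⁻¹ ∈ Ev K (ν + (0 : ℕ) : Pos U) := hy 0
    rw [Nat.cast_zero, add_zero] at this
    simpa using mul_mem this (ha 0)
  exact ⟨H.cls ν y, fun c => e c ▸ (H.pns.cls_sub_mem hν hy0 (ha c) (Near.add_nat ν c)).2 (hy c)⟩

/-- Completeness for series. -/
lemma complete (z : ℕ → H.L) (h : ∀ c : ℕ, z c ∈ H.F (ν + c)) :
    ∃ y, ∀ c : ℕ, y - ∑ j ∈ range c, z j ∈ H.F (ν + c) :=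
  H.cauchy (fun c => ∑ j ∈ range c, z j) (by simp) fun c => by simpa [sum_range_succ] using h c

section Lead

variable {Q : Type*} [Finite Q] [AddCommGroup Q]

open Classical in
/-- The limit of the functions `f n j` on the filtration step `F ν`. -/
noncomputable def lead (f : ∀ n, ℕ → G n → Q) (ν : Pos U) (x : H.L) : Q :=
  if hx : ∃ a ∈ Ev K ν, H.cls ν a = x then ulim U fun n => f n (lev ν n) (hx.choose n) else 0

variable {f : ∀ n, ℕ → G n → Q} {d : ℕ} {r : Q}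

omit H in
/-- The function `f n j` depends on elements of `K n j` modulo `K n (j + d)` only. -/
def _root_.Pool.Agent.Lib.MP_ffb54b_al.P2.Loc (U : Ultrafilter ℕ) (K : ∀ n, ℕ → Subgroup (G n))
    (f : ∀ n, ℕ → G n → Q) (d : ℕ) : Prop :=
  ∃ w : ℕ, ∀ᶠ n in U, ∀ j, w ≤ j → ∀ a ∈ K n j, ∀ b ∈ K n j, a * b⁻¹ ∈ K n (j + d) →
    f n j a = f n j b

omit H in
/-- The functions `f n j` are class maps of the factors. -/
def _root_.Pool.Agent.Lib.MP_ffb54b_al.P2.Cls (U : Ultrafilter ℕ) (K : ∀ n, ℕ → Subgroup (G n))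
    (f : ∀ n, ℕ → G n → Q) : Prop :=
  ∃ w : ℕ, ∀ᶠ n in U, ∀ j, w ≤ j → IsCls (K n) j (f n j)

lemma loc_of_cls (hf : Cls U K f) : Loc U K f 1 := hf.imp fun _ h => h.mono
  fun n h j hj _ ha _ hb e => haveI := H.normal n
    ((h j hj).eq_iff ha hb).2 (pr_eq.2 e)

lemma lead_cls (hf : Loc U K f d) (hν : Inf ν) (ha : a ∈ Ev K ν) :
    ∀ᶠ n in U, f n (lev ν n) (a n) = H.lead f ν (H.cls ν a) := by
  have hx : ∃ b ∈ Ev K ν, H.cls ν b = H.cls ν a := ⟨a, ha, rfl⟩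
  obtain ⟨w, hw⟩ := hf
  have e := (H.pns.cls_sub_mem hν ha hx.choose_spec.1 (Near.add_nat ν d)).1
    (by rw [show H.pns.cls ν hx.choose = _ from hx.choose_spec.2, sub_self]; exact zero_mem _)
  rw [lead, dif_pos hx]
  filter_upwards [hw, hν.le_lev w, ha, hx.choose_spec.1, (mem_Ev_add_nat hν.nonneg).1 e,
    ulim_spec U fun n => f n (lev ν n) (hx.choose n)] with n h1 h2 h3 h4 h5 h6
  exact (h1 _ h2 _ h3 _ h4 h5).trans h6

lemma lead_cls_eq (hf : Loc U K f d) (hν : Inf ν) (ha : a ∈ Ev K ν) :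
    H.lead f ν (H.cls ν a) = r ↔ ∀ᶠ n in U, f n (lev ν n) (a n) = r :=
  ⟨fun h => h ▸ H.lead_cls hf hν ha, fun h => by
    obtain ⟨n, h1, h2⟩ := ((H.lead_cls hf hν ha).and h).exists
    exact h1.symm.trans h2⟩

lemma lead_add (hf : Cls U K f) (hν : Inf ν) (hx : x ∈ H.F ν) (hy : y ∈ H.F ν) :
    H.lead f ν (x + y) = H.lead f ν x + H.lead f ν y := by
  obtain ⟨a, ha, rfl⟩ := (H.pns.mem_F hν).1 hx
  obtain ⟨b, hb, rfl⟩ := (H.pns.mem_F hν).1 hy
  have hl := H.loc_of_cls hf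
  obtain ⟨w, hw⟩ := hf
  rw [← H.pns.cls_mul hν ha hb, H.lead_cls_eq hl hν (mul_mem ha hb)]
  filter_upwards [hw, hν.le_lev w, ha, hb, H.lead_cls hl hν ha, H.lead_cls hl hν hb]
    with n h1 h2 h3 h4 h5 h6
  rw [← h5, ← h6]
  exact (h1 _ h2).mul h3 h4

lemma lead_zero (hf : Cls U K f) (hν : Inf ν) (hx : x ∈ H.F ν) :
    H.lead f ν x = 0 ↔ x ∈ H.F (ν + 1) := by
  obtain ⟨a, ha, rfl⟩ := (H.pns.mem_F hν).1 hx
  have hl := H.loc_of_cls hf
  obtain ⟨w, hw⟩ := hf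
  rw [H.lead_cls_eq hl hν ha, H.pns.cls_mem_iff hν ha ⟨1, by simp⟩, mem_Ev_succ hν.nonneg]
  refine eventually_congr ?_
  filter_upwards [hw, hν.le_lev w, ha] with n h1 h2 h3
  exact (h1 _ h2).zero h3

lemma lead_surj (hf : Loc U K f d) (hν : Inf ν)
    (h : ∀ᶠ n in U, ∃ a ∈ K n (lev ν n), f n (lev ν n) a = r) : ∃ x ∈ H.F ν, H.lead f ν x = r := by
  obtain ⟨a, ha⟩ := ev_exists.1 h
  have ha' : a ∈ Ev K ν := ha.mono fun _ h => h.1
  exact ⟨_, H.pns.cls_mem hν ha', (H.lead_cls_eq hf hν ha').2 (ha.mono fun _ h => h.2)⟩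

lemma lead_neg (hf : Cls U K f) (hν : Inf ν) (hx : x ∈ H.F ν) :
    H.lead f ν (-x) = -H.lead f ν x := by
  rw [eq_neg_iff_add_eq_zero, ← H.lead_add hf hν (neg_mem hx) hx, neg_add_cancel,
    H.lead_zero hf hν (zero_mem _)]
  exact zero_mem _

lemma lead_sub (hf : Cls U K f) (hν : Inf ν) (hx : x ∈ H.F ν) (hy : y ∈ H.F ν) :
    H.lead f ν (x - y) = H.lead f ν x - H.lead f ν y := by
  rw [sub_eq_add_neg, H.lead_add hf hν hx (neg_mem hy), H.lead_neg hf hν hy, sub_eq_add_neg]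

lemma lead_eq_iff (hf : Cls U K f) (hν : Inf ν) (hx : x ∈ H.F ν) (hy : y ∈ H.F ν) :
    H.lead f ν x = H.lead f ν y ↔ x - y ∈ H.F (ν + 1) := by
  rw [← H.lead_zero hf hν (sub_mem hx hy), H.lead_sub hf hν hx hy, sub_eq_zero]

/-- Compactness of the filtration steps. -/
lemma compact (hf : Cls U K f) {I : Type*} (V : Ultrafilter I) (x : I → H.L)
    (hx : ∀ᶠ t in V, x t ∈ H.F ν) : ∃ y, ∀ c : ℕ, ∀ᶠ t in V, y - x t ∈ H.F (ν + c) := by
  by_cases hν : Inf ν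
  swap
  · exact ⟨0, fun c => hx.mono fun t h => by rw [H.pns.F_not_inf hν h]; simp⟩
  have h1 : ∀ c : ℕ, ∃ z ∈ H.F ν, ∀ᶠ t in V, z - x t ∈ H.F (ν + c) := fun c => by
    induction c with
    | zero => exact ⟨0, zero_mem _, hx.mono fun t h => by simpa using h⟩
    | succ c ih =>
      obtain ⟨z, -, hz⟩ := ih
      have h2 := hz.and (ulim_spec V fun t => H.lead f (ν + c) (z - x t))
      obtain ⟨s, h3, h4⟩ := (hx.and h2).exists
      refine ⟨x s, h3, h2.mono fun t h5 => ?_⟩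
      have := (H.lead_eq_iff hf (hν.add_nat c) h5.1 h4.1).1 (h5.2.trans h4.2.symm)
      rw [Nat.cast_succ, ← add_assoc]
      convert this using 1
      abel
  choose z h0 hz using h1
  obtain ⟨y, hy⟩ := H.cauchy z (h0 0) fun c => by
    obtain ⟨t, h1, h2⟩ := ((hz (c + 1)).and (hz c)).exists
    simpa using sub_mem (H.F_anti_nat (Nat.le_succ c) h1) h2
  exact ⟨y, fun c => (hz c).mono fun t h => by simpa using add_mem (hy c) h⟩

end Lead

end Fam

end Pool.Agent.Lib.MP_ffb54b_al.P2
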