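import Pool.Agent.Lib.MP_ffb54b_al.Series

set_option autoImplicit false
set_option linter.unusedSectionVars false

namespace Pool.Agent.Lib.MP_ffb54b_al.P2

open Subgroup
open scoped commutatorElement DirectSum

universe u

section Pos

variable {P : Type} [CommRing P] [LinearOrder P] [IsStrictOrderedRing P]

/-- An infinite position. -/
def Inf (ν : P) : Prop := ∀ c : ℤ, (c : P) ≤ ν

/-- Two positions at a standard distance. -/
def Near (ν μ : P) : Prop := ∃ c : ℤ, μ = ν + c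

variable {ν μ κ ν' μ' : P}

lemma Near.rfl : Near ν ν := ⟨0, by simp⟩

lemma Near.symm (h : Near ν μ) : Near μ ν := h.elim fun c e => ⟨-c, by simp [e]⟩

lemma Near.trans (h : Near ν μ) (h' : Near μ κ) : Near ν κ :=
  h.elim fun c e => h'.elim fun d e' => ⟨c + d, by simp [e, e', add_assoc]⟩

lemma Near.add (h : Near ν ν') (h' : Near μ μ') : Near (ν + μ) (ν' + μ') :=
  h.elim fun c e => h'.elim fun d e' => ⟨c + d, by rw [e, e']; push_cast; ring⟩

lemma Near.add_int (ν : P) (c : ℤ) : Near ν (ν + c) := ⟨c, Eq.refl _⟩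

lemma Near.add_nat (ν : P) (c : ℕ) : Near ν (ν + c) := ⟨c, by simp⟩

lemma Near.sub_int (ν : P) (c : ℤ) : Near ν (ν - c) := ⟨-c, by simp [sub_eq_add_neg]⟩

lemma Near.sub_nat (ν : P) (c : ℕ) : Near ν (ν - c) := ⟨-c, by simp [sub_eq_add_neg]⟩

lemma Inf.mono (h : Inf ν) (hle : ν ≤ μ) : Inf μ := fun c => (h c).trans hle

lemma Inf.near (h : Inf ν) (h' : Near ν μ) : Inf μ := h'.elim fun c e d => by
  have := h (d - c)
  push_cast at this
  linarith

lemma Inf.nonneg (h : Inf ν) : 0 ≤ ν := by simpa using h 0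

lemma Inf.pos (h : Inf ν) : 0 < ν := by
  have := h 1
  push_cast at this
  linarith

lemma Inf.add (h : Inf ν) (h' : Inf μ) : Inf (ν + μ) := h.mono (by linarith [h'.nonneg])

lemma Inf.add_int (h : Inf ν) (c : ℤ) : Inf (ν + c) := h.near (Near.add_int ν c)

lemma Inf.add_nat (h : Inf ν) (c : ℕ) : Inf (ν + c) := h.near (Near.add_nat ν c)

lemma Inf.sub_int (h : Inf ν) (c : ℤ) : Inf (ν - c) := h.near (Near.sub_int ν c)

lemma Inf.sub_nat (h : Inf ν) (c : ℕ) : Inf (ν - c) := h.near (Near.sub_nat ν c)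

lemma Inf.nat_le (h : Inf ν) (c : ℕ) : (c : P) ≤ ν := by simpa using h c

lemma Near.le_add (h : Near ν μ) (hκ : Inf κ) : μ ≤ ν + κ := h.elim fun c e => by
  linarith [hκ c]

/-- The galaxies. -/
abbrev Gx (P : Type) [CommRing P] := P ⧸ AddSubgroup.zmultiples (1 : P)

lemma gx_eq : (ν : Gx P) = μ ↔ Near ν μ := by
  rw [QuotientAddGroup.eq, AddSubgroup.mem_zmultiples_iff]
  exact exists_congr fun c => by
    rw [zsmul_eq_mul, mul_one]
    exact ⟨fun h => by linarith, fun h => by linarith⟩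

end Pos

variable {Γ : Type u} [Group Γ] {P : Type} [CommRing P] [LinearOrder P] [IsStrictOrderedRing P]

/-- A series of normal subgroups indexed by positions. -/
structure PNS (E : P → Subgroup Γ) : Prop where
  normal : ∀ ν, (E ν).Normal
  anti : Antitone E
  comm : ∀ {ν μ : P} {a b : Γ}, a ∈ E ν → b ∈ E μ → ⁅a, b⁆ ∈ E (ν + μ)

variable {E : P → Subgroup Γ} {ν μ κ : P} {a a' b b' c g : Γ} {A B C : Gx P}

lemma PNS.comm' (h : PNS E) (ha : a ∈ E ν) (hb : b ∈ E μ) (hle : κ ≤ ν + μ) : ⁅a, b⁆ ∈ E κ :=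
  h.anti hle (h.comm ha hb)

/-- Elements living in the galaxy `A`. -/
def PNS.S (h : PNS E) (A : Gx P) : Subgroup Γ where
  carrier := {a | a = 1 ∨ ∃ ν : P, (ν : Gx P) = A ∧ Inf ν ∧ a ∈ E ν}
  one_mem' := Or.inl rfl
  mul_mem' := by
    rintro a b (rfl | ⟨ν, e, hν, ha⟩) hb
    · rwa [one_mul]
    rcases hb with rfl | ⟨μ, e', hμ, hb⟩
    · exact Or.inr ⟨ν, e, hν, by rwa [mul_one]⟩
    rcases le_total ν μ with h1 | h1
    · exact Or.inr ⟨ν, e, hν, mul_mem ha (h.anti h1 hb)⟩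
    · exact Or.inr ⟨μ, e', hμ, mul_mem (h.anti h1 ha) hb⟩
  inv_mem' := by
    rintro a (rfl | ⟨ν, e, hν, ha⟩)
    · exact Or.inl inv_one
    · exact Or.inr ⟨ν, e, hν, inv_mem ha⟩

/-- Elements beyond the galaxy `A`. -/
def T (E : P → Subgroup Γ) (A : Gx P) : Subgroup Γ where
  carrier := {a | ∀ ν : P, (ν : Gx P) = A → a ∈ E ν}
  one_mem' _ _ := one_mem _
  mul_mem' ha hb ν e := mul_mem (ha ν e) (hb ν e)
  inv_mem' ha ν e := inv_mem (ha ν e)

namespace PNS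

variable (h : PNS E)
include h

lemma T_normal (A : Gx P) : (T E A).Normal :=
  ⟨fun _ ha b ν e => (h.normal ν).conj_mem _ (ha ν e) b⟩

lemma S_normal (A : Gx P) : (h.S A).Normal := ⟨by
  rintro a (rfl | ⟨ν, e, hν, ha⟩) b
  · exact Or.inl (by simp)
  · exact Or.inr ⟨ν, e, hν, (h.normal ν).conj_mem _ ha b⟩⟩

lemma mem_S (hν : Inf ν) (ha : a ∈ E ν) : a ∈ h.S ν := Or.inr ⟨ν, rfl, hν, ha⟩

lemma comm_SS (ha : a ∈ h.S A) (hb : b ∈ h.S B) : ⁅a, b⁆ ∈ h.S (A + B) := by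
  rcases ha with rfl | ⟨ν, rfl, hν, ha⟩
  · exact Or.inl (by simp)
  rcases hb with rfl | ⟨μ, rfl, hμ, hb⟩
  · exact Or.inl (by simp)
  exact Or.inr ⟨ν + μ, rfl, hν.add hμ, h.comm ha hb⟩

lemma comm_SS_T (ha : a ∈ h.S A) (hb : b ∈ h.S B) : ⁅a, b⁆ ∈ T E B := by
  rcases ha with rfl | ⟨ν, rfl, hν, ha⟩
  · simp
  rcases hb with rfl | ⟨μ, rfl, hμ, hb⟩
  · simp
  exact fun κ e => h.comm' ha hb (by linarith [(gx_eq.1 e).symm.le_add hν])

lemma comm_TS (ha : a ∈ T E A) (hb : b ∈ h.S B) : ⁅a, b⁆ ∈ T E (A + B) := by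
  rcases hb with rfl | ⟨μ, rfl, -, hb⟩
  · simp
  exact fun κ e => h.comm' (ha (κ - μ) (by rw [QuotientAddGroup.mk_sub, e]; simp)) hb (by simp)

lemma comm_ST (ha : a ∈ h.S A) (hb : b ∈ T E B) : ⁅a, b⁆ ∈ T E (A + B) := by
  rw [← commutatorElement_inv, add_comm]
  exact inv_mem (h.comm_TS hb ha)

/-- The abelian group of the galaxy `A`. -/
def M (A : Gx P) : Type u := Additive (h.S A ⧸ (T E A).subgroupOf (h.S A))

instance (A : Gx P) : ((T E A).subgroupOf (h.S A)).Normal := (h.T_normal A).subgroupOf _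

noncomputable instance (A : Gx P) : AddCommGroup (h.M A) :=
  { (inferInstance : AddGroup (Additive (h.S A ⧸ (T E A).subgroupOf (h.S A)))) with
    add_comm := by
      rintro ⟨a⟩ ⟨b⟩
      refine QuotientGroup.eq.2 (mem_subgroupOf.2 ?_)
      convert h.comm_SS_T (inv_mem b.2) (inv_mem a.2) using 1
      simp only [commutatorElement_def, coe_mul, coe_inv]; group }

/-- The class map to the abelian group of a galaxy. -/
def mkM (A : Gx P) (a : h.S A) : h.M A := Additive.ofMul (QuotientGroup.mk a)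

/-- The Lie ring of all galaxies. -/
def L : Type u := ⨁ A : Gx P, h.M A

noncomputable instance : AddCommGroup h.L := inferInstanceAs (AddCommGroup (⨁ A : Gx P, h.M A))

open Classical in
/-- The class of a group element in the galaxy `A`. -/
noncomputable def cg (A : Gx P) (a : Γ) : h.L :=
  if ha : a ∈ h.S A then DirectSum.of h.M A (h.mkM A ⟨a, ha⟩) else 0

lemma cg_mul (ha : a ∈ h.S A) (hb : b ∈ h.S A) : h.cg A (a * b) = h.cg A a + h.cg A b := by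
  simp only [cg, dif_pos ha, dif_pos hb, dif_pos (mul_mem ha hb)]
  exact (DirectSum.of h.M A).map_add (h.mkM A ⟨a, ha⟩) (h.mkM A ⟨b, hb⟩)

lemma cg_eq_zero (ha : a ∈ h.S A) : h.cg A a = 0 ↔ a ∈ T E A := by
  classical
  simp only [cg, dif_pos ha]
  exact ((injective_iff_map_eq_zero' _).1 (DirectSum.of_injective A) _).trans
    ((QuotientGroup.eq_one_iff (N := (T E A).subgroupOf (h.S A)) ⟨a, ha⟩).trans mem_subgroupOf)

lemma cg_one : h.cg A 1 = 0 := (h.cg_eq_zero (one_mem _)).2 (one_mem _)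

lemma cg_inv (ha : a ∈ h.S A) : h.cg A a⁻¹ = -h.cg A a := by
  rw [eq_neg_iff_add_eq_zero, ← h.cg_mul (inv_mem ha) ha, inv_mul_cancel, cg_one]

lemma cg_eq (ha : a ∈ h.S A) (hb : b ∈ h.S A) : h.cg A a = h.cg A b ↔ a * b⁻¹ ∈ T E A := by
  rw [← h.cg_eq_zero (mul_mem ha (inv_mem hb)), h.cg_mul ha (inv_mem hb), h.cg_inv hb,
    ← sub_eq_add_neg, sub_eq_zero]

lemma cg_not (ha : a ∉ h.S A) : h.cg A a = 0 := dif_neg ha

@[elab_as_elim]
lemma induction {Q : h.L → Prop} (x : h.L) (h0 : Q 0) (h1 : ∀ A, ∀ a ∈ h.S A, Q (h.cg A a))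
    (h2 : ∀ x y, Q x → Q y → Q (x + y)) : Q x := by
  classical
  refine DirectSum.induction_on (β := h.M) x h0 ?_ h2
  rintro A ⟨a⟩
  have := h1 A a a.2
  rwa [cg, dif_pos a.2] at this

lemma hom_ext {X : Type*} [AddCommGroup X] {f f' : h.L →+ X}
    (e : ∀ A, ∀ a ∈ h.S A, f (h.cg A a) = f' (h.cg A a)) : f = f' :=
  AddMonoidHom.ext fun x => h.induction x (by simp) e fun x y h1 h2 => by simp [h1, h2]

lemma exists_lift {X : Type*} [AddCommGroup X] (f : Gx P → Γ → X)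
    (hm : ∀ A, ∀ a ∈ h.S A, ∀ b ∈ h.S A, f A (a * b) = f A a + f A b)
    (h0 : ∀ A, ∀ a ∈ h.S A, a ∈ T E A → f A a = 0) :
    ∃ φ : h.L →+ X, ∀ A, ∀ a ∈ h.S A, φ (h.cg A a) = f A a := by
  classical
  let ψ (A : Gx P) : h.M A →+ X := MonoidHom.toAdditiveLeft (QuotientGroup.lift _
    (MonoidHom.mk' (fun a : h.S A => Multiplicative.ofAdd (f A a))
      fun a b => congrArg Multiplicative.ofAdd (hm A a a.2 b b.2))
    fun a ha => congrArg Multiplicative.ofAdd (h0 A a a.2 ha))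
  refine ⟨DirectSum.toAddMonoid ψ, fun A a ha => ?_⟩
  rw [cg, dif_pos ha]
  exact DirectSum.toAddMonoid_of ψ A _

lemma exists_br : ∃ β : h.L →+ h.L →+ h.L, ∀ A, ∀ a ∈ h.S A, ∀ B, ∀ b ∈ h.S B,
    β (h.cg A a) (h.cg B b) = h.cg (A + B) ⁅a, b⁆ := by
  classical
  have h1 : ∀ A a, ∃ φ : h.L →+ h.L, a ∈ h.S A → ∀ B, ∀ b ∈ h.S B,
      φ (h.cg B b) = h.cg (A + B) ⁅a, b⁆ := fun A a => by
    by_cases ha : a ∈ h.S A
    swap
    · exact ⟨0, fun h => (ha h).elim⟩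
    refine (h.exists_lift (fun B b => h.cg (A + B) ⁅a, b⁆) (fun B b hb b' hb' => ?_)
      fun B b hb hb' => ?_).imp fun _ h _ => h
    · have e : ⁅a, b * b'⁆ = ⁅a, b⁆ * (⁅b, ⁅a, b'⁆⁆ * ⁅a, b'⁆) := by
        simp only [commutatorElement_def]; group
      have m := h.comm_SS ha hb'
      have m' : ⁅b, ⁅a, b'⁆⁆ ∈ h.S (A + B) :=
        mul_mem ((h.S_normal _).conj_mem _ m b) (inv_mem m)
      rw [e, h.cg_mul (h.comm_SS ha hb) (mul_mem m' m), h.cg_mul m' m,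
        (h.cg_eq_zero m').2 (h.comm_SS_T hb m), zero_add]
    · exact (h.cg_eq_zero (h.comm_SS ha hb)).2 (h.comm_ST ha hb')
  choose φ hφ using h1
  refine (h.exists_lift φ (fun A a ha a' ha' => h.hom_ext fun B b hb => ?_)
    fun A a ha ha' => h.hom_ext fun B b hb => ?_).imp fun β hβ A a ha B b hb => by
      rw [hβ A a ha, hφ A a ha B b hb]
  · have e : ⁅a * a', b⁆ = ⁅a, ⁅a', b⁆⁆ * ⁅a', b⁆ * ⁅a, b⁆ := by
      simp only [commutatorElement_def]; group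
    have m := h.comm_SS ha' hb
    have m' : ⁅a, ⁅a', b⁆⁆ ∈ h.S (A + B) :=
      mul_mem ((h.S_normal _).conj_mem _ m a) (inv_mem m)
    rw [AddMonoidHom.add_apply, hφ A _ (mul_mem ha ha') B b hb, hφ A a ha B b hb, hφ A a' ha' B b hb,
      e, h.cg_mul (mul_mem m' m) (h.comm_SS ha hb), h.cg_mul m' m,
      (h.cg_eq_zero m').2 (h.comm_SS_T ha m), zero_add, add_comm]
  · rw [hφ A a ha B b hb]
    exact (h.cg_eq_zero (h.comm_SS ha hb)).2 (h.comm_TS ha' hb)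

/-- The bracket. -/
noncomputable def br : h.L →+ h.L →+ h.L := h.exists_br.choose

lemma br_cg (ha : a ∈ h.S A) (hb : b ∈ h.S B) :
    h.br (h.cg A a) (h.cg B b) = h.cg (A + B) ⁅a, b⁆ := h.exists_br.choose_spec A a ha B b hb

lemma br_skew (x y : h.L) : h.br x y = -h.br y x := by
  have : h.br = -h.br.flip := h.hom_ext fun A a ha => h.hom_ext fun B b hb => by
    rw [AddMonoidHom.neg_apply, AddMonoidHom.neg_apply, AddMonoidHom.flip_apply, h.br_cg ha hb,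
      h.br_cg hb ha, ← h.cg_inv (h.comm_SS hb ha), commutatorElement_inv, add_comm]
  exact DFunLike.congr_fun (DFunLike.congr_fun this x) y

lemma br_self (x : h.L) : h.br x x = 0 := by
  refine h.induction x (by simp) (fun A a ha => ?_) fun x y h1 h2 => ?_
  · rw [h.br_cg ha ha, commutatorElement_self, cg_one]
  · simp only [map_add, AddMonoidHom.add_apply, h1, h2, h.br_skew x y]
    abel

lemma cg_jacobi (ha : a ∈ h.S A) (hb : b ∈ h.S B) (hc : c ∈ h.S C) :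
    h.cg (A + B + C) ⁅⁅a, b⁆, c⁆ + h.cg (A + B + C) ⁅⁅b, c⁆, a⁆ + h.cg (A + B + C) ⁅⁅c, a⁆, b⁆ = 0 := by
  have key : ∀ {A B C D : Gx P} {a b c : Γ}, a ∈ h.S A → b ∈ h.S B → c ∈ h.S C → D = A + B + C →
      h.cg D ⁅⁅a, b⁆, c⁆ = h.cg D ⁅⁅a, b⁆, b * c * b⁻¹⁆ ∧ ⁅⁅a, b⁆, b * c * b⁻¹⁆ ∈ h.S D := by
    rintro A B C _ a b c ha hb hc rfl
    have m := h.comm_SS ha hb
    have hc' := (h.S_normal _).conj_mem _ hc b
    refine ⟨?_, h.comm_SS m hc'⟩
    rw [← h.br_cg m hc, ← h.br_cg m hc']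
    congr 1
    rw [h.cg_eq hc hc']
    convert h.comm_SS_T hb hc |> inv_mem using 1
    simp only [commutatorElement_def]; group
  obtain ⟨e1, m1⟩ := key ha hb hc rfl
  obtain ⟨e2, m2⟩ := key (D := A + B + C) hb hc ha (by abel)
  obtain ⟨e3, m3⟩ := key (D := A + B + C) hc ha hb (by abel)
  rw [e1, e2, e3, ← h.cg_mul m1 m2, ← h.cg_mul (mul_mem m1 m2) m3, ← h.cg_one (A := A + B + C)]
  congr 1
  simp only [commutatorElement_def]; group

lemma br_jacobi (x y z : h.L) :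
    h.br (h.br x y) z + h.br (h.br y z) x + h.br (h.br z x) y = 0 := by
  refine h.induction x (by simp) (fun A a ha => ?_) fun x x' h1 h2 => ?_
  · refine h.induction y (by simp) (fun B b hb => ?_) fun y y' h1 h2 => ?_
    · refine h.induction z (by simp) (fun C c hc => ?_) fun z z' h1 h2 => ?_
      · rw [h.br_cg ha hb, h.br_cg hb hc, h.br_cg hc ha, h.br_cg (h.comm_SS ha hb) hc,
          h.br_cg (h.comm_SS hb hc) ha, h.br_cg (h.comm_SS hc ha) hb,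
          show B + C + A = A + B + C by abel, show C + A + B = A + B + C by abel]
        exact h.cg_jacobi ha hb hc
      · simp only [map_add, AddMonoidHom.add_apply]
        linear_combination (norm := abel1) h1 + h2
    · simp only [map_add, AddMonoidHom.add_apply]
      linear_combination (norm := abel1) h1 + h2
  · simp only [map_add, AddMonoidHom.add_apply]
    linear_combination (norm := abel1) h1 + h2

noncomputable instance : LieRing h.L where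
  bracket x y := h.br x y
  add_lie x y z := by
    change h.br (x + y) z = h.br x z + h.br y z
    rw [map_add]; rfl
  lie_add x y z := map_add (h.br x) y z
  lie_self := h.br_self
  leibniz_lie x y z := by
    change h.br x (h.br y z) = h.br (h.br x y) z + h.br y (h.br x z)
    have := h.br_jacobi x y z
    rw [h.br_skew (h.br y z), h.br_skew (h.br z x), h.br_skew z x, map_neg, neg_neg] at this
    linear_combination (norm := abel1) -this

lemma lie_cg (ha : a ∈ h.S A) (hb : b ∈ h.S B) :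
    ⁅h.cg A a, h.cg B b⁆ = h.cg (A + B) ⁅a, b⁆ := h.br_cg ha hb

lemma exists_rho (g : Γ) : ∃ φ : h.L →+ h.L, ∀ A, ∀ a ∈ h.S A,
    φ (h.cg A a) = h.cg A (g * a * g⁻¹) :=
  h.exists_lift _ (fun A a ha b hb => by
    rw [← h.cg_mul ((h.S_normal A).conj_mem _ ha g) ((h.S_normal A).conj_mem _ hb g)]
    congr 1; group) fun A a ha ha' =>
    (h.cg_eq_zero ((h.S_normal A).conj_mem _ ha g)).2 ((h.T_normal A).conj_mem _ ha' g)

/-- The conjugation action. -/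
noncomputable def ρ (g : Γ) : h.L →+ h.L := (h.exists_rho g).choose

lemma ρ_cg (g : Γ) (ha : a ∈ h.S A) : h.ρ g (h.cg A a) = h.cg A (g * a * g⁻¹) :=
  (h.exists_rho g).choose_spec A a ha

lemma ρ_one (x : h.L) : h.ρ 1 x = x :=
  DFunLike.congr_fun (h.hom_ext (f := h.ρ 1) (f' := AddMonoidHom.id _) fun A a ha => by
    simp [h.ρ_cg 1 ha]) x

lemma ρ_mul (g g' : Γ) (x : h.L) : h.ρ (g * g') x = h.ρ g (h.ρ g' x) :=
  DFunLike.congr_fun (h.hom_ext (f := h.ρ (g * g')) (f' := (h.ρ g).comp (h.ρ g')) fun A a ha => by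
    rw [AddMonoidHom.comp_apply, h.ρ_cg _ ha, h.ρ_cg _ ha,
      h.ρ_cg _ ((h.S_normal A).conj_mem _ ha g')]
    congr 1; group) x

lemma ρ_lie (g : Γ) (x y : h.L) : h.ρ g ⁅x, y⁆ = ⁅h.ρ g x, h.ρ g y⁆ := by
  refine h.induction x (by simp) (fun A a ha => ?_) fun x x' h1 h2 => ?_
  · refine h.induction y (by simp) (fun B b hb => ?_) fun y y' h1 h2 => ?_
    · rw [h.lie_cg ha hb, h.ρ_cg g ha, h.ρ_cg g hb, h.ρ_cg g (h.comm_SS ha hb),
        h.lie_cg ((h.S_normal A).conj_mem _ ha g) ((h.S_normal B).conj_mem _ hb g)]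
      congr 1
      simp only [commutatorElement_def]; group
    · simp only [map_add, lie_add, h1, h2]
  · simp only [map_add, add_lie, h1, h2]

lemma exists_proj (A : Gx P) : ∃ φ : h.L →+ h.L, (∀ a, φ (h.cg A a) = h.cg A a) ∧
    ∀ B ≠ A, ∀ b, φ (h.cg B b) = 0 := by
  classical
  obtain ⟨φ, hφ⟩ := h.exists_lift (fun B b => if B = A then h.cg B b else 0)
    (fun B a ha b hb => by split_ifs; exacts [h.cg_mul ha hb, (add_zero _).symm])
    fun B a ha ha' => by split_ifs; exacts [(h.cg_eq_zero ha).2 ha', rfl]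
  refine ⟨φ, fun a => ?_, fun B hB b => ?_⟩
  · by_cases ha : a ∈ h.S A
    · rw [hφ A a ha, if_pos rfl]
    · rw [h.cg_not ha, map_zero]
  · by_cases hb : b ∈ h.S B
    · rw [hφ B b hb, if_neg hB]
    · rw [h.cg_not hb, map_zero]

/-- The class of a group element in the galaxy of the position `ν`. -/
noncomputable def cls (ν : P) (a : Γ) : h.L := h.cg ν a

/-- The filtration: classes of the elements of `E ν` (zero at non infinite positions). -/
def F (ν : P) : AddSubgroup h.L where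
  carrier := {x | x = 0 ∨ Inf ν ∧ ∃ a ∈ E ν, h.cls ν a = x}
  zero_mem' := Or.inl rfl
  add_mem' := by
    rintro x y (rfl | ⟨hν, a, ha, rfl⟩) hy
    · rwa [zero_add]
    rcases hy with rfl | ⟨-, b, hb, rfl⟩
    · exact Or.inr ⟨hν, a, ha, (add_zero _).symm⟩
    exact Or.inr ⟨hν, a * b, mul_mem ha hb, h.cg_mul (h.mem_S hν ha) (h.mem_S hν hb)⟩
  neg_mem' := by
    rintro x (rfl | ⟨hν, a, ha, rfl⟩)
    · exact Or.inl neg_zero
    exact Or.inr ⟨hν, a⁻¹, inv_mem ha, h.cg_inv (h.mem_S hν ha)⟩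

variable {x y : h.L}

lemma cls_near (e : Near ν μ) (a : Γ) : h.cls ν a = h.cls μ a := by rw [cls, gx_eq.2 e, cls]

lemma cls_one : h.cls ν 1 = 0 := h.cg_one

lemma mem_F (hν : Inf ν) : x ∈ h.F ν ↔ ∃ a ∈ E ν, h.cls ν a = x :=
  ⟨fun hx => hx.elim (fun e => ⟨1, one_mem _, e ▸ h.cls_one⟩) And.right, fun hx => Or.inr ⟨hν, hx⟩⟩

lemma F_not_inf (hν : ¬Inf ν) (hx : x ∈ h.F ν) : x = 0 := hx.elim id fun h => (hν h.1).elim

lemma cls_mem (hν : Inf ν) (ha : a ∈ E ν) : h.cls ν a ∈ h.F ν := (h.mem_F hν).2 ⟨a, ha, rfl⟩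

lemma cls_mul (hν : Inf ν) (ha : a ∈ E ν) (hb : b ∈ E ν) :
    h.cls ν (a * b) = h.cls ν a + h.cls ν b := h.cg_mul (h.mem_S hν ha) (h.mem_S hν hb)

lemma cls_inv (hν : Inf ν) (ha : a ∈ E ν) : h.cls ν a⁻¹ = -h.cls ν a := h.cg_inv (h.mem_S hν ha)

lemma cls_div (hν : Inf ν) (ha : a ∈ E ν) (hb : b ∈ E ν) :
    h.cls ν (a * b⁻¹) = h.cls ν a - h.cls ν b := by
  rw [h.cls_mul hν ha (inv_mem hb), h.cls_inv hν hb, sub_eq_add_neg]

lemma cls_pow (hν : Inf ν) (ha : a ∈ E ν) (n : ℕ) : h.cls ν (a ^ n) = n • h.cls ν a := by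
  induction n with
  | zero => simpa using h.cls_one
  | succ n ih => rw [pow_succ, h.cls_mul hν (pow_mem ha n) ha, ih, succ_nsmul]

lemma cls_zpow (hν : Inf ν) (ha : a ∈ E ν) (n : ℤ) : h.cls ν (a ^ n) = n • h.cls ν a := by
  obtain ⟨n, rfl | rfl⟩ := n.eq_nat_or_neg
  · simp [h.cls_pow hν ha]
  · simp [h.cls_pow hν ha, h.cls_inv hν (pow_mem ha n)]

lemma cls_eq_zero (hν : Inf ν) (ha : a ∈ E ν) : h.cls ν a = 0 ↔ ∀ c : ℤ, a ∈ E (ν + c) :=
  (h.cg_eq_zero (h.mem_S hν ha)).trans ⟨fun H c => H _ (gx_eq.2 (Near.add_int ν c)).symm,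
    fun H μ e => by
      obtain ⟨c, rfl⟩ := (gx_eq.1 e).symm
      exact H c⟩

lemma cls_deep (hν : Inf ν) (hκ : Inf κ) (ha : a ∈ E (ν + κ)) : h.cls ν a = 0 :=
  (h.cls_eq_zero hν (h.anti (by linarith [hκ.nonneg]) ha)).2 fun c =>
    h.anti (by linarith [hκ c]) ha

lemma cls_mem_iff (hν : Inf ν) (ha : a ∈ E ν) (e : Near ν μ) : h.cls ν a ∈ h.F μ ↔ a ∈ E μ := by
  have hμ := hν.near e
  refine ⟨fun H => ?_, fun H => h.cls_near e a ▸ h.cls_mem hμ H⟩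
  obtain ⟨b, hb, e'⟩ := (h.mem_F hμ).1 H
  rw [h.cls_near e a, eq_comm] at e'
  have := (h.cg_eq (gx_eq.2 e ▸ h.mem_S hν ha) (h.mem_S hμ hb)).1 e' μ rfl
  simpa using mul_mem this hb

lemma cls_sub_mem (hν : Inf ν) (ha : a ∈ E ν) (hb : b ∈ E ν) (e : Near ν μ) :
    h.cls ν a - h.cls ν b ∈ h.F μ ↔ a * b⁻¹ ∈ E μ := by
  rw [← h.cls_div hν ha hb, h.cls_mem_iff hν (mul_mem ha (inv_mem hb)) e]

lemma lie_cls (hν : Inf ν) (hμ : Inf μ) (ha : a ∈ E ν) (hb : b ∈ E μ) :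
    ⁅h.cls ν a, h.cls μ b⁆ = h.cls (ν + μ) ⁅a, b⁆ := h.lie_cg (h.mem_S hν ha) (h.mem_S hμ hb)

lemma ρ_cls (g : Γ) (hν : Inf ν) (ha : a ∈ E ν) : h.ρ g (h.cls ν a) = h.cls ν (g * a * g⁻¹) :=
  h.ρ_cg g (h.mem_S hν ha)

lemma ρ_sub_cls (g : Γ) (hν : Inf ν) (ha : a ∈ E ν) :
    h.ρ g (h.cls ν a) - h.cls ν a = h.cls ν ⁅g, a⁆ := by
  rw [h.ρ_cls g hν ha, ← h.cls_div hν ((h.normal ν).conj_mem _ ha g) ha, commutatorElement_def]

lemma F_anti (e : Near ν μ) (hle : ν ≤ μ) : h.F μ ≤ h.F ν := by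
  rintro x (rfl | ⟨hμ, a, ha, rfl⟩)
  · exact zero_mem _
  · exact (h.cls_mem_iff hμ ha e.symm).2 (h.anti hle ha)

lemma F_sep (hx : ∀ c : ℕ, x ∈ h.F (ν + c)) : x = 0 := by
  rcases hx 0 with rfl | ⟨hν, a, ha, rfl⟩
  · rfl
  refine (h.cls_eq_zero hν ha).2 fun c => h.anti ?_
    ((h.cls_mem_iff hν ha ((Near.add_nat ν 0).symm.trans (Near.add_nat ν c.toNat))).1 (hx c.toNat))
  have : (c : P) ≤ (c.toNat : ℤ) := Int.cast_le.2 (Int.self_le_toNat c)
  rw [Int.cast_natCast] at this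
  push_cast
  linarith

lemma F_far (e : ¬Near ν μ) (hx : x ∈ h.F ν) (hx' : x ∈ h.F μ) : x = 0 := by
  obtain ⟨φ, h1, h2⟩ := h.exists_proj ν
  rcases hx with rfl | ⟨-, a, -, rfl⟩
  · rfl
  rcases hx' with e' | ⟨-, b, -, e'⟩
  · exact e'
  rw [← h2 μ (fun e' => e (gx_eq.1 e'.symm)) b]
  exact (h1 a).symm.trans (congrArg φ e'.symm)

lemma lie_mem_F (hx : x ∈ h.F ν) (hy : y ∈ h.F μ) : ⁅x, y⁆ ∈ h.F (ν + μ) := by
  rcases hx with rfl | ⟨hν, a, ha, rfl⟩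
  · simp
  rcases hy with rfl | ⟨hμ, b, hb, rfl⟩
  · simp
  rw [h.lie_cls hν hμ ha hb]
  exact h.cls_mem (hν.add hμ) (h.comm ha hb)

lemma ρ_mem_F (g : Γ) (hx : x ∈ h.F ν) : h.ρ g x ∈ h.F ν := by
  rcases hx with rfl | ⟨hν, a, ha, rfl⟩
  · simp
  rw [h.ρ_cls g hν ha]
  exact h.cls_mem hν ((h.normal ν).conj_mem _ ha g)

lemma ρ_deg {w : ℤ} (hg : g ∈ E w) (hx : x ∈ h.F ν) : h.ρ g x - x ∈ h.F (ν + w) := by
  rcases hx with rfl | ⟨hν, a, ha, rfl⟩
  · simp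
  rw [h.ρ_sub_cls g hν ha, h.cls_mem_iff (a := ⁅g, a⁆) hν
    (mul_mem ((h.normal ν).conj_mem _ ha g) (inv_mem ha)) (Near.add_int ν w)]
  exact h.comm' hg ha (by rw [add_comm])

lemma ρ_deep (hκ : Inf κ) (hg : g ∈ E κ) (x : h.L) : h.ρ g x = x := by
  refine h.induction x (by simp) (fun A a ha => ?_) fun x y h1 h2 => by rw [map_add, h1, h2]
  rw [h.ρ_cg g ha, h.cg_eq ((h.S_normal A).conj_mem _ ha g) ha]
  exact h.comm_SS_T (h.mem_S hκ hg) ha

@[elab_as_elim]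
lemma induction_F {Q : h.L → Prop} (x : h.L) (h1 : ∀ ν, Inf ν → ∀ x ∈ h.F ν, Q x) (h0 : Q 0)
    (h2 : ∀ x y, Q x → Q y → Q (x + y)) : Q x := by
  refine h.induction x h0 ?_ h2
  rintro A a (rfl | ⟨ν, rfl, hν, ha⟩)
  · rwa [h.cg_one]
  · exact h1 ν hν _ (h.cls_mem hν ha)

end PNS

end Pool.Agent.Lib.MP_ffb54b_al.P2
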