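import Pool.Agent.Lib.MP_ffb54b_al.P2.EGlue
import Pool.Agent.Lib.MP_ffb54b_al.P2.ADef

set_option autoImplicit false
set_option linter.unusedSectionVars false

namespace Pool.Agent.Lib.MP_ffb54b_al.P2

open Finset Filter FS
open scoped commutatorElement

universe u v

section Win

variable {Γ : Type v} [Group Γ] {V : Type u} [AddCommGroup V] {Φ : GA Γ V} {g : Γ} {w d : ℕ}
  {f : Bool → ℤ → ℕ → ZMod 2}

/-- windows for the action on the basis. -/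
def GA.Win (Φ : GA Γ V) (g : Γ) (w : ℕ) (f : Bool → ℤ → ℕ → ZMod 2) : Prop :=
  ∀ p i, Φ.ρ g (Φ.e p i) - ∑ k ∈ range w, (f p i k).val • Φ.e p (i + k) ∈ Φ.F (i + w)

lemma GA.Win.mono (h : Φ.Win g w f) (hd : d ≤ w) : Φ.Win g d f := fun p i => by
  have h2 : ∑ k ∈ Ico d w, (f p i k).val • Φ.e p (i + k) ∈ Φ.F (i + d) := sum_mem fun k hk =>
    nsmul_mem (Φ.mono (Φ.e_mem p _) (by have := (mem_Ico.1 hk).1; omega)) _
  have h3 := add_mem (Φ.mono (h p i) (show i + d ≤ i + w by omega)) h2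
  rw [← sum_range_add_sum_Ico _ hd] at h3
  convert h3 using 1
  abel

lemma GA.Win.low (h0 : ∀ p i, f p i 0 = 1) (h1 : ∀ p i k, 0 < k → k < d → f p i k = 0)
    (hd : 1 ≤ d) (p : Bool) (i : ℤ) :
    ∑ k ∈ range d, (f p i k).val • Φ.e p (i + k) = Φ.e p i := by
  rw [sum_eq_single 0 (fun k hk hk' => by rw [h1 p i k (by omega) (mem_range.1 hk)]; simp)
    fun hk => (hk (mem_range.2 hd)).elim, h0]
  simp [ZMod.val_one]

lemma GA.Win.s0 (h : Φ.Win g w f) (h0 : ∀ p i, f p i 0 = 1)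
    (h1 : ∀ p i k, 0 < k → k < d → f p i k = 0) (hd : 1 ≤ d) (hw : d + 1 ≤ w) :
    Φ.δ g ∈ Φ.N d ∧ ∀ i p, Φ.s0 (Φ.δ g) d i (ee p) = f p i d • ee p := by
  have k : ∀ p i, Φ.δ g (Φ.e p i) - (f p i d).val • Φ.e p (i + d) ∈ Φ.F (i + d + 1) := fun p i => by
    have := h.mono hw p i
    rw [sum_range_succ, GA.Win.low h0 h1 hd, Nat.cast_succ, ← add_assoc, ← sub_sub] at this
    exact this
  have m := fun p i => nsmul_mem (Φ.e_mem p (i + d)) (f p i d).val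
  refine ⟨N_of_basis (Φ.δ_mem g) fun p i => by
    simpa using add_mem (Φ.mono (k p i) (show i + d ≤ _ by omega)) (m p i), fun i p => ?_⟩
  rw [s0_ee, Φ.c_congr (m p i) (k p i), Φ.c_val (Φ.e_mem _ _), Φ.e_c]

lemma GA.Win.s1 (h : Φ.Win g w f) (h0 : ∀ p i, f p i 0 = 1)
    (h1 : ∀ p i k, 0 < k → k < d → f p i k = 0) (hd : 1 ≤ d) (hw : d + 2 ≤ w) (i : ℤ) (p : Bool) :
    Φ.s1 (Φ.δ g) d i (ee p) = f p i (d + 1) • ee p := by
  have k : Φ.δ g (Φ.e p i) - ((f p i d).val • Φ.e p (i + d) +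
      (f p i (d + 1)).val • Φ.e p (i + d + 1)) ∈ Φ.F (i + d + 2) := by
    have := h.mono hw p i
    rw [sum_range_succ, sum_range_succ, GA.Win.low h0 h1 hd, add_assoc, ← sub_sub] at this
    push_cast at this
    rw [← add_assoc, ← add_assoc] at this
    exact this
  have m := nsmul_mem (Φ.e_mem p (i + d)) (f p i d).val
  have m' := nsmul_mem (Φ.e_mem p (i + d + 1)) (f p i (d + 1)).val
  have m'' := Φ.mono m' (show i + d ≤ _ by omega)
  rw [s1_ee, Φ.c1_congr (add_mem m m'') k, Φ.c1_add m m'', Φ.c1_val (Φ.e_mem _ _), ← Φ.ι_ee,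
    Φ.c1_ι, smul_zero, zero_add, Φ.c1_succ m', Φ.c_val (Φ.e_mem _ _), Φ.e_c]

lemma GA.Win.W0 {r : ℤ → ZMod 2} (h : Φ.Win g w fun _ i => fr d (r i)) (hd : 1 ≤ d)
    (hw : d + 1 ≤ w) : Φ.W0 g d r := by
  obtain ⟨h1, h2⟩ := h.s0 (d := d) (fun _ _ => by simp [fr])
    (fun _ _ k h1 h2 => by simp [fr, h1.ne', h2.ne]) hd hw
  exact ⟨h1, fun i => mat_ext fun p => by rw [h2]; simp [fr, show d ≠ 0 by omega]⟩

lemma GA.Win.W {r : ℤ → ZMod 2} (h : Φ.Win g w fun _ i => fr d (r i)) (hd : 1 ≤ d)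
    (hw : d + 2 ≤ w) : Φ.W g d (fun i => r i • 1) fun _ => 0 :=
  ⟨(h.W0 hd (by omega)).1, fun i => ⟨(h.W0 hd (by omega)).2 i, mat_ext fun p => by
    rw [h.s1 (d := d) (fun _ _ => by simp [fr])
      (fun _ _ k h1 h2 => by simp [fr, h1.ne', h2.ne]) hd hw]
    simp [fr]⟩⟩

end Win

variable {U : Ultrafilter ℕ} {G : ℕ → Type u} [∀ n, Group (G n)] {K : ∀ n, ℕ → Subgroup (G n)}

/-- the change of basis. -/
def phiT (t : ZMod 2) : Mat := mkM (vb t)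

lemma phiT_ee (t : ZMod 2) (p : Bool) : phiT t (ee p) = vb t p := mkM_ee _ _

lemma phiT_phiT (t : ZMod 2) (w : W2) : phiT t (phiT t w) = w := by
  revert t w; decide

lemma phiT_vb (t : ZMod 2) (p : Bool) : phiT t (vb t p) = ee p := by
  rw [← phiT_ee, phiT_phiT]

lemma phiT_inj {t : ZMod 2} {v w : W2} (h : phiT t v = phiT t w) : v = w := by
  rw [← phiT_phiT t v, h, phiT_phiT]

namespace Fam

variable {H : Fam U K} {y : ∀ n, G n} {ν : Pos U} {a : H.L} {i j : ℤ}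

lemma F_le (h : a ∈ H.F (ν + j)) (hij : i ≤ j) : a ∈ H.F (ν + i) :=
  H.up h (j - i).toNat (by rw [← Int.cast_natCast, Int.toNat_of_nonneg (by omega)]; push_cast; ring)

lemma P_le (h : a ∈ H.Ps y (ν + j)) (hij : i ≤ j) : a ∈ H.Ps y (ν + i) :=
  P_up h (j - i).toNat (by rw [← Int.cast_natCast, Int.toNat_of_nonneg (by omega)]; push_cast; ring)

/-- the `P`-part of the galaxy of `ν`. -/
def PG (H : Fam U K) (y : ∀ n, G n) (ν : Pos U) : AddSubgroup H.L where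
  carrier := {p | ∃ i : ℤ, p ∈ H.Ps y (ν + i)}
  zero_mem' := ⟨0, zero_mem _⟩
  add_mem' := fun ⟨i, hi⟩ ⟨j, hj⟩ =>
    ⟨min i j, add_mem (P_le hi (min_le_left _ _)) (P_le hj (min_le_right _ _))⟩
  neg_mem' := fun ⟨i, hi⟩ => ⟨i, neg_mem hi⟩

end Fam

namespace S1L

open Fam

variable {H : Fam U K} {x y u : ∀ n, G n} {c : Pos U → H.L → W2 × W2} {σ : Pos U → Bil}
  (S : S1L H x y u c σ) {ν μ i j : Pos U} {a a' k p : H.L} {g h : ∀ n, G n} {s : ℕ}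
include S

lemma PG_P (hν : Inf ν) (v : H.PG y ν) {i : ℤ} (h : (v : H.L) ∈ H.F (ν + i)) :
    (v : H.L) ∈ H.Ps y (ν + i) := by
  obtain ⟨j, hj⟩ := v.2
  rcases le_total i j with h1 | h1
  · exact P_le hj h1
  · have e : ν + j + ((i - j).toNat : ℕ) = ν + i := by
      rw [← Int.cast_natCast, Int.toNat_of_nonneg (by omega)]; push_cast; ring
    exact P_cast (S.P_of_F (hν.add_int j) hj _ (H.cast h e.symm)) e

lemma π_PG (hν : Inf ν) (v : H.PG y ν) : H.π y v = v :=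
  v.2.elim fun i hi => S.π_P (hν.add_int i) hi

variable (hT : ∀ e, H.ExKP y e)
include hT

lemma π_ρ_π (g : ∀ n, G n) (hν : Inf ν) (ha : a ∈ H.F ν) :
    H.π y (H.ρ g (H.π y a)) = H.π y (H.ρ g a) := by
  have h1 := S.π_spec hν ha
  have h2 := S.π_add hν (K_F (S.ρ_K hT g hν h1.2)) (H.pns.ρ_mem_F g (P_F h1.1))
  rw [S.π_K hν (S.ρ_K hT g hν h1.2), zero_add, ← map_add, sub_add_cancel] at h2
  exact h2.symm

lemma KD_four (h : ∀ {i j : Pos U} {a a' : H.L}, Inf i → Inf j → a ∈ H.F i → a' ∈ H.F j →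
    H.ρ g ⁅a, a'⁆ - ⁅a, a'⁆ ∈ H.F (i + j + (3 : ℕ))) : H.KD y g 4 := fun {m k} hm hk => by
  refine S.K_desc hm ((H.F (m + (4 : ℕ))).comap (H.Y g : H.L →+ H.L)) 2
    (fun k hk => H.cast (S.KD_two hT g (hm.add_nat 2) hk) (by push_cast; ring))
    (fun {i j p q} t hi hj ht ho hp hq => ?_) hk
  have h1 := S.K_even ((hi.add hj).add_nat 3) (S.K_of_F (hi.add hj)
    (S.A_K hT g (hi.add hj) (S.lie_PP hi hj hp hq)) 3 (h hi hj (P_F hp) (P_F hq)))
    (by rw [map_add, ho, map_natCast]; rfl)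
  exact H.up (K_F h1) t (by rw [ht]; push_cast; ring)

lemma KD_of_three (h : H.VD y g 3) : H.KD y g 4 :=
  S.KD_four hT fun hi hj ha ha' => (S.Sym_lie hT h (by omega) hi hj ha ha').1

lemma KD_of_two (h : H.VD y g 2) (h' : ∀ {ν} v, Inf ν → S.Sym g 2 ν v = v) : H.KD y g 4 :=
  S.KD_four hT fun {i j a a'} hi hj ha ha' => by
    obtain ⟨h1, h2⟩ := S.Sym_lie hT h (by omega) hi hj ha ha'
    rw [h' _ hi, h' _ hj, w2_add_self] at h2
    exact H.cast (K_F (S.K_succ' ((hi.add hj).add_nat 2) (S.K_of_F (hi.add hj)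
      (S.A_K hT g (hi.add hj) (S.lie_K hT hi hj ha ha')) 2 h1) h2)) (by push_cast; ring)

lemma Sym_loc (h2 : H.KD y g (s + 1)) (hs : 1 ≤ s) (hi : Inf i) (hj : Inf j)
    (ho : red 2 (i + j + s : Pos U) = 1)
    (h1 : ∀ v, H.π y (H.ρ g (S.pw i v) - S.pw i v) ∈ H.F (i + s))
    (h1' : ∀ v, H.π y (H.ρ g (S.pw j v) - S.pw j v) ∈ H.F (j + s)) (r : Bool) :
    S.Sym g s i (ee r) = S.Sym g s j (ee r) := by
  have hN := (hi.add hj).add_nat s
  refine (S.good hN ho).ab (A := fun r => S.Sym g s i (ee r)) (B := fun r => S.Sym g s j (ee r))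
    (fun r t => w2_eq_of_add ?_) r
  have ha := S.pw_F hi (ee r)
  have ha' := S.pw_F hj (ee t)
  have n1 := h1 (ee r)
  have n2 := h1' (ee t)
  have h3 := S.cZ_deep hN (H.cast (h2 (hi.add hj) (S.lie_PP hi hj (S.pw_P hi (ee r))
    (S.pw_P hj (ee t)))) (by push_cast; ring))
  have z1 := S.cZ_lie (hi.add_nat s) hj n1 ha'
  have z2 := S.cZ_lie hi (hj.add_nat s) ha n2
  rw [S.cW_pw hj] at z1
  rw [S.cW_pw hi] at z2
  simp only [Sym]
  generalize S.pw i (ee r) = a at *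
  generalize S.pw j (ee t) = a' at *
  have e : H.ρ g ⁅a, a'⁆ - ⁅a, a'⁆ = ⁅H.π y (H.ρ g a - a), a'⁆ + ⁅a, H.π y (H.ρ g a' - a')⁆ +
      ⁅H.π y (H.ρ g a - a), H.π y (H.ρ g a' - a')⁆ := by
    rw [S.lie_π_left hT hi (S.A_mem g ha), S.lie_π_left hT hi (S.A_mem g ha),
      S.lie_π_right hT hj (S.A_mem g ha'), S.lie_π_right hT hj (S.A_mem g ha')]
    simp only [H.pns.ρ_lie, sub_lie, lie_sub]; abel
  have m1 := H.lie_mem n1 ha'
  have m2 := H.lie_mem ha n2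
  obtain ⟨r, rfl⟩ := Nat.exists_eq_add_of_le hs
  have m3 := H.up (H.lie_mem n1 n2) (ν := i + j + (1 + r : ℕ) + 1) r (by push_cast; ring)
  rw [show i + (1 + r : ℕ) + j = i + j + (1 + r : ℕ) by ring] at m1 z1
  rw [show i + (j + (1 + r : ℕ)) = i + j + (1 + r : ℕ) by ring] at m2 z2
  rw [e, S.add hN (add_mem m1 m2) (H.up1 m3), S.c_deep hN m3, add_zero, S.add hN m1 m2,
    Prod.snd_add, z1, z2] at h3
  exact h3

end S1L

namespace EH

open Fam

variable {H : Fam U K} {x y u : ∀ n, G n} {c : Pos U → H.L → W2 × W2} {σ : Pos U → Bil}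
  {b : Bool → Pos U → H.L} {ch : Pos U → ZMod 2} {t c₆ c₇ c₈ : ZMod 2}
  (E : EH H x y u c σ b ch t c₆ c₇ c₈) {ν : Pos U} {Γ : Type v} [Group Γ] (ℓ : Γ →* ∀ n, G n)
  (hν : Inf ν)

/-- the filtered group of a galaxy. -/
noncomputable def fs : FS (H.PG y ν) where
  F i := (H.F (ν + i)).comap (H.PG y ν).subtype
  c i v := phiT t (c (ν + i) v).1
  e p i := ⟨H.π y (b p (ν + i)), i, E.bP p (hν.add_int i)⟩
  anti _ _ h _ ha := F_le ha h
  add {i a a'} ha hb := by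
    rw [← map_add, ← Prod.fst_add, ← E.s.add (a := a) (b := a') (hν.add_int i) ha hb]; rfl
  zero {i a} ha := by
    have e : ν + (i + 1 : ℤ) = ν + i + 1 := by push_cast; ring
    refine ⟨fun h => H.cast (P_F (E.s.P_succ (hν.add_int i) (E.s.PG_P hν a ha)
      (phiT_inj (h.trans (map_zero _).symm)))) e.symm, fun h => ?_⟩
    rw [E.s.cW_deep (a := a) (hν.add_int i) (H.cast h e), map_zero]
  e_mem p i := P_F (E.bP p (hν.add_int i))
  e_c p i := by rw [(E.bC p (hν.add_int i)).2, phiT_vb]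
  two {i a} ha := H.up (E.two (hν.add_int i) (E.s.PG_P hν a ha)) 6 (by push_cast; ring)
  sep a h := Subtype.ext (H.pns.F_sep (ν := ν) fun d => H.cast (h d) (by simp))
  exh a := a.2.imp fun _ h => P_F h
  compact 𝒱 i a h := by
    obtain ⟨z, hz⟩ := E.s.compact 𝒱 (fun t => (a t : H.L)) h
    have hi := hν.add_int i
    have h0 : z ∈ H.F (ν + i) := by
      obtain ⟨t, h1, h2⟩ := ((hz 0).and h).exists
      simpa using add_mem (H.up h1 0 rfl) h2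
    refine ⟨⟨H.π y z, i, (E.s.π_spec hi h0).1⟩, fun d => ?_⟩
    filter_upwards [hz d, h] with t h1 h2
    have h3 := E.s.π_mem (hi.add_nat d) h1
    rw [E.s.π_sub (a' := a t) hi h0 h2, E.s.π_PG hν] at h3
    exact H.cast h3 (by push_cast; ring)

include E hν in
lemma act_mem (g : ∀ n, G n) (v : H.PG y ν) : H.π y (H.ρ g v) ∈ H.PG y ν :=
  v.2.imp fun i h => (E.s.π_spec (hν.add_int i) (H.pns.ρ_mem_F g (P_F h))).1

/-- the action on the `P`-part of a galaxy. -/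
noncomputable def act (g : ∀ n, G n) : AddMonoid.End (H.PG y ν) :=
  AddMonoidHom.mk' (fun v => ⟨H.π y (H.ρ g v), E.act_mem hν g v⟩) fun v v' => Subtype.ext (by
    obtain ⟨i, hi⟩ := v.2
    obtain ⟨j, hj⟩ := v'.2
    change H.π y (H.ρ g (v + v')) = H.π y (H.ρ g v) + H.π y (H.ρ g v')
    rw [map_add, E.s.π_add (hν.add_int (min i j))
      (H.pns.ρ_mem_F g (P_F (P_le hi (min_le_left _ _))))
      (H.pns.ρ_mem_F g (P_F (P_le hj (min_le_right _ _))))])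

lemma act_sub (g : ∀ n, G n) (v : H.PG y ν) :
    (((E.act hν g - 1) v : H.PG y ν) : H.L) = H.π y (H.ρ g v - v) := by
  obtain ⟨i, hi⟩ := v.2
  rw [E.s.π_sub (hν.add_int i) (H.pns.ρ_mem_F g (P_F hi)) (P_F hi), E.s.π_PG hν]
  rfl

/-- the filtered module of a galaxy. -/
noncomputable def ga : GA Γ (H.PG y ν) where
  toFS := E.fs hν
  ρ :=
    { toFun := fun g => E.act hν (ℓ g)
      map_one' := AddMonoidHom.ext fun v => Subtype.ext (by
        change H.π y (H.ρ (ℓ 1) v) = v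
        rw [map_one, H.pns.ρ_one, E.s.π_PG hν])
      map_mul' := fun g g' => AddMonoidHom.ext fun v => Subtype.ext (by
        obtain ⟨i, hi⟩ := v.2
        change H.π y (H.ρ (ℓ (g * g')) v) = H.π y (H.ρ (ℓ g) (H.π y (H.ρ (ℓ g') v)))
        rw [E.s.π_ρ_π E.exKP_all _ (hν.add_int i) (H.pns.ρ_mem_F _ (P_F hi)), map_mul,
          H.pns.ρ_mul]) }
  deg g i v hv := by
    change (((E.act hν (ℓ g) - 1) v : H.PG y ν) : H.L) ∈ H.F (ν + (i + 1 : ℤ))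
    rw [act_sub]
    exact H.cast (E.s.VD_one _ (hν.add_int i) hv) (by push_cast; ring)
  par i := red 2 (ν + (i : Pos U))
  par_succ i := by rw [Int.cast_add, Int.cast_one, ← add_assoc, map_add, map_one]

variable {g : Γ} {s : ℕ}

lemma δ_apply (g : Γ) (v : H.PG y ν) :
    (((E.ga ℓ hν).δ g v : H.PG y ν) : H.L) = H.π y (H.ρ (ℓ g) v - v) := E.act_sub hν _ v

lemma mem_F {i : ℤ} {v : H.PG y ν} : v ∈ (E.ga ℓ hν).F i ↔ (v : H.L) ∈ H.F (ν + i) := Iff.rfl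

lemma N_of_VD (h : H.VD y (ℓ g) s) : (E.ga ℓ hν).δ g ∈ (E.ga ℓ hν).N s := fun i v hv => by
  rw [mem_F, δ_apply]
  exact H.cast (h (hν.add_int i) hv) (by push_cast; ring)

lemma VD_of_N (h : ∀ {ν} (hν : Inf ν), (E.ga ℓ hν).δ g ∈ (E.ga ℓ hν).N s) : H.VD y (ℓ g) s :=
  fun {ν a} hν ha => by
  have h1 := (E.s.π_spec hν ha).1
  have h2 := h hν (i := 0) (v := ⟨H.π y a, 0, by simpa using h1⟩) (by
    rw [mem_F]; simpa using P_F h1)
  rw [mem_F, δ_apply, ← E.s.π_A E.exKP_all _ hν ha] at h2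
  simpa using h2

lemma pw_N (h : (E.ga ℓ hν).δ g ∈ (E.ga ℓ hν).N s) (i : ℤ) (v : W2) :
    H.π y (H.ρ (ℓ g) (E.s.pw (ν + i) v) - E.s.pw (ν + i) v) ∈ H.F (ν + i + s) ∧
    phiT t (E.s.Sym (ℓ g) s (ν + i) v) = (E.ga ℓ hν).s0 ((E.ga ℓ hν).δ g) s i (phiT t v) := by
  have hi := hν.add_int i
  have h1 := E.s.pw_P hi v
  have m : (⟨_, i, h1⟩ : H.PG y ν) ∈ (E.ga ℓ hν).F i := P_F h1
  have h2 := h m
  have h3 := c_app h m rfl
  have e : ν + (i + s : ℤ) = ν + i + s := by push_cast; ring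
  rw [mem_F, δ_apply, e] at h2
  refine ⟨h2, ?_⟩
  change phiT t (c (ν + (i + s : ℤ)) ((E.ga ℓ hν).δ g _ : H.PG y ν)).1 =
    (E.ga ℓ hν).s0 _ _ _ (phiT t (c (ν + i) (E.s.pw (ν + i) v)).1) at h3
  rw [δ_apply, e, E.s.cW_pw hi] at h3
  exact h3

lemma s0_succ (h : (E.ga ℓ hν).δ g ∈ (E.ga ℓ hν).N s) (h2 : H.KD y (ℓ g) (s + 1)) (hs : 1 ≤ s)
    (he : Even s) (i : ℤ) :
    (E.ga ℓ hν).s0 ((E.ga ℓ hν).δ g) s (i + 1) = (E.ga ℓ hν).s0 ((E.ga ℓ hν).δ g) s i := by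
  have e0 : red 2 (s : Pos U) = 0 := by rw [map_natCast]; exact ZMod.natCast_eq_zero_iff_even.2 he
  have k := fun r => E.s.Sym_loc E.exKP_all h2 hs (hν.add_int (i + 1)) (hν.add_int i) (by
    rw [map_add, e0, show ν + (i + 1 : ℤ) + (ν + i) = 2 * (ν + i) + 1 by push_cast; ring, map_add,
      map_mul, red_two, map_one]; ring) (fun v => (E.pw_N ℓ hν h _ v).1)
    (fun v => (E.pw_N ℓ hν h _ v).1) r
  have k' : (E.ga ℓ hν).s0 ((E.ga ℓ hν).δ g) s (i + 1) * phiT t =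
      (E.ga ℓ hν).s0 ((E.ga ℓ hν).δ g) s i * phiT t := mat_ext fun r => by
    rw [Module.End.mul_apply, Module.End.mul_apply, ← (E.pw_N ℓ hν h _ _).2,
      ← (E.pw_N ℓ hν h _ _).2, k]
  exact LinearMap.ext fun v => by
    simpa only [Module.End.mul_apply, phiT_phiT] using LinearMap.congr_fun k' (phiT t v)

lemma win {w : ℕ} {f : Bool → Pos U → ℕ → ZMod 2}
    (h : ∀ p {μ}, Inf μ → H.WinL y (ℓ g) (b p) μ w (f p μ)) :
    (E.ga ℓ hν).Win g w fun p i => f p (ν + i) := fun p i => by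
  have hi := hν.add_int i
  have h1 := E.s.win_π hi (E.e_mem p) (h p hi)
  rw [← E.s.π_ρ_π E.exKP_all _ hi (E.e_mem p hi)] at h1
  rw [mem_F, AddSubgroup.coe_sub, AddSubmonoidClass.coe_finsetSum,
    sum_congr rfl (g := fun k : ℕ => (f p (ν + i) k).val • H.π y (b p (ν + i + k))) fun k _ => by
      change (f p (ν + i) k).val • H.π y (b p (ν + (i + k : ℤ))) = _
      push_cast
      rw [add_assoc]]
  exact H.cast h1 (ν := ν + (i + w : ℤ)) (by push_cast; ring)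

lemma two_of_N {d : ℕ}
    (h : ∀ {ν} (hν : Inf ν), (2 : AddMonoid.End (H.PG y ν)) ∈ (E.ga ℓ hν).N d) : H.ExTwo y d :=
  fun {ν p} hν hp => by
  have h2 := h hν (i := 0) (v := ⟨p, 0, by simpa using hp⟩) (by
    rw [mem_F]; simpa using P_F hp)
  rw [mem_F, ← one_add_one_eq_two] at h2
  exact H.cast h2 (by simp)

end EH

end Pool.Agent.Lib.MP_ffb54b_al.P2
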