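import Pool.Agent.Lib.MP_ffb54b_al.P2.Glue2a

set_option autoImplicit false
set_option linter.unusedSectionVars false

namespace Pool.Agent.Lib.MP_ffb54b_al.P2

open Finset Filter FS Fam
open scoped commutatorElement

universe u

/-- constant sequences. -/
def cst (Γ : Type u) [Group Γ] : Γ →* ∀ _ : ℕ, Γ where
  toFun g _ := g
  map_one' := rfl
  map_mul' _ _ := rfl

variable {Γ : Type u} [Group Γ] {U : Ultrafilter ℕ}

/-- All hypotheses of PART II. -/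
structure P2H (U : Ultrafilter ℕ) (K : ℕ → Subgroup Γ) (x y u h q : Γ) (c : ℕ → Γ → W2 × W2)
    (σ : ℕ → Bil) (e : Bool → ℕ → Γ) (ch : ℕ → ZMod 2) (t c₆ c₇ c₈ : ZMod 2) (w₀ w w₁ : ℕ) :
    Prop where
  L : LCS K x y u
  S : S1G K x y u c σ
  E : EG K x y u c σ e ch t c₆ c₇ c₈ w₀
  A : AG K x y u h q e w w₁
  H : Fam U fun _ : ℕ => K

namespace P2H

variable {K : ℕ → Subgroup Γ} {x y u h q g : Γ} {c : ℕ → Γ → W2 × W2} {σ : ℕ → Bil}
  {e : Bool → ℕ → Γ} {ch : ℕ → ZMod 2} {t c₆ c₇ c₈ : ZMod 2} {w₀ w w₁ n d : ℕ}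
  (P : P2H U K x y u h q c σ e ch t c₆ c₇ c₈ w₀ w w₁) {ν : Pos U}
include P

lemma eh : EH P.H (cst Γ x) (cst Γ y) (cst Γ u) (P.H.lead fun _ => c) (σL fun _ => σ)
    (fun p => P.H.El fun _ => e p) (chL U ch) t c₆ c₇ c₈ := P.E.eh P.L P.S P.H

/-- the module of a galaxy. -/
noncomputable abbrev Φ (hν : Inf ν) : GA Γ (P.H.PG (cst Γ y) ν) := P.eh.ga (cst Γ) hν

lemma em (p : Bool) (hν : Inf ν) : EvMem U (fun _ : ℕ => K) (fun _ => e p) ν :=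
  (hν.le_lev w₀).mono fun _ h => P.E.e_mem p _ h

lemma win {C w₂ : ℕ} (f : ZMod 2 → ℕ → ZMod 2) (hw : ∀ p i, w₂ ≤ i → WinG K y g (e p) i C (f i))
    (hν : Inf ν) : (P.Φ hν).Win g C fun _ i => f ((P.Φ hν).par i) := by
  refine P.eh.win (cst Γ) hν (f := fun _ μ => f (red 2 μ)) fun p μ hμ => ?_
  refine (P.H.winL_ev hμ (P.em p hμ) (fun k _ => P.em p (hμ.add_nat k))
    (f' := fun _ => f (red 2 μ)) fun _ _ => .of_forall fun _ => rfl).2 ?_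
  filter_upwards [hμ.le_lev w₂, red_lev 2 hμ.nonneg] with n h2 h3
  rw [← h3]
  exact hw p _ h2

lemma wx (hν : Inf ν) : (P.Φ hν).W x 1 (fun i => (P.Φ hν).par i • 1)
    fun i => chL U ch (ν + i) • 1 := by
  have h1 := P.eh.win (cst Γ) hν (g := x) P.eh.winx
  obtain ⟨h2, h3⟩ := h1.s0 (d := 1) (fun _ _ => rfl) (fun _ _ k h1 h2 => by omega) le_rfl (by omega)
  exact ⟨h2, fun i => ⟨mat_ext fun p => h3 i p, mat_ext fun p =>
    h1.s1 (d := 1) (fun _ _ => rfl) (fun _ _ k h1 h2 => by omega) le_rfl (by omega) i p⟩⟩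

lemma wy (hν : Inf ν) : (P.Φ hν).W y 1 (fun _ => 1) fun i => (P.Φ hν).par i • 1 + Ea := by
  have h1 := P.eh.win (cst Γ) hν (g := y) P.eh.winy
  obtain ⟨h2, h3⟩ := h1.s0 (d := 1) (fun _ _ => rfl) (fun _ _ k h1 h2 => by omega) le_rfl (by omega)
  refine ⟨h2, fun i => ⟨mat_ext fun p => (h3 i p).trans (one_smul _ _), mat_ext fun p =>
    (h1.s1 (d := 1) (fun _ _ => rfl) (fun _ _ k h1 h2 => by omega) le_rfl (by omega) i p).trans ?_⟩⟩
  rw [LinearMap.add_apply, LinearMap.smul_apply, Module.End.one_apply, Ea, mkM_ee,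
    show fy p (red 2 (ν + (i : Pos U))) (chL U ch (ν + (i : Pos U))) (1 + 1) =
      (P.Φ hν).par i + ind p from rfl, add_smul]
  cases p <;> simp [ind]

lemma wu (hν : Inf ν) : (P.Φ hν).W u 3 (fun _ => 1) fun _ => 0 := by
  have h1 := P.eh.win (cst Γ) hν (g := u) P.eh.winu
  have h0 : ∀ (p : Bool) (i : ℤ) k, 0 < k → k < 3 → fu p (red 2 (ν + (i : Pos U))) k = 0 :=
    fun _ _ k h1 h2 => by interval_cases k <;> rfl
  obtain ⟨h2, h3⟩ := h1.s0 (d := 3) (fun _ _ => rfl) h0 (by omega) (by omega)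
  exact ⟨h2, fun i => ⟨mat_ext fun p => (h3 i p).trans (one_smul _ _), mat_ext fun p =>
    (h1.s1 (d := 3) (fun _ _ => rfl) h0 (by omega) (by omega) i p).trans (zero_smul _ _)⟩⟩

lemma wh (hν : Inf ν) : (P.Φ hν).W h 2 (fun _ => 1) fun _ => 0 := by
  simpa using (P.win (fun _ => fr 2 1) P.A.winh hν).W (r := fun _ => 1) (by omega) le_rfl

lemma wq (hν : Inf ν) : (P.Φ hν).W q 3 (fun i => (P.Φ hν).par i • 1) fun _ => 0 :=
  (P.win (fun a => fr 3 a) P.A.winq hν).W (by omega) le_rfl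

lemma VDu : P.H.VD (cst Γ y) (cst Γ u) 3 := P.eh.VD_of_N (cst Γ) fun hν => (P.wu hν).1

lemma KDu : P.H.KD (cst Γ y) (cst Γ u) 4 := P.eh.s.KD_of_three P.eh.exKP_all P.VDu

lemma KDq : P.H.KD (cst Γ y) (cst Γ q) 4 :=
  P.eh.s.KD_of_three P.eh.exKP_all (P.eh.VD_of_N (cst Γ) fun hν => (P.wq hν).1)

lemma KDh : P.H.KD (cst Γ y) (cst Γ h) 4 := by
  refine P.eh.s.KD_of_two P.eh.exKP_all (P.eh.VD_of_N (cst Γ) fun hν => (P.wh hν).1)
    fun {ν} v hν => phiT_inj (t := t) ?_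
  have h1 := (P.eh.pw_N (cst Γ) hν (s := 2) (P.wh hν).1 0 v).2
  rw [Int.cast_zero, add_zero] at h1
  rw [h1]
  exact LinearMap.congr_fun ((P.wh hν).2 0).1 _

lemma lb (hg : g ∈ K (n + 1)) :
    P.H.KD (cst Γ y) (cst Γ g) (2 * n + 2) ∧ P.H.VD (cst Γ y) (cst Γ g) (2 * n) :=
  P.eh.s.lower_bound P.eh.exKP_all P.L (cst Γ) (fun f f' a => by rw [map_mul, P.H.pns.ρ_mul])
    (fun _ _ hf => .of_forall fun _ => hf) n g hg

lemma lb_comm (g' : Γ) (hn : 1 ≤ n) (h1 : P.H.KD (cst Γ y) (cst Γ g) (2 * n + 2) ∧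
    P.H.VD (cst Γ y) (cst Γ g) (2 * n)) : P.H.KD (cst Γ y) (cst Γ ⁅g', g⁆) (2 * (n + 1) + 2) ∧
    P.H.VD (cst Γ y) (cst Γ ⁅g', g⁆) (2 * (n + 1)) := by
  rw [map_commutatorElement]
  exact ⟨KD.mono (P.eh.s.KD_comm P.eh.exKP_all (P.eh.s.KD_two P.eh.exKP_all _) h1.1) (by omega),
    P.eh.s.VD_comm_even P.eh.exKP_all h1.2 (KD.mono h1.1 (by omega)) (by omega) (even_two_mul n) _⟩

lemma lb_b : ∀ n : ℕ, P.H.KD (cst Γ y) (cst Γ (vG x y u false (n + 1))) (2 * (n + 1) + 2) ∧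
    P.H.VD (cst Γ y) (cst Γ (vG x y u false (n + 1))) (2 * (n + 1))
  | 0 => ⟨P.KDu, VD.mono P.VDu (by omega)⟩
  | n + 1 => P.lb_comm y (by omega) (lb_b n)

lemma lbE (hn : 2 ≤ n) (hg : g ∈ EE K x y u n) :
    P.H.KD (cst Γ y) (cst Γ g) (2 * n + 2) ∧ P.H.VD (cst Γ y) (cst Γ g) (2 * n) := by
  let T : Subgroup Γ :=
    { carrier := {g | P.H.KD (cst Γ y) (cst Γ g) (2 * n + 2) ∧ P.H.VD (cst Γ y) (cst Γ g) (2 * n)}
      one_mem' := P.lb (one_mem _)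
      mul_mem' := fun ha hb => ⟨P.eh.s.KD_mul P.eh.exKP_all ha.1 hb.1, P.eh.s.VD_mul ha.2 hb.2⟩
      inv_mem' := fun ha => ⟨P.eh.s.KD_inv P.eh.exKP_all ha.1, P.eh.s.VD_inv ha.2⟩ }
  obtain ⟨m, rfl⟩ := Nat.exists_eq_add_of_le' hn
  exact EE_le_of (T := T) (P.lb_b (m + 1)) (P.lb_comm x (by omega) (P.lb_b m))
    (fun _ hg => P.lb hg) hg

theorem al (hν : Inf ν) : AL (P.Φ hν) K (EE K x y u) y u h q w where
  one := by have := P.A.le; omega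
  anti := P.L.ns.anti
  KE_le _ _ := le_EE
  EK_le n hn := EE_le P.L (by have := P.A.le; omega)
  lb n g hg := by
    rcases n with _ | n
    · exact N_mono ((P.Φ hν).δ_mem g) (by omega)
    · exact N_mono (P.eh.N_of_VD (cst Γ) hν (P.lb hg).2) (by push_cast; omega)
  lbE n hn g hg := by
    simpa using P.eh.N_of_VD (cst Γ) hν (P.lbE (by have := P.A.le; omega) hg).2
  yE n hn g hg := y_EE P.L P.S (by have := P.A.le; omega) hg
  sc n hn g hg h1 i := by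
    have h2 : P.H.KD (cst Γ y) (cst Γ ⁅h, g⁆) (4 + (2 * n + 2)) :=
      P.eh.s.KD_comm P.eh.exKP_all P.KDh (P.lbE (by have := P.A.le; omega) hg).1
    simpa using P.eh.s0_succ (cst Γ) hν (s := 2 * n + 4) (by simpa using h1)
      (KD.mono h2 (by omega)) (by omega) ⟨n + 2, by ring⟩ i
  k2 := P.A.k2
  k3 := P.A.k3
  wy := P.wy hν
  wu := P.wu hν
  wh := P.wh hν
  wq := P.wq hν
  baseD := by
    obtain ⟨D, h1, r, w₂, h2⟩ := P.A.baseD
    exact ⟨D, h1, r, by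
      simpa using (P.win (fun a => fr (2 * w + 1) (a + r)) h2 hν).W0 (by omega) le_rfl⟩
  baseQ := by
    obtain ⟨D, h1, w₂, h2⟩ := P.A.baseQ
    exact ⟨D, h1, by
      simpa using (P.win (fun _ => fr (2 * w + 1) 1) h2 hν).W0 (r := fun _ => 1) (by omega) le_rfl⟩
  baseP := by
    obtain ⟨D, h1, h3, h4, h5, w₂, h2⟩ := P.A.baseP
    exact ⟨D, ⟨le_EE h1, h3, h4, h5⟩, by
      simpa using (P.win (fun _ => fr (2 * w) 1) h2 hν).W0 (r := fun _ => 1)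
        (by have := P.A.le; omega) le_rfl⟩
  baseP' := by
    obtain ⟨D, h1, h3, h4, h5, w₂, h2⟩ := P.A.baseP'
    exact ⟨D, le_EE h1, h3, h4, h5, by
      simpa using (P.win (fun _ => fr (2 * w + 2) 1) h2 hν).W0 (r := fun _ => 1) (by omega) le_rfl⟩

lemma sq (h2 : P.H.ExTwo (cst Γ y) d) : ∃ m, ∀ n, m ≤ n → ∀ g ∈ K n, g ^ 2 ∈ K (n + d) := by
  obtain ⟨m, hm⟩ := underspill P.H.free (X := fun _ => ℕ × Γ) (fun _ a => a.1)
    (q := fun _ a => a.2 ∈ K a.1 → a.2 ^ 2 ∈ K (a.1 + d)) fun a ha => by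
      refine Ultrafilter.eventually_imp.2 fun h1 => ?_
      have h3 : (fun n => (a n).2) ∈ Ev (fun _ : ℕ => K) (pos U fun n => (a n).1) :=
        mem_Ev_pos.2 h1
      have h4 := P.eh.s.exTwo_F h2 ha (P.H.pns.cls_mem ha h3)
      rw [← two_nsmul, ← P.H.pns.cls_pow ha h3, P.H.cls_mem_nat ha (pow_mem h3 2)] at h4
      filter_upwards [h4, lev_pos fun n => (a n).1] with n h5 h6
      rw [h6] at h5
      exact h5
  obtain ⟨n, hn⟩ := hm.exists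
  exact ⟨m, fun j hj g hg => hn (j, g) hj hg⟩

lemma two_N (h2 : P.H.ExTwo (cst Γ y) d) (hν : Inf ν) :
    (2 : AddMonoid.End (P.H.PG (cst Γ y) ν)) ∈ (P.Φ hν).N (2 * d - 2) :=
  (P.sq h2).elim fun _ h => (P.al hν).two_deg h

lemma exTwo : ∀ k : ℕ, P.H.ExTwo (cst Γ y) (k + 9)
  | 0 => P.eh.two
  | k + 1 => P.eh.two_of_N (cst Γ) fun hν => N_mono (P.two_N (exTwo k) hν) (by push_cast; omega)

theorem two (hν : Inf ν) : (2 : AddMonoid.End (P.H.PG (cst Γ y) ν)) = 0 :=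
  N_sep (Φ := (P.Φ hν).toFS) fun n => N_mono (P.two_N (P.exTwo n) hν) (by push_cast; omega)

end P2H

end Pool.Agent.Lib.MP_ffb54b_al.P2
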