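import Pool.Agent.Lib.MP_ffb54b_al.P2.JLcs

set_option autoImplicit false
set_option linter.unusedSectionVars false

namespace Pool.Agent.Lib.MP_ffb54b_al.P2

open PowerSeries Subgroup
open scoped commutatorElement

universe u

lemma exists_pr {Γ : Type*} [Group Γ] {K : ℕ → Subgroup Γ} [∀ i, (K i).Normal] {S : Subgroup Γ}
    {n : ℕ} {a : Γ} (h : a ∈ S ⊔ K n) : ∃ s ∈ S, pr K n a = pr K n s := by
  rw [← SetLike.mem_coe, mul_normal] at h
  obtain ⟨s, hs, k, hk, rfl⟩ := h
  exact ⟨s, hs, by simp only [map_mul, pr_one.2 hk, mul_one]⟩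

/-- A subgroup that covers the abelianization covers every quotient of the series. -/
lemma sup_gamma_top {S : Subgroup J2} (h : S ⊔ gamma J2 2 = ⊤) (n : ℕ) :
    S ⊔ gamma J2 (n + 1) = ⊤ := by
  have key : ∀ n, gamma J2 (n + 1) ≤ S ⊔ gamma J2 (n + 2) := fun n => by
    induction n with
    | zero => exact h.ge
    | succ n ih =>
      refine gamma_le (by omega) (isClosed_of_isOpen _ (isOpen_mono le_sup_right (isOpen_gamma _)))
        fun g k hk => ?_
      obtain ⟨t, ht, e⟩ := exists_pr (h.ge (mem_top g))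
      obtain ⟨s, hs, e'⟩ := exists_pr (ih hk)
      refine pr_mem le_sup_right ((gamma_ns.congr_left e hk (by omega)).trans
        (gamma_ns.congr_right (i := 1) (mem_top t) e' (by omega))) (mem_sup_left ?_)
      exact mul_mem (mul_mem (mul_mem ht hs) (inv_mem ht)) (inv_mem hs)
  induction n with
  | zero => exact sup_top_eq S
  | succ n ih => exact top_le_iff.1 (ih.ge.trans (sup_le le_sup_left (key n)))

/-- A continuous homomorphism onto the abelianization is an isomorphism when the orders agree. -/
theorem iso_of_onto {G : Type u} [Group G] [TopologicalSpace G] [IsTopologicalGroup G]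
    (hG : IsProP G 2) (hidx : ∀ i, (gamma G i).index = (gamma J2 i).index) (θ : G →* J2)
    (hc : Continuous θ) (h : θ.range ⊔ gamma J2 2 = ⊤) : Nonempty (G ≃ₜ* J2) := by
  have := Fact.mk Nat.prime_two
  have top : ∀ n (f : J2), ∃ s ∈ θ.range, pr (gamma J2) (n + 1) f = pr (gamma J2) (n + 1) s :=
    fun n f => exists_pr ((sup_gamma_top h n).ge (mem_top f))
  have inj : Function.Injective θ := (injective_iff_map_eq_one θ).2 fun g hg => hG.eq_one fun i => by
    have := QuotientGroup.discreteTopology (isOpen_gamma (i + 1))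
    let φ := (pr (gamma J2) (i + 1)).comp θ
    have c : Continuous φ := QuotientGroup.continuous_mk.comp hc
    have s : Function.Surjective φ := fun q => by
      obtain ⟨f, rfl⟩ := QuotientGroup.mk'_surjective _ q
      obtain ⟨_, ⟨a, rfl⟩, e⟩ := top i f
      exact ⟨a, e.symm⟩
    have l : gamma G (i + 1) ≤ φ.ker := by
      rw [← Subgroup.map_eq_bot_iff, map_gamma c s, ← map_gamma (f := pr (gamma J2) (i + 1))
        QuotientGroup.continuous_mk (QuotientGroup.mk'_surjective _), Subgroup.map_eq_bot_iff,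
        QuotientGroup.ker_mk']
    have e : φ.ker.index = (gamma G (i + 1)).index := by
      rw [index_ker, MonoidHom.range_eq_top.2 s, card_top, hidx, index_eq_card]
    have : (gamma G (i + 1)).FiniteIndex := ⟨hidx _ ▸ index_gamma_ne _⟩
    refine gamma_anti i.le_succ ((l.eq_or_lt.resolve_right fun h => (index_strictAnti h).ne e).ge ?_)
    simp [φ, MonoidHom.mem_ker, hg]
  obtain ⟨_, _, -⟩ := hG
  have sur : Function.Surjective θ := fun f => topologicalClosure_minimal θ.range le_rfl
    (isCompact_range hc).isClosed (Nott.mem_closure (M := 0) fun r => by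
      obtain ⟨s, hs, e⟩ := top (r + 2) f
      refine ⟨s, hs, pr_eq.2 (mem_Jn_iff.2 ?_)⟩
      exact dvd_mono (Gm.ser (gamma_le_Gm (by omega) (pr_eq.1 e)) (by omega)) (by omega))
  exact ⟨⟨MulEquiv.ofBijective θ ⟨inj, sur⟩, hc,
    Continuous.continuous_symm_of_equiv_compact_to_t2
      (f := (MulEquiv.ofBijective θ ⟨inj, sur⟩).toEquiv) hc⟩⟩

end Pool.Agent.Lib.MP_ffb54b_al.P2
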