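import Pool.Agent.Lib.MP_ffb54b_al.P2.S1

set_option autoImplicit false
set_option linter.unusedSectionVars false

namespace Pool.Agent.Lib.MP_ffb54b_al.P2

open Module ZModModule

/-- The plane over the field with two elements (`true` is the direction `a`). -/
abbrev W2 : Type := Bool → ZMod 2

/-- The basis vectors of the plane. -/
def ee (p : Bool) : W2 := Pi.single p 1

lemma W2.eq_sum (w : W2) : w = w true • ee true + w false • ee false := by
  ext (_ | _) <;> simp [ee]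

/-- The bilinear map with given values on the basis. -/
def bil (s : Bool → Bool → W2) : W2 →ₗ[ZMod 2] W2 →ₗ[ZMod 2] W2 :=
  LinearMap.mk₂ (ZMod 2) (fun v w => v true • (w true • s true true + w false • s true false) +
    v false • (w true • s false true + w false • s false false))
    (fun _ _ _ => by simp only [Pi.add_apply]; module)
    (fun _ _ _ => by simp only [Pi.smul_apply, smul_eq_mul]; module)
    (fun _ _ _ => by simp only [Pi.add_apply]; module)
    (fun _ _ _ => by simp only [Pi.smul_apply, smul_eq_mul]; module)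

lemma bil_left (s : Bool → Bool → W2) (p : Bool) (w : W2) :
    bil s (ee p) w = w true • s p true + w false • s p false := by
  cases p <;> simp [bil, ee]

lemma bil_ee (s : Bool → Bool → W2) (p q : Bool) : bil s (ee p) (ee q) = s p q := by
  rw [bil_left]
  cases q <;> simp [ee]

namespace GrD

variable {L : Type*} [LieRing L] [LieAlgebra (ZMod 2) L] {D : GrD L}
  {i j k m n N : ℕ} {p q r : Bool} {c z w : L}

lemma PE.exists_f (h : D.PE (2 * m)) (hm : 3 ≤ m) :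
    ∃ f : L →ₗ[ZMod 2] W2, ∀ p, f (D.v p (2 * m)) = ee p := by
  have d := D.fin_even m hm
  let g : W2 →ₗ[ZMod 2] L := Fintype.linearCombination (ZMod 2) fun p => D.v p (2 * m)
  have hg : ∀ w, g w = w true • D.v true (2 * m) + w false • D.v false (2 * m) := fun w => by
    simp [g, Fintype.linearCombination_apply]
  have h1 : D.W (2 * m) ≤ LinearMap.range g := fun z hz => by
    obtain ⟨s, t, rfl⟩ := h.span z hz
    exact ⟨fun p => if p then s else t, by simp [hg]⟩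
  have h2 := Submodule.finrank_mono h1
  have h3 := g.finrank_range_add_finrank_ker
  have h4 : LinearMap.ker g = ⊥ := Submodule.finrank_eq_zero.1 (by simp at h3; omega)
  obtain ⟨f, hf⟩ := g.exists_leftInverse_of_injective h4
  refine ⟨f, fun p => ?_⟩
  have := DFunLike.congr_fun hf (ee p)
  cases p <;> simpa [hg, ee] using this

/-- Coordinates on the component of degree `n`. -/
structure Co (D : GrD L) (n : ℕ) (π : L →ₗ[ZMod 2] W2 × W2) : Prop where
  inj : ∀ z ∈ D.W n, π z = 0 → z = 0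
  v : ∀ p, π (D.v p n) = (ee p, 0)
  dec : ∀ z ∈ D.W n, D.Cen (z + ((π z).1 true • D.v true n + (π z).1 false • D.v false n))
  cen : ∀ z ∈ D.W n, ⁅D.y, z⁆ = 0 → (π z).1 = 0
  even : Even n → ∀ z, (π z).2 = 0
  odd : Odd n → ∀ w, ∃ z ∈ D.W n, π z = w

lemma Cen.add (h : D.Cen c) (h' : D.Cen z) : D.Cen (c + z) := by
  simp only [Cen, lie_add, h.1, h.2.1, h.2.2, h'.1, h'.2.1, h'.2.2, add_zero, and_self]

lemma Cen.smul (h : D.Cen c) (s : ZMod 2) : D.Cen (s • c) := by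
  simp only [Cen, lie_smul, h.1, h.2.1, h.2.2, smul_zero, and_self]

lemma exists_co (H : ∀ m, 3 ≤ m → D.PE (2 * m)) (hn : 6 ≤ n) : ∃ π, D.Co n π := by
  have ff : ∀ (s t : ZMod 2) p, (s • ee true + t • ee false) p = if p then s else t := by
    rintro s t (_ | _) <;> simp [ee]
  have Yf : ∀ m, 3 ≤ m → ∀ f : L →ₗ[ZMod 2] W2, (∀ p, f (D.v p (2 * m)) = ee p) →
      ∀ z ∈ D.W (2 * m), z = f z true • D.v true (2 * m) + f z false • D.v false (2 * m) := by
    intro m hm f hf z hz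
    obtain ⟨s, t, rfl⟩ := (H m hm).span z hz
    simp [hf, ff]
  obtain ⟨m, rfl | rfl⟩ := n.even_or_odd'
  · have hm : 3 ≤ m := by omega
    obtain ⟨f, hf⟩ := (H m hm).exists_f hm
    obtain ⟨f', hf'⟩ := (H (m + 1) (by omega)).exists_f (by omega)
    refine ⟨f.prod 0, fun z hz e => ?_, fun p => by simp [hf], fun z hz => ?_, fun z hz e => ?_,
      fun _ z => rfl, fun h => (Nat.not_odd_iff_even.2 (even_two_mul m) h).elim⟩
    · have : f z = 0 := congrArg Prod.fst e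
      rw [Yf m hm f hf z hz, this]; simp
    · change D.Cen (z + (f z true • _ + f z false • _))
      rw [← Yf m hm f hf z hz, add_self]
      simp [Cen]
    · change f z = 0
      have := congrArg (fun t => f' ⁅D.y, t⁆) e
      rw [Yf m hm f hf z hz] at this
      simp only [lie_add, lie_smul, ← D.v_succ (show 1 ≤ 2 * m by omega), lie_zero, map_zero,
        ← D.v_succ (show 1 ≤ 2 * m + 1 by omega), map_add, map_smul,
        show 2 * m + 1 + 1 = 2 * (m + 1) by ring, hf'] at this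
      rw [W2.eq_sum (f z), this]
  · have hm : 3 ≤ m := by omega
    have e1 : 2 * (m + 1) = 2 * m + 1 + 1 := by ring
    obtain ⟨f', hf'⟩ := (H (m + 1) (by omega)).exists_f (by omega)
    let f := f' ∘ₗ LieAlgebra.ad (ZMod 2) L D.y
    have fy : ∀ z, f z = f' ⁅D.y, z⁆ := fun _ => rfl
    have hf : ∀ p, f (D.v p (2 * m + 1)) = ee p := fun p => by
      rw [fy, ← D.v_succ (by omega), ← e1, hf']
    have cc : ∀ p q, D.Cen (D.B 1 (2 * m) p q) := fun p q =>
      (H (m + 1) (by omega)).cen _ p q (by ring)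
    let ρ : L →ₗ[ZMod 2] L := LinearMap.id +
      (Fintype.linearCombination (ZMod 2) fun p => D.v p (2 * m + 1)) ∘ₗ f
    have hρ : ∀ z, ρ z = z + (f z true • D.v true (2 * m + 1) + f z false • D.v false (2 * m + 1)) :=
      fun z => by simp [ρ, Fintype.linearCombination_apply]
    have fρ : ∀ z, f (ρ z) = 0 := fun z => by
      rw [hρ, map_add, map_add, map_smul, map_smul, hf, hf, ← W2.eq_sum, add_self]
    have mρ : ∀ z ∈ D.W (2 * m + 1), ρ z ∈ D.W (2 * m + 1) := fun z hz =>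
      hρ z ▸ add_mem hz (add_mem (Submodule.smul_mem _ _ (D.v_mem _ _))
        (Submodule.smul_mem _ _ (D.v_mem _ _)))
    have d4 := D.fin_odd m hm
    have : Module.Finite (ZMod 2) (D.W (2 * m + 1)) := Module.finite_of_finrank_pos (by omega)
    let f₀ := f.domRestrict (D.W (2 * m + 1))
    have r0 : LinearMap.range f₀ = ⊤ := top_le_iff.1 fun w _ =>
      ⟨w true • ⟨_, D.v_mem true _⟩ + w false • ⟨_, D.v_mem false _⟩, by
        simp only [f₀, map_add, map_smul, LinearMap.domRestrict_apply, hf, ← W2.eq_sum]⟩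
    have k0 := f₀.finrank_range_add_finrank_ker
    rw [r0, finrank_top, d4] at k0
    have k1 : finrank (ZMod 2) (LinearMap.ker f₀) = finrank (ZMod 2) W2 := by
      simp at k0 ⊢; omega
    let ι : W2 →ₗ[ZMod 2] L := (D.W _).subtype ∘ₗ (LinearMap.ker f₀).subtype ∘ₗ
      (LinearEquiv.ofFinrankEq _ _ k1).symm.toLinearMap
    obtain ⟨g, hg⟩ := ι.exists_leftInverse_of_injective (LinearMap.ker_eq_bot.2
      (Subtype.val_injective.comp (Subtype.val_injective.comp (LinearEquiv.injective _))))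
    have inj : ∀ z ∈ D.W (2 * m + 1), (f.prod (g ∘ₗ ρ)) z = 0 → z = 0 := fun z hz e => by
      have e1 : f z = 0 := congrArg Prod.fst e
      have e2 : g (ρ z) = 0 := congrArg Prod.snd e
      have e3 : ρ z = z := by simp [hρ, e1]
      have e4 : ι (LinearEquiv.ofFinrankEq _ _ k1 ⟨⟨z, hz⟩, e1⟩) = z := by simp [ι]
      have e5 := DFunLike.congr_fun hg (LinearEquiv.ofFinrankEq _ _ k1 ⟨⟨z, hz⟩, e1⟩)
      rw [e3] at e2
      rw [LinearMap.comp_apply, e4, e2, LinearMap.id_apply] at e5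
      rw [← e4, ← e5, map_zero]
    refine ⟨f.prod (g ∘ₗ ρ), inj, fun p => ?_, fun z hz => ?_, fun z hz e => ?_,
      fun h => by simp at h, fun _ w => ?_⟩
    · have : ρ (D.v p (2 * m + 1)) = 0 := by
        rw [hρ, hf]
        cases p <;> simp [ee, add_self]
      simp [hf, this]
    · change D.Cen (z + (f z true • _ + f z false • _))
      obtain ⟨s, t, c₁, c₂, c₃, e⟩ := ((H m hm).po (by omega)).span z hz
      have : f z = s • ee true + t • ee false := by
        simp only [e, map_add, map_smul, hf, fy (D.B _ _ _ _), (cc _ _).2.1, map_zero, smul_zero,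
          add_zero]
      rw [this, ff, ff, e, add_right_comm]
      simp only [if_true, Bool.false_eq_true, if_false, add_self, zero_add]
      exact (((cc _ _).smul _).add ((cc _ _).smul _)).add ((cc _ _).smul _)
    · change f z = 0
      rw [fy, e, map_zero]
    · let π₀ := (f.prod (g ∘ₗ ρ)).domRestrict (D.W (2 * m + 1))
      have : Function.Injective π₀ := (injective_iff_map_eq_zero _).2 fun z e =>
        Subtype.ext (inj z z.2 e)
      obtain ⟨z, hz⟩ := (LinearMap.injective_iff_surjective_of_finrank_eq_finrank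
        (by simp [d4])).1 this w
      exact ⟨z, z.2, hz⟩

/-- The conclusions of the structure theorem in coordinates. -/
structure Out (D : GrD L) (π : ℕ → L →ₗ[ZMod 2] W2 × W2)
    (σ : ℕ → W2 →ₗ[ZMod 2] W2 →ₗ[ZMod 2] W2) : Prop where
  co : ∀ n, 6 ≤ n → D.Co n (π n)
  symm : ∀ n v w, σ n v w = σ n w v
  σ_even : ∀ n, Even n → σ n = 0
  σ_span : ∀ n, 7 ≤ n → Odd n → ∀ z, ∃ c₁ c₂ c₃ : ZMod 2, z = c₁ • σ n (ee true) (ee true) +
    c₂ • σ n (ee true) (ee false) + c₃ • σ n (ee false) (ee false)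
  y : ∀ n, 6 ≤ n → ∀ z ∈ D.W n, π (n + 1) ⁅D.y, z⁆ = ((π n z).1, 0)
  one : ∀ n, 6 ≤ n → ∀ r, ∀ z ∈ D.W n, π (n + 1) ⁅D.v r 1, z⁆ =
    ((lam r * n) • (π n z).1, σ (n + 1) (ee r) (π n z).1)
  two : ∀ n, 6 ≤ n → ∀ r, ∀ z ∈ D.W n, π (n + 2) ⁅D.v r 2, z⁆ =
    (lam r • (π n z).1, σ (n + 2) (ee r) (π n z).1)
  mid : ∀ i n, 3 ≤ i → 6 ≤ n → ∀ r, ∀ z ∈ D.W n, π (i + n) ⁅D.v r i, z⁆ =
    (0, σ (i + n) (ee r) (π n z).1)
  br : ∀ i j, 6 ≤ i → 6 ≤ j → ∀ w ∈ D.W i, ∀ z ∈ D.W j, π (i + j) ⁅w, z⁆ =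
    (0, σ (i + j) (π i w).1 (π j z).1)
  cen : ∀ i n, 1 ≤ i → 6 ≤ n → ∀ w ∈ D.W i, ∀ z ∈ D.W n, (π n z).1 = 0 → ⁅w, z⁆ = 0
  low1 : ∀ w ∈ D.W 1, ∃ s t : ZMod 2, ∀ n, 6 ≤ n → ∀ z ∈ D.W n,
    (π (n + 1) ⁅w, z⁆).1 = (s * n + t) • (π n z).1
  low2 : ∀ w ∈ D.W 2, ∃ s : ZMod 2, ∀ n, 6 ≤ n → ∀ z ∈ D.W n,
    (π (n + 2) ⁅w, z⁆).1 = s • (π n z).1
  low3 : ∀ i n, 3 ≤ i → 6 ≤ n → ∀ w ∈ D.W i, ∀ z ∈ D.W n, (π (i + n) ⁅w, z⁆).1 = 0

theorem exists_out (H : ∀ m, 3 ≤ m → D.PE (2 * m))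
    (h1 : ∀ z ∈ D.W 1, ∃ s t r : ZMod 2, z = s • D.x + t • D.y + r • D.u) :
    ∃ π σ, D.Out π σ := by
  have : ∀ n, ∃ π, 6 ≤ n → D.Co n π := fun n => by
    by_cases hn : 6 ≤ n
    exacts [(exists_co H hn).imp fun _ h _ => h, ⟨0, fun h => (hn h).elim⟩]
  choose π co using this
  let σ (n : ℕ) := if 7 ≤ n ∧ Odd n then bil fun p q => (π n (D.B 1 (n - 1) p q)).2 else 0
  have σe : ∀ n, Even n → σ n = 0 := fun n h => if_neg fun h' => Nat.not_odd_iff_even.2 h h'.2
  have σo : ∀ m, 3 ≤ m → σ (2 * m + 1) = bil fun p q => (π (2 * m + 1) (D.B 1 (2 * m) p q)).2 :=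
    fun m hm => if_pos ⟨by omega, m, rfl⟩
  have cW : ∀ {c}, D.Cen c → ∀ i, 1 ≤ i → ∀ w ∈ D.W i, ⁅w, c⁆ = 0 := fun h =>
    h.W fun z hz => by
      obtain ⟨s, t, r, rfl⟩ := h1 z hz
      simp [h.1, h.2.1, h.2.2]
  have dec : ∀ {i n w z}, 1 ≤ i → 6 ≤ n → w ∈ D.W i → z ∈ D.W n → ⁅w, z⁆ =
      (π n z).1 true • ⁅w, D.v true n⁆ + (π n z).1 false • ⁅w, D.v false n⁆ := by
    intro i n w z hi hn hw hz
    have := cW ((co n hn).dec z hz) i hi w hw
    rwa [lie_add, add_eq_zero_iff_eq_neg, ZModModule.neg_eq_self, lie_add, lie_smul, lie_smul] at this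
  have πB : ∀ m, 3 ≤ m → ∀ p q, π (2 * m + 1) (D.B 1 (2 * m) p q) =
      (0, σ (2 * m + 1) (ee p) (ee q)) := fun m hm p q => by
    rw [σo m hm, bil_ee]
    exact Prod.ext ((co _ (by omega)).cen _ (D.B_mem le_rfl (by omega) (by omega))
      ((H (m + 1) (by omega)).cen _ p q (by ring)).2.1) rfl
  have fin : ∀ {i n N r z} {s : ZMod 2}, 1 ≤ i → 6 ≤ n → z ∈ D.W n → (∀ q, π N (D.B i n r q) =
      (s • ee q, σ N (ee r) (ee q))) →
      π N ⁅D.v r i, z⁆ = (s • (π n z).1, σ N (ee r) (π n z).1) := by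
    intro i n N r z s hi hn hz h
    rw [dec hi hn (D.v_mem r i) hz, map_add, map_smul, map_smul]
    erw [h, h]
    conv_rhs => rw [W2.eq_sum (π n z).1]
    simp only [map_add, map_smul, Prod.smul_mk, Prod.mk_add_mk, smul_add, smul_comm s]
  have hy : ∀ n, 6 ≤ n → ∀ z ∈ D.W n, π (n + 1) ⁅D.y, z⁆ = ((π n z).1, 0) := fun n hn z hz => by
    rw [dec le_rfl hn D.hy hz, ← D.v_succ (by omega), ← D.v_succ (by omega), map_add, map_smul,
      map_smul, (co _ (by omega)).v, (co _ (by omega)).v]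
    conv_rhs => rw [W2.eq_sum (π n z).1]
    simp
  have one : ∀ n, 6 ≤ n → ∀ r, ∀ z ∈ D.W n, π (n + 1) ⁅D.v r 1, z⁆ =
      ((lam r * n) • (π n z).1, σ (n + 1) (ee r) (π n z).1) := fun n hn r z hz => by
    refine fin le_rfl hn hz fun q => ?_
    obtain ⟨m, rfl | rfl⟩ := n.even_or_odd'
    · rw [πB m (by omega)]
      simp [show (2 : ZMod 2) = 0 from rfl]
    · rw [(H (m + 1) (by omega)).one _ r q (by ring), σe _ ⟨m + 1, by ring⟩, map_smul,
        show 2 * m + 1 + 1 = 2 * (m + 1) by ring, (co _ (by omega)).v]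
      simp [show (2 : ZMod 2) = 0 from rfl]
  have two : ∀ n, 6 ≤ n → ∀ r, ∀ z ∈ D.W n, π (n + 2) ⁅D.v r 2, z⁆ =
      (lam r • (π n z).1, σ (n + 2) (ee r) (π n z).1) := fun n hn r z hz => by
    refine fin (by omega) hn hz fun q => ?_
    obtain ⟨m, rfl | rfl⟩ := n.even_or_odd'
    · rw [(H (m + 1) (by omega)).two _ r q (by ring), σe _ ⟨m + 1, by ring⟩, map_smul,
        show 2 * m + 2 = 2 * (m + 1) by ring, (co _ (by omega)).v]
      simp
    · rw [((H (m + 1) (by omega)).po (by omega)).two _ r q (by ring),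
        show 2 * m + 1 + 2 = 2 * (m + 1) + 1 by ring, map_add, πB _ (by omega), map_smul,
        (co _ (by omega)).v]
      simp
  have mid : ∀ i n, 3 ≤ i → 6 ≤ n → ∀ r, ∀ z ∈ D.W n, π (i + n) ⁅D.v r i, z⁆ =
      (0, σ (i + n) (ee r) (π n z).1) := fun i n hi hn r z hz => by
    refine (fin (s := 0) (by omega) hn hz fun q => ?_).trans (by simp)
    obtain ⟨m, e | e⟩ := (i + n).even_or_odd'
    · rw [(H m (by omega)).mid _ _ r q hi (by omega) e, σe _ ⟨m, by omega⟩]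
      simp [Prod.ext_iff]
    · rw [((H m (by omega)).po (by omega)).mid _ _ r q hi (by omega) e, e, πB _ (by omega)]
      simp
  have low1 : ∀ w ∈ D.W 1, ∃ s t : ZMod 2, ∀ n, 6 ≤ n → ∀ z ∈ D.W n,
      (π (n + 1) ⁅w, z⁆).1 = (s * n + t) • (π n z).1 := fun w hw => by
    obtain ⟨s, t, r, rfl⟩ := h1 w hw
    refine ⟨s, t, fun n hn z hz => ?_⟩
    have a := one n hn true z hz
    have b := one n hn false z hz
    simp only [GrD.v, if_true, Bool.false_eq_true, if_false] at a b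
    simp [a, b, hy n hn z hz, add_smul, mul_smul]
  have low2 : ∀ w ∈ D.W 2, ∃ s : ZMod 2, ∀ n, 6 ≤ n → ∀ z ∈ D.W n,
      (π (n + 2) ⁅w, z⁆).1 = s • (π n z).1 := fun w hw => by
    have key : ∀ a ∈ D.W 1, ∀ b ∈ D.W 1, ∃ s : ZMod 2, ∀ n, 6 ≤ n → ∀ z ∈ D.W n,
        (π (n + 2) ⁅⁅a, b⁆, z⁆).1 = s • (π n z).1 := fun a ha b hb => by
      obtain ⟨s, t, h⟩ := low1 a ha
      obtain ⟨s', t', h'⟩ := low1 b hb
      refine ⟨s * t' - s' * t, fun n hn z hz => ?_⟩
      have m : ∀ {a}, a ∈ D.W 1 → ⁅a, z⁆ ∈ D.W (n + 1) := fun ha =>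
        add_comm 1 n ▸ D.lie_mem le_rfl (by omega) ha hz
      rw [lie_lie, map_sub, Prod.fst_sub, h _ (by omega) _ (m hb), h' _ (by omega) _ (m ha),
        h n hn z hz, h' n hn z hz, smul_smul, smul_smul, ← sub_smul]
      congr 1
      push_cast
      ring
    obtain ⟨k₁, m₁, k₂, m₂, k₃, m₃, rfl⟩ := D.gen 1 le_rfl w hw
    obtain ⟨s₁, e₁⟩ := key _ D.hx _ m₁
    obtain ⟨s₂, e₂⟩ := key _ D.hy _ m₂
    obtain ⟨s₃, e₃⟩ := key _ D.hu _ m₃
    exact ⟨s₁ + s₂ + s₃, fun n hn z hz => by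
      simp only [add_lie, map_add, Prod.fst_add, e₁ n hn z hz, e₂ n hn z hz, e₃ n hn z hz, add_smul]⟩
  refine ⟨π, σ, co, fun n v w => ?_, σe, fun n hn ho z => ?_, hy, one, two, mid,
    fun i j hi hj w hw z hz => ?_, fun i n hi hn w hw z hz e => ?_, low1, low2, fun i n hi => ?_⟩
  · by_cases h : 7 ≤ n ∧ Odd n
    · obtain ⟨h, m, rfl⟩ := h
      rw [σo m (by omega)]
      simp only [bil, LinearMap.mk₂_apply, ((H m (by omega)).po (by omega)).symm]
      module
    · simp [σ, h]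
  · obtain ⟨m, rfl⟩ := ho
    obtain ⟨w, hw, e⟩ := (co _ (by omega)).odd ⟨m, rfl⟩ (0, z)
    obtain ⟨s, t, c₁, c₂, c₃, rfl⟩ := ((H m (by omega)).po (by omega)).span w hw
    refine ⟨c₁, c₂, c₃, ?_⟩
    have := congrArg Prod.snd e
    simpa [πB m (by omega), (co (2 * m + 1) (by omega)).v] using this.symm
  · rw [lie_comm, dec (by omega) hi hz hw, lie_comm z, lie_comm z, map_add, map_smul, map_smul,
      mid i j (by omega) hj _ z hz, mid i j (by omega) hj _ z hz]
    conv_rhs => rw [W2.eq_sum (π i w).1]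
    simp
  · simp [dec hi hn hw hz, e]
  · induction i, hi using Nat.le_induction generalizing n with
    | base =>
      intro hn w hw z hz
      have key : ∀ a ∈ D.W 1, ∀ b ∈ D.W 2, (π (3 + n) ⁅⁅a, b⁆, z⁆).1 = 0 := fun a ha b hb => by
        obtain ⟨s, t, h⟩ := low1 a ha
        obtain ⟨s', h'⟩ := low2 b hb
        have m1 : ⁅a, z⁆ ∈ D.W (n + 1) := add_comm 1 n ▸ D.lie_mem le_rfl (by omega) ha hz
        have m2 : ⁅b, z⁆ ∈ D.W (n + 2) := add_comm 2 n ▸ D.lie_mem (by omega) (by omega) hb hz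
        have e1 := h _ (by omega) _ m2
        have e2 := h' _ (by omega) _ m1
        rw [lie_lie, map_sub, Prod.fst_sub, add_comm 3 n, e1, e2, h n hn z hz, h' n hn z hz,
          smul_smul, smul_smul, ← sub_smul]
        push_cast
        rw [show (2 : ZMod 2) = 0 from rfl, add_zero, mul_comm, sub_self, zero_smul]
      obtain ⟨k₁, m₁, k₂, m₂, k₃, m₃, rfl⟩ := D.gen 2 (by omega) w hw
      simp only [add_lie, map_add, Prod.fst_add, key _ D.hx _ m₁, key _ D.hy _ m₂, key _ D.hu _ m₃,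
        add_zero]
    | succ i hi ih =>
      intro hn w hw z hz
      have key : ∀ a ∈ D.W 1, ∀ b ∈ D.W i, (π (i + 1 + n) ⁅⁅a, b⁆, z⁆).1 = 0 := fun a ha b hb => by
        obtain ⟨s, t, h⟩ := low1 a ha
        have m1 : ⁅a, z⁆ ∈ D.W (n + 1) := add_comm 1 n ▸ D.lie_mem le_rfl (by omega) ha hz
        have e1 := h _ (by omega) _ (D.lie_mem (by omega) (by omega) hb hz)
        have e2 := ih (n + 1) (by omega) b hb _ m1
        rw [lie_lie, map_sub, Prod.fst_sub, show i + 1 + n = i + n + 1 by ring, e1,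
          ih n hn b hb z hz, show i + n + 1 = i + (n + 1) by ring, e2, smul_zero, sub_zero]
      obtain ⟨k₁, m₁, k₂, m₂, k₃, m₃, rfl⟩ := D.gen i (by omega) w hw
      simp only [add_lie, map_add, Prod.fst_add, key _ D.hx _ m₁, key _ D.hy _ m₂, key _ D.hu _ m₃,
        add_zero]

end GrD

end Pool.Agent.Lib.MP_ffb54b_al.P2
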