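import Pool.Agent.Lib.MP_ffb54b_al.P2.JCoc
import Pool.Agent.Lib.MP_ffb54b_al.P2.S1b

set_option autoImplicit false
set_option linter.unusedSectionVars false

namespace Pool.Agent.Lib.MP_ffb54b_al.P2

open PowerSeries Subgroup
open scoped commutatorElement

variable {f g h : J2} {φ : R2} {n j w a b c : ℕ}

lemma two_Z2 : (2 : ZMod 2) = 0 := rfl

lemma dvd_unit_right {u v : R2} (huv : u * v = 1) (h : X ^ n ∣ φ * u) : X ^ n ∣ φ := by
  simpa [mul_assoc, huv] using h.mul_right v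

lemma coeff_mul_one {u : R2} (hu : X ^ 1 ∣ u + 1) (h : X ^ n ∣ φ) : coeff n (φ * u) = coeff n φ :=
  coeff_eq_of_dvd (n := n + 1) (by
    convert dvd_mul2 h hu le_rfl using 1
    ring) (by omega)

lemma coeff_mul_succ {u : R2} (hu : X ^ 1 ∣ u + 1) (h : X ^ n ∣ φ) :
    coeff (n + 1) (φ * u) = coeff (n + 1) φ + coeff 1 u * coeff n φ := by
  have := coeff_lead h hu
  rw [mul_add, mul_one, map_add, map_add, coeff_one, if_neg one_ne_zero, add_zero] at this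
  linear_combination this - coeff (n + 1) φ * two_Z2

lemma X_dvd_ki (f : J2) : X ^ 1 ∣ ki f + 1 := dvd_ki (X_dvd_kk f)

lemma coeff_one_kk (f : J2) : coeff 1 (kk f) = coeff 3 f.ser := coeff_od _ _

lemma coeff_one_ki (f : J2) : coeff 1 (ki f) = coeff 3 f.ser := by
  have := coeff_mul_succ (n := 0) (φ := kk f) (X_dvd_ki f) (by simp)
  rw [mul_comm, ki_mul_kk, coeff_one_kk, coeff_zero_eq_constantCoeff_apply, kk_zero, coeff_one,
    if_neg (by omega), mul_one, eq_comm, add_eq_zero_iff_eq_neg, ZMod.neg_eq_self_mod_two] at this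
  exact this.symm

lemma coeff_one_dl (f : J2) : coeff 1 (dl f) = coeff 2 f.ser := coeff_ev _ _

lemma dvd_one_mul {u v : R2} (hu : X ^ n ∣ u + 1) (hv : X ^ n ∣ v + 1) : X ^ n ∣ u * v + 1 := by
  convert dvd_add (hu.mul_right v) hv using 1
  linear_combination -v * two_R2

lemma dvd_sb_one (g : J2) {u : R2} (hu : X ^ n ∣ u + 1) : X ^ n ∣ sb g u + 1 := by
  simpa using sb_dvd g hu

/-- Elements with prescribed orders of the three cocycles. -/
def Box (a b c : ℕ) : Subgroup J2 where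
  carrier := {f | X ^ a ∣ DD f ∧ X ^ b ∣ PP f ∧ X ^ c ∣ kk f + 1}
  one_mem' := by simp [DD_one, PP_one, kk_one, CharTwo.add_self_eq_zero]
  mul_mem' {f g} hf hg := ⟨DD_mul f g ▸ dvd_add ((sb_dvd g hf.1).mul_right _) hg.1,
    PP_mul f g ▸ dvd_add ((sb_dvd g hf.2.1).mul_left _) hg.2.1,
    kk_mul f g ▸ dvd_one_mul (dvd_sb_one g hf.2.2) hg.2.2⟩
  inv_mem' {f} hf := by
    have h1 := DD_mul f⁻¹ f
    have h2 := PP_mul f⁻¹ f
    rw [inv_mul_cancel, eq_comm] at h1 h2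
    rw [DD_one, CharTwo.add_eq_zero] at h1
    rw [PP_one, CharTwo.add_eq_zero, mul_comm] at h2
    refine ⟨dvd_of_sb f (dvd_unit_right (ki_mul_kk f) (h1 ▸ hf.1)),
      dvd_of_sb f (dvd_unit_right ((mul_comm _ _).trans (ki_mul_kk f)) (h2 ▸ hf.2.1)),
      dvd_of_sb f ?_⟩
    rw [map_add, map_one]
    exact dvd_ki hf.2.2

lemma dvd_dl (h : X ^ a ∣ DD f) : X ^ a ∣ dl f := dl_eq f ▸ h.mul_right _

lemma coeff_dl (h : X ^ a ∣ DD f) : coeff a (dl f) = coeff a (DD f) := by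
  rw [dl_eq, coeff_mul_one (X_dvd_kk f) h]

lemma ser_add_X (f : J2) : f.ser + X = dl f ^ 2 + X * (kk f + 1) ^ 2 := by
  rw [ser_eq]
  linear_combination -(X * kk f) * two_R2

lemma dvd_ser (h1 : X ^ a ∣ DD f) (h2 : X ^ c ∣ kk f + 1) (ha : n ≤ 2 * a) (hc : n ≤ 2 * c + 1) :
    X ^ n ∣ f.ser + X :=
  ser_add_X f ▸ dvd_add (dvd_mono (dvd_sq (dvd_dl h1)) ha)
    (dvd_mul2 (m := 1) (by simp) (dvd_sq h2) (by omega))

lemma dvd_ka (h : X ^ c ∣ kk f + 1) (hn : 2 * n ≤ c + 1) : X ^ n ∣ ka f + 1 := by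
  have := dvd_ev (n := n) (dvd_mul2 (m := 1) (φ := X) (by simp) h (by omega))
  rwa [ev_add, ev_one] at this

lemma dvd_ps (h : X ^ c ∣ kk f + 1) (hn : 2 * n ≤ c) : X ^ n ∣ ps f := by
  have := dvd_od (dvd_mono h hn)
  rwa [od_add, od_one, add_zero] at this

lemma kk_add_one (f : J2) : kk f + 1 = (ka f + 1) ^ 2 + X * ps f ^ 2 := by
  rw [kk_eq]
  linear_combination -(ka f) * two_R2

lemma X_dvd_ka (f : J2) : X ^ 1 ∣ ka f + 1 := dvd_ka (X_dvd_kk f) le_rfl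

lemma coeff_ps (h1 : X ^ (n + 1) ∣ DD f) (h2 : X ^ (n + 1) ∣ PP f) (h3 : X ^ n ∣ ps f) :
    coeff n (ps f) = (n + 1) * coeff (n + 1) (DD f) := by
  have := coeff_eq_of_dvd (PP_mul_kk f ▸ h2.mul_right (kk f)) (Nat.lt_succ_self n)
  rw [coeff_mul_one (X_dvd_ka f) h3, coeff_derivative, coeff_dl h1] at this
  rw [this, mul_comm]

/-- The exact formula for the first cocycle of a commutator. -/
lemma DD_comm (f g : J2) : sb (g * f) (DD ⁅f, g⁆) * ki (g * f) =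
    (sb g (DD f) * ki g + DD f) + (sb f (DD g) * ki f + DD g) := by
  have e : ⁅f, g⁆ * (g * f) = f * g := by rw [commutatorElement_def]; group
  have h := DD_mul ⁅f, g⁆ (g * f)
  rw [e, DD_mul f g, DD_mul g f] at h
  linear_combination -h - (sb f (DD g) * ki f + DD f) * two_R2

lemma PP_comm (f g : J2) : sb (g * f) (PP ⁅f, g⁆) * kk (g * f) =
    (kk g * sb g (PP f) + PP f) + (kk f * sb f (PP g) + PP g) := by
  have e : ⁅f, g⁆ * (g * f) = f * g := by rw [commutatorElement_def]; group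
  have h := PP_mul ⁅f, g⁆ (g * f)
  rw [e, PP_mul f g, PP_mul g f] at h
  linear_combination -h - (kk f * sb f (PP g) + PP f) * two_R2

lemma kk_comm (f g : J2) : sb (g * f) (kk ⁅f, g⁆ + 1) * kk (g * f) =
    (sb g (kk f) + kk f) * kk g + (sb f (kk g) + kk g) * kk f := by
  have e : ⁅f, g⁆ * (g * f) = f * g := by rw [commutatorElement_def]; group
  have h := kk_mul ⁅f, g⁆ (g * f)
  rw [e] at h
  rw [map_add, map_one, add_mul, ← h, kk_mul f g, kk_mul g f]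
  linear_combination -(kk f * kk g) * two_R2

lemma sb_kk_add (g f : J2) : sb g (kk f) + kk f =
    (sb g (ka f) + ka f + dl g * sb g (ps f)) ^ 2 + X * (kk g * sb g (ps f) + ps f) ^ 2 := by
  rw [decomp (_ + _), ev_add, od_add, ev_sb, od_sb]
  simp only [ka, ps]
  ring

lemma lead_unit {u v : R2} (g : J2) (huv : u * v = 1) (hu : X ^ 1 ∣ u + 1) {ψ : R2}
    (e : sb g φ * u = ψ) (h : X ^ n ∣ ψ) : X ^ n ∣ φ ∧ coeff n φ = coeff n ψ := by
  have h1 := dvd_unit_right huv (e ▸ h)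
  exact ⟨dvd_of_sb g h1, by rw [← e, coeff_mul_one hu h1, coeff_sb g (dvd_of_sb g h1)]⟩

lemma lead_DD {ψ : R2} (e : sb g φ * ki g = ψ) (h : X ^ n ∣ ψ) :
    X ^ n ∣ φ ∧ coeff n φ = coeff n ψ := lead_unit g (ki_mul_kk g) (X_dvd_ki g) e h

lemma lead_PP {ψ : R2} (e : sb g φ * kk g = ψ) (h : X ^ n ∣ ψ) :
    X ^ n ∣ φ ∧ coeff n φ = coeff n ψ :=
  lead_unit g ((mul_comm _ _).trans (ki_mul_kk g)) (X_dvd_kk g) e h

/-- Action of an element `f` close to the identity. -/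
lemma act_dvd {u : R2} (h1 : X ^ (j + 1) ∣ f.ser + X) (h2 : X ^ c ∣ u + 1) (h : X ^ a ∣ φ)
    (hj : n ≤ a + j) (hc : n ≤ a + c) : X ^ n ∣ sb f φ * u + φ := by
  convert dvd_add (dvd_mono (sb_add h1 h) hj) (dvd_mul2 (sb_dvd f h) h2 hc) using 1
  linear_combination -(sb f φ) * two_R2

lemma act_dvd0 {u : R2} (h1 : X ^ j ∣ f.ser + X) (h2 : X ^ c ∣ u + 1) (φ : R2)
    (hj : n ≤ j) (hc : n ≤ c) : X ^ n ∣ sb f φ * u + φ := by
  convert dvd_add (dvd_mono (sb_add_self h1 φ) hj) ((dvd_mono h2 hc).mul_left (sb f φ)) using 1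
  linear_combination -(sb f φ) * two_R2

lemma act_coeff {u : R2} (g : J2) (hu : X ^ 1 ∣ u + 1) (h : X ^ n ∣ φ) :
    X ^ (n + 1) ∣ sb g φ * u + φ ∧
      coeff (n + 1) (sb g φ * u + φ) = (n * coeff 2 g.ser + coeff 1 u) * coeff n φ := by
  refine ⟨act_dvd (j := 1) (sq_dvd' g) hu h le_rfl le_rfl, ?_⟩
  rw [map_add, coeff_mul_succ hu (sb_dvd g h), coeff_sb_succ g h, coeff_sb g h]
  linear_combination coeff (n + 1) φ * two_Z2

/-- The lower central series of the Nottingham group for `p = 2` (from `w = 3` on). -/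
def Gm (w : ℕ) : Subgroup J2 where
  carrier := {f | f ∈ Box w w (2 * w - 2) ∧
    (Even w → coeff (2 * w - 2) (kk f + 1) = coeff w (DD f))}
  one_mem' := ⟨one_mem _, fun _ => by simp [kk_one, DD_one, CharTwo.add_self_eq_zero]⟩
  mul_mem' {f g} hf hg := ⟨mul_mem hf.1 hg.1, fun hw => by
    have e : kk (f * g) + 1 = sb g (kk f + 1) * kk g + (kk g + 1) := by
      rw [kk_mul, map_add, map_one]
      linear_combination -(kk g) * two_R2
    rw [e, DD_mul, map_add, map_add (coeff w), coeff_mul_one (X_dvd_kk g) (sb_dvd g hf.1.2.2),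
      coeff_mul_one (X_dvd_ki g) (sb_dvd g hf.1.1), coeff_sb g hf.1.2.2, coeff_sb g hf.1.1,
      hf.2 hw, hg.2 hw]⟩
  inv_mem' {f} hf := ⟨inv_mem hf.1, fun hw => by
    have h1 := DD_mul f⁻¹ f
    rw [inv_mul_cancel, eq_comm, DD_one, CharTwo.add_eq_zero] at h1
    have h2 : sb f (kk f⁻¹ + 1) * kk f = kk f + 1 := by
      rw [map_add, map_one, add_mul, ← kk_mul, inv_mul_cancel, kk_one, one_mul, add_comm]
    rw [(lead_DD h1 hf.1.1).2, (lead_PP h2 hf.1.2.2).2, hf.2 hw]⟩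

lemma Gm.D (h : f ∈ Gm w) : X ^ w ∣ DD f := h.1.1

lemma Gm.P (h : f ∈ Gm w) : X ^ w ∣ PP f := h.1.2.1

lemma Gm.k (h : f ∈ Gm w) : X ^ (2 * w - 2) ∣ kk f + 1 := h.1.2.2

lemma Gm.ser (h : f ∈ Gm w) (hw : 2 ≤ w) : X ^ (2 * w) ∣ f.ser + X :=
  dvd_ser (Gm.D h) (Gm.k h) le_rfl (by omega)

lemma Gm.ps (h : f ∈ Gm (w + 1)) : X ^ w ∣ ps f := dvd_ps (Gm.k h) (by omega)

lemma Gm.ka (h : f ∈ Gm (w + 1)) : X ^ w ∣ ka f + 1 := dvd_ka (Gm.k h) (by omega)

/-- The class map of the factor `Gm w / Gm (w + 1)`. -/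
noncomputable def cJ (w : ℕ) (f : J2) : W2 × W2 :=
  (fun p => if p then coeff w (DD f) else coeff w (PP f),
    if Even w then 0 else fun p => if p then coeff (2 * w - 2) (kk f + 1)
      else coeff (2 * w) (kk f + 1) + coeff (w + 1) (DD f))

lemma mem_Gm_succ (hw : 1 ≤ w) (hf : f ∈ Gm w) : f ∈ Gm (w + 1) ↔ cJ w f = 0 := by
  obtain ⟨w, rfl⟩ := Nat.exists_eq_add_of_le' hw
  have e1 : 2 * (w + 1) - 2 = 2 * w := by omega
  have e2 : 2 * (w + 1 + 1) - 2 = 2 * (w + 1) := by omega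
  have hk := Gm.k hf
  have h2 := hf.2
  have h3 : coeff (2 * w + 1) (kk f + 1) = (w + 1) * coeff (w + 1) (DD f) := by
    rw [← coeff_ps (Gm.D hf) (Gm.P hf) (Gm.ps hf), ← coeff_od, od_add, od_one, add_zero, ps]
  rw [e1] at hk h2
  have key : f ∈ Gm (w + 1 + 1) ↔ coeff (w + 1) (DD f) = 0 ∧ coeff (w + 1) (PP f) = 0 ∧
      coeff (2 * w) (kk f + 1) = 0 ∧ (Even (w + 1 + 1) →
        coeff (2 * (w + 1)) (kk f + 1) = coeff (w + 1 + 1) (DD f)) := by
    change (_ ∧ _ ∧ _) ∧ _ ↔ _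
    rw [dvd_succ_iff (Gm.D hf), dvd_succ_iff (Gm.P hf), e2]
    refine ⟨fun h => ⟨h.1.1, h.1.2.1, X_pow_dvd_iff.1 h.1.2.2 _ (by omega), h.2⟩,
      fun h => ⟨⟨h.1, h.2.1, ?_⟩, h.2.2.2⟩⟩
    exact (dvd_succ_iff ((dvd_succ_iff hk).2 h.2.2.1)).2 (by rw [h3, h.1, mul_zero])
  rw [key, cJ, Prod.mk_eq_zero, e1]
  by_cases hw : Even (w + 1)
  · have : ¬Even (w + 1 + 1) := by simpa [Nat.even_add_one] using hw
    simp only [hw, this, if_true, funext_iff, Bool.forall_bool, h2 hw]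
    simp only [Bool.false_eq_true, if_false, Pi.zero_apply]
    tauto
  · have : Even (w + 1 + 1) := by simpa [Nat.even_add_one] using hw
    simp only [hw, this, if_false, funext_iff, Bool.forall_bool]
    simp only [Bool.false_eq_true, if_false, if_true, Pi.zero_apply, CharTwo.add_eq_zero]
    tauto

lemma Gm_anti_succ (w : ℕ) : Gm (w + 1) ≤ Gm w := fun f hf =>
  ⟨⟨dvd_mono (Gm.D hf) (by omega), dvd_mono (Gm.P hf) (by omega), dvd_mono (Gm.k hf) (by omega)⟩,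
    fun hw => by
      rcases w with _ | w
      · simp [kk_zero, X_dvd_iff.1 (pow_one (X : R2) ▸ X_dvd_DD f)]
        rfl
      rw [X_pow_dvd_iff.1 (Gm.k hf) _ (by omega), X_pow_dvd_iff.1 (Gm.D hf) _ (by omega)]⟩

lemma Gm_anti : Antitone Gm := antitone_nat_of_succ_le Gm_anti_succ

lemma cJ_mul (hw : 3 ≤ w) (hf : f ∈ Gm w) (hg : g ∈ Gm w) : cJ w (f * g) = cJ w f + cJ w g := by
  have s := Gm.ser hg (by omega)
  obtain ⟨v, hv⟩ : ∃ v, 2 * w = v + 1 := ⟨2 * w - 1, by omega⟩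
  rw [hv] at s
  have h1 : X ^ (w + 2) ∣ DD (f * g) + (DD f + DD g) := by
    convert act_dvd s (dvd_ki (Gm.k hg)) (Gm.D hf) (n := w + 2) (by omega) (by omega) using 1
    rw [DD_mul]
    linear_combination DD g * two_R2
  have h2 : X ^ (w + 1) ∣ PP (f * g) + (PP f + PP g) := by
    convert act_dvd s (Gm.k hg) (Gm.P hf) (n := w + 1) (by omega) (by omega) using 1
    rw [PP_mul]
    linear_combination PP g * two_R2
  have h3 : X ^ (2 * w + 1) ∣ kk (f * g) + 1 + (kk f + 1 + (kk g + 1)) := by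
    convert act_dvd s (Gm.k hg) (Gm.k hf) (n := 2 * w + 1) (by omega) (by omega) using 1
    rw [kk_mul, map_add, map_one]
    linear_combination two_R2
  simp only [cJ, Prod.mk_add_mk, coeff_eq_of_dvd h1 (m := w) (by omega),
    coeff_eq_of_dvd h1 (m := w + 1) (by omega), coeff_eq_of_dvd h2 (m := w) (by omega),
    coeff_eq_of_dvd h3 (m := 2 * w - 2) (by omega), coeff_eq_of_dvd h3 (m := 2 * w) (by omega),
    map_add (coeff _) (DD f), map_add (coeff _) (PP f), map_add (coeff _) (kk f + 1)]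
  refine Prod.ext (funext fun p => by cases p <;> rfl) ?_
  split_ifs
  · simp
  · exact funext fun p => by cases p <;> simp only [Pi.add_apply] <;> simp [add_add_add_comm]

lemma isCls_cJ (hw : 3 ≤ w) : IsCls Gm w (cJ w) :=
  ⟨cJ_mul hw, fun hf => (mem_Gm_succ (by omega) hf).symm⟩

/-- Commutators of an element of `Gm (w + 1)` with an arbitrary element. -/
lemma comm_lead (hw : 2 ≤ w) (hf : f ∈ Gm (w + 1)) (g : J2) :
    (X ^ (w + 2) ∣ DD ⁅f, g⁆ ∧ coeff (w + 2) (DD ⁅f, g⁆) =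
      ((w + 1) * coeff 2 g.ser + coeff 3 g.ser) * coeff (w + 1) (DD f)) ∧
    (X ^ (w + 2) ∣ PP ⁅f, g⁆ ∧ (X ^ (w + 3) ∣ kk f + 1 → coeff (w + 2) (PP ⁅f, g⁆) =
      ((w + 1) * coeff 2 g.ser + coeff 3 g.ser) * coeff (w + 1) (PP f))) ∧
    X ^ (2 * w + 2) ∣ kk ⁅f, g⁆ + 1 ∧ coeff (2 * w + 2) (kk ⁅f, g⁆ + 1) =
      w * coeff 2 g.ser * coeff (2 * w) (kk f + 1) +
        ((w + 1) * coeff 2 g.ser + coeff 3 g.ser) * coeff (w + 1) (DD f) := by
  have s : X ^ (2 * w + 1 + 1) ∣ f.ser + X := Gm.ser hf (by omega)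
  have k : X ^ (2 * w) ∣ kk f + 1 := dvd_mono (Gm.k hf) (by omega)
  obtain ⟨a1, a2⟩ := act_coeff g (X_dvd_ki g) (Gm.D hf)
  obtain ⟨b1, b2⟩ := act_coeff g (X_dvd_kk g) (Gm.P hf)
  have a3 := act_dvd s (dvd_ki k) (X_dvd_DD g) (n := w + 3) (by omega) (by omega)
  have b3 := act_dvd0 s k (PP g) (n := w + 2) (by omega) (by omega)
  have a4 := lead_DD (DD_comm f g) (dvd_add a1 (dvd_mono a3 (by omega)))
  rw [mul_comm] at b1 b2 b3
  have b4 := lead_PP (PP_comm f g) (dvd_add b1 b3)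
  have c1 : X ^ (w + 1) ∣ sb g (ka f) + ka f := by
    convert sb_add (j := 1) (sq_dvd' g) (Gm.ka hf) using 1
    rw [map_add, map_one]
    linear_combination -two_R2
  have c2 : coeff (w + 1) (sb g (ka f) + ka f) = w * coeff 2 g.ser * coeff (2 * w) (kk f + 1) := by
    have := coeff_sb_succ g (Gm.ka hf)
    rw [← coeff_ev, ev_add, ev_one, map_add, ← ka]
    simp only [map_add, map_one] at this ⊢
    linear_combination this + coeff (w + 1) (ka f) * two_Z2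
  have c3 := dvd_mul2 (X_dvd_dl g) (sb_dvd g (Gm.ps hf)) (l := w + 1) (by omega)
  have c4 : coeff (w + 1) (dl g * sb g (ps f)) = coeff 2 g.ser * ((w + 1) * coeff (w + 1) (DD f)) := by
    rw [add_comm w 1, coeff_lead (X_dvd_dl g) (sb_dvd g (Gm.ps hf)), coeff_sb g (Gm.ps hf),
      coeff_one_dl, coeff_ps (Gm.D hf) (Gm.P hf) (Gm.ps hf), add_comm 1 w]
  have c5 := dvd_mul2 (m := 1) (φ := X) (by simp) (dvd_sq (mul_comm (kk g) _ ▸
    (act_coeff g (X_dvd_kk g) (Gm.ps hf)).1)) (l := 2 * w + 3) (by omega)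
  have c6 : X ^ (2 * w + 2) ∣ sb g (kk f) + kk f :=
    sb_kk_add g f ▸ dvd_add (dvd_sq (dvd_add c1 c3)) (dvd_mono c5 (by omega))
  have c7 : coeff (2 * w + 2) (sb g (kk f) + kk f) = w * coeff 2 g.ser * coeff (2 * w) (kk f + 1) +
      coeff 2 g.ser * ((w + 1) * coeff (w + 1) (DD f)) := by
    rw [sb_kk_add, map_add, X_pow_dvd_iff.1 c5 _ (by omega), add_zero]
    exact (coeff_sq_even _ (w + 1)).trans (by rw [map_add, c2, c4])
  have d1 := dvd_mono (sb_add_self s (ka g)) (m := w + 2) (by omega)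
  have d2 := (dvd_dl (Gm.D hf)).mul_right (sb f (ps g))
  have d3 : coeff (w + 1) (dl f * sb f (ps g)) = coeff 3 g.ser * coeff (w + 1) (DD f) := by
    have := coeff_lead (n := 0) (b := sb f (ps g)) (dvd_dl (Gm.D hf)) (by simp)
    rw [coeff_sb f (by simp), coeff_dl (Gm.D hf), ps, coeff_od, coeff_one_kk, mul_comm (coeff _ _)]
      at this
    exact this
  have d4 := dvd_mul2 (m := 1) (φ := X) (by simp) (dvd_sq (mul_comm (kk f) _ ▸
    act_dvd0 s k (ps g) (n := w + 1) (by omega) (by omega))) (l := 2 * w + 3) (by omega)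
  have d5 : X ^ (2 * w + 2) ∣ sb f (kk g) + kk g := sb_kk_add f g ▸
    dvd_add (dvd_sq (dvd_add (dvd_mono d1 (by omega)) d2)) (dvd_mono d4 (by omega))
  have d6 : coeff (2 * w + 2) (sb f (kk g) + kk g) = coeff 3 g.ser * coeff (w + 1) (DD f) := by
    rw [sb_kk_add, map_add, X_pow_dvd_iff.1 d4 _ (by omega), add_zero]
    exact (coeff_sq_even _ (w + 1)).trans (by
      rw [map_add, d3, X_pow_dvd_iff.1 d1 _ (by omega), zero_add])
  have e := lead_PP (kk_comm f g) (dvd_add (c6.mul_right _) (d5.mul_right _))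
  refine ⟨⟨a4.1, ?_⟩, ⟨b4.1, fun h => ?_⟩, e.1, ?_⟩
  · rw [a4.2, map_add, a2, X_pow_dvd_iff.1 a3 _ (by omega), coeff_one_ki, add_zero, Nat.cast_succ]
  · have := act_dvd0 s h (PP g) (n := w + 3) (by omega) le_rfl
    rw [mul_comm] at this
    rw [b4.2, map_add, b2, X_pow_dvd_iff.1 this _ (by omega), coeff_one_kk, add_zero, Nat.cast_succ]
  · rw [e.2, map_add, coeff_mul_one (X_dvd_kk g) c6, coeff_mul_one (X_dvd_kk f) d5, c7, d6]
    ring

lemma comm_mem (hw : 3 ≤ w) (hf : f ∈ Gm w) (g : J2) : ⁅f, g⁆ ∈ Gm (w + 1) := by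
  obtain ⟨w, rfl⟩ : ∃ v, w = v + 1 := ⟨w - 1, by omega⟩
  obtain ⟨a, b, c⟩ := comm_lead (by omega) hf g
  have e : 2 * (w + 1 + 1) - 2 = 2 * w + 2 := by omega
  refine ⟨⟨a.1, b.1, e ▸ c.1⟩, fun h => ?_⟩
  have : (w : ZMod 2) = 0 := ZMod.natCast_eq_zero_iff_even.2 (by simpa [Nat.even_add_one] using h)
  rw [e, c.2, a.2, this, zero_mul, zero_mul, zero_add]

lemma comm_mem' (hw : 3 ≤ w) (hf : f ∈ Gm w) (g : J2) : ⁅g, f⁆ ∈ Gm (w + 1) := by
  rw [← commutatorElement_inv]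
  exact inv_mem (comm_mem hw hf g)

lemma Gm_normal (hw : 3 ≤ w) : (Gm w).Normal := ⟨fun f hf g => by
  have := mul_mem (Gm_anti_succ w (comm_mem' hw hf g)) hf
  rwa [commutatorElement_def, inv_mul_cancel_right] at this⟩

/-- The element with given even and odd parts. -/
noncomputable def mkJ (d k : R2) (hd : X ∣ d) (hk : constantCoeff k = 1) : J2 :=
  ⟨d ^ 2 + X * k ^ 2, by simp [X_dvd_iff.1 hd], by
    rw [← od_mk d k, ← coeff_zero_eq_constantCoeff_apply, coeff_od] at hk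
    exact hk⟩

lemma dl_mkJ (d k : R2) (hd : X ∣ d) (hk : constantCoeff k = 1) : dl (mkJ d k hd hk) = d := ev_mk _ _

lemma kk_mkJ (d k : R2) (hd : X ∣ d) (hk : constantCoeff k = 1) : kk (mkJ d k hd hk) = k := od_mk _ _

lemma exists_J {d a : R2} (b : R2) (hd : X ∣ d) (ha : X ∣ a + 1) :
    ∃ f : J2, dl f = d ∧ ka f = a ∧ ps f = b := by
  have : constantCoeff a = 1 := by
    have := X_dvd_iff.1 ha
    rwa [map_add, map_one, CharTwo.add_eq_zero] at this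
  exact ⟨mkJ d (a ^ 2 + X * b ^ 2) hd (by simp [this]), dl_mkJ _ _ _ _,
    by rw [ka, kk_mkJ, ev_mk], by rw [ps, kk_mkJ, od_mk]⟩

lemma dvd_DD (h : X ^ n ∣ dl f) : X ^ n ∣ DD f := h.mul_right _

lemma exists_al (hw : 1 ≤ w) : ∃ f ∈ Gm (w + 1), dl f = X ^ (w + 1) ∧ PP f = 0 ∧
    coeff (w + 1) (DD f) = 1 ∧ (Even w → X ^ (2 * w + 1) ∣ kk f + 1) := by
  have x : (X : R2) ∣ X ^ w := dvd_pow_self _ (by omega)
  obtain ⟨f, h1, h2, h3⟩ := exists_J (d := X ^ (w + 1)) (a := 1 + (w : R2) * X ^ w)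
    (((w : R2) + 1) * X ^ w) (dvd_pow_self _ (by omega)) (by
      rw [add_right_comm, CharTwo.add_self_eq_zero, zero_add]; exact x.mul_left _)
  have hD : X ^ (w + 1) ∣ DD f := dvd_DD (h1 ▸ dvd_rfl)
  have c : coeff (w + 1) (DD f) = 1 := by rw [← coeff_dl hD, h1, coeff_X_pow_self]
  have z : (w : R2) = 0 ∧ Even w ∨ (w : R2) = 1 ∧ ¬Even w := by
    obtain ⟨m, rfl | rfl⟩ := w.even_or_odd'
    · exact Or.inl ⟨by simp [two_R2], by simp⟩
    · exact Or.inr ⟨by simp [two_R2], by simp⟩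
  have hP : PP f = 0 := by
    rw [PP, h1, h2, h3, Derivation.leibniz_pow, derivative_X]
    rcases z with ⟨z, -⟩ | ⟨z, -⟩ <;> simp [z, CharTwo.add_self_eq_zero]
  have hk := kk_add_one f
  rw [h2, h3, add_right_comm, CharTwo.add_self_eq_zero, zero_add] at hk
  have e : 2 * (w + 1) - 2 = 2 * w := by omega
  rcases z with ⟨z, z'⟩ | ⟨z, z'⟩
  · have : kk f + 1 = X ^ (2 * w + 1) := by rw [hk, z]; ring
    refine ⟨f, ⟨⟨hD, hP ▸ dvd_zero _, this ▸ pow_dvd_pow _ (by omega)⟩, fun h => ?_⟩, h1, hP, c,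
      fun _ => this ▸ dvd_rfl⟩
    exact (Nat.even_add_one.1 h z').elim
  · have : kk f + 1 = X ^ (2 * w) := by rw [hk, z, CharTwo.add_self_eq_zero]; ring
    exact ⟨f, ⟨⟨hD, hP ▸ dvd_zero _, by rw [this, e]⟩, fun _ => by
      rw [c, this, e, coeff_X_pow_self]⟩, h1, hP, c, fun h => (z' h).elim⟩

lemma exists_be (w : ℕ) : ∃ f ∈ Gm w, DD f = 0 ∧ kk f + 1 = X ^ (2 * w + 1) ∧
    coeff w (PP f) = 1 := by
  obtain ⟨f, h1, h2, h3⟩ := exists_J (d := 0) (a := 1) (X ^ w) (by simp)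
    (by simp [CharTwo.add_self_eq_zero])
  have hD : DD f = 0 := by rw [DD, h1, zero_mul]
  have hk : kk f + 1 = X ^ (2 * w + 1) := by
    rw [kk_add_one, h2, h3, CharTwo.add_self_eq_zero]; ring
  have hP : PP f = X ^ w * ki f := by simp [PP, h1, h2, h3]
  refine ⟨f, ⟨⟨hD ▸ dvd_zero _, hP ▸ dvd_mul_right _ _, hk ▸ pow_dvd_pow _ (by omega)⟩,
    fun _ => ?_⟩, hD, hk, ?_⟩
  · rw [hD, hk, coeff_X_pow, if_neg (by omega), map_zero]
  · rw [hP, coeff_mul_one (X_dvd_ki f) dvd_rfl, coeff_X_pow_self]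

lemma mem_Gm_iff : f ∈ Gm (w + 1) ↔ (∀ i ≤ w, coeff (2 * i) f.ser = 0) ∧
    (∀ i < 2 * w, 1 ≤ i → coeff (2 * i + 1) f.ser = 0) ∧
    coeff (4 * w + 3) f.ser = (w + 1) * coeff (2 * w + 2) f.ser ∧
    (1 ≤ w → Odd w → coeff (4 * w + 1) f.ser = coeff (2 * w + 2) f.ser) := by
  have e : 2 * (w + 1) - 2 = 2 * w := by omega
  have a1 : X ^ (w + 1) ∣ DD f ↔ ∀ i ≤ w, coeff (2 * i) f.ser = 0 :=
    ⟨fun h i hi => coeff_ev f.ser i ▸ X_pow_dvd_iff.1 (dvd_dl h) i (by omega),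
      fun h => dvd_DD (X_pow_dvd_iff.2 fun i hi => (coeff_ev _ _).trans (h i (by omega)))⟩
  have a2 : ∀ i, 1 ≤ i → coeff i (kk f + 1) = coeff (2 * i + 1) f.ser := fun i hi => by
    rw [map_add, coeff_one, if_neg (by omega), add_zero, kk, coeff_od]
  have a3 : X ^ (2 * w) ∣ kk f + 1 ↔ ∀ i < 2 * w, 1 ≤ i → coeff (2 * i + 1) f.ser = 0 :=
    ⟨fun h i hi h1 => a2 i h1 ▸ X_pow_dvd_iff.1 h i hi, fun h => X_pow_dvd_iff.2 fun i hi => by
      rcases Nat.eq_zero_or_pos i with rfl | h1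
      · exact X_pow_dvd_iff.1 (X_dvd_kk f) 0 one_pos
      · exact (a2 i h1).trans (h i hi h1)⟩
  have a4 : coeff w (ps f) = coeff (4 * w + 3) f.ser := by
    rw [ps, coeff_od, kk, coeff_od]; congr 2; ring
  change (_ ∧ _ ∧ _) ∧ _ ↔ _
  rw [e, ← a1, ← a3, and_assoc, and_assoc]
  refine and_congr_right fun h1 => ?_
  have a5 : coeff (w + 1) (DD f) = coeff (2 * w + 2) f.ser := by rw [← coeff_dl h1]; exact coeff_ev _ _
  rw [← and_assoc, and_comm (a := _ ∣ PP f), and_assoc]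
  refine and_congr_right fun h2 => and_congr ?_ ?_
  · have h3 := dvd_ps h2 le_rfl
    refine ⟨fun h => by rw [← a4, coeff_ps h1 h h3, a5], fun h => ?_⟩
    refine dvd_unit_right ((mul_comm _ _).trans (ki_mul_kk f)) ?_
    rw [PP_mul_kk, dvd_succ_iff (dvd_add (h3.mul_right _) (dvd_d (dvd_dl h1))), map_add,
      coeff_mul_one (X_dvd_ka f) h3, coeff_derivative, coeff_dl h1, a4, a5, h, mul_comm,
      CharTwo.add_self_eq_zero]
  · rw [Nat.even_add_one, Nat.not_even_iff_odd, a5]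
    refine ⟨fun h h4 h5 => ?_, fun h h5 => ?_⟩
    · rw [← h h5, a2 _ (by omega)]; congr 2; ring
    · have := h5.pos
      rw [← h this h5, a2 _ (by omega)]; congr 2; ring

lemma Gm_of_dvd (h : X ^ (4 * w) ∣ f.ser + X) : f ∈ Gm w := by
  rcases w with _ | w
  · exact ⟨⟨by simp, by simp, by simp⟩, fun _ => by
      simp [kk_zero, X_dvd_iff.1 (pow_one (X : R2) ▸ X_dvd_DD f)]
      rfl⟩
  have : ∀ i, i < 4 * (w + 1) → i ≠ 1 → coeff i f.ser = 0 := fun i h1 h2 => by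
    rw [coeff_eq_of_dvd h h1, coeff_X, if_neg h2]
  refine mem_Gm_iff.2 ⟨fun i hi => this _ (by omega) (by omega),
    fun i hi h => this _ (by omega) (by omega), ?_, fun h _ => ?_⟩ <;>
  rw [this _ (by omega) (by omega), this _ (by omega) (by omega)]
  simp

end Pool.Agent.Lib.MP_ffb54b_al.P2
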