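import Pool.Agent.Lib.MP_ffb54b_al.P2.AX0
import Pool.Agent.Lib.MP_ffb54b_al.P2.JGam

set_option autoImplicit false
set_option linter.unusedSectionVars false

namespace Pool.Agent.Lib.MP_ffb54b_al.P2

open PowerSeries Subgroup
open scoped commutatorElement

/-- The window coefficients of an element of the Nottingham group. -/
noncomputable def cf2 (f : J2) (p : Bool) (i k : ℕ) : ZMod 2 :=
  coeff (i + k) (sb f⁻¹ (X ^ i) * (if p then ki f⁻¹ else kk f⁻¹))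

lemma jb_pow (y : R2) (n : ℕ) : ∃ z, (1 + y) ^ n = 1 + n * y + y ^ 2 * z := by
  induction n with
  | zero => exact ⟨0, by simp⟩
  | succ n ih =>
    obtain ⟨z, hz⟩ := ih
    exact ⟨z + n + y * z, by rw [pow_succ, hz]; push_cast; ring⟩

lemma jb_drop {a : R2} {m n : ℕ} (c : R2) (hm : m ≤ n) (h : X ^ n ∣ a + c * X ^ m) : X ^ m ∣ a := by
  simpa [add_assoc, CharTwo.add_self_eq_zero] using
    dvd_add (dvd_mono h hm) ((dvd_refl (X ^ m : R2)).mul_left c)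

lemma jb_win {g : J2} {m n : ℕ} {s r : ZMod 2} (h0 : 0 < m) (hm : m < n) (hn : n ≤ 2 * m)
    (hs : X ^ (n + 1) ∣ g.ser + X + C s * X ^ (m + 1)) (hk : X ^ n ∣ kk g + 1 + C r * X ^ m)
    (p : Bool) (i : ℕ) {k : ℕ} (hkn : k < n) : cf2 g⁻¹ p i k = fr m (i * s + r) k := by
  have t := two_R2
  obtain ⟨H, hH⟩ := hs
  have e : g.ser = X * (1 + (C s * X ^ m + X ^ n * H)) := by
    linear_combination hH - (X + C s * X ^ (m + 1)) * t
  have hu : X ^ n ∣ (if p then ki g else kk g) + 1 + C r * X ^ m := by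
    cases p
    · exact hk
    · convert dvd_add ((dvd_mono (dvd_sq (jb_drop _ hm.le hk)) hn).mul_left (ki g)) hk using 1
      simp only [if_true]
      linear_combination -(kk g + 2) * ki_mul_kk g - (1 + kk g) * t
  rw [cf2, inv_inv, map_pow, sb_X]
  generalize (if p then ki g else kk g) = u at hu
  obtain ⟨z, hz⟩ := jb_pow (C s * X ^ m + X ^ n * H) i
  have h1 : X ^ n ∣ (C s * X ^ m + X ^ n * H : R2) ^ 2 := dvd_mono (dvd_sq (n := m)
    (dvd_add (dvd_mul_left _ _) ((pow_dvd_pow _ hm.le).mul_right _))) hn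
  have h2 : X ^ n ∣ X ^ m * (u + 1) := dvd_mul2 dvd_rfl (jb_drop _ hm.le hu) (by omega)
  have h3 : X ^ (i + n) ∣ g.ser ^ i * u + X ^ i * (1 + C (i * s + r) * X ^ m) := by
    rw [e, mul_pow, hz, mul_assoc, ← mul_add]
    refine dvd_mul2 dvd_rfl ?_ le_rfl
    convert dvd_add (dvd_add hu (h2.mul_left (i * C s)))
      (dvd_add (dvd_mul_right (X ^ n) ((i : R2) * H * u)) (h1.mul_right (z * u))) using 1
    simp only [map_add, map_mul, map_natCast]
    ring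
  rw [coeff_eq_of_dvd h3 (by omega), add_comm i, coeff_X_pow_mul, map_add, coeff_one, coeff_C_mul,
    coeff_X_pow, fr]
  split_ifs <;> first | omega | simp

/-- The element is `t (1 + t ^ (2 m))`. -/
def IsH (f : J2) (m : ℕ) : Prop := dl f = 0 ∧ kk f + 1 = X ^ m

lemma exists_isH (m : ℕ) : ∃ f, IsH f (m + 1) :=
  ⟨mkJ 0 (1 + X ^ (m + 1)) (by simp) (by simp), dl_mkJ _ _ _ _, by
    rw [kk_mkJ, add_right_comm, CharTwo.add_self_eq_zero, zero_add]⟩

namespace IsH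

variable {f : J2} {m : ℕ}

lemma of_ser (h : f.ser = X + X ^ (2 * m + 1)) : IsH f m := by
  have e : f.ser = 0 ^ 2 + X * (1 + X ^ m) ^ 2 := by
    rw [h]; linear_combination -(X ^ (m + 1)) * two_R2
  exact ⟨by rw [dl, e, ev_mk], by
    rw [kk, e, od_mk, add_right_comm, CharTwo.add_self_eq_zero, zero_add]⟩

lemma D (h : IsH f m) : DD f = 0 := by rw [DD, h.1, zero_mul]

lemma ser (h : IsH f m) : f.ser + X = X ^ (2 * m + 1) := by
  rw [ser_add_X, h.1, h.2]; ring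

lemma cf (h : IsH f m) (hm : 0 < m) (p : Bool) (i : ℕ) {k : ℕ} (hk : k < 2 * m) :
    cf2 f⁻¹ p i k = fr m 1 k := by
  have := jb_win (g := f) (m := m) (n := 2 * m) (s := 0) (r := 1) hm (by omega) le_rfl
    (by rw [h.ser, map_zero, zero_mul, add_zero])
    (by rw [h.2, map_one, one_mul, CharTwo.add_self_eq_zero]; exact dvd_zero _) p i hk
  rwa [mul_zero, zero_add] at this

lemma P (h : IsH f (2 * m)) : PP f = 0 := by
  have := congrArg od h.2
  rw [od_add, od_one, add_zero, show (X : R2) ^ (2 * m) = (X ^ m) ^ 2 + X * 0 ^ 2 by ring, od_mk,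
    ← ps] at this
  rw [PP, this, h.1, map_zero, zero_mul, zero_add, zero_mul]

lemma mem (h : IsH f (2 * m)) {w : ℕ} (hw : Odd w) (hm : w ≤ m + 1) : f ∈ Gm w :=
  ⟨⟨h.D ▸ dvd_zero _, h.P ▸ dvd_zero _, h.2 ▸ pow_dvd_pow _ (by omega)⟩,
    fun h' => (Nat.not_even_iff_odd.2 hw h').elim⟩

/-- Commutators with the elements `t (1 + t ^ (4 m))`. -/
lemma comm (hf : IsH f (2 * m)) (g : J2) {w c : ℕ} (hw : w + 2 ≤ 2 * m) (hc : c ≤ 4 * m + 1)
    (h : X ^ c ∣ sb g (X ^ (2 * m)) + X ^ (2 * m)) (h1 : 2 * w ≤ c)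
    (h2 : Even (w + 1) → 2 * w + 1 ≤ c) : ⁅g, f⁆ ∈ Gm (w + 1) := by
  have s : X ^ (4 * m + 1) ∣ f.ser + X := hf.ser ▸ pow_dvd_pow _ (by omega)
  have k : X ^ (2 * m) ∣ kk f + 1 := hf.2 ▸ dvd_rfl
  have a0 := DD_comm g f
  have b0 := PP_comm g f
  rw [hf.D, map_zero, zero_mul, add_zero, add_zero] at a0
  rw [hf.P, map_zero, mul_zero, add_zero, add_zero, mul_comm (kk f)] at b0
  have a := lead_DD a0 (act_dvd0 s (dvd_ki k) (DD g) (n := w + 2) (by omega) hw)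
  have b := lead_PP b0 (act_dvd0 s k (PP g) (n := w + 1) (by omega) (by omega))
  have e : sb g (X ^ (2 * m)) + X ^ (2 * m) = sb g (kk f) + kk f := by
    rw [← hf.2, map_add, map_one]
    linear_combination two_R2
  rw [e] at h
  have d := lead_PP (kk_comm g f) (n := c)
    (dvd_add ((dvd_mono (sb_add_self s _) hc).mul_right _) (h.mul_right _))
  exact ⟨⟨dvd_mono a.1 (by omega), b.1, dvd_mono d.1 (by omega)⟩, fun hw => by
    have := h2 hw
    rw [X_pow_dvd_iff.1 d.1 _ (by omega), X_pow_dvd_iff.1 a.1 _ (by omega)]⟩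

end IsH

lemma sb_sq (g : J2) (a : R2) : sb g (a ^ 2) + a ^ 2 = (sb g a + a) ^ 2 := by
  rw [map_pow]
  linear_combination -(sb g a * a) * two_R2

lemma comm_inv {Γ : Type*} [Group Γ] {N : Subgroup Γ} (hN : N.Normal) {a b : Γ} (h : ⁅a, b⁆ ∈ N) :
    ⁅a⁻¹, b⁻¹⁆ ∈ N := by
  convert hN.conj_mem _ h (b * a)⁻¹ using 1
  simp only [commutatorElement_def]
  group

lemma comm_P {g f : J2} (hg : X ^ 4 ∣ g⁻¹.ser + X) {v : ℕ} (hv : 3 ≤ v) (hf : IsH f (2 * (2 * v))) :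
    ⁅g, f⁻¹⁆ ∈ Gm (2 * v + 4) := by
  rw [← inv_inv g]
  refine comm_inv (Gm_normal (by omega)) (hf.comm _ (c := 4 * v + 12) (by omega) (by omega) ?_
    (by omega) (by omega))
  rw [show (X : R2) ^ (2 * (2 * v)) = ((X ^ v) ^ 2) ^ 2 by ring, sb_sq, sb_sq]
  exact dvd_mono (dvd_sq (dvd_sq (sb_add (j := 3) hg dvd_rfl))) (by omega)

lemma comm_P' {g f : J2} (hg : X ^ 4 ∣ g⁻¹.ser + X) {v : ℕ} (hv : 3 ≤ v)
    (hf : IsH f (2 * (2 * v + 1))) : ⁅g, f⁻¹⁆ ∈ Gm (2 * v + 5) := by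
  rw [← inv_inv g]
  refine comm_inv (Gm_normal (by omega)) (hf.comm _ (c := 4 * v + 8) (by omega) (by omega) ?_
    (by omega) fun h => by simp [parity_simps] at h)
  rw [show (X : R2) ^ (2 * (2 * v + 1)) = (X ^ (2 * v + 1)) ^ 2 by ring, sb_sq]
  exact dvd_mono (dvd_sq (sb_add (j := 3) hg dvd_rfl)) (by omega)

lemma coeff_sb_lead {g : J2} {φ : R2} {j n : ℕ} (hg : X ^ (j + 2) ∣ g.ser + X) (h : X ^ n ∣ φ) :
    coeff (n + j + 1) (sb g φ + φ) = n * coeff (j + 2) (g.ser + X) * coeff n φ := by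
  obtain ⟨F, rfl⟩ := h
  obtain ⟨H, hH⟩ := hg
  have h1 := X_pow_dvd_iff.1 (g.taylor (j := j) (H := H) (by rw [CharTwo.sub_eq_add, hH]) n F)
    (n + j + 1) (by omega)
  rw [map_sub, mul_assoc, ← nsmul_eq_mul, map_nsmul, coeff_X_pow_mul' (H * F), ← sb_apply,
    CharTwo.sub_eq_add (sb g _), sub_eq_zero] at h1
  rw [h1, hH, coeff_X_pow_mul' F n n, coeff_X_pow_mul' H]
  simp [mul_assoc]

/-- An odd series of depth exactly `2 m`. -/
def OD (f : J2) (m : ℕ) : Prop := (∀ n, f ∈ Box n 0 m) ∧ coeff m (kk f + 1) = 1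

lemma IsH.od {f : J2} {m : ℕ} (h : IsH f m) : OD f m :=
  ⟨fun _ => ⟨h.D ▸ dvd_zero _, by simp, h.2 ▸ dvd_rfl⟩, by rw [h.2, coeff_X_pow_self]⟩

namespace OD

variable {f g : J2} {m : ℕ}

lemma k (h : OD f m) : X ^ m ∣ kk f + 1 := (h.1 0).2.2

lemma ser (h : OD f m) : X ^ (2 * m + 1) ∣ f.ser + X :=
  dvd_ser (h.1 (m + 1)).1 h.k (by omega) le_rfl

lemma inv (h : OD f m) : OD f⁻¹ m := ⟨fun n => inv_mem (h.1 n), by
  have h2 : sb f (kk f⁻¹ + 1) * kk f = kk f + 1 := by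
    rw [map_add, map_one, add_mul, ← kk_mul, inv_mul_cancel, kk_one, one_mul, add_comm]
  rw [(lead_PP h2 h.k).2, h.2]⟩

lemma step (hf : OD f 1) (hg : OD g m) (hm : Odd m) (h2 : 2 ≤ m) : OD ⁅f, g⁆ (m + 2) := by
  have e : sb f (kk g) + kk g = sb f (kk g + 1) + (kk g + 1) := by
    rw [map_add, map_one]
    linear_combination -two_R2
  have c1 : X ^ (m + 2) ∣ sb f (kk g) + kk g := e ▸ sb_add (j := 2) hf.ser hg.k
  have c2 : coeff (m + 2) (sb f (kk g) + kk g) = 1 := by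
    rw [e, coeff_sb_lead (j := 1) hf.ser hg.k, hg.2, ser_add_X, map_add,
      X_pow_dvd_iff.1 (dvd_sq (dvd_dl (hf.1 2).1)) _ (by omega), coeff_succ_X_mul,
      coeff_sq_even _ 1, hf.2, hm.natCast_zmod_two]
    rfl
  have c3 : X ^ (m + 3) ∣ (sb g (kk f) + kk f) * kk g :=
    (dvd_mono (sb_add_self hg.ser _) (by omega)).mul_right _
  have d := lead_PP (kk_comm f g) (dvd_add (dvd_mono c3 (m := m + 2) (by omega)) (c1.mul_right _))
  have b : ∀ {f : J2} {m : ℕ} (n : ℕ), OD f m → f ∈ Box n 0 0 := fun n h =>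
    ⟨(h.1 n).1, by simp, by simp⟩
  refine ⟨fun n => ⟨(mul_mem (mul_mem (mul_mem (b n hf) (b n hg)) (b n hf.inv)) (b n hg.inv)).1,
    by simp, d.1⟩, ?_⟩
  rw [d.2, map_add, X_pow_dvd_iff.1 c3 _ (by omega), coeff_mul_one (X_dvd_kk f) c1, c2, zero_add]

lemma cf (h : OD f m) (hm : 0 < m) (p : Bool) (i : ℕ) {k : ℕ} (hk : k < m + 1) :
    cf2 f p i k = fr m 1 k := by
  have := jb_win (g := f⁻¹) (m := m) (n := m + 1) (s := 0) (r := 1) hm (by omega) (by omega)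
    (by rw [map_zero, zero_mul, add_zero]; exact dvd_mono h.inv.ser (by omega))
    (by rw [map_one, one_mul, dvd_succ_iff (dvd_add h.inv.k dvd_rfl), map_add, h.inv.2,
      coeff_X_pow_self]; rfl) p i hk
  rwa [mul_zero, zero_add, inv_inv] at this

end OD

lemma vG_od {x y u : J2} (hy : y⁻¹.ser = X + X ^ 3) (hu : u⁻¹.ser = X + X ^ 7) (i : ℕ) :
    OD (vG x y u false (i + 1)) (2 * i + 3) := by
  induction i with
  | zero => simpa [vG] using (IsH.of_ser (m := 3) hu).od.inv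
  | succ i ih =>
    exact OD.step (by simpa using (IsH.of_ser (m := 1) hy).od.inv) ih ⟨i + 1, by ring⟩ (by omega)

/-- The further facts about the Nottingham group used for the export of `AG`. -/
theorem jf2 {KJ : ℕ → Subgroup J2} {x y u : J2} (L : LCS KJ x y u)
    (hK : ∀ w, 3 ≤ w → KJ w = Gm w) (hy : y⁻¹.ser = X + X ^ 3) (hu : u⁻¹.ser = X + X ^ 7) :
    ∃ h q, JF2 KJ x y u h q cf2 := by
  obtain ⟨h, hh⟩ := exists_isH 1
  let q := mkJ (X ^ 2) 1 (dvd_pow_self _ two_ne_zero) (by simp)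
  have q1 : q.ser = X ^ 4 + X := by
    change (X ^ 2) ^ 2 + X * 1 ^ 2 = _
    ring
  have q2 : kk q = 1 := kk_mkJ _ _ _ _
  clear_value q
  have t := two_R2
  have su : X ^ 4 ∣ u⁻¹.ser + X := ⟨X ^ 3, by linear_combination hu + X * t⟩
  have sh : X ^ 4 ∣ h⁻¹⁻¹.ser + X := ⟨X, by rw [inv_inv, hh.ser]; ring⟩
  have sq : X ^ 4 ∣ q⁻¹⁻¹.ser + X := ⟨1, by rw [inv_inv]; linear_combination q1 + X * t⟩
  refine ⟨h⁻¹, q⁻¹, fun p i k hk => hh.cf two_pos p i hk, fun p i k hk => ?_, fun w₀ => ?_⟩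
  · simpa using jb_win (g := q) (m := 3) (n := 5) (s := 1) (r := 0) (by omega) (by omega) (by omega)
      ⟨0, by rw [map_one]; linear_combination q1 + (X + X ^ 4) * t⟩
      ⟨0, by rw [map_zero]; linear_combination q2 + t⟩ p i hk
  obtain ⟨v, hv⟩ : ∃ v, v = w₀ + 2 := ⟨_, rfl⟩
  refine ⟨2 * (v + 1), by omega, by simp, ?_, ⟨_, L.vG_mem false _, by simp, fun p i k hk => ?_⟩,
    ?_, ?_⟩
  · obtain ⟨f, f1, f2, -, -, f3⟩ := exists_al (w := 2 * (v + 1)) (by omega)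
    have f4 := f3 (by simp)
    refine ⟨f⁻¹, hK (2 * (v + 1) + 1) (by omega) ▸ inv_mem f1, coeff (2 * (2 * (v + 1)) + 1) (kk f + 1),
      fun p i k hk => ?_⟩
    have := jb_win (g := f) (m := 2 * (2 * (v + 1)) + 1) (n := 2 * (2 * (v + 1)) + 2) (s := 1)
      (r := coeff (2 * (2 * (v + 1)) + 1) (kk f + 1)) (by omega) (by omega) (by omega) (by
        convert dvd_mul2 (m := 1) (φ := X) (by simp) (dvd_sq f4) (l := 2 * (2 * (v + 1)) + 2 + 1)
          (by omega) using 1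
        rw [ser_add_X, f2, map_one]
        linear_combination X ^ (4 * v + 6) * t) (by
        rw [dvd_succ_iff (dvd_add f4 (dvd_mul_left _ _)), map_add (coeff _) _ (C _ * _), coeff_C_mul,
          coeff_X_pow_self, mul_one, CharTwo.add_self_eq_zero]) p i hk
    rwa [mul_one] at this
  · exact (vG_od (x := x) hy hu (2 * v + 1)).cf (by omega) p i (by omega)
  · obtain ⟨f, hf⟩ : ∃ f, IsH f (2 * (2 * (v + 1))) := exists_isH _
    simp only [hK _ (show 3 ≤ 2 * (v + 1) + 1 by omega), hK _ (show 3 ≤ 2 * (v + 1) + 4 by omega)]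
    exact ⟨f⁻¹, inv_mem (hf.mem (by simp) le_rfl), comm_P su (by omega) hf, comm_P sh (by omega) hf,
      comm_P sq (by omega) hf, fun p i k hk => hf.cf (by omega) p i (by omega)⟩
  · obtain ⟨f, hf⟩ : ∃ f, IsH f (2 * (2 * (v + 1) + 1)) := exists_isH _
    simp only [hK _ (show 3 ≤ 2 * (v + 1) + 1 by omega), hK _ (show 3 ≤ 2 * (v + 1) + 5 by omega)]
    exact ⟨f⁻¹, inv_mem (hf.mem (by simp) (by omega)), comm_P' su (by omega) hf,
      comm_P' sh (by omega) hf, comm_P' sq (by omega) hf,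
      fun p i k hk => hf.cf (by omega) p i (by omega)⟩

end Pool.Agent.Lib.MP_ffb54b_al.P2
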