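import Pool.Agent.Lib.MP_ffb54b_al.Series

set_option autoImplicit false
set_option linter.unusedSectionVars false

namespace Pool.Agent.Lib.MP_ffb54b_al.P2

open Subgroup
open scoped commutatorElement DirectSum

universe u

variable {Γ : Type u} [Group Γ] {I : Type} [AddCommMonoid I] [DecidableEq I]

/-- A system of sections `S A / T A` of a group on which commutators give a Lie bracket. -/
structure PS (S T : I → Subgroup Γ) : Prop where
  S_normal : ∀ A, (S A).Normal
  comm_SS : ∀ {A B : I} {a b : Γ}, a ∈ S A → b ∈ S B → ⁅a, b⁆ ∈ S (A + B)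
  comm_SS_T : ∀ {A B : I} {a b : Γ}, a ∈ S A → b ∈ S B → ⁅a, b⁆ ∈ T B
  comm_TS : ∀ {A B : I} {a b : Γ}, a ∈ S A → a ∈ T A → b ∈ S B → ⁅a, b⁆ ∈ T (A + B)

namespace PS

variable {S T : I → Subgroup Γ} [∀ A, (T A).Normal] {a a' b b' c g : Γ} {A B C : I} (h : PS S T)
include h

lemma comm_ST (ha : a ∈ S A) (hb : b ∈ S B) (hb' : b ∈ T B) : ⁅a, b⁆ ∈ T (A + B) := by
  rw [← commutatorElement_inv, add_comm]
  exact inv_mem (h.comm_TS hb hb' ha)

/-- The abelian group of the index `A`. -/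
def M (_ : PS S T) (A : I) : Type u := Additive (S A ⧸ (T A).subgroupOf (S A))

noncomputable instance (A : I) : AddCommGroup (h.M A) :=
  { (inferInstance : AddGroup (Additive (S A ⧸ (T A).subgroupOf (S A)))) with
    add_comm := by
      rintro ⟨a⟩ ⟨b⟩
      refine QuotientGroup.eq.2 (mem_subgroupOf.2 ?_)
      convert h.comm_SS_T (inv_mem b.2) (inv_mem a.2) using 1
      simp only [commutatorElement_def, coe_mul, coe_inv]; group }

/-- The class map to the abelian group of an index. -/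
def mkM (A : I) (a : S A) : h.M A := Additive.ofMul (QuotientGroup.mk a)

/-- The Lie ring of all indices. -/
def L : Type u := ⨁ A : I, h.M A

noncomputable instance : AddCommGroup h.L := inferInstanceAs (AddCommGroup (⨁ A : I, h.M A))

open Classical in
/-- The class of a group element in the index `A`. -/
noncomputable def cg (A : I) (a : Γ) : h.L :=
  if ha : a ∈ S A then DirectSum.of h.M A (h.mkM A ⟨a, ha⟩) else 0

lemma cg_mul (ha : a ∈ S A) (hb : b ∈ S A) : h.cg A (a * b) = h.cg A a + h.cg A b := by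
  simp only [cg, dif_pos ha, dif_pos hb, dif_pos (mul_mem ha hb)]
  exact (DirectSum.of h.M A).map_add (h.mkM A ⟨a, ha⟩) (h.mkM A ⟨b, hb⟩)

lemma cg_eq_zero (ha : a ∈ S A) : h.cg A a = 0 ↔ a ∈ T A := by
  classical
  simp only [cg, dif_pos ha]
  exact ((injective_iff_map_eq_zero' _).1 (DirectSum.of_injective A) _).trans
    ((QuotientGroup.eq_one_iff (N := (T A).subgroupOf (S A)) ⟨a, ha⟩).trans mem_subgroupOf)

lemma cg_one : h.cg A 1 = 0 := (h.cg_eq_zero (one_mem _)).2 (one_mem _)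

lemma cg_inv (ha : a ∈ S A) : h.cg A a⁻¹ = -h.cg A a := by
  rw [eq_neg_iff_add_eq_zero, ← h.cg_mul (inv_mem ha) ha, inv_mul_cancel, cg_one]

lemma cg_eq (ha : a ∈ S A) (hb : b ∈ S A) : h.cg A a = h.cg A b ↔ a * b⁻¹ ∈ T A := by
  rw [← h.cg_eq_zero (mul_mem ha (inv_mem hb)), h.cg_mul ha (inv_mem hb), h.cg_inv hb,
    ← sub_eq_add_neg, sub_eq_zero]

lemma cg_not (ha : a ∉ S A) : h.cg A a = 0 := dif_neg ha

@[elab_as_elim]
lemma induction {Q : h.L → Prop} (x : h.L) (h0 : Q 0) (h1 : ∀ A, ∀ a ∈ S A, Q (h.cg A a))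
    (h2 : ∀ x y, Q x → Q y → Q (x + y)) : Q x := by
  classical
  refine DirectSum.induction_on (β := h.M) x h0 ?_ h2
  rintro A ⟨a⟩
  have := h1 A a a.2
  rwa [cg, dif_pos a.2] at this

lemma hom_ext {X : Type*} [AddCommGroup X] {f f' : h.L →+ X}
    (e : ∀ A, ∀ a ∈ S A, f (h.cg A a) = f' (h.cg A a)) : f = f' :=
  AddMonoidHom.ext fun x => h.induction x (by simp) e fun x y h1 h2 => by simp [h1, h2]

lemma exists_lift {X : Type*} [AddCommGroup X] (f : I → Γ → X)
    (hm : ∀ A, ∀ a ∈ S A, ∀ b ∈ S A, f A (a * b) = f A a + f A b)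
    (h0 : ∀ A, ∀ a ∈ S A, a ∈ T A → f A a = 0) :
    ∃ φ : h.L →+ X, ∀ A, ∀ a ∈ S A, φ (h.cg A a) = f A a := by
  classical
  let ψ (A : I) : h.M A →+ X := MonoidHom.toAdditiveLeft (QuotientGroup.lift _
    (MonoidHom.mk' (fun a : S A => Multiplicative.ofAdd (f A a))
      fun a b => congrArg Multiplicative.ofAdd (hm A a a.2 b b.2))
    fun a ha => congrArg Multiplicative.ofAdd (h0 A a a.2 ha))
  refine ⟨DirectSum.toAddMonoid ψ, fun A a ha => ?_⟩
  rw [cg, dif_pos ha]
  exact DirectSum.toAddMonoid_of ψ A _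

lemma exists_br : ∃ β : h.L →+ h.L →+ h.L, ∀ A, ∀ a ∈ S A, ∀ B, ∀ b ∈ S B,
    β (h.cg A a) (h.cg B b) = h.cg (A + B) ⁅a, b⁆ := by
  classical
  have h1 : ∀ A a, ∃ φ : h.L →+ h.L, a ∈ S A → ∀ B, ∀ b ∈ S B,
      φ (h.cg B b) = h.cg (A + B) ⁅a, b⁆ := fun A a => by
    by_cases ha : a ∈ S A
    swap
    · exact ⟨0, fun h => (ha h).elim⟩
    refine (h.exists_lift (fun B b => h.cg (A + B) ⁅a, b⁆) (fun B b hb b' hb' => ?_)
      fun B b hb hb' => ?_).imp fun _ h _ => h
    · have e : ⁅a, b * b'⁆ = ⁅a, b⁆ * (⁅b, ⁅a, b'⁆⁆ * ⁅a, b'⁆) := by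
        simp only [commutatorElement_def]; group
      have m := h.comm_SS ha hb'
      have m' : ⁅b, ⁅a, b'⁆⁆ ∈ S (A + B) :=
        mul_mem ((h.S_normal _).conj_mem _ m b) (inv_mem m)
      rw [e, h.cg_mul (h.comm_SS ha hb) (mul_mem m' m), h.cg_mul m' m,
        (h.cg_eq_zero m').2 (h.comm_SS_T hb m), zero_add]
    · exact (h.cg_eq_zero (h.comm_SS ha hb)).2 (h.comm_ST ha hb hb')
  choose φ hφ using h1
  refine (h.exists_lift φ (fun A a ha a' ha' => h.hom_ext fun B b hb => ?_)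
    fun A a ha ha' => h.hom_ext fun B b hb => ?_).imp fun β hβ A a ha B b hb => by
      rw [hβ A a ha, hφ A a ha B b hb]
  · have e : ⁅a * a', b⁆ = ⁅a, ⁅a', b⁆⁆ * ⁅a', b⁆ * ⁅a, b⁆ := by
      simp only [commutatorElement_def]; group
    have m := h.comm_SS ha' hb
    have m' : ⁅a, ⁅a', b⁆⁆ ∈ S (A + B) :=
      mul_mem ((h.S_normal _).conj_mem _ m a) (inv_mem m)
    rw [AddMonoidHom.add_apply, hφ A _ (mul_mem ha ha') B b hb, hφ A a ha B b hb, hφ A a' ha' B b hb,
      e, h.cg_mul (mul_mem m' m) (h.comm_SS ha hb), h.cg_mul m' m,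
      (h.cg_eq_zero m').2 (h.comm_SS_T ha m), zero_add, add_comm]
  · rw [hφ A a ha B b hb]
    exact (h.cg_eq_zero (h.comm_SS ha hb)).2 (h.comm_TS ha ha' hb)

/-- The bracket. -/
noncomputable def br : h.L →+ h.L →+ h.L := h.exists_br.choose

lemma br_cg (ha : a ∈ S A) (hb : b ∈ S B) :
    h.br (h.cg A a) (h.cg B b) = h.cg (A + B) ⁅a, b⁆ := h.exists_br.choose_spec A a ha B b hb

lemma br_skew (x y : h.L) : h.br x y = -h.br y x := by
  have : h.br = -h.br.flip := h.hom_ext fun A a ha => h.hom_ext fun B b hb => by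
    rw [AddMonoidHom.neg_apply, AddMonoidHom.neg_apply, AddMonoidHom.flip_apply, h.br_cg ha hb,
      h.br_cg hb ha, ← h.cg_inv (h.comm_SS hb ha), commutatorElement_inv, add_comm]
  exact DFunLike.congr_fun (DFunLike.congr_fun this x) y

lemma br_self (x : h.L) : h.br x x = 0 := by
  refine h.induction x (by simp) (fun A a ha => ?_) fun x y h1 h2 => ?_
  · rw [h.br_cg ha ha, commutatorElement_self, cg_one]
  · simp only [map_add, AddMonoidHom.add_apply, h1, h2, h.br_skew x y]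
    abel

lemma cg_jacobi (ha : a ∈ S A) (hb : b ∈ S B) (hc : c ∈ S C) :
    h.cg (A + B + C) ⁅⁅a, b⁆, c⁆ + h.cg (A + B + C) ⁅⁅b, c⁆, a⁆ + h.cg (A + B + C) ⁅⁅c, a⁆, b⁆ = 0 := by
  have key : ∀ {A B C D : I} {a b c : Γ}, a ∈ S A → b ∈ S B → c ∈ S C → D = A + B + C →
      h.cg D ⁅⁅a, b⁆, c⁆ = h.cg D ⁅⁅a, b⁆, b * c * b⁻¹⁆ ∧ ⁅⁅a, b⁆, b * c * b⁻¹⁆ ∈ S D := by
    rintro A B C _ a b c ha hb hc rfl
    have m := h.comm_SS ha hb
    have hc' := (h.S_normal _).conj_mem _ hc b
    refine ⟨?_, h.comm_SS m hc'⟩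
    rw [← h.br_cg m hc, ← h.br_cg m hc']
    congr 1
    rw [h.cg_eq hc hc']
    convert h.comm_SS_T hb hc |> inv_mem using 1
    simp only [commutatorElement_def]; group
  obtain ⟨e1, m1⟩ := key ha hb hc rfl
  obtain ⟨e2, m2⟩ := key (D := A + B + C) hb hc ha (by abel)
  obtain ⟨e3, m3⟩ := key (D := A + B + C) hc ha hb (by abel)
  rw [e1, e2, e3, ← h.cg_mul m1 m2, ← h.cg_mul (mul_mem m1 m2) m3, ← h.cg_one (A := A + B + C)]
  congr 1
  simp only [commutatorElement_def]; group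

lemma br_jacobi (x y z : h.L) :
    h.br (h.br x y) z + h.br (h.br y z) x + h.br (h.br z x) y = 0 := by
  refine h.induction x (by simp) (fun A a ha => ?_) fun x x' h1 h2 => ?_
  · refine h.induction y (by simp) (fun B b hb => ?_) fun y y' h1 h2 => ?_
    · refine h.induction z (by simp) (fun C c hc => ?_) fun z z' h1 h2 => ?_
      · rw [h.br_cg ha hb, h.br_cg hb hc, h.br_cg hc ha, h.br_cg (h.comm_SS ha hb) hc,
          h.br_cg (h.comm_SS hb hc) ha, h.br_cg (h.comm_SS hc ha) hb,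
          show B + C + A = A + B + C by abel, show C + A + B = A + B + C by abel]
        exact h.cg_jacobi ha hb hc
      · simp only [map_add, AddMonoidHom.add_apply]
        linear_combination (norm := abel1) h1 + h2
    · simp only [map_add, AddMonoidHom.add_apply]
      linear_combination (norm := abel1) h1 + h2
  · simp only [map_add, AddMonoidHom.add_apply]
    linear_combination (norm := abel1) h1 + h2

noncomputable instance : LieRing h.L where
  bracket x y := h.br x y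
  add_lie x y z := by
    change h.br (x + y) z = h.br x z + h.br y z
    rw [map_add]; rfl
  lie_add x y z := map_add (h.br x) y z
  lie_self := h.br_self
  leibniz_lie x y z := by
    change h.br x (h.br y z) = h.br (h.br x y) z + h.br y (h.br x z)
    have := h.br_jacobi x y z
    rw [h.br_skew (h.br y z), h.br_skew (h.br z x), h.br_skew z x, map_neg, neg_neg] at this
    linear_combination (norm := abel1) -this

lemma lie_cg (ha : a ∈ S A) (hb : b ∈ S B) :
    ⁅h.cg A a, h.cg B b⁆ = h.cg (A + B) ⁅a, b⁆ := h.br_cg ha hb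

end PS

end Pool.Agent.Lib.MP_ffb54b_al.P2
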