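import Pool.Agent.Lib.MP_ffb54b_al.P2.S1b
import Pool.Agent.Lib.MP_ffb54b_al.P2.Pair
import Pool.Agent.Lib.MP_ffb54b_al.NT

set_option autoImplicit false
set_option linter.unusedSectionVars false

namespace Pool.Agent.Lib.MP_ffb54b_al.P2

open Module Subgroup
open scoped commutatorElement

universe u

variable {G : Type u} [Group G]

/-- The chains `a_i = [y, ..., y, x]` (`true`) and `b_i = [y, ..., y, u]` (`false`). -/
def vG (x y u : G) (p : Bool) : ℕ → G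
  | 0 => 1
  | 1 => if p then x else u
  | i + 2 => ⁅y, vG x y u p (i + 1)⁆

lemma vG_succ (x y u : G) (p : Bool) {i : ℕ} (hi : 1 ≤ i) :
    vG x y u p (i + 1) = ⁅y, vG x y u p i⁆ := by
  obtain ⟨i, rfl⟩ := Nat.exists_eq_add_of_le' hi
  rfl

lemma map_vG {H : Type*} [Group H] (f : G →* H) (x y u : G) (p : Bool) :
    ∀ i, f (vG x y u p i) = vG (f x) (f y) (f u) p i
  | 0 => map_one f
  | 1 => by cases p <;> rfl
  | i + 2 => by simp only [vG, map_commutatorElement, map_vG f x y u p (i + 1)]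

/-- A series behaving like the lower central series of a group generated by `x, y, u`, with the
orders of the factors of the Nottingham group. -/
structure LCS (K : ℕ → Subgroup G) (x y u : G) : Prop where
  normal : ∀ n, (K n).Normal
  ns : NS K
  top : K 1 = ⊤
  gen1 : ∀ T : Subgroup G, K 2 ≤ T → x ∈ T → y ∈ T → u ∈ T → T = ⊤
  sq : ∀ g ∈ K 2, g ^ 2 ∈ K 3
  gen : ∀ n, 1 ≤ n → ∀ T : Subgroup G, K (n + 2) ≤ T → (∀ g : G, ∀ k ∈ K n, ⁅g, k⁆ ∈ T) →
    K (n + 1) ≤ T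
  idx_even : ∀ m, 3 ≤ m → (K (2 * m + 1)).relIndex (K (2 * m)) = 4
  idx_odd : ∀ m, 3 ≤ m → (K (2 * m + 2)).relIndex (K (2 * m + 1)) = 16

/-- The relations in degrees at most six. -/
structure Base (K : ℕ → Subgroup G) (x y u : G) : Prop where
  h4 : ∀ p q, ⁅vG x y u p 1, vG x y u q 3⁆ * (if p then vG x y u q 4 else 1)⁻¹ ∈ K 5
  h5 : ∀ p q r, ⁅vG x y u r 1, ⁅vG x y u p 1, vG x y u q 4⁆⁆ ∈ K 7
  h5y : ∀ p q, ⁅y, ⁅vG x y u p 1, vG x y u q 4⁆⁆ ∈ K 7
  span : ∀ T : Subgroup G, K 7 ≤ T → vG x y u true 6 ∈ T → vG x y u false 6 ∈ T → K 6 ≤ T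
  mid : ⁅vG x y u true 3, vG x y u false 3⁆ ∈ K 7
  one : ∀ p q, ⁅vG x y u p 1, vG x y u q 5⁆ * (if p then vG x y u q 6 else 1)⁻¹ ∈ K 7
  two : ∀ p q, ⁅vG x y u p 2, vG x y u q 4⁆ * (if p then vG x y u q 6 else 1)⁻¹ ∈ K 7

/-- The structure of the factors in degrees at least six: `c n` is the class map of the `n`-th
factor, its first component is the `V`-class and its second component the `Z`-class. -/
structure S1G (K : ℕ → Subgroup G) (x y u : G) (c : ℕ → G → W2 × W2)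
    (σ : ℕ → W2 →ₗ[ZMod 2] W2 →ₗ[ZMod 2] W2) : Prop where
  cls : ∀ n, 6 ≤ n → IsCls K n (c n)
  v : ∀ n, 6 ≤ n → ∀ p, c n (vG x y u p n) = (ee p, 0)
  even : ∀ n, 6 ≤ n → Even n → ∀ g, (c n g).2 = 0
  surj : ∀ n, 6 ≤ n → ∀ w : W2 × W2, (Even n → w.2 = 0) → ∃ g ∈ K n, c n g = w
  symm : ∀ n v w, σ n v w = σ n w v
  σ_even : ∀ n, Even n → σ n = 0
  σ_span : ∀ n, 7 ≤ n → Odd n → ∀ z, ∃ c₁ c₂ c₃ : ZMod 2, z = c₁ • σ n (ee true) (ee true) +
    c₂ • σ n (ee true) (ee false) + c₃ • σ n (ee false) (ee false)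
  yy : ∀ n, 6 ≤ n → ∀ h ∈ K n, c (n + 1) ⁅y, h⁆ = ((c n h).1, 0)
  one : ∀ n, 6 ≤ n → ∀ r, ∀ h ∈ K n, c (n + 1) ⁅vG x y u r 1, h⁆ =
    ((lam r * n) • (c n h).1, σ (n + 1) (ee r) (c n h).1)
  two : ∀ n, 6 ≤ n → ∀ r, ∀ h ∈ K n, c (n + 2) ⁅vG x y u r 2, h⁆ =
    (lam r • (c n h).1, σ (n + 2) (ee r) (c n h).1)
  mid : ∀ i n, 3 ≤ i → 6 ≤ n → ∀ r, ∀ h ∈ K n, c (i + n) ⁅vG x y u r i, h⁆ =
    (0, σ (i + n) (ee r) (c n h).1)
  br : ∀ i j, 6 ≤ i → 6 ≤ j → ∀ g ∈ K i, ∀ h ∈ K j, c (i + j) ⁅g, h⁆ =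
    (0, σ (i + j) (c i g).1 (c j h).1)
  cen : ∀ i n, 1 ≤ i → 6 ≤ n → ∀ g ∈ K i, ∀ h ∈ K n, (c n h).1 = 0 → ⁅g, h⁆ ∈ K (i + n + 1)
  low1 : ∀ g : G, ∃ s t : ZMod 2, ∀ n, 6 ≤ n → ∀ h ∈ K n,
    (c (n + 1) ⁅g, h⁆).1 = (s * n + t) • (c n h).1
  low2 : ∀ g ∈ K 2, ∃ s : ZMod 2, ∀ n, 6 ≤ n → ∀ h ∈ K n, (c (n + 2) ⁅g, h⁆).1 = s • (c n h).1
  low3 : ∀ i n, 3 ≤ i → 6 ≤ n → ∀ g ∈ K i, ∀ h ∈ K n, (c (i + n) ⁅g, h⁆).1 = 0

namespace LCS

variable {K : ℕ → Subgroup G} {x y u : G} (H : LCS K x y u)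
include H

lemma mem_one (g : G) : g ∈ K 1 := H.top ▸ mem_top g

lemma vG_mem (p : Bool) : ∀ i, vG x y u p i ∈ K i
  | 0 => one_mem _
  | 1 => H.mem_one _
  | i + 2 => H.ns.comm' (H.mem_one y) (vG_mem p (i + 1)) (by omega)

lemma sq_mem {n : ℕ} (hn : 2 ≤ n) : ∀ {g : G}, g ∈ K n → g ^ 2 ∈ K (n + 1) := by
  have := H.normal
  induction n, hn using Nat.le_induction with
  | base => exact H.sq _
  | succ n hn ih =>
  intro g hg
  let T : Subgroup G :=
    { carrier := {g | g ∈ K (n + 1) ∧ g ^ 2 ∈ K (n + 2)}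
      one_mem' := by simp
      mul_mem' := fun {a b} ha hb => ⟨mul_mem ha.1 hb.1, by
        have e : (a * b) ^ 2 = a ^ 2 * (⁅a⁻¹, b⁆ * b ^ 2) := by
          simp only [commutatorElement_def, pow_two]; group
        exact e ▸ mul_mem ha.2 (mul_mem (H.ns.comm' (inv_mem ha.1) hb.1 (by omega)) hb.2)⟩
      inv_mem' := fun ha => ⟨inv_mem ha.1, by rw [inv_pow]; exact inv_mem ha.2⟩ }
  refine (H.gen n (by omega) T (fun a ha => ⟨H.ns.anti (by omega) ha, pow_mem ha 2⟩) (fun a k hk =>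
    ⟨H.ns.comm' (H.mem_one a) hk (by omega), pr_one.1 ?_⟩) hg).2
  rw [pow_two, map_mul, ← H.ns.mul_right (H.mem_one a) hk hk (by omega), pr_one, ← pow_two]
  exact H.ns.comm' (H.mem_one a) (ih hk) (by omega)

/-- Elements acting with degree at least two. -/
def Phi (H : LCS K x y u) : Subgroup G where
  carrier := {g | ∀ n, 1 ≤ n → ∀ k ∈ K n, ⁅g, k⁆ ∈ K (n + 2)}
  one_mem' := by simp
  mul_mem' {a b} ha hb n hn k hk := by
    have e : ⁅a * b, k⁆ = a * ⁅b, k⁆ * a⁻¹ * ⁅a, k⁆ := by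
      simp only [commutatorElement_def]; group
    exact e ▸ mul_mem ((H.normal _).conj_mem _ (hb n hn k hk) a) (ha n hn k hk)
  inv_mem' {a} ha n hn k hk := by
    have e : ⁅a⁻¹, k⁆ = a⁻¹ * ⁅a, k⁆⁻¹ * a⁻¹⁻¹ := by
      simp only [commutatorElement_def]; group
    exact e ▸ (H.normal _).conj_mem _ (inv_mem (ha n hn k hk)) _

lemma Phi_normal : H.Phi.Normal := ⟨fun a ha g n hn k hk => by
  have e : ⁅g * a * g⁻¹, k⁆ = g * ⁅a, g⁻¹ * k * g⁻¹⁻¹⁆ * g⁻¹ := by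
    simp only [commutatorElement_def]; group
  exact e ▸ (H.normal _).conj_mem _ (ha n hn _ ((H.normal _).conj_mem _ hk _)) _⟩

lemma le_Phi : K 2 ≤ H.Phi := fun _ ha _ _ _ hk => H.ns.comm' ha hk (by omega)

lemma sq_Phi (g : G) : g ^ 2 ∈ H.Phi := fun n hn k hk => by
  have := H.normal
  rw [← pr_one, pow_two, H.ns.mul_left (H.mem_one g) (H.mem_one g) hk (by omega), ← map_mul, pr_one,
    ← pow_two]
  exact H.sq_mem (by omega) (H.ns.comm' (H.mem_one g) hk (by omega))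

theorem exists_s1g (hB : Base K x y u) : ∃ c σ, S1G K x y u c σ := by
  classical
  have := H.normal
  let S (n : ℕ) : Subgroup G := if n = 0 then ⊥ else K n
  have mS : ∀ {n a}, 1 ≤ n → a ∈ K n → a ∈ S n := fun hn ha => by
    simpa only [S, if_neg (Nat.one_le_iff_ne_zero.1 hn)] using ha
  have mS' : ∀ {n a}, a ∈ S n → a = 1 ∨ 1 ≤ n ∧ a ∈ K n := fun {n a} ha => by
    simp only [S] at ha
    split_ifs at ha with h
    exacts [Or.inl ha, Or.inr ⟨by omega, ha⟩]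
  let T (n : ℕ) : Subgroup G := if n = 1 then H.Phi else K (n + 1)
  have : ∀ n, (T n).Normal := fun n => by
    simp only [T]; split_ifs; exacts [H.Phi_normal, inferInstance]
  have mT : ∀ {n a}, a ∈ K (n + 1) → a ∈ T n := fun {n a} ha => by
    simp only [T]; split_ifs with h; exacts [H.le_Phi (by rwa [h] at ha), ha]
  have mT' : ∀ {n a}, 2 ≤ n → (a ∈ T n ↔ a ∈ K (n + 1)) := fun {n a} hn => by
    simp only [T, if_neg (show n ≠ 1 by omega)]
  have P : PS S T := by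
    refine ⟨fun n => ?_, fun ha hb => ?_, fun ha hb => ?_, fun {A B _ _} ha ha' hb => ?_⟩
    · simp only [S]; split_ifs <;> infer_instance
    all_goals
      rcases mS' ha with rfl | ⟨h1, ha⟩
      · simp
      rcases mS' hb with rfl | ⟨h2, hb⟩
      · simp
    · exact mS (by omega) (H.ns.comm ha hb)
    · exact mT (H.ns.comm' ha hb (by omega))
    · rcases h1.eq_or_lt with rfl | h3
      · exact mT (H.ns.anti (by omega) (ha' B h2 _ hb))
      · exact mT (H.ns.comm' ((mT' h3).1 ha') hb (by omega))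
  have add : ∀ {n a b}, 1 ≤ n → a ∈ K n → b ∈ K n → P.cg n (a * b) = P.cg n a + P.cg n b :=
    fun hn ha hb => P.cg_mul (mS hn ha) (mS hn hb)
  have zero : ∀ {n a}, 2 ≤ n → a ∈ K n → (P.cg n a = 0 ↔ a ∈ K (n + 1)) :=
    fun hn ha => (P.cg_eq_zero (mS (by omega) ha)).trans (mT' hn)
  have lie : ∀ {i j a b}, 1 ≤ i → 1 ≤ j → a ∈ K i → b ∈ K j →
      ⁅P.cg i a, P.cg j b⁆ = P.cg (i + j) ⁅a, b⁆ := fun hi hj ha hb => P.lie_cg (mS hi ha) (mS hj hb)
  have two : ∀ z : P.L, 2 • z = 0 := fun z => by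
    refine P.induction z (by simp) (fun n a ha => ?_) fun a b h1 h2 => by rw [smul_add, h1, h2, add_zero]
    rcases mS' ha with rfl | ⟨h1, ha⟩
    · rw [P.cg_one, smul_zero]
    · rw [two_nsmul, ← add h1 ha ha, P.cg_eq_zero (mS h1 (mul_mem ha ha)), ← pow_two]
      rcases h1.eq_or_lt with rfl | h3
      exacts [H.sq_Phi a, mT (H.sq_mem h3 ha)]
  let _ : Module (ZMod 2) P.L := AddCommGroup.zmodModule two
  let _ : LieAlgebra (ZMod 2) P.L :=
    { lie_smul := fun t a b => ZMod.map_smul (P.br a) t b }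
  let W (n : ℕ) : Submodule (ZMod 2) P.L := AddSubgroup.toZModSubmodule 2
    { carrier := P.cg n '' S n
      zero_mem' := ⟨1, one_mem _, P.cg_one⟩
      add_mem' := by
        rintro _ _ ⟨a, ha, rfl⟩ ⟨b, hb, rfl⟩
        exact ⟨a * b, mul_mem ha hb, P.cg_mul ha hb⟩
      neg_mem' := by
        rintro _ ⟨a, ha, rfl⟩
        exact ⟨a⁻¹, inv_mem ha, P.cg_inv ha⟩ }
  have mW : ∀ {n a}, 1 ≤ n → a ∈ K n → P.cg n a ∈ W n := fun hn ha => ⟨_, mS hn ha, rfl⟩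
  have mW' : ∀ {n z}, 1 ≤ n → z ∈ W n → ∃ a ∈ K n, P.cg n a = z := fun {n z} hn ⟨a, ha, e⟩ =>
    ⟨a, by simpa only [S, if_neg (Nat.one_le_iff_ne_zero.1 hn), SetLike.mem_coe] using ha, e⟩
  have pre : ∀ n, 1 ≤ n → ∀ M : Submodule (ZMod 2) P.L, ∃ T : Subgroup G, K (n + 1) ≤ T ∧
      ∀ a, a ∈ T ↔ a ∈ K n ∧ P.cg n a ∈ M := fun n hn M => ⟨
    { carrier := {a | a ∈ K n ∧ P.cg n a ∈ M}
      one_mem' := ⟨one_mem _, by rw [P.cg_one]; exact zero_mem _⟩
      mul_mem' := fun ha hb => ⟨mul_mem ha.1 hb.1, add hn ha.1 hb.1 ▸ add_mem ha.2 hb.2⟩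
      inv_mem' := fun ha => ⟨inv_mem ha.1, P.cg_inv (mS hn ha.1) ▸ neg_mem ha.2⟩ },
    fun a ha => ⟨H.ns.anti n.le_succ ha, by
      rw [(P.cg_eq_zero (mS hn (H.ns.anti n.le_succ ha))).2 (mT ha)]; exact zero_mem _⟩, fun _ => Iff.rfl⟩
  have h1 : ∀ z ∈ W 1, ∃ s t r : ZMod 2, z = s • P.cg 1 x + t • P.cg 1 y + r • P.cg 1 u := by
    intro z hz
    obtain ⟨a, -, rfl⟩ := mW' le_rfl hz
    obtain ⟨T, h1, h2⟩ := pre 1 le_rfl (Submodule.span (ZMod 2) {P.cg 1 x, P.cg 1 y, P.cg 1 u})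
    have := H.gen1 T h1 ((h2 _).2 ⟨H.mem_one _, Submodule.subset_span (by simp)⟩)
      ((h2 _).2 ⟨H.mem_one _, Submodule.subset_span (by simp)⟩)
      ((h2 _).2 ⟨H.mem_one _, Submodule.subset_span (by simp)⟩)
    obtain ⟨s, t, r, e⟩ := Submodule.mem_span_triple.1 ((h2 a).1 (this ▸ mem_top a)).2
    exact ⟨s, t, r, e.symm⟩
  have fin : ∀ n d, 2 ≤ n → (K (n + 1)).relIndex (K n) = 2 ^ d → finrank (ZMod 2) (W n) = d := by
    intro n d hn' h
    have hn : 1 ≤ n := by omega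
    have hc : IsCls K n (P.cg n) := ⟨add hn, zero hn'⟩
    have e : Nat.card (W n) = 2 ^ d := by
      rw [← h, hc.relIndex]
      refine Nat.card_congr (Equiv.subtypeEquivRight fun z => ?_)
      exact ⟨mW' hn, fun ⟨a, ha, e⟩ => e ▸ mW hn ha⟩
    have : Finite (W n) := Nat.finite_of_card_ne_zero (by rw [e]; positivity)
    rw [Module.natCard_eq_pow_finrank (K := ZMod 2), Nat.card_zmod] at e
    exact Nat.pow_right_injective le_rfl e
  let D : GrD P.L :=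
    { W := W, x := P.cg 1 x, y := P.cg 1 y, u := P.cg 1 u
      hx := mW le_rfl (H.mem_one _), hy := mW le_rfl (H.mem_one _), hu := mW le_rfl (H.mem_one _)
      lie_mem := fun hi hj ha hb => by
        obtain ⟨a, ha', rfl⟩ := mW' hi ha
        obtain ⟨b, hb', rfl⟩ := mW' hj hb
        exact lie hi hj ha' hb' ▸ mW (by omega) (H.ns.comm ha' hb')
      gen := fun n hn z hz => by
        obtain ⟨a, ha, rfl⟩ := mW' (by omega) hz
        let A (w : P.L) := (W n).map (LieAlgebra.ad (ZMod 2) P.L w)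
        obtain ⟨T, h2, h3⟩ := pre (n + 1) (by omega) (A (P.cg 1 x) ⊔ A (P.cg 1 y) ⊔ A (P.cg 1 u))
        have := ((h3 a).1 (H.gen n hn T h2 (fun g k hk => (h3 _).2
          ⟨H.ns.comm' (H.mem_one g) hk (by omega), ?_⟩) ha)).2
        · obtain ⟨_, h4, _, ⟨k₃, m₃, rfl⟩, e⟩ := Submodule.mem_sup.1 this
          obtain ⟨_, ⟨k₁, m₁, rfl⟩, _, ⟨k₂, m₂, rfl⟩, rfl⟩ := Submodule.mem_sup.1 h4
          exact ⟨k₁, m₁, k₂, m₂, k₃, m₃, e.symm⟩
        · obtain ⟨s, t, r, e⟩ := h1 _ (mW le_rfl (H.mem_one g))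
          rw [add_comm n 1, ← lie le_rfl hn (H.mem_one g) hk, e]
          simp only [add_lie, smul_lie]
          exact Submodule.add_mem_sup (Submodule.add_mem_sup
            (Submodule.smul_mem _ _ ⟨_, mW hn hk, rfl⟩) (Submodule.smul_mem _ _ ⟨_, mW hn hk, rfl⟩))
            (Submodule.smul_mem _ _ ⟨_, mW hn hk, rfl⟩)
      fin_even := fun m hm => fin _ 2 (by omega) (H.idx_even m hm)
      fin_odd := fun m hm => fin _ 4 (by omega) (H.idx_odd m hm) }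
  have hv : ∀ p i, D.v p i = P.cg i (vG x y u p i) := fun p i => by
    induction i with
    | zero => exact P.cg_one.symm
    | succ i ih =>
      rcases i with _ | i
      · cases p <;> rfl
      · rw [D.v_succ (by omega), ih]
        exact (lie le_rfl (by omega) (H.mem_one y) (H.vG_mem p (i + 1))).trans
          (by rw [add_comm 1 (i + 1)]; rfl)
  have hB' : ∀ {i j}, 1 ≤ i → 1 ≤ j → ∀ p q, D.B i j p q = P.cg (i + j) ⁅vG x y u p i, vG x y u q j⁆ :=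
    fun hi hj p q => by rw [GrD.B, hv, hv, lie hi hj (H.vG_mem _ _) (H.vG_mem _ _)]
  have rel : ∀ {i j n p q}, 1 ≤ i → 1 ≤ j → i + j = n → ⁅vG x y u p i, vG x y u q j⁆ *
      (if p then vG x y u q n else 1)⁻¹ ∈ K (n + 1) → D.B i j p q = lam p • D.v q n := by
    rintro i j _ p q hi hj rfl h
    rw [hB' hi hj, hv]
    have m := H.ns.comm (H.vG_mem p i) (H.vG_mem q j)
    cases p
    · rw [lam_false, zero_smul, zero (by omega) m]
      simpa using h
    · rw [lam_true, one_smul]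
      exact (P.cg_eq (mS (by omega) m) (mS (by omega) (H.vG_mem _ _))).2 (mT h)
  have h5 : ∀ p q, D.Cen (D.B 1 4 p q) := fun p q => by
    have : ∀ g : G, ⁅g, ⁅vG x y u p 1, vG x y u q 4⁆⁆ ∈ K 7 → ⁅P.cg 1 g, D.B 1 4 p q⁆ = 0 := fun g h => by
      have m := H.ns.comm (H.vG_mem p 1) (H.vG_mem q 4)
      rw [hB' le_rfl (by omega), lie le_rfl (by omega) (H.mem_one g) m,
        zero (by omega) (H.ns.comm (H.mem_one g) m)]
      exact h
    exact ⟨this x (hB.h5 p q true), this y (hB.h5y p q), this u (hB.h5 p q false)⟩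
  have h6 : D.PE 6 := by
    refine ⟨fun z hz => ?_, fun i j p q hi hj e => ?_, fun j p q e => ?_, fun j p q e => ?_,
      fun j p q e => ?_⟩
    · obtain ⟨a, ha, rfl⟩ := mW' (by omega) hz
      obtain ⟨T, h1, h2⟩ := pre 6 (by omega) (Submodule.span (ZMod 2) {D.v true 6, D.v false 6})
      obtain ⟨s, t, e⟩ := Submodule.mem_span_pair.1 ((h2 a).1 (hB.span T h1
        ((h2 _).2 ⟨H.vG_mem _ _, Submodule.subset_span (by simp [hv])⟩)
        ((h2 _).2 ⟨H.vG_mem _ _, Submodule.subset_span (by simp [hv])⟩) ha)).2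
      exact ⟨s, t, e.symm⟩
    · obtain ⟨rfl, rfl⟩ : i = 3 ∧ j = 3 := by omega
      have : D.B 3 3 true false = 0 := by
        rw [hB' (by omega) (by omega), zero (by omega) (H.ns.comm (H.vG_mem _ _) (H.vG_mem _ _))]
        exact hB.mid
      cases p <;> cases q
      exacts [lie_self _, D.B_symm _ _ _ _ ▸ this, this, lie_self _]
    · obtain rfl : j = 5 := by omega
      exact rel le_rfl (by omega) rfl (hB.one p q)
    · obtain rfl : j = 4 := by omega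
      exact rel (by omega) (by omega) rfl (hB.two p q)
    · obtain rfl : j = 4 := by omega
      exact h5 p q
  obtain ⟨π, σ, O⟩ := GrD.exists_out (D := D)
    (fun m hm => GrD.pe (fun p q => rel le_rfl (by omega) rfl (hB.h4 p q)) h5 h6 hm) h1
  have l : ∀ {i n g h}, 1 ≤ i → 6 ≤ n → g ∈ K i → h ∈ K n →
      P.cg (n + i) ⁅g, h⁆ = ⁅P.cg i g, P.cg n h⁆ := fun hi hn hg hh => by
    rw [lie hi (by omega) hg hh, add_comm]
  refine ⟨fun n g => π n (P.cg n g), σ, fun n hn => ⟨fun ha hb => ?_, fun ha => ?_⟩,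
    fun n hn p => ?_, fun n hn he g => (O.co n hn).even he _, fun n hn w hw => ?_, O.symm, O.σ_even,
    O.σ_span, fun n hn h hh => ?_, fun n hn r h hh => ?_, fun n hn r h hh => ?_,
    fun i n hi hn r h hh => ?_, fun i j hi hj g hg h hh => ?_, fun i n hi hn g hg h hh e => ?_,
    fun g => ?_, fun g hg => ?_, fun i n hi hn g hg h hh => ?_⟩
  · rw [add (by omega) ha hb, map_add]
  · rw [← zero (by omega) ha]
    exact ⟨(O.co n hn).inj _ (mW (by omega) ha), fun e => by rw [e, map_zero]⟩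
  · rw [← hv, (O.co n hn).v]
  · rcases n.even_or_odd with he | ho
    · obtain ⟨a, ha, e⟩ := mW' (by omega) (add_mem (Submodule.smul_mem _ (w.1 true) (D.v_mem true n))
        (Submodule.smul_mem _ (w.1 false) (D.v_mem false n)))
      refine ⟨a, ha, ?_⟩
      rw [e, map_add, map_smul, map_smul, (O.co n hn).v, (O.co n hn).v]
      exact Prod.ext (W2.eq_sum _).symm (by simp [hw he])
    · obtain ⟨z, hz, e⟩ := (O.co n hn).odd ho w
      obtain ⟨a, ha, rfl⟩ := mW' (by omega) hz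
      exact ⟨a, ha, e⟩
  · rw [l le_rfl hn (H.mem_one _) hh]
    exact O.y n hn _ (mW (by omega) hh)
  · rw [l le_rfl hn (H.mem_one _) hh, ← hv]
    exact O.one n hn r _ (mW (by omega) hh)
  · rw [l (by omega) hn (H.vG_mem _ _) hh, ← hv]
    exact O.two n hn r _ (mW (by omega) hh)
  · rw [← lie (by omega) (by omega) (H.vG_mem _ _) hh, ← hv]
    exact O.mid i n hi hn r _ (mW (by omega) hh)
  · rw [← lie (by omega) (by omega) hg hh]
    exact O.br i j hi hj _ (mW (by omega) hg) _ (mW (by omega) hh)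
  · rw [← zero (by omega) (H.ns.comm hg hh), ← lie hi (by omega) hg hh]
    exact O.cen i n hi hn _ (mW hi hg) _ (mW (by omega) hh) e
  · obtain ⟨s, t, h⟩ := O.low1 _ (mW le_rfl (H.mem_one g))
    exact ⟨s, t, fun n hn k hk => by
      rw [l le_rfl hn (H.mem_one _) hk]; exact h n hn _ (mW (by omega) hk)⟩
  · obtain ⟨s, h⟩ := O.low2 _ (mW (by omega) hg)
    exact ⟨s, fun n hn k hk => by
      rw [l (by omega) hn hg hk]; exact h n hn _ (mW (by omega) hk)⟩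
  · rw [← lie (by omega) (by omega) hg hh]
    exact O.low3 i n hi hn _ (mW (by omega) hg) _ (mW (by omega) hh)

end LCS

end Pool.Agent.Lib.MP_ffb54b_al.P2
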