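import Pool.Agent.Lib.MP_ffb54b_al.P2.JComp
import Pool.Agent.Lib.MP_ffb54b_al.P2.S1G

set_option autoImplicit false
set_option linter.unusedSectionVars false

namespace Pool.Agent.Lib.MP_ffb54b_al.P2

open PowerSeries Subgroup
open scoped commutatorElement

/-- The element `t + t ^ 2`. -/
noncomputable def x0 : J2 := mkJ X 1 dvd_rfl (by simp)

/-- The element `t + t ^ (2 m + 1)` (the identity if `m = 0`). -/
noncomputable def h0 (m : ℕ) : J2 := mkJ 0 (if m = 0 then 1 else 1 + X ^ m) (by simp)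
  (by split_ifs with h <;> simp [h])

/-- First generator. -/
noncomputable def xJ : J2 := x0⁻¹

/-- The inverse of `t + t ^ (2 m + 1)`. -/
noncomputable def hJ (m : ℕ) : J2 := (h0 m)⁻¹

/-- Second generator. -/
noncomputable abbrev yJ : J2 := hJ 1

/-- Third generator. -/
noncomputable abbrev uJ : J2 := hJ 3

/-- The chains in the Nottingham group. -/
noncomputable abbrev vJ (p : Bool) (i : ℕ) : J2 := vG xJ yJ uJ p i

lemma dl_x0 : dl x0 = X := dl_mkJ _ _ _ _

lemma kk_x0 : kk x0 = 1 := kk_mkJ _ _ _ _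

lemma dl_h0 (m : ℕ) : dl (h0 m) = 0 := dl_mkJ _ _ _ _

lemma kk_h0 {m : ℕ} (hm : 1 ≤ m) : kk (h0 m) = 1 + X ^ m :=
  (kk_mkJ _ _ _ _).trans (if_neg (by omega))

lemma x0_ser : x0.ser = X + X ^ 2 := by rw [ser_eq, dl_x0, kk_x0]; ring

lemma h0_ser {m : ℕ} (hm : 1 ≤ m) : (h0 m).ser = X + X ^ (2 * m + 1) := by
  rw [ser_eq, dl_h0, kk_h0 hm]
  linear_combination X ^ (m + 1) * two_R2

lemma toS_gen (n : ℕ) {a : ℕ} (h : a = 2 ^^^ 2 ^ n) : X + X ^ n = toS a := by
  rw [h, toS_xor, toS_two, toS_pow]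

lemma rx : Rp 32 xJ (65814, 6) :=
  (Rp.of_ser (f := x0) (p := 6) (q := 65814) (x0_ser.trans (toS_gen 2 (by decide +kernel)))
    (by decide +kernel) (by decide +kernel) (by decide +kernel)).inv

lemma ry : Rp 32 yJ (2755114, 10) :=
  (Rp.of_ser (f := h0 1) (p := 10) (q := 2755114)
    ((h0_ser (m := 1) le_rfl).trans (toS_gen 3 (by decide +kernel)))
    (by decide +kernel) (by decide +kernel) (by decide +kernel)).inv

lemma ru : Rp 32 uJ (33562754, 130) :=
  (Rp.of_ser (f := h0 3) (p := 130) (q := 33562754)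
    ((h0_ser (m := 3) (by omega)).trans (toS_gen 7 (by decide +kernel)))
    (by decide +kernel) (by decide +kernel) (by decide +kernel)).inv

lemma rt1 : Rp 32 (vJ true 1) (65814, 6) := rx

lemma rf1 : Rp 32 (vJ false 1) (33562754, 130) := ru

lemma rt2 : Rp 32 (vJ true 2) (4080610546, 4148371442) :=
  ry.comm rt1 (by decide +kernel)

lemma rf2 : Rp 32 (vJ false 2) (144705538, 142608386) :=
  ry.comm rf1 (by decide +kernel)

lemma rt3 : Rp 32 (vJ true 3) (3358535234, 3693964866) :=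
  ry.comm rt2 (by decide +kernel)

lemma rf3 : Rp 32 (vJ false 3) (2290122754, 2826993666) :=
  ry.comm rf2 (by decide +kernel)

lemma rt4 : Rp 32 (vJ true 4) (3131928834, 3921506562) :=
  ry.comm rt3 (by decide +kernel)

lemma rf4 : Rp 32 (vJ false 4) (8912898, 8912898) :=
  ry.comm rf3 (by decide +kernel)

lemma rt5 : Rp 32 (vJ true 5) (301929474, 100602882) :=
  ry.comm rt4 (by decide +kernel)

lemma rf5 : Rp 32 (vJ false 5) (2290089986, 2290089986) :=
  ry.comm rf4 (by decide +kernel)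

lemma rt6 : Rp 32 (vJ true 6) (3810611202, 3810611202) :=
  ry.comm rt5 (by decide +kernel)

lemma rf6 : Rp 32 (vJ false 6) (134217730, 134217730) :=
  ry.comm rf5 (by decide +kernel)

lemma rxu : Rp 32 ⁅xJ, uJ⁆ (3212443394, 3444244226) := rx.comm ru (by decide +kernel)

lemma rxa : Rp 32 ⁅xJ, vJ true 2⁆ (3857619010, 3003029570) := rx.comm rt2 (by decide +kernel)

lemma rxb : Rp 32 ⁅xJ, vJ false 2⁆ (3170398210, 4227362818) := rx.comm rf2 (by decide +kernel)

lemma rc3 : Rp 32 (vJ true 3 * ⁅xJ, vJ true 2⁆ * vJ false 3) (2848814594, 3386603010) :=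
  (rt3.mul rxa (c := (2311976450, 2631661058)) (by decide +kernel)).mul rf3 (by decide +kernel)

lemma rstt : Rp 32 ⁅vJ true 1, vJ true 4⁆ (990003202, 2063745026) :=
  rt1.comm rt4 (by decide +kernel)

lemma rstf : Rp 32 ⁅vJ true 1, vJ false 4⁆ (2138046466, 2138046466) :=
  rt1.comm rf4 (by decide +kernel)

lemma rsft : Rp 32 ⁅vJ false 1, vJ true 4⁆ (1818509314, 1818509314) :=
  rf1.comm rt4 (by decide +kernel)

lemma rsff : Rp 32 ⁅vJ false 1, vJ false 4⁆ (2147483650, 2147483650) :=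
  rf1.comm rf4 (by decide +kernel)

lemma Rp.comm_mem {N w : ℕ} {f g : J2} {a b : ℕ × ℕ} (ha : Rp N f a) (hb : Rp N g b)
    (hN : 4 * w + 4 ≤ N) (h : tst w (pc N a b).1) : ⁅f, g⁆ ∈ Gm (w + 1) := (ha.comm hb rfl).mem hN h

lemma Rp.rel_mem {N w : ℕ} {f g k : J2} {a b c : ℕ × ℕ} (ha : Rp N f a) (hb : Rp N g b)
    (hc : Rp N k c) (hN : 4 * w + 4 ≤ N) (h : force (pc N a b).1 fun d => tst w (cmp N N d c.2)) :
    ⁅f, g⁆ * k⁻¹ ∈ Gm (w + 1) :=
  ((ha.comm hb rfl).mul hc.inv rfl).mem hN (by rwa [force_eq] at h)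

instance (n : ℕ) (k : ℕ → Prop) [DecidablePred k] : Decidable (force n k) :=
  match n with
  | 0 => inferInstanceAs (Decidable (k 0))
  | m + 1 => inferInstanceAs (Decidable (k (m + 1)))

lemma base_h4 : ∀ p q, ⁅vJ p 1, vJ q 3⁆ * (if p then vJ q 4 else 1)⁻¹ ∈ Gm 5
  | true, true => rt1.rel_mem rt3 rt4 (by omega) (by decide +kernel)
  | true, false => rt1.rel_mem rf3 rf4 (by omega) (by decide +kernel)
  | false, true => rf1.rel_mem rt3 Rp.one (by omega) (by decide +kernel)
  | false, false => rf1.rel_mem rf3 Rp.one (by omega) (by decide +kernel)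

lemma base_one : ∀ p q, ⁅vJ p 1, vJ q 5⁆ * (if p then vJ q 6 else 1)⁻¹ ∈ Gm 7
  | true, true => rt1.rel_mem rt5 rt6 (by omega) (by decide +kernel)
  | true, false => rt1.rel_mem rf5 rf6 (by omega) (by decide +kernel)
  | false, true => rf1.rel_mem rt5 Rp.one (by omega) (by decide +kernel)
  | false, false => rf1.rel_mem rf5 Rp.one (by omega) (by decide +kernel)

lemma base_two : ∀ p q, ⁅vJ p 2, vJ q 4⁆ * (if p then vJ q 6 else 1)⁻¹ ∈ Gm 7
  | true, true => rt2.rel_mem rt4 rt6 (by omega) (by decide +kernel)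
  | true, false => rt2.rel_mem rf4 rf6 (by omega) (by decide +kernel)
  | false, true => rf2.rel_mem rt4 Rp.one (by omega) (by decide +kernel)
  | false, false => rf2.rel_mem rf4 Rp.one (by omega) (by decide +kernel)

lemma base_h5 : ∀ p q r, ⁅vJ r 1, ⁅vJ p 1, vJ q 4⁆⁆ ∈ Gm 7
  | true, true, true => rt1.comm_mem rstt (by omega) (by decide +kernel)
  | true, true, false => rf1.comm_mem rstt (by omega) (by decide +kernel)
  | true, false, true => rt1.comm_mem rstf (by omega) (by decide +kernel)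
  | true, false, false => rf1.comm_mem rstf (by omega) (by decide +kernel)
  | false, true, true => rt1.comm_mem rsft (by omega) (by decide +kernel)
  | false, true, false => rf1.comm_mem rsft (by omega) (by decide +kernel)
  | false, false, true => rt1.comm_mem rsff (by omega) (by decide +kernel)
  | false, false, false => rf1.comm_mem rsff (by omega) (by decide +kernel)

lemma base_h5y : ∀ p q, ⁅yJ, ⁅vJ p 1, vJ q 4⁆⁆ ∈ Gm 7
  | true, true => ry.comm_mem rstt (by omega) (by decide +kernel)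
  | true, false => ry.comm_mem rstf (by omega) (by decide +kernel)
  | false, true => ry.comm_mem rsft (by omega) (by decide +kernel)
  | false, false => ry.comm_mem rsff (by omega) (by decide +kernel)

lemma base_mid : ⁅vJ true 3, vJ false 3⁆ ∈ Gm 7 := rt3.comm_mem rf3 (by omega) (by decide +kernel)

end Pool.Agent.Lib.MP_ffb54b_al.P2
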