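import Pool.Agent.Lib.MP_ffb54b_al.P2.JGam

set_option autoImplicit false
set_option linter.unusedSectionVars false

namespace Pool.Agent.Lib.MP_ffb54b_al.P2

open PowerSeries Subgroup
open scoped commutatorElement

/-- The bit of index `i`. -/
def bt (a i : ℕ) : ZMod 2 := if a.testBit i then 1 else 0

/-- The polynomial whose coefficients are the binary digits. -/
noncomputable def toS (a : ℕ) : R2 := mk (bt a)

lemma coeff_toS (a i : ℕ) : coeff i (toS a) = bt a i := coeff_mk _ _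

lemma toS_xor (a b : ℕ) : toS (a ^^^ b) = toS a + toS b := by
  ext i
  simp only [map_add, coeff_toS, bt, Nat.testBit_xor]
  cases a.testBit i <;> cases b.testBit i <;> rfl

lemma toS_two_mul (a : ℕ) : toS (2 * a) = X * toS a := by
  ext (_ | i)
  · simp [toS, bt]
  · simp only [coeff_succ_X_mul, coeff_toS, bt, Nat.testBit_succ, Nat.mul_div_cancel_left a two_pos]

lemma toS_zero : toS 0 = 0 := by ext i; simp [coeff_toS, bt]

lemma toS_one : toS 1 = 1 := by
  ext (_ | i) <;> simp [toS, bt, coeff_one, Nat.testBit_succ]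

lemma toS_eq (a : ℕ) : toS a = toS (a % 2) + X * toS (a / 2) := by
  ext (_ | i)
  · simp [toS, bt]
  · simp only [map_add, coeff_succ_X_mul, coeff_toS, bt, Nat.testBit_succ]
    simp [show a % 2 / 2 = 0 by omega]

lemma toS_mod (N a : ℕ) : X ^ N ∣ toS (a % 2 ^ N) + toS a := X_pow_dvd_iff.2 fun i hi => by
  simp [coeff_toS, bt, Nat.testBit_mod_two_pow, hi, CharTwo.add_self_eq_zero]

lemma toS_pow (n : ℕ) : toS (2 ^ n) = X ^ n := by
  induction n with
  | zero => simpa using toS_one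
  | succ n ih => rw [pow_succ', toS_two_mul, ih, pow_succ']

lemma toS_two : toS 2 = X := by simpa using toS_pow 1

/-- Evaluation of an argument before a call. -/
def force {α : Type} (n : ℕ) (k : ℕ → α) : α :=
  match n with
  | 0 => k 0
  | m + 1 => k (m + 1)

lemma force_eq {α : Type} (n : ℕ) (k : ℕ → α) : force n k = k n := by cases n <;> rfl

/-- Truncated product. -/
def clm : ℕ → ℕ → ℕ → ℕ
  | 0, _, _ => 0
  | k + 1, a, b => force (a / 2) fun c => (a % 2 * b) ^^^ 2 * clm k c b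

/-- Truncated composition. -/
def cmp (N : ℕ) : ℕ → ℕ → ℕ → ℕ
  | 0, _, _ => 0
  | k + 1, a, b => force (a / 2) fun c => force (cmp N k c b) fun d =>
      (a % 2 ^^^ clm N d b) % 2 ^ N

lemma toS_bit_mul (a b : ℕ) : toS (a % 2 * b) = toS (a % 2) * toS b := by
  rcases Nat.mod_two_eq_zero_or_one a with h | h <;> simp [h, toS_zero, toS_one]

lemma clm_spec (k a b : ℕ) : X ^ k ∣ toS (clm k a b) + toS a * toS b := by
  induction k generalizing a with
  | zero => simp
  | succ k ih =>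
    rw [clm, force_eq, toS_xor, toS_two_mul, toS_bit_mul, toS_eq a, pow_succ']
    convert mul_dvd_mul_left X (ih (a / 2)) using 1
    linear_combination toS (a % 2) * toS b * two_R2

lemma cmp_spec {N b : ℕ} {g : J2} (hg : X ^ N ∣ g.ser + toS b) (k : ℕ) (hk : k ≤ N) (a : ℕ) :
    X ^ k ∣ toS (cmp N k a b) + sb g (toS a) := by
  induction k generalizing a with
  | zero => simp
  | succ k ih =>
    have h0 : sb g (toS (a % 2)) = toS (a % 2) := by
      rcases Nat.mod_two_eq_zero_or_one a with h | h <;> simp [h, toS_zero, toS_one]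
    rw [cmp, force_eq, force_eq, toS_eq a, map_add, map_mul, sb_X, h0]
    set d := cmp N k (a / 2) b
    have h1 := dvd_mono (toS_mod N (a % 2 ^^^ clm N d b)) hk
    have h2 := dvd_mono (clm_spec N d b) hk
    have h3 := (dvd_mono hg hk).mul_left (toS d)
    have h4 := dvd_mul2 (m := 1) (φ := g.ser) (by simpa [X_dvd_iff] using g.coeff_zero)
      (ih (by omega) (a / 2)) (l := k + 1) (by omega)
    rw [toS_xor] at h1
    convert dvd_add (dvd_add h1 h2) (dvd_add h3 h4) using 1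
    linear_combination -(toS (clm N d b) + toS d * toS b + toS d * g.ser) * two_R2

/-- The number `a` represents `f` modulo `X ^ N`. -/
def Rep (N : ℕ) (f : J2) (a : ℕ) : Prop := X ^ N ∣ f.ser + toS a

variable {N : ℕ} {f g : J2}

lemma Rep.mul {a b : ℕ} (ha : Rep N f a) (hb : Rep N g b) : Rep N (f * g) (cmp N N a b) := by
  have h1 := cmp_spec hb N le_rfl a
  have h2 := sb_dvd g ha
  rw [map_add, sb_ser] at h2
  rw [Rep]
  convert dvd_add h1 h2 using 1
  linear_combination -(sb g (toS a)) * two_R2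

lemma Rep.coeff {a i : ℕ} (ha : Rep N f a) (hi : i < N) : coeff i f.ser = bt a i :=
  (coeff_eq_of_dvd ha hi).trans (coeff_toS a i)

/-- The pair `a` represents `f` and its inverse. -/
def Rp (N : ℕ) (f : J2) (a : ℕ × ℕ) : Prop := Rep N f a.1 ∧ Rep N f⁻¹ a.2

/-- Product of pairs. -/
def pm (N : ℕ) (a b : ℕ × ℕ) : ℕ × ℕ := (cmp N N a.1 b.1, cmp N N b.2 a.2)

/-- Commutator of pairs. -/
def pc (N : ℕ) (a b : ℕ × ℕ) : ℕ × ℕ :=
  force (cmp N N a.1 b.1) fun p => force (cmp N N a.2 b.2) fun q =>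
    force (cmp N N b.1 a.1) fun r => force (cmp N N b.2 a.2) fun s => (cmp N N p q, cmp N N r s)

variable {a b c : ℕ × ℕ}

lemma Rp.mul (ha : Rp N f a) (hb : Rp N g b) (e : pm N a b = c) : Rp N (f * g) c :=
  e ▸ ⟨ha.1.mul hb.1, mul_inv_rev f g ▸ hb.2.mul ha.2⟩

lemma Rp.inv (ha : Rp N f a) : Rp N f⁻¹ (a.2, a.1) := ⟨ha.2, (inv_inv f).symm ▸ ha.1⟩

lemma Rp.comm (ha : Rp N f a) (hb : Rp N g b) (e : pc N a b = c) : Rp N ⁅f, g⁆ c := by
  simp only [pc, force_eq] at e
  have h1 := (ha.1.mul hb.1).mul (ha.2.mul hb.2)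
  have h2 := (hb.1.mul ha.1).mul (hb.2.mul ha.2)
  rw [← mul_assoc] at h1 h2
  exact e ▸ ⟨h1, commutatorElement_inv f g ▸ h2⟩

lemma Rp.one : Rp N 1 (2, 2) := by
  have : Rep N 1 2 := by
    rw [Rep, Nott.one_ser, toS_two, CharTwo.add_self_eq_zero]
    exact dvd_zero _
  exact ⟨this, by rwa [inv_one]⟩

lemma Rp.of_ser {p q : ℕ} (hf : f.ser = toS p) (h0 : bt q 0 = 0) (h1 : bt q 1 = 1)
    (e : cmp N N p q = 2) : Rp N f (p, q) := by
  let g : J2 := ⟨toS q, by rw [← coeff_zero_eq_constantCoeff_apply, coeff_toS, h0],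
    by rw [coeff_toS, h1]⟩
  have a1 : Rep N f p := by rw [Rep, hf, CharTwo.add_self_eq_zero]; exact dvd_zero _
  have a2 : Rep N g q := by rw [Rep, CharTwo.add_self_eq_zero]; exact dvd_zero _
  have a3 := a1.mul a2
  rw [e, Rep, toS_two, ← CharTwo.sub_eq_add, ← Nott.one_ser] at a3
  have := Nott.dvd_mul_sub (f := f⁻¹) (f' := f⁻¹) (by simp) a3
  rw [inv_mul_cancel_left, mul_one, CharTwo.sub_eq_add, add_comm] at this
  exact ⟨a1, this⟩

/-- Membership test for `Gm (w + 1)`. -/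
def tst (w a : ℕ) : Prop := (∀ i ≤ w, bt a (2 * i) = 0) ∧ (∀ i < 2 * w, 1 ≤ i → bt a (2 * i + 1) = 0) ∧
  bt a (4 * w + 3) = (w + 1) * bt a (2 * w + 2) ∧ (1 ≤ w → Odd w → bt a (4 * w + 1) = bt a (2 * w + 2))

instance (w a : ℕ) : Decidable (tst w a) := by unfold tst; infer_instance

lemma Rp.mem {w : ℕ} (ha : Rp N f a) (hN : 4 * w + 4 ≤ N) (h : tst w a.1) : f ∈ Gm (w + 1) :=
  mem_Gm_iff.2 ⟨fun i hi => (ha.1.coeff (by omega)).trans (h.1 i hi),
    fun i hi h1 => (ha.1.coeff (by omega)).trans (h.2.1 i hi h1),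
    by rw [ha.1.coeff (by omega), ha.1.coeff (by omega), h.2.2.1],
    fun h1 h2 => by rw [ha.1.coeff (by omega), ha.1.coeff (by omega), h.2.2.2 h1 h2]⟩

/-- Depth test: the series is `X + X ^ d + ...`. -/
def dep (d a : ℕ) : Prop := (∀ i < d, 2 ≤ i → bt a i = 0) ∧ bt a d = 1

instance (d a : ℕ) : Decidable (dep d a) := by unfold dep; infer_instance

lemma Rp.dep {d : ℕ} (ha : Rp N f a) (hN : d < N) (h : dep d a.1) :
    X ^ d ∣ f.ser + X ∧ coeff d f.ser = 1 :=
  ⟨X_pow_dvd_iff.2 fun i hi => by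
    rw [map_add, coeff_X]
    obtain rfl | rfl | h2 : i = 0 ∨ i = 1 ∨ 2 ≤ i := by omega
    · simp [f.coeff_zero]
    · rw [f.coeff_one]; rfl
    · rw [ha.1.coeff (by omega), h.1 i hi h2, if_neg (by omega), add_zero],
    (ha.1.coeff hN).trans h.2⟩

lemma cJ_eq {w : ℕ} (hw : 3 ≤ w) (hf : f ∈ Gm w) : cJ w f =
    (fun p => if p then coeff (2 * w) f.ser
      else coeff (4 * w + 3) f.ser + (w + 1) * coeff (2 * w + 2) f.ser,
    if Even w then 0 else fun p => if p then coeff (4 * w - 3) f.ser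
      else coeff (4 * w + 1) f.ser + coeff (2 * w + 2) f.ser) := by
  obtain ⟨w, rfl⟩ : ∃ v, w = v + 1 := ⟨w - 1, by omega⟩
  have a2 : ∀ i, 1 ≤ i → coeff i (kk f + 1) = coeff (2 * i + 1) f.ser := fun i hi => by
    rw [map_add, coeff_one, if_neg (by omega), add_zero, kk, coeff_od]
  have a1 : coeff (w + 1) (DD f) = coeff (2 * (w + 1)) f.ser := by
    rw [← coeff_dl (Gm.D hf)]; exact coeff_ev _ _
  have a3 : coeff (w + 1 + 1) (DD f) = coeff (2 * (w + 1) + 2) f.ser := by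
    have := dvd_mul2 (Gm.D hf) (Gm.k hf) (l := w + 3) (by omega)
    rw [mul_add, mul_one, ← dl_eq] at this
    rw [← coeff_eq_of_dvd this (by omega)]
    exact coeff_ev _ _
  have a4 : coeff (w + 1) (PP f) = coeff (4 * (w + 1) + 3) f.ser +
      ((w + 1 : ℕ) + 1) * coeff (2 * (w + 1) + 2) f.ser := by
    have := dvd_mul2 (Gm.ps hf) (Gm.ka hf) (l := w + 2) (by omega)
    rw [mul_add, mul_one] at this
    rw [← coeff_mul_one (X_dvd_kk f) (Gm.P hf), PP_mul_kk, map_add, coeff_eq_of_dvd this (by omega),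
      coeff_derivative, ps, coeff_od, kk, coeff_od, dl, coeff_ev, mul_comm _ (_ + 1 : ZMod 2)]
    congr 3; ring
  rw [cJ, a1, a3, a4, a2 _ (by omega), a2 _ (by omega),
    show 2 * (2 * (w + 1) - 2) + 1 = 4 * (w + 1) - 3 by omega,
    show 2 * (2 * (w + 1)) + 1 = 4 * (w + 1) + 1 by omega]

lemma Rp.cJ {w : ℕ} (ha : Rp N f a) (hw : 3 ≤ w) (hN : 4 * w + 4 ≤ N) (hf : f ∈ Gm w) : cJ w f =
    (fun p => if p then bt a.1 (2 * w) else bt a.1 (4 * w + 3) + (w + 1) * bt a.1 (2 * w + 2),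
    if Even w then 0 else fun p => if p then bt a.1 (4 * w - 3)
      else bt a.1 (4 * w + 1) + bt a.1 (2 * w + 2)) := by
  rw [cJ_eq hw hf, ha.1.coeff (by omega), ha.1.coeff (by omega), ha.1.coeff (by omega),
    ha.1.coeff (by omega), ha.1.coeff (by omega)]

end Pool.Agent.Lib.MP_ffb54b_al.P2
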