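import Pool.Agent.Lib.MP_ffb54b_al.P2.JBase
import Pool.Agent.Lib.MP_ffb54b_al.P2.App

set_option autoImplicit false
set_option linter.unusedSectionVars false

namespace Pool.Agent.Lib.MP_ffb54b_al.P2

open PowerSeries Subgroup
open scoped commutatorElement

section General

variable {G : Type*} [Group G]

/-- The elements whose commutator with `g` lies in `T`. -/
def commSub (T : Subgroup G) [T.Normal] (g : G) : Subgroup G where
  carrier := {k | ⁅g, k⁆ ∈ T}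
  one_mem' := by simp
  mul_mem' {a b} ha hb := by
    have e : ⁅g, a * b⁆ = ⁅g, a⁆ * (a * ⁅g, b⁆ * a⁻¹) := by
      simp only [commutatorElement_def]; group
    change ⁅g, a * b⁆ ∈ T
    exact e ▸ mul_mem ha (Normal.conj_mem inferInstance _ hb a)
  inv_mem' {a} ha := by
    have e : ⁅g, a⁻¹⁆ = a⁻¹ * ⁅g, a⁆⁻¹ * a⁻¹⁻¹ := by
      simp only [commutatorElement_def]; group
    change ⁅g, a⁻¹⁆ ∈ T
    exact e ▸ Normal.conj_mem inferInstance _ (inv_mem ha) _

lemma mem_commSub {T : Subgroup G} [T.Normal] {g k : G} : k ∈ commSub T g ↔ ⁅g, k⁆ ∈ T := Iff.rfl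

lemma comm_swap {T : Subgroup G} {a b : G} (h : ⁅a, b⁆ ∈ T) : ⁅b, a⁆ ∈ T := by
  rw [← commutatorElement_inv]; exact inv_mem h

lemma le_commSub {N T : Subgroup G} [N.Normal] [T.Normal] (h : N ≤ T) (g : G) : N ≤ commSub T g :=
  fun _ hk => h (commutator_le_right ⊤ N (commutator_mem_commutator (mem_top g) hk))

lemma comm_of_gen {N T : Subgroup G} [N.Normal] [T.Normal] (h : N ≤ T) {x y u : G}
    (gen : ∀ S : Subgroup G, N ≤ S → x ∈ S → y ∈ S → u ∈ S → S = ⊤) (h1 : ⁅y, x⁆ ∈ T)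
    (h2 : ⁅y, u⁆ ∈ T) (h3 : ⁅x, u⁆ ∈ T) (a b : G) : ⁅a, b⁆ ∈ T := by
  have key : ∀ {g}, ⁅g, x⁆ ∈ T → ⁅g, y⁆ ∈ T → ⁅g, u⁆ ∈ T → ∀ k : G, ⁅g, k⁆ ∈ T := fun a b c k =>
    (gen _ (le_commSub h _) a b c ▸ mem_top k : k ∈ commSub T _)
  exact key (comm_swap (key (by simp) (comm_swap h1) h3 a)) (comm_swap (key h1 (by simp) h2 a))
    (comm_swap (key (comm_swap h3) (comm_swap h2) (by simp) a)) b

variable [TopologicalSpace G] [IsTopologicalGroup G]

lemma comm_mem_gamma {i : ℕ} (hi : 1 ≤ i) (g : G) {k : G} (hk : k ∈ gamma G i) :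
    ⁅g, k⁆ ∈ gamma G (i + 1) := by
  obtain ⟨i, rfl⟩ := Nat.exists_eq_add_of_le' hi
  exact comm_swap (le_topologicalClosure _ (commutator_mem_commutator hk (mem_top g)))

lemma gamma_le {i : ℕ} (hi : 1 ≤ i) {T : Subgroup G} (hT : IsClosed (T : Set G))
    (h : ∀ g : G, ∀ k ∈ gamma G i, ⁅g, k⁆ ∈ T) : gamma G (i + 1) ≤ T := by
  obtain ⟨i, rfl⟩ := Nat.exists_eq_add_of_le' hi
  exact topologicalClosure_minimal _ (commutator_le.2 fun k hk g _ => comm_swap (h g k hk)) hT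

end General

variable {f g : J2} {w m n : ℕ} {T : Subgroup J2}

lemma mem_Jn_iff : f ∈ Nott.Jn 2 n ↔ X ^ (n + 1) ∣ f.ser + X := by
  rw [Nott.mem_Jn, CharTwo.sub_eq_add]

lemma mem_of_dep (hm : 2 ≤ m) (hT : ∀ f : J2, X ^ n ∣ f.ser + X → f ∈ T)
    (h : ∀ d, m ≤ d → d < n → ∃ t ∈ T, X ^ d ∣ t.ser + X ∧ coeff d t.ser = 1)
    (hf : X ^ m ∣ f.ser + X) : f ∈ T := by
  rcases le_total n m with hn | hn
  · exact hT f (dvd_mono hf hn)
  induction hn using Nat.decreasingInduction generalizing f with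
  | self => exact hT f hf
  | of_succ k hk ih =>
    have ih' := fun f => @ih f (by omega) fun d h1 h2 => h d (by omega) h2
    have z : ∀ c : ZMod 2, c = 0 ∨ c = 1 := by decide
    have x : coeff k (X : R2) = 0 := by rw [coeff_X, if_neg (by omega)]
    rcases z (coeff k f.ser) with c | c
    · exact ih' f ((dvd_succ_iff hf).2 (by rw [map_add, c, x, add_zero]))
    obtain ⟨t, ht, h1, h2⟩ := h k le_rfl hk
    have : X ^ (k + 1) ∣ f.ser - t.ser := by
      rw [CharTwo.sub_eq_add, dvd_succ_iff, map_add, c, h2]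
      · rfl
      · simpa [add_add_add_comm, CharTwo.add_self_eq_zero] using dvd_add hf h1
    simpa using mul_mem (ih' _ (mem_Jn_iff.1 (Nott.mul_inv_mem.2 this))) ht

lemma isOpen_Gm (w : ℕ) : IsOpen (Gm w : Set J2) :=
  isOpen_mono (H₁ := Nott.Jn 2 (4 * w)) (fun _ hf => Gm_of_dvd (dvd_mono (mem_Jn_iff.1 hf) (by omega)))
    (Nott.isOpen_Jn _)

lemma isClosed_Gm (w : ℕ) : IsClosed (Gm w : Set J2) := isClosed_of_isOpen _ (isOpen_Gm w)

/-- Elements of depth between seven and ten. -/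
lemma dep_high (h2 : ∀ p i, 2 ≤ i → vJ p i ∈ T) (h3 : ⁅xJ, vJ true 2⁆ ∈ T) (h : Gm 3 ≤ T)
    (hf : X ^ 8 ∣ f.ser + X) : f ∈ T := by
  refine mem_of_dep (n := 12) (by omega) (fun f hf => h (Gm_of_dvd hf)) (fun d h1 h4 => ?_) hf
  interval_cases d
  · exact ⟨_, h2 true 4 (by omega), rt4.dep (by omega) (by decide +kernel)⟩
  · exact ⟨_, mul_mem (mul_mem (h2 true 3 (by omega)) h3) (h2 false 3 (by omega)),
      rc3.dep (by omega) (by decide +kernel)⟩
  · exact ⟨_, h2 true 5 (by omega), rt5.dep (by omega) (by decide +kernel)⟩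
  · exact ⟨_, h2 false 2 (by omega), rf2.dep (by omega) (by decide +kernel)⟩

lemma gen_Gm (T : Subgroup J2) (h : Gm 3 ≤ T) (hx : xJ ∈ T) (hy : yJ ∈ T) (hu : uJ ∈ T) : T = ⊤ := by
  have c : ∀ {a b}, a ∈ T → b ∈ T → ⁅a, b⁆ ∈ T := fun ha hb =>
    mul_mem (mul_mem (mul_mem ha hb) (inv_mem ha)) (inv_mem hb)
  have v : ∀ p i, vJ p i ∈ T := fun p i => by
    induction i with
    | zero => exact one_mem _
    | succ i ih =>
      rcases i with _ | i
      · cases p; exacts [hu, hx]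
      · exact c hy ih
  refine eq_top_iff.2 fun f _ => mem_of_dep (n := 8) le_rfl
    (fun f => dep_high (fun p i _ => v p i) (c hx (v _ _)) h) (fun d h1 h4 => ?_) (sq_dvd' f)
  interval_cases d
  · exact ⟨_, hx, rx.dep (by omega) (by decide +kernel)⟩
  · exact ⟨_, hy, ry.dep (by omega) (by decide +kernel)⟩
  · exact ⟨_, v true 2, rt2.dep (by omega) (by decide +kernel)⟩
  · exact ⟨_, mul_mem hy hy, (ry.mul ry rfl).dep (by omega) (by decide +kernel)⟩
  · exact ⟨_, v true 3, rt3.dep (by omega) (by decide +kernel)⟩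
  · exact ⟨_, hu, ru.dep (by omega) (by decide +kernel)⟩

lemma triple_mem (a b c : J2) : ⁅a, ⁅b, c⁆⁆ ∈ Gm 3 := by
  have := Gm_normal (w := 3) le_rfl
  let Z : Subgroup J2 := ⨅ a, commSub (Gm 3) a
  have : Z.Normal := ⟨fun k hk g => mem_iInf.2 fun a => by
    have e : ⁅a, g * k * g⁻¹⁆ = g * ⁅g⁻¹ * a * g, k⁆ * g⁻¹ := by
      simp only [commutatorElement_def]; group
    rw [mem_commSub, e]
    exact Normal.conj_mem inferInstance _ (mem_commSub.1 (mem_iInf.1 hk (g⁻¹ * a * g))) g⟩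
  have key : ∀ {g : J2}, ⁅xJ, g⁆ ∈ Gm 3 → ⁅yJ, g⁆ ∈ Gm 3 → ⁅uJ, g⁆ ∈ Gm 3 → g ∈ Z :=
    fun {g} a b c => mem_iInf.2 fun k => mem_commSub.2 (comm_swap (mem_commSub.1 (by
      rw [gen_Gm _ (le_commSub le_rfl g) (mem_commSub.2 (comm_swap a))
        (mem_commSub.2 (comm_swap b)) (mem_commSub.2 (comm_swap c))]
      exact mem_top k)))
  refine mem_commSub.1 (mem_iInf.1
    (comm_of_gen (T := Z) (le_iInf (le_commSub le_rfl)) gen_Gm ?_ ?_ ?_ b c) a)
  · exact key (rx.comm_mem rt2 (by omega) (by decide +kernel))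
      (ry.comm_mem rt2 (by omega) (by decide +kernel)) (ru.comm_mem rt2 (by omega) (by decide +kernel))
  · exact key (rx.comm_mem rf2 (by omega) (by decide +kernel))
      (ry.comm_mem rf2 (by omega) (by decide +kernel)) (ru.comm_mem rf2 (by omega) (by decide +kernel))
  · exact key (rx.comm_mem rxu (by omega) (by decide +kernel))
      (ry.comm_mem rxu (by omega) (by decide +kernel)) (ru.comm_mem rxu (by omega) (by decide +kernel))

lemma gamma_le_Gm (hw : 3 ≤ w) : gamma J2 w ≤ Gm w := by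
  induction w, hw using Nat.le_induction with
  | base =>
    have := Gm_normal (w := 3) le_rfl
    exact gamma_le (by omega) (isClosed_Gm 3) fun g k hk => gamma_le (T := commSub (Gm 3) g) le_rfl
      (isClosed_of_isOpen _ (isOpen_mono (le_commSub le_rfl g) (isOpen_Gm 3)))
      (fun a b _ => triple_mem g a b) hk
  | succ w hw ih => exact gamma_le (by omega) (isClosed_Gm _) fun g k hk => comm_mem' hw (ih hk) g

/-- The classes of the elements of `T`. -/
noncomputable def clsOf (T : Subgroup J2) (hw : 3 ≤ w) : Submodule (ZMod 2) (W2 × W2) :=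
  AddSubgroup.toZModSubmodule 2
    { carrier := {v | ∃ t ∈ T, t ∈ Gm w ∧ cJ w t = v}
      zero_mem' := ⟨1, one_mem _, one_mem _, (isCls_cJ hw).one⟩
      add_mem' := by
        rintro _ _ ⟨a, h1, h2, rfl⟩ ⟨b, h3, h4, rfl⟩
        exact ⟨_, mul_mem h1 h3, mul_mem h2 h4, cJ_mul hw h2 h4⟩
      neg_mem' := by
        rintro _ ⟨a, h1, h2, rfl⟩
        exact ⟨_, inv_mem h1, inv_mem h2, (isCls_cJ hw).inv h2⟩ }

lemma tri2 {A : Submodule (ZMod 2) W2} {a : W2} (ha : a ∈ A) (h1 : a true = 1) (hb : ee false ∈ A)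
    (v : W2) : v ∈ A := by
  have : v = v true • a + (v false + v true * a false) • ee false := by
    ext (_ | _)
    · simp only [ee, Pi.add_apply, Pi.smul_apply, smul_eq_mul, Pi.single_eq_same]
      linear_combination -(v true * a false) * two_Z2
    · simp [ee, h1]
  exact this ▸ add_mem (A.smul_mem _ ha) (A.smul_mem _ hb)

lemma tri4 {A : Submodule (ZMod 2) (W2 × W2)} {a b : W2 × W2} {P : W2 → Prop} (ha : a ∈ A)
    (hb : b ∈ A) (h1 : a.1 true = 1) (h2 : b.1 = ee false) (pa : P a.2) (pb : P b.2)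
    (h : ∀ z, P z → (0, z) ∈ A) (v : W2 × W2) (hv : P v.2) : v ∈ A := by
  have key : ∀ {a : W2 × W2}, a ∈ A → P a.2 → a.1 ∈ A.comap (LinearMap.inl _ W2 W2) := fun ha pa => by
    simpa [CharTwo.add_self_eq_zero, Prod.ext_iff, Prod.add_def] using add_mem ha (h _ pa)
  have : (v.1, 0) ∈ A := tri2 (key ha pa) h1 (h2 ▸ key hb pb) v.1
  simpa using add_mem this (h v.2 hv)

lemma le_of_cls (hw : 3 ≤ w) (h : Gm (w + 1) ≤ T)
    (hc : ∀ v : W2 × W2, (Even w → v.2 = 0) → v ∈ clsOf T hw) : Gm w ≤ T := fun f hf => by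
  obtain ⟨t, h1, h2, h3⟩ := hc (cJ w f) fun he => if_pos he
  have := (mem_Gm_succ (by omega) (mul_mem hf (inv_mem h2))).2 (by
    rw [cJ_mul hw hf (inv_mem h2), (isCls_cJ hw).inv h2, h3, add_neg_cancel])
  simpa using mul_mem (h this) h1

lemma cls_comm (hw : 2 ≤ w) (h : ∀ g : J2, ∀ k ∈ Gm (w + 1), ⁅g, k⁆ ∈ T) (v : W2 × W2)
    (hv : Even (w + 2) → v.2 = 0) : v ∈ clsOf T (show 3 ≤ w + 2 by omega) := by
  have m : ∀ {f}, f ∈ Gm (w + 1) → ∀ g, cJ (w + 2) ⁅f, g⁆ ∈ clsOf T (show 3 ≤ w + 2 by omega) :=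
    fun hf g => ⟨_, comm_swap (h g _ hf), comm_mem (by omega) hf g, rfl⟩
  obtain ⟨a, ha, -, a1, a2, -⟩ := exists_al (w := w) (by omega)
  obtain ⟨b, hb, b1, b2, b3⟩ := exists_be (w + 1)
  have x2 : coeff 2 x0.ser = 1 := by simp [x0_ser, coeff_X]
  have x3 : coeff 3 x0.ser = 0 := by simp [x0_ser, coeff_X, coeff_X_pow]
  have y2 : coeff 2 (h0 1).ser = 0 := by simp [h0_ser le_rfl, coeff_X, coeff_X_pow]
  have y3 : coeff 3 (h0 1).ser = 1 := by simp [h0_ser le_rfl, coeff_X]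
  have b4 : X ^ (w + 3) ∣ kk b + 1 := b2 ▸ pow_dvd_pow _ (by omega)
  refine tri4 (P := fun z => Even (w + 2) → z = 0) (m ha (h0 1)) (m hb (h0 1)) ?_ ?_
    (fun h => if_pos h) (fun h => if_pos h) (fun z hz => ?_) v hv
  · simp [cJ, (comm_lead hw ha _).1.2, y2, y3, a2]
  · ext (_ | _) <;> simp [cJ, ee, (comm_lead hw hb _).1.2, (comm_lead hw hb _).2.1.2 b4, y2, y3, b1, b3]
  by_cases he : Even (w + 2)
  · rw [hz he]; exact zero_mem _
  have ho : Odd w := by simpa [Nat.even_add] using he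
  have w1 : (w : ZMod 2) = 1 := ZMod.natCast_eq_one_iff_odd.2 ho
  have w2 : (w : ZMod 2) + 1 = 0 := by rw [w1]; rfl
  have w3 : 3 ≤ w := by obtain ⟨k, rfl⟩ := ho; omega
  have e : 2 * (w + 2) - 2 = 2 * w + 2 := by omega
  have a3 := ha.2 ho.add_one
  rw [show 2 * (w + 1) - 2 = 2 * w by omega, a2] at a3
  have k1 : (cJ (w + 2) ⁅a, x0⁆).1 = 0 := by
    ext (_ | _) <;> simp [cJ, (comm_lead hw ha _).1.2, w2, x2, x3,
      (comm_lead hw ha _).2.1.2 (dvd_mono (Gm.k ha) (by omega))]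
  have k2 : (cJ (w + 2) ⁅b, x0⁆).1 = 0 := by
    ext (_ | _) <;> simp [cJ, (comm_lead hw hb _).1.2, w2, x2, x3, (comm_lead hw hb _).2.1.2 b4]
  refine tri2 (A := (clsOf T (show 3 ≤ w + 2 by omega)).comap (LinearMap.inr _ W2 W2))
    (a := (cJ (w + 2) ⁅a, x0⁆).2) ?_ ?_ ?_ z
  · simpa only [Submodule.mem_comap, LinearMap.inr_apply, ← k1] using m ha x0
  · simp only [cJ, if_neg he, if_true, e, (comm_lead hw ha _).2.2.2, a3, w1, x2, x3, a2]
    rfl
  have c1 := act_coeff (u := 1) x0 (by simp [CharTwo.add_self_eq_zero]) (b2 ▸ dvd_rfl :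
    X ^ (2 * (w + 1) + 1) ∣ kk b + 1)
  have c2 : sb (x0 * b) (kk ⁅b, x0⁆ + 1) * kk (x0 * b) = sb x0 (kk b + 1) * 1 + (kk b + 1) := by
    rw [kk_comm, kk_x0, map_add, map_one, map_one]
    linear_combination (kk b - 1) * two_R2
  have c3 := lead_PP c2 c1.1
  have c4 : X ^ (w + 4) ∣ DD ⁅b, x0⁆ := by
    refine (lead_DD (DD_comm b x0) ?_).1
    rw [b1, map_zero, zero_mul, zero_add, zero_add]
    have s : X ^ (2 * w + 1 + 1) ∣ b.ser + X := by
      have := Gm.ser hb (by omega)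
      rwa [show 2 * (w + 1) = 2 * w + 1 + 1 by ring] at this
    exact act_dvd s (dvd_ki b4) (X_dvd_DD x0) (by omega) (by omega)
  have : (cJ (w + 2) ⁅b, x0⁆).2 = ee false := by
    ext (_ | _)
    · simp only [cJ, if_neg he, Bool.false_eq_true, if_false]
      rw [X_pow_dvd_iff.1 c4 _ (by omega), show 2 * (w + 2) = 2 * (w + 1) + 1 + 1 by ring, c3.2, c1.2,
        x2, b2]
      simp [ee, coeff_one, two_Z2]
    · simp only [cJ, if_neg he, if_true]
      rw [X_pow_dvd_iff.1 c3.1 _ (by omega)]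
      simp [ee]
  simpa only [Submodule.mem_comap, LinearMap.inr_apply, ← k2, ← this] using m hb x0

lemma gen_step (hw : 3 ≤ w) (h1 : Gm (w + 2) ≤ T) (h : ∀ g : J2, ∀ k ∈ Gm w, ⁅g, k⁆ ∈ T) :
    Gm (w + 1) ≤ T := by
  obtain ⟨w, rfl⟩ : ∃ v, w = v + 1 := ⟨w - 1, by omega⟩
  exact le_of_cls (by omega) h1 (cls_comm (by omega) h)

lemma cJ_surj (hw : 4 ≤ w) (v : W2 × W2) (hv : Even w → v.2 = 0) : ∃ t ∈ Gm w, cJ w t = v := by
  obtain ⟨w, rfl⟩ : ∃ v, w = v + 2 := ⟨w - 2, by omega⟩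
  obtain ⟨t, -, h⟩ := cls_comm (T := ⊤) (by omega) (fun _ _ _ => mem_top _) v hv
  exact ⟨t, h⟩

lemma le_of_step {S : Subgroup J2} [S.Normal] (hS : IsClosed (S : Set J2)) (hw : 3 ≤ w)
    (h : Gm w ≤ S ⊔ Gm (w + 1)) : Gm w ≤ S := by
  have key : ∀ r, Gm w ≤ S ⊔ Gm (w + r + 1) := fun r => by
    induction r with
    | zero => exact h
    | succ r ih =>
      have := Gm_normal (w := w + r + 1 + 1) (by omega)
      refine ih.trans (sup_le le_sup_left (gen_step (by omega) le_sup_right fun g k hk => ?_))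
      exact (sup_le (le_commSub le_sup_left g) fun k hk => mem_sup_right (comm_mem' (by omega) hk g) :
        S ⊔ Gm (w + r + 1) ≤ commSub (S ⊔ Gm (w + r + 1 + 1)) g) (ih (Gm_anti (by omega) hk))
  refine fun f hf => topologicalClosure_minimal S le_rfl hS (Nott.mem_closure (M := 0) fun r => ?_)
  have := key r hf
  rw [sup_comm, ← SetLike.mem_coe, mul_normal] at this
  obtain ⟨k, hk, s, hs, rfl⟩ := this
  refine ⟨s, hs, pr_eq.2 ?_⟩
  simpa [mem_Jn_iff] using dvd_mono (Gm.ser hk (by omega)) (by omega)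

lemma vJ_mem_gamma (p : Bool) : ∀ i, vJ p i ∈ gamma J2 i
  | 0 => mem_top _
  | 1 => mem_top _
  | i + 2 => comm_mem_gamma (by omega) _ (vJ_mem_gamma p (i + 1))

theorem gamma_eq (hw : 3 ≤ w) : gamma J2 w = Gm w := by
  refine le_antisymm (gamma_le_Gm hw) ?_
  induction w, hw using Nat.le_induction with
  | base =>
    refine le_of_step (gamma_closed 3) le_rfl (le_of_cls le_rfl le_sup_right fun v _ => ?_)
    have m : ∀ {t}, t ∈ gamma J2 3 → cJ 3 t ∈ clsOf (gamma J2 3 ⊔ Gm (3 + 1)) le_rfl := fun ht =>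
      ⟨_, mem_sup_left ht, gamma_le_Gm le_rfl ht, rfl⟩
    have m1 := comm_mem_gamma (by omega) xJ (vJ_mem_gamma true 2)
    have m2 := vJ_mem_gamma false 3
    have m3 := mul_mem (mul_mem (vJ_mem_gamma true 3) m1) m2
    have m4 := comm_mem_gamma (by omega) xJ (vJ_mem_gamma false 2)
    have e3 : cJ 3 _ = (0, 1) :=
      (rc3.cJ le_rfl (by omega) (gamma_le_Gm le_rfl m3)).trans (by decide +kernel)
    have e4 : cJ 3 _ = (0, ee false) :=
      (rxb.cJ le_rfl (by omega) (gamma_le_Gm le_rfl m4)).trans (by decide +kernel)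
    refine tri4 (P := fun _ => True) (m m1) (m m2) ?_ ?_ trivial trivial (fun z _ => ?_) v trivial
    · rw [rxa.cJ le_rfl (by omega) (gamma_le_Gm le_rfl m1)]; decide +kernel
    · rw [rf3.cJ le_rfl (by omega) (gamma_le_Gm le_rfl m2)]; decide +kernel
    · exact tri2 (A := (clsOf _ le_rfl).comap (LinearMap.inr _ W2 W2)) (a := 1) (e3 ▸ m m3 :) rfl
        (e4 ▸ m m4 :) z
  | succ w hw ih =>
    exact le_of_step (gamma_closed _) (by omega) (gen_step hw le_sup_right fun g k hk =>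
      mem_sup_left (comm_mem_gamma (by omega) g (ih hk)))

lemma Gm_le_gamma (hw : w ≤ n) (hn : 3 ≤ n) : Gm n ≤ gamma J2 w := gamma_eq hn ▸ gamma_anti hw

lemma isOpen_gamma (w : ℕ) : IsOpen (gamma J2 w : Set J2) :=
  isOpen_mono (Gm_le_gamma (Nat.le_add_right w 3) (by omega)) (isOpen_Gm _)

/-- The seventh congruence subgroup lies in the derived group. -/
lemma mem_gamma_two (hf : X ^ 8 ∣ f.ser + X) : f ∈ gamma J2 2 :=
  dep_high (fun p i hi => gamma_anti hi (vJ_mem_gamma p i)) (comm_mem_gamma le_rfl _ (mem_top _))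
    (Gm_le_gamma (by omega) le_rfl) hf

lemma relIndex_Gm (hw : 4 ≤ w) : (Gm (w + 1)).relIndex (Gm w) = if Even w then 4 else 16 := by
  rw [(isCls_cJ (by omega)).relIndex]
  split_ifs with h
  · rw [show cJ w '' Gm w = Set.range fun v : W2 => (v, 0) from Set.ext fun v => ⟨?_, ?_⟩,
      Nat.card_range_of_injective fun _ _ h => congrArg Prod.fst h]
    · simp
    · rintro ⟨t, -, rfl⟩
      exact ⟨_, Prod.ext rfl (if_pos h).symm⟩
    · rintro ⟨v, rfl⟩
      exact cJ_surj hw _ fun _ => rfl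
  · rw [Set.eq_univ_of_forall (s := cJ w '' Gm w) fun v => cJ_surj hw v fun h' => (h h').elim]
    simp

lemma sq_gamma_two (hf : f ∈ gamma J2 2) : f ^ 2 ∈ gamma J2 3 := by
  have := Gm_normal (w := 3) le_rfl
  rw [gamma_eq le_rfl]
  let T : Subgroup J2 :=
    { carrier := {g | g ∈ gamma J2 2 ∧ g ^ 2 ∈ Gm 3}
      one_mem' := by simp
      mul_mem' := fun {a b} ha hb => ⟨mul_mem ha.1 hb.1, by
        have e : (a * b) ^ 2 = a ^ 2 * (⁅a⁻¹, b⁆ * b ^ 2) := by
          simp only [commutatorElement_def, pow_two]; group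
        exact e ▸ mul_mem ha.2 (mul_mem (gamma_le_Gm le_rfl (comm_mem_gamma (by omega) _ hb.1)) hb.2)⟩
      inv_mem' := fun ha => ⟨inv_mem ha.1, by rw [inv_pow]; exact inv_mem ha.2⟩ }
  have : T.Normal := ⟨fun a ha g => ⟨Normal.conj_mem inferInstance _ ha.1 g, by
    rw [conj_pow]; exact Normal.conj_mem inferInstance _ ha.2 g⟩⟩
  have h3 : Gm 3 ≤ T := fun a ha => ⟨Gm_le_gamma (by omega) le_rfl ha, pow_mem ha 2⟩
  have c : ∀ a b : J2, ⁅a, b⁆ ∈ gamma J2 2 := fun a b => comm_mem_gamma le_rfl a (mem_top b)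
  refine (gamma_le (T := T) le_rfl (isClosed_of_isOpen _ (isOpen_mono h3 (isOpen_Gm 3)))
    (fun a b _ => comm_of_gen h3 gen_Gm ⟨c _ _, ?_⟩ ⟨c _ _, ?_⟩ ⟨c _ _, ?_⟩ a b) hf).2 <;> rw [pow_two]
  · exact (rt2.mul rt2 rfl).mem (by omega) (by decide +kernel)
  · exact (rf2.mul rf2 rfl).mem (by omega) (by decide +kernel)
  · exact (rxu.mul rxu rfl).mem (by omega) (by decide +kernel)

lemma cJ_vJ6 : cJ 6 (vJ true 6) = (1, 0) ∧ cJ 6 (vJ false 6) = (ee false, 0) :=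
  ⟨(rt6.cJ (by omega) (by omega) (gamma_le_Gm (by omega) (vJ_mem_gamma _ _))).trans (by decide +kernel),
    (rf6.cJ (by omega) (by omega) (gamma_le_Gm (by omega) (vJ_mem_gamma _ _))).trans (by decide +kernel)⟩

theorem base_Gm : Base Gm xJ yJ uJ := by
  refine ⟨base_h4, base_h5, base_h5y, fun T h1 h2 h3 => le_of_cls (by omega) h1 fun v hv => ?_,
    base_mid, base_one, base_two⟩
  have m : ∀ p, vJ p 6 ∈ Gm 6 := fun p => gamma_le_Gm (by omega) (vJ_mem_gamma p 6)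
  exact tri4 (A := clsOf T (by omega)) (P := fun z => z = 0) ⟨_, h2, m _, cJ_vJ6.1⟩
    ⟨_, h3, m _, cJ_vJ6.2⟩ rfl rfl rfl rfl (fun z hz => by rw [hz]; exact zero_mem _) v (hv (by decide))

theorem base_J : Base (gamma J2) xJ yJ uJ := by
  have B := base_Gm
  have e5 := gamma_eq (w := 5) (by omega)
  have e6 := gamma_eq (w := 6) (by omega)
  have e7 := gamma_eq (w := 7) (by omega)
  exact ⟨fun p q => e5 ▸ B.h4 p q, fun p q r => e7 ▸ B.h5 p q r, fun p q => e7 ▸ B.h5y p q,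
    fun T h a b => e6 ▸ B.span T (e7 ▸ h) a b, e7 ▸ B.mid, fun p q => e7 ▸ B.one p q,
    fun p q => e7 ▸ B.two p q⟩

lemma finiteIndex_Jn (n : ℕ) : (Nott.Jn 2 n).FiniteIndex := by
  have : Finite (J2 ⧸ Nott.Jn 2 n) := Finite.of_injective
    (fun q (i : Fin (n + 1)) => coeff i q.out⁻¹.ser) fun a b h => by
      rw [← a.out_eq', ← b.out_eq', QuotientGroup.eq, ← inv_inv b.out, Nott.mul_inv_mem,
        X_pow_dvd_iff]
      exact fun m hm => by rw [map_sub, sub_eq_zero]; exact congrFun h ⟨m, hm⟩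
  exact finiteIndex_of_finite_quotient

lemma index_gamma_ne (n : ℕ) : (gamma J2 n).index ≠ 0 := by
  have := finiteIndex_Jn (4 * (n + 3))
  exact (finiteIndex_of_le (H := Nott.Jn 2 (4 * (n + 3))) (fun _ hf => Gm_le_gamma
    (Nat.le_add_right n 3) (by omega)
    (Gm_of_dvd (dvd_mono (mem_Jn_iff.1 hf) (by omega))))).index_ne_zero

theorem lcs_J : LCS (gamma J2) xJ yJ uJ where
  normal := inferInstance
  ns := gamma_ns
  top := rfl
  gen1 T h := gen_Gm T ((Gm_le_gamma (by omega) le_rfl).trans h)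
  sq _ := sq_gamma_two
  gen n hn T h h' := gamma_le hn (isClosed_of_isOpen _ (isOpen_mono h (isOpen_gamma _))) h'
  idx_even m hm := by
    rw [gamma_eq (by omega), gamma_eq (by omega), relIndex_Gm (by omega), if_pos (by simp)]
  idx_odd m hm := by
    rw [gamma_eq (by omega), gamma_eq (by omega), relIndex_Gm (w := 2 * m + 1) (by omega),
      if_neg (by simp)]

/-- The data of `S1` for the Nottingham group in characteristic two. -/
theorem lcsJ : ∃ x y u : J2, x⁻¹.ser = X + X ^ 2 ∧ y⁻¹.ser = X + X ^ 3 ∧ u⁻¹.ser = X + X ^ 7 ∧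
    LCS (gamma J2) x y u ∧ Base (gamma J2) x y u ∧ ∀ w, 3 ≤ w → gamma J2 w = Gm w :=
  ⟨xJ, yJ, uJ, by rw [xJ, inv_inv, x0_ser], by rw [yJ, hJ, inv_inv, h0_ser le_rfl],
    by rw [uJ, hJ, inv_inv, h0_ser (by omega)], lcs_J, base_J, fun _ => gamma_eq⟩

end Pool.Agent.Lib.MP_ffb54b_al.P2
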