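import Pool.Agent.Lib.MP_ffb54b_al.P2.JGam
import Pool.Agent.Lib.MP_ffb54b_al.P2.PI0

set_option autoImplicit false
set_option linter.unusedSectionVars false

namespace Pool.Agent.Lib.MP_ffb54b_al.P2

open PowerSeries
open scoped commutatorElement

variable {f g : J2} {i j l n w C : ℕ}

lemma mem_Gm_deep (hw : 1 ≤ w) (h1 : X ^ (w + 1) ∣ DD f) (h2 : X ^ w ∣ PP f)
    (h3 : X ^ (2 * w) ∣ kk f + 1) : f ∈ Gm w :=
  ⟨⟨dvd_mono h1 (by omega), h2, dvd_mono h3 (by omega)⟩, fun _ => by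
    rw [X_pow_dvd_iff.1 h3 _ (by omega), X_pow_dvd_iff.1 h1 _ (by omega)]⟩

lemma Gm.ser' (h : f ∈ Gm (w + 2)) : X ^ (2 * w + 3 + 1) ∣ f.ser + X := Gm.ser h (by omega)

lemma Gm.k' (h : f ∈ Gm (w + 2)) : X ^ (2 * w + 2) ∣ kk f + 1 := dvd_mono (Gm.k h) (by omega)

/-- the third cocycle in terms of the linear ones. -/
lemma ps_near (hf : f ∈ Gm (i + 2)) : X ^ (2 * i + 2) ∣ ps f + (PP f + d⁄dX _ (dl f)) := by
  convert dvd_add (dvd_mul2 (Gm.ps hf) (Gm.ka hf) (l := 2 * i + 2) (by omega))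
    (dvd_mul2 (Gm.P hf) (Gm.k' hf) (by omega)) using 1
  linear_combination -PP_mul_kk f - (ps f * ka f) * two_R2

lemma dl_near (hf : f ∈ Gm (i + 2)) : X ^ (3 * i + 4) ∣ dl f + DD f := by
  convert dvd_mul2 (Gm.D hf) (Gm.k' hf) (l := 3 * i + 4) (by omega) using 1
  rw [dl_eq]; ring

lemma sb_kk_near (hf : f ∈ Gm (i + 2)) (hg : g ∈ Gm (j + 2)) :
    X ^ (2 * (i + 2 * j + 3)) ∣ sb g (kk f) + kk f + (dl g * ps f) ^ 2 := by
  have a1 : X ^ (i + 2 * j + 3) ∣ sb g (ka f) + ka f := by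
    convert dvd_mono (sb_add (Gm.ser' hg) (Gm.ka hf)) (m := i + 2 * j + 3) (by omega) using 1
    rw [map_add, map_one]
    linear_combination -two_R2
  have a2 := dvd_mono (sb_add (Gm.ser' hg) (Gm.ps hf)) (m := i + 2 * j + 3) (by omega)
  have a3 := act_dvd (Gm.ser' hg) (Gm.k' hg) (Gm.ps hf) (n := i + 2 * j + 3) (by omega) (by omega)
  convert dvd_add (dvd_sq (dvd_add a1 (a2.mul_left (dl g)))) ((dvd_sq a3).mul_left X) using 1
  rw [sb_kk_add]
  linear_combination -((sb g (ka f) + ka f + dl g * sb g (ps f)) * (dl g * ps f)) * two_R2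

/-- Commutators of two deep elements. -/
lemma comm_deep (hf : f ∈ Gm i) (hg : g ∈ Gm j) (hi : C + 4 ≤ i) (hj : C + 4 ≤ j) :
    X ^ (i + j + C + 1) ∣ DD ⁅f, g⁆ ∧ X ^ (i + j + C + 1) ∣ PP ⁅f, g⁆ ∧
      X ^ (2 * (i + j + C)) ∣ kk ⁅f, g⁆ + 1 + (dl g * ps f + dl f * ps g) ^ 2 := by
  obtain ⟨i, rfl⟩ : ∃ v, i = v + 2 := ⟨i - 2, by omega⟩
  obtain ⟨j, rfl⟩ : ∃ v, j = v + 2 := ⟨j - 2, by omega⟩
  refine ⟨(lead_DD (DD_comm f g) (dvd_add
    (act_dvd (Gm.ser' hg) (dvd_ki (Gm.k' hg)) (Gm.D hf) (by omega) (by omega))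
    (act_dvd (Gm.ser' hf) (dvd_ki (Gm.k' hf)) (Gm.D hg) (by omega) (by omega)))).1,
    (lead_PP (PP_comm f g) (dvd_add
    (mul_comm (kk g) _ ▸ act_dvd (Gm.ser' hg) (Gm.k' hg) (Gm.P hf) (by omega) (by omega))
    (mul_comm (kk f) _ ▸ act_dvd (Gm.ser' hf) (Gm.k' hf) (Gm.P hg) (by omega) (by omega)))).1, ?_⟩
  have a1 := dvd_mono (sb_kk_near hf hg) (m := 2 * (i + 2 + (j + 2) + C)) (by omega)
  have a2 := dvd_mono (sb_kk_near hg hf) (m := 2 * (i + 2 + (j + 2) + C)) (by omega)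
  have b1 := dvd_sq (dvd_mul2 (dvd_dl (Gm.D hg)) (Gm.ps hf) (l := i + j + 3) (by omega))
  have b2 := dvd_sq (dvd_mul2 (dvd_dl (Gm.D hf)) (Gm.ps hg) (l := i + j + 3) (by omega))
  have c1 := dvd_mul2 b1 (Gm.k' hg) (l := 2 * (i + 2 + (j + 2) + C)) (by omega)
  have c2 := dvd_mul2 b2 (Gm.k' hf) (l := 2 * (i + 2 + (j + 2) + C)) (by omega)
  have d1 : X ^ (2 * (i + 2 + (j + 2) + C)) ∣ sb (g * f) (kk ⁅f, g⁆ + 1) * kk (g * f) +
      (dl g * ps f + dl f * ps g) ^ 2 := by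
    convert dvd_add (dvd_add (a1.mul_right (kk g)) (a2.mul_right (kk f))) (dvd_add c1 c2) using 1
    rw [kk_comm]
    linear_combination (dl g * ps f * (dl f * ps g) - (dl g * ps f) ^ 2 * kk g -
      (dl f * ps g) ^ 2 * kk f) * two_R2
  have d2 : X ^ (2 * (i + j + 3)) ∣ kk ⁅f, g⁆ + 1 := (lead_PP rfl (by
    convert dvd_add (dvd_mono d1 (by omega)) (dvd_add b1 b2) using 1
    linear_combination -((dl g * ps f + dl f * ps g) ^ 2 - dl g * ps f * (dl f * ps g)) * two_R2)).1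
  have m : g * f ∈ Gm (C + 2 + 2) := mul_mem (Gm_anti (by omega) hg) (Gm_anti (by omega) hf)
  convert dvd_add d1 (act_dvd (Gm.ser' m) (Gm.k' m) d2 (by omega) (by omega)) using 1
  linear_combination -(sb (g * f) (kk ⁅f, g⁆ + 1) * kk (g * f)) * two_R2

lemma comm_mem_deep (hf : f ∈ Gm i) (hg : g ∈ Gm j) (hi : C + 4 ≤ i) (hj : C + 4 ≤ j)
    (h : X ^ (i + j + C) ∣ dl g * ps f + dl f * ps g) : ⁅f, g⁆ ∈ Gm (i + j + C) := by
  obtain ⟨a, b, c⟩ := comm_deep hf hg hi hj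
  refine mem_Gm_deep (by omega) a (dvd_mono b (by omega)) ?_
  convert dvd_add c (dvd_sq h) using 1
  linear_combination -((dl g * ps f + dl f * ps g) ^ 2) * two_R2

lemma Gm_comm (hf : f ∈ Gm i) (hg : g ∈ Gm j) (hi : 4 ≤ i) (hj : 4 ≤ j) :
    ⁅f, g⁆ ∈ Gm (i + j - 1) := by
  obtain ⟨a, b, c⟩ := comm_deep (C := 0) hf hg hi hj
  obtain ⟨i, rfl⟩ : ∃ v, i = v + 2 := ⟨i - 2, by omega⟩
  obtain ⟨j, rfl⟩ : ∃ v, j = v + 2 := ⟨j - 2, by omega⟩
  refine mem_Gm_deep (by omega) (dvd_mono a (by omega)) (dvd_mono b (by omega)) ?_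
  convert dvd_add (dvd_mono c (m := 2 * (i + 2 + (j + 2) - 1)) (by omega)) (dvd_sq (dvd_add
    (dvd_mul2 (dvd_dl (Gm.D hg)) (Gm.ps hf) (by omega))
    (dvd_mul2 (dvd_dl (Gm.D hf)) (Gm.ps hg) (by omega)))) using 1
  linear_combination -((dl g * ps f + dl f * ps g) ^ 2) * two_R2

theorem Gm_cls2 (hi : C + 7 ≤ i) (hj : C + 7 ≤ j) (hl : C + 7 ≤ l) {a b d : J2} (ha : a ∈ Gm i)
    (hb : b ∈ Gm j) (hd : d ∈ Gm l) : ⁅⁅a, b⁆, d⁆ ∈ Gm (i + j + l + C) := by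
  obtain ⟨h1, h2, -⟩ := comm_deep (C := C + 3) ha hb hi hj
  have h3 := Gm_comm ha hb (by omega) (by omega)
  obtain ⟨m, hm⟩ : ∃ v, i + j - 1 = v + 2 := ⟨i + j - 3, by omega⟩
  obtain ⟨l, rfl⟩ : ∃ v, l = v + 1 := ⟨l - 1, by omega⟩
  rw [show i + j + (l + 1) + C = i + j - 1 + (l + 1) + (C + 1) by omega]
  refine comm_mem_deep h3 hd (by omega) (by omega) (dvd_add ?_
    (dvd_mul2 (dvd_dl h1) (Gm.ps hd) (by omega)))
  refine dvd_mul2 (dvd_dl (Gm.D hd)) (n := i + j + C) ?_ (by omega)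
  convert dvd_add (dvd_mono (ps_near (hm ▸ h3)) (m := i + j + C) (by omega))
    (dvd_add (dvd_mono h2 (by omega)) (dvd_mono (dvd_d (dvd_dl h1)) (by omega))) using 1
  linear_combination -(PP ⁅a, b⁆ + d⁄dX _ (dl ⁅a, b⁆)) * two_R2

theorem Gm_sq (hi : C + 4 ≤ i) (hf : f ∈ Gm i) : f ^ 2 ∈ Gm (i + C) := by
  obtain ⟨i, rfl⟩ : ∃ v, i = v + 2 := ⟨i - 2, by omega⟩
  rw [pow_two]
  refine mem_Gm_deep (by omega)
    (DD_mul f f ▸ act_dvd (Gm.ser' hf) (dvd_ki (Gm.k' hf)) (Gm.D hf) (by omega) (by omega))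
    (PP_mul f f ▸ mul_comm (kk f) _ ▸
      act_dvd (Gm.ser' hf) (Gm.k' hf) (Gm.P hf) (by omega) (by omega)) ?_
  convert act_dvd (Gm.ser' hf) (Gm.k' hf) (Gm.k' hf) (n := 2 * (i + 2 + C)) (by omega) (by omega)
    using 1
  rw [kk_mul, map_add, map_one]
  linear_combination -(kk f) * two_R2

/-- the leading parts of the two linear cocycles of a basis element. -/
structure Bas (e : Bool → ℕ → J2) (w : ℕ) : Prop where
  mem : ∀ p i, w ≤ i → e p i ∈ Gm i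
  D : ∀ p i, w ≤ i → X ^ (i + 6) ∣ DD (e p i) + if p then X ^ i else 0
  P : ∀ p i, w ≤ i → X ^ (i + 6) ∣ PP (e p i) + if p then 0 else X ^ i

namespace Bas

variable {e : Bool → ℕ → J2} (B : Bas e w) {p q : Bool}
include B

lemma dl (hi : w + 8 ≤ i) : X ^ (i + 6) ∣ dl (e p i) + if p then X ^ i else 0 := by
  obtain ⟨i, rfl⟩ : ∃ v, i = v + 2 := ⟨i - 2, by omega⟩
  convert dvd_add (dvd_mono (dl_near (B.mem p (i + 2) (by omega))) (m := i + 2 + 6) (by omega))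
    (B.D p (i + 2) (by omega)) using 1
  linear_combination -DD (e p (i + 2)) * two_R2

lemma ps (hi : w + 8 ≤ i + 1) : X ^ (i + 6) ∣ ps (e p (i + 1)) +
    if p then ((i + 1 : ℕ) : R2) * X ^ i else X ^ (i + 1) := by
  have h1 := dvd_d (B.dl (p := p) hi)
  obtain ⟨i, rfl⟩ : ∃ v, i = v + 1 := ⟨i - 1, by omega⟩
  convert dvd_add (dvd_mono (ps_near (B.mem p (i + 2) (by omega))) (m := i + 1 + 6) (by omega))
    (dvd_add (dvd_mono (B.P p (i + 2) (by omega)) (by omega)) h1) using 1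
  cases p
  · simp only [Bool.false_eq_true, if_false, add_zero]
    linear_combination -(PP (e false (i + 2)) + d⁄dX _ (P2.dl (e false (i + 2)))) * two_R2
  · simp only [if_true, add_zero, map_add, Derivation.leibniz_pow, derivative_X, smul_eq_mul,
      mul_one, nsmul_eq_mul, Nat.add_sub_cancel]
    linear_combination -(PP (e true (i + 2)) + d⁄dX _ (P2.dl (e true (i + 2)))) * two_R2

lemma prod (hi : w + 8 ≤ i + 1) (hj : w + 8 ≤ j) : X ^ (i + j + 6) ∣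
    P2.dl (e q j) * P2.ps (e p (i + 1)) + (if q then X ^ j else 0) *
      (if p then ((i + 1 : ℕ) : R2) * X ^ i else X ^ (i + 1)) := by
  have h1 := B.dl (p := q) hj
  have h2 := B.ps (p := p) hi
  have h3 : X ^ j ∣ (if q then X ^ j else 0 : R2) := by split_ifs <;> simp
  convert dvd_add (dvd_mul2 h1 (Gm.ps (B.mem p (i + 1) (by omega))) (l := i + j + 6) (by omega))
    (dvd_mul2 h3 h2 (by omega)) using 1
  linear_combination -((if q then X ^ j else 0) * P2.ps (e p (i + 1))) * two_R2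

theorem phi {m : ℕ} (hm : w + 9 ≤ m) : PhiG Gm e m := by
  obtain ⟨m, rfl⟩ : ∃ v, m = v + 1 := ⟨m - 1, by omega⟩
  have mem := fun p (k : ℕ) => B.mem p (m + 1 + k) (by omega)
  refine ⟨fun p => ?_, ?_, Or.inl ?_⟩
  · rw [show 2 * (m + 1) + 6 = m + 1 + (m + 1 + 2) + 4 by omega]
    refine comm_mem_deep (mem p 0) (mem p 2) (by omega) (by omega) ?_
    convert dvd_add (dvd_mono (B.prod (p := p) (q := p) (i := m) (j := m + 1 + 2) (by omega)
      (by omega)) (m := m + 1 + (m + 1 + 2) + 4) (by omega)) (dvd_mono (B.prod (p := p) (q := p)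
      (i := m + 2) (j := m + 1) (by omega) (by omega)) (by omega)) using 1
    cases p
    · simp
    · simp only [if_true]
      push_cast
      linear_combination -((m + 2) * X ^ (2 * m + 3)) * two_R2
  · rw [show 2 * (m + 1) + 4 = m + 1 + 1 + (m + 1 + 2) + 1 by omega]
    refine comm_mem_deep (mem _ 1) (mem _ 2) (by omega) (by omega) ?_
    simpa using dvd_add (dvd_mono (B.prod (p := false) (q := false) (i := m + 1) (j := m + 1 + 2)
      (by omega) (by omega)) (m := m + 1 + 1 + (m + 1 + 2) + 1) (by omega)) (dvd_mono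
      (B.prod (p := false) (q := false) (i := m + 2) (j := m + 1 + 1) (by omega) (by omega))
      (by omega))
  have key : ∀ i j, w + 9 ≤ i + 1 → w + 9 ≤ j + 1 → i + j = 2 * m + 2 →
      X ^ (2 * (m + 1) + 5) ∣ DD ⁅e true (i + 1), e false (j + 1)⁆ ∧
      X ^ (2 * (m + 1) + 5) ∣ PP ⁅e true (i + 1), e false (j + 1)⁆ ∧
      X ^ (2 * (2 * (m + 1) + 4)) ∣ kk ⁅e true (i + 1), e false (j + 1)⁆ + 1 +
        (X ^ (2 * m + 4)) ^ 2 := fun i j hi hj hij => by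
    obtain ⟨a, b, c⟩ := comm_deep (C := 2) (B.mem true (i + 1) (by omega))
      (B.mem false (j + 1) (by omega)) (by omega) (by omega)
    refine ⟨dvd_mono a (by omega), dvd_mono b (by omega), ?_⟩
    have d := dvd_sq (dvd_add (dvd_mono (B.prod (p := true) (q := false) (i := i) (j := j + 1)
      (by omega) (by omega)) (m := 2 * (m + 1) + 4) (by omega)) (dvd_mono (B.prod (p := false)
      (q := true) (i := j) (j := i + 1) (by omega) (by omega)) (by omega)))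
    simp only [Bool.false_eq_true, if_false, if_true, zero_mul, add_zero, ← pow_add,
      show i + 1 + (j + 1) = 2 * m + 4 by omega, ← add_assoc] at d
    convert dvd_add (dvd_mono c (by omega)) d using 1
    generalize P2.dl (e false (j + 1)) * P2.ps (e true (i + 1)) +
      P2.dl (e true (i + 1)) * P2.ps (e false (j + 1)) = z
    linear_combination -(z ^ 2 + z * X ^ (2 * m + 4)) * two_R2
  obtain ⟨a1, a2, a3⟩ := key (m + 1) (m + 1) (by omega) (by omega) (by omega)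
  obtain ⟨b1, b2, b3⟩ := key m (m + 2) (by omega) (by omega) (by omega)
  have m2 : ⁅e true (m + 1), e false (m + 2 + 1)⁆ ∈ Gm (2 * m + 1 + 2) := by
    convert Gm_comm (mem true 0) (mem false 2) (by omega) (by omega) using 2
    omega
  have k1 : X ^ (4 * m + 8) ∣ kk ⁅e true (m + 1 + 1), e false (m + 1 + 1)⁆ + 1 := by
    convert dvd_add (dvd_mono a3 (m := 4 * m + 8) (by omega))
      (dvd_mono (dvd_sq (n := 2 * m + 4) (dvd_refl (X ^ (2 * m + 4) : R2))) (by omega)) using 1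
    linear_combination -((X ^ (2 * m + 4)) ^ 2) * two_R2
  refine mem_Gm_deep (by omega) (DD_mul _ _ ▸ dvd_add ((sb_dvd _ a1).mul_right _) b1)
    (dvd_mono (n := 2 * (m + 1) + 5) (PP_mul _ _ ▸ dvd_add ((sb_dvd _ a2).mul_left _) b2)
      (by omega)) ?_
  convert dvd_add (act_dvd (Gm.ser' m2) (Gm.k' m2) k1 (by omega) (by omega)) (dvd_add a3 b3) using 1
  rw [kk_mul, map_add, map_one]
  linear_combination -(kk ⁅e true (m + 1 + 1), e false (m + 1 + 1)⁆ +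
    kk ⁅e true (m + 1), e false (m + 2 + 1)⁆ + 1 + (X ^ (2 * m + 4)) ^ 2) * two_R2

end Bas

section Transport

variable {KJ : ℕ → Subgroup J2} (hK : ∀ w, 3 ≤ w → KJ w = Gm w)
include hK

theorem jf_cls2 (C : ℕ) : ∃ w, ∀ i j l, w ≤ i → w ≤ j → w ≤ l → ∀ a ∈ KJ i, ∀ b ∈ KJ j,
    ∀ d ∈ KJ l, ⁅⁅a, b⁆, d⁆ ∈ KJ (i + j + l + C) :=
  ⟨C + 7, fun i j l hi hj hl a ha b hb d hd => by
    rw [hK _ (by omega)] at ha hb hd ⊢
    exact Gm_cls2 hi hj hl ha hb hd⟩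

theorem jf_sq (C : ℕ) : ∃ w, ∀ i, w ≤ i → ∀ a ∈ KJ i, a ^ 2 ∈ KJ (i + C) :=
  ⟨C + 4, fun i hi a ha => by
    rw [hK _ (by omega)] at ha ⊢
    exact Gm_sq hi ha⟩

theorem jf_phi {e : Bool → ℕ → J2} (B : Bas e w) : ∃ w, ∀ m, w ≤ m → PhiG KJ e m :=
  ⟨w + 9, fun m hm => by
    rw [PhiG, hK _ (by omega), hK (2 * m + 4) (by omega)]
    exact B.phi hm⟩

end Transport

end Pool.Agent.Lib.MP_ffb54b_al.P2
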