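import Pool.Agent.Lib.MP_ffb54b_al.P2.JPhi
import Pool.Agent.Lib.MP_ffb54b_al.P2.JB

set_option autoImplicit false
set_option linter.unusedSectionVars false

namespace Pool.Agent.Lib.MP_ffb54b_al.P2

open PowerSeries Finset
open scoped commutatorElement

variable {f g a b y : J2} {i j l n w m : ℕ} {p q : Bool}

/-- the two linear cocycles. -/
noncomputable def CC (p : Bool) (f : J2) : R2 := if p then DD f else PP f

/-- their multipliers. -/
noncomputable def uu (p : Bool) (f : J2) : R2 := if p then ki f else kk f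

lemma CC_mul (p : Bool) (f g : J2) : CC p (f * g) = sb g (CC p f) * uu p g + CC p g := by
  cases p
  · simp only [CC, uu, Bool.false_eq_true, if_false, PP_mul, mul_comm]
  · simp only [CC, uu, if_true, DD_mul]

lemma CC_one (p : Bool) : CC p 1 = 0 := by cases p <;> simp [CC, DD_one, PP_one]

lemma dvd_uu (p : Bool) (h : X ^ n ∣ kk f + 1) : X ^ n ∣ uu p f + 1 := by
  cases p
  exacts [h, dvd_ki h]

lemma Gm.C (p : Bool) (h : f ∈ Gm w) : X ^ w ∣ CC p f := by
  cases p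
  exacts [Gm.P h, Gm.D h]

lemma CC_add (p : Bool) (ha : a ∈ Gm (i + 2)) (hb : b ∈ Gm (i + 2)) :
    X ^ (2 * i + 4) ∣ CC p (a * b) + (CC p a + CC p b) := by
  convert act_dvd (Gm.ser' hb) (dvd_uu p (Gm.k' hb)) (Gm.C p ha) (n := 2 * i + 4) (by omega)
    (by omega) using 1
  rw [CC_mul]
  linear_combination CC p b * two_R2

lemma CC_div (p : Bool) (ha : a ∈ Gm (i + 2)) (hb : b ∈ Gm (i + 2)) :
    X ^ (2 * i + 4) ∣ CC p (a * b⁻¹) + (CC p a + CC p b) := by
  convert CC_add p (mul_mem ha (inv_mem hb)) hb using 1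
  rw [inv_mul_cancel_right]
  ring

lemma CC_conj (p : Bool) (g : J2) (ha : a ∈ Gm (i + 2)) :
    X ^ (2 * i + 2) ∣ CC p (g * a * g⁻¹) + sb g⁻¹ (CC p a) * uu p g⁻¹ := by
  have h0 := CC_mul p g g⁻¹
  rw [mul_inv_cancel, CC_one] at h0
  convert (sb_dvd g⁻¹ (act_dvd0 (Gm.ser' ha) (dvd_uu p (Gm.k' ha)) (CC p g) (n := 2 * i + 2)
    (by omega) le_rfl)).mul_right (uu p g⁻¹) using 1
  rw [CC_mul, CC_mul, map_add, map_add]
  linear_combination -h0 + (sb g⁻¹ (CC p a) * uu p g⁻¹ - sb g⁻¹ (CC p g) * uu p g⁻¹) * two_R2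

lemma trunc_dvd {φ : R2} (h : X ^ i ∣ φ) (w : ℕ) :
    X ^ (i + w) ∣ φ + ∑ k ∈ range w, C (coeff (i + k) φ) * X ^ (i + k) := by
  induction w with
  | zero => simpa using h
  | succ w ih =>
    rw [sum_range_succ, ← add_assoc, ← add_assoc, dvd_succ_iff (dvd_add ih (dvd_mul_left _ _)),
      map_add, map_add, coeff_C_mul, coeff_X_pow_self, map_sum, sum_eq_zero fun k hk => by
        rw [coeff_C_mul, coeff_X_pow, if_neg (by have := mem_range.1 hk; omega), mul_zero]]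
    simp [CharTwo.add_self_eq_zero]

section Y

variable (hy : y⁻¹.ser = X + X ^ 3)
include hy

lemma y_od : OD y 1 := by simpa using (IsH.of_ser (m := 1) hy).od.inv

lemma y_two : coeff 2 y.ser = 0 := by
  have := X_pow_dvd_iff.1 (y_od hy).ser 2 (by omega)
  simpa [coeff_X] using this

lemma y_three : coeff 3 y.ser = 1 := by
  simpa [coeff_one_kk, coeff_one] using (y_od hy).2

lemma y_lead (hw : 3 ≤ w) (p : Bool) (hf : f ∈ Gm (w + 1)) :
    coeff (w + 2) (CC p ⁅y, f⁆) = coeff (w + 1) (CC p f) := by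
  obtain ⟨a, b, -⟩ := comm_lead (by omega) hf y
  have h1 := coeff_eq_of_dvd (CC_div (i := w) p (one_mem _) (comm_mem (by omega) hf y))
    (m := w + 2) (by omega)
  rw [one_mul, commutatorElement_inv, CC_one, zero_add] at h1
  rw [h1]
  cases p
  · simpa [CC, y_two hy, y_three hy] using b.2 (dvd_mono (Gm.k hf) (by omega))
  · simpa [CC, y_two hy, y_three hy] using a.2

lemma y_gain (hw : 4 ≤ w) (hf : f ∈ Gm w) (h : ∀ p, coeff w (CC p f) = 0) :
    ⁅y, f⁆ ∈ Gm (w + 2) := by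
  by_cases he : Even w
  · refine comm_mem' (by omega) ((mem_Gm_succ (by omega) hf).2 ?_) y
    rw [cJ, if_pos he]
    exact Prod.ext (funext fun p => by cases p; exacts [h false, h true]) rfl
  · obtain ⟨w, rfl⟩ : ∃ v, w = v + 1 := ⟨w - 1, by omega⟩
    refine (mem_Gm_succ (by omega) (comm_mem' (by omega) hf y)).2 ?_
    rw [cJ, if_pos (Nat.even_add_one.2 he)]
    refine Prod.ext (funext fun p => ?_) rfl
    cases p
    exacts [(y_lead hy (by omega) false hf).trans (h false),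
      (y_lead hy (by omega) true hf).trans (h true)]

omit hy in
lemma CC_comm (hf : f ∈ Gm (w + 2)) (p : Bool) (h : X ^ n ∣ CC p f) (hn : n + 1 ≤ 2 * w + 2) :
    X ^ (n + 1) ∣ CC p ⁅y, f⁆ := by
  cases p
  · refine (lead_PP (PP_comm y f) (dvd_add ?_ ?_)).1
    · exact mul_comm (kk f) _ ▸ act_dvd0 (Gm.ser' hf) (Gm.k' hf) _ (by omega) hn
    · exact mul_comm (kk y) _ ▸ (act_coeff y (X_dvd_kk y) h).1
  · exact (lead_DD (DD_comm y f) (dvd_add (act_dvd0 (Gm.ser' hf) (dvd_ki (Gm.k' hf)) _ (by omega) hn)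
      (act_coeff y (X_dvd_ki y) h).1)).1

lemma yc_gain {c : ℕ} (hi : 2 * c + 4 ≤ i) (hf : f ∈ Gm i) (h : ∀ p, X ^ (i + c) ∣ CC p f) :
    yc y c f ∈ Gm (i + 2 * c) := by
  have key : ∀ j ≤ c, yc y j f ∈ Gm (i + 2 * j) ∧ ∀ p, X ^ (i + c + j) ∣ CC p (yc y j f) := by
    intro j hj
    induction j with
    | zero => exact ⟨hf, h⟩
    | succ j ih =>
      obtain ⟨h1, h2⟩ := ih (by omega)
      refine ⟨y_gain hy (w := i + 2 * j) (by omega) h1 fun p =>
        X_pow_dvd_iff.1 (h2 p) (i + 2 * j) (by omega), fun p => ?_⟩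
      exact CC_comm (w := i - 2) (n := i + c + j) (Gm_anti (by omega) h1) p (h2 p) (by omega)
  exact (key c le_rfl).1

end Y

/-- an exact basis. -/
def BasX (e : Bool → ℕ → J2) : Prop :=
  ∀ p i, e p (i + 2) ∈ Gm (i + 2) ∧
    ∀ q, X ^ (2 * i + 4) ∣ CC q (e p (i + 2)) + if p = q then X ^ (i + 2) else 0

lemma exists_basX : ∃ e, BasX e := by
  have : ∀ p i, ∃ f, f ∈ Gm (i + 2) ∧
      ∀ q, X ^ (2 * i + 4) ∣ CC q f + if p = q then X ^ (i + 2) else 0 := fun p i => by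
    cases p
    · obtain ⟨f, h1, h2, h3, -⟩ := exists_be (i + 2)
      refine ⟨f, h1, fun q => ?_⟩
      cases q
      · have e1 := congrArg od h3
        have e2 := congrArg ev h3
        rw [show (X : R2) ^ (2 * (i + 2) + 1) = 0 ^ 2 + X * (X ^ (i + 2)) ^ 2 by ring] at e1 e2
        rw [od_add, od_one, add_zero, od_mk, ← ps] at e1
        rw [ev_add, ev_one, ev_mk, CharTwo.add_eq_zero, ← ka] at e2
        convert dvd_mul2 (dvd_refl (X ^ (i + 2) : R2)) (dvd_ki (Gm.k' h1)) (l := 2 * i + 4)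
          (by omega) using 1
        simp only [CC, Bool.false_eq_true, if_false, if_true, PP, e1, e2, dl_eq f, h2]
        simp [mul_add]
      · simp [CC, h2]
    · obtain ⟨f, h1, h2, h3, -⟩ := exists_al (w := i + 1) (by omega)
      refine ⟨f, h1, fun q => ?_⟩
      cases q
      · simp [CC, h3]
      · convert dvd_mul2 (dvd_refl (X ^ (i + 2) : R2)) (dvd_ki (Gm.k' h1)) (l := 2 * i + 4)
          (by omega) using 1
        simp [CC, DD, h2, mul_add]
  choose e he using this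
  exact ⟨fun p i => e p (i - 2), he⟩

namespace BasX

variable {e : Bool → ℕ → J2} (B : BasX e)
include B

lemma bas : Bas e 6 := by
  refine ⟨fun p i hi => ?_, fun p i hi => ?_, fun p i hi => ?_⟩ <;>
    obtain ⟨i, rfl⟩ : ∃ v, i = v + 2 := ⟨i - 2, by omega⟩
  · exact (B p i).1
  · simpa [CC] using dvd_mono ((B p i).2 true) (m := i + 2 + 6) (by omega)
  · have := dvd_mono ((B p i).2 false) (m := i + 2 + 6) (by omega)
    cases p <;> simpa [CC] using this

lemma wp (p : Bool) (i : ℕ) (c : ℕ → ZMod 2) (w : ℕ) : wp (e p) (i + 2) c w ∈ Gm (i + 2) ∧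
    ∀ q, X ^ (2 * i + 4) ∣ CC q (P2.wp (e p) (i + 2) c w) +
      if p = q then ∑ k ∈ range w, C (c k) * X ^ (i + 2 + k) else 0 := by
  induction w with
  | zero => exact ⟨one_mem _, fun q => by simp [P2.wp, CC_one]⟩
  | succ w ih =>
    have e1 : i + 2 + w = i + w + 2 := by omega
    have m : e p (i + 2 + w) ∈ Gm (i + 2) := Gm_anti (by omega) (e1 ▸ (B p (i + w)).1)
    refine ⟨mul_mem ih.1 (pow_mem m _), fun q => ?_⟩
    rw [P2.wp, sum_range_succ]
    rcases z2' (c w) with h | h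
    · simpa [h] using ih.2 q
    have h1 := dvd_mono ((B p (i + w)).2 q) (m := 2 * i + 4) (by omega)
    rw [← e1] at h1
    rw [h, ZMod.val_one, pow_one]
    convert dvd_add (CC_add q ih.1 m) (dvd_add (ih.2 q) h1) using 1
    split_ifs <;> [rw [map_one]; skip] <;>
      linear_combination -(CC q (P2.wp (e p) (i + 2) c w) + CC q (e p (i + 2 + w))) * two_R2

theorem win (hy : y⁻¹.ser = X + X ^ 3) {c : ℕ} (hi : 2 * c + 4 ≤ i) (g : J2) (p : Bool) :
    WinG Gm y g (e p) i c (cf2 g p i) := by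
  obtain ⟨i, rfl⟩ : ∃ v, i = v + 2 := ⟨i - 2, by omega⟩
  obtain ⟨m1, h1⟩ := B p i
  obtain ⟨m2, h2⟩ := B.wp p i (cf2 g p (i + 2)) c
  have m3 := (Gm_normal (w := i + 2) (by omega)).conj_mem _ m1 g
  refine yc_gain hy hi (mul_mem m3 (inv_mem m2)) fun q => ?_
  have h3 := dvd_add (dvd_add (dvd_mono (CC_div q m3 m2) (m := i + 2 + c) (by omega))
    (dvd_mono (CC_conj q g m1) (by omega))) (dvd_add (dvd_mono (h2 q) (by omega))
    (dvd_mono ((sb_dvd g⁻¹ (h1 q)).mul_right (uu q g⁻¹)) (by omega)))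
  have e1 : ∀ A B D E F : R2, A + (B + D) + (B + sb g⁻¹ E * uu q g⁻¹) + (D + F +
      sb g⁻¹ (E + if p = q then X ^ (i + 2) else 0) * uu q g⁻¹) =
      A + (sb g⁻¹ (if p = q then X ^ (i + 2) else 0) * uu q g⁻¹ + F) := fun A B D E F => by
    rw [map_add]
    linear_combination (B + D + sb g⁻¹ E * uu q g⁻¹) * two_R2
  rw [e1] at h3
  refine (dvd_add_left ?_).1 h3
  split_ifs with h
  · subst h
    exact trunc_dvd ((sb_dvd g⁻¹ dvd_rfl).mul_right _) c
  · simp

end BasX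

end Pool.Agent.Lib.MP_ffb54b_al.P2
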