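import Pool.Agent.Lib.MP_ffb54b_al.P2.S1L

set_option autoImplicit false
set_option linter.unusedSectionVars false

namespace Pool.Agent.Lib.MP_ffb54b_al.P2

open Finset Filter

universe u

variable {U : Ultrafilter ℕ} {G : ℕ → Type u} [∀ n, Group (G n)] {K : ∀ n, ℕ → Subgroup (G n)}

lemma Inf.succ {ν : Pos U} (h : Inf ν) : Inf (ν + 1) := by simpa using h.add_nat 1

lemma Inf.of_eq {ν μ : Pos U} (h : Inf ν) (c : ℤ) (e : μ = ν + c) : Inf μ := e ▸ h.add_int c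

lemma w2_neg (v : W2) : -v = v := by revert v; decide

lemma w2_add_self (v : W2) : v + v = 0 := by revert v; decide

lemma ww_neg (v : W2 × W2) : -v = v := Prod.ext (w2_neg _) (w2_neg _)

namespace Fam

variable (H : Fam U K) {ν μ κ : Pos U} {a a' k k' p p' q : H.L}

lemma up (ha : a ∈ H.F μ) (c : ℕ) (e : μ = ν + c) : a ∈ H.F ν := H.F_add_nat c (e ▸ ha)

lemma cast (ha : a ∈ H.F μ) (e : μ = ν) : a ∈ H.F ν := e ▸ ha

lemma up1 (ha : a ∈ H.F (ν + 1)) : a ∈ H.F ν := H.F_succ ha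

lemma lie_mem (ha : a ∈ H.F ν) (ha' : a' ∈ H.F μ) : ⁅a, a'⁆ ∈ H.F (ν + μ) := H.pns.lie_mem_F ha ha'

variable (y : ∀ n, G n)

/-- the operator `y - 1`. -/
noncomputable def Y : AddMonoid.End H.L := (H.ρ y : H.L →+ H.L) - AddMonoidHom.id H.L

lemma Y_apply (a : H.L) : H.Y y a = H.ρ y a - a := rfl

lemma Y_succ (j : ℕ) (a : H.L) : (H.Y y ^ (j + 1)) a = H.Y y ((H.Y y ^ j) a) := by
  rw [pow_succ']; rfl

lemma Y_succ' (j : ℕ) (a : H.L) : (H.Y y ^ (j + 1)) a = (H.Y y ^ j) (H.Y y a) := by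
  rw [pow_succ]; rfl

lemma Y_add (i j : ℕ) (a : H.L) : (H.Y y ^ (i + j)) a = (H.Y y ^ i) ((H.Y y ^ j) a) := by
  rw [pow_add]; rfl

lemma Y_lie (a a' : H.L) :
    H.Y y ⁅a, a'⁆ = ⁅H.Y y a, a'⁆ + ⁅a, H.Y y a'⁆ + ⁅H.Y y a, H.Y y a'⁆ := by
  simp only [Y_apply, H.pns.ρ_lie, sub_lie, lie_sub]; abel

/-- elements on which `Y` has slope two. -/
def Ks (ν : Pos U) : AddSubgroup H.L where
  carrier := {a | ∀ j : ℕ, (H.Y y ^ j) a ∈ H.F (ν + 2 * j)}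
  zero_mem' j := by simp
  add_mem' ha hb j := by rw [map_add]; exact add_mem (ha j) (hb j)
  neg_mem' ha j := by rw [map_neg]; exact neg_mem (ha j)

/-- elements that are divisible by `Y` with slope one. -/
def Ps (ν : Pos U) : AddSubgroup H.L where
  carrier := {v | ∀ j : ℕ, ∃ w ∈ H.F (ν - j), (H.Y y ^ j) w = v}
  zero_mem' j := ⟨0, zero_mem _, map_zero _⟩
  add_mem' {a b} ha hb j := by
    obtain ⟨w, hw, e⟩ := ha j
    obtain ⟨w', hw', e'⟩ := hb j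
    exact ⟨w + w', add_mem hw hw', by rw [map_add, e, e']⟩
  neg_mem' {a} ha j := by
    obtain ⟨w, hw, e⟩ := ha j
    exact ⟨-w, neg_mem hw, by rw [map_neg, e]⟩

open Classical in
/-- the `P`-part of a homogeneous element. -/
noncomputable def π (a : H.L) : H.L :=
  if h : ∃ p, ∃ ν, Inf ν ∧ p ∈ H.Ps y ν ∧ a - p ∈ H.Ks y ν then h.choose else 0

variable {H y}

lemma K_F (h : k ∈ H.Ks y ν) : k ∈ H.F ν := by simpa using h 0

lemma P_F (h : p ∈ H.Ps y ν) : p ∈ H.F ν := by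
  obtain ⟨w, hw, e⟩ := h 0
  rw [← e]
  simpa using hw

lemma K_up (h : k ∈ H.Ks y μ) (c : ℕ) (e : μ = ν + c) : k ∈ H.Ks y ν :=
  fun j => H.up (h j) c (by rw [e]; ring)

lemma P_up (h : p ∈ H.Ps y μ) (c : ℕ) (e : μ = ν + c) : p ∈ H.Ps y ν := fun j => by
  obtain ⟨w, hw, e'⟩ := h j
  exact ⟨w, H.up hw c (by rw [e]; ring), e'⟩

lemma K_cast (h : k ∈ H.Ks y μ) (e : μ = ν) : k ∈ H.Ks y ν := e ▸ h

lemma P_cast (h : p ∈ H.Ps y μ) (e : μ = ν) : p ∈ H.Ps y ν := e ▸ h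

lemma K_Y (h : k ∈ H.Ks y ν) : H.Y y k ∈ H.Ks y (ν + 2) := fun j => by
  rw [← Y_succ']
  exact H.cast (h (j + 1)) (by push_cast; ring)

/-- `[K, K] ≤ K`. -/
theorem lie_KK (hk : k ∈ H.Ks y ν) (hk' : k' ∈ H.Ks y μ) : ⁅k, k'⁆ ∈ H.Ks y (ν + μ) := by
  intro j
  induction j generalizing ν μ k k' with
  | zero => simpa using H.lie_mem (K_F hk) (K_F hk')
  | succ j ih =>
    rw [Y_succ', Y_lie, map_add, map_add]
    exact add_mem (add_mem (H.cast (ih (K_Y hk) hk') (by push_cast; ring))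
      (H.cast (ih hk (K_Y hk')) (by push_cast; ring)))
      (H.up (ih (K_Y hk) (K_Y hk')) 2 (by push_cast; ring))

end Fam

namespace S1L

open Fam

variable {H : Fam U K} {x y u : ∀ n, G n} {c : Pos U → H.L → W2 × W2} {σ : Pos U → Bil}
  (S : S1L H x y u c σ) {ν μ κ : Pos U} {a a' k k' p p' q : H.L}
include S

lemma c_deep (hν : Inf ν) (ha : a ∈ H.F (ν + 1)) : c ν a = 0 := (S.zero hν (H.up1 ha)).2 ha

lemma cW_deep (hν : Inf ν) (ha : a ∈ H.F (ν + 1)) : (c ν a).1 = 0 := by rw [S.c_deep hν ha]; rfl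

lemma cZ_deep (hν : Inf ν) (ha : a ∈ H.F (ν + 1)) : (c ν a).2 = 0 := by rw [S.c_deep hν ha]; rfl

lemma mem_succ (hν : Inf ν) (ha : a ∈ H.F ν) (h1 : (c ν a).1 = 0) (h2 : (c ν a).2 = 0) :
    a ∈ H.F (ν + 1) := (S.zero hν ha).1 (Prod.ext h1 h2)

lemma c_zero (hν : Inf ν) : c ν 0 = 0 := S.c_deep hν (zero_mem _)

lemma c_neg (hν : Inf ν) (ha : a ∈ H.F ν) : c ν (-a) = c ν a := by
  have h := S.add hν ha (neg_mem ha)
  rw [add_neg_cancel, S.c_zero hν] at h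
  rw [← ww_neg (c ν a)]
  exact eq_neg_of_add_eq_zero_right h.symm

lemma c_sub (hν : Inf ν) (ha : a ∈ H.F ν) (ha' : a' ∈ H.F ν) : c ν (a - a') = c ν a + c ν a' := by
  rw [sub_eq_add_neg, S.add hν ha (neg_mem ha'), S.c_neg hν ha']

lemma c_congr (hν : Inf ν) (ha : a ∈ H.F ν) (h : a' - a ∈ H.F (ν + 1)) : c ν a' = c ν a := by
  rw [show a' = a + (a' - a) by abel, S.add hν ha (H.up1 h), S.c_deep hν h, add_zero]

lemma c_val (hν : Inf ν) (t : ZMod 2) : c ν (t.val • a) = t • c ν a := by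
  have h : t = 0 ∨ t = 1 := by revert t; decide
  rcases h with rfl | rfl
  · simp [S.c_zero hν]
  · simp [ZMod.val_one]

lemma cW_lie (hν : Inf ν) (hμ : Inf μ) (ha : a ∈ H.F ν) (ha' : a' ∈ H.F μ) :
    (c (ν + μ) ⁅a, a'⁆).1 = 0 := by rw [S.br hν hμ ha ha']

lemma cZ_lie (hν : Inf ν) (hμ : Inf μ) (ha : a ∈ H.F ν) (ha' : a' ∈ H.F μ) :
    (c (ν + μ) ⁅a, a'⁆).2 = σ (ν + μ) (c ν a).1 (c μ a').1 := by rw [S.br hν hμ ha ha']

lemma Y_mem (ha : a ∈ H.F ν) : H.Y y a ∈ H.F (ν + 1) := S.deg _ ha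

lemma Ypow_mem (j : ℕ) (ha : a ∈ H.F ν) : (H.Y y ^ j) a ∈ H.F (ν + j) := by
  induction j with
  | zero => simpa using ha
  | succ j ih => rw [Y_succ]; exact H.cast (S.Y_mem ih) (by push_cast; ring)

lemma cW_Y (hν : Inf ν) (ha : a ∈ H.F ν) : (c (ν + 1) (H.Y y a)).1 = (c ν a).1 := by
  rw [Y_apply, S.yy hν ha]

lemma cZ_Y (hν : Inf ν) (ha : a ∈ H.F ν) : (c (ν + 1) (H.Y y a)).2 = 0 := by
  rw [Y_apply, S.yy hν ha]

lemma cW_Ypow (j : ℕ) (hν : Inf ν) (ha : a ∈ H.F ν) :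
    (c (ν + j) ((H.Y y ^ j) a)).1 = (c ν a).1 := by
  induction j with
  | zero => simp
  | succ j ih =>
    rw [Y_succ, Nat.cast_succ, ← add_assoc, S.cW_Y (hν.add_nat j) (S.Ypow_mem j ha), ih]

lemma Y_gain (hν : Inf ν) (ha : a ∈ H.F ν) (h : (c ν a).1 = 0) : H.Y y a ∈ H.F (ν + 1 + 1) :=
  S.mem_succ hν.succ (S.Y_mem ha) ((S.cW_Y hν ha).trans h) (S.cZ_Y hν ha)

lemma P_Y (h : p ∈ H.Ps y ν) : H.Y y p ∈ H.Ps y (ν + 1) := fun j => by
  obtain ⟨w, hw, e⟩ := h j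
  exact ⟨H.Y y w, H.cast (S.Y_mem hw) (by ring), by rw [← Y_succ', Y_succ, e]⟩

lemma K_cW (hν : Inf ν) (h : k ∈ H.Ks y ν) : (c ν k).1 = 0 := by
  rw [← S.cW_Y hν (K_F h)]
  exact S.cW_deep hν.succ (H.cast (K_F (K_Y h)) (by ring))

lemma P_cZ (hν : Inf ν) (h : p ∈ H.Ps y ν) : (c ν p).2 = 0 := by
  obtain ⟨w, hw, e⟩ := h 1
  have := S.cZ_Y (hν.sub_nat 1) hw
  rwa [Nat.cast_one, sub_add_cancel, ← pow_one (H.Y y), e] at this

lemma P_succ (hν : Inf ν) (h : p ∈ H.Ps y ν) (h0 : (c ν p).1 = 0) : p ∈ H.Ps y (ν + 1) :=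
  fun j => by
  obtain ⟨w, hw, e⟩ := h (j + 1)
  have h1 := S.cW_Ypow (j + 1) (hν.sub_nat (j + 1)) hw
  rw [sub_add_cancel, e, h0] at h1
  exact ⟨H.Y y w, H.cast (S.Y_gain (hν.sub_nat (j + 1)) hw h1.symm) (by push_cast; ring),
    by rw [← Y_succ', e]⟩

lemma P_of_F (hν : Inf ν) (h : p ∈ H.Ps y ν) (d : ℕ) (hc : p ∈ H.F (ν + d)) :
    p ∈ H.Ps y (ν + d) := by
  induction d with
  | zero => simpa using h
  | succ d ih =>
    rw [Nat.cast_succ, ← add_assoc] at hc ⊢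
    exact S.P_succ (hν.add_nat d) (ih (H.up1 hc)) (S.cW_deep (hν.add_nat d) hc)

lemma KP_disj (hν : Inf ν) (hk : a ∈ H.Ks y ν) (hp : a ∈ H.Ps y ν) : a = 0 := by
  have h : ∀ d : ℕ, a ∈ H.Ps y (ν + d) := fun d => by
    induction d with
    | zero => simpa using hp
    | succ d ih =>
      rw [Nat.cast_succ, ← add_assoc]
      refine S.P_succ (hν.add_nat d) ih ?_
      rw [← S.cW_Ypow (d + 1) (hν.add_nat d) (P_F ih)]
      exact S.cW_deep ((hν.add_nat d).add_nat _) (H.cast (hk (d + 1)) (by push_cast; ring))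
  exact H.pns.F_sep fun d => P_F (h d)

/-- limits of approximately divisible elements are divisible. -/
lemma P_lim (z : ℕ → H.L) (h1 : ∀ d : ℕ, ∀ᶠ t in hyperfilter ℕ, p - z t ∈ H.F (ν + d))
    (h2 : ∀ j : ℕ, ∀ᶠ t in hyperfilter ℕ, ∃ w ∈ H.F (ν - j), (H.Y y ^ j) w = z t) :
    p ∈ H.Ps y ν := fun j => by
  have h3 : ∀ t, ∃ w, (∃ w ∈ H.F (ν - j), (H.Y y ^ j) w = z t) →
      w ∈ H.F (ν - j) ∧ (H.Y y ^ j) w = z t := fun t => by
    by_cases h : ∃ w ∈ H.F (ν - j), (H.Y y ^ j) w = z t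
    exacts [h.imp fun _ h _ => h, ⟨0, fun h' => (h h').elim⟩]
  choose w hw using h3
  have h4 := (h2 j).mono hw
  obtain ⟨b, hb⟩ := S.compact (hyperfilter ℕ) w (h4.mono fun _ h => h.1)
  refine ⟨b, ?_, sub_eq_zero.1 (H.pns.F_sep (ν := ν) fun d => ?_)⟩
  · obtain ⟨t, h5, h6⟩ := ((hb 0).and h4).exists
    simpa using add_mem (H.up h5 0 rfl) h6.1
  · obtain ⟨t, h5, h6, h7⟩ := ((hb d).and (h4.and (h1 d))).exists
    have h8 := S.Ypow_mem j h5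
    rw [map_sub, h6.2] at h8
    simpa using sub_mem (H.cast h8 (by ring)) h7

lemma exists_P (hν : Inf ν) (v : W2) : ∃ p ∈ H.Ps y ν, (c ν p).1 = v := by
  choose w hw e using fun t : ℕ => S.surj (hν.sub_nat t) (v, 0) fun _ => rfl
  have hz : ∀ t : ℕ, (H.Y y ^ t) (w t) ∈ H.F ν := fun t => H.cast (S.Ypow_mem t (hw t)) (by ring)
  obtain ⟨p, hp⟩ := S.compact (hyperfilter ℕ) (fun t => (H.Y y ^ t) (w t)) (.of_forall hz)
  refine ⟨p, S.P_lim _ hp fun j => (free_hyper j).mono fun t ht => ?_, ?_⟩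
  · obtain ⟨i, rfl⟩ := Nat.exists_eq_add_of_le ht
    exact ⟨_, H.cast (S.Ypow_mem i (hw _)) (by push_cast; ring), (H.Y_add y j i _).symm⟩
  · obtain ⟨t, ht⟩ := (hp 1).exists
    rw [S.c_congr hν (hz t) (by simpa using ht)]
    have := S.cW_Ypow t (hν.sub_nat t) (hw t)
    rwa [sub_add_cancel, e] at this

/-- Fitting decomposition. -/
theorem decomp (hν : Inf ν) (ha : a ∈ H.F ν) : ∃ k ∈ H.Ks y ν, ∃ p ∈ H.Ps y ν, a = k + p := by
  have step : ∀ (j : ℕ) (z : H.L), (H.Y y ^ j) z ∈ H.F (ν + 2 * j) → ∃ v ∈ H.Ps y (ν + j),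
      (H.Y y ^ (j + 1)) (z - v) ∈ H.F (ν + 2 * (j + 1 : ℕ)) := by
    intro j z hz
    have hj : Inf (ν + 2 * j) := hν.of_eq (2 * j) (by push_cast; ring)
    obtain ⟨v, hv, e⟩ := S.exists_P (hν.add_nat j) (c (ν + 2 * j) ((H.Y y ^ j) z)).1
    have h1 := S.cW_Ypow j (hν.add_nat j) (P_F hv)
    have h2 := S.Ypow_mem j (P_F hv)
    rw [show ν + j + j = ν + 2 * j by ring] at h1 h2
    refine ⟨v, hv, ?_⟩
    rw [Y_succ, map_sub]
    refine H.cast (S.Y_gain hj (sub_mem hz h2) ?_) (by push_cast; ring)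
    rw [S.c_sub hj hz h2, Prod.fst_add, h1, e, w2_add_self]
  choose! v hv hv' using step
  let z : ℕ → H.L := fun n => Nat.rec a (fun j z => z - v j z) n
  have hz : ∀ n : ℕ, (H.Y y ^ n) (z n) ∈ H.F (ν + 2 * n) := fun n => by
    induction n with
    | zero => simpa [z] using ha
    | succ n ih => exact hv' n _ ih
  have hz' : ∀ n, a - z n ∈ H.Ps y ν := fun n => by
    induction n with
    | zero => simp [z]
    | succ n ih =>
      have e : a - z (n + 1) = a - z n + v n (z n) := by simp only [z]; abel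
      exact e ▸ add_mem ih (P_up (hv n _ (hz n)) n rfl)
  obtain ⟨s, hs⟩ := H.cauchy (ν := ν) (fun n => a - z n) (by simp [z]) fun n => by
    have e : a - z (n + 1) - (a - z n) = v n (z n) := by simp only [z]; abel
    exact e ▸ P_F (hv n _ (hz n))
  refine ⟨a - s, fun j => ?_, s, S.P_lim (fun n => a - z n) (fun d => (free_hyper d).mono
    fun t ht => H.F_anti_nat ht (hs t)) fun j => .of_forall fun t => hz' t j, by abel⟩
  have h1 := sub_mem (hz j) (H.cast (S.Ypow_mem j (hs j)) (by ring))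
  rw [← map_sub] at h1
  convert h1 using 2
  abel

lemma K_succ (hν : Inf ν) (h : k ∈ H.Ks y ν) (h1 : k ∈ H.F (ν + 1)) : k ∈ H.Ks y (ν + 1) := by
  obtain ⟨k', hk', p, hp, e⟩ := S.decomp hν.succ h1
  have h0 : p = 0 := S.KP_disj hν (by
    rw [show p = k - k' by rw [e]; abel]
    exact sub_mem h (K_up hk' 1 (by simp))) (P_up hp 1 (by simp))
  rwa [e, h0, add_zero]

lemma K_of_F (hν : Inf ν) (h : k ∈ H.Ks y ν) (d : ℕ) (hc : k ∈ H.F (ν + d)) : k ∈ H.Ks y (ν + d) := by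
  induction d with
  | zero => simpa using h
  | succ d ih =>
    rw [Nat.cast_succ, ← add_assoc] at hc ⊢
    exact S.K_succ (hν.add_nat d) (ih (H.up1 hc)) hc

lemma K_succ' (hν : Inf ν) (h : k ∈ H.Ks y ν) (h0 : (c ν k).2 = 0) : k ∈ H.Ks y (ν + 1) :=
  S.K_succ hν h (S.mem_succ hν (K_F h) (S.K_cW hν h) h0)

lemma K_even (hν : Inf ν) (h : k ∈ H.Ks y ν) (h0 : red 2 ν = 0) : k ∈ H.Ks y (ν + 1) :=
  S.K_succ' hν h (S.even hν h0 (K_F h))

lemma KP_sep (hν : Inf ν) (hk : k ∈ H.Ks y ν) (hp : p ∈ H.Ps y ν) (d : ℕ) (h : k + p ∈ H.F (ν + d)) :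
    k ∈ H.Ks y (ν + d) ∧ p ∈ H.Ps y (ν + d) := by
  obtain ⟨k', hk', p', hp', e⟩ := S.decomp (hν.add_nat d) h
  have h0 : k - k' = 0 := S.KP_disj hν (sub_mem hk (K_up hk' d rfl)) (by
    rw [show k - k' = p' - p by rw [sub_eq_sub_iff_add_eq_add, e]; abel]
    exact sub_mem (P_up hp' d rfl) hp)
  rw [sub_eq_zero] at h0
  subst h0
  rw [add_right_inj] at e
  exact ⟨hk', e ▸ hp'⟩

lemma P_div (hν : Inf ν) (hp : p ∈ H.Ps y (ν + 1)) : ∃ p' ∈ H.Ps y ν, H.Y y p' = p := by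
  obtain ⟨w, hw, e⟩ := hp 1
  obtain ⟨k, hk, p', hp', rfl⟩ := S.decomp hν (H.cast hw (by simp))
  rw [pow_one, map_add] at e
  have h0 : H.Y y k = 0 := S.KP_disj hν.succ (K_up (K_Y hk) 1 (by push_cast; ring)) (by
    rw [show H.Y y k = p - H.Y y p' by rw [← e]; abel]
    exact sub_mem hp (S.P_Y hp'))
  exact ⟨p', hp', by rw [← e, h0, zero_add]⟩

lemma π_eq (hν : Inf ν) (hk : k ∈ H.Ks y ν) (hp : p ∈ H.Ps y ν) : H.π y (k + p) = p := by
  have h : ∃ p', ∃ ν, Inf ν ∧ p' ∈ H.Ps y ν ∧ k + p - p' ∈ H.Ks y ν := ⟨p, ν, hν, hp, by simpa using hk⟩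
  rw [Fam.π, dif_pos h]
  obtain ⟨μ, hμ, h1, h2⟩ := h.choose_spec
  generalize h.choose = p' at h1 h2
  have key : ∀ {ν μ : Pos U} {k p k' p' : H.L}, Inf ν → k ∈ H.Ks y ν → p ∈ H.Ps y ν → k' ∈ H.Ks y μ →
      p' ∈ H.Ps y μ → k + p = k' + p' → ∀ d : ℕ, μ = ν + d → p = p' := by
    intro ν μ k p k' p' hν hk hp hk' hp' e c hc
    refine sub_eq_zero.1 (S.KP_disj hν ?_ (sub_mem hp (P_up hp' c hc)))
    rw [show p - p' = k' - k by rw [sub_eq_sub_iff_add_eq_add, add_comm, e]]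
    exact sub_mem (K_up hk' c hc) hk
  by_cases hn : Near ν μ
  · obtain ⟨c, hc⟩ := hn
    obtain ⟨c, rfl | rfl⟩ := c.eq_nat_or_neg
    · exact (key hν hk hp h2 h1 (by abel) c (by simpa using hc)).symm
    · exact key hμ h2 h1 hk hp (by abel) c (by rw [hc]; simp)
  · have h0 : k + p = 0 := H.pns.F_far hn (add_mem (K_F hk) (P_F hp))
      (by simpa using add_mem (K_F h2) (P_F h1))
    have e1 : p = 0 := S.KP_disj hν (by rw [eq_neg_of_add_eq_zero_right h0]; exact neg_mem hk) hp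
    have e2 : p' = 0 := S.KP_disj hμ (by rw [h0, zero_sub] at h2; simpa using neg_mem h2) h1
    rw [e1, e2]

lemma π_spec (hν : Inf ν) (ha : a ∈ H.F ν) : H.π y a ∈ H.Ps y ν ∧ a - H.π y a ∈ H.Ks y ν := by
  obtain ⟨k, hk, p, hp, rfl⟩ := S.decomp hν ha
  rw [S.π_eq hν hk hp]
  exact ⟨hp, by simpa using hk⟩

lemma π_P (hν : Inf ν) (hp : p ∈ H.Ps y ν) : H.π y p = p := by
  simpa using S.π_eq hν (zero_mem _) hp

lemma π_K (hν : Inf ν) (hk : k ∈ H.Ks y ν) : H.π y k = 0 := by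
  simpa using S.π_eq hν hk (zero_mem _)

lemma π_add (hν : Inf ν) (ha : a ∈ H.F ν) (ha' : a' ∈ H.F ν) : H.π y (a + a') = H.π y a + H.π y a' := by
  have h1 := S.π_spec hν ha
  have h2 := S.π_spec hν ha'
  rw [← S.π_eq hν (add_mem h1.2 h2.2) (add_mem h1.1 h2.1)]
  congr 1; abel

lemma π_neg (hν : Inf ν) (ha : a ∈ H.F ν) : H.π y (-a) = -H.π y a := by
  have h1 := S.π_spec hν ha
  rw [← S.π_eq hν (neg_mem h1.2) (neg_mem h1.1)]
  congr 1; abel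

lemma π_sub (hν : Inf ν) (ha : a ∈ H.F ν) (ha' : a' ∈ H.F ν) : H.π y (a - a') = H.π y a - H.π y a' := by
  rw [sub_eq_add_neg, S.π_add hν ha (neg_mem ha'), S.π_neg hν ha', sub_eq_add_neg]

lemma π_Y (hν : Inf ν) (ha : a ∈ H.F ν) : H.π y (H.Y y a) = H.Y y (H.π y a) := by
  have h1 := S.π_spec hν ha
  rw [← S.π_eq hν.succ (K_up (K_Y h1.2) 1 (by push_cast; ring)) (S.P_Y h1.1), ← map_add]
  congr 2; abel

lemma cW_π (hν : Inf ν) (ha : a ∈ H.F ν) : (c ν (H.π y a)).1 = (c ν a).1 := by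
  have h1 := S.π_spec hν ha
  have h2 := congrArg Prod.fst (S.add hν (K_F h1.2) (P_F h1.1))
  rw [sub_add_cancel, Prod.fst_add, S.K_cW hν h1.2, zero_add] at h2
  exact h2.symm

lemma K_of_π (hν : Inf ν) (ha : a ∈ H.F ν) (h : ∀ d : ℕ, H.π y a ∈ H.F (ν + d)) : a ∈ H.Ks y ν := by
  have h1 := (S.π_spec hν ha).2
  rwa [H.pns.F_sep h, sub_zero] at h1

lemma P_of_π (hν : Inf ν) (ha : a ∈ H.F ν) (h : ∀ d : ℕ, a - H.π y a ∈ H.F (ν + d)) :
    a ∈ H.Ps y ν := by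
  rw [sub_eq_zero.1 (H.pns.F_sep h)]
  exact (S.π_spec hν ha).1

end S1L

end Pool.Agent.Lib.MP_ffb54b_al.P2
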