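import Pool.Agent.Lib.MP_ffb54b_al.P2.Tc

set_option autoImplicit false

namespace Pool.Agent.Lib.MP_ffb54b_al.P2

universe u

variable {U : Ultrafilter ℕ} {G : ℕ → Type u} [∀ n, Group (G n)] {K : ∀ n, ℕ → Subgroup (G n)}

/-- The truncated Killing form on the galaxy of `ν₀`. -/
structure KForm (H : Fam U K) (y : ∀ n, G n) (c : Pos U → H.L → W2 × W2) (e d : ℕ) (ν₀ n : Pos U)
    {B : Type} [AddCommGroup B] (β : H.L →+ H.L →+ B) : Prop where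
  inf : Inf ν₀
  near : Near (ν₀ + ν₀) n
  symm : ∀ a b, β a b = β b a
  inv : ∀ g a b, β (H.ρ g a) (H.ρ g b) = β a b
  top : ∀ {i j : Pos U} {a b : H.L}, Near ν₀ i → Near ν₀ j → a ∈ H.F i → b ∈ H.F j → n < i + j →
    β a b = 0
  two : ∀ {i j : Pos U} {a b : H.L}, Near ν₀ i → Near ν₀ j → a ∈ H.F i → b ∈ H.F j →
    n < i + j + d → β a b + β a b = 0
  KP : ∀ {i j : Pos U} {k p : H.L}, Near ν₀ i → Near ν₀ j → k ∈ H.Ks y i → p ∈ H.Ps y j → β k p = 0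
  KK : ∀ {i j : Pos U} {k k' : H.L}, Near ν₀ i → Near ν₀ j → k ∈ H.Ks y i → k' ∈ H.Ks y j →
    n < i + j + e → β k k' = 0
  ne : ∃ (i j : Pos U) (p q : H.L), Near ν₀ i ∧ Near ν₀ j ∧ i + j = n ∧ p ∈ H.Ps y i ∧
    q ∈ H.Ps y j ∧ β p q ≠ 0
  bb : ∀ {i j : Pos U} {p q : H.L}, Near ν₀ i → Near ν₀ j → i + j = n → p ∈ H.Ps y i →
    q ∈ H.Ps y j → (c i p).1 = ee false → (c j q).1 = ee false → β p q = 0

end Pool.Agent.Lib.MP_ffb54b_al.P2
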