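import Mathlib

set_option autoImplicit false
set_option linter.unusedSectionVars false

namespace Pool.Agent.Lib.MP_ffb54b_al.P2

open Finset

variable {A : Type*} [AddCommGroup A]

/-- A complete filtration with finite factors on which `2` is bijective of degree `d`. -/
structure TF (F : ℤ → AddSubgroup A) (d : ℕ) : Prop where
  pos : 1 ≤ d
  anti : Antitone F
  sep : ∀ {a : A}, (∀ i, a ∈ F i) → a = 0
  exh : ∀ a : A, ∃ i, a ∈ F i
  complete : ∀ (i : ℤ) (z : ℕ → A), (∀ c : ℕ, z c ∈ F (i + c)) →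
    ∃ y, ∀ c : ℕ, y - ∑ j ∈ range c, z j ∈ F (i + c)
  fin : ∀ i, ∃ s : Finset A, (∀ b ∈ s, b ∈ F i) ∧ ∀ a ∈ F i, ∃ b ∈ s, a - b ∈ F (i + 1)
  two : ∀ {i : ℤ} {a : A}, a ∈ F i → 2 • a ∈ F (i + d)
  inj : ∀ {i : ℤ} {a : A}, a ∈ F i → 2 • a ∈ F (i + d + 1) → a ∈ F (i + 1)
  surj : ∀ {i : ℤ} {b : A}, b ∈ F (i + d) → ∃ a ∈ F i, b - 2 • a ∈ F (i + d + 1)

namespace TF

variable {F : ℤ → AddSubgroup A} {d : ℕ} (h : TF F d) {i j : ℤ} {a b : A}
include h

lemma mono (ha : a ∈ F i) (hj : j ≤ i) : a ∈ F j := h.anti hj ha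

lemma sep' (H : ∀ c : ℕ, a ∈ F (i + c)) : a = 0 :=
  h.sep fun j => h.mono (H (j - i).toNat) (by omega)

lemma pow (ha : a ∈ F i) {n : ℕ} {m : ℤ} (hm : (2 : ℤ) ^ n ∣ m) : m • a ∈ F (i + n) := by
  obtain ⟨m, rfl⟩ := hm
  rw [mul_comm, mul_smul]
  refine zsmul_mem ?_ _
  have := h.pos
  induction n with
  | zero => simpa using ha
  | succ n ih =>
    rw [pow_succ', mul_smul]
    have := h.mono (h.two ih) (show i + (n + 1 : ℕ) ≤ i + n + d by push_cast; omega)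
    rwa [← natCast_zsmul] at this

lemma two_inj (H : 2 • a = 0) : a = 0 := by
  obtain ⟨i, hi⟩ := h.exh a
  refine h.sep' (i := i) fun c => ?_
  induction c with
  | zero => simpa using hi
  | succ c ih =>
    rw [Nat.cast_succ, ← add_assoc]
    exact h.inj ih (H ▸ zero_mem _)

lemma two_surj (hb : b ∈ F (i + d)) : ∃ a ∈ F i, 2 • a = b := by
  have step : ∀ k : ℤ, ∀ b ∈ F (k + d), ∃ x, x ∈ F k ∧ b - 2 • x ∈ F (k + 1 + d) := by
    intro k b hb
    rw [add_right_comm]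
    exact h.surj hb
  choose! f hf using step
  let r : ℕ → A := fun c => Nat.rec b (fun c x => x - 2 • f (i + c) x) c
  have hr : ∀ c : ℕ, r c ∈ F (i + c + d) := fun c => by
    induction c with
    | zero => simpa [r] using hb
    | succ c ih => rw [Nat.cast_succ, ← add_assoc]; exact (hf _ _ ih).2
  obtain ⟨y, hy⟩ := h.complete i (fun c => f (i + c) (r c)) fun c => (hf _ _ (hr c)).1
  refine ⟨y, by simpa using hy 0, sub_eq_zero.1 (h.sep' (i := i + d) fun c => ?_)⟩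
  have e : ∀ c, b - 2 • ∑ j ∈ range c, f (i + j) (r j) = r c := fun c => by
    induction c with
    | zero => simp [r]
    | succ c ih => rw [sum_range_succ, smul_add, ← sub_sub, ih]
  have := sub_mem (h.two (hy c)) (hr c)
  rw [← e c, smul_sub, sub_sub, add_sub_cancel] at this
  exact h.mono this (by omega)

omit h in
lemma appr (z : ℤ_[2]) (n : ℕ) : (2 : ℤ_[2]) ^ n ∣ z - (z.appr n : ℤ) := by
  simpa using Ideal.mem_span_singleton.1 (z.appr_spec n)

omit h in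
lemma dvd_of {z : ℤ_[2]} {n : ℕ} {m m' : ℤ} (h : (2 : ℤ_[2]) ^ n ∣ z - m)
    (h' : (2 : ℤ_[2]) ^ n ∣ z - m') : (2 : ℤ) ^ n ∣ m' - m := by
  have := (PadicInt.pow_p_dvd_int_iff (p := 2) n (m' - m)).1 (by simpa using dvd_sub h h')
  simpa using this

lemma modZ : ∃ _ : Module ℤ_[2] A,
    ∀ (z : ℤ_[2]) (n : ℕ) (m : ℤ) {i : ℤ} {a : A}, (2 : ℤ_[2]) ^ n ∣ z - m → a ∈ F i →
      z • a - m • a ∈ F (i + n) := by
  have ex : ∀ (z : ℤ_[2]) (a : A), ∃ y, ∀ (n : ℕ) (m : ℤ) {i : ℤ}, (2 : ℤ_[2]) ^ n ∣ z - m →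
      a ∈ F i → y - m • a ∈ F (i + n) := by
    intro z a
    obtain ⟨i₀, h₀⟩ := h.exh a
    obtain ⟨y, hy⟩ := h.complete i₀ (fun c => (z.appr (c + 1) : ℤ) • a - (z.appr c : ℤ) • a)
      fun c => by
        rw [← sub_smul]
        exact h.pow h₀ (dvd_of (appr z c) ((pow_dvd_pow _ c.le_succ).trans (appr z _)))
    simp only [sum_range_sub fun c => (z.appr c : ℤ) • a] at hy
    refine ⟨y + (z.appr 0 : ℤ) • a, fun n m i hm ha => ?_⟩
    have := add_mem (h.mono (hy (n + (i - i₀).toNat)) (show i + n ≤ _ by push_cast; omega))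
      (h.pow ha (dvd_of hm ((pow_dvd_pow _ (Nat.le_add_right n (i - i₀).toNat)).trans
        (appr z _))))
    convert this using 1
    rw [sub_smul]; abel
  choose s hs using ex
  let _ : SMul ℤ_[2] A := ⟨s⟩
  refine ⟨Module.ofMinimalAxioms (fun z a b => ?_) (fun z w a => ?_) (fun z w a => ?_) fun a => ?_,
    fun z n m i a => hs z a n m⟩ <;> obtain ⟨i, hi⟩ := h.exh a
  · obtain ⟨j, hj⟩ := h.exh b
    have h1 := h.mono hi (min_le_left i j)
    have h2 := h.mono hj (min_le_right i j)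
    refine sub_eq_zero.1 (h.sep' (i := min i j) fun c => ?_)
    convert sub_mem (sub_mem (hs z _ c _ (appr z c) (add_mem h1 h2))
      (hs z _ c _ (appr z c) h1)) (hs z _ c _ (appr z c) h2) using 1
    rw [smul_add]; change s _ _ - (s _ _ + s _ _) = _; abel
  · refine sub_eq_zero.1 (h.sep' (i := i) fun c => ?_)
    convert sub_mem (sub_mem (hs (z + w) _ c (z.appr c + w.appr c)
      (by convert dvd_add (appr z c) (appr w c) using 1; push_cast; ring) hi)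
      (hs z _ c _ (appr z c) hi)) (hs w _ c _ (appr w c) hi) using 1
    rw [add_smul]; change s _ _ - (s _ _ + s _ _) = _; abel
  · refine sub_eq_zero.1 (h.sep' (i := i) fun c => ?_)
    have h1 : s w a ∈ F i := by simpa using hs w a 0 0 (by simp) hi
    convert sub_mem (sub_mem (hs (z * w) _ c (z.appr c * w.appr c)
      (by convert dvd_add ((appr z c).mul_right w) ((appr w c).mul_left (z.appr c : ℤ))
            using 1; push_cast; ring) hi)
      (hs z _ c _ (appr z c) h1)) (zsmul_mem (hs w _ c _ (appr w c) hi) (z.appr c : ℤ))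
      using 1
    rw [mul_smul, smul_sub]; change s _ _ - s _ (s _ _) = _; abel
  · refine sub_eq_zero.1 (h.sep' (i := i) fun c => ?_)
    have := hs 1 a c 1 (by simp) hi
    rw [one_smul] at this
    exact this

lemma reps (t : ℕ) : ∃ s : Finset A, (∀ b ∈ s, b ∈ F 0) ∧ ∀ a ∈ F 0, ∃ b ∈ s, a - b ∈ F t := by
  classical
  induction t with
  | zero => exact ⟨{0}, by simp, fun a ha => ⟨0, by simp, by simpa using ha⟩⟩
  | succ t ih =>
    obtain ⟨s, h1, h2⟩ := ih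
    obtain ⟨s', h3, h4⟩ := h.fin t
    refine ⟨image₂ (· + ·) s s', fun b hb => ?_, fun a ha => ?_⟩
    · obtain ⟨x, hx, y, hy, rfl⟩ := mem_image₂.1 hb
      exact add_mem (h1 x hx) (h.mono (h3 y hy) (by omega))
    · obtain ⟨x, hx, e⟩ := h2 a ha
      obtain ⟨y, hy, e'⟩ := h4 _ e
      exact ⟨x + y, mem_image₂_of_mem hx hy, by rwa [← sub_sub, Nat.cast_succ]⟩

lemma gen [Module ℤ_[2] A] (hs : ∀ (z : ℤ_[2]) (n : ℕ) (m : ℤ) {i : ℤ} {a : A},
      (2 : ℤ_[2]) ^ n ∣ z - m → a ∈ F i → z • a - m • a ∈ F (i + n)) :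
    ∃ s : Finset A, ∀ a ∈ F 0, ∃ c : A → ℤ_[2], a = ∑ j ∈ s, c j • j := by
  classical
  obtain ⟨t, ht, ht'⟩ := h.reps d
  refine ⟨t, fun a ha => ?_⟩
  have step : ∀ r ∈ F 0, ∃ (m : A → ℤ) (r' : A), r' ∈ F 0 ∧
      r = ∑ j ∈ t, m j • j + (2 : ℤ) • r' := by
    intro r hr
    obtain ⟨b, hb, e⟩ := ht' r hr
    obtain ⟨r', h1, h2⟩ := h.two_surj (i := 0) (by rwa [zero_add])
    refine ⟨Pi.single b 1, r', h1, ?_⟩
    rw [sum_eq_single b (fun j _ hj => by simp [hj]) (fun hb' => (hb' hb).elim),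
      ← sub_eq_iff_eq_add', Pi.single_eq_same, one_smul, ← h2]
    exact (natCast_zsmul r' 2).symm
  choose! g s hg using step
  have h1 : ∀ n, s^[n] a ∈ F 0 := fun n => by
    induction n with
    | zero => exact ha
    | succ n ih => rw [Function.iterate_succ_apply']; exact (hg _ ih).1
  set c : A → ℕ → ℤ := fun j n => ∑ k ∈ range n, 2 ^ k * g (s^[k] a) j with hc
  have h2 : ∀ n, a = ∑ j ∈ t, c j n • j + (2 : ℤ) ^ n • s^[n] a := fun n => by
    induction n with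
    | zero => simp [hc]
    | succ n ih =>
      rw [(hg _ (h1 n)).2, smul_add, ← add_assoc, smul_sum, ← sum_add_distrib, smul_smul] at ih
      simp only [hc, sum_range_succ, add_smul, mul_smul, Function.iterate_succ_apply',
        pow_succ] at ih ⊢
      exact ih
  have h4 : ∀ j, ∃ L : ℤ_[2], ∀ n, (2 : ℤ_[2]) ^ n ∣ L - c j n := fun j => by
    have := (inferInstance : IsPrecomplete (IsLocalRing.maximalIdeal ℤ_[2]) ℤ_[2]).prec
      (f := fun n => (c j n : ℤ_[2]))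
    simp only [smul_eq_mul, Ideal.mul_top, SModEq.sub_mem, PadicInt.maximalIdeal_eq_span_p,
      Ideal.span_singleton_pow, Ideal.mem_span_singleton, Nat.cast_ofNat] at this
    obtain ⟨L, hL⟩ := this fun {m n} hmn => by
      rw [dvd_sub_comm, ← Int.cast_sub, hc]
      simp only
      rw [← sum_Ico_eq_sub _ hmn]
      push_cast
      exact dvd_sum fun k hk => (pow_dvd_pow _ (mem_Ico.1 hk).1).mul_right _
    exact ⟨L, fun n => dvd_sub_comm.1 (hL n)⟩
  choose L hL using h4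
  refine ⟨L, sub_eq_zero.1 (h.sep' (i := 0) fun n => ?_)⟩
  have := sub_mem (h.pow (h1 n) (dvd_refl ((2 : ℤ) ^ n)))
    (sum_mem (t := t) fun j hj => hs _ n _ (hL j n) (ht j hj))
  convert this using 1
  rw [sum_sub_distrib]
  nth_rewrite 1 [h2 n]
  abel

lemma modQ : ∃ _ : Module ℚ_[2] A, (∀ (f : A →+ A) (e : ℤ),
      (∀ i, ∀ a ∈ F i, f a ∈ F (i + e)) → ∀ (t : ℚ_[2]) a, f (t • a) = t • f a) ∧
      ∃ s : Finset A, ∀ a ∈ F 0, ∃ c : A → ℤ_[2], a = ∑ j ∈ s, (c j : ℚ_[2]) • j := by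
  obtain ⟨_, hs⟩ := h.modZ
  have u3 : IsUnit ((2 : ℕ) : Module.End ℤ_[2] A) := by
    rw [Module.End.isUnit_iff]
    refine ⟨(injective_iff_map_eq_zero _).2 fun a => h.two_inj, fun b => ?_⟩
    obtain ⟨i, hi⟩ := h.exh b
    obtain ⟨a, -, ha⟩ := h.two_surj (i := i - d) (by rwa [sub_add_cancel])
    exact ⟨a, ha⟩
  have : IsLocalizedModule (nonZeroDivisors ℤ_[2]) (LinearMap.id : A →ₗ[ℤ_[2]] A) := by
    refine ⟨fun x => ?_, fun y => ⟨(y, 1), by simp⟩, fun h => ⟨1, by simpa using h⟩⟩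
    rw [PadicInt.unitCoeff_spec (nonZeroDivisors.coe_ne_zero x), map_mul, map_pow, map_natCast]
    exact ((Units.isUnit _).map _).mul (u3.pow _)
  let _ : Module ℚ_[2] A := IsLocalizedModule.module (nonZeroDivisors ℤ_[2]) LinearMap.id
  have : IsScalarTower ℤ_[2] ℚ_[2] A :=
    IsLocalizedModule.isScalarTower_module (nonZeroDivisors ℤ_[2]) LinearMap.id
  refine ⟨inferInstance, fun f e hf t a => ?_, ?_⟩
  · have := IsLocalization.linearMap_compatibleSMul (nonZeroDivisors ℤ_[2]) ℚ_[2] A A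
    refine LinearMap.map_smul_of_tower (S := ℤ_[2]) ⟨f.toAddHom, fun z a => ?_⟩ t a
    obtain ⟨i, hi⟩ := h.exh a
    refine sub_eq_zero.1 (h.sep' (i := i + e) fun c => ?_)
    have h1 := hf _ _ (hs z c _ (appr z c) hi)
    rw [map_sub, map_zsmul, add_right_comm] at h1
    simpa using sub_mem h1 (hs z c _ (appr z c) (hf _ _ hi))
  · obtain ⟨s, hs'⟩ := h.gen hs
    refine ⟨s, fun a ha => ?_⟩
    obtain ⟨c, hc⟩ := hs' a ha
    exact ⟨c, hc.trans (sum_congr rfl fun j _ => (algebraMap_smul ℚ_[2] (c j) _).symm)⟩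

lemma zpow [Module ℚ_[2] A] (ha : a ∈ F i) (q : ℤ) : (2 : ℚ_[2]) ^ q • a ∈ F (i + q * d) := by
  have e : ∀ x : A, (2 : ℚ_[2]) • x = 2 • x := fun x => Nat.cast_smul_eq_nsmul ℚ_[2] 2 x
  induction q using Int.induction_on with
  | zero => simpa using ha
  | succ q ih =>
    rw [zpow_add_one₀ (by norm_num), mul_comm _ (2 : ℚ_[2]), mul_smul, e, add_mul, one_mul, ← add_assoc]
    exact h.two ih
  | pred q ih =>
    obtain ⟨x, h1, h2⟩ := h.two_surj (i := i + (-q - 1) * d) (h.mono ih (by ring_nf; rfl))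
    rwa [zpow_sub_one₀ (by norm_num), mul_comm _ (2 : ℚ_[2])⁻¹, mul_smul, ← h2, ← e,
      inv_smul_smul₀ (by norm_num)]

end TF

/-- A filtered Lie ring with a group of automorphisms and a bracket that is not nilpotent. -/
structure TL {Γ : Type*} [Group Γ] (F : ℤ → AddSubgroup A) (μ : A →+ A →+ A)
    (ρ : Γ → A →+ A) : Prop where
  mem : ∀ {i j : ℤ} {a b : A}, a ∈ F i → b ∈ F j → μ a b ∈ F (i + j)
  self : ∀ a, μ a a = 0
  leib : ∀ a b c, μ a (μ b c) = μ (μ a b) c + μ b (μ a c)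
  ρ_mem : ∀ (g : Γ) {i : ℤ} {a : A}, a ∈ F i → ρ g a ∈ F i
  ρ_inv : ∀ (g : Γ) (a : A), ρ g⁻¹ (ρ g a) = a
  ρ_lie : ∀ g a b, ρ g (μ a b) = μ (ρ g a) (ρ g b)
  nn : ∃ a b c, ∀ n : ℕ, (μ (μ a b))^[n] c ≠ 0

variable {Γ : Type*} [Group Γ] {F : ℤ → AddSubgroup A} {μ : A →+ A →+ A} {ρ : Γ → A →+ A} {d : ℕ}

lemma TL.form (h : TL F μ ρ) (exh : ∀ a : A, ∃ i, a ∈ F i) [Module ℚ_[2] A] [Module.Finite ℚ_[2] A]
    (hl : ∀ (f : A →+ A) (e : ℤ), (∀ i, ∀ a ∈ F i, f a ∈ F (i + e)) →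
      ∀ (t : ℚ_[2]) a, f (t • a) = t • f a) :
    ∃ κ : A →ₗ[ℚ_[2]] A →ₗ[ℚ_[2]] ℚ_[2], κ ≠ 0 ∧ (∀ a b, κ a b = κ b a) ∧
      (∀ x a b, κ (μ x a) b + κ a (μ x b) = 0) ∧ ∀ g a b, κ (ρ g a) (ρ g b) = κ a b := by
  let _ : LieRing A :=
    { bracket := fun a b => μ a b
      add_lie := fun x y z => by simp only [map_add, AddMonoidHom.add_apply]
      lie_add := fun x y z => map_add _ _ _
      lie_self := h.self
      leibniz_lie := h.leib }
  let _ : LieAlgebra ℚ_[2] A :=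
    { lie_smul := fun t x y => by
        obtain ⟨i, hi⟩ := exh x
        exact hl (μ x) i (fun j a ha => add_comm i j ▸ h.mem hi ha) t y }
  refine ⟨killingForm ℚ_[2] A, fun h0 => ?_, fun a b => LieModule.traceForm_comm ℚ_[2] A A a b,
    fun x a b => ?_, fun g a b => ?_⟩
  · have h1 := LieModule.isNilpotent_derivedSeries_of_traceForm_eq_zero h0
    rw [LieModule.isNilpotent_iff_forall' (R := ℚ_[2])] at h1
    obtain ⟨a, b, c, hc⟩ := h.nn
    obtain ⟨n, hn⟩ := h1 ⟨⁅a, b⁆, LieSubmodule.lie_mem_lie trivial trivial⟩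
    have h2 := LinearMap.congr_fun hn c
    rw [Module.End.pow_apply] at h2
    exact hc n h2
  · exact add_eq_zero_iff_eq_neg.2 (LieModule.traceForm_apply_lie_apply' ℚ_[2] A A x a b)
  · exact LieAlgebra.killingForm_of_equiv_apply
      { toFun := ρ g
        map_add' := map_add _
        map_smul' := hl _ 0 fun i a ha => by simpa using h.ρ_mem g ha
        map_lie' := h.ρ_lie g _ _
        invFun := ρ g⁻¹
        left_inv := h.ρ_inv g
        right_inv := fun a => by simpa using h.ρ_inv g⁻¹ a } a b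

/-- The truncated Killing form. -/
theorem TL.kill (h : TL F μ ρ) (t : TF F d) :
    ∃ (B : Type) (_ : AddCommGroup B) (β : A →+ A →+ B) (n : ℤ),
      (∀ ⦃i j : ℤ⦄ ⦃a b : A⦄, a ∈ F i → b ∈ F j → n < i + j → β a b = 0) ∧
      (∃ i, ∃ a ∈ F i, ∃ b ∈ F (n - i), β a b ≠ 0) ∧ (∀ a b, β a b = β b a) ∧
      (∀ x a b, β (μ x a) b + β a (μ x b) = 0) ∧ ∀ g a b, β (ρ g a) (ρ g b) = β a b := by
  classical
  obtain ⟨_, hl, s, hg⟩ := t.modQ
  have z3 : (2 : ℚ_[2]) ≠ 0 := by norm_num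
  have hd' : (1 : ℤ) ≤ d := by have := t.pos; omega
  have : Module.Finite ℚ_[2] A := by
    refine ⟨⟨s, eq_top_iff.2 fun a _ => ?_⟩⟩
    obtain ⟨i, hi⟩ := t.exh a
    obtain ⟨c, hc⟩ := hg _ (t.mono (t.zpow hi i.natAbs)
      (by have := le_mul_of_one_le_right (Int.natCast_nonneg i.natAbs) hd'; omega))
    rw [← Submodule.smul_mem_iff _ (zpow_ne_zero (i.natAbs : ℤ) z3), hc]
    exact sum_mem fun j hj => Submodule.smul_mem _ _ (Submodule.subset_span (mem_coe.2 hj))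
  obtain ⟨κ, k0, ks, k1, k2⟩ := h.form t.exh hl
  obtain ⟨C, hC⟩ : ∃ C, ∀ a ∈ F 0, ∀ b ∈ F 0, ‖κ a b‖ ≤ C := by
    refine ⟨∑ j ∈ s, ∑ i ∈ s, ‖κ i j‖, fun a ha b hb => ?_⟩
    obtain ⟨c, rfl⟩ := hg a ha
    obtain ⟨c', rfl⟩ := hg b hb
    simp only [map_sum, map_smul, LinearMap.sum_apply, LinearMap.smul_apply]
    refine norm_sum_le_of_le _ fun j _ => ?_
    rw [norm_smul]
    refine (mul_le_of_le_one_left (norm_nonneg _) (c' j).2).trans
      (norm_sum_le_of_le _ fun i _ => ?_)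
    rw [norm_smul]
    exact mul_le_of_le_one_left (norm_nonneg _) (c i).2
  obtain ⟨a₀, b₀, hk⟩ : ∃ a b, κ a b ≠ 0 := by
    by_contra! hn
    exact k0 (LinearMap.ext₂ hn)
  obtain ⟨i₀, ha₀⟩ := t.exh a₀
  obtain ⟨j₀, hb₀⟩ := t.exh b₀
  let H : AddSubgroup ℚ_[2] :=
    { carrier := {x | ‖x‖ < ‖κ a₀ b₀‖}
      add_mem' := fun hx hy => (IsUltrametricDist.norm_add_le_max _ _).trans_lt (max_lt hx hy)
      zero_mem' := by simpa using hk
      neg_mem' := fun hx => by simpa using hx }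
  have ex : ∃ c : ℕ, ∀ ⦃i j : ℤ⦄ ⦃a b : A⦄, a ∈ F i → b ∈ F j → i₀ + j₀ - 1 + c < i + j →
      κ a b ∈ H := by
    obtain ⟨r, ht⟩ := ((tendsto_pow_atTop_nhds_zero_of_lt_one (norm_nonneg (2 : ℚ_[2]))
      (Padic.norm_p_lt_one (p := 2))).mul_const C).eventually
        (gt_mem_nhds (by simpa using hk : 0 * C < ‖κ a₀ b₀‖)) |>.exists
    refine ⟨(r + 1) * d + (i₀ + j₀).natAbs, fun i j a b ha hb hn => ?_⟩
    have e1 := Int.emod_nonneg i (show (d : ℤ) ≠ 0 by omega)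
    have e2 := Int.emod_lt_of_pos i (show (0 : ℤ) < d by omega)
    have e3 := Int.emod_add_ediv_mul i d
    have e4 : 0 ≤ i₀ + j₀ + ((i₀ + j₀).natAbs : ℤ) := by omega
    have := hC _ (t.mono (t.zpow ha (-(i / d))) (by linarith)) _
      (t.mono (t.zpow hb (i / d - r)) (by push_cast at hn e4; linarith))
    have e : κ a b = (2 : ℚ_[2]) ^ r • κ ((2 : ℚ_[2]) ^ (-(i / d)) • a)
        ((2 : ℚ_[2]) ^ (i / d - r) • b) := by
      simp only [map_smul, LinearMap.smul_apply, smul_smul]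
      rw [← zpow_natCast, ← zpow_add₀ z3, ← zpow_add₀ z3]
      ring_nf
      simp
    change ‖κ a b‖ < _
    rw [e, norm_smul, norm_pow]
    exact (mul_le_mul_of_nonneg_left this (by positivity)).trans_lt ht
  obtain ⟨c, hc⟩ : ∃ c, Nat.find ex = c + 1 := Nat.exists_eq_succ_of_ne_zero fun e =>
    lt_irrefl _ (show ‖κ a₀ b₀‖ < ‖κ a₀ b₀‖ from
      Nat.find_spec ex ha₀ hb₀ (by rw [e]; simp))
  have h1 := Nat.find_spec ex
  have h2 := Nat.find_min ex (m := c) (by omega)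
  rw [hc] at h1
  push Not at h2
  obtain ⟨i, j, a, b, ha, hb, h4, h5⟩ := h2
  refine ⟨ℚ_[2] ⧸ H, inferInstance,
    (LinearMap.toAddMonoidHom'.comp κ.toAddMonoidHom).compr₂ (QuotientAddGroup.mk' H),
    i₀ + j₀ - 1 + (c + 1 : ℕ), fun i j a b ha hb hn => (QuotientAddGroup.eq_zero_iff _).2
      (h1 ha hb hn), ⟨i, a, ha, b, t.mono hb ?_, fun e => h5 ((QuotientAddGroup.eq_zero_iff _).1 e)⟩,
    fun a b => congrArg (QuotientAddGroup.mk' H) (ks a b),
    fun x a b => ?_, fun g a b => congrArg (QuotientAddGroup.mk' H) (k2 g a b)⟩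
  · push_cast; omega
  · exact (map_add (QuotientAddGroup.mk' H) _ _).symm.trans
      ((congrArg (QuotientAddGroup.mk' H) (k1 x a b)).trans (map_zero _))

end Pool.Agent.Lib.MP_ffb54b_al.P2
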