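import Pool.Agent.Lib.MP_ffb54b_al.P2.Tc

set_option autoImplicit false
set_option linter.unusedSectionVars false

namespace Pool.Agent.Lib.MP_ffb54b_al.P2

open Finset Filter
open scoped commutatorElement

universe u

variable {U : Ultrafilter ℕ} {G : ℕ → Type u} [∀ n, Group (G n)] {K : ∀ n, ℕ → Subgroup (G n)}

/-- `g` acts on `K` with degree at least `t`. -/
def Fam.KD (H : Fam U K) (y g : ∀ n, G n) (t : ℕ) : Prop :=
  ∀ {ν : Pos U} {k : H.L}, Inf ν → k ∈ H.Ks y ν → H.ρ g k - k ∈ H.F (ν + t)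

/-- `g` acts on `V = L / K` with degree at least `s`. -/
def Fam.VD (H : Fam U K) (y g : ∀ n, G n) (s : ℕ) : Prop :=
  ∀ {ν : Pos U} {a : H.L}, Inf ν → a ∈ H.F ν → H.π y (H.ρ g a - a) ∈ H.F (ν + s)

namespace Fam

variable {H : Fam U K} {y g g' : ∀ n, G n} {s t : ℕ}

lemma ρ_inv_apply (g : ∀ n, G n) (a : H.L) : H.ρ g (H.ρ g⁻¹ a) = a := by
  rw [← H.pns.ρ_mul, mul_inv_cancel, H.pns.ρ_one]

lemma ρ_comm (g h : ∀ n, G n) (b : H.L) : H.ρ ⁅g, h⁆ (H.ρ (h * g) b) - H.ρ (h * g) b =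
    (H.ρ g (H.ρ h b - b) - (H.ρ h b - b)) - (H.ρ h (H.ρ g b - b) - (H.ρ g b - b)) := by
  rw [← H.pns.ρ_mul, show ⁅g, h⁆ * (h * g) = g * h by rw [commutatorElement_def]; group,
    H.pns.ρ_mul, H.pns.ρ_mul, map_sub, map_sub]
  abel

lemma KD.mono (h : H.KD y g t) (hs : s ≤ t) : H.KD y g s := fun hν hk => H.F_anti_nat hs (h hν hk)

lemma VD.mono (h : H.VD y g t) (hs : s ≤ t) : H.VD y g s := fun hν ha => H.F_anti_nat hs (h hν ha)

lemma KD.congr (h : H.KD y g t) (e : ∀ a, H.ρ g' a = H.ρ g a) : H.KD y g' t :=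
  fun hν hk => e _ ▸ h hν hk

lemma VD.congr (h : H.VD y g t) (e : ∀ a, H.ρ g' a = H.ρ g a) : H.VD y g' t :=
  fun hν hk => e _ ▸ h hν hk

lemma KD_of_mem (hg : ∀ᶠ n in U, g n ∈ K n t) : H.KD y g t := fun _ hk => H.ρ_deg hg (K_F hk)

end Fam

namespace S1L

open Fam

variable {H : Fam U K} {x y u : ∀ n, G n} {c : Pos U → H.L → W2 × W2} {σ : Pos U → Bil}
  (S : S1L H x y u c σ) {ν μ i j : Pos U} {a a' k p : H.L} {g h : ∀ n, G n} {s t d : ℕ}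
include S

lemma π_mem (hν : Inf ν) (ha : a ∈ H.F ν) : H.π y a ∈ H.F ν := P_F (S.π_spec hν ha).1

lemma VD_of_mem (hg : ∀ᶠ n in U, g n ∈ K n t) : H.VD y g t := fun hν ha =>
  S.π_mem (hν.add_nat t) (H.ρ_deg hg ha)

lemma VD_one (g : ∀ n, G n) : H.VD y g 1 := fun hν ha => by
  simpa using S.π_mem hν.succ (S.deg g ha)

lemma A_mem (g : ∀ n, G n) (ha : a ∈ H.F ν) : H.ρ g a - a ∈ H.F ν := H.up1 (S.deg g ha)

lemma π_of_Ypow (hν : Inf ν) (ha : a ∈ H.F ν) (h : (H.Y y ^ d) a ∈ H.F (ν + 2 * d)) :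
    H.π y a ∈ H.F (ν + d) := by
  have h1 := S.π_spec hν ha
  have h2 : (H.Y y ^ d) (H.π y a) ∈ H.F (ν + 2 * d) := by
    have := sub_mem h (h1.2 d)
    rwa [← map_sub, sub_sub_cancel] at this
  have key : ∀ r : ℕ, r ≤ d → H.π y a ∈ H.Ps y (ν + r) := fun r hr => by
    induction r with
    | zero => simpa using h1.1
    | succ r ih =>
      rw [Nat.cast_succ, ← add_assoc]
      refine S.P_succ (hν.add_nat r) (ih (by omega)) ?_
      rw [← S.cW_Ypow d (hν.add_nat r) (P_F (ih (by omega)))]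
      obtain ⟨z, rfl⟩ := Nat.exists_eq_add_of_le hr
      exact S.cW_deep ((hν.add_nat r).add_nat _) (H.up h2 z (by push_cast; ring))
  exact P_F (key d le_rfl)

lemma Ypow_of_π (hν : Inf ν) (ha : a ∈ H.F ν) (h : H.π y a ∈ H.F (ν + d)) :
    (H.Y y ^ d) a ∈ H.F (ν + 2 * d) := by
  have h1 := add_mem ((S.π_spec hν ha).2 d) (H.cast (S.Ypow_mem d h) (by ring))
  rwa [← map_add, sub_add_cancel] at h1

variable (hT : ∀ e, H.ExKP y e)
include hT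

lemma ρ_K (g : ∀ n, G n) (hν : Inf ν) (hk : k ∈ H.Ks y ν) : H.ρ g k ∈ H.Ks y ν :=
  S.K_of_central hν (H.pns.ρ_mem_F g (K_F hk)) hT fun b => by
    rw [← ρ_inv_apply g b, ← H.pns.ρ_lie, S.K_central hT hν hk, map_zero]

lemma A_K (g : ∀ n, G n) (hν : Inf ν) (hk : k ∈ H.Ks y ν) : H.ρ g k - k ∈ H.Ks y ν :=
  sub_mem (S.ρ_K hT g hν hk) hk

lemma KD_two (g : ∀ n, G n) : H.KD y g 2 := fun {ν k} hν hk => by
  rcases z2' (red 2 ν) with h | h
  · exact H.cast (S.deg g (K_F (S.K_even hν hk h))) (by push_cast; ring)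
  · exact H.cast (K_F (S.K_even hν.succ (S.K_succ hν (S.A_K hT g hν hk) (S.deg g (K_F hk)))
      (red_succ_of' h))) (by push_cast; ring)

lemma KD_mul (h1 : H.KD y g t) (h2 : H.KD y h t) : H.KD y (g * h) t := fun hν hk => by
  have := add_mem (h1 hν (S.ρ_K hT h hν hk)) (h2 hν hk)
  rwa [sub_add_sub_cancel, ← H.pns.ρ_mul] at this

lemma KD_inv (h1 : H.KD y g t) : H.KD y g⁻¹ t := fun hν hk => by
  have := neg_mem (h1 hν (S.ρ_K hT g⁻¹ hν hk))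
  rwa [ρ_inv_apply, neg_sub] at this

lemma KD_comm (h1 : H.KD y g s) (h2 : H.KD y h t) : H.KD y ⁅g, h⁆ (s + t) := fun {ν k} hν hk => by
  have hb := S.ρ_K hT (h * g)⁻¹ hν hk
  rw [← ρ_inv_apply (h * g) k, ρ_comm]
  exact sub_mem
    (H.cast (h1 (hν.add_nat t) (S.K_of_F hν (S.A_K hT h hν hb) t (h2 hν hb))) (by push_cast; ring))
    (H.cast (h2 (hν.add_nat s) (S.K_of_F hν (S.A_K hT g hν hb) s (h1 hν hb))) (by push_cast; ring))

omit hT in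
lemma VD_mul (h1 : H.VD y g t) (h2 : H.VD y h t) : H.VD y (g * h) t := fun {ν a} hν ha => by
  have m := H.pns.ρ_mem_F h ha
  have := add_mem (h1 hν m) (h2 hν ha)
  rwa [← S.π_add hν (S.A_mem g m) (S.A_mem h ha), sub_add_sub_cancel, ← H.pns.ρ_mul] at this

omit hT in
lemma VD_inv (h1 : H.VD y g t) : H.VD y g⁻¹ t := fun {ν a} hν ha => by
  have m := H.pns.ρ_mem_F g⁻¹ ha
  have := neg_mem (h1 hν m)
  rwa [← S.π_neg hν (S.A_mem g m), ρ_inv_apply, neg_sub] at this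

lemma π_A (g : ∀ n, G n) (hν : Inf ν) (ha : a ∈ H.F ν) :
    H.π y (H.ρ g a - a) = H.π y (H.ρ g (H.π y a) - H.π y a) := by
  have h1 := S.π_spec hν ha
  have h2 := S.π_add hν (K_F (S.A_K hT g hν h1.2)) (S.A_mem g (P_F h1.1))
  rw [S.π_K hν (S.A_K hT g hν h1.2), zero_add] at h2
  rw [← h2, map_sub]
  congr 1; abel

lemma VD_apply (h1 : H.VD y g s) (hν : Inf ν) (ha : a ∈ H.F ν) (h2 : H.π y a ∈ H.F (ν + d)) :
    H.π y (H.ρ g a - a) ∈ H.F (ν + d + s) := by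
  rw [S.π_A hT g hν ha]
  exact h1 (hν.add_nat d) h2

lemma π_ρ (g : ∀ n, G n) (hν : Inf ν) (ha : a ∈ H.F ν) (h2 : H.π y a ∈ H.F (ν + d)) :
    H.π y (H.ρ g a) ∈ H.F (ν + d) := by
  have := add_mem (H.up1 (S.VD_apply hT (S.VD_one g) hν ha h2)) h2
  rwa [← S.π_add hν (S.A_mem g ha) ha, sub_add_cancel] at this

lemma lie_π_left (hν : Inf ν) (ha : a ∈ H.F ν) (b : H.L) : ⁅H.π y a, b⁆ = ⁅a, b⁆ := by
  have := S.K_central hT hν (S.π_spec hν ha).2 b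
  rw [sub_lie, sub_eq_zero] at this
  exact this.symm

lemma lie_π_right (hν : Inf ν) (ha : a ∈ H.F ν) (b : H.L) : ⁅b, H.π y a⁆ = ⁅b, a⁆ := by
  rw [← lie_skew, S.lie_π_left hT hν ha, lie_skew]

omit hT in
/-- the symbol of `g` in degree `s`. -/
noncomputable def Sym (g : ∀ n, G n) (s : ℕ) (ν : Pos U) (v : W2) : W2 :=
  (c (ν + s) (H.π y (H.ρ g (S.pw ν v) - S.pw ν v))).1

lemma Sym_eq (h1 : H.VD y g s) (hν : Inf ν) (ha : a ∈ H.F ν) :
    (c (ν + s) (H.π y (H.ρ g a - a))).1 = S.Sym g s ν (c ν a).1 := by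
  have hp := (S.π_spec hν ha).1
  have hq := S.pw_P hν (c ν a).1
  have h2 := h1 hν.succ (P_F (S.P_sub hν hp hq (by rw [S.cW_π hν ha, S.cW_pw hν])))
  rw [map_sub, sub_sub_sub_comm, S.π_sub hν (S.A_mem g (P_F hp)) (S.A_mem g (P_F hq))] at h2
  rw [S.π_A hT g hν ha, Sym, S.c_congr (hν.add_nat s) (h1 hν (P_F hq)) (H.cast h2 (by ring))]

lemma Sym_add (h1 : H.VD y g s) (hν : Inf ν) (v w : W2) :
    S.Sym g s ν (v + w) = S.Sym g s ν v + S.Sym g s ν w := by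
  have hp := S.pw_F hν v
  have hq := S.pw_F hν w
  have h2 := S.Sym_eq hT h1 hν (add_mem hp hq)
  rw [S.add hν hp hq, Prod.fst_add, S.cW_pw hν, S.cW_pw hν, map_add, add_sub_add_comm,
    S.π_add hν (S.A_mem g hp) (S.A_mem g hq), S.add (hν.add_nat s) (h1 hν hp) (h1 hν hq)] at h2
  exact h2.symm

lemma Sym_smul (h1 : H.VD y g s) (hν : Inf ν) (r : ZMod 2) (v : W2) :
    S.Sym g s ν (r • v) = r • S.Sym g s ν v := by
  rcases z2' r with rfl | rfl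
  · simpa using S.Sym_add hT h1 hν 0 0
  · simp

lemma Sym_ext (h1 : H.VD y g s) (hi : Inf i) (hj : Inf j)
    (h : ∀ t, S.Sym g s i (ee t) = S.Sym g s j (ee t)) (v : W2) : S.Sym g s i v = S.Sym g s j v := by
  rw [W2.eq_sum v, S.Sym_add hT h1 hi, S.Sym_add hT h1 hj, S.Sym_smul hT h1 hi, S.Sym_smul hT h1 hi,
    S.Sym_smul hT h1 hj, S.Sym_smul hT h1 hj, h, h]

/-- equivariance of the bracket in degree `s`. -/
lemma Sym_lie (h1 : H.VD y g s) (hs : 1 ≤ s) (hi : Inf i) (hj : Inf j) (ha : a ∈ H.F i)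
    (ha' : a' ∈ H.F j) : H.ρ g ⁅a, a'⁆ - ⁅a, a'⁆ ∈ H.F (i + j + s) ∧
    (c (i + j + s) (H.ρ g ⁅a, a'⁆ - ⁅a, a'⁆)).2 =
      σ (i + j + s) (S.Sym g s i (c i a).1) (c j a').1 +
        σ (i + j + s) (c i a).1 (S.Sym g s j (c j a').1) := by
  have e : H.ρ g ⁅a, a'⁆ - ⁅a, a'⁆ = ⁅H.π y (H.ρ g a - a), a'⁆ + ⁅a, H.π y (H.ρ g a' - a')⁆ +
      ⁅H.π y (H.ρ g a - a), H.π y (H.ρ g a' - a')⁆ := by
    rw [S.lie_π_left hT hi (S.A_mem g ha), S.lie_π_left hT hi (S.A_mem g ha),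
      S.lie_π_right hT hj (S.A_mem g ha'), S.lie_π_right hT hj (S.A_mem g ha')]
    simp only [H.pns.ρ_lie, sub_lie, lie_sub]; abel
  have m1 := H.lie_mem (h1 hi ha) ha'
  have m2 := H.lie_mem ha (h1 hj ha')
  have z1 := S.cZ_lie (hi.add_nat s) hj (h1 hi ha) ha'
  have z2 := S.cZ_lie hi (hj.add_nat s) ha (h1 hj ha')
  obtain ⟨r, rfl⟩ := Nat.exists_eq_add_of_le hs
  have m3 := H.up (H.lie_mem (h1 hi ha) (h1 hj ha')) (ν := i + j + (1 + r : ℕ) + 1) r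
    (by push_cast; ring)
  rw [show i + (1 + r : ℕ) + j = i + j + (1 + r : ℕ) by ring] at m1 z1
  rw [show i + (j + (1 + r : ℕ)) = i + j + (1 + r : ℕ) by ring] at m2 z2
  have hN := (hi.add hj).add_nat (1 + r)
  rw [e]
  refine ⟨add_mem (add_mem m1 m2) (H.up1 m3), ?_⟩
  rw [S.add hN (add_mem m1 m2) (H.up1 m3), S.c_deep hN m3, add_zero, S.add hN m1 m2, Prod.snd_add,
    z1, z2, S.Sym_eq hT h1 hi ha, S.Sym_eq hT h1 hj ha']

lemma Sym_odd (h1 : H.VD y g s) (h2 : H.KD y g (s + 1)) (hs : 1 ≤ s) (hi : Inf i) (hj : Inf j)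
    (ho : red 2 (i + j + s : Pos U) = 1) (v : W2) : S.Sym g s i v = S.Sym g s j v := by
  have hN := (hi.add hj).add_nat s
  refine S.Sym_ext hT h1 hi hj ((S.good hN ho).ab fun r t => w2_eq_of_add ?_) v
  have h3 := (S.Sym_lie hT h1 hs hi hj (S.pw_F hi (ee r)) (S.pw_F hj (ee t))).2
  rw [S.cW_pw hi, S.cW_pw hj] at h3
  rw [← h3]
  exact S.cZ_deep hN (H.cast (h2 (hi.add hj) (S.lie_PP hi hj (S.pw_P hi _) (S.pw_P hj _)))
    (by push_cast; ring))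

/-- below the `K`-degree the symbol only depends on the parity of the position. -/
lemma Sym_par (h1 : H.VD y g s) (h2 : H.KD y g (s + 1)) (hs : 1 ≤ s) (hi : Inf i) (hj : Inf j)
    (hp : red 2 i = red 2 j) (v : W2) : S.Sym g s i v = S.Sym g s j v := by
  obtain ⟨l, hl, -, -, e⟩ := exists_small hi hi (1 - red 2 (i + s : Pos U))
  rw [S.Sym_odd hT h1 h2 hs hi hl (by simp only [map_add] at e ⊢; rw [e]; ring),
    S.Sym_odd hT h1 h2 hs hj hl (by simp only [map_add] at e ⊢; rw [e, hp]; ring)]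

/-- in even degree below the `K`-degree the symbol is constant. -/
lemma Sym_const (h1 : H.VD y g s) (h2 : H.KD y g (s + 1)) (hs : 1 ≤ s) (he : Even s) (hi : Inf i)
    (hj : Inf j) (v : W2) : S.Sym g s i v = S.Sym g s j v := by
  have e : red 2 (s : Pos U) = 0 := by rw [map_natCast]; exact ZMod.natCast_eq_zero_iff_even.2 he
  by_cases hp : red 2 i = red 2 j
  · exact S.Sym_par hT h1 h2 hs hi hj hp v
  · refine S.Sym_odd hT h1 h2 hs hi hj ?_ v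
    rw [map_add, map_add, e]
    revert hp; generalize red 2 i = a; generalize red 2 j = b; revert a b; decide

lemma VD_succ (h1 : H.VD y g s) (h : ∀ {ν : Pos U} v, Inf ν → S.Sym g s ν v = 0) :
    H.VD y g (s + 1) := fun {ν a} hν ha =>
  H.cast (P_F (S.P_succ (hν.add_nat s) (S.P_of_F hν (S.π_spec hν (S.A_mem g ha)).1 s (h1 hν ha))
    (by rw [S.Sym_eq hT h1 hν ha, h _ hν]))) (by push_cast; ring)

lemma Sym_one (h : ∀ n, G n) : ∃ r t : ZMod 2, ∀ {ν : Pos U} v, Inf ν →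
    S.Sym h 1 ν v = (r * red 2 ν + t) • v := by
  obtain ⟨r, t, e⟩ := S.low1 h
  refine ⟨r, t, fun {ν} v hν => ?_⟩
  rw [Sym, Nat.cast_one, S.cW_π hν.succ (S.deg h (S.pw_F hν v)), e hν (S.pw_F hν v), S.cW_pw hν]

/-- the symbol of a commutator. -/
lemma Sym_comm (h1 : H.VD y g s) (h2 : H.VD y h t) : H.VD y ⁅g, h⁆ (s + t) ∧
    ∀ {ν : Pos U} v, Inf ν → S.Sym ⁅g, h⁆ (s + t) ν v =
      S.Sym g s (ν + t) (S.Sym h t ν v) + S.Sym h t (ν + s) (S.Sym g s ν v) := by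
  have key : ∀ {ν : Pos U} {a : H.L}, Inf ν → a ∈ H.F ν →
      H.π y (H.ρ ⁅g, h⁆ a - a) ∈ H.F (ν + (s + t : ℕ)) ∧
      (c (ν + (s + t : ℕ)) (H.π y (H.ρ ⁅g, h⁆ a - a))).1 =
      S.Sym g s (ν + t) (S.Sym h t ν (c ν a).1) + S.Sym h t (ν + s) (S.Sym g s ν (c ν a).1) := by
    intro ν a hν ha
    have hb := H.pns.ρ_mem_F (h * g)⁻¹ ha
    have hc : (c ν a).1 = (c ν (H.ρ (h * g)⁻¹ a)).1 := by rw [S.c_congr hν ha (S.deg _ ha)]
    have ea := ρ_comm g h (H.ρ (h * g)⁻¹ a)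
    rw [ρ_inv_apply] at ea
    rw [hc, ea]
    generalize H.ρ (h * g)⁻¹ a = b at hb
    have m1 := S.A_mem h hb
    have m2 := S.A_mem g hb
    have n1 := h1 (hν.add_nat t) (h2 hν hb)
    have n2 := h2 (hν.add_nat s) (h1 hν hb)
    have e1 := S.Sym_eq hT h1 (hν.add_nat t) (h2 hν hb)
    have e2 := S.Sym_eq hT h2 (hν.add_nat s) (h1 hν hb)
    rw [show ν + t + s = ν + (s + t : ℕ) by push_cast; ring] at n1 e1
    rw [show ν + s + t = ν + (s + t : ℕ) by push_cast; ring] at n2 e2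
    rw [S.π_sub hν (S.A_mem g m1) (S.A_mem h m2), S.π_A hT g hν m1, S.π_A hT h hν m2]
    refine ⟨sub_mem n1 n2, ?_⟩
    rw [S.c_sub (hν.add_nat _) n1 n2, Prod.fst_add, e1, e2, S.Sym_eq hT h2 hν hb,
      S.Sym_eq hT h1 hν hb]
  exact ⟨fun hν ha => (key hν ha).1, fun {ν} v hν => by
    have := (key hν (S.pw_F hν v)).2
    rwa [S.cW_pw hν] at this⟩

lemma VD_comm_even (h1 : H.VD y g s) (h2 : H.KD y g (s + 1)) (hs : 1 ≤ s) (he : Even s)
    (h : ∀ n, G n) : H.VD y ⁅h, g⁆ (s + 2) := by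
  obtain ⟨h3, h4⟩ := S.Sym_comm hT (S.VD_one h) h1
  obtain ⟨r, t, e⟩ := S.Sym_one hT h
  have e0 : red 2 (s : Pos U) = 0 := by rw [map_natCast]; exact ZMod.natCast_eq_zero_iff_even.2 he
  rw [show s + 2 = 1 + s + 1 by ring]
  refine fun {_ _} hν ha => S.VD_succ hT h3 (fun {ν} v hν => ?_) hν ha
  rw [h4 v hν, e _ (hν.add_nat s), e _ hν, S.Sym_smul hT h1 (hν.add_nat 1),
    S.Sym_const hT h1 h2 hs he (hν.add_nat 1) hν, map_add, e0, add_zero, w2_add_self]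

/-- LOWER BOUND for lifts of the elements of a group with a lower central series. -/
theorem lower_bound {J : Type*} [Group J] {KJ : ℕ → Subgroup J} {xJ yJ uJ : J}
    (hJ : LCS KJ xJ yJ uJ) (ℓ : J → ∀ n, G n)
    (hmul : ∀ f f' a, H.ρ (ℓ (f * f')) a = H.ρ (ℓ f) (H.ρ (ℓ f') a))
    (hmem : ∀ t, ∀ f ∈ KJ t, ∀ᶠ n in U, ℓ f n ∈ K n t) (w : ℕ) :
    ∀ f ∈ KJ (w + 1), H.KD y (ℓ f) (2 * w + 2) ∧ H.VD y (ℓ f) (2 * w) := by
  have e1 : ∀ a, H.ρ (ℓ 1) a = a := fun a => by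
    have h1 := hmul 1 1 (H.ρ (ℓ 1)⁻¹ a)
    rw [mul_one, ρ_inv_apply] at h1
    exact h1.symm
  have em : ∀ f f' a, H.ρ (ℓ (f * f')) a = H.ρ (ℓ f * ℓ f') a := fun f f' a => by
    rw [hmul, H.pns.ρ_mul]
  have ei : ∀ f a, H.ρ (ℓ f⁻¹) a = H.ρ (ℓ f)⁻¹ a := fun f a => by
    have h1 := hmul f f⁻¹ a
    rw [mul_inv_cancel, e1] at h1
    conv_rhs => rw [h1, ← H.pns.ρ_mul, inv_mul_cancel, H.pns.ρ_one]
  have ec : ∀ f f' a, H.ρ (ℓ ⁅f, f'⁆) a = H.ρ ⁅ℓ f, ℓ f'⁆ a := fun f f' a => by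
    simp only [commutatorElement_def, hmul, ei, H.pns.ρ_mul]
  induction w with
  | zero => exact fun f _ => ⟨S.KD_two hT _, VD.mono (S.VD_one _) (by omega)⟩
  | succ w ih =>
    let T : Subgroup J :=
      { carrier := {f | H.KD y (ℓ f) (2 * (w + 1) + 2) ∧ H.VD y (ℓ f) (2 * (w + 1))}
        one_mem' := ⟨KD_of_mem (hmem _ 1 (one_mem _)), S.VD_of_mem (hmem _ 1 (one_mem _))⟩
        mul_mem' := fun ha hb => ⟨KD.congr (S.KD_mul hT ha.1 hb.1) (em _ _),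
          VD.congr (S.VD_mul ha.2 hb.2) (em _ _)⟩
        inv_mem' := fun ha => ⟨KD.congr (S.KD_inv hT ha.1) (ei _), VD.congr (S.VD_inv ha.2) (ei _)⟩ }
    have hc : ∀ g : J, ∀ k ∈ KJ (w + 1), ⁅g, k⁆ ∈ T := fun g k hk => by
      refine ⟨KD.congr (KD.mono (S.KD_comm hT (S.KD_two hT (ℓ g)) (ih k hk).1) (by omega)) (ec _ _), ?_⟩
      rcases Nat.eq_zero_or_pos w with rfl | hw
      · exact S.VD_of_mem (hmem _ _ (hJ.ns.comm' (hJ.mem_one g) hk (by omega)))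
      · exact VD.congr (S.VD_comm_even hT (ih k hk).2 (KD.mono (ih k hk).1 (by omega)) (by omega)
          (even_two_mul w) (ℓ g)) (ec _ _)
    have hd : ∀ r, KJ (w + 2 + r) ≤ T → KJ (w + 2) ≤ T := fun r => by
      induction r with
      | zero => exact id
      | succ r ih' =>
        exact fun h => ih' ((show w + 2 + r = w + 1 + r + 1 by ring) ▸ hJ.gen (w + 1 + r) (by omega) T
          ((show w + 2 + (r + 1) = w + 1 + r + 2 by ring) ▸ h)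
          fun g k hk => hc g k (hJ.ns.anti (by omega) hk))
    exact hd (w + 2) fun f hf => ⟨KD.mono (KD_of_mem (hmem _ f hf)) (by omega),
      VD.mono (S.VD_of_mem (hmem _ f hf)) (by omega)⟩

end S1L

end Pool.Agent.Lib.MP_ffb54b_al.P2
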