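import Pool.Agent.Lib.MP_ffb54b_al.P2.Lines

set_option autoImplicit false

namespace Pool.Agent.Lib.MP_ffb54b_al.P2

variable {K : Type*} [AddCommGroup K] [Module (ZMod 2) K]

namespace LD

variable (D : LD K)

theorem memS (m : ℤ) (p q : Bool) : D.S m p q ∈ D.F m := D.memB _ _ _ _ _ (by omega)

theorem memT (m : ℤ) (p q : Bool) : D.T m p q ∈ D.F (m + 1) :=
  add_mem (D.memB _ _ _ _ _ (by omega)) (D.memB _ _ _ _ _ (by omega))

theorem cst {i j m n : ℤ} (p q : Bool) (h : i + j = 2 * m + 1) (hn : n ≤ m + 1) :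
    D.B i j p q + D.S m p q ∈ D.F n := D.up (D.const i j p q m h) hn

theorem deg_step (A : K →ₗ[ZMod 2] K) (d : ℤ) (h1 : ∀ m k, k ∈ D.F m → A k ∈ D.F (m + d))
    (h2 : ∀ m p q, A (D.S m p q) ∈ D.F (m + d + 1)) (m : ℤ) (k : K) (hk : k ∈ D.F m) :
    A k ∈ D.F (m + d + 1) := by
  obtain ⟨c1, c2, c3, h⟩ := D.gen m k hk
  have h3 := h1 _ _ h
  have e : m + 1 + d = m + d + 1 := by ring
  rw [e] at h3
  refine mem2 (add_mem h3 (add_mem (add_mem (Submodule.smul_mem _ c1 (h2 m true true))
    (Submodule.smul_mem _ c2 (h2 m true false))) (Submodule.smul_mem _ c3 (h2 m false false)))) ?_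
  simp only [S, map_add, map_smul]
  generalize c1 = a; generalize c2 = b; generalize c3 = c
  match_scalars <;> (revert a b c; decide)

theorem y_ord2 {i j m : ℤ} (p q : Bool) (h : i + j = 2 * m + 1) :
    D.Y (D.B i j p q) + (D.B (i + 1) j p q + D.B i (j + 1) p q) +
      (ind p + ind q) • D.S (m + 1) p q ∈ D.F (m + 2) := by
  have w := D.winY i j p q (m + 2) (by omega)
  have a1 := D.cst (i := i + 2) (j := j) (m := m + 1) (n := m + 2) p q (by omega) (by omega)
  have a2 := D.cst (i := i + 1) (j := j + 1) (m := m + 1) (n := m + 2) p q (by omega) (by omega)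
  have a3 := D.cst (i := i) (j := j + 2) (m := m + 1) (n := m + 2) p q (by omega) (by omega)
  have b1 := D.memB (i + 3) j p q (m + 2) (by omega)
  have b2 := D.memB (i + 2) (j + 1) p q (m + 2) (by omega)
  have b3 := D.memB (i + 1) (j + 2) p q (m + 2) (by omega)
  have b4 := D.memB i (j + 3) p q (m + 2) (by omega)
  have c1 := D.memB (i + 4) j p q (m + 2) (by omega)
  have c2 := D.memB (i + 3) (j + 1) p q (m + 2) (by omega)
  have c3 := D.memB (i + 2) (j + 2) p q (m + 2) (by omega)
  have c4 := D.memB (i + 1) (j + 3) p q (m + 2) (by omega)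
  have c5 := D.memB i (j + 4) p q (m + 2) (by omega)
  have hp := D.par_odd (i := i) (j := j) (m - i) (by omega)
  set N := D.F (m + 2)
  refine mem2 (add_mem (add_mem (add_mem w
    (add_mem (add_mem (N.smul_mem (D.par i + ind p) a1) a2) (N.smul_mem (D.par j + ind q) a3)))
    (add_mem (add_mem (add_mem (N.smul_mem (D.par i + ind p) b1) (N.smul_mem (D.par i + ind p) b2))
      (N.smul_mem (D.par j + ind q) b3)) (N.smul_mem (D.par j + ind q) b4)))
    (add_mem (add_mem (add_mem (add_mem (N.smul_mem (D.ch i + ind p * (D.par i + 1)) c1)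
      (N.smul_mem (D.par i + ind p) c2)) (N.smul_mem ((D.par i + ind p) * (D.par j + ind q)) c3))
      (N.smul_mem (D.par j + ind q) c4)) (N.smul_mem (D.ch j + ind q * (D.par j + 1)) c5))) ?_
  rw [hp]
  generalize D.par i = a; generalize ind p = b; generalize ind q = c
  generalize D.ch i = d; generalize D.ch j = e
  match_scalars <;> (revert a b c d e; decide)

theorem yS (m : ℤ) (p q : Bool) :
    D.Y (D.S m p q) + D.T m p q + (ind p + ind q) • D.S (m + 1) p q ∈ D.F (m + 2) := by
  have h := D.y_ord2 (i := m) (j := m + 1) (m := m) p q (by omega)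
  have e : m + 1 + 1 = m + 2 := by ring
  rw [e] at h
  exact h

theorem delta_ind {i j m : ℤ} (p q : Bool) (h : i + j = 2 * m + 1) :
    D.B (i + 1) j p q + D.B i (j + 1) p q + D.T m p q ∈ D.F (m + 2) := by
  have h1 := D.y_ord2 p q h
  have h2 := D.yS m p q
  have h3 := D.degY _ _ (D.cst (n := m + 1) p q h le_rfl)
  have e : m + 1 + 1 = m + 2 := by ring
  rw [e] at h3
  refine mem2 (add_mem (add_mem h1 h2) h3) ?_
  simp only [map_add]
  generalize ind p = b; generalize ind q = c
  match_scalars <;> (revert b c; decide)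

theorem even_diag {i j i' j' m n : ℤ} (p q : Bool) (h : i + j = 2 * m + 2) (h' : i' + j' = 2 * m + 2)
    (hn : n ≤ m + 2) :
    D.B i j p q + D.B i' j' p q + (D.par i + D.par i') • D.T m p q ∈ D.F n :=
  D.up (D.antidiag (D.F (m + 2)) (2 * m + 2) p q (D.T m p q)
    (fun _ _ e => D.delta_ind p q (by omega)) h h') hn

theorem u_S (m : ℤ) (p q : Bool) : D.U (D.S m p q) + D.T (m + 1) p q ∈ D.F (m + 3) := by
  have w := D.winU m (m + 1) p q (m + 3) (by omega)
  have a := D.even_diag (i := m + 3) (j := m + 1) (i' := m) (j' := m + 1 + 3) (m := m + 1)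
    (n := m + 3) p q (by omega) (by omega) (by omega)
  have b1 := D.memB (m + 6) (m + 1) p q (m + 3) (by omega)
  have b2 := D.memB (m + 3) (m + 1 + 3) p q (m + 3) (by omega)
  have b3 := D.memB m (m + 1 + 6) p q (m + 3) (by omega)
  have hp := D.par_odd (i := m) (j := m + 3) 1 (by omega)
  set N := D.F (m + 3)
  refine mem2 (add_mem (add_mem w a) (add_mem (add_mem (N.smul_mem (D.par m + ind p) b1) b2)
    (N.smul_mem (D.par (m + 1) + ind q) b3))) ?_
  rw [hp]
  simp only [S]
  generalize D.par m = a; generalize ind p = b; generalize ind q = c; generalize D.par (m + 1) = d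
  match_scalars <;> (revert a b c d; decide)

theorem h_S (m : ℤ) (p q : Bool) : D.H (D.S m p q) + D.T (m + 2) p q ∈ D.F (m + 4) := by
  have w := D.winH m (m + 1) p q (m + 4) (by omega)
  have a := D.even_diag (i := m + 5) (j := m + 1) (i' := m) (j' := m + 1 + 5) (m := m + 2)
    (n := m + 4) p q (by omega) (by omega) (by omega)
  have hp := D.par_odd (i := m) (j := m + 5) 2 (by omega)
  refine mem2 (add_mem w a) ?_
  rw [hp]
  simp only [S]
  generalize D.par m = a
  match_scalars <;> (revert a; decide)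

theorem a2_S (m : ℤ) (p q : Bool) : D.A2 (D.S m p q) + D.T (m + 2) p q ∈ D.F (m + 4) := by
  have w := D.winA2 m (m + 1) p q (m + 4) (by omega)
  have a := D.even_diag (i := m + 5) (j := m + 1) (i' := m) (j' := m + 1 + 5) (m := m + 2)
    (n := m + 4) p q (by omega) (by omega) (by omega)
  have hp := D.par_odd (i := m) (j := m + 5) 2 (by omega)
  have b1 := D.cst (i := m + 6) (j := m + 1) (m := m + 3) (n := m + 4) p q (by omega) (by omega)
  have b2 := D.cst (i := m) (j := m + 1 + 6) (m := m + 3) (n := m + 4) p q (by omega) (by omega)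
  have c1 := D.memB (m + 7) (m + 1) p q (m + 4) (by omega)
  have c2 := D.memB m (m + 1 + 7) p q (m + 4) (by omega)
  have d1 := D.memB (m + 8) (m + 1) p q (m + 4) (by omega)
  have d2 := D.memB m (m + 1 + 8) p q (m + 4) (by omega)
  set N := D.F (m + 4)
  refine mem2 (add_mem (add_mem (add_mem (add_mem w a) (N.smul_mem D.c6 (add_mem b1 b2)))
    (N.smul_mem D.c7 (add_mem c1 c2))) (N.smul_mem D.c8 (add_mem d1 d2))) ?_
  rw [hp]
  simp only [S]
  generalize D.par m = a; generalize D.c6 = b; generalize D.c7 = c; generalize D.c8 = d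
  match_scalars <;> (revert a b c d; decide)

theorem a3_S (m : ℤ) (p q : Bool) : D.A3 (D.S m p q) + D.T (m + 3) p q ∈ D.F (m + 5) := by
  have w := D.winA3 m (m + 1) p q (m + 5) (by omega)
  have a := D.even_diag (i := m + 7) (j := m + 1) (i' := m) (j' := m + 1 + 7) (m := m + 3)
    (n := m + 5) p q (by omega) (by omega) (by omega)
  have hp := D.par_odd (i := m) (j := m + 7) 3 (by omega)
  have b1 := D.cst (i := m + 8) (j := m + 1) (m := m + 4) (n := m + 5) p q (by omega) (by omega)
  have b2 := D.cst (i := m) (j := m + 1 + 8) (m := m + 4) (n := m + 5) p q (by omega) (by omega)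
  set N := D.F (m + 5)
  refine mem2 (add_mem (add_mem w a) (N.smul_mem D.d8 (add_mem b1 b2))) ?_
  rw [hp]
  simp only [S]
  generalize D.par m = a; generalize D.d8 = b
  match_scalars <;> (revert a b; decide)

theorem of_add {N : Submodule (ZMod 2) K} {x y : K} (h : x + y ∈ N) (hy : y ∈ N) : x ∈ N := by
  refine mem2 (add_mem h hy) ?_
  match_scalars <;> decide

theorem degU2 {m n : ℤ} {k : K} (hk : k ∈ D.F m) (hn : n ≤ m + 2) : D.U k ∈ D.F n :=
  D.up (D.deg_step D.U 1 D.degU (fun m p q => of_add (D.up (D.u_S m p q) (by omega))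
    (D.up (D.memT _ p q) (by omega))) m k hk) (by omega)

theorem degH3 {m n : ℤ} {k : K} (hk : k ∈ D.F m) (hn : n ≤ m + 3) : D.H k ∈ D.F n := by
  have h : ∀ m p q n, n ≤ m + 3 → D.H (D.S m p q) ∈ D.F n := fun m p q n hn =>
    of_add (D.up (D.h_S m p q) (by omega)) (D.up (D.memT _ p q) (by omega))
  have h2 := D.deg_step D.H 1 D.degH (fun m p q => h m p q _ (by omega))
  have h3 := D.deg_step D.H 2 (fun m k hk => D.up (h2 m k hk) (by omega))
    (fun m p q => h m p q _ (by omega))
  exact D.up (h3 m k hk) (by omega)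

theorem degA23 {m n : ℤ} {k : K} (hk : k ∈ D.F m) (hn : n ≤ m + 3) : D.A2 k ∈ D.F n := by
  have h : ∀ m p q n, n ≤ m + 3 → D.A2 (D.S m p q) ∈ D.F n := fun m p q n hn =>
    of_add (D.up (D.a2_S m p q) (by omega)) (D.up (D.memT _ p q) (by omega))
  have h2 := D.deg_step D.A2 1 D.degA2 (fun m p q => h m p q _ (by omega))
  have h3 := D.deg_step D.A2 2 (fun m k hk => D.up (h2 m k hk) (by omega))
    (fun m p q => h m p q _ (by omega))
  exact D.up (h3 m k hk) (by omega)

theorem degA34 {m n : ℤ} {k : K} (hk : k ∈ D.F m) (hn : n ≤ m + 4) : D.A3 k ∈ D.F n := by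
  have h : ∀ m p q n, n ≤ m + 4 → D.A3 (D.S m p q) ∈ D.F n := fun m p q n hn =>
    of_add (D.up (D.a3_S m p q) (by omega)) (D.up (D.memT _ p q) (by omega))
  have h2 := D.deg_step D.A3 1 D.degA3 (fun m p q => h m p q _ (by omega))
  have h3 := D.deg_step D.A3 2 (fun m k hk => D.up (h2 m k hk) (by omega))
    (fun m p q => h m p q _ (by omega))
  have h4 := D.deg_step D.A3 3 (fun m k hk => D.up (h3 m k hk) (by omega))
    (fun m p q => h m p q _ (by omega))
  exact D.up (h4 m k hk) (by omega)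

theorem degY1 {m n : ℤ} {k : K} (hk : k ∈ D.F m) (hn : n ≤ m + 1) : D.Y k ∈ D.F n :=
  D.up (D.degY m k hk) hn

theorem star1 (m : ℤ) (p q : Bool) : D.Y (D.T (m + 1) p q) + D.U (D.T m p q) +
    (ind p + ind q + 1) • D.T (m + 2) p q ∈ D.F (m + 4) := by
  have r := D.relU (D.S m p q)
  have a1 := D.degY1 (n := m + 4) (D.u_S m p q) (by omega)
  have a2 := D.degU2 (n := m + 4) (D.yS m p q) (by omega)
  have a3 := D.u_S (m + 1) p q
  have e1 : m + 1 + 1 = m + 2 := by ring
  have e2 : m + 1 + 3 = m + 4 := by ring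
  rw [e1, e2] at a3
  have a4 := D.a2_S m p q
  have hS := D.memS m p q
  have hY := D.degY1 (n := m + 1) hS le_rfl
  have a5 := D.degA23 (n := m + 4) (add_mem (add_mem (D.degU2 (n := m + 1) hS (by omega)) hY)
    (D.degU2 (n := m + 1) hY (by omega))) (by omega)
  have r' : D.Y (D.U (D.S m p q)) = D.U (D.Y (D.S m p q)) + D.A2 (D.S m p q +
      D.U (D.S m p q) + D.Y (D.S m p q) + D.U (D.Y (D.S m p q))) := by
    rw [← r, ← one_smul (ZMod 2) (D.Y (D.U (D.S m p q)))]
    match_scalars <;> decide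
  set N := D.F (m + 4)
  refine mem2 (add_mem (add_mem (add_mem (add_mem a1 a2) (N.smul_mem (ind p + ind q) a3)) a4) a5) ?_
  simp only [map_add, map_smul, r']
  generalize ind p = b; generalize ind q = c
  match_scalars <;> (revert b c; decide)

theorem star2 (m : ℤ) (p q : Bool) : D.Y (D.T (m + 2) p q) + D.H (D.T m p q) +
    (ind p + ind q + 1) • D.T (m + 3) p q ∈ D.F (m + 5) := by
  have r := D.relH (D.S m p q)
  have a1 := D.degY1 (n := m + 5) (D.h_S m p q) (by omega)
  have a2 := D.degH3 (n := m + 5) (D.yS m p q) (by omega)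
  have a3 := D.h_S (m + 1) p q
  have e1 : m + 1 + 2 = m + 3 := by ring
  have e2 : m + 1 + 4 = m + 5 := by ring
  rw [e1, e2] at a3
  have a4 := D.a3_S m p q
  have hS := D.memS m p q
  have hY := D.degY1 (n := m + 1) hS le_rfl
  have a5 := D.degA34 (n := m + 5) (add_mem (add_mem (D.degH3 (n := m + 1) hS (by omega)) hY)
    (D.degH3 (n := m + 1) hY (by omega))) (by omega)
  have r' : D.Y (D.H (D.S m p q)) = D.H (D.Y (D.S m p q)) + D.A3 (D.S m p q +
      D.H (D.S m p q) + D.Y (D.S m p q) + D.H (D.Y (D.S m p q))) := by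
    rw [← r, ← one_smul (ZMod 2) (D.Y (D.H (D.S m p q)))]
    match_scalars <;> decide
  set N := D.F (m + 5)
  refine mem2 (add_mem (add_mem (add_mem (add_mem a1 a2) (N.smul_mem (ind p + ind q) a3)) a4) a5) ?_
  simp only [map_add, map_smul, r']
  generalize ind p = b; generalize ind q = c
  match_scalars <;> (revert b c; decide)

theorem x_S (m : ℤ) (p q : Bool) : D.X (D.S m p q) + (D.par m • D.B (m + 1) (m + 1) p q +
    (D.par m + 1) • D.B m (m + 2) p q) + D.par m • D.S (m + 1) p q ∈ D.F (m + 2) := by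
  have w := D.winX m (m + 1) p q (m + 2) (by omega)
  have a1 := D.cst (i := m + 2) (j := m + 1) (m := m + 1) (n := m + 2) p q (by omega) (by omega)
  have a2 := D.cst (i := m + 1) (j := m + 1 + 1) (m := m + 1) (n := m + 2) p q (by omega) (by omega)
  have a3 := D.cst (i := m) (j := m + 1 + 2) (m := m + 1) (n := m + 2) p q (by omega) (by omega)
  have e : m + 1 + 1 = m + 2 := by ring
  rw [e] at w a2
  set N := D.F (m + 2)
  refine mem2 (add_mem w (add_mem (add_mem (N.smul_mem (D.ch m) a1)
    (N.smul_mem (D.par m * D.par (m + 1)) a2)) (N.smul_mem (D.ch (m + 1)) a3))) ?_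
  rw [D.par_succ, D.ch_succ]
  have eS : D.S m p q = D.B m (m + 1) p q := rfl
  rw [eS]
  generalize D.par m = a; generalize D.ch m = b
  match_scalars <;> (revert a b; decide)

end LD

end Pool.Agent.Lib.MP_ffb54b_al.P2
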