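import Pool.Agent.Lib.MP_ffb54b_al.P2.Lines2

set_option autoImplicit false

namespace Pool.Agent.Lib.MP_ffb54b_al.P2

variable {K : Type*} [AddCommGroup K] [Module (ZMod 2) K]

namespace LD

variable (D : LD K)

theorem ind_self (p : Bool) : ind p + ind p = 0 := by cases p <;> decide

theorem prop_two (P : ℤ → Prop) (m0 : ℤ) (h0 : ∀ k < m0, P k)
    (hs : ∀ m, P m → P (m + 1) → P (m + 2)) (k : ℤ) : P k := by
  have key : ∀ n : ℕ, ∀ k < m0 + n, P k := by
    intro n
    induction n with
    | zero => simpa using h0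
    | succ n ih =>
      intro k hk
      have h := hs (k - 2) (ih _ (by push_cast at hk; omega)) (ih _ (by push_cast at hk; omega))
      have e : k - 2 + 2 = k := by ring
      rwa [e] at h
  exact key (k - m0 + 1).toNat k (by omega)

theorem r2_step (p : Bool) (m : ℤ) (h1 : D.T m p p ∈ D.F (m + 2))
    (h2 : D.T (m + 1) p p ∈ D.F (m + 1 + 2)) : D.T (m + 2) p p ∈ D.F (m + 2 + 2) := by
  have s := D.star1 m p p
  have a1 := D.degY1 (n := m + 4) h2 (by omega)
  have a2 := D.degU2 (n := m + 4) h1 (by omega)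
  refine D.up (n := m + 4) (mem2 (add_mem (add_mem s a1) a2) ?_) (by omega)
  rw [ind_self]
  match_scalars <;> decide

section R2

variable {D}
variable {p : Bool} (h2 : ∀ m, D.T m p p ∈ D.F (m + 2))
include h2

theorem ev {i j m n : ℤ} (h : i + j = 2 * m) (hn : n ≤ m + 1) : D.B i j p p ∈ D.F n := by
  have a := D.even_diag (i := i) (j := j) (i' := m) (j' := m) (m := m - 1) (n := n) p p
    (by omega) (by omega) (by omega)
  rw [D.alt, add_zero] at a
  exact of_add a (Submodule.smul_mem _ _ (D.up (h2 _) (by omega)))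

theorem odd_step {i j m : ℤ} (h : i + j = 2 * m) :
    D.B (i + 1) j p p + D.B i (j + 1) p p ∈ D.F (m + 2) := by
  have w := D.winY i j p p (m + 2) (by omega)
  have y := D.degY1 (n := m + 2) (ev h2 (n := m + 1) h le_rfl) (by omega)
  have a1 := ev h2 (i := i + 2) (j := j) (m := m + 1) (n := m + 2) (by omega) (by omega)
  have a2 := ev h2 (i := i + 1) (j := j + 1) (m := m + 1) (n := m + 2) (by omega) (by omega)
  have a3 := ev h2 (i := i) (j := j + 2) (m := m + 1) (n := m + 2) (by omega) (by omega)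
  have b1 := D.cst (i := i + 3) (j := j) (m := m + 1) (n := m + 2) p p (by omega) (by omega)
  have b2 := D.cst (i := i + 2) (j := j + 1) (m := m + 1) (n := m + 2) p p (by omega) (by omega)
  have b3 := D.cst (i := i + 1) (j := j + 2) (m := m + 1) (n := m + 2) p p (by omega) (by omega)
  have b4 := D.cst (i := i) (j := j + 3) (m := m + 1) (n := m + 2) p p (by omega) (by omega)
  have c1 := D.memB (i + 4) j p p (m + 2) (by omega)
  have c2 := D.memB (i + 3) (j + 1) p p (m + 2) (by omega)
  have c3 := D.memB (i + 2) (j + 2) p p (m + 2) (by omega)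
  have c4 := D.memB (i + 1) (j + 3) p p (m + 2) (by omega)
  have c5 := D.memB i (j + 4) p p (m + 2) (by omega)
  have hp := D.par_even (i := i) (j := j) (m - i) (by omega)
  set N := D.F (m + 2)
  refine mem2 (add_mem (add_mem (add_mem (add_mem w y)
    (add_mem (add_mem (N.smul_mem (D.par i + ind p) a1) a2) (N.smul_mem (D.par j + ind p) a3)))
    (add_mem (add_mem (add_mem (N.smul_mem (D.par i + ind p) b1) (N.smul_mem (D.par i + ind p) b2))
      (N.smul_mem (D.par j + ind p) b3)) (N.smul_mem (D.par j + ind p) b4)))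
    (add_mem (add_mem (add_mem (add_mem (N.smul_mem (D.ch i + ind p * (D.par i + 1)) c1)
      (N.smul_mem (D.par i + ind p) c2)) (N.smul_mem ((D.par i + ind p) * (D.par j + ind p)) c3))
      (N.smul_mem (D.par j + ind p) c4)) (N.smul_mem (D.ch j + ind p * (D.par j + 1)) c5))) ?_
  rw [hp]
  generalize D.par i = a; generalize ind p = b
  generalize D.ch i = d; generalize D.ch j = e
  match_scalars <;> (revert a b d e; decide)

theorem cst2 {i j m n : ℤ} (h : i + j = 2 * m + 1) (hn : n ≤ m + 2) :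
    D.B i j p p + D.S m p p ∈ D.F n := by
  have a := D.antidiag (D.F (m + 2)) (2 * m + 1) p p 0
    (fun i j e => by rw [add_zero]; exact odd_step h2 (by omega)) h
    (show m + (m + 1) = 2 * m + 1 by ring)
  rw [smul_zero, add_zero] at a
  exact D.up a hn

theorem y_ord4 {i j m : ℤ} (h : i + j = 2 * m + 1) :
    D.Y (D.B i j p p) + (D.B (i + 1) j p p + D.B i (j + 1) p p) +
      (D.par m + ind p + 1) • D.S (m + 2) p p ∈ D.F (m + 3) := by
  have w := D.winY i j p p (m + 3) (by omega)
  have a1 := cst2 h2 (i := i + 2) (j := j) (m := m + 1) (n := m + 3) (by omega) (by omega)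
  have a2 := cst2 h2 (i := i + 1) (j := j + 1) (m := m + 1) (n := m + 3) (by omega) (by omega)
  have a3 := cst2 h2 (i := i) (j := j + 2) (m := m + 1) (n := m + 3) (by omega) (by omega)
  have b1 := ev h2 (i := i + 3) (j := j) (m := m + 2) (n := m + 3) (by omega) (by omega)
  have b2 := ev h2 (i := i + 2) (j := j + 1) (m := m + 2) (n := m + 3) (by omega) (by omega)
  have b3 := ev h2 (i := i + 1) (j := j + 2) (m := m + 2) (n := m + 3) (by omega) (by omega)
  have b4 := ev h2 (i := i) (j := j + 3) (m := m + 2) (n := m + 3) (by omega) (by omega)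
  have c1 := D.cst (i := i + 4) (j := j) (m := m + 2) (n := m + 3) p p (by omega) (by omega)
  have c2 := D.cst (i := i + 3) (j := j + 1) (m := m + 2) (n := m + 3) p p (by omega) (by omega)
  have c3 := D.cst (i := i + 2) (j := j + 2) (m := m + 2) (n := m + 3) p p (by omega) (by omega)
  have c4 := D.cst (i := i + 1) (j := j + 3) (m := m + 2) (n := m + 3) p p (by omega) (by omega)
  have c5 := D.cst (i := i) (j := j + 4) (m := m + 2) (n := m + 3) p p (by omega) (by omega)
  have hp := D.par_odd (i := i) (j := j) (m - i) (by omega)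
  have hc := D.ch_sum' h
  set N := D.F (m + 3)
  refine mem2 (add_mem (add_mem (add_mem w
    (add_mem (add_mem (N.smul_mem (D.par i + ind p) a1) a2) (N.smul_mem (D.par j + ind p) a3)))
    (add_mem (add_mem (add_mem (N.smul_mem (D.par i + ind p) b1) (N.smul_mem (D.par i + ind p) b2))
      (N.smul_mem (D.par j + ind p) b3)) (N.smul_mem (D.par j + ind p) b4)))
    (add_mem (add_mem (add_mem (add_mem (N.smul_mem (D.ch i + ind p * (D.par i + 1)) c1)
      (N.smul_mem (D.par i + ind p) c2)) (N.smul_mem ((D.par i + ind p) * (D.par j + ind p)) c3))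
      (N.smul_mem (D.par j + ind p) c4)) (N.smul_mem (D.ch j + ind p * (D.par j + 1)) c5))) ?_
  rw [hp, hc]
  generalize D.par i = a; generalize ind p = b
  generalize D.ch i = d; generalize D.par m = e
  match_scalars <;> (revert a b d e; decide)

theorem yS4 (m : ℤ) :
    D.Y (D.S m p p) + D.T m p p + (D.par m + ind p + 1) • D.S (m + 2) p p ∈ D.F (m + 3) := by
  have h := y_ord4 h2 (i := m) (j := m + 1) (m := m) (by omega)
  have e : m + 1 + 1 = m + 2 := by ring
  rw [e] at h
  exact h

theorem delta_ind4 {i j m : ℤ} (h : i + j = 2 * m + 1) :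
    D.B (i + 1) j p p + D.B i (j + 1) p p + D.T m p p ∈ D.F (m + 3) := by
  have a1 := y_ord4 h2 h
  have a2 := yS4 h2 m
  have a3 := D.degY1 (n := m + 3) (cst2 h2 (n := m + 2) h le_rfl) (by omega)
  refine mem2 (add_mem (add_mem a1 a2) a3) ?_
  simp only [map_add]
  generalize ind p = b; generalize D.par m = c
  match_scalars <;> (revert b c; decide)

theorem even_diag4 {i j i' j' m n : ℤ} (h : i + j = 2 * m + 2) (h' : i' + j' = 2 * m + 2)
    (hn : n ≤ m + 3) :
    D.B i j p p + D.B i' j' p p + (D.par i + D.par i') • D.T m p p ∈ D.F n :=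
  D.up (D.antidiag (D.F (m + 3)) (2 * m + 2) p p (D.T m p p)
    (fun _ _ e => delta_ind4 h2 (by omega)) h h') hn

theorem u_S4 (m : ℤ) : D.U (D.S m p p) + D.T (m + 1) p p ∈ D.F (m + 4) := by
  have w := D.winU m (m + 1) p p (m + 4) (by omega)
  have a := even_diag4 h2 (i := m + 3) (j := m + 1) (i' := m) (j' := m + 1 + 3) (m := m + 1)
    (n := m + 4) (by omega) (by omega) (by omega)
  have b1 := D.cst (i := m + 6) (j := m + 1) (m := m + 3) (n := m + 4) p p (by omega) (by omega)
  have b2 := D.cst (i := m + 3) (j := m + 1 + 3) (m := m + 3) (n := m + 4) p p (by omega) (by omega)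
  have b3 := D.cst (i := m) (j := m + 1 + 6) (m := m + 3) (n := m + 4) p p (by omega) (by omega)
  have hp := D.par_odd (i := m) (j := m + 3) 1 (by omega)
  set N := D.F (m + 4)
  refine mem2 (add_mem (add_mem w a) (add_mem (add_mem (N.smul_mem (D.par m + ind p) b1) b2)
    (N.smul_mem (D.par (m + 1) + ind p) b3))) ?_
  rw [hp, D.par_succ]
  have eS : D.S m p p = D.B m (m + 1) p p := rfl
  rw [eS]
  generalize D.par m = a; generalize ind p = b
  match_scalars <;> (revert a b; decide)

theorem a2_S4 (m : ℤ) : D.A2 (D.S m p p) + D.T (m + 2) p p ∈ D.F (m + 5) := by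
  have w := D.winA2 m (m + 1) p p (m + 5) (by omega)
  have a := even_diag4 h2 (i := m + 5) (j := m + 1) (i' := m) (j' := m + 1 + 5) (m := m + 2)
    (n := m + 5) (by omega) (by omega) (by omega)
  have hp := D.par_odd (i := m) (j := m + 5) 2 (by omega)
  have b1 := cst2 h2 (i := m + 6) (j := m + 1) (m := m + 3) (n := m + 5) (by omega) (by omega)
  have b2 := cst2 h2 (i := m) (j := m + 1 + 6) (m := m + 3) (n := m + 5) (by omega) (by omega)
  have c1 := ev h2 (i := m + 7) (j := m + 1) (m := m + 4) (n := m + 5) (by omega) (by omega)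
  have c2 := ev h2 (i := m) (j := m + 1 + 7) (m := m + 4) (n := m + 5) (by omega) (by omega)
  have d1 := D.cst (i := m + 8) (j := m + 1) (m := m + 4) (n := m + 5) p p (by omega) (by omega)
  have d2 := D.cst (i := m) (j := m + 1 + 8) (m := m + 4) (n := m + 5) p p (by omega) (by omega)
  set N := D.F (m + 5)
  refine mem2 (add_mem (add_mem (add_mem (add_mem w a) (N.smul_mem D.c6 (add_mem b1 b2)))
    (N.smul_mem D.c7 (add_mem c1 c2))) (N.smul_mem D.c8 (add_mem d1 d2))) ?_
  rw [hp]
  have eS : D.S m p p = D.B m (m + 1) p p := rfl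
  rw [eS]
  generalize D.par m = a; generalize D.c6 = b; generalize D.c7 = c; generalize D.c8 = d
  match_scalars <;> (revert a b c d; decide)

theorem r3_step (m : ℤ) (g1 : D.T m p p ∈ D.F (m + 3))
    (g2 : D.T (m + 1) p p ∈ D.F (m + 1 + 3)) : D.T (m + 2) p p ∈ D.F (m + 2 + 3) := by
  have r := D.relU (D.S m p p)
  have a1 := D.degY1 (n := m + 5) (u_S4 h2 m) (by omega)
  have a2 := D.degU2 (n := m + 5) (yS4 h2 m) (by omega)
  have a3 : D.U (D.S (m + 2) p p) ∈ D.F (m + 5) :=
    of_add (D.up (D.u_S (m + 2) p p) (by omega)) (D.up (h2 _) (by omega))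
  have a4 := a2_S4 h2 m
  have hY : D.Y (D.S m p p) ∈ D.F (m + 2) := by
    have h := D.yS m p p
    rw [ind_self, zero_smul, add_zero] at h
    exact of_add h (h2 m)
  have a5 := D.degA23 (n := m + 5) (add_mem (add_mem
    (D.degU2 (n := m + 2) (D.memS m p p) (by omega)) hY)
    (D.degU2 (n := m + 2) hY (by omega))) (by omega)
  have a6 := D.degY1 (n := m + 5) g2 (by omega)
  have a7 := D.degU2 (n := m + 5) g1 (by omega)
  have r' : D.Y (D.U (D.S m p p)) = D.U (D.Y (D.S m p p)) + D.A2 (D.S m p p +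
      D.U (D.S m p p) + D.Y (D.S m p p) + D.U (D.Y (D.S m p p))) := by
    rw [← r, ← one_smul (ZMod 2) (D.Y (D.U (D.S m p p)))]
    match_scalars <;> decide
  set N := D.F (m + 5)
  refine D.up (n := m + 5) (mem2 (add_mem (add_mem (add_mem (add_mem (add_mem (add_mem a1 a2)
    (N.smul_mem (D.par m + ind p + 1) a3)) a4) a5) a6) a7) ?_) (by omega)
  simp only [map_add, map_smul, r']
  generalize ind p = b; generalize D.par m = c
  match_scalars <;> (revert b c; decide)

theorem killY (m : ℤ) : D.Y (D.S m p p) ∈ D.F (m + 2) := by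
  have h := D.yS m p p
  rw [ind_self, zero_smul, add_zero] at h
  exact of_add h (h2 m)

theorem killU (m : ℤ) : D.U (D.S m p p) ∈ D.F (m + 3) :=
  of_add (D.u_S m p p) (D.up (h2 _) (by omega))

theorem killH (m : ℤ) : D.H (D.S m p p) ∈ D.F (m + 4) :=
  of_add (D.h_S m p p) (D.up (h2 _) (by omega))

theorem xS2 (m : ℤ) : D.X (D.S m p p) + D.par m • D.S (m + 1) p p ∈ D.F (m + 2) := by
  have h := D.x_S m p p
  have a := ev h2 (i := m) (j := m + 2) (m := m + 1) (n := m + 2) (by omega) (by omega)
  rw [D.alt] at h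
  refine mem2 (add_mem h (Submodule.smul_mem _ (D.par m + 1) a)) ?_
  generalize D.par m = c
  match_scalars <;> (revert c; decide)

end R2

theorem r2_all (p : Bool) (m0 : ℤ) (h0 : ∀ k < m0, D.T k p p ∈ D.F (k + 3)) (m : ℤ) :
    D.T m p p ∈ D.F (m + 2) :=
  prop_two (fun k => D.T k p p ∈ D.F (k + 2)) m0 (fun k hk => D.up (h0 k hk) (by omega))
    (D.r2_step p) m

theorem r3_all (p : Bool) (m0 : ℤ) (h0 : ∀ k < m0, D.T k p p ∈ D.F (k + 3)) (m : ℤ) :
    D.T m p p ∈ D.F (m + 3) :=
  prop_two (fun k => D.T k p p ∈ D.F (k + 3)) m0 h0 (r3_step (D.r2_all p m0 h0)) m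

end LD

end Pool.Agent.Lib.MP_ffb54b_al.P2
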