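import Pool.Agent.Lib.MP_ffb54b_al.P2.Lines3

set_option autoImplicit false

namespace Pool.Agent.Lib.MP_ffb54b_al.P2

variable {K : Type*} [AddCommGroup K] [Module (ZMod 2) K]

namespace LD

variable (D : LD K)

/-- the class of `k` at level `m` lies in the span of the two squares. -/
def InSq (m : ℤ) (k : K) : Prop :=
  ∃ s1 s3 : ZMod 2, k + (s1 • D.S m true true + s3 • D.S m false false) ∈ D.F (m + 1)

theorem two_zero {m : ℤ} {a b c : K}
    (hg : ∀ k ∈ D.F m, ∃ c1 c2 c3 : ZMod 2, k + (c1 • a + c2 • b + c3 • c) ∈ D.F (m + 1))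
    (hb : b ∈ D.F (m + 1)) (hc : c ∈ D.F (m + 1)) : False := by
  refine D.dimLow m a fun k hk => ?_
  obtain ⟨c1, c2, c3, h⟩ := hg k hk
  have h1 := add_mem h (add_mem (Submodule.smul_mem _ c2 hb) (Submodule.smul_mem _ c3 hc))
  rcases z2 c1 with rfl | rfl
  · left
    refine mem2 h1 ?_
    generalize c2 = x; generalize c3 = y
    match_scalars <;> (revert x y; decide)
  · right
    refine mem2 h1 ?_
    generalize c2 = x; generalize c3 = y
    match_scalars <;> (revert x y; decide)

theorem not_wb {m : ℤ} (hb : D.S m true false ∈ D.F (m + 1))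
    (hc : D.S m false false ∈ D.F (m + 1)) : False :=
  D.two_zero (D.gen m) hb hc

theorem not_wa {m : ℤ} (hb : D.S m true false ∈ D.F (m + 1))
    (hc : D.S m true true ∈ D.F (m + 1)) : False := by
  refine D.two_zero (a := D.S m false false) (fun k hk => ?_) hb hc
  obtain ⟨c1, c2, c3, h⟩ := D.gen m k hk
  refine ⟨c3, c2, c1, mem2 h ?_⟩
  simp only [S]
  match_scalars <;> ring

theorem not_ab {m : ℤ} (hb : D.S m true true ∈ D.F (m + 1))
    (hc : D.S m false false ∈ D.F (m + 1)) : False := by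
  refine D.two_zero (a := D.S m true false) (fun k hk => ?_) hb hc
  obtain ⟨c1, c2, c3, h⟩ := D.gen m k hk
  refine ⟨c2, c1, c3, mem2 h ?_⟩
  simp only [S]
  match_scalars <;> ring

variable {D}

theorem op_sq (A : K →ₗ[ZMod 2] K) {m n : ℤ} (h1 : ∀ k ∈ D.F (m + 1), A k ∈ D.F n)
    (h2 : ∀ p, A (D.S m p p) ∈ D.F n) {k : K} (hk : D.InSq m k) : A k ∈ D.F n := by
  obtain ⟨s1, s3, h⟩ := hk
  refine mem2 (add_mem (h1 _ h) (add_mem (Submodule.smul_mem _ s1 (h2 true))
    (Submodule.smul_mem _ s3 (h2 false)))) ?_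
  simp only [map_add, map_smul]
  generalize s1 = x; generalize s3 = y
  match_scalars <;> (revert x y; decide)

theorem op_bad (A : K →ₗ[ZMod 2] K) {m n : ℤ} (h1 : ∀ k ∈ D.F (m + 1), A k ∈ D.F n)
    (h2 : ∀ p, A (D.S m p p) ∈ D.F n) {w e : K} (hb : D.InSq m w ∨ D.InSq m (w + e))
    (he : A e ∈ D.F n) : A w ∈ D.F n := by
  rcases hb with hb | hb
  · exact op_sq A h1 h2 hb
  · have h := op_sq A h1 h2 hb
    rw [map_add] at h
    exact of_add h he

section R3

variable (h3 : ∀ p m, D.T m p p ∈ D.F (m + 3))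
include h3

theorem h2of (p : Bool) (m : ℤ) : D.T m p p ∈ D.F (m + 2) := D.up (h3 p m) (by omega)

theorem y_class {m : ℤ} {z : K} (hz : z ∈ D.F m) :
    ∃ c : ZMod 2, D.Y z + c • D.Y (D.S m true false) ∈ D.F (m + 2) := by
  obtain ⟨c1, c2, c3, h⟩ := D.gen m z hz
  refine ⟨c2, mem2 (add_mem (D.degY1 (n := m + 2) h (by omega))
    (add_mem (Submodule.smul_mem _ c1 (killY (h2of h3 true) m))
      (Submodule.smul_mem _ c3 (killY (h2of h3 false) m)))) ?_⟩
  simp only [S, map_add, map_smul]
  generalize c1 = x; generalize c2 = y; generalize c3 = z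
  match_scalars <;> (revert x y z; decide)

theorem y_zero {m : ℤ} (hw : D.Y (D.S m true false) ∈ D.F (m + 2)) {z : K} (hz : z ∈ D.F m) :
    D.Y z ∈ D.F (m + 2) := by
  obtain ⟨c, h⟩ := y_class h3 hz
  exact of_add h (Submodule.smul_mem _ c hw)

theorem r4 {m : ℤ} {s1 s3 : ZMod 2}
    (h : s1 • D.S m true true + s3 • D.S m false false ∈ D.F (m + 1)) :
    ∃ z ∈ D.F (m + 1), D.Y z + ((D.par m * s1) • D.S (m + 2) true true +
      ((D.par m + 1) * s3) • D.S (m + 2) false false) ∈ D.F (m + 3) := by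
  refine ⟨_, h, ?_⟩
  have a1 := of_add (N := D.F (m + 3)) (x := D.Y (D.S m true true) +
    (D.par m + ind true + 1) • D.S (m + 2) true true) (y := D.T m true true)
    (by have h := yS4 (h2of h3 true) m; rwa [add_right_comm] at h) (h3 true m)
  have a2 := of_add (N := D.F (m + 3)) (x := D.Y (D.S m false false) +
    (D.par m + ind false + 1) • D.S (m + 2) false false) (y := D.T m false false)
    (by have h := yS4 (h2of h3 false) m; rwa [add_right_comm] at h) (h3 false m)
  refine mem2 (add_mem (Submodule.smul_mem _ s1 a1) (Submodule.smul_mem _ s3 a2)) ?_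
  have e1 : ind true = 1 := rfl
  have e2 : ind false = 0 := rfl
  simp only [map_add, map_smul, e1, e2]
  generalize s1 = x; generalize s3 = y; generalize D.par m = z
  match_scalars <;> (revert x y z; decide)

theorem r4b {m : ℤ} (hp : D.par m = 0) (h : D.S m false false ∈ D.F (m + 1)) :
    ∃ z ∈ D.F (m + 1), D.Y z + D.S (m + 2) false false ∈ D.F (m + 3) := by
  obtain ⟨z, hz, h1⟩ := r4 h3 (m := m) (s1 := 0) (s3 := 1) (by simpa using h)
  refine ⟨z, hz, ?_⟩
  rw [hp] at h1
  simpa using h1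

theorem xr {m : ℤ} (hp : D.par m = 1) {s1 s3 : ZMod 2}
    (h : s1 • D.S m true true + s3 • D.S m false false ∈ D.F (m + 1)) :
    s1 • D.S (m + 1) true true + s3 • D.S (m + 1) false false ∈ D.F (m + 2) := by
  have a0 := D.up (D.degX _ _ h) (show m + 2 ≤ m + 1 + 1 by omega)
  have a1 := xS2 (h2of h3 true) m
  have a2 := xS2 (h2of h3 false) m
  refine mem2 (add_mem a0 (add_mem (Submodule.smul_mem _ s1 a1) (Submodule.smul_mem _ s3 a2))) ?_
  simp only [map_add, map_smul, hp]
  generalize s1 = x; generalize s3 = y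
  match_scalars <;> (revert x y; decide)

theorem bad {m : ℤ} (he : D.InSq (m + 1) (D.T m true false))
    (hb : D.InSq (m + 2) (D.S (m + 2) true false) ∨
      D.InSq (m + 2) (D.S (m + 2) true false + D.T (m + 1) true false)) :
    (∀ z ∈ D.F (m + 2), D.Y z ∈ D.F (m + 4)) ∧ (∀ z ∈ D.F (m + 3), D.Y z ∈ D.F (m + 5)) ∧
      (∀ z ∈ D.F (m + 4), D.Y z ∈ D.F (m + 6)) ∧ D.S (m + 4) true false ∈ D.F (m + 5) ∧
      D.S (m + 5) true false ∈ D.F (m + 6) := by
  have i1 : ind true + ind false = 1 := by decide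
  have i2 : (1 : ZMod 2) + 1 = 0 := by decide
  have st1 : ∀ k, D.Y (D.T (k + 1) true false) + D.U (D.T k true false) ∈ D.F (k + 4) := by
    intro k
    have h := D.star1 k true false
    rwa [i1, i2, zero_smul, add_zero] at h
  have st2 : ∀ k, D.Y (D.T (k + 2) true false) + D.H (D.T k true false) ∈ D.F (k + 5) := by
    intro k
    have h := D.star2 k true false
    rwa [i1, i2, zero_smul, add_zero] at h
  have yw : ∀ k, D.Y (D.S k true false) ∈ D.F (k + 2) →
      D.S (k + 1) true false + D.T k true false ∈ D.F (k + 2) := by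
    intro k hk
    have h := D.yS k true false
    rw [i1, one_smul] at h
    refine mem2 (add_mem h hk) ?_
    match_scalars <;> decide
  have e11 : m + 1 + 1 = m + 2 := by ring
  have e12 : m + 1 + 2 = m + 3 := by ring
  have e21 : m + 2 + 1 = m + 3 := by ring
  have e22 : m + 2 + 2 = m + 4 := by ring
  have e31 : m + 3 + 1 = m + 4 := by ring
  have e41 : m + 4 + 1 = m + 5 := by ring
  have u0 : D.U (D.T m true false) ∈ D.F (m + 4) :=
    op_sq D.U (fun k hk => D.degU2 hk (by omega))
      (fun p => D.up (killU (h2of h3 p) _) (by omega)) he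
  have h0 : D.H (D.T m true false) ∈ D.F (m + 5) :=
    op_sq D.H (fun k hk => D.degH3 hk (by omega))
      (fun p => D.up (killH (h2of h3 p) _) (by omega)) he
  have y1 : D.Y (D.T (m + 1) true false) ∈ D.F (m + 4) := of_add (st1 m) u0
  have w1 : D.Y (D.S (m + 2) true false) ∈ D.F (m + 2 + 2) :=
    op_bad D.Y (fun k hk => D.degY1 hk (by omega)) (fun p => killY (h2of h3 p) _) hb
      (D.up y1 (by omega))
  have q1 := yw _ w1
  have y2 : D.Y (D.T (m + 2) true false) ∈ D.F (m + 5) := of_add (st2 m) h0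
  have w2 : D.Y (D.S (m + 3) true false) ∈ D.F (m + 3 + 2) := by
    have h := D.degY1 (n := m + 3 + 2) q1 (by omega)
    rw [map_add, e21] at h
    exact of_add h (D.up y2 (by omega))
  have q2 := yw _ w2
  have u1 : D.U (D.T (m + 1) true false) ∈ D.F (m + 5) := by
    have h := st1 (m + 1)
    rw [e11, add_comm (D.Y _)] at h
    exact D.up (of_add h (D.up y2 (by omega))) (by omega)
  have u2 : D.U (D.S (m + 2) true false) ∈ D.F (m + 5) :=
    op_bad D.U (fun k hk => D.degU2 hk (by omega))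
      (fun p => D.up (killU (h2of h3 p) _) (by omega)) hb u1
  have t3 : D.T (m + 3) true false ∈ D.F (m + 5) := by
    have h := D.u_S (m + 2) true false
    rw [e21, add_comm (D.U _)] at h
    exact D.up (of_add h (D.up u2 (by omega))) (by omega)
  have s4 : D.S (m + 4) true false ∈ D.F (m + 5) := by
    rw [e31] at q2
    exact of_add (D.up q2 (by omega)) t3
  have w3 : D.Y (D.S (m + 4) true false) ∈ D.F (m + 4 + 2) := D.degY1 s4 (by omega)
  have q3 := yw _ w3
  have y3 : D.Y (D.T (m + 3) true false) ∈ D.F (m + 6) := D.degY1 t3 (by omega)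
  have h1 : D.H (D.T (m + 1) true false) ∈ D.F (m + 6) := by
    have h := st2 (m + 1)
    rw [e12, add_comm (D.Y _)] at h
    exact D.up (of_add h (D.up y3 (by omega))) (by omega)
  have h2 : D.H (D.S (m + 2) true false) ∈ D.F (m + 6) :=
    op_bad D.H (fun k hk => D.degH3 hk (by omega))
      (fun p => D.up (killH (h2of h3 p) _) (by omega)) hb h1
  have t4 : D.T (m + 4) true false ∈ D.F (m + 6) := by
    have h := D.h_S (m + 2) true false
    rw [e22, add_comm (D.H _)] at h
    exact D.up (of_add h (D.up h2 (by omega))) (by omega)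
  have s5 : D.S (m + 5) true false ∈ D.F (m + 6) := by
    rw [e41] at q3
    exact of_add (D.up q3 (by omega)) t4
  exact ⟨fun z hz => D.up (y_zero h3 w1 hz) (by omega),
    fun z hz => D.up (y_zero h3 w2 hz) (by omega),
    fun z hz => D.up (y_zero h3 w3 hz) (by omega), s4, s5⟩

theorem step {m : ℤ} (hb : D.S (m + 1) false false ∈ D.F (m + 2))
    (he : D.InSq (m + 1) (D.T m true false)) :
    D.S (m + 2) false false ∈ D.F (m + 3) ∧ D.InSq (m + 2) (D.T (m + 1) true false) := by
  have e11 : m + 1 + 1 = m + 2 := by ring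
  have e12 : m + 1 + 2 = m + 3 := by ring
  have e14 : m + 1 + 4 = m + 5 := by ring
  have e21 : m + 2 + 1 = m + 3 := by ring
  have e22 : m + 2 + 2 = m + 4 := by ring
  have e32 : m + 3 + 2 = m + 5 := by ring
  have e41 : m + 4 + 1 = m + 5 := by ring
  have i2 : (1 : ZMod 2) + 1 = 0 := by decide
  have xb : D.par (m + 1) = 1 → D.S (m + 2) false false ∈ D.F (m + 3) := by
    intro hp
    have h := xr h3 hp (s1 := 0) (s3 := 1) (by simpa using D.up hb (by omega))
    rw [e11, e12] at h
    simpa using h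
  have nb : ¬ (D.InSq (m + 2) (D.S (m + 2) true false) ∨
      D.InSq (m + 2) (D.S (m + 2) true false + D.T (m + 1) true false)) := by
    intro hbad
    obtain ⟨y1, y2, y3, s4, s5⟩ := bad h3 he hbad
    rcases z2 (D.par (m + 1)) with hp | hp
    · obtain ⟨z, hz, h1⟩ := r4b h3 hp (D.up hb (by omega))
      rw [e12, add_comm (D.Y _)] at h1
      have b3 := of_add h1 (D.up (y1 z (D.up hz (by omega))) (by omega))
      have hp3 : D.par (m + 3) = 0 := by rw [D.par_even (i := m + 1) 1 (by ring), hp]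
      obtain ⟨z', hz', h2⟩ := r4b h3 hp3 (D.up b3 (by omega))
      rw [e32, add_comm (D.Y _)] at h2
      have b5 := of_add h2 (D.up (y3 z' (D.up hz' (by omega))) (by omega))
      exact D.not_wb (D.up s5 (by omega)) (D.up b5 (by omega))
    · have hp2 : D.par (m + 2) = 0 := by rw [D.par_odd (i := m + 1) 0 (by ring), hp, i2]
      obtain ⟨z, hz, h1⟩ := r4b h3 hp2 (D.up (xb hp) (by omega))
      rw [e22, add_comm (D.Y _)] at h1
      have b4 := of_add h1 (D.up (y2 z (D.up hz (by omega))) (by omega))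
      exact D.not_wb (D.up s4 (by omega)) (D.up b4 (by omega))
  have he' : D.InSq (m + 2) (D.T (m + 1) true false) := by
    obtain ⟨c1, c2, c3, h⟩ := D.gen (m + 2) _ (D.up (D.memT (m + 1) true false) (by omega))
    rcases z2 c2 with rfl | rfl
    · refine ⟨c1, c3, mem2 h ?_⟩
      simp only [S]
      match_scalars <;> ring
    · refine absurd (Or.inr ⟨c1, c3, mem2 h ?_⟩) nb
      simp only [S]
      match_scalars <;> ring
  refine ⟨?_, he'⟩
  rcases z2 (D.par (m + 1)) with hp | hp
  swap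
  · exact xb hp
  obtain ⟨s1, s2, s3, hne, hs⟩ := D.dimUp (m + 2)
  have hs2 : s2 = 0 := by
    rcases z2 s2 with h | rfl
    · exact h
    · refine absurd (Or.inl ⟨s1, s3, mem2 hs ?_⟩) nb
      simp only [S]
      match_scalars <;> ring
  subst hs2
  rw [zero_smul, add_zero] at hs
  change s1 • D.S (m + 2) true true + s3 • D.S (m + 2) false false ∈ _ at hs
  rcases z2 s1 with rfl | rfl
  · rcases z2 s3 with rfl | rfl
    · exact absurd ⟨rfl, rfl, rfl⟩ hne
    · simpa [e21] using hs
  exfalso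
  have hp2 : D.par (m + 2) = 1 := by rw [D.par_odd (i := m + 1) 0 (by ring), hp, zero_add]
  have x3 := xr h3 hp2 hs
  rw [e21, e22, one_smul] at x3
  obtain ⟨z, hz, h1⟩ := r4b h3 hp (D.up hb (by omega))
  rw [e12] at h1
  obtain ⟨c, hc⟩ := y_class h3 (m := m + 2) (D.up hz (by omega))
  rcases z2 c with rfl | rfl
  · rw [zero_smul, add_zero] at hc
    rw [add_comm (D.Y _)] at h1
    have b3 := of_add h1 (D.up hc (by omega))
    have a3 := of_add x3 (Submodule.smul_mem _ s3 (D.up b3 (by omega)))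
    exact D.not_ab (D.up a3 (by omega)) (D.up b3 (by omega))
  · have hy := D.yS (m + 2) true false
    have i1 : ind true + ind false = 1 := by decide
    rw [i1, e21, e22] at hy
    rw [e22] at hc
    have hbad : D.InSq (m + 1 + 2) (D.S (m + 1 + 2) true false + D.T (m + 1 + 1) true false) := by
      rw [e12, e11]
      refine ⟨0, 1, mem2 (D.up (add_mem (add_mem (D.up h1 (show m + 4 ≤ m + 1 + 3 by omega)) hc) hy)
        (by omega)) ?_⟩
      match_scalars <;> decide
    obtain ⟨y1, -, -, s4, -⟩ := bad h3 (m := m + 1) (by rw [e11]; exact he') (Or.inr hbad)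
    obtain ⟨z', hz', h2⟩ := r4 h3 hs
    rw [hp2, i2, zero_mul, zero_smul, add_zero, mul_one, one_smul, e22, add_comm (D.Y _)] at h2
    have a4 := of_add h2 (D.up (y1 z' (D.up hz' (by omega))) (by omega))
    have hp4 : D.par (m + 4) = 1 := by rw [D.par_even (i := m + 2) 1 (by ring), hp2]
    have a5 := xr h3 hp4 (s1 := 1) (s3 := 0) (by simpa using D.up a4 (by omega))
    rw [e41, one_smul, zero_smul, add_zero] at a5
    rw [e14] at s4
    exact D.not_wa (D.up s4 (by omega)) (D.up a5 (by omega))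

end R3

variable (D)

/-- LINES: the statement `Phi` propagates upwards. -/
theorem lines (m0 : ℤ) (h0 : ∀ k < m0, D.Phi k) (k : ℤ) : D.Phi k := by
  have h3 : ∀ p m, D.T m p p ∈ D.F (m + 3) := fun p => D.r3_all p m0 fun k hk => (h0 k hk).1 p
  have key := prop_two (fun k => D.S (k + 1) false false ∈ D.F (k + 2) ∧
      D.InSq (k + 1) (D.T k true false)) m0 (fun k hk => by
    obtain ⟨-, h1, h2⟩ := h0 k hk
    refine ⟨h1, ?_⟩
    rcases h2 with h2 | h2
    · exact ⟨0, 0, by simpa using D.up h2 (by omega)⟩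
    · exact ⟨1, 0, by simpa using D.up h2 (by omega)⟩) (fun m _ h => by
    have h1 := step h3 (m := m + 1) h.1 h.2
    have e1 : m + 1 + 2 = m + 2 + 1 := by ring
    have e2 : m + 1 + 3 = m + 2 + 2 := by ring
    have e3 : m + 1 + 1 = m + 2 := by ring
    rwa [e1, e2, e3] at h1) k
  obtain ⟨h1, s1, s3, h2⟩ := key
  refine ⟨fun p => h3 p k, h1, ?_⟩
  have h4 := add_mem (D.up h2 (show k + 2 ≤ k + 1 + 1 by omega)) (Submodule.smul_mem _ s3 h1)
  rcases z2 s1 with rfl | rfl
  · left
    refine mem2 h4 ?_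
    generalize s3 = x
    match_scalars <;> (revert x; decide)
  · right
    refine mem2 h4 ?_
    generalize s3 = x
    match_scalars <;> (revert x; decide)

end LD

end Pool.Agent.Lib.MP_ffb54b_al.P2
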