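import Pool.Agent.Lib.MP_ffb54b_al.P2.Lines4

set_option autoImplicit false
set_option linter.unusedSectionVars false

namespace Pool.Agent.Lib.MP_ffb54b_al.P2

open scoped commutatorElement
open Finset

variable {L : Type*} [LieRing L] [Module (ZMod 2) L] {Γ : Type*} [Group Γ]

/-- central elements. -/
def Cen (z : L) : Prop := ∀ w : L, ⁅z, w⁆ = 0

/-- `ρ g (e i)` equals `∑ k ≤ c, f k • e (i + k)` modulo `FV (i + c + 1)` and the centre. -/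
def Win (FV : ℤ → AddSubgroup L) (φ : L →+ L) (e : ℤ → L) (i : ℤ) (c : ℕ) (f : ℕ → ZMod 2) : Prop :=
  ∃ z, Cen z ∧ φ (e i) + z + ∑ k ∈ range (c + 1), f k • e (i + k) ∈ FV (i + c + 1)

/-- Data for LINES inside a Lie ring of class two and characteristic two: `FV i` is the filtration in
the galaxy of the positions, `FK n` the one in the galaxy of the sums. -/
structure LV (L : Type*) [LieRing L] [Module (ZMod 2) L] (Γ : Type*) [Group Γ] where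
  cls2 : ∀ a b c : L, ⁅⁅a, b⁆, c⁆ = 0
  ρ : Γ → L →+ L
  ρ_one : ∀ a, ρ 1 a = a
  ρ_mul : ∀ g h a, ρ (g * h) a = ρ g (ρ h a)
  ρ_lie : ∀ g a b, ρ g ⁅a, b⁆ = ⁅ρ g a, ρ g b⁆
  FV : ℤ → AddSubgroup L
  FK : ℤ → AddSubgroup L
  antiV : ∀ m n, m ≤ n → FV n ≤ FV m
  antiK : ∀ m n, m ≤ n → FK n ≤ FK m
  lie_mem : ∀ i j a b, a ∈ FV i → b ∈ FV j → ⁅a, b⁆ ∈ FK (i + j)
  ρ_deg : ∀ g n a, a ∈ FK n → ρ g a - a ∈ FK (n + 1)
  even : ∀ m z, Cen z → z ∈ FK (2 * m) → z ∈ FK (2 * m + 1)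
  e : Bool → ℤ → L
  e_mem : ∀ p i, e p i ∈ FV i
  const : ∀ i j p q m, i + j = 2 * m + 1 →
    ⁅e p i, e q j⁆ + ⁅e p m, e q (m + 1)⁆ ∈ FK (2 * m + 2)
  gen : ∀ m z, Cen z → z ∈ FK (2 * m + 1) → ∃ c1 c2 c3 : ZMod 2,
    z + (c1 • ⁅e true m, e true (m + 1)⁆ + c2 • ⁅e true m, e false (m + 1)⁆ +
      c3 • ⁅e false m, e false (m + 1)⁆) ∈ FK (2 * m + 2)
  dimLow : ∀ m z, ¬ ∀ k, Cen k → k ∈ FK (2 * m + 1) →
    k ∈ FK (2 * m + 2) ∨ k + z ∈ FK (2 * m + 2)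
  dimUp : ∀ m, ∃ c1 c2 c3 : ZMod 2, ¬ (c1 = 0 ∧ c2 = 0 ∧ c3 = 0) ∧
    c1 • ⁅e true m, e true (m + 1)⁆ + c2 • ⁅e true m, e false (m + 1)⁆ +
      c3 • ⁅e false m, e false (m + 1)⁆ ∈ FK (2 * m + 2)
  par : ℤ → ZMod 2
  par_succ : ∀ i, par (i + 1) = par i + 1
  ch : ℤ → ZMod 2
  ch_succ : ∀ i, ch (i + 1) = ch i + par i
  x : Γ
  y : Γ
  u : Γ
  h : Γ
  c6 : ZMod 2
  c7 : ZMod 2
  c8 : ZMod 2
  d8 : ZMod 2
  winx : ∀ p i, ∃ f, Win FV (ρ x) (e p) i 2 f ∧ f 0 = 1 ∧ f 1 = par i ∧ f 2 = ch i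
  winy : ∀ p i, ∃ f, Win FV (ρ y) (e p) i 4 f ∧ f 0 = 1 ∧ f 1 = 1 ∧ f 2 = par i + ind p ∧
    f 3 = par i + ind p ∧ f 4 = ch i + ind p * (par i + 1)
  winu : ∀ p i, ∃ f, Win FV (ρ u) (e p) i 6 f ∧ f 0 = 1 ∧ f 1 = 0 ∧ f 2 = 0 ∧ f 3 = 1 ∧
    f 4 = 0 ∧ f 5 = 0 ∧ f 6 = par i + ind p
  winh : ∀ p i, ∃ f, Win FV (ρ h) (e p) i 6 f ∧ f 0 = 1 ∧ f 1 = 0 ∧ f 2 = 0 ∧ f 3 = 0 ∧
    f 4 = 0 ∧ f 5 = 1 ∧ f 6 = 0
  winyu : ∀ p i, ∃ f, Win FV (ρ ⁅y, u⁆) (e p) i 8 f ∧ f 0 = 1 ∧ f 1 = 0 ∧ f 2 = 0 ∧ f 3 = 0 ∧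
    f 4 = 0 ∧ f 5 = 1 ∧ f 6 = c6 ∧ f 7 = c7 ∧ f 8 = c8
  winyh : ∀ p i, ∃ f, Win FV (ρ ⁅y, h⁆) (e p) i 8 f ∧ f 0 = 1 ∧ f 1 = 0 ∧ f 2 = 0 ∧ f 3 = 0 ∧
    f 4 = 0 ∧ f 5 = 0 ∧ f 6 = 0 ∧ f 7 = 1 ∧ f 8 = d8

theorem add_self2 (a : L) : a + a = 0 := by
  rw [← one_smul (ZMod 2) a, ← add_smul, show (1 : ZMod 2) + 1 = 0 by decide, zero_smul]

theorem neg2 (a : L) : -a = a := neg_eq_of_add_eq_zero_right (add_self2 a)

theorem sub2 (a b : L) : a - b = a + b := by rw [sub_eq_add_neg, neg2]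

theorem smul_lie2 (c : ZMod 2) (a b : L) : ⁅c • a, b⁆ = c • ⁅a, b⁆ := by
  rcases z2 c with rfl | rfl <;> simp

theorem lie_smul2 (c : ZMod 2) (a b : L) : ⁅a, c • b⁆ = c • ⁅a, b⁆ := by
  rcases z2 c with rfl | rfl <;> simp

theorem smul_mem2 {S : AddSubgroup L} (c : ZMod 2) {a : L} (h : a ∈ S) : c • a ∈ S := by
  rcases z2 c with rfl | rfl
  · simp
  · simpa using h

theorem Cen.add {a b : L} (ha : Cen a) (hb : Cen b) : Cen (a + b) := fun w => by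
  rw [add_lie, ha w, hb w, add_zero]

theorem Cen.smul (c : ZMod 2) {a : L} (ha : Cen a) : Cen (c • a) := fun w => by
  rw [smul_lie2, ha w, smul_zero]

theorem Cen.right {a : L} (ha : Cen a) (w : L) : ⁅w, a⁆ = 0 := by
  rw [← lie_skew, ha w, neg_zero]

namespace LV

variable (D : LV L Γ)

include D in
theorem cen_lie (a b : L) : Cen ⁅a, b⁆ := D.cls2 a b

theorem cen_ρ (g : Γ) {a : L} (ha : Cen a) : Cen (D.ρ g a) := fun w => by
  have e : w = D.ρ g (D.ρ g⁻¹ w) := by rw [← D.ρ_mul, mul_inv_cancel, D.ρ_one]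
  rw [e, ← D.ρ_lie, ha, map_zero]

/-- the filtration of the centre. -/
def F (m : ℤ) : Submodule (ZMod 2) L where
  carrier := {z | Cen z ∧ z ∈ D.FK (2 * m + 1)}
  zero_mem' := ⟨fun w => zero_lie w, zero_mem _⟩
  add_mem' ha hb := ⟨ha.1.add hb.1, add_mem ha.2 hb.2⟩
  smul_mem' c _ ha := ⟨ha.1.smul c, smul_mem2 c ha.2⟩

theorem memF {m n : ℤ} {z : L} (hz : Cen z) (h : z ∈ D.FK n) (hn : 2 * m ≤ n) : z ∈ D.F m :=
  ⟨hz, D.even m z hz (D.antiK _ _ hn h)⟩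

/-- the operator `g - 1`. -/
def op (g : Γ) : L →ₗ[ZMod 2] L where
  toFun a := D.ρ g a + a
  map_add' a b := by rw [map_add]; abel
  map_smul' c a := by rcases z2 c with rfl | rfl <;> simp

theorem op_apply (g : Γ) (a : L) : D.op g a = D.ρ g a + a := rfl

theorem op_deg (g : Γ) (m : ℤ) (k : L) (hk : k ∈ D.F m) : D.op g k ∈ D.F (m + 1) :=
  D.memF ((D.cen_ρ g hk.1).add hk.1) (by
    have h := D.ρ_deg g _ _ hk.2
    rwa [sub2] at h) (by omega)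

theorem op_rel (g : Γ) (k : L) : D.op D.y (D.op g k) + D.op g (D.op D.y k) =
    D.op ⁅D.y, g⁆ (k + D.op g k + D.op D.y k + D.op g (D.op D.y k)) := by
  have e : D.ρ ⁅D.y, g⁆ (D.ρ g (D.ρ D.y k)) = D.ρ D.y (D.ρ g k) := by
    rw [← D.ρ_mul, ← D.ρ_mul, ← D.ρ_mul]
    congr 2
    simp only [commutatorElement_def]; group
  have e2 : k + D.op g k + D.op D.y k + D.op g (D.op D.y k) = D.ρ g (D.ρ D.y k) := by
    simp only [op_apply, map_add]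
    rw [← one_smul (ZMod 2) (D.ρ g (D.ρ D.y k))]
    match_scalars <;> decide
  rw [e2]
  simp only [op_apply, map_add, e]
  rw [← one_smul (ZMod 2) (D.ρ g (D.ρ D.y k))]
  match_scalars <;> decide

theorem win_lie {g : Γ} {p q : Bool} {i j : ℤ} {c : ℕ} {f f' : ℕ → ZMod 2}
    (h1 : Win D.FV (D.ρ g) (D.e p) i c f) (h2 : Win D.FV (D.ρ g) (D.e q) j c f') {m : ℤ}
    (hm : 2 * m ≤ i + j + c + 1) :
    D.ρ g ⁅D.e p i, D.e q j⁆ + ∑ k ∈ range (c + 1), ∑ l ∈ range (c + 1 - k),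
      (f k * f' l) • ⁅D.e p (i + k), D.e q (j + l)⁆ ∈ D.F m := by
  obtain ⟨z, hz, h1⟩ := h1
  obtain ⟨z', hz', h2⟩ := h2
  set s := ∑ k ∈ range (c + 1), f k • D.e p (i + k) with hs
  set s' := ∑ k ∈ range (c + 1), f' k • D.e q (j + k) with hs'
  set r := D.ρ g (D.e p i) + z + s with hr
  set r' := D.ρ g (D.e q j) + z' + s' with hr'
  have ms : s ∈ D.FV i := sum_mem fun k _ => smul_mem2 _ (D.antiV _ _ (by omega) (D.e_mem p _))
  have ms' : s' ∈ D.FV j := sum_mem fun k _ => smul_mem2 _ (D.antiV _ _ (by omega) (D.e_mem q _))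
  have e1 : D.ρ g (D.e p i) = r + s + z := by
    rw [hr, ← one_smul (ZMod 2) z]; match_scalars <;> decide
  have e2 : D.ρ g (D.e q j) = r' + s' + z' := by
    rw [hr', ← one_smul (ZMod 2) z']; match_scalars <;> decide
  have e3 : D.ρ g ⁅D.e p i, D.e q j⁆ = ⁅r, r'⁆ + ⁅r, s'⁆ + ⁅s, r'⁆ + ⁅s, s'⁆ := by
    rw [D.ρ_lie, e1, e2]
    simp only [add_lie, lie_add, hz _, hz'.right _, add_zero]
    abel
  have e4 : ⁅s, s'⁆ = ∑ k ∈ range (c + 1), ∑ l ∈ range (c + 1),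
      (f k * f' l) • ⁅D.e p (i + k), D.e q (j + l)⁆ := by
    rw [hs, hs', sum_lie]
    refine sum_congr rfl fun k _ => ?_
    rw [lie_sum]
    refine sum_congr rfl fun l _ => ?_
    rw [smul_lie2, lie_smul2, smul_smul]
  have m1 : ⁅r, r'⁆ ∈ D.F m := D.memF (D.cen_lie _ _) (D.lie_mem _ _ _ _ h1 h2) (by omega)
  have m2 : ⁅r, s'⁆ ∈ D.F m := D.memF (D.cen_lie _ _) (D.lie_mem _ _ _ _ h1 ms') (by omega)
  have m3 : ⁅s, r'⁆ ∈ D.F m := D.memF (D.cen_lie _ _) (D.lie_mem _ _ _ _ ms h2) (by omega)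
  rw [e3, e4, add_assoc (⁅r, r'⁆ + ⁅r, s'⁆ + ⁅s, r'⁆), ← sum_add_distrib]
  refine add_mem (add_mem (add_mem m1 m2) m3) (sum_mem fun k hk => ?_)
  have hk' := mem_range.1 hk
  rw [← sum_range_add_sum_Ico _ (show c + 1 - k ≤ c + 1 by omega), add_right_comm, add_self2,
    zero_add]
  refine sum_mem fun l hl => Submodule.smul_mem _ _ ?_
  have hl' := (mem_Ico.1 hl).1
  exact D.memF (D.cen_lie _ _) (D.lie_mem _ _ _ _ (D.e_mem p _) (D.e_mem q _)) (by omega)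

/-- the abstract data. -/
def toLD : LD L where
  F := D.F
  anti m n h _ hz := ⟨hz.1, D.antiK _ _ (by omega) hz.2⟩
  B i j p q := ⁅D.e p i, D.e q j⁆
  memB i j p q m h :=
    D.memF (D.cen_lie _ _) (D.lie_mem _ _ _ _ (D.e_mem p _) (D.e_mem q _)) h
  symm i j p q := by rw [← lie_skew, neg2]
  alt i p := lie_self _
  const i j p q m h :=
    D.memF ((D.cen_lie _ _).add (D.cen_lie _ _)) (D.const i j p q m h) (by omega)
  gen m k hk := by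
    obtain ⟨c1, c2, c3, h⟩ := D.gen m k hk.1 hk.2
    exact ⟨c1, c2, c3, D.memF (hk.1.add ((((D.cen_lie _ _).smul _).add
      ((D.cen_lie _ _).smul _)).add ((D.cen_lie _ _).smul _))) h (by omega)⟩
  dimLow m z h := D.dimLow m z fun k hk hk' => (h k ⟨hk, hk'⟩).imp
    (fun h => D.antiK _ _ (by omega) h.2) fun h => D.antiK _ _ (by omega) h.2
  dimUp m := by
    obtain ⟨c1, c2, c3, hne, h⟩ := D.dimUp m
    exact ⟨c1, c2, c3, hne, D.memF ((((D.cen_lie _ _).smul _).add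
      ((D.cen_lie _ _).smul _)).add ((D.cen_lie _ _).smul _)) h (by omega)⟩
  par := D.par
  par_succ := D.par_succ
  ch := D.ch
  ch_succ := D.ch_succ
  X := D.op D.x
  Y := D.op D.y
  U := D.op D.u
  H := D.op D.h
  A2 := D.op ⁅D.y, D.u⁆
  A3 := D.op ⁅D.y, D.h⁆
  degX := D.op_deg _
  degY := D.op_deg _
  degU := D.op_deg _
  degH := D.op_deg _
  degA2 := D.op_deg _
  degA3 := D.op_deg _
  relU := D.op_rel _
  relH := D.op_rel _
  c6 := D.c6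
  c7 := D.c7
  c8 := D.c8
  d8 := D.d8
  winX i j p q m hm := by
    obtain ⟨f, w, a0, a1, a2⟩ := D.winx p i
    obtain ⟨f', w', b0, b1, b2⟩ := D.winx q j
    refine mem2 (D.win_lie w w' (by push_cast; omega)) ?_
    simp only [op_apply, sum_range_succ, sum_range_zero, Nat.reduceAdd, Nat.reduceSub,
      a0, a1, a2, b0, b1, b2, Nat.cast_zero, Nat.cast_one, Nat.cast_ofNat, add_zero]
    match_scalars <;> ring
  winY i j p q m hm := by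
    obtain ⟨f, w, a0, a1, a2, a3, a4⟩ := D.winy p i
    obtain ⟨f', w', b0, b1, b2, b3, b4⟩ := D.winy q j
    refine mem2 (D.win_lie w w' (by push_cast; omega)) ?_
    simp only [op_apply, sum_range_succ, sum_range_zero, Nat.reduceAdd, Nat.reduceSub,
      a0, a1, a2, a3, a4, b0, b1, b2, b3, b4, Nat.cast_zero, Nat.cast_one, Nat.cast_ofNat, add_zero]
    match_scalars <;> ring
  winU i j p q m hm := by
    obtain ⟨f, w, a0, a1, a2, a3, a4, a5, a6⟩ := D.winu p i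
    obtain ⟨f', w', b0, b1, b2, b3, b4, b5, b6⟩ := D.winu q j
    refine mem2 (D.win_lie w w' (by push_cast; omega)) ?_
    simp only [op_apply, sum_range_succ, sum_range_zero, Nat.reduceAdd, Nat.reduceSub,
      a0, a1, a2, a3, a4, a5, a6, b0, b1, b2, b3, b4, b5, b6, Nat.cast_zero, Nat.cast_one,
      Nat.cast_ofNat, add_zero]
    match_scalars <;> ring
  winH i j p q m hm := by
    obtain ⟨f, w, a0, a1, a2, a3, a4, a5, a6⟩ := D.winh p i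
    obtain ⟨f', w', b0, b1, b2, b3, b4, b5, b6⟩ := D.winh q j
    refine mem2 (D.win_lie w w' (by push_cast; omega)) ?_
    simp only [op_apply, sum_range_succ, sum_range_zero, Nat.reduceAdd, Nat.reduceSub,
      a0, a1, a2, a3, a4, a5, a6, b0, b1, b2, b3, b4, b5, b6, Nat.cast_zero, Nat.cast_one,
      Nat.cast_ofNat, add_zero]
    match_scalars <;> ring
  winA2 i j p q m hm := by
    obtain ⟨f, w, a0, a1, a2, a3, a4, a5, a6, a7, a8⟩ := D.winyu p i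
    obtain ⟨f', w', b0, b1, b2, b3, b4, b5, b6, b7, b8⟩ := D.winyu q j
    refine mem2 (D.win_lie w w' (by push_cast; omega)) ?_
    simp only [op_apply, sum_range_succ, sum_range_zero, Nat.reduceAdd, Nat.reduceSub,
      a0, a1, a2, a3, a4, a5, a6, a7, a8, b0, b1, b2, b3, b4, b5, b6, b7, b8, Nat.cast_zero,
      Nat.cast_one, Nat.cast_ofNat, add_zero]
    match_scalars <;> ring
  winA3 i j p q m hm := by
    obtain ⟨f, w, a0, a1, a2, a3, a4, a5, a6, a7, a8⟩ := D.winyh p i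
    obtain ⟨f', w', b0, b1, b2, b3, b4, b5, b6, b7, b8⟩ := D.winyh q j
    refine mem2 (D.win_lie w w' (by push_cast; omega)) ?_
    simp only [op_apply, sum_range_succ, sum_range_zero, Nat.reduceAdd, Nat.reduceSub,
      a0, a1, a2, a3, a4, a5, a6, a7, a8, b0, b1, b2, b3, b4, b5, b6, b7, b8, Nat.cast_zero,
      Nat.cast_one, Nat.cast_ofNat, add_zero]
    match_scalars <;> ring

/-- `Delta` at total `2 m + 2`. -/
def T (m : ℤ) (p q : Bool) : L := ⁅D.e p (m + 1), D.e q (m + 1)⁆ + ⁅D.e p m, D.e q (m + 2)⁆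

/-- The inductive statement, by membership in `FK` only. -/
def Phi (m : ℤ) : Prop :=
  (∀ p, ⁅D.e p m, D.e p (m + 2)⁆ ∈ D.FK (2 * m + 6)) ∧
    ⁅D.e false (m + 1), D.e false (m + 2)⁆ ∈ D.FK (2 * m + 4) ∧
    (D.T m true false ∈ D.FK (2 * m + 4) ∨
      D.T m true false + ⁅D.e true (m + 1), D.e true (m + 2)⁆ ∈ D.FK (2 * m + 4))

theorem phi_iff (m : ℤ) : D.toLD.Phi m ↔ D.Phi m := by
  have e : m + 1 + 1 = m + 2 := by ring
  have eT : ∀ p q, D.toLD.T m p q = D.T m p q := fun _ _ => rfl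
  have eS : ∀ p q, D.toLD.S (m + 1) p q = ⁅D.e p (m + 1), D.e q (m + 2)⁆ := fun _ _ => by
    rw [← e]; rfl
  have eF : ∀ n z, Cen z → (z ∈ D.toLD.F n ↔ z ∈ D.FK (2 * n)) := fun n z hz =>
    ⟨fun h => D.antiK _ _ (by omega) h.2, fun h => D.memF hz h le_rfl⟩
  have cT : ∀ p q, Cen (D.T m p q) := fun p q => (D.cen_lie _ _).add (D.cen_lie _ _)
  have eP : ∀ p, D.T m p p = ⁅D.e p m, D.e p (m + 2)⁆ := fun p => by
    rw [T, lie_self, zero_add]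
  have e3 : 2 * (m + 3) = 2 * m + 6 := by ring
  have e2 : 2 * (m + 2) = 2 * m + 4 := by ring
  rw [LD.Phi, Phi]
  simp only [eT, eS, eP]
  rw [eF _ _ (D.cen_lie _ _), eF _ _ (cT _ _), eF _ _ ((cT _ _).add (D.cen_lie _ _)), e2]
  refine and_congr (forall_congr' fun p => ?_) Iff.rfl
  rw [eF _ _ (D.cen_lie _ _), e3]

/-- LINES. -/
theorem lines (m0 : ℤ) (h0 : ∀ k < m0, D.Phi k) (k : ℤ) : D.Phi k :=
  (D.phi_iff k).1 (D.toLD.lines m0 (fun k hk => (D.phi_iff k).2 (h0 k hk)) k)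

section Export

variable {D} (h : ∀ k, D.Phi k)
include h

theorem h3 (p : Bool) (m : ℤ) : D.toLD.T m p p ∈ D.toLD.F (m + 3) := ((D.phi_iff m).2 (h m)).1 p

/-- `y` moves the squares by two steps of the centre. -/
theorem killY (p : Bool) (m : ℤ) :
    D.ρ D.y ⁅D.e p m, D.e p (m + 1)⁆ + ⁅D.e p m, D.e p (m + 1)⁆ ∈ D.FK (2 * m + 5) := by
  have h1 := (LD.killY (LD.h2of (h3 h) p) m).2
  exact D.antiK _ _ (by omega) h1

theorem killU (p : Bool) (m : ℤ) :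
    D.ρ D.u ⁅D.e p m, D.e p (m + 1)⁆ + ⁅D.e p m, D.e p (m + 1)⁆ ∈ D.FK (2 * m + 7) := by
  have h1 := (LD.killU (LD.h2of (h3 h) p) m).2
  exact D.antiK _ _ (by omega) h1

theorem line_bb (m : ℤ) : ⁅D.e false m, D.e false (m + 1)⁆ ∈ D.FK (2 * m + 2) := by
  have h1 := (h (m - 1)).2.1
  have e1 : m - 1 + 1 = m := by ring
  have e2 : m - 1 + 2 = m + 1 := by ring
  rw [e1, e2] at h1
  exact D.antiK _ _ (by omega) h1

end Export

theorem degU {m : ℤ} {z : L} (hz : Cen z) (hm : z ∈ D.FK (2 * m + 1)) :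
    D.ρ D.u z + z ∈ D.FK (2 * m + 5) :=
  D.antiK _ _ (by omega) (D.toLD.degU2 (m := m) (n := m + 2) ⟨hz, hm⟩ le_rfl).2

end LV

end Pool.Agent.Lib.MP_ffb54b_al.P2
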