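import Pool.Agent.Lib.MP_ffb54b_al.P2.IsoOnto
import Pool.Agent.Lib.MP_ffb54b_al.P2.EDef

set_option autoImplicit false
set_option linter.unusedSectionVars false

namespace Pool.Agent.Lib.MP_ffb54b_al.P2

open Subgroup Nott PowerSeries
open scoped commutatorElement

universe u

/-- The leading coefficient in depth `i`. -/
noncomputable def ldc (i : ℕ) (f : J2) : ZMod 2 := -coeff (i + 1) (f.ser - X)

lemma ntJ : NT (Jn 2) ldc := nt

lemma ldc_zero {i : ℕ} {f : J2} (hi : 1 ≤ i) (hf : f ∈ Jn 2 i) : ldc i f = 0 ↔ f ∈ Jn 2 (i + 1) :=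
  (ntJ.cls i hi).zero hf

/-- commutators in depths of the same parity drop. -/
lemma comm_even {i j n : ℕ} {f g : J2} (hi : 1 ≤ i) (hj : 1 ≤ j) (hf : f ∈ Jn 2 i)
    (hg : g ∈ Jn 2 j) (hn : i + j = 2 * n) : ⁅f, g⁆ ∈ Jn 2 (2 * n + 1) := by
  rw [← hn, ← ldc_zero (by omega) (ntJ.comm hf hg), ntJ.lead hi hj hf hg]
  have h : ((i + j : ℕ) : ZMod 2) = 0 := by
    rw [hn, Nat.cast_mul]
    exact mul_eq_zero_of_left rfl _
  have : (j : ZMod 2) - i = 0 := by
    rw [CharTwo.sub_eq_add, add_comm, ← Nat.cast_add, h]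
  rw [this, zero_mul, zero_mul]

lemma comm_odd {i j n : ℕ} {f g : J2} (hi : 1 ≤ i) (hj : 1 ≤ j) (hf : f ∈ Jn 2 i)
    (hg : g ∈ Jn 2 j) (hn : i + j = 2 * n + 1) :
    ⁅f, g⁆ ∈ Jn 2 (2 * n + 1) ∧ ldc (2 * n + 1) ⁅f, g⁆ = ldc i f * ldc j g := by
  rw [← hn, ntJ.lead hi hj hf hg]
  have h : ((i + j : ℕ) : ZMod 2) = 1 := by
    rw [hn, Nat.cast_add, Nat.cast_mul, Nat.cast_one]
    exact (congrArg (· + 1) (mul_eq_zero_of_left rfl _)).trans (zero_add 1)
  have : (j : ZMod 2) - i = 1 := by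
    rw [CharTwo.sub_eq_add, add_comm, ← Nat.cast_add, h]
  exact ⟨ntJ.comm hf hg, by rw [this, one_mul]⟩

lemma gamma_le_odd : ∀ w, gamma J2 (w + 1) ≤ Jn 2 (2 * w + 1)
  | 0 => fun f _ => Nott.mem_one f
  | w + 1 => topologicalClosure_minimal _ (commutator_le.2 fun _ ha b _ =>
      comm_even (n := w + 1) (by omega) le_rfl (gamma_le_odd w ha) (Nott.mem_one b) (by omega))
      (Subgroup.isClosed_of_isOpen _ (isOpen_Jn _))

lemma sq_depth {y : J2} (hy : y ∈ Jn 2 2) (hy' : ldc 2 y = 1) :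
    y * y ∈ Jn 2 4 ∧ ldc 4 (y * y) = 1 := by
  obtain ⟨H, hH⟩ := hy
  rw [show 2 + 1 = 1 + 2 from rfl] at hH
  have h := taylor y (j := 1) hH 3 H
  rw [show 1 + 2 = 3 from rfl] at hH
  have e : (y * y).ser - X = (X ^ 3 * H).subst y.ser + X ^ 3 * H := by
    rw [← hH, ← Nott.mul_sub]; ring
  have h3 : ((3 : ℕ) : R2) = 1 := by
    rw [show (3 : ℕ) = 2 + 1 from rfl, Nat.cast_add, Nat.cast_one, Nat.cast_ofNat, two_R2, zero_add]
  rw [h3, one_mul, CharTwo.sub_eq_add, CharTwo.sub_eq_add, ← e, show 3 + 1 + 2 = 6 from rfl,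
    show 3 + 1 + 1 = 5 from rfl] at h
  have h0 : coeff 0 H = 1 := by
    have h1 := coeff_X_pow_mul H 3 0
    rw [zero_add] at h1
    rw [ldc, hH, ZMod.neg_eq_self_mod_two, show 2 + 1 = 3 from rfl, h1] at hy'
    exact hy'
  constructor
  · have := dvd_add (dvd_mono h (show 5 ≤ 6 by omega))
      ((dvd_refl ((X : R2) ^ 5)).mul_right (H * H))
    rw [add_assoc, CharTwo.add_self_eq_zero, add_zero] at this
    rw [mem_Jn, show 4 + 1 = 5 from rfl]
    exact this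
  · rw [ldc, ZMod.neg_eq_self_mod_two, show 4 + 1 = 5 from rfl, coeff_eq_of_dvd h (by omega)]
    have := coeff_X_pow_mul (H * H) 5 0
    rw [zero_add] at this
    rw [this, coeff_zero_eq_constantCoeff_apply, map_mul, ← coeff_zero_eq_constantCoeff_apply, h0,
      one_mul]

lemma chain_depth {x y u : J2} (hx : ldc 1 x = 1) (hy : y ∈ Jn 2 2) (hy' : ldc 2 y = 1) :
    ∀ m, vG x y u true (m + 1) ∈ Jn 2 (2 * m + 1) ∧ ldc (2 * m + 1) (vG x y u true (m + 1)) = 1
  | 0 => ⟨Nott.mem_one _, hx⟩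
  | m + 1 => by
    obtain ⟨h1, h2⟩ := chain_depth hx hy hy' m
    have := comm_odd (n := m + 1) (by omega) (by omega) hy h1 (by omega)
    rw [hy', h2, one_mul] at this
    exact this

lemma yc_depth {y z : J2} (hy : y ∈ Jn 2 2) (hy' : ldc 2 y = 1) {n : ℕ} (hz : z ∈ Jn 2 (2 * n + 1)) :
    ∀ k, yc y k z ∈ Jn 2 (2 * (n + k) + 1) ∧ ldc (2 * (n + k) + 1) (yc y k z) = ldc (2 * n + 1) z
  | 0 => ⟨hz, rfl⟩
  | k + 1 => by
    obtain ⟨h1, h2⟩ := yc_depth hy hy' hz k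
    have := comm_odd (n := n + (k + 1)) (by omega) (by omega) hy h1 (by omega)
    rw [hy', h2, one_mul] at this
    exact this

lemma map_yc' {Γ Δ : Type*} [Group Γ] [Group Δ] (θ : Γ →* Δ) (y a : Γ) :
    ∀ k, θ (yc y k a) = yc (θ y) k (θ a)
  | 0 => rfl
  | k + 1 => by rw [yc, yc, map_commutatorElement, map_yc' θ y a k]

/-- The key computation: an element of exact depth six. -/
lemma depth_six {x y u : J2} (hx : ldc 1 x = 1) (hy : y ∈ Jn 2 2) (hy' : ldc 2 y = 1)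
    (hu : u ∈ Jn 2 5) {m : ℕ}
    (hq : ⁅y, ⁅vG x y u true 3, vG x y u true (m + 1)⁆⁆ ∈ Jn 2 (2 * m + 10))
    (hr : yc y 3 (⁅u, vG x y u true (m + 1)⁆ * (vG x y u true (m + 4))⁻¹) ∈ Jn 2 (2 * m + 14)) :
    ∃ n : ℤ, u * (vG x y u true 3 ^ n)⁻¹ ∈ Jn 2 6 ∧ ldc 6 (u * (vG x y u true 3 ^ n)⁻¹) = 1 := by
  obtain ⟨a3, b3⟩ := chain_depth (u := u) hx hy hy' 2
  obtain ⟨am, bm⟩ := chain_depth (u := u) hx hy hy' m
  obtain ⟨an, bn⟩ := chain_depth (u := u) hx hy hy' (m + 3)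
  set s := vG x y u true 3
  set a := vG x y u true (m + 1)
  have q1 : ⁅s, a⁆ ∈ Jn 2 (2 * (m + 3) + 1) := comm_even (by omega) (by omega) a3 am (by omega)
  have q2 : ⁅s, a⁆ ∈ Jn 2 (2 * (m + 3) + 1 + 1) := by
    have := comm_odd (n := m + 4) (by omega) (by omega) hy q1 (by omega)
    rw [← ldc_zero (by omega) q1, ← one_mul (ldc _ _), ← hy', ← this.2, ldc_zero (by omega) this.1]
    exact hq
  obtain ⟨n, hn⟩ := ntJ.pr_zpow (i := 5) (by omega) hu a3 (by rw [b3]; exact one_ne_zero)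
  have h6 := pr_eq.1 hn
  refine ⟨n, h6, ?_⟩
  set v := u * (s ^ n)⁻¹ with hv
  have e : pr (Jn 2) (2 * (m + 3) + 1 + 1) ⁅u, a⁆ = pr (Jn 2) (2 * (m + 3) + 1 + 1) ⁅v, a⁆ := by
    have c : Commute (pr (Jn 2) (2 * (m + 3) + 1 + 1) s) (pr (Jn 2) (2 * (m + 3) + 1 + 1) a) := by
      rw [← commutatorElement_eq_one_iff_commute, ← map_commutatorElement, pr_one]
      exact q2
    have c' := (c.zpow_left n).eq
    have : u = v * s ^ n := by rw [hv, inv_mul_cancel_right]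
    rw [this]
    simp only [commutatorElement_def, map_mul, map_inv, map_zpow, mul_inv_rev]
    rw [mul_assoc _ (_ ^ n), c']
    group
  have c1 := comm_odd (n := m + 3) (by omega) (by omega) h6 am (by omega)
  have m1 : ⁅u, a⁆ ∈ Jn 2 (2 * (m + 3) + 1) :=
    pr_mem (ntJ.anti (Nat.le_succ _)) e c1.1
  have cl := ntJ.cls (2 * (m + 3) + 1) (by omega)
  have e1 := (cl.eq_iff m1 c1.1).2 e
  have z := yc_depth hy hy' (mul_mem m1 (inv_mem an)) 3
  rw [(ldc_zero (by omega) z.1).2 hr, cl.mul m1 (inv_mem an), cl.inv an, bn, e1, c1.2, bm,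
    mul_one] at z
  exact (add_neg_eq_zero.1 z.2.symm)

variable {G : Type u} [Group G] [TopologicalSpace G] [IsTopologicalGroup G]

lemma map_gamma_le {H : Type*} [Group H] [TopologicalSpace H] [IsTopologicalGroup H] {θ : G →* H}
    (hθ : Continuous θ) : ∀ w, gamma G w ≤ (gamma H w).comap θ
  | 0 => fun _ _ => mem_top _
  | 1 => fun _ _ => mem_top _
  | w + 2 => topologicalClosure_minimal _ (commutator_le.2 fun a ha b _ => by
      rw [mem_comap, map_commutatorElement]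
      exact le_topologicalClosure _ (commutator_mem_commutator (map_gamma_le hθ (w + 1) ha)
        (mem_top _))) ((gamma_closed (G := H) (w + 2)).preimage hθ)

/-- A continuous homomorphism that is onto modulo the second term of the lower central series, between
groups with the same finite indices of the lower central series, is an isomorphism. -/
lemma iso_of_pr (hG : IsProP G 2) (hi : ∀ n, (gamma J2 n).index ≠ 0)
    (hidx : ∀ i, (gamma G i).index = (gamma J2 i).index) {θ : G →* J2} (cont : Continuous θ)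
    (h1 : ∀ a, ∃ g, pr (gamma J2) 2 a = pr (gamma J2) 2 (θ g)) : Nonempty (G ≃ₜ* J2) := by
  have ho : ∀ n, IsOpen (gamma J2 n : Set J2) := fun n =>
    haveI : (gamma J2 n).FiniteIndex := ⟨hi n⟩
    isOpen_of_isClosed_of_finiteIndex _ (gamma_closed _)
  have step : ∀ w, ∀ a ∈ gamma J2 (w + 1), ∃ g ∈ gamma G (w + 1),
      pr (gamma J2) (w + 2) a = pr (gamma J2) (w + 2) (θ g) := by
    intro w
    induction w with
    | zero => exact fun a _ => (h1 a).imp fun g hg => ⟨mem_top g, hg⟩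
    | succ w ih =>
      let S : Subgroup J2 := ((gamma G (w + 2)).map ((pr (gamma J2) (w + 3)).comp θ)).comap
        (pr (gamma J2) (w + 3))
      have hS : gamma J2 (w + 3) ≤ S := fun a ha => ⟨1, one_mem _, by
        rw [map_one]; exact (pr_one.2 ha).symm⟩
      have : gamma J2 (w + 2) ≤ S := topologicalClosure_minimal _
        (commutator_le.2 fun a ha b _ => ?_) (isClosed_of_isOpen _ (isOpen_mono hS (ho _)))
      · intro a ha
        obtain ⟨g, hg, e⟩ := this ha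
        exact ⟨g, hg, e.symm⟩
      · obtain ⟨g, hg, e⟩ := ih a ha
        obtain ⟨h, e'⟩ := h1 b
        refine ⟨⁅g, h⁆, le_topologicalClosure _ (commutator_mem_commutator hg (mem_top h)), ?_⟩
        rw [MonoidHom.comp_apply, map_commutatorElement θ,
          (gamma_ns (G := J2)).congr_left (j := 1) e (mem_top b) (by omega),
          (gamma_ns (G := J2)).congr_right (map_gamma_le cont (w + 1) hg) e' (by omega)]
  have all : ∀ w a, ∃ g, pr (gamma J2) (w + 1) a = pr (gamma J2) (w + 1) (θ g) := by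
    intro w a
    induction w with
    | zero => exact ⟨1, pr_eq.2 (mem_top _)⟩
    | succ w ih =>
      obtain ⟨g, e⟩ := ih
      obtain ⟨h, -, e'⟩ := step w _ (pr_eq.1 e)
      exact ⟨h * g, by rw [map_mul, map_mul, ← e', ← map_mul, inv_mul_cancel_right]⟩
  have ker : ∀ w, (gamma J2 (w + 1)).comap θ ≤ gamma G (w + 1) := fun w => by
    have hs : Function.Surjective ((pr (gamma J2) (w + 1)).comp θ) := fun q => by
      obtain ⟨a, rfl⟩ := QuotientGroup.mk'_surjective _ q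
      exact (all w a).imp fun _ h => h.symm
    have e := index_comap_of_surjective ⊥ hs
    rw [MonoidHom.comap_bot, ← MonoidHom.comap_ker, QuotientGroup.ker_mk', index_bot,
      ← index_eq_card] at e
    have h := relIndex_mul_index (map_gamma_le cont (w + 1))
    rw [e, hidx] at h
    exact relIndex_eq_one.1 ((mul_eq_right₀ (hi _)).1 h)
  have inj : Function.Injective θ := (injective_iff_map_eq_one θ).2 fun g hg =>
    hG.eq_one fun i => gamma_anti i.le_succ (ker i (by rw [mem_comap, hg]; exact one_mem _))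
  obtain ⟨_, _, -⟩ := hG
  have sur : Function.Surjective θ := fun f => topologicalClosure_minimal θ.range le_rfl
    (isCompact_range cont).isClosed (Nott.mem_closure (M := 0) fun r => by
      obtain ⟨g, e⟩ := all r f
      exact ⟨θ g, ⟨g, rfl⟩, pr_eq.2 (ntJ.anti (by omega) (gamma_le_odd r (pr_eq.1 e)))⟩)
  exact ⟨⟨MulEquiv.ofBijective θ ⟨inj, sur⟩, cont,
    Continuous.continuous_symm_of_equiv_compact_to_t2
      (f := (MulEquiv.ofBijective θ ⟨inj, sur⟩).toEquiv) cont⟩⟩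

/-- The homomorphism produced by the second part is an isomorphism. -/
theorem onto (hG : IsProP G 2)
    {x y u : G} {c : ℕ → G → W2 × W2} {σ : ℕ → Bil} (L : LCS (gamma G) x y u)
    (S : S1G (gamma G) x y u c σ) (hidx : ∀ i, (gamma G i).index = (gamma J2 i).index)
    (θ : G →* J2) (h0 : ∀ n, ∀ g ∈ gamma G (2 * n), θ g ∈ Jn 2 n) (hx : coeff 2 (θ x).ser = 1)
    (hy : θ y ∈ Jn 2 2 ∧ coeff 3 (θ y).ser = 1) (hu : θ u ∈ Jn 2 5)
    (rel : ∃ m, 6 ≤ m ∧ yc y 3 (⁅u, vG x y u true m⁆ * (vG x y u true (m + 3))⁻¹) ∈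
      gamma G (m + 7)) : Nonempty (G ≃ₜ* J2) := by
  have hi := index_gamma_ne
  have h7 : Jn 2 7 ≤ gamma J2 2 := fun f hf => mem_gamma_two (CharTwo.sub_eq_add f.ser X ▸ hf)
  have cont : Continuous θ := by
    obtain ⟨_, _, -⟩ := hG
    refine continuous_of_continuousAt_one θ ?_
    rw [ContinuousAt, map_one]
    refine (nhds_basis _).tendsto_right_iff.2 fun n _ => ?_
    have : (gamma G (2 * n)).FiniteIndex := ⟨hidx _ ▸ hi _⟩
    filter_upwards [(isOpen_of_isClosed_of_finiteIndex _ (gamma_closed (2 * n))).mem_nhds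
      (one_mem _)] with g hg using (pow_dvd_pow _ (by omega)).trans (h0 n g hg)
  have hx' : ldc 1 (θ x) = 1 := by
    rw [ldc, map_sub, hx, coeff_X, if_neg (by omega), sub_zero, ZMod.neg_eq_self_mod_two]
  have hy' : ldc 2 (θ y) = 1 := by
    rw [ldc, map_sub, hy.2, coeff_X, if_neg (by omega), sub_zero, ZMod.neg_eq_self_mod_two]
  have dep : ∀ w, ∀ g ∈ gamma G (w + 1), θ g ∈ Jn 2 (2 * w + 1) := fun w g hg =>
    gamma_le_odd w (map_gamma_le cont _ hg)
  obtain ⟨m, hm, rel⟩ := rel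
  obtain ⟨m, rfl⟩ : ∃ k, m = k + 1 := ⟨m - 1, by omega⟩
  have hq : ⁅y, ⁅vG x y u true 3, vG x y u true (m + 1)⁆⁆ ∈ gamma G (m + 5 + 1) := by
    have := S.cen 1 (3 + (m + 1)) le_rfl (by omega) y (mem_top y) _
      (L.ns.comm (L.vG_mem true 3) (L.vG_mem true (m + 1)))
      (by rw [S.mid 3 (m + 1) le_rfl hm true _ (L.vG_mem true _)])
    rwa [show 1 + (3 + (m + 1)) + 1 = m + 5 + 1 by omega] at this
  have hq' := ntJ.anti (show 2 * m + 10 ≤ _ by omega) (dep _ _ hq)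
  have hr := ntJ.anti (show 2 * m + 14 ≤ _ by omega) (dep (m + 7) _ rel)
  simp only [map_yc', map_commutatorElement, map_mul, map_inv, map_vG] at hq' hr
  obtain ⟨n, k1, k2⟩ := depth_six hx' hy.1 hy' hu hq' hr
  refine iso_of_pr hG hi hidx cont fun a => ?_
  let T : Subgroup J2 := ((⊤ : Subgroup G).map ((pr (gamma J2) 2).comp θ)).comap (pr (gamma J2) 2)
  have hT : gamma J2 2 ≤ T := fun a ha => ⟨1, one_mem _, by
    rw [map_one]; exact (pr_one.2 ha).symm⟩
  have hθ : ∀ g, θ g ∈ T := fun g => ⟨g, mem_top g, rfl⟩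
  have ch := chain_depth (u := θ u) hx' hy.1 hy'
  have sq := sq_depth hy.1 hy'
  suffices H : ∀ r, 1 ≤ r → ∃ s ∈ T, s ∈ Jn 2 r ∧ ldc r s ≠ 0 by
    obtain ⟨s, hs, e⟩ := ntJ.approx le_rfl H (Nott.mem_one a) 6
    obtain ⟨g, -, e⟩ := pr_mem (h7.trans hT) e hs
    exact ⟨g, e.symm⟩
  intro r hr
  by_cases h : 7 ≤ r
  · obtain ⟨g, hg, hg'⟩ := ntJ.surj r hr
    exact ⟨g, hT (h7 (ntJ.anti h hg)), hg, hg' ▸ one_ne_zero⟩
  have hv : ∀ k, vG (θ x) (θ y) (θ u) true k ∈ T := fun k => map_vG θ x y u true k ▸ hθ _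
  interval_cases r
  · exact ⟨_, hv 1, (ch 0).1, (ch 0).2 ▸ one_ne_zero⟩
  · exact ⟨_, hθ y, hy.1, hy' ▸ one_ne_zero⟩
  · exact ⟨_, hv 2, (ch 1).1, (ch 1).2 ▸ one_ne_zero⟩
  · exact ⟨_, mul_mem (hθ y) (hθ y), sq.1, sq.2 ▸ one_ne_zero⟩
  · exact ⟨_, hv 3, (ch 2).1, (ch 2).2 ▸ one_ne_zero⟩
  · exact ⟨_, mul_mem (hθ u) (inv_mem (zpow_mem (hv 3) n)), k1, k2 ▸ one_ne_zero⟩

end Pool.Agent.Lib.MP_ffb54b_al.P2
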