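import Pool.Agent.Lib.MP_ffb54b_al.P2.IsoOnto
import Pool.Agent.Lib.MP_ffb54b_al.P2.EDef

set_option autoImplicit false
set_option linter.unusedSectionVars false

namespace Pool.Agent.Lib.MP_ffb54b_al.P2.O4

open PowerSeries Subgroup Nott
open scoped commutatorElement

universe u

/-- the leading coefficient in depth `i` -/
noncomputable abbrev ld (i : ℕ) (f : J2) : ZMod 2 := -coeff (i + 1) (f.ser - X)

variable {f g : J2} {i j : ℕ}

lemma ld_eq (hi : 1 ≤ i) : ld i f = coeff (i + 1) f.ser := by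
  rw [ld, map_sub, coeff_X, if_neg (by omega), sub_zero, CharTwo.neg_eq]

lemma y_step (hf : f ∈ Jn 2 2) (hf' : ld 2 f = 1) (hg : g ∈ Jn 2 (2 * i + 1)) :
    ⁅f, g⁆ ∈ Jn 2 (2 * (i + 1) + 1) ∧ ld (2 * (i + 1) + 1) ⁅f, g⁆ = ld (2 * i + 1) g := by
  refine ⟨nt.comm' hf hg (by omega), ?_⟩
  have := (nt (p := 2)).lead (by omega) (by omega) hf hg
  rw [show 2 + (2 * i + 1) = 2 * (i + 1) + 1 by ring] at this
  refine this.trans ?_
  change _ * ld 2 f * ld _ g = _
  rw [hf']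
  push_cast
  linear_combination (i - 1 : ZMod 2) * ld (2 * i + 1) g * two_Z2

lemma sq_y (hf : f ∈ Jn 2 2) (hf' : coeff 3 f.ser = 1) :
    X ^ 5 ∣ (f * f).ser + X ∧ coeff 5 (f * f).ser = 1 := by
  obtain ⟨H, hH⟩ := hf
  have h0 : coeff 0 H = 1 := by
    have := congrArg (coeff 3) hH
    rw [map_sub, hf', coeff_X, coeff_X_pow_mul'] at this
    simpa using this.symm
  have t := f.taylor (j := 1) hH 3 H
  rw [show (X : R2) ^ 3 * H = f.ser - X from hH.symm, ← Nott.mul_sub] at t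
  have e : (f * f).ser + X = (f * f).ser - f.ser - (f.ser - X) - ((3 : ℕ) : R2) * X ^ (3 + 1 + 1) * (H * H) +
      X ^ 5 * (H * H) := by
    push_cast
    linear_combination (f.ser + X ^ 5 * (H * H)) * two_R2
  refine ⟨e ▸ dvd_add (dvd_mono t (by omega)) (dvd_mul_right _ _), ?_⟩
  have := congrArg (coeff 5) e
  rw [map_add, map_add, X_pow_dvd_iff.1 t 5 (by omega), coeff_X_pow_mul', coeff_X] at this
  rw [coeff_zero_eq_constantCoeff] at h0
  simpa [h0] using this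

variable {G : Type u} [Group G] [TopologicalSpace G] [IsTopologicalGroup G]

lemma map_gamma_le {θ : G →* J2} (hc : Continuous θ) :
    ∀ i, gamma G i ≤ (gamma J2 i).comap θ
  | 0 => fun _ _ => mem_top _
  | 1 => fun _ _ => mem_top _
  | i + 2 => gamma_le (by omega) ((gamma_closed (i + 2)).preimage hc) fun g k hk => by
    rw [mem_comap, map_commutatorElement]
    exact comm_mem_gamma (by omega) _ (map_gamma_le hc (i + 1) hk)

theorem onto {x y u : G} {c : ℕ → G → W2 × W2} {σ : ℕ → Bil} (hG : IsProP G 2)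
    (L : LCS (gamma G) x y u) (S : S1G (gamma G) x y u c σ)
    (hidx : ∀ i, (gamma G i).index = (gamma J2 i).index) (θ : G →* J2)
    (h0 : ∀ n, ∀ g ∈ gamma G (2 * n), θ g ∈ Jn 2 n) (hx : coeff 2 (θ x).ser = 1)
    (hy : θ y ∈ Jn 2 2 ∧ coeff 3 (θ y).ser = 1) (hu : θ u ∈ Jn 2 5)
    (rel : ∃ m, 6 ≤ m ∧
      yc y 3 (⁅u, vG x y u true m⁆ * (vG x y u true (m + 3))⁻¹) ∈ gamma G (m + 7)) :
    Nonempty (G ≃ₜ* J2) := by
  have N := nt (p := 2)
  have hc : Continuous θ := continuous_of_continuousAt_one θ (by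
    rw [ContinuousAt, map_one]
    refine (nhds_basis _).tendsto_right_iff.2 fun n _ => ?_
    have : (gamma G (2 * n)).FiniteIndex := ⟨hidx _ ▸ index_gamma_ne _⟩
    filter_upwards [(isOpen_of_isClosed_of_finiteIndex _ (gamma_closed (2 * n))).mem_nhds
      (one_mem _)] with g hg using (pow_dvd_pow _ (by omega)).trans (h0 _ g hg))
  have dp : ∀ {w g}, 2 ≤ w → g ∈ gamma G (w + 1) → θ g ∈ Jn 2 (2 * w + 1) := fun hw hg =>
    mem_Jn_iff.2 (Gm.ser (gamma_le_Gm (by omega) (map_gamma_le hc _ hg)) (by omega))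
  have y1 : ld 2 (θ y) = 1 := (ld_eq (by omega)).trans hy.2
  have A : ∀ i, θ (vG x y u true (i + 1)) ∈ Jn 2 (2 * i + 1) ∧
      ld (2 * i + 1) (θ (vG x y u true (i + 1))) = 1 := fun i => by
    induction i with
    | zero => exact ⟨mem_one _, (ld_eq le_rfl).trans hx⟩
    | succ i ih =>
      rw [vG_succ _ _ _ _ (by omega), map_commutatorElement]
      exact ⟨(y_step hy.1 y1 ih.1).1, (y_step hy.1 y1 ih.1).2.trans ih.2⟩
  obtain ⟨m, hm, rel⟩ := rel
  obtain ⟨m, rfl⟩ : ∃ k, m = k + 1 := ⟨m - 1, by omega⟩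
  set a := θ (vG x y u true 3)
  set b := θ (vG x y u true (m + 1))
  have a1 : a ∈ Jn 2 5 ∧ ld 5 a = 1 := A 2
  have q1 : ⁅a, b⁆ ∈ Jn 2 (2 * (m + 3) + 1) := by
    have := N.lead (by omega) (by omega) a1.1 (A m).1
    refine N.anti (show _ ≤ 5 + (2 * m + 1) + 1 by omega) (((N.cls _ (by omega)).zero
      (N.comm a1.1 (A m).1)).1 (this.trans ?_))
    push_cast
    rw [show (2 * m + 1 - 5 : ZMod 2) = 0 by linear_combination (m - 2 : ZMod 2) * two_Z2]
    simp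
  have q2 : ⁅a, b⁆ ∈ Jn 2 (2 * (m + 3) + 1 + 1) := by
    have m1 := L.ns.comm (L.vG_mem true 3) (L.vG_mem true (m + 1))
    have := dp (w := m + 5) (by omega) (L.ns.anti (by omega) (S.cen 1 _ (by omega) (by omega) y
      (L.mem_one y) _ m1 (by rw [S.mid 3 _ le_rfl hm true _ (L.vG_mem true _)])))
    rw [map_commutatorElement, map_commutatorElement] at this
    rw [← (N.cls _ (by omega)).zero q1]
    exact (y_step hy.1 y1 q1).2.symm.trans (((N.cls _ (by omega)).zero (y_step hy.1 y1 q1).1).2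
      (N.anti (by omega) this))
  obtain ⟨n, hn⟩ := N.pr_zpow (by omega) hu a1.1 (a1.2.trans_ne one_ne_zero)
  have u6 := pr_eq.1 hn
  set v := θ u * (a ^ n)⁻¹
  have v1 : ld 6 v = 1 := by
    have C := N.cls (2 * (m + 3) + 1) (by omega)
    have e : θ u = v * a ^ n := (inv_mul_cancel_right _ _).symm
    have z : ⁅a ^ n, b⁆ ∈ Jn 2 (2 * (m + 3) + 1 + 1) :=
      comm_swap (mem_commSub.1 (zpow_mem (mem_commSub.2 (comm_swap q2)) n))
    have e1 : pr (Jn 2) (2 * (m + 3) + 1 + 1) ⁅θ u, b⁆ = pr (Jn 2) _ ⁅v, b⁆ := by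
      rw [e, N.toNS.mul_left u6 (zpow_mem a1.1 n) (A m).1 (by omega), pr_one.2 z, mul_one]
    have m1 : ⁅v, b⁆ ∈ Jn 2 (2 * (m + 3) + 1) := N.comm' u6 (A m).1 (by omega)
    have m2 : ⁅θ u, b⁆ ∈ Jn 2 (2 * (m + 3) + 1) :=
      pr_mem (N.anti (Nat.le_succ _)) e1 m1
    have l1 := N.lead (by omega) (by omega) u6 (A m).1
    rw [show 5 + 1 + (2 * m + 1) = 2 * (m + 3) + 1 by ring, ← (C.eq_iff m2 m1).2 e1] at l1
    have m3 := mul_mem m2 (inv_mem (A (m + 3)).1)
    have s1 := y_step hy.1 y1 m3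
    have s2 := y_step hy.1 y1 s1.1
    have s3 := y_step hy.1 y1 s2.1
    have r := dp (w := m + 7) (by omega) rel
    simp only [yc, map_commutatorElement, map_mul, map_inv] at r
    have := s3.2.symm.trans (((N.cls _ (by omega)).zero s3.1).2 (N.anti (by omega) r))
    rw [s2.2, s1.2] at this
    have e2 := (C.mul m2 (inv_mem (A (m + 3)).1)).symm.trans this
    rw [C.inv (A (m + 3)).1, l1] at e2
    have e3 := (A m).2
    have e4 := (A (m + 3)).2
    simp only [ld] at e3 e4 ⊢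
    rw [e3, e4] at e2
    push_cast at e2
    linear_combination e2 - (m - 3 : ZMod 2) * (-coeff (5 + 1 + 1) (v.ser - X)) * two_Z2
  refine iso_of_onto hG hidx θ hc (eq_top_iff.2 fun f _ => mem_of_dep (n := 8) le_rfl
    (fun f hf => mem_sup_right (mem_gamma_two hf)) (fun d h1 h4 => ?_) (sq_dvd' f))
  have k : ∀ {i} g, 1 ≤ i → θ g ∈ Jn 2 i → ld i (θ g) = 1 → ∃ t ∈ θ.range ⊔ gamma J2 2,
      X ^ (i + 1) ∣ t.ser + X ∧ coeff (i + 1) t.ser = 1 := fun g hi h1 h2 =>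
    ⟨_, mem_sup_left ⟨g, rfl⟩, mem_Jn_iff.1 h1, (ld_eq hi).symm.trans h2⟩
  interval_cases d
  · exact k _ le_rfl (A 0).1 (A 0).2
  · exact k _ (by omega) hy.1 y1
  · exact k _ (by omega) (A 1).1 (A 1).2
  · exact ⟨_, mem_sup_left ⟨y * y, map_mul _ _ _⟩, sq_y hy.1 hy.2⟩
  · exact k _ (by omega) (A 2).1 (A 2).2
  · have : θ (u * (vG x y u true 3 ^ n)⁻¹) = v := by simp only [map_mul, map_inv, map_zpow]; rfl
    exact k _ (by omega) (this ▸ u6) (this ▸ v1)

end Pool.Agent.Lib.MP_ffb54b_al.P2.O4
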