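import Pool.Agent.Lib.MP_ffb54b_al.P2.PI0

set_option autoImplicit false
set_option linter.unusedSectionVars false

namespace Pool.Agent.Lib.MP_ffb54b_al.P2

open Finset Filter
open scoped commutatorElement

universe u v

variable {U : Ultrafilter ℕ} {G : ℕ → Type u} [∀ n, Group (G n)] {J : Type v} [Group J]

namespace PI

open Fam

variable (P : PI U G J) {ν μ : Pos U}

lemma H : Fam U P.K := fam_of_lcs P.free P.lcs

lemma S : S1L P.H P.x P.y P.u (P.H.lead P.c) (σL P.σ) := P.H.s1l P.lcs P.s1g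

/-- a lift of an element of the model group. -/
noncomputable def ℓ (f : J) (n : ℕ) : G n := ((P.lk n).right f).choose

lemma Rℓ (f : J) (n : ℕ) : P.R n (P.ℓ f n) f := ((P.lk n).right f).choose_spec

/-- an image in the model group. -/
noncomputable def im (g : ∀ n, G n) (n : ℕ) : J := ((P.lk n).left (g n)).choose

lemma Rim (g : ∀ n, G n) (n : ℕ) : P.R n (g n) (P.im g n) := ((P.lk n).left (g n)).choose_spec

lemma inf_N : Inf (pos U P.N) := inf_pos.2 P.N_inf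

lemma ρ_link {g g' : ∀ n, G n} (h : ∀ᶠ n in U, ∃ f, P.R n (g n) f ∧ P.R n (g' n) f) (a : P.H.L) :
    P.H.ρ g a = P.H.ρ g' a := by
  have h1 : g * g'⁻¹ ∈ Ev P.K (pos U P.N) := mem_Ev_pos.2 (h.mono fun n ⟨f, h1, h2⟩ =>
    ((P.lk n).mem ((P.lk n).mul h1 ((P.lk n).inv h2)) le_rfl).2 (by simp))
  rw [← P.H.pns.ρ_deep P.inf_N h1 (P.H.ρ g' a), ← P.H.pns.ρ_mul, inv_mul_cancel_right]

lemma ℓ_mul (f f' : J) (a : P.H.L) : P.H.ρ (P.ℓ (f * f')) a = P.H.ρ (P.ℓ f) (P.H.ρ (P.ℓ f') a) := by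
  rw [← P.H.pns.ρ_mul]
  exact P.ρ_link (.of_forall fun n => ⟨_, P.Rℓ _ n, (P.lk n).mul (P.Rℓ _ n) (P.Rℓ _ n)⟩) a

lemma ℓ_mem (t : ℕ) (f : J) (hf : f ∈ P.KJ t) : ∀ᶠ n in U, P.ℓ f n ∈ P.K n t :=
  (P.N_inf t).mono fun n h => ((P.lk n).mem (P.Rℓ f n) h).2 hf

/-- positions at which the groups agree with the model. -/
def Kn (ν : Pos U) : Prop := Inf (pos U P.N - ν)

variable {P}

lemma Kn.le (h : P.Kn ν) (hν : Inf ν) (d : ℕ) : ∀ᶠ n in U, lev ν n + d ≤ P.N n := by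
  have h1 : ν + d ≤ pos U P.N := by linarith [h.nat_le d]
  filter_upwards [lev_le h1, lev_add_nat hν.nonneg d, lev_pos (U := U) P.N] with n h2 h3 h4
  omega

lemma Kn.mono (h : P.Kn μ) (hle : ν ≤ μ) : P.Kn ν := Inf.mono h (by linarith)

lemma Kn.add_nat (h : P.Kn ν) (d : ℕ) : P.Kn (ν + d) :=
  Inf.of_eq h (-d) (by push_cast; ring)

variable (P)

lemma exists_ω : ∃ ω : Pos U, Inf ω ∧ P.Kn (3 * ω) := by
  obtain ⟨ω, r, -, e⟩ := exists_div (pos U P.N) (show 0 < 4 by norm_num)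
  have h : Inf ω := Inf.of_mul (m := 4) (c := r) (by simpa [e] using P.inf_N)
  refine ⟨ω, h, h.mono ?_⟩
  have : (0 : Pos U) ≤ r := Nat.cast_nonneg r
  push_cast at e
  linarith

/-- a fixed infinite position well inside the known range. -/
noncomputable def ω : Pos U := P.exists_ω.choose

lemma ω_inf : Inf P.ω := P.exists_ω.choose_spec.1

lemma ω_kn : P.Kn (3 * P.ω) := P.exists_ω.choose_spec.2

lemma im_mem {a : ∀ n, G n} (hν : Inf ν) (hk : P.Kn ν) (ha : a ∈ Ev P.K ν) :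
    ∀ᶠ n in U, P.im a n ∈ P.KJ (lev ν n) := by
  filter_upwards [mem_Ev.1 ha, hk.le hν 0] with n h1 h2
  exact ((P.lk n).mem (P.Rim a n) (by omega)).1 h1

theorem exKP (e : ℕ) : P.H.ExKP P.y e := by
  have hω := P.ω_inf
  have h0 := hω.nonneg
  have hk := P.ω_kn.add_nat 1
  push_cast at hk
  suffices hall : ∀ p ∈ P.H.F P.ω, ∀ q ∈ P.H.F (P.ω + 1), ∀ r ∈ P.H.F P.ω, ⁅⁅p, q⁆, r⁆ = 0 from
    fun {_ _ _ _} => P.S.exKP_all hω hω.succ hω (by
      rw [show P.ω + (P.ω + 1) = 2 * P.ω + 1 by ring, map_add, map_mul, red_two, map_one]; ring)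
      hall e
  intro p hp q hq r hr
  obtain ⟨a, ha, rfl⟩ := (P.H.pns.mem_F hω).1 hp
  obtain ⟨b, hb, rfl⟩ := (P.H.pns.mem_F hω.succ).1 hq
  obtain ⟨d, hd, rfl⟩ := (P.H.pns.mem_F hω).1 hr
  have h2 := hω.add hω.succ
  have h3 := h2.add hω
  rw [P.H.pns.lie_cls hω hω.succ ha hb, P.H.pns.lie_cls h2 hω (P.H.pns.comm ha hb) hd]
  refine P.H.pns.F_sep fun C =>
    (P.H.cls_mem_nat h3 (P.H.pns.comm (P.H.pns.comm ha hb) hd) C).2 ?_
  obtain ⟨w, hw⟩ := P.jf.cls2 C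
  filter_upwards [P.im_mem hω (hk.mono (by linarith)) ha, P.im_mem hω.succ (hk.mono (by linarith)) hb,
    P.im_mem hω (hk.mono (by linarith)) hd, (hk.mono (ν := P.ω + (P.ω + 1) + P.ω) (by linarith)).le h3 C,
    hω.le_lev w, hω.succ.le_lev w, lev_add h2.nonneg h0, lev_add h0 hω.succ.nonneg]
    with n e1 e2 e3 e4 e5 e6 e7 e8
  refine ((P.lk n).mem ((P.lk n).comm ((P.lk n).comm (P.Rim a n) (P.Rim b n)) (P.Rim d n)) e4).2 ?_
  rw [e7, e8]
  exact hw _ _ _ e5 e6 e5 _ e1 _ e2 _ e3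

theorem two (a : P.H.L) : a + a = 0 := by
  have hω := P.ω_inf
  have h0 := hω.nonneg
  have hk : P.Kn P.ω := P.ω_kn.mono (by linarith)
  refine P.S.char_two hω (fun p hp => ?_) a
  obtain ⟨a, ha, rfl⟩ := (P.H.pns.mem_F hω).1 hp
  rw [← P.H.pns.cls_mul hω ha ha]
  refine P.H.pns.F_sep fun C => (P.H.cls_mem_nat hω (mul_mem ha ha) C).2 ?_
  obtain ⟨w, hw⟩ := P.jf.sq C
  filter_upwards [P.im_mem hω hk ha, hk.le hω C, hω.le_lev w] with n e1 e2 e3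
  refine ((P.lk n).mem ((P.lk n).mul (P.Rim a n) (P.Rim a n)) e2).2 ?_
  rw [← pow_two]
  exact hw _ e3 _ e1

theorem lb (w : ℕ) (f : J) (hf : f ∈ P.KJ (w + 1)) :
    P.H.KD P.y (P.ℓ f) (2 * w + 2) ∧ P.H.VD P.y (P.ℓ f) (2 * w) :=
  P.S.lower_bound P.exKP P.jf.lcs P.ℓ P.ℓ_mul P.ℓ_mem w f hf

/-- the lifts of the basis of the model group. -/
noncomputable def e0 (p : Bool) (n i : ℕ) : G n := P.ℓ (P.eJ p i) n

lemma e0_mem (p : Bool) (hν : Inf ν) (hk : P.Kn ν) : EvMem U P.K (P.e0 p) ν := by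
  obtain ⟨w, hw⟩ := P.jf.e_mem
  filter_upwards [hk.le hν 0, hν.le_lev w] with n h1 h2
  exact ((P.lk n).mem (P.Rℓ _ n) (by omega)).2 (hw p _ h2)

/-- the window coefficients at an infinite position. -/
noncomputable def cfL (f : J) (p : Bool) (ν : Pos U) (k : ℕ) : ZMod 2 :=
  ulim U fun n => P.cf f p (lev ν n) k

lemma cfL_spec (f : J) (p : Bool) (ν : Pos U) (k : ℕ) :
    ∀ᶠ n in U, P.cf f p (lev ν n) k = P.cfL f p ν k := ulim_spec U _

lemma win0 {g : ∀ n, G n} {f : J} (hg : ∀ᶠ n in U, P.R n (g n) f) (p : Bool) (C : ℕ) (hν : Inf ν)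
    (hk : P.Kn ν) : P.H.WinP P.y g (P.H.El (P.e0 p)) ν C (P.cfL f p ν) := by
  have m := fun k : ℕ => P.e0_mem p (hν.add_nat k) (hk.add_nat k)
  rw [P.S.winP_iff hν (P.H.El_mem hν (P.e0_mem p hν hk))
    (fun k _ => P.H.El_mem (hν.add_nat k) (m k)),
    P.H.winL_ev hν (P.e0_mem p hν hk) (fun k _ => m k) fun k _ => P.cfL_spec f p ν k]
  obtain ⟨w, hw⟩ := P.jf.win C f
  filter_upwards [hg, hk.le hν (2 * C), hν.le_lev w] with n h1 h2 h3
  exact (P.lk n).winG (fun i => P.Rℓ _ n) (P.Ry n) h1 h2 (hw p _ h3)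

open Classical in
/-- the step of the recursion defining the basis. -/
noncomputable def stepE (g : J) (M C n : ℕ) (a : G n) (i : ℕ) : G n :=
  if h : ∃ b ∈ P.K n i, yc (P.y n) (M + C) (⁅P.ℓ g n, a⁆ * b⁻¹) ∈ P.K n (i - M + 2 * (M + C))
  then h.choose else 1

lemma stepE_mem (g : J) (M C n : ℕ) (a : G n) (i : ℕ) : P.stepE g M C n a i ∈ P.K n i := by
  rw [stepE]
  split_ifs with h
  exacts [h.choose_spec.1, one_mem _]

lemma stepE_spec {g : J} {M C n : ℕ} {a : G n} {i : ℕ} (h : ∃ b ∈ P.K n i,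
    yc (P.y n) (M + C) (⁅P.ℓ g n, a⁆ * b⁻¹) ∈ P.K n (i - M + 2 * (M + C))) :
    yc (P.y n) (M + C) (⁅P.ℓ g n, a⁆ * (P.stepE g M C n a i)⁻¹) ∈ P.K n (i - M + 2 * (M + C)) := by
  rw [stepE, dif_pos h]
  exact h.choose_spec.2

/-- the transferred basis. -/
noncomputable def eT (g : J) (M C : ℕ) (p : Bool) (n : ℕ) : ℕ → G n :=
  recE (P.e0 p n) (lev P.ω n) M (P.stepE g M C n)

lemma eT_lt (g : J) (M C : ℕ) (p : Bool) (hlt : ν < P.ω) (hν : Inf ν) :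
    ∀ᶠ n in U, P.e0 p n (lev ν n) = P.eT g M C p n (lev ν n) := by
  rw [← pos_lev hν.nonneg, ← pos_lev P.ω_inf.nonneg, pos_lt] at hlt
  exact hlt.mono fun n h => (recE_lt _ _ h).symm

lemma kn_of_le (d : ℕ) (h : ν ≤ P.ω + d) : P.Kn ν :=
  (P.ω_kn.add_nat d).mono (by linarith [P.ω_inf.nonneg])

lemma eT_mem (g : J) {M : ℕ} (hM : 0 < M) (C : ℕ) (p : Bool) (hν : Inf ν) :
    EvMem U P.K (P.eT g M C p) ν := by
  rcases lt_or_ge ν P.ω with h | h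
  · filter_upwards [P.eT_lt g M C p h hν,
      mem_Ev.1 (P.e0_mem p hν (P.kn_of_le 0 (by simpa using h.le)))] with n h1 h2
    exact h1 ▸ h2
  · filter_upwards [lev_le h, hν.le_lev 1] with n h1 h2
    rw [eT, recE_ge _ _ h1 hM h2]
    exact P.stepE_mem _ _ _ _ _ _

lemma El_eT_lt (g : J) (M C : ℕ) (p : Bool) (hlt : ν < P.ω) (hν : Inf ν) :
    P.H.El (P.eT g M C p) ν = P.H.El (P.e0 p) ν :=
  (P.H.cls_congr hν (P.e0_mem p hν (P.kn_of_le 0 (by simpa using hlt.le)))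
    (P.eT_lt g M C p hlt hν)).symm

lemma eT_rec {g : J} {M : ℕ} (hM : 0 < M) (hV : P.H.VD P.y (P.ℓ g) M) (C : ℕ) (p : Bool)
    (hν : Inf ν) (hge : P.ω ≤ ν + M) :
    P.H.π P.y (P.H.ρ (P.ℓ g) (P.H.El (P.eT g M C p) ν) - P.H.El (P.eT g M C p) ν -
      P.H.El (P.eT g M C p) (ν + M)) ∈ P.H.F (ν + M + C) := by
  have m0 := P.eT_mem g hM C p hν
  have mM := P.eT_mem g hM C p (hν.add_nat M)
  have m1 := P.H.comm_Ev (P.ℓ g) m0
  have e1 : P.H.ρ (P.ℓ g) (P.H.El (P.eT g M C p) ν) - P.H.El (P.eT g M C p) ν =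
      P.H.cls ν ⁅P.ℓ g, fun n => P.eT g M C p n (lev ν n)⁆ := P.H.pns.ρ_sub_cls _ hν m0
  have mA := P.S.A_mem (P.ℓ g) (P.H.El_mem hν m0)
  obtain ⟨b, hb, eb⟩ := (P.H.pns.mem_F (hν.add_nat M)).1 (hV hν (P.H.El_mem hν m0))
  have h1 := (P.S.π_spec hν mA).2 (M + C)
  rw [← eb, ← P.H.pns.cls_near (Near.add_nat ν M), e1, ← P.H.pns.cls_div hν m1 (P.H.Ev_up hb),
    P.H.Ypow_mem_iff hν (mul_mem m1 (inv_mem (P.H.Ev_up hb)))] at h1
  have m2 := P.H.Ev_up (P.H.shift_Ev hν mM)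
  rw [show ν + M + C = ν + (M + C : ℕ) by push_cast; ring]
  refine P.S.π_of_Ypow hν (sub_mem mA (P.H.F_add_nat M (P.H.El_mem (hν.add_nat M) mM))) ?_
  rw [e1, P.H.El_add hν mM, ← P.H.pns.cls_div hν m1 m2,
    P.H.Ypow_mem_iff hν (mul_mem m1 (inv_mem m2))]
  filter_upwards [h1, (mem_Ev_add_nat hν.nonneg).1 hb, lev_le hge, lev_add_nat hν.nonneg M]
    with n h2 h3 h4 h5
  have e2 : P.eT g M C p n (lev ν n + M) =
      P.stepE g M C n (P.eT g M C p n (lev ν n)) (lev ν n + M) := by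
    rw [eT, recE_ge _ _ (by omega) hM (by omega), Nat.add_sub_cancel]
  have h6 := P.stepE_spec (g := g) (M := M) (C := C) (a := P.eT g M C p n (lev ν n))
    (i := lev ν n + M) ⟨b n, h3, by rw [Nat.add_sub_cancel]; exact h2⟩
  rw [Nat.add_sub_cancel, ← e2] at h6
  exact h6

/-- TRANSFER. -/
theorem transfer (C : ℕ) : ∃ e : Bool → ∀ n, ℕ → G n,
    (∀ p {ν : Pos U}, Inf ν → EvMem U P.K (e p) ν) ∧
    (∀ p {ν : Pos U}, Inf ν → ν < P.ω → ∀ᶠ n in U, P.R n (e p n (lev ν n)) (P.eJ p (lev ν n))) ∧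
    ∀ {g : ∀ n, G n} {f : J}, (∀ᶠ n in U, P.R n (g n) f) → ∀ p {ν : Pos U}, Inf ν →
      P.H.WinP P.y g (P.H.El (e p)) ν C (P.cfL f p ν) := by
  obtain ⟨M', h, hC, h1, h2, h3, h4⟩ := P.jf.per C
  set M := 2 * M' with hMe
  have hM : 0 < M := by omega
  have hV : P.H.VD P.y (P.ℓ h) M := (P.lb M' h h1).2
  have mE : ∀ p {ν : Pos U}, Inf ν → P.H.El (P.eT h M C p) ν ∈ P.H.F ν := fun p _ hν =>
    P.H.El_mem hν (P.eT_mem h hM C p hν)
  have mE0 : ∀ p {ν : Pos U} (d : ℕ), Inf ν → ν ≤ P.ω + d → P.H.El (P.e0 p) ν ∈ P.H.F ν :=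
    fun p _ d hν hd => P.H.El_mem hν (P.e0_mem p hν (P.kn_of_le d hd))
  refine ⟨P.eT h M C, fun p _ hν => P.eT_mem h hM C p hν, fun p ν hν hlt =>
    (P.eT_lt h M C p hlt hν).mono fun n e => e ▸ P.Rℓ _ n, fun {g f} hg p => ?_⟩
  have near : ∀ {ν : Pos U}, Inf ν → ν < P.ω + M →
      P.H.π P.y (P.H.El (P.eT h M C p) ν - P.H.El (P.e0 p) ν) ∈ P.H.F (ν + C) := by
    intro ν hν hlt
    rcases lt_or_ge ν P.ω with hl | hl
    · rw [P.El_eT_lt h M C p hl hν, sub_self, P.S.π_K hν (zero_mem _)]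
      exact zero_mem _
    obtain ⟨μ, rfl⟩ : ∃ μ, ν = μ + M := ⟨ν - M, by ring⟩
    have hμ : Inf μ := hν.of_eq (-M) (by push_cast; ring)
    have hμ' : μ < P.ω := by linarith
    have r1 := P.eT_rec hM hV C p hμ hl
    rw [P.El_eT_lt h M C p hμ' hμ] at r1
    have r2 := S1L.winP_congr (P.win0 (g := P.ℓ h) (.of_forall (P.Rℓ h)) p (M + C) hμ
      (P.kn_of_le 0 (by simpa using hμ'.le))) (f' := fm M) fun k hk => by
        obtain ⟨n, hn⟩ := (P.cfL_spec h p μ k).exists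
        rw [← hn, h3 p _ k hk]
    have e : ∑ k ∈ range (M + C), (fm M k).val • P.H.El (P.e0 p) (μ + k) =
        P.H.El (P.e0 p) μ + if 0 < C then P.H.El (P.e0 p) (μ + M) else 0 := by
      split_ifs with hC0
      · rw [sum_eq_add 0 M (by omega) (fun k _ hk => by simp [fm, hk.1, hk.2])
          (fun hk => (hk (mem_range.2 (by omega))).elim) (fun hk => (hk (mem_range.2 (by omega))).elim)]
        simp [fm, ZMod.val_one]
      · rw [sum_eq_single 0 (fun k hk hk' => by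
          have := mem_range.1 hk
          simp [fm, hk', show k ≠ M by omega]) (fun hk => (hk (mem_range.2 (by omega))).elim)]
        simp [fm, ZMod.val_one]
    have mA := P.S.A_mem (P.ℓ h) (mE0 p 0 hμ (by simpa using hμ'.le))
    have mT := mE p hν
    have m0 := mE0 p M hν hlt.le
    rcases Nat.eq_zero_or_pos C with hC0 | hC0
    · simpa [hC0] using P.S.π_mem hν (sub_mem mT m0)
    rw [WinP, e, if_pos hC0, ← sub_sub] at r2
    have r3 := sub_mem (P.H.cast r2 (ν := μ + M + C) (by push_cast; ring)) r1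
    rwa [← P.S.π_sub hμ (sub_mem mA (P.H.F_add_nat M m0)) (sub_mem mA (P.H.F_add_nat M mT)),
      sub_sub_sub_cancel_left] at r3
  refine fun {ν} hν => hyper_ind (Q := fun ν => P.H.WinP P.y g (P.H.El (P.eT h M C p)) ν C
    (P.cfL f p ν)) (fun n i => WinG (P.K n) (P.y n) (g n) (P.eT h M C p n) i C (P.cf f p i))
    (fun ν hν => ?_) P.ω_inf (fun μ hμ hlt => ?_) (fun ν hge ih => ?_) ν hν
  · rw [P.S.winP_iff hν (mE p hν) (fun k _ => mE p (hν.add_nat k)),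
      P.H.winL_ev hν (P.eT_mem h hM C p hν) (fun k _ => P.eT_mem h hM C p (hν.add_nat k))
        fun k _ => P.cfL_spec f p ν k]
  · have hk : ∀ k < C, μ + k < P.ω + M := fun k hk => by
      have : (k : Pos U) ≤ M := Nat.cast_le.2 (by omega)
      linarith
    have hM' : (0 : Pos U) ≤ M := Nat.cast_nonneg M
    exact P.S.winP_change P.exKP hμ (mE0 p 0 hμ (by simpa using hlt.le))
      (fun k hk' => mE0 p M (hμ.add_nat k) (hk k hk').le) (mE p hμ) (fun k _ => mE p (hμ.add_nat k))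
      (near hμ (by linarith)) (fun k hk' => P.H.up (near (hμ.add_nat k) (hk k hk')) k (by ring))
      (P.win0 hg p C hμ (P.kn_of_le 0 (by simpa using hlt.le)))
  · obtain ⟨μ, rfl⟩ : ∃ μ, ν = μ + M := ⟨ν - M, by ring⟩
    have hμ : Inf μ := (P.ω_inf.mono hge).of_eq (-M) (by push_cast; ring)
    have hM' : (0 : Pos U) < M := Nat.cast_pos.2 hM
    obtain ⟨M1, hM1⟩ : ∃ M1, M = M1 + 1 := ⟨M - 1, by omega⟩
    have hV2 : P.H.VD P.y ⁅g, P.ℓ h⁆ (M + C) := VD.congr (VD.mono (P.lb M1 ⁅f, h⁆ (hM1 ▸ h2 f)).2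
      (by omega)) (P.ρ_link (hg.mono fun n hn => ⟨_, (P.lk n).comm hn (P.Rℓ _ n), P.Rℓ _ n⟩))
    refine S1L.winP_congr (P.S.transfer_step P.exKP hμ (mE p) hV hV2 (P.eT_rec hM hV C p hμ hge)
      (fun k _ => P.H.up (P.eT_rec hM hV C p (hμ.add_nat k)
        (by linarith [(Nat.cast_nonneg k : (0 : Pos U) ≤ k)])) k (by ring))
      (ih μ hμ (by linarith))) fun k hk => ?_
    obtain ⟨n, e1, e2, e3⟩ := ((P.cfL_spec f p μ k).and ((P.cfL_spec f p (μ + M) k).and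
      (lev_add_nat hμ.nonneg M))).exists
    rw [← e1, ← e2, e3, h4 f p _ k hk]

end PI

end Pool.Agent.Lib.MP_ffb54b_al.P2
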