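import Pool.Agent.Lib.MP_ffb54b_al.P2.PI1
import Pool.Agent.Lib.MP_ffb54b_al.P2.Lines5

set_option autoImplicit false
set_option linter.unusedSectionVars false

namespace Pool.Agent.Lib.MP_ffb54b_al.P2

open Finset Filter
open scoped commutatorElement

universe u v

variable {U : Ultrafilter ℕ} {G : ℕ → Type u} [∀ n, Group (G n)] {K : ∀ n, ℕ → Subgroup (G n)}

/-- A basis with the windows needed for LINES in a galaxy Lie ring of class two and
characteristic two. -/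
structure BH (H : Fam U K) (x y u h : ∀ n, G n) (c : Pos U → H.L → W2 × W2) (σ : Pos U → Bil)
    (E : Bool → Pos U → H.L) (ch : Pos U → ZMod 2) (t c₆ c₇ c₈ d₈ : ZMod 2) : Prop where
  s : S1L H x y u c σ
  ex : ∀ e, H.ExKP y e
  two : ∀ a : H.L, a + a = 0
  mem : ∀ p {ν}, Inf ν → E p ν ∈ H.F ν
  cls : ∀ p {ν}, Inf ν → (c ν (E p ν)).1 = vb t p
  ch_succ : ∀ {ν}, Inf ν → ch (ν + 1) = ch ν + red 2 ν
  winx : ∀ p {ν}, Inf ν → H.WinP y x (E p) ν 3 (fx (red 2 ν) (ch ν))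
  winy : ∀ p {ν}, Inf ν → H.WinP y y (E p) ν 5 (fy p (red 2 ν) (ch ν))
  winu : ∀ p {ν}, Inf ν → H.WinP y u (E p) ν 7 (fu p (red 2 ν))
  winh : ∀ p {ν}, Inf ν → H.WinP y h (E p) ν 7 (fm 5)
  winyu : ∀ p {ν}, Inf ν → H.WinP y ⁅y, u⁆ (E p) ν 9 (fyu c₆ c₇ c₈)
  winyh : ∀ p {ν}, Inf ν → H.WinP y ⁅y, h⁆ (E p) ν 9 (fyh d₈)

/-- The inductive statement of LINES in the galaxy Lie ring. -/
def Fam.PhiH (H : Fam U K) (E : Bool → Pos U → H.L) (ν : Pos U) : Prop :=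
  (∀ p, ⁅E p ν, E p (ν + 2)⁆ ∈ H.F (2 * ν + 6)) ∧
    ⁅E false (ν + 1), E false (ν + 2)⁆ ∈ H.F (2 * ν + 4) ∧
    (⁅E true (ν + 1), E false (ν + 1)⁆ + ⁅E true ν, E false (ν + 2)⁆ ∈ H.F (2 * ν + 4) ∨
      ⁅E true (ν + 1), E false (ν + 1)⁆ + ⁅E true ν, E false (ν + 2)⁆ +
        ⁅E true (ν + 1), E true (ν + 2)⁆ ∈ H.F (2 * ν + 4))

lemma smul_val {L : Type*} [AddCommGroup L] [Module (ZMod 2) L] (f : ZMod 2) (a : L) :
    f • a = f.val • a := by
  rw [← Nat.cast_smul_eq_nsmul (ZMod 2), ZMod.natCast_zmod_val]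

lemma w2_dep (a b d : W2) : ∃ c1 c2 c3 : ZMod 2, ¬ (c1 = 0 ∧ c2 = 0 ∧ c3 = 0) ∧
    c1 • a + c2 • b + c3 • d = 0 := by
  revert a b d; decide

lemma Inf.two_mul {ν : Pos U} (h : Inf ν) : Inf (2 * ν) := by rw [_root_.two_mul]; exact h.add h

lemma red_odd (ν : Pos U) (m : ℤ) : red 2 (2 * ν + (2 * m + 1 : ℤ) : Pos U) = 1 := by
  push_cast
  simp only [map_add, map_mul, red_two, map_one, zero_mul, zero_add]

lemma red_even (ν : Pos U) (m : ℤ) : red 2 (2 * ν + (2 * m : ℤ) : Pos U) = 0 := by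
  push_cast
  simp only [map_add, map_mul, red_two, zero_mul, zero_add]

lemma Fam.F_int (H : Fam U K) (ν : Pos U) {m n : ℤ} (h : m ≤ n) : H.F (ν + n) ≤ H.F (ν + m) :=
  H.pns.F_anti ⟨n - m, by push_cast; ring⟩ (by linarith [(Int.cast_le.2 h : (m : Pos U) ≤ n)])

lemma Good.vb {σ : Bil} (h : Good σ) (t : ZMod 2) (z : W2) : ∃ c₁ c₂ c₃ : ZMod 2,
    z = c₁ • σ (vb t true) (vb t true) + c₂ • σ (vb t true) (vb t false) +
      c₃ • σ (vb t false) (vb t false) := by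
  obtain ⟨c₁, c₂, c₃, e⟩ := h.2 z
  refine ⟨c₁, c₂, c₃ + c₁ * t * t + c₂ * t, e.trans ?_⟩
  simp only [P2.vb, if_true, Bool.false_eq_true, if_false, map_add, map_smul, LinearMap.add_apply,
    LinearMap.smul_apply, h.1 (ee false) (ee true)]
  generalize σ (ee true) (ee true) = a
  generalize σ (ee true) (ee false) = b
  generalize σ (ee false) (ee false) = d
  funext p
  simp only [Pi.add_apply, Pi.smul_apply, smul_eq_mul]
  have key : ∀ t c₁ c₂ c₃ a b d : ZMod 2, c₁ * a + c₂ * b + c₃ * d = c₁ * (a + t * b +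
      t * (b + t * d)) + c₂ * (b + t * d) + (c₃ + c₁ * t * t + c₂ * t) * d := by decide
  exact key _ _ _ _ _ _ _

namespace BH

open Fam

variable {H : Fam U K} {x y u h : ∀ n, G n} {c : Pos U → H.L → W2 × W2} {σ : Pos U → Bil}
  {E : Bool → Pos U → H.L} {ch : Pos U → ZMod 2} {t c₆ c₇ c₈ d₈ : ZMod 2}
  (B : BH H x y u h c σ E ch t c₆ c₇ c₈ d₈) {ν μ κ : Pos U} {a z : H.L}
include B

lemma neg_eq (a : H.L) : -a = a := neg_eq_of_add_eq_zero_right (B.two a)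

lemma cen_K (hν : Inf ν) (hz : z ∈ H.Ks y ν) : Cen z := B.s.K_central B.ex hν hz

lemma K_cen (hν : Inf ν) (hz : Cen z) (ha : z ∈ H.F ν) : z ∈ H.Ks y ν :=
  B.s.K_of_central hν ha B.ex hz

lemma lieE (hν : Inf ν) (hμ : Inf μ) (e : κ = ν + μ) (p q : Bool) :
    ⁅E p ν, E q μ⁆ ∈ H.F κ ∧ c κ ⁅E p ν, E q μ⁆ = (0, σ κ (vb t p) (vb t q)) := by
  subst e
  rw [B.s.br hν hμ (B.mem p hν) (B.mem q hμ), B.cls p hν, B.cls q hμ]
  exact ⟨H.lie_mem (B.mem p hν) (B.mem q hμ), rfl⟩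

variable [Module (ZMod 2) H.L]

lemma win {g : ∀ n, G n} {p : Bool} {w : ℕ} {f : ℕ → ZMod 2} (hν : Inf ν) (i : ℤ)
    (hw : H.WinP y g (E p) (ν + i) (w + 1) f) :
    Win (fun i : ℤ => H.F (ν + i)) (H.ρ g) (fun i : ℤ => E p (ν + i)) i w f := by
  have hi := hν.add_int i
  have m := B.s.win_mem (g := g) (f := f) (w := w + 1) (B.mem p hi) fun k _ => B.mem p (hi.add_nat k)
  refine ⟨_, B.cen_K hi (neg_mem (B.s.π_spec hi m).2), ?_⟩
  have e : ∑ k ∈ range (w + 1), f k • E p (ν + (i + k : ℤ)) =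
      -∑ k ∈ range (w + 1), (f k).val • E p (ν + i + k) := by
    rw [B.neg_eq]
    exact sum_congr rfl fun k _ => by rw [smul_val]; congr 2; push_cast; ring
  rw [e]
  convert H.cast hw (ν := ν + (i + w + 1 : ℤ)) (by push_cast; ring) using 1
  abel

lemma comb (hκ : Inf κ) (hν : Inf ν) (hμ : Inf μ) (e : κ = ν + μ) (c1 c2 c3 : ZMod 2) :
    c1 • ⁅E true ν, E true μ⁆ + c2 • ⁅E true ν, E false μ⁆ + c3 • ⁅E false ν, E false μ⁆ ∈ H.F κ ∧
    c κ (c1 • ⁅E true ν, E true μ⁆ + c2 • ⁅E true ν, E false μ⁆ + c3 • ⁅E false ν, E false μ⁆) =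
      (0, c1 • σ κ (vb t true) (vb t true) + c2 • σ κ (vb t true) (vb t false) +
        c3 • σ κ (vb t false) (vb t false)) := by
  have l := B.lieE hν hμ e
  simp only [smul_val (L := H.L)]
  have m := fun (s : ZMod 2) p q => nsmul_mem (l p q).1 s.val
  refine ⟨add_mem (add_mem (m _ _ _) (m _ _ _)) (m _ _ _), ?_⟩
  rw [B.s.add hκ (add_mem (m _ _ _) (m _ _ _)) (m _ _ _), B.s.add hκ (m _ _ _) (m _ _ _),
    B.s.c_val hκ, B.s.c_val hκ, B.s.c_val hκ, (l _ _).2, (l _ _).2, (l _ _).2]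
  simp

/-- The data of LINES in the galaxy of `ν`. -/
noncomputable def lv (hν : Inf ν) : LV H.L (∀ n, G n) where
  cls2 := B.s.class_two B.ex
  ρ := H.ρ
  ρ_one := H.pns.ρ_one
  ρ_mul := H.pns.ρ_mul
  ρ_lie := H.pns.ρ_lie
  FV i := H.F (ν + i)
  FK n := H.F (2 * ν + n)
  antiV _ _ := H.F_int ν
  antiK _ _ := H.F_int _
  lie_mem i j a b ha hb := H.cast (H.lie_mem ha hb) (by push_cast; ring)
  ρ_deg g n a ha := H.cast (B.s.deg g ha) (by push_cast; ring)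
  even m z hz hm := H.cast (K_F (B.s.K_even (hν.two_mul.add_int _)
    (B.K_cen (hν.two_mul.add_int _) hz hm) (red_even ν m))) (by push_cast; ring)
  e p i := E p (ν + i)
  e_mem p i := B.mem p (hν.add_int i)
  const i j p q m e := by
    have hκ := hν.two_mul.add_int (2 * m + 1)
    have e' : ((i : Pos U) + j) = 2 * m + 1 := by exact_mod_cast congrArg (Int.cast (R := Pos U)) e
    obtain ⟨h1, h2⟩ := B.lieE (hν.add_int i) (hν.add_int j) (κ := 2 * ν + (2 * m + 1 : ℤ))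
      (by push_cast; linear_combination -e') p q
    obtain ⟨h3, h4⟩ := B.lieE (hν.add_int m) (hν.add_int (m + 1)) (κ := 2 * ν + (2 * m + 1 : ℤ))
      (by push_cast; ring) p q
    refine H.cast ((B.s.zero hκ (add_mem h1 h3)).1 ?_) (by push_cast; ring)
    rw [B.s.add hκ h1 h3, h2, h4, Prod.mk_add_mk, add_zero, w2_add_self]
    rfl
  gen m z hz hm := by
    have hκ := hν.two_mul.add_int (2 * m + 1)
    obtain ⟨c1, c2, c3, e⟩ := (B.s.good hκ (red_odd ν m)).vb t (c _ z).2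
    obtain ⟨h1, h2⟩ := B.comb hκ (hν.add_int m) (hν.add_int (m + 1)) (by push_cast; ring) c1 c2 c3
    refine ⟨c1, c2, c3, H.cast ((B.s.zero hκ (add_mem hm h1)).1 ?_) (by push_cast; ring)⟩
    rw [B.s.add hκ hm h1, h2, ← e]
    exact Prod.ext (by simpa using B.s.K_cW hκ (B.K_cen hκ hz hm)) (w2_add_self _)
  dimLow m z hall := by
    have hκ := hν.two_mul.add_int (2 * m + 1)
    have e : (2 * ν + (2 * m + 2 : ℤ) : Pos U) = 2 * ν + (2 * m + 1 : ℤ) + 1 := by push_cast; ring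
    have key : ∀ p, ∃ k ∈ H.F (2 * ν + (2 * m + 1 : ℤ)), (c (2 * ν + (2 * m + 1 : ℤ)) k).2 = ee p ∧
        k + z ∈ H.F (2 * ν + (2 * m + 1 : ℤ) + 1) := fun p => by
      obtain ⟨a, ha, ea⟩ := B.s.surj hκ (0, ee p) fun h0 =>
        absurd ((red_odd ν m).symm.trans h0) one_ne_zero
      obtain ⟨k, hk, q, hq, rfl⟩ := B.s.decomp hκ ha
      rw [B.s.add hκ (K_F hk) (P_F hq)] at ea
      have e2 := congrArg Prod.snd ea
      rw [Prod.snd_add, B.s.P_cZ hκ hq, add_zero] at e2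
      refine ⟨k, K_F hk, e2, ?_⟩
      rcases hall k (B.cen_K hκ hk) (K_F hk) with h1 | h1
      · rw [B.s.cZ_deep hκ (H.cast h1 e)] at e2
        exact absurd (congrFun e2 p) (by simp [ee])
      · exact H.cast h1 e
    obtain ⟨k, h1, h2, h3⟩ := key true
    obtain ⟨k', h4, h5, h6⟩ := key false
    have h7 := B.s.cZ_deep hκ (sub_mem h3 h6)
    rw [add_sub_add_right_eq_sub, B.s.c_sub hκ h1 h4, Prod.snd_add, h2, h5] at h7
    exact absurd (congrFun h7 true) (by simp [ee])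
  dimUp m := by
    have hκ := hν.two_mul.add_int (2 * m + 1)
    obtain ⟨c1, c2, c3, h0, e⟩ := w2_dep (σ (2 * ν + (2 * m + 1 : ℤ)) (vb t true) (vb t true))
      (σ (2 * ν + (2 * m + 1 : ℤ)) (vb t true) (vb t false))
      (σ (2 * ν + (2 * m + 1 : ℤ)) (vb t false) (vb t false))
    obtain ⟨h1, h2⟩ := B.comb hκ (hν.add_int m) (hν.add_int (m + 1)) (by push_cast; ring) c1 c2 c3
    exact ⟨c1, c2, c3, h0, H.cast ((B.s.zero hκ h1).1 (by rw [h2, e]; rfl)) (by push_cast; ring)⟩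
  par i := red 2 (ν + i : Pos U)
  par_succ i := by rw [Int.cast_add, Int.cast_one, ← add_assoc, map_add (red 2) _ 1, map_one]
  ch i := ch (ν + i)
  ch_succ i := by rw [Int.cast_add, Int.cast_one, ← add_assoc, B.ch_succ (hν.add_int i)]
  x := x
  y := y
  u := u
  h := h
  c6 := c₆
  c7 := c₇
  c8 := c₈
  d8 := d₈
  winx p i := ⟨_, B.win (w := 2) hν i (B.winx p (hν.add_int i)), by simp [fx]⟩
  winy p i := ⟨_, B.win (w := 4) hν i (B.winy p (hν.add_int i)), by simp [fy]⟩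
  winu p i := ⟨_, B.win (w := 6) hν i (B.winu p (hν.add_int i)), by simp [fu]⟩
  winh p i := ⟨_, B.win (w := 6) hν i (B.winh p (hν.add_int i)), by simp [fm]⟩
  winyu p i := ⟨_, B.win (w := 8) hν i (B.winyu p (hν.add_int i)), by simp [fyu]⟩
  winyh p i := ⟨_, B.win (w := 8) hν i (B.winyh p (hν.add_int i)), by simp [fyh]⟩

lemma lv_phi (hν : Inf ν) (m : ℤ) : (B.lv hν).Phi m ↔ H.PhiH E (ν + m) := by
  have e1 : (ν + (m + 1 : ℤ) : Pos U) = ν + m + 1 := by push_cast; ring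
  have e2 : (ν + (m + 2 : ℤ) : Pos U) = ν + m + 2 := by push_cast; ring
  have e4 : (2 * ν + (2 * m + 4 : ℤ) : Pos U) = 2 * (ν + m) + 4 := by push_cast; ring
  have e6 : (2 * ν + (2 * m + 6 : ℤ) : Pos U) = 2 * (ν + m) + 6 := by push_cast; ring
  simp only [LV.Phi, LV.T, lv, PhiH, e1, e2, e4, e6]

omit [Module (ZMod 2) H.L]

lemma exists_mod : Nonempty (Module (ZMod 2) H.L) :=
  ⟨AddCommGroup.zmodModule fun a => by rw [two_nsmul]; exact B.two a⟩

/-- The step of LINES. -/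
theorem phi_step (hν : Inf ν) (ih : ∀ μ, Inf μ → μ < ν → H.PhiH E μ) : H.PhiH E ν := by
  obtain ⟨_⟩ := B.exists_mod
  have := (B.lv_phi hν 0).1 ((B.lv hν).lines 0 (fun k hk => (B.lv_phi hν k).2
    (ih _ (hν.add_int k) (by linarith [(Int.cast_lt_zero.2 hk : (k : Pos U) < 0)]))) 0)
  simpa using this

variable (hp : ∀ ν, Inf ν → H.PhiH E ν)
include hp

lemma killY (p : Bool) (hν : Inf ν) : H.Y y ⁅E p ν, E p (ν + 1)⁆ ∈ H.F (2 * ν + 5) := by
  obtain ⟨_⟩ := B.exists_mod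
  have := LV.killY (D := B.lv hν) (fun k => (B.lv_phi hν k).2 (hp _ (hν.add_int k))) p 0
  rw [Y_apply, sub_eq_add_neg, B.neg_eq]
  simpa [lv] using this

lemma killU (p : Bool) (hν : Inf ν) : H.Y u ⁅E p ν, E p (ν + 1)⁆ ∈ H.F (2 * ν + 7) := by
  obtain ⟨_⟩ := B.exists_mod
  have := LV.killU (D := B.lv hν) (fun k => (B.lv_phi hν k).2 (hp _ (hν.add_int k))) p 0
  rw [Y_apply, sub_eq_add_neg, B.neg_eq]
  simpa [lv] using this

lemma bb (hν : Inf ν) : σ ν (ee false) (ee false) = 0 := by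
  rcases even_or_odd ν with ⟨μ, rfl⟩ | ⟨μ, rfl⟩
  · rw [B.s.σ_even hν (by rw [map_mul, red_two, zero_mul])]
    rfl
  have hμ : Inf (μ - 1) := (Inf.of_mul (m := 2) (c := 1) (by simpa using hν)).sub_int 1 |>.of_eq 0
    (by simp)
  have h1 := (hp _ hμ).2.1
  have h2 := (B.lieE hμ.succ (hμ.add_nat 2) (κ := 2 * μ + 1) (by push_cast; ring) false false).2
  rw [Nat.cast_ofNat, B.s.c_deep hν (H.cast h1 (by ring))] at h2
  exact (congrArg Prod.snd h2).symm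

end BH

end Pool.Agent.Lib.MP_ffb54b_al.P2
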