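import Pool.Agent.Lib.MP_ffb54b_al.P2.PI2

set_option autoImplicit false
set_option linter.unusedSectionVars false

namespace Pool.Agent.Lib.MP_ffb54b_al.P2

open Finset Filter
open scoped commutatorElement

universe u v

variable {U : Ultrafilter ℕ} {G : ℕ → Type u} [∀ n, Group (G n)] {J : Type v} [Group J]

lemma under1 (hU : Free U) {q : ∀ n, ℕ → G n → Prop}
    (h : ∀ (ν : Pos U) (a : ∀ n, G n), Inf ν → ∀ᶠ n in U, q n (lev ν n) (a n)) :
    ∃ w : ℕ, ∀ᶠ n in U, ∀ j, w ≤ j → ∀ g, q n j g := by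
  obtain ⟨w, hw⟩ := underspill hU (X := fun n => ℕ × G n) (fun _ x => x.1)
    (q := fun n x => q n x.1 x.2) fun x hx =>
      ((h _ (fun n => (x n).2) hx).and (lev_pos fun n => (x n).1)).mono fun n h => h.2 ▸ h.1
  exact ⟨w, hw.mono fun n h j hj g => h (j, g) hj⟩

lemma under2 (hU : Free U) {q : ∀ n, ℕ → ℕ → G n → G n → Prop}
    (h : ∀ (ν μ : Pos U) (a b : ∀ n, G n), Inf ν → Inf μ →
      ∀ᶠ n in U, q n (lev ν n) (lev μ n) (a n) (b n)) :
    ∃ w : ℕ, ∀ᶠ n in U, ∀ i j, w ≤ i → w ≤ j → ∀ a b, q n i j a b := by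
  obtain ⟨w, hw⟩ := underspill hU (X := fun n => (ℕ × ℕ) × G n × G n) (fun _ x => min x.1.1 x.1.2)
    (q := fun n x => q n x.1.1 x.1.2 x.2.1 x.2.2) fun x hx => by
      filter_upwards [h (pos U fun n => (x n).1.1) (pos U fun n => (x n).1.2) (fun n => (x n).2.1)
        (fun n => (x n).2.2) (hx.mono (pos_le.2 (.of_forall fun n => min_le_left _ _)))
        (hx.mono (pos_le.2 (.of_forall fun n => min_le_right _ _))),
        lev_pos (U := U) fun n => (x n).1.1, lev_pos (U := U) fun n => (x n).1.2] with n h1 h2 h3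
      rwa [h2, h3] at h1
  exact ⟨w, hw.mono fun n h i j hi hj a b => h ((i, j), a, b) (le_min hi hj)⟩

lemma ev_imp {p q : ℕ → Prop} (h : (∀ᶠ n in U, p n) → ∀ᶠ n in U, q n) : ∀ᶠ n in U, p n → q n :=
  Ultrafilter.eventually_imp.2 h

lemma lev_two {ν : Pos U} (hν : Inf ν) : ∀ᶠ n in U, lev (2 * ν) n = 2 * lev ν n := by
  rw [two_mul]
  exact (lev_add hν.nonneg hν.nonneg).mono fun n h => by omega

lemma WinG.congr {Γ : Type u} [Group Γ] {K : ℕ → Subgroup Γ} {y g : Γ} {e : ℕ → Γ} {i w : ℕ}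
    {f f' : ℕ → ZMod 2} (h : WinG K y g e i w f) (hf : ∀ k < w, f k = f' k) :
    WinG K y g e i w f' := by
  rwa [WinG, ← Fam.wp_congr e i hf]

lemma S1G.c_vbG {Γ : Type u} [Group Γ] {K : ℕ → Subgroup Γ} {x y u : Γ} {c : ℕ → Γ → W2 × W2}
    {σ : ℕ → Bil} (S : S1G K x y u c σ) (L : LCS K x y u) (t : ZMod 2) (p : Bool) {i : ℕ}
    (hi : 6 ≤ i) : vbG x y u t p i ∈ K i ∧ (c i (vbG x y u t p i)).1 = vb t p := by
  have := L.normal
  have m := fun p => L.vG_mem p i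
  cases p
  · exact ⟨m _, by simp [vbG, vb, S.v i hi]⟩
  refine ⟨mul_mem (m _) (pow_mem (m _) _), ?_⟩
  rcases z2' t with rfl | rfl
  · simp [vbG, vb, S.v i hi]
  · simp [vbG, vb, ZMod.val_one, (S.cls i hi).mul (m _) (m _), S.v i hi]

namespace Fam

variable {K : ∀ n, ℕ → Subgroup (G n)} (H : Fam U K) {ν : Pos U} {a b : ∀ n, G n}
  {e e' : ∀ n, ℕ → G n}
include H

lemma lie_El (hν : Inf ν) {i j : ℕ} (h : EvMem U K e (ν + i)) (h' : EvMem U K e' (ν + j)) :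
    (fun n => ⁅e n (lev ν n + i), e' n (lev ν n + j)⁆) ∈ Ev K (2 * ν) ∧
    ⁅H.El e (ν + i), H.El e' (ν + j)⁆ =
      H.cls (2 * ν) fun n => ⁅e n (lev ν n + i), e' n (lev ν n + j)⁆ := by
  have m := H.Ev_up (H.shift_Ev hν h)
  have m' := H.Ev_up (H.shift_Ev hν h')
  rw [H.El_add hν h, H.El_add hν h', H.pns.lie_cls hν hν m m', two_mul]
  exact ⟨H.pns.comm m m', rfl⟩

lemma cls_two (hν : Inf ν) (ha : a ∈ Ev K (2 * ν)) (d : ℕ) :
    H.cls (2 * ν) a ∈ H.F (2 * ν + d) ↔ ∀ᶠ n in U, a n ∈ K n (2 * lev ν n + d) := by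
  rw [H.cls_mem_nat hν.two_mul ha]
  exact eventually_congr ((lev_two hν).mono fun n h => by rw [h])

lemma phiH_iff {e : Bool → ∀ n, ℕ → G n} (he : ∀ p {ν : Pos U}, Inf ν → EvMem U K (e p) ν)
    (hν : Inf ν) : H.PhiH (fun p => H.El (e p)) ν ↔
      ∀ᶠ n in U, PhiG (K n) (fun p => e p n) (lev ν n) := by
  have l := fun p q (i j : ℕ) => H.lie_El hν (he p (hν.add_nat i)) (he q (hν.add_nat j))
  have a1 := fun p => l p p 0 2
  have a2 := l false false 1 2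
  have a3 := l true false 1 1
  have a4 := l true false 0 2
  have a5 := l true true 1 2
  have c4 := fun {a : ∀ n, G n} (h : a ∈ Ev K (2 * ν)) => H.cls_two hν h 4
  have c6 := fun {a : ∀ n, G n} (h : a ∈ Ev K (2 * ν)) => H.cls_two hν h 6
  simp only [Nat.cast_zero, add_zero, Nat.cast_one, Nat.cast_ofNat] at a1 a2 a3 a4 a5 c4 c6
  simp only [PhiH, PhiG, eventually_and, Ultrafilter.eventually_or, eventually_all]
  refine and_congr (forall_congr' fun p => by rw [(a1 p).2, c6 (a1 p).1]) (and_congr ?_ ?_)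
  · rw [a2.2, c4 a2.1]
  rw [a3.2, a4.2, a5.2, ← H.pns.cls_mul hν.two_mul a3.1 a4.1,
    ← H.pns.cls_mul hν.two_mul (mul_mem a3.1 a4.1) a5.1, c4 (mul_mem a3.1 a4.1),
    c4 (mul_mem (mul_mem a3.1 a4.1) a5.1)]
  rfl

lemma Y_lie_El {g : ∀ n, G n} (hν : Inf ν) (h : EvMem U K e ν) (h' : EvMem U K e' (ν + 1)) (d : ℕ) :
    H.Y g ⁅H.El e ν, H.El e' (ν + 1)⁆ ∈ H.F (2 * ν + d) ↔
      ∀ᶠ n in U, ⁅g n, ⁅e n (lev ν n), e' n (lev ν n + 1)⁆⁆ ∈ K n (2 * lev ν n + d) := by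
  have a := H.lie_El (e := e) (e' := e') hν (i := 0) (j := 1) (by simpa using h) (by simpa using h')
  simp only [Nat.cast_zero, add_zero, Nat.cast_one] at a
  rw [a.2, Y_apply, H.pns.ρ_sub_cls g hν.two_mul a.1]
  exact H.cls_two hν (H.comm_Ev g a.1) d

end Fam

/-- The output of the transfer. -/
structure TB (P : PI U G J) (C : ℕ) (e : Bool → ∀ n, ℕ → G n) : Prop where
  nine : 9 ≤ C
  mem : ∀ p {ν : Pos U}, Inf ν → EvMem U P.K (e p) ν
  link : ∀ p {ν : Pos U}, Inf ν → ν < P.ω →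
    ∀ᶠ n in U, P.R n (e p n (lev ν n)) (P.eJ p (lev ν n))
  win : ∀ {g : ∀ n, G n} {f : J}, (∀ᶠ n in U, P.R n (g n) f) → ∀ p {ν : Pos U}, Inf ν →
    P.H.WinP P.y g (P.H.El (e p)) ν C (P.cfL f p ν)

theorem PI.exists_tb (P : PI U G J) {C : ℕ} (hC : 9 ≤ C) : ∃ e, TB P C e :=
  (P.transfer C).imp fun _ h => ⟨hC, h.1, h.2.1, h.2.2⟩

/-- the binomial coefficient modulo two at an infinite position. -/
noncomputable def PI.chL (P : PI U G J) (ν : Pos U) : ZMod 2 := ulim U fun n => P.ch (lev ν n)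

namespace TB

open Fam

variable {P : PI U G J} {C : ℕ} {e : Bool → ∀ n, ℕ → G n} (T : TB P C e) {ν μ : Pos U}
  {g : ∀ n, G n} {f : J}
include T

lemma emem (p : Bool) (hν : Inf ν) : P.H.El (e p) ν ∈ P.H.F ν := P.H.El_mem hν (T.mem p hν)

lemma winw (hg : ∀ᶠ n in U, P.R n (g n) f) (p : Bool) (hν : Inf ν) {w : ℕ} (hw : w ≤ C)
    {f' : ℕ → ZMod 2} (hf : ∀ᶠ n in U, ∀ k < w, P.cf f p (lev ν n) k = f' k) :
    P.H.WinP P.y g (P.H.El (e p)) ν w f' :=
  S1L.winP_congr (P.S.winP_mono hν (T.emem p hν) (fun k _ => T.emem p (hν.add_nat k))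
    (T.win hg p hν) hw) fun k hk => by
      obtain ⟨n, h1, h2⟩ := (hf.and (P.cfL_spec f p ν k)).exists
      rw [← h2, h1 k hk]

lemma winy (p : Bool) (hν : Inf ν) :
    P.H.WinP P.y P.y (P.H.El (e p)) ν 5 (fy p (red 2 ν) (P.chL ν)) := by
  refine T.winw (.of_forall P.Ry) p hν (by linarith [T.nine]) ?_
  filter_upwards [red_lev 2 hν.nonneg, ulim_spec U fun n => P.ch (lev ν n)] with n h1 h2 k hk
  rw [P.jf.cfy p _ k hk, h1, h2, PI.chL]

lemma cls (p : Bool) (hν : Inf ν) : (P.H.lead P.c ν (P.H.El (e p) ν)).1 = vb P.t p := by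
  have hl := P.H.loc_of_cls (cls_of_s1g (U := U) P.s1g)
  refine hyper_ind (Q := fun ν => (P.H.lead P.c ν (P.H.El (e p) ν)).1 = vb P.t p)
    (fun n i => (P.c n i (e p n i)).1 = vb P.t p) (fun ν hν => ?_) P.ω_inf (fun μ hμ hlt => ?_)
    (fun ν hge ih => ?_) ν hν
  · have h := P.H.lead_cls hl hν (T.mem p hν)
    exact ⟨fun h1 => h.mono fun n h2 => by rw [h2]; exact h1, fun h1 => by
      obtain ⟨n, h2, h3⟩ := (h.and h1).exists
      exact (congrArg Prod.fst h2).symm.trans h3⟩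
  · obtain ⟨w, hw⟩ := P.jf.e_cls
    obtain ⟨n, h1, h2, h3, h4, h5, h6⟩ := ((P.H.lead_cls hl hμ (T.mem p hμ)).and
      ((T.link p hμ hlt).and ((hμ.le_lev w).and ((hμ.le_lev 6).and ((mem_Ev.1 (T.mem p hμ)).and
      ((P.kn_of_le 0 (by simpa using hlt.le)).le hμ 2)))))).exists
    have := (P.lcs n).normal
    obtain ⟨m, hm⟩ := (P.s1g n).c_vbG (P.lcs n) P.t p h4
    have h7 := (((P.lk n).mem ((P.lk n).comm (P.Ry n) ((P.lk n).mul h2 ((P.lk n).inv
      ((P.lk n).vbG (P.Rx n) (P.Ry n) (P.Ru n) P.t p _)))) h6).2 (hw p _ h3))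
    have h8 := (P.s1g n).yy _ h4 _ (mul_mem h5 (inv_mem m))
    rw [(((P.s1g n).cls _ (by omega)).zero ((P.lcs n).ns.anti (by omega) h7)).2 h7,
      ((P.s1g n).cls _ h4).mul h5 (inv_mem m), ((P.s1g n).cls _ h4).inv m] at h8
    have h9 := congrArg Prod.fst h8
    rw [Prod.fst_add, Prod.fst_neg, hm, w2_neg] at h9
    exact (congrArg Prod.fst h1).symm.trans (w2_eq_of_add h9.symm)
  · obtain ⟨μ, rfl⟩ : ∃ μ, ν = μ + 1 := ⟨ν - 1, by ring⟩
    have hμ : Inf μ := (P.ω_inf.mono hge).of_eq (-1) (by push_cast; ring)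
    have h1 := P.S.winP_mono hμ (T.emem p hμ) (fun k _ => T.emem p (hμ.add_nat k)) (T.winy p hμ)
      (show 2 ≤ 5 by norm_num)
    simp only [WinP, sum_range_succ, sum_range_zero, fy, ZMod.val_one, one_smul, Nat.cast_zero,
      add_zero, zero_add, Nat.cast_one, Nat.cast_ofNat, ← sub_sub] at h1
    have m1 := P.S.deg P.y (T.emem p hμ)
    have m2 := T.emem p hμ.succ
    have h2 := P.S.cW_deep hμ.succ (P.H.cast h1 (by ring))
    rw [P.S.cW_π hμ.succ (sub_mem m1 m2), P.S.c_sub hμ.succ m1 m2, P.S.yy hμ (T.emem p hμ),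
      Prod.fst_add, ih μ hμ (by linarith)] at h2
    exact (w2_eq_of_add h2).symm

theorem bh : BH P.H P.x P.y P.u (P.ℓ P.hJ) (P.H.lead P.c) (σL P.σ) (fun p => P.H.El (e p)) P.chL
    P.t P.c₆ P.c₇ P.c₈ P.d₈ where
  s := P.S
  ex := P.exKP
  two := P.two
  mem p _ := T.emem p
  cls p _ := T.cls p
  ch_succ {ν} hν := by
    obtain ⟨n, h1, h2, h3, h4⟩ := ((ulim_spec U fun n => P.ch (lev (ν + 1) n)).and
      ((ulim_spec U fun n => P.ch (lev ν n)).and ((red_lev 2 hν.nonneg).and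
      (lev_succ hν.nonneg)))).exists
    rw [PI.chL, PI.chL, ← h1, ← h2, ← h3, h4, P.jf.ch_succ]
  winx p ν hν := by
    refine T.winw (.of_forall P.Rx) p hν (by linarith [T.nine]) ?_
    filter_upwards [red_lev 2 hν.nonneg, ulim_spec U fun n => P.ch (lev ν n)] with n h1 h2 k hk
    rw [P.jf.cfx p _ k hk, h1, h2, PI.chL]
  winy p _ := T.winy p
  winu p ν hν := by
    refine T.winw (.of_forall P.Ru) p hν (by linarith [T.nine]) ?_
    filter_upwards [red_lev 2 hν.nonneg] with n h1 k hk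
    rw [P.jf.cfu p _ k hk, h1]
  winh p ν hν := T.winw (.of_forall (P.Rℓ _)) p hν (by linarith [T.nine])
    (.of_forall fun n => P.jf.cfh p _)
  winyu p ν hν := T.winw (.of_forall fun n => (P.lk n).comm (P.Ry n) (P.Ru n)) p hν T.nine
    (.of_forall fun n => P.jf.cfyu p _)
  winyh p ν hν := T.winw (.of_forall fun n => (P.lk n).comm (P.Ry n) (P.Rℓ _ n)) p hν T.nine
    (.of_forall fun n => P.jf.cfyh p _)

/-- LINES for the family. -/
theorem phi (ν : Pos U) (hν : Inf ν) : P.H.PhiH (fun p => P.H.El (e p)) ν := by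
  refine hyper_ind (Q := P.H.PhiH fun p => P.H.El (e p))
    (fun n i => PhiG (P.K n) (fun p => e p n) i) (fun ν hν => P.H.phiH_iff T.mem hν)
    (P.ω_inf.sub_nat 2) (fun μ hμ hlt => ?_)
    (fun ν hge ih => T.bh.phi_step ((P.ω_inf.sub_nat 2).mono hge) ih) ν hν
  rw [P.H.phiH_iff T.mem hμ]
  obtain ⟨w, hw⟩ := P.jf.phi
  push_cast at hlt
  have l := fun k : ℕ => fun hk : μ + k < P.ω =>
    eventually_all.2 fun p => T.link p (hμ.add_nat k) hk
  have hk : P.Kn (2 * μ) := P.ω_kn.mono (by linarith [hμ.nonneg])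
  filter_upwards [eventually_all.2 fun p => T.link p hμ (by linarith), l 1 (by push_cast; linarith),
    l 2 (by push_cast; linarith), lev_add_nat hμ.nonneg 1, lev_add_nat hμ.nonneg 2,
    hk.le hμ.two_mul 6, lev_two hμ, hμ.le_lev w] with n h0 h1 h2 e1 e2 h3 e3 h4
  rw [e1] at h1
  rw [e2] at h2
  exact (P.lk n).phiG h0 h1 h2 (e3 ▸ h3) (hw _ h4)

lemma winG (hg : ∀ᶠ n in U, P.R n (g n) f) {w : ℕ} (hw : w ≤ C) : ∃ w₀, ∀ᶠ n in U, ∀ i, w₀ ≤ i →
    ∀ p, WinG (P.K n) (P.y n) (g n) (e p n) i w (P.cf f p i) := by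
  refine underspill_nat P.free fun ν hν => eventually_all.2 fun p => ?_
  rw [← P.H.winL_ev hν (T.mem p hν) (fun k _ => T.mem p (hν.add_nat k))
    fun k _ => P.cfL_spec f p ν k, ← P.S.winP_iff hν (T.emem p hν)
    fun k _ => T.emem p (hν.add_nat k)]
  exact P.S.winP_mono hν (T.emem p hν) (fun k _ => T.emem p (hν.add_nat k)) (T.win hg p hν) hw

/-- The finite level facts used when the excess is finite. -/
theorem eg : ∃ w₀, ∀ᶠ n in U, ∀ w, w₀ ≤ w → EG (P.K n) (P.x n) (P.y n) (P.u n) (P.c n) (P.σ n)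
    (fun p => e p n) P.ch P.t P.c₆ P.c₇ P.c₈ w := by
  have hl := P.H.loc_of_cls (cls_of_s1g (U := U) P.s1g)
  obtain ⟨w1, h1⟩ := underspill_nat (q := fun n i => ∀ p, e p n i ∈ P.K n i ∧
      (P.c n i (e p n i)).1 = vb P.t p) P.free fun ν hν => eventually_all.2 fun p => by
    filter_upwards [mem_Ev.1 (T.mem p hν), P.H.lead_cls hl hν (T.mem p hν)] with n a1 a2
    exact ⟨a1, (congrArg Prod.fst a2).trans (T.cls p hν)⟩
  obtain ⟨w2, h2⟩ := underspill_nat (q := fun n i => P.σ n i (ee false) (ee false) = 0) P.free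
    fun ν hν => (σL_spec P.σ ν).mono fun n a => a ▸ T.bh.bb T.phi hν
  obtain ⟨w3, h3⟩ := under2 (q := fun n i j a b => a ∈ P.K n i → b ∈ P.K n j →
      yc (P.y n) 9 a ∈ P.K n (i + 18) → ⁅a, b⁆ ∈ P.K n (i + j + 9)) P.free
    fun ν μ a b hν hμ => ev_imp fun ha => ev_imp fun hb => ev_imp fun hy => by
      have m := P.H.pns.cls_mem hν ha
      have a1 := P.H.lie_mem (P.S.π_of_Ypow hν m ((P.H.Ypow_mem_iff hν ha 9).2 hy))
        (P.H.pns.cls_mem hμ hb)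
      rw [P.S.lie_π_left P.exKP hν m, P.H.pns.lie_cls hν hμ ha hb] at a1
      filter_upwards [(P.H.cls_mem_nat (hν.add hμ) (P.H.pns.comm ha hb) 9).1
        (P.H.cast a1 (by ring)), lev_add hν.nonneg hμ.nonneg] with n a2 a3
      exact a3 ▸ a2
  obtain ⟨w4, h4⟩ := under1 (q := fun n i a => a ∈ P.K n i → a ^ 2 ∈ P.K n (i + 9)) P.free
    fun ν a hν => ev_imp fun ha => (P.H.cls_mem_nat hν (pow_mem ha 2) 9).1 (by
      rw [show P.H.cls ν (a ^ 2) = _ from P.H.pns.cls_pow hν ha 2, two_nsmul, P.two]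
      exact zero_mem _)
  obtain ⟨w5, h5⟩ := under1 (q := fun n i a => a ∈ P.K n i → yc (P.y n) 5 a ∈ P.K n (i + 10) →
      yc (P.y n) 5 (P.u n * a * (P.u n)⁻¹) ∈ P.K n (i + 10)) P.free
    fun ν a hν => ev_imp fun ha => ev_imp fun hy => by
      have m := P.H.pns.cls_mem hν ha
      have a1 := P.S.Ypow_of_π hν (P.H.pns.ρ_mem_F P.u m) (P.S.π_ρ P.exKP P.u hν m
        (P.S.π_of_Ypow hν m ((P.H.Ypow_mem_iff hν ha 5).2 hy)))
      rw [P.H.pns.ρ_cls P.u hν ha] at a1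
      exact (P.H.Ypow_mem_iff hν ((P.H.pns.normal ν).conj_mem _ ha P.u) 5).1 a1
  obtain ⟨w6, h6⟩ := underspill_nat (q := fun n i =>
      ⁅P.y n, ⁅e true n i, e true n (i + 1)⁆⁆ ∈ P.K n (2 * i + 4) ∧
      ⁅P.u n, ⁅e true n i, e true n (i + 1)⁆⁆ ∈ P.K n (2 * i + 6)) P.free fun ν hν =>
    ((P.H.Y_lie_El hν (T.mem _ hν) (T.mem _ hν.succ) 4).1
      (P.H.up (T.bh.killY T.phi true hν) 1 (by push_cast; ring))).and
    ((P.H.Y_lie_El hν (T.mem _ hν) (T.mem _ hν.succ) 6).1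
      (P.H.up (T.bh.killU T.phi true hν) 1 (by push_cast; ring)))
  obtain ⟨w7, h7⟩ := T.winG (.of_forall P.Rx) (w := 3) (by linarith [T.nine])
  obtain ⟨w8, h8⟩ := T.winG (.of_forall P.Ry) (w := 5) (by linarith [T.nine])
  obtain ⟨w9, h9⟩ := T.winG (.of_forall P.Ru) (w := 7) (by linarith [T.nine])
  obtain ⟨w10, h10⟩ := T.winG (g := ⁅P.y, P.u⁆)
    (.of_forall fun n => (P.lk n).comm (P.Ry n) (P.Ru n)) T.nine
  refine ⟨w1 + w2 + w3 + w4 + w5 + w6 + w7 + w8 + w9 + w10, ?_⟩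
  filter_upwards [h1, h2, h3, h4, h5, h6, h7, h8, h9, h10] with n a1 a2 a3 a4 a5 a6 a7 a8 a9 a10 w hw
  exact ⟨fun p i hi => (a1 i (by omega) p).1, fun p i hi => (a1 i (by omega) p).2,
    fun i hi => a2 i (by omega), fun i j hi hj a ha b hb => a3 i j (by omega) (by omega) a b ha hb,
    fun i hi a => a4 i (by omega) a, fun i hi a => a5 i (by omega) a,
    fun i hi => (a6 i (by omega)).1, fun i hi => (a6 i (by omega)).2, P.jf.ch_succ,
    fun p i hi => (a7 i (by omega) p).congr (P.jf.cfx p i),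
    fun p i hi => (a8 i (by omega) p).congr (P.jf.cfy p i),
    fun p i hi => (a9 i (by omega) p).congr (P.jf.cfu p i),
    fun p i hi => (a10 i (by omega) p).congr (P.jf.cfyu p i)⟩

end TB

end Pool.Agent.Lib.MP_ffb54b_al.P2
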