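import Pool.Agent.Lib.MP_ffb54b_al.P2.Gal0

set_option autoImplicit false
set_option linter.unusedSectionVars false

namespace Pool.Agent.Lib.MP_ffb54b_al.P2

open Filter

/-- The hyperintegers. -/
def Pos (U : Ultrafilter ℕ) : Type := Germ (U : Filter ℕ) ℤ

noncomputable instance (U : Ultrafilter ℕ) : CommRing (Pos U) :=
  inferInstanceAs (CommRing (Germ (U : Filter ℕ) ℤ))

noncomputable instance (U : Ultrafilter ℕ) : LinearOrder (Pos U) :=
  inferInstanceAs (LinearOrder (Germ (U : Filter ℕ) ℤ))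

instance (U : Ultrafilter ℕ) : IsStrictOrderedRing (Pos U) :=
  inferInstanceAs (IsStrictOrderedRing (Germ (U : Filter ℕ) ℤ))

/-- The position of a sequence of integers. -/
def posZ (U : Ultrafilter ℕ) (f : ℕ → ℤ) : Pos U := Germ.ofFun f

/-- The ultrafilter is not principal. -/
def Free (U : Ultrafilter ℕ) : Prop := ∀ k, ∀ᶠ n : ℕ in U, k ≤ n

lemma free_hyper : Free (hyperfilter ℕ) := fun k =>
  (eventually_ge_atTop k).filter_mono (Nat.hyperfilter_le_atTop)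

variable {U : Ultrafilter ℕ}

section Los

variable {X : ℕ → Type*}

lemma ev_exists [∀ n, Nonempty (X n)] {q : ∀ n, X n → Prop} :
    (∀ᶠ n in U, ∃ x, q n x) ↔ ∃ x : ∀ n, X n, ∀ᶠ n in U, q n (x n) := Filter.skolem

lemma ev_forall [∀ n, Nonempty (X n)] {q : ∀ n, X n → Prop} :
    (∀ᶠ n in U, ∀ x, q n x) ↔ ∀ x : ∀ n, X n, ∀ᶠ n in U, q n (x n) := by
  rw [← not_iff_not, ← Ultrafilter.eventually_not]
  simp only [not_forall, ev_exists, Ultrafilter.eventually_not]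

/-- Countable saturation. -/
lemma sat (hU : Free U) [∀ n, Nonempty (X n)] (q : ℕ → ∀ n, X n → Prop)
    (h : ∀ c, ∀ᶠ n in U, ∃ x, ∀ c' ≤ c, q c' n x) :
    ∃ x : ∀ n, X n, ∀ c, ∀ᶠ n in U, q c n (x n) := by
  classical
  let A (n c : ℕ) : Prop := ∃ x, ∀ c' ≤ c, q c' n x
  have : ∀ n, ∃ x : X n, ∀ c ≤ n, A n c → q c n x := fun n => by
    by_cases h0 : A n 0
    · obtain ⟨x, hx⟩ := Nat.findGreatest_spec (P := A n) (Nat.zero_le n) h0
      exact ⟨x, fun c hc hA => hx c (Nat.le_findGreatest hc hA)⟩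
    · exact ⟨Classical.arbitrary _, fun c _ ⟨x, hx⟩ => (h0 ⟨x, fun c' h' => hx c' (by omega)⟩).elim⟩
  choose x hx using this
  exact ⟨x, fun c => ((hU c).and (h c)).mono fun n hn => hx n c hn.1 hn.2⟩

end Los

section Ulim

variable {I Q : Type*} [Finite Q] {V : Ultrafilter I}

lemma exists_ulim (V : Ultrafilter I) (f : I → Q) : ∃ r, ∀ᶠ n in V, f n = r :=
  Ultrafilter.eventually_exists_iff.1 (Eventually.of_forall fun n => ⟨f n, rfl⟩)

/-- The limit of a family of elements of a finite type. -/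
noncomputable def ulim (V : Ultrafilter I) (f : I → Q) : Q := (exists_ulim V f).choose

lemma ulim_spec (V : Ultrafilter I) (f : I → Q) : ∀ᶠ n in V, f n = ulim V f :=
  (exists_ulim V f).choose_spec

lemma ulim_eq {f : I → Q} {r : Q} : ulim V f = r ↔ ∀ᶠ n in V, f n = r :=
  ⟨fun h => h ▸ ulim_spec V f, fun h => by
    obtain ⟨n, h1, h2⟩ := ((ulim_spec V f).and h).exists
    exact h1.symm.trans h2⟩

lemma ulim_congr {f g : I → Q} (h : ∀ᶠ n in V, f n = g n) : ulim V f = ulim V g :=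
  ulim_eq.2 ((h.and (ulim_spec V g)).mono fun _ h => h.1.trans h.2)

end Ulim

/-- The position of a sequence of natural numbers. -/
def pos (U : Ultrafilter ℕ) (j : ℕ → ℕ) : Pos U := posZ U fun n => j n

/-- A representing sequence of integers. -/
noncomputable def rep (ν : Pos U) : ℕ → ℤ := Quotient.out ν

/-- A representing sequence of levels. -/
noncomputable def lev (ν : Pos U) (n : ℕ) : ℕ := (rep ν n).toNat

variable {ν μ : Pos U} {i j : ℕ → ℕ}

lemma coe_rep (ν : Pos U) : posZ U (rep ν) = ν := Quotient.out_eq ν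

lemma rep_coe (f : ℕ → ℤ) : ∀ᶠ n in U, rep (posZ U f) n = f n := Germ.coe_eq.1 (coe_rep _)

lemma rep_le : ν ≤ μ ↔ ∀ᶠ n in U, rep ν n ≤ rep μ n := by
  conv_lhs => rw [← coe_rep ν, ← coe_rep μ]
  exact Germ.coe_le

lemma rep_lt : ν < μ ↔ ∀ᶠ n in U, rep ν n < rep μ n := by
  conv_lhs => rw [← coe_rep ν, ← coe_rep μ]
  exact Germ.coe_lt

lemma rep_eq : ν = μ ↔ ∀ᶠ n in U, rep ν n = rep μ n := by
  conv_lhs => rw [← coe_rep ν, ← coe_rep μ]
  exact Germ.coe_eq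

lemma rep_add (ν μ : Pos U) : ∀ᶠ n in U, rep (ν + μ) n = rep ν n + rep μ n :=
  Germ.coe_eq.1 (show posZ U (rep (ν + μ)) = posZ U (rep ν) + posZ U (rep μ) by
    rw [coe_rep, coe_rep, coe_rep])

lemma rep_mul (ν μ : Pos U) : ∀ᶠ n in U, rep (ν * μ) n = rep ν n * rep μ n :=
  Germ.coe_eq.1 (show posZ U (rep (ν * μ)) = posZ U (rep ν) * posZ U (rep μ) by
    rw [coe_rep, coe_rep, coe_rep])

lemma rep_neg (ν : Pos U) : ∀ᶠ n in U, rep (-ν) n = -rep ν n :=
  Germ.coe_eq.1 (show posZ U (rep (-ν)) = -posZ U (rep ν) by rw [coe_rep, coe_rep])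

lemma rep_sub (ν μ : Pos U) : ∀ᶠ n in U, rep (ν - μ) n = rep ν n - rep μ n :=
  Germ.coe_eq.1 (show posZ U (rep (ν - μ)) = posZ U (rep ν) - posZ U (rep μ) by
    rw [coe_rep, coe_rep, coe_rep])

lemma rep_int (c : ℤ) : ∀ᶠ n in U, rep (c : Pos U) n = c := rep_coe fun _ => c

lemma rep_nat (c : ℕ) : ∀ᶠ n in U, rep (c : Pos U) n = c := by simpa using rep_int (U := U) c

lemma rep_pos (j : ℕ → ℕ) : ∀ᶠ n in U, rep (pos U j) n = j n := rep_coe _

lemma lev_pos (j : ℕ → ℕ) : ∀ᶠ n in U, lev (pos U j) n = j n :=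
  (rep_pos j).mono fun n h => by simp [lev, h]

lemma lev_nat (c : ℕ) : ∀ᶠ n in U, lev (c : Pos U) n = c :=
  (rep_nat c).mono fun n h => by simp [lev, h]

lemma rep_nonneg (h : 0 ≤ ν) : ∀ᶠ n in U, rep ν n = lev ν n :=
  ((rep_le.1 h).and (rep_int 0)).mono fun n h => by
    have := h.2
    simp only [Int.cast_zero] at this
    simp only [lev]; omega

lemma pos_lev (h : 0 ≤ ν) : pos U (lev ν) = ν :=
  rep_eq.2 (((rep_pos _).and (rep_nonneg h)).mono fun _ h => h.1.trans h.2.symm)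

lemma exists_pos (h : 0 ≤ ν) : ∃ j, ν = pos U j := ⟨_, (pos_lev h).symm⟩

lemma pos_le : pos U i ≤ pos U j ↔ ∀ᶠ n in U, i n ≤ j n :=
  Germ.coe_le.trans (eventually_congr (Eventually.of_forall fun _ => Nat.cast_le))

lemma pos_lt : pos U i < pos U j ↔ ∀ᶠ n in U, i n < j n :=
  Germ.coe_lt.trans (eventually_congr (Eventually.of_forall fun _ => Nat.cast_lt))

lemma pos_eq : pos U i = pos U j ↔ ∀ᶠ n in U, i n = j n :=
  Germ.coe_eq.trans (eventually_congr (Eventually.of_forall fun _ => Nat.cast_inj))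

lemma pos_add (i j : ℕ → ℕ) : pos U (fun n => i n + j n) = pos U i + pos U j :=
  Germ.coe_eq.2 (Eventually.of_forall fun _ => Nat.cast_add _ _)

lemma pos_mul (i j : ℕ → ℕ) : pos U (fun n => i n * j n) = pos U i * pos U j :=
  Germ.coe_eq.2 (Eventually.of_forall fun _ => Nat.cast_mul _ _)

lemma pos_const (c : ℕ) : pos U (fun _ => c) = c := rfl

lemma pos_add_const (i : ℕ → ℕ) (c : ℕ) : pos U (fun n => i n + c) = pos U i + c := pos_add _ _

lemma pos_nonneg (j : ℕ → ℕ) : 0 ≤ pos U j :=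
  Germ.coe_nonneg.2 (Eventually.of_forall fun _ => Nat.cast_nonneg _)

lemma inf_pos : Inf (pos U j) ↔ ∀ c : ℕ, ∀ᶠ n in U, c ≤ j n :=
  ⟨fun h c => pos_le.1 (h.nat_le c), fun h c => le_trans (by
    have : (c : Pos U) ≤ (c.toNat : ℤ) := Int.cast_le.2 (Int.self_le_toNat c)
    rwa [Int.cast_natCast] at this) (pos_le.2 (h c.toNat))⟩

lemma Inf.le_lev (h : Inf ν) (c : ℕ) : ∀ᶠ n in U, c ≤ lev ν n :=
  inf_pos.1 ((pos_lev h.nonneg).symm ▸ h) c

lemma Free.inf_id (hU : Free U) : Inf (pos U id) := inf_pos.2 hU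

lemma lev_le (h : ν ≤ μ) : ∀ᶠ n in U, lev ν n ≤ lev μ n :=
  (rep_le.1 h).mono fun _ => Int.toNat_le_toNat

lemma lev_add (h : 0 ≤ ν) (h' : 0 ≤ μ) : ∀ᶠ n in U, lev (ν + μ) n = lev ν n + lev μ n := by
  filter_upwards [rep_add ν μ, rep_nonneg h, rep_nonneg h'] with n h1 h2 h3
  simp only [lev] at *
  omega

lemma lev_add_nat (h : 0 ≤ ν) (c : ℕ) : ∀ᶠ n in U, lev (ν + c : Pos U) n = lev ν n + c :=
  ((lev_add h (Nat.cast_nonneg c)).and (lev_nat c)).mono fun _ h => by rw [h.1, h.2]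

lemma lev_succ (h : 0 ≤ ν) : ∀ᶠ n in U, lev (ν + 1) n = lev ν n + 1 := by
  simpa using lev_add_nat h 1

/-- The order on positions is discrete. -/
lemma lt_iff_add_one_le : ν < μ ↔ ν + 1 ≤ μ := by
  refine ⟨fun h => rep_le.2 ?_, fun h => by linarith⟩
  filter_upwards [rep_lt.1 h, rep_add ν 1, rep_nat (U := U) 1] with n h1 h2 h3
  simp only [Nat.cast_one] at h3
  omega

lemma lt_add_one_iff : ν < μ + 1 ↔ ν ≤ μ := by rw [lt_iff_add_one_le, add_le_add_iff_right]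

/-- A bounded position is standard. -/
lemma exists_nat_of_le (h : 0 ≤ ν) {c : ℕ} (hc : ν ≤ c) : ∃ d ≤ c, ν = (d : ℕ) := by
  induction c with
  | zero => exact ⟨0, le_rfl, le_antisymm hc (by simpa using h)⟩
  | succ c ih =>
    rcases hc.lt_or_eq with h1 | h1
    · rw [Nat.cast_succ, lt_add_one_iff] at h1
      exact (ih h1).imp fun d h => ⟨by omega, h.2⟩
    · exact ⟨_, le_rfl, h1⟩

lemma inf_or_nat (h : 0 ≤ ν) : Inf ν ∨ ∃ d : ℕ, ν = d := by
  refine or_iff_not_imp_left.2 fun h1 => ?_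
  obtain ⟨c, hc⟩ := not_forall.1 h1
  have : (c : Pos U) ≤ (c.toNat : ℤ) := Int.cast_le.2 (Int.self_le_toNat c)
  rw [Int.cast_natCast] at this
  exact (exists_nat_of_le h ((not_le.1 hc).le.trans this)).imp fun _ h => h.2

lemma near_or_inf (h : ν ≤ μ) : Near ν μ ∨ Inf (μ - ν) :=
  (inf_or_nat (sub_nonneg.2 h)).symm.imp_left fun ⟨d, hd⟩ => ⟨d, by push_cast; linarith⟩

lemma Near.exists_nat (e : Near ν μ) (h : ν ≤ μ) : ∃ c : ℕ, μ = ν + c := by
  obtain ⟨c, rfl⟩ := e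
  lift c to ℕ using by simpa using h
  exact ⟨c, by simp⟩

lemma exists_div (ν : Pos U) {m : ℕ} (hm : 0 < m) : ∃ (μ : Pos U) (r : ℕ), r < m ∧ ν = m * μ + r := by
  let μ : Pos U := posZ U fun n => rep ν n / m
  have e : ∀ᶠ n in U, rep (ν - m * μ : Pos U) n = rep ν n % m := by
    filter_upwards [rep_sub ν (m * μ), rep_mul m μ, rep_nat (U := U) m,
      rep_coe (U := U) fun n => rep ν n / m] with n h1 h2 h3 h4
    rw [h1, h2, h3, h4, Int.emod_def]
  have h0 : (0 : Pos U) ≤ ν - m * μ := rep_le.2 (by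
    filter_upwards [e, rep_nat (U := U) 0] with n h1 h2
    simp only [Nat.cast_zero] at h2
    rw [h1, h2]
    exact Int.emod_nonneg _ (by omega))
  have h1 : ν - m * μ < m := rep_lt.2 (by
    filter_upwards [e, rep_nat (U := U) m] with n h1 h2
    rw [h1, h2]
    exact Int.emod_lt_of_pos _ (by omega))
  obtain ⟨r, -, hr⟩ := exists_nat_of_le h0 h1.le
  exact ⟨μ, r, by rwa [hr, Nat.cast_lt] at h1, by linarith⟩

lemma Inf.of_mul {m : ℕ} {c : ℤ} (h : Inf (m * ν + c)) : Inf ν := fun d => by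
  by_contra h1
  have h2 := h (m * d + c + 1)
  have : (m : Pos U) * ν ≤ m * d := mul_le_mul_of_nonneg_left (not_le.1 h1).le (Nat.cast_nonneg m)
  push_cast at h2
  linarith

lemma Inf.exists_div (h : Inf ν) {m : ℕ} (hm : 0 < m) :
    ∃ (μ : Pos U) (r : ℕ), Inf μ ∧ r < m ∧ ν = m * μ + r := by
  obtain ⟨μ, r, h1, h2⟩ := P2.exists_div ν hm
  exact ⟨μ, r, Inf.of_mul (m := m) (c := r) (by simpa [h2] using h), h1, h2⟩

/-- The extension to positions of a function with values in a finite type. -/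
noncomputable def ext {Q : Type*} [Finite Q] (f : ℤ → Q) (ν : Pos U) : Q :=
  ulim U fun n => f (rep ν n)

lemma ext_spec {Q : Type*} [Finite Q] (f : ℤ → Q) (ν : Pos U) :
    ∀ᶠ n in U, f (rep ν n) = ext f ν := ulim_spec U _

/-- Reduction of positions modulo `m`. -/
noncomputable def red (m : ℕ) [NeZero m] : Pos U →+* ZMod m where
  toFun := ext Int.cast
  map_one' := ulim_eq.2 ((rep_nat 1).mono fun n h => by simp only [Nat.cast_one] at h; simp [h])
  map_zero' := ulim_eq.2 ((rep_nat 0).mono fun n h => by simp only [Nat.cast_zero] at h; simp [h])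
  map_mul' ν μ := ulim_eq.2 (by
    filter_upwards [rep_mul ν μ, ext_spec (Int.cast : ℤ → ZMod m) ν,
      ext_spec (Int.cast : ℤ → ZMod m) μ] with n h1 h2 h3
    rw [h1, Int.cast_mul, h2, h3])
  map_add' ν μ := ulim_eq.2 (by
    filter_upwards [rep_add ν μ, ext_spec (Int.cast : ℤ → ZMod m) ν,
      ext_spec (Int.cast : ℤ → ZMod m) μ] with n h1 h2 h3
    rw [h1, Int.cast_add, h2, h3])

lemma red_spec (m : ℕ) [NeZero m] (ν : Pos U) : ∀ᶠ n in U, (rep ν n : ZMod m) = red m ν :=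
  ext_spec _ ν

lemma red_lev (m : ℕ) [NeZero m] (h : 0 ≤ ν) : ∀ᶠ n in U, (lev ν n : ZMod m) = red m ν :=
  ((red_spec m ν).and (rep_nonneg h)).mono fun n h => by rw [← h.1, h.2, Int.cast_natCast]

lemma red_pos (m : ℕ) [NeZero m] (j : ℕ → ℕ) : ∀ᶠ n in U, (j n : ZMod m) = red m (pos U j) :=
  ((red_lev m (pos_nonneg j)).and (lev_pos j)).mono fun n h => by rw [← h.1, h.2]

lemma red_eq_zero {m : ℕ} [NeZero m] : red m ν = 0 ↔ ∃ μ, ν = m * μ := by
  refine ⟨fun h => ?_, fun ⟨μ, h⟩ => by simp [h]⟩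
  obtain ⟨μ, r, h1, rfl⟩ := exists_div ν (NeZero.pos m)
  simp only [map_add, map_mul, map_natCast, CharP.cast_eq_zero, zero_mul, zero_add,
    ZMod.natCast_eq_zero_iff] at h
  exact ⟨μ, by simp [Nat.eq_zero_of_dvd_of_lt h h1]⟩

lemma even_or_odd (ν : Pos U) : (∃ μ, ν = 2 * μ) ∨ ∃ μ, ν = 2 * μ + 1 := by
  obtain ⟨μ, r, h1, h2⟩ := exists_div ν two_pos
  interval_cases r
  exacts [Or.inl ⟨μ, by simpa using h2⟩, Or.inr ⟨μ, by simpa using h2⟩]

lemma smeval_coe (φ : Polynomial ℕ) (f : ℕ → ℤ) :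
    φ.smeval (posZ U f) = posZ U fun n => φ.smeval (f n) := by
  induction φ using Polynomial.induction_on' with
  | add p q hp hq => simp only [Polynomial.smeval_add, hp, hq]; rfl
  | monomial n a => simp only [Polynomial.smeval_monomial]; rfl

noncomputable instance : BinomialRing (Pos U) where
  toIsAddTorsionFree := inferInstance
  multichoose ν k := Germ.map (Ring.multichoose · k) ν
  factorial_nsmul_multichoose ν k := by
    obtain ⟨f, rfl⟩ : ∃ f, posZ U f = ν := ⟨_, coe_rep ν⟩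
    rw [smeval_coe]
    exact Germ.coe_eq.2 (Eventually.of_forall fun n =>
      Ring.factorial_nsmul_multichoose_eq_ascPochhammer (f n) k)

lemma rep_choose (ν : Pos U) (k : ℕ) :
    ∀ᶠ n in U, rep (Ring.choose ν k) n = Ring.choose (rep ν n) k := by
  conv => enter [1, n, 1, 1, 1]; rw [← coe_rep ν]
  exact rep_coe fun n => Ring.choose (rep ν n) k

lemma choose_pos (j : ℕ → ℕ) (k : ℕ) : Ring.choose (pos U j) k = pos U fun n => (j n).choose k :=
  Germ.coe_eq.2 (Eventually.of_forall fun n => Ring.choose_natCast (j n) k)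

/-- Least elements of internal sets. -/
lemma exists_least {q : ℕ → ℕ → Prop} (h : ∀ᶠ n in U, ∃ j, q n j) :
    ∃ j : ℕ → ℕ, ∀ᶠ n in U, q n (j n) ∧ ∀ i < j n, ¬q n i := by
  classical
  exact (ev_exists (q := fun n j => q n j ∧ ∀ i < j, ¬q n i)).1
    (h.mono fun n hn => ⟨Nat.find hn, Nat.find_spec hn, fun _ => Nat.find_min hn⟩)

/-- Induction over infinite positions for internal predicates. -/
theorem hyper_ind {Q : Pos U → Prop} (q : ℕ → ℕ → Prop)
    (hQ : ∀ ν, Inf ν → (Q ν ↔ ∀ᶠ n in U, q n (lev ν n))) {w : Pos U} (hw : Inf w)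
    (base : ∀ μ, Inf μ → μ < w → Q μ)
    (step : ∀ ν, w ≤ ν → (∀ μ, Inf μ → μ < ν → Q μ) → Q ν) : ∀ ν, Inf ν → Q ν := by
  intro ν hν
  by_contra h
  have h1 := (not_lt.1 fun h' => h (base ν hν h'))
  rw [hQ ν hν, ← Ultrafilter.eventually_not] at h
  obtain ⟨j, hj⟩ := exists_least (U := U) (q := fun n j => lev w n ≤ j ∧ ¬q n j)
    (((lev_le h1).and h).mono fun n h => ⟨_, h⟩)
  have h2 : w ≤ pos U j := pos_lev hw.nonneg ▸ pos_le.2 (hj.mono fun n h => h.1.1)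
  refine Ultrafilter.eventually_not.1 ?_ ((hQ _ (hw.mono h2)).1 (step _ h2 fun μ hμ hlt => ?_))
  · exact (hj.and (lev_pos j)).mono fun n h => h.2.symm ▸ h.1.1.2
  rcases lt_or_ge μ w with h3 | h3
  · exact base μ hμ h3
  rw [← pos_lev hμ.nonneg, pos_lt] at hlt
  refine (hQ μ hμ).2 ?_
  filter_upwards [hj, hlt, lev_le h3] with n h4 h5 h6
  exact by_contra fun h7 => h4.2 _ h5 ⟨h6, h7⟩

/-- Underspill. -/
theorem underspill (hU : Free U) {X : ℕ → Type*} [∀ n, Nonempty (X n)] (s : ∀ n, X n → ℕ)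
    {q : ∀ n, X n → Prop}
    (h : ∀ x : ∀ n, X n, Inf (pos U fun n => s n (x n)) → ∀ᶠ n in U, q n (x n)) :
    ∃ w : ℕ, ∀ᶠ n in U, ∀ x, w ≤ s n x → q n x := by
  by_contra H
  simp only [not_exists, ← Ultrafilter.eventually_not, not_forall] at H
  obtain ⟨x, hx⟩ := sat hU (fun c n x => c ≤ s n x ∧ ¬q n x) fun c =>
    (H c).mono fun n ⟨x, h1, h2⟩ => ⟨x, fun c' h => ⟨h.trans h1, h2⟩⟩
  exact Ultrafilter.eventually_not.1 ((hx 0).mono fun n h => h.2)
    (h x (inf_pos.2 fun c => (hx c).mono fun n h => h.1))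

lemma underspill_nat (hU : Free U) {q : ℕ → ℕ → Prop}
    (h : ∀ ν : Pos U, Inf ν → ∀ᶠ n in U, q n (lev ν n)) :
    ∃ w : ℕ, ∀ᶠ n in U, ∀ j, w ≤ j → q n j :=
  underspill hU (X := fun _ => ℕ) (fun _ j => j) fun j hj =>
    ((h _ hj).and (lev_pos j)).mono fun _ h => h.2 ▸ h.1

/-- Overspill. -/
theorem overspill (hU : Free U) {q : ℕ → ℕ → Prop} (h : ∀ c, ∀ᶠ n in U, q n c) :
    ∃ ν : Pos U, Inf ν ∧ ∀ᶠ n in U, ∀ c ≤ lev ν n, q n c := by
  obtain ⟨j, hj⟩ := sat hU (X := fun _ => ℕ) (fun c n j => c ≤ j ∧ ∀ c ≤ j, q n c) fun c =>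
    ((eventually_all_finset (Finset.range (c + 1))).2 fun c _ => h c).mono fun n hn =>
      ⟨c, fun c' h => ⟨h, fun c' h => hn c' (Finset.mem_range.2 (by omega))⟩⟩
  exact ⟨pos U j, inf_pos.2 fun c => (hj c).mono fun n h => h.1,
    ((hj 0).and (lev_pos j)).mono fun n h => h.2.symm ▸ h.1.2⟩

end Pool.Agent.Lib.MP_ffb54b_al.P2
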