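import Mathlib

set_option autoImplicit false
set_option linter.unusedSectionVars false

namespace Pool.Agent.Lib.MP_ffb54b_al.P2

open Module ZModModule

/-- The linear form with value one on the first basis vector (`true`). -/
def lam (p : Bool) : ZMod 2 := if p then 1 else 0

@[simp] lemma lam_true : lam true = 1 := rfl

@[simp] lemma lam_false : lam false = 0 := rfl

/-- A graded Lie algebra over the field with two elements generated by three elements of degree
one, with the dimensions of the lower central factors of the Nottingham group. -/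
structure GrD (L : Type*) [LieRing L] [LieAlgebra (ZMod 2) L] where
  /-- The homogeneous components. -/
  W : ℕ → Submodule (ZMod 2) L
  /-- First generator. -/
  x : L
  /-- Second generator. -/
  y : L
  /-- Third generator. -/
  u : L
  hx : x ∈ W 1
  hy : y ∈ W 1
  hu : u ∈ W 1
  lie_mem : ∀ {i j : ℕ} {a b : L}, 1 ≤ i → 1 ≤ j → a ∈ W i → b ∈ W j → ⁅a, b⁆ ∈ W (i + j)
  gen : ∀ n, 1 ≤ n → ∀ z ∈ W (n + 1), ∃ k₁ ∈ W n, ∃ k₂ ∈ W n, ∃ k₃ ∈ W n,
    z = ⁅x, k₁⁆ + ⁅y, k₂⁆ + ⁅u, k₃⁆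
  fin_even : ∀ m, 3 ≤ m → finrank (ZMod 2) (W (2 * m)) = 2
  fin_odd : ∀ m, 3 ≤ m → finrank (ZMod 2) (W (2 * m + 1)) = 4

namespace GrD

variable {L : Type*} [LieRing L] [LieAlgebra (ZMod 2) L] (D : GrD L)

/-- The chains `a_i`, `b_i`. -/
def v (p : Bool) : ℕ → L
  | 0 => 0
  | 1 => if p then D.x else D.u
  | i + 2 => ⁅D.y, v p (i + 1)⁆

/-- Brackets of chain elements. -/
def B (i j : ℕ) (p q : Bool) : L := ⁅D.v p i, D.v q j⁆

/-- Elements commuting with the generators. -/
def Cen (c : L) : Prop := ⁅D.x, c⁆ = 0 ∧ ⁅D.y, c⁆ = 0 ∧ ⁅D.u, c⁆ = 0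

variable {i j k m n N : ℕ} {p q r : Bool} {c z : L}

lemma lie_comm (a b : L) : ⁅a, b⁆ = ⁅b, a⁆ := by rw [← lie_skew, ZModModule.neg_eq_self]

lemma v_succ (hi : 1 ≤ i) : D.v p (i + 1) = ⁅D.y, D.v p i⁆ := by
  obtain ⟨i, rfl⟩ := Nat.exists_eq_add_of_le' hi
  rfl

lemma v_mem (p : Bool) : ∀ i, D.v p i ∈ D.W i
  | 0 => zero_mem _
  | 1 => by cases p; exacts [D.hu, D.hx]
  | i + 2 => by
    have := D.lie_mem le_rfl (by omega) D.hy (v_mem p (i + 1))
    rwa [add_comm] at this

lemma B_mem (hi : 1 ≤ i) (hj : 1 ≤ j) (e : i + j = n) : D.B i j p q ∈ D.W n :=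
  e ▸ D.lie_mem hi hj (D.v_mem p i) (D.v_mem q j)

lemma B_symm (i j : ℕ) (p q : Bool) : D.B i j p q = D.B j i q p := lie_comm _ _

lemma B_Y (hi : 1 ≤ i) (hj : 1 ≤ j) (p q : Bool) :
    ⁅D.y, D.B i j p q⁆ = D.B (i + 1) j p q + D.B i (j + 1) p q := by
  simp only [B, D.v_succ hi, D.v_succ hj]
  exact leibniz_lie _ _ _

lemma B_one (r p q : Bool) (i j : ℕ) :
    ⁅D.v r 1, D.B i j p q⁆ = ⁅D.B 1 i r p, D.v q j⁆ + ⁅D.v p i, D.B 1 j r q⁆ := leibniz_lie _ _ _

variable {D}

lemma Cen.v (h : D.Cen c) (p : Bool) : ∀ i, ⁅D.v p i, c⁆ = 0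
  | 0 => zero_lie c
  | 1 => by cases p; exacts [h.2.2, h.1]
  | i + 2 => by rw [GrD.v, lie_lie, Cen.v h p (i + 1), h.2.1, lie_zero, lie_zero, sub_zero]

lemma Cen.v' (h : D.Cen c) (p : Bool) (i : ℕ) : ⁅c, D.v p i⁆ = 0 := by rw [lie_comm, h.v]

lemma Cen.W (h : D.Cen c) (h1 : ∀ z ∈ D.W 1, ⁅z, c⁆ = 0) : ∀ n, 1 ≤ n → ∀ z ∈ D.W n, ⁅z, c⁆ = 0 := by
  intro n hn
  induction n, hn using Nat.le_induction with
  | base => exact h1
  | succ n hn ih =>
    intro z hz
    obtain ⟨k₁, m₁, k₂, m₂, k₃, m₃, rfl⟩ := D.gen n hn z hz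
    simp only [add_lie, lie_lie, ih _ m₁, ih _ m₂, ih _ m₃, h.1, h.2.1, h.2.2, lie_zero, sub_zero,
      add_zero]

variable (D)

/-- The structure in an even degree. -/
structure PE (N : ℕ) : Prop where
  span : ∀ z ∈ D.W N, ∃ s t : ZMod 2, z = s • D.v true N + t • D.v false N
  mid : ∀ i j p q, 3 ≤ i → 3 ≤ j → i + j = N → D.B i j p q = 0
  one : ∀ j p q, j + 1 = N → D.B 1 j p q = lam p • D.v q N
  two : ∀ j p q, j + 2 = N → D.B 2 j p q = lam p • D.v q N
  cen : ∀ j p q, j + 2 = N → D.Cen (D.B 1 j p q)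

/-- The structure in the odd degree `N + 1`. -/
structure PO (N : ℕ) : Prop where
  span : ∀ z ∈ D.W (N + 1), ∃ s t c₁ c₂ c₃ : ZMod 2, z = s • D.v true (N + 1) +
    t • D.v false (N + 1) + (c₁ • D.B 1 N true true + c₂ • D.B 1 N true false +
      c₃ • D.B 1 N false false)
  mid : ∀ i j p q, 3 ≤ i → 3 ≤ j → i + j = N + 1 → D.B i j p q = D.B 1 N p q
  two : ∀ j p q, j + 1 = N → D.B 2 j p q = D.B 1 N p q + lam p • D.v q (N + 1)
  symm : D.B 1 N false true = D.B 1 N true false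

variable {D}

lemma PE.po (h : D.PE N) (hN : 6 ≤ N) : D.PO N := by
  obtain ⟨M, rfl⟩ : ∃ M, N = M + 3 := ⟨N - 3, by omega⟩
  have h2 : ∀ p q, D.B 2 (M + 2) p q = D.B 1 (M + 3) p q + lam p • D.v q (M + 3 + 1) := fun p q => by
    have := D.B_Y (i := 1) (j := M + 2) le_rfl (by omega) p q
    rw [h.one _ p q rfl, lie_smul, ← D.v_succ (by omega)] at this
    linear_combination (norm := abel1) -this - add_self (D.B 1 (M + 3) p q)
  have h3 : ∀ p q, D.B 3 (M + 1) p q = D.B 1 (M + 3) p q := fun p q => by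
    have := D.B_Y (i := 2) (j := M + 1) (by omega) (by omega) p q
    rw [h.two _ p q rfl, lie_smul, ← D.v_succ (by omega), h2] at this
    linear_combination (norm := abel1) -this - add_self (D.B 1 (M + 3) p q)
  have hm : ∀ i j p q, 3 ≤ i → 3 ≤ j → i + j = M + 3 + 1 → D.B i j p q = D.B 1 (M + 3) p q := by
    intro i j p q hi
    induction i, hi using Nat.le_induction generalizing j with
    | base => exact fun _ e => (show j = M + 1 by omega) ▸ h3 p q
    | succ i hi ih =>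
      intro hj e
      have := D.B_Y (i := i) (j := j) (by omega) (by omega) p q
      rw [h.mid i j p q hi hj (by omega), lie_zero, ih (j + 1) (by omega) (by omega)] at this
      linear_combination (norm := abel1) -this - add_self (D.B 1 (M + 3) p q)
  have hs : D.B 1 (M + 3) false true = D.B 1 (M + 3) true false := by
    rw [← h3, D.B_symm, hm _ _ _ _ (by omega) le_rfl (by omega)]
  refine ⟨fun z hz => ?_, hm, fun j p q e => (show j = M + 2 by omega) ▸ h2 p q, hs⟩
  obtain ⟨k₁, m₁, k₂, m₂, k₃, m₃, rfl⟩ := D.gen _ (by omega) z hz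
  obtain ⟨s₁, t₁, rfl⟩ := h.span _ m₁
  obtain ⟨s₂, t₂, rfl⟩ := h.span _ m₂
  obtain ⟨s₃, t₃, rfl⟩ := h.span _ m₃
  refine ⟨s₂, t₂, s₁, t₁ + s₃, t₃, ?_⟩
  have e : ∀ q, ⁅D.x, D.v q (M + 3)⁆ = D.B 1 (M + 3) true q := fun _ => rfl
  have e' : ∀ q, ⁅D.u, D.v q (M + 3)⁆ = D.B 1 (M + 3) false q := fun _ => rfl
  simp only [lie_add, lie_smul, e, e', hs, ← D.v_succ (show 1 ≤ M + 3 by omega)]
  module

lemma dim_contra {V : Type*} [AddCommGroup V] [Module (ZMod 2) V] {S T : Submodule (ZMod 2) V}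
    (f : V →ₗ[ZMod 2] V) (hS : finrank (ZMod 2) S = 2) (hT : finrank (ZMod 2) T = 4) (w : V)
    (h : T ≤ S.map f ⊔ Submodule.span (ZMod 2) {w}) : False := by
  have : Module.Finite (ZMod 2) S := Module.finite_of_finrank_pos (by omega)
  have h1 := Submodule.finrank_mono h
  have h2 := Submodule.finrank_add_le_finrank_add_finrank (S.map f) (Submodule.span (ZMod 2) {w})
  have h3 := Submodule.finrank_map_le f S
  have h4 : finrank (ZMod 2) (Submodule.span (ZMod 2) {w}) ≤ 1 := by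
    simpa using finrank_span_le_card (R := ZMod 2) ({w} : Set V)
  omega

lemma dep3 {V : Type*} [AddCommGroup V] [Module (ZMod 2) V] {S : Submodule (ZMod 2) V}
    (hS : finrank (ZMod 2) S = 2) {a b e : V} (ha : a ∈ S) (hb : b ∈ S) (he : e ∈ S) (h0 : e ≠ 0) :
    a = 0 ∨ a = e ∨ b = 0 ∨ b = e ∨ a + b = 0 ∨ a + b = e := by
  have : Module.Finite (ZMod 2) S := Module.finite_of_finrank_pos (by omega)
  have h : ¬LinearIndependent (ZMod 2) ![(⟨a, ha⟩ : S), ⟨b, hb⟩, ⟨e, he⟩] := fun h => by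
    have := h.fintype_card_le_finrank
    simp [hS] at this
  obtain ⟨g, h1, i, h2⟩ := Fintype.not_linearIndependent_iff.1 h
  have h3 : g 0 • a + g 1 • b + g 2 • e = 0 := by
    simpa [Fin.sum_univ_three] using congrArg Subtype.val h1
  have z : ∀ t : ZMod 2, t = 0 ∨ t = 1 := by decide
  have n : ∀ {a e : V}, a + e = 0 → a = e := fun h => by
    rw [add_eq_zero_iff_eq_neg, ZModModule.neg_eq_self] at h; exact h
  rcases z (g 0) with e0 | e0 <;> rcases z (g 1) with e1 | e1 <;> rcases z (g 2) with e2 | e2 <;>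
    simp only [e0, e1, e2, zero_smul, one_smul, zero_add, add_zero] at h3
  · fin_cases i <;> simp_all
  all_goals first | exact (h0 h3).elim | tauto

lemma PE.step (h4 : ∀ p q, D.B 1 3 p q = lam p • D.v q 4) (h5 : ∀ p q, D.Cen (D.B 1 4 p q))
    (hm : 3 ≤ m) (h : D.PE (2 * m)) : D.PE (2 * (m + 1)) := by
  have o := h.po (by omega)
  have d2 := D.fin_even (m + 1) (by omega)
  have d4 := D.fin_odd (m + 1) (by omega)
  obtain ⟨M, hM⟩ : ∃ M, 2 * m = M + 6 := ⟨2 * m - 6, by omega⟩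
  rw [show 2 * (m + 1) = M + 8 by omega] at *
  rw [hM] at h o
  let Y : L →ₗ[ZMod 2] L := LieAlgebra.ad (ZMod 2) L D.y
  let R := (D.W (M + 8)).map Y
  let E : Submodule (ZMod 2) L := D.W (M + 8) ⊓
    ⨅ r, R.comap (LieAlgebra.ad (ZMod 2) L (D.v r 1))
  have mE : ∀ {e}, e ∈ E ↔ e ∈ D.W (M + 8) ∧ ∀ r, ⁅D.v r 1, e⁆ ∈ R := by
    simp [E, Submodule.mem_iInf]
  have yR : ∀ {e}, e ∈ D.W (M + 8) → ⁅D.y, e⁆ ∈ R := fun he => ⟨_, he, rfl⟩
  have Eev : ∀ p q, D.B 4 (M + 4) p q ∈ E := fun p q =>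
    mE.2 ⟨D.B_mem (by omega) (by omega) (by omega), fun r => by
      rw [D.B_one, (h5 r p).v', (h.cen _ r q rfl).v, add_zero]; exact zero_mem _⟩
  have Eod : ∀ p q, D.B 3 (M + 5) p q ∈ E := fun p q =>
    mE.2 ⟨D.B_mem (by omega) (by omega) (by omega), fun r => by
      rw [D.B_one, h4, h.one _ r q rfl, smul_lie, lie_smul, ← smul_add]
      refine Submodule.smul_mem _ _ ?_
      have := yR (D.B_mem (i := 3) (j := M + 5) (p := p) (q := q) (by omega) (by omega) (by omega))
      rwa [D.B_Y (by omega) (by omega)] at this⟩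
  have hφ : ∀ p q, ⁅D.y, D.B 1 (M + 6) p q⁆ = D.B 4 (M + 4) p q + D.B 3 (M + 5) p q := fun p q => by
    rw [← o.mid 3 (M + 4) p q le_rfl (by omega) (by omega), D.B_Y (by omega) (by omega)]
  have hσ : ∀ r p q, ⁅D.v r 1, D.B 1 (M + 6) p q⁆ = lam r • D.B 4 (M + 4) p q := fun r p q => by
    rw [← o.mid 3 (M + 4) p q le_rfl (by omega) (by omega), D.B_one, h4, (h.cen _ r q rfl).v,
      add_zero, smul_lie]; rfl
  have h2 : ∀ p q, D.B 2 (M + 6) p q = D.B 4 (M + 4) p q + lam p • D.v q (M + 8) := fun p q => by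
    have := D.B_Y (i := 2) (j := M + 5) (by omega) (by omega) p q
    rw [o.two _ p q rfl, lie_add, hφ, lie_smul, ← D.v_succ (by omega)] at this
    linear_combination (norm := abel1) -this
  have h1 : ∀ p q, D.B 1 (M + 7) p q = D.B 3 (M + 5) p q + lam p • D.v q (M + 8) := fun p q => by
    have := D.B_Y (i := 1) (j := M + 6) (by omega) (by omega) p q
    rw [hφ, h2] at this
    linear_combination (norm := abel1) -this - add_self (lam p • D.v q (M + 8))
  have sp : ∀ z ∈ D.W (M + 8), ∃ s t : ZMod 2,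
      z + (s • D.v true (M + 8) + t • D.v false (M + 8)) ∈ E := by
    let S : Submodule (ZMod 2) L :=
      Submodule.span (ZMod 2) {D.v true (M + 8), D.v false (M + 8)} ⊔ E
    have v : ∀ q, D.v q (M + 8) ∈ S := fun q =>
      Submodule.mem_sup_left (Submodule.subset_span (by cases q <;> simp))
    have a : ∀ r, ∀ k ∈ D.W (M + 7), ⁅D.v r 1, k⁆ ∈ S := fun r k hk => by
      obtain ⟨s, t, c₁, c₂, c₃, rfl⟩ := o.span k hk
      have b : ∀ q, ⁅D.v r 1, D.v q (M + 6 + 1)⁆ ∈ S := fun q => by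
        change D.B 1 (M + 7) r q ∈ S
        rw [h1]
        exact add_mem (Submodule.mem_sup_right (Eod _ _)) (S.smul_mem _ (v _))
      have c : ∀ p q, ⁅D.v r 1, D.B 1 (M + 6) p q⁆ ∈ S := fun p q =>
        hσ r p q ▸ S.smul_mem _ (Submodule.mem_sup_right (Eev _ _))
      simp only [lie_add, lie_smul]
      exact add_mem (add_mem (S.smul_mem _ (b _)) (S.smul_mem _ (b _))) (add_mem
        (add_mem (S.smul_mem _ (c _ _)) (S.smul_mem _ (c _ _))) (S.smul_mem _ (c _ _)))
    have a' : ∀ k ∈ D.W (M + 7), ⁅D.y, k⁆ ∈ S := fun k hk => by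
      obtain ⟨s, t, c₁, c₂, c₃, rfl⟩ := o.span k hk
      have c : ∀ p q, ⁅D.y, D.B 1 (M + 6) p q⁆ ∈ S := fun p q =>
        hφ p q ▸ Submodule.mem_sup_right (add_mem (Eev _ _) (Eod _ _))
      simp only [lie_add, lie_smul, ← D.v_succ (show 1 ≤ M + 6 + 1 by omega)]
      exact add_mem (add_mem (S.smul_mem _ (v _)) (S.smul_mem _ (v _))) (add_mem
        (add_mem (S.smul_mem _ (c _ _)) (S.smul_mem _ (c _ _))) (S.smul_mem _ (c _ _)))
    intro z hz
    obtain ⟨k₁, m₁, k₂, m₂, k₃, m₃, e⟩ := D.gen (M + 7) (by omega) z hz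
    have : z ∈ S := e ▸ add_mem (add_mem (a true _ m₁) (a' _ m₂)) (a false _ m₃)
    obtain ⟨w, hw, e, he, rfl⟩ := Submodule.mem_sup.1 this
    obtain ⟨s, t, rfl⟩ := Submodule.mem_span_pair.1 hw
    exact ⟨s, t, by rwa [add_right_comm, add_self, zero_add]⟩
  have sy : D.B 1 (M + 8) false true + D.B 1 (M + 8) true false ∈ R := by
    have : ∀ i j, 1 ≤ j → i + j = M + 8 → D.B (i + 1) j false true + D.B 1 (M + 8) false true ∈ R := by
      intro i
      induction i with
      | zero =>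
        rintro j - e
        rw [zero_add] at e
        rw [e, zero_add, add_self]; exact zero_mem _
      | succ i ih =>
        intro j hj e
        have := add_mem (yR (D.B_mem (i := i + 1) (j := j) (p := false) (q := true) (by omega) hj e))
          (ih (j + 1) (by omega) (by omega))
        rwa [D.B_Y (by omega) hj, add_add_add_cancel] at this
    have := this (M + 7) 1 le_rfl rfl
    rwa [D.B_symm, add_comm] at this
  have E0 : ∀ e ∈ E, e = 0 := fun e he => by
    by_contra h0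
    have key : ∀ w, (∀ p q, D.B 1 (M + 8) p q ∈ R ⊔ Submodule.span (ZMod 2) {w}) → False := by
      refine fun w hw => dim_contra Y d2 d4 w fun z hz => ?_
      obtain ⟨k₁, m₁, k₂, m₂, k₃, m₃, rfl⟩ := D.gen (M + 8) (by omega) z hz
      have a : ∀ r, ∀ k ∈ D.W (M + 8), ⁅D.v r 1, k⁆ ∈ R ⊔ Submodule.span (ZMod 2) {w} := by
        intro r k hk
        obtain ⟨s, t, hst⟩ := sp k hk
        have := add_mem (Submodule.mem_sup_left ((mE.1 hst).2 r)) (add_mem
          (Submodule.smul_mem _ s (hw r true)) (Submodule.smul_mem _ t (hw r false)))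
        simp only [lie_add, lie_smul, B] at this
        rwa [add_assoc, add_self, add_zero] at this
      exact add_mem (add_mem (a true _ m₁) (Submodule.mem_sup_left (yR m₂))) (a false _ m₃)
    have l : ∀ {a w}, a ∈ R → a ∈ R ⊔ Submodule.span (ZMod 2) {w} := Submodule.mem_sup_left
    have s : ∀ w, w ∈ R ⊔ Submodule.span (ZMod 2) {w} := fun w =>
      Submodule.mem_sup_right (Submodule.mem_span_singleton_self w)
    have t : ∀ {a b w}, a + b ∈ R → a ∈ R ⊔ Submodule.span (ZMod 2) {w} →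
        b ∈ R ⊔ Submodule.span (ZMod 2) {w} := fun h1 h2 => by
      have := add_mem (l h1) h2
      rwa [add_right_comm, add_self, zero_add] at this
    have c : D.v true (M + 8) ∈ E ∨ D.v false (M + 8) ∈ E ∨
        D.v true (M + 8) + D.v false (M + 8) ∈ E := by
      rcases dep3 d2 (D.v_mem true _) (D.v_mem false _) he.1 h0 with c | c | c | c | c | c <;>
        simp [c, he]
    rcases c with c | c | c
    · have c := (mE.1 c).2
      refine key (D.B 1 (M + 8) false false) ?_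
      rintro (_ | _) (_ | _)
      exacts [s _, l (c _), t sy (l (c _)), l (c _)]
    · have c := (mE.1 c).2
      refine key (D.B 1 (M + 8) true true) ?_
      rintro (_ | _) (_ | _)
      exacts [l (c _), t (add_comm (D.B 1 (M + 8) false true) _ ▸ sy) (l (c _)), l (c _), s _]
    · have c := (mE.1 c).2
      simp only [lie_add] at c
      refine key (D.B 1 (M + 8) false true) ?_
      rintro (_ | _) (_ | _)
      exacts [t (c false) (s _), s _, t sy (s _),
        t (add_comm (D.B 1 (M + 8) true true) _ ▸ c true) (t sy (s _))]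
  have ev : ∀ p q, D.B 4 (M + 4) p q = 0 := fun p q => E0 _ (Eev p q)
  have od : ∀ p q, D.B 3 (M + 5) p q = 0 := fun p q => E0 _ (Eod p q)
  refine ⟨fun z hz => ?_, fun i j p q hi => ?_, fun j p q e => ?_, fun j p q e => ?_,
    fun j p q e => ?_⟩
  · obtain ⟨s, t, hst⟩ := sp z hz
    exact ⟨s, t, by rw [← ZModModule.neg_eq_self (_ + _), ← add_eq_zero_iff_eq_neg, E0 _ hst]⟩
  · induction i, hi using Nat.le_induction generalizing j with
    | base => exact fun _ e => (show j = M + 5 by omega) ▸ od p q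
    | succ i hi ih =>
      intro hj e
      have := D.B_Y (i := i) (j := j) (by omega) (by omega) p q
      rw [o.mid i j p q hi hj (by omega), hφ, ev, od, ih (j + 1) (by omega) (by omega)] at this
      simpa using this.symm
  · rw [show j = M + 7 by omega, h1, od, zero_add]
  · rw [show j = M + 6 by omega, h2, ev, zero_add]
  · obtain rfl : j = M + 6 := by omega
    exact ⟨(hσ true p q).trans (by rw [ev, smul_zero]), by rw [hφ, ev, od, add_zero],
      (hσ false p q).trans (by rw [ev, smul_zero])⟩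

/-- The structure theorem. -/
theorem pe (h4 : ∀ p q, D.B 1 3 p q = lam p • D.v q 4) (h5 : ∀ p q, D.Cen (D.B 1 4 p q))
    (h6 : D.PE 6) (hm : 3 ≤ m) : D.PE (2 * m) := by
  induction m, hm using Nat.le_induction with
  | base => exact h6
  | succ m hm ih => exact ih.step h4 h5 hm

end GrD

end Pool.Agent.Lib.MP_ffb54b_al.P2
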