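import Pool.Agent.Lib.MP_ffb54b_al.P2.S1G
import Pool.Agent.Lib.MP_ffb54b_al.P2.Gal

set_option autoImplicit false
set_option linter.unusedSectionVars false

namespace Pool.Agent.Lib.MP_ffb54b_al.P2

open Filter Subgroup
open scoped commutatorElement

universe u

/-- Bilinear maps on the plane. -/
abbrev Bil : Type := W2 →ₗ[ZMod 2] W2 →ₗ[ZMod 2] W2

instance : Finite (W2 →ₗ[ZMod 2] W2) := DFunLike.finite _

instance : Finite Bil := DFunLike.finite _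

variable {U : Ultrafilter ℕ} {G : ℕ → Type u} [∀ n, Group (G n)] {K : ∀ n, ℕ → Subgroup (G n)}

lemma vG_apply (x y u : ∀ n, G n) (p : Bool) (i n : ℕ) :
    vG x y u p i n = vG (x n) (y n) (u n) p i := map_vG (Pi.evalMonoidHom G n) x y u p i

/-- The structure of the factors of the galaxy Lie ring at infinite positions. -/
structure S1L (H : Fam U K) (x y u : ∀ n, G n) (c : Pos U → H.L → W2 × W2) (σ : Pos U → Bil) :
    Prop where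
  add : ∀ {ν a b}, Inf ν → a ∈ H.F ν → b ∈ H.F ν → c ν (a + b) = c ν a + c ν b
  zero : ∀ {ν a}, Inf ν → a ∈ H.F ν → (c ν a = 0 ↔ a ∈ H.F (ν + 1))
  even : ∀ {ν a}, Inf ν → red 2 ν = 0 → a ∈ H.F ν → (c ν a).2 = 0
  surj : ∀ {ν}, Inf ν → ∀ w : W2 × W2, (red 2 ν = 0 → w.2 = 0) → ∃ a ∈ H.F ν, c ν a = w
  symm : ∀ ν v w, σ ν v w = σ ν w v
  σ_even : ∀ {ν}, Inf ν → red 2 ν = 0 → σ ν = 0
  σ_span : ∀ {ν}, Inf ν → red 2 ν = 1 → ∀ z, ∃ c₁ c₂ c₃ : ZMod 2, z = c₁ • σ ν (ee true) (ee true) +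
    c₂ • σ ν (ee true) (ee false) + c₃ • σ ν (ee false) (ee false)
  deg : ∀ {ν a} (g : ∀ n, G n), a ∈ H.F ν → H.ρ g a - a ∈ H.F (ν + 1)
  yy : ∀ {ν a}, Inf ν → a ∈ H.F ν → c (ν + 1) (H.ρ y a - a) = ((c ν a).1, 0)
  one : ∀ {ν a}, Inf ν → a ∈ H.F ν → ∀ r, c (ν + 1) (H.ρ (vG x y u r 1) a - a) =
    ((lam r * red 2 ν) • (c ν a).1, σ (ν + 1) (ee r) (c ν a).1)
  two : ∀ {ν a}, Inf ν → a ∈ H.F ν → ∀ r, c (ν + 2) (H.ρ (vG x y u r 2) a - a) =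
    (lam r • (c ν a).1, σ (ν + 2) (ee r) (c ν a).1)
  mid : ∀ {ν a} {i : ℕ}, 3 ≤ i → Inf ν → a ∈ H.F ν → ∀ r,
    c (ν + i) (H.ρ (vG x y u r i) a - a) = (0, σ (ν + i) (ee r) (c ν a).1)
  br : ∀ {ν μ a b}, Inf ν → Inf μ → a ∈ H.F ν → b ∈ H.F μ →
    c (ν + μ) ⁅a, b⁆ = (0, σ (ν + μ) (c ν a).1 (c μ b).1)
  cen : ∀ {ν a g} {i : ℕ}, 1 ≤ i → Inf ν → (∀ᶠ n in U, g n ∈ K n i) → a ∈ H.F ν → (c ν a).1 = 0 →
    H.ρ g a - a ∈ H.F (ν + i + 1)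
  low1 : ∀ g : ∀ n, G n, ∃ s t : ZMod 2, ∀ {ν a}, Inf ν → a ∈ H.F ν →
    (c (ν + 1) (H.ρ g a - a)).1 = (s * red 2 ν + t) • (c ν a).1
  low2 : ∀ {g : ∀ n, G n}, (∀ᶠ n in U, g n ∈ K n 2) → ∃ s : ZMod 2, ∀ {ν a}, Inf ν → a ∈ H.F ν →
    (c (ν + 2) (H.ρ g a - a)).1 = s • (c ν a).1
  low3 : ∀ {ν a g} {i : ℕ}, 3 ≤ i → Inf ν → (∀ᶠ n in U, g n ∈ K n i) → a ∈ H.F ν →
    (c (ν + i) (H.ρ g a - a)).1 = 0
  vG_mem : ∀ p i n, vG x y u p i n ∈ K n i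
  compact : ∀ {I : Type} (V : Ultrafilter I) {ν} (a : I → H.L), (∀ᶠ t in V, a t ∈ H.F ν) →
    ∃ b, ∀ d : ℕ, ∀ᶠ t in V, b - a t ∈ H.F (ν + d)

/-- The limit of the bilinear maps. -/
noncomputable def σL (σ : ℕ → ℕ → Bil) (ν : Pos U) : Bil := ulim U fun n => σ n (lev ν n)

lemma σL_spec (σ : ℕ → ℕ → Bil) (ν : Pos U) : ∀ᶠ n in U, σ n (lev ν n) = σL σ ν := ulim_spec U _

lemma even_lev {ν : Pos U} (h : 0 ≤ ν) : red 2 ν = 0 ↔ ∀ᶠ n in U, Even (lev ν n) := by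
  refine ⟨fun e => (red_lev 2 h).mono fun n h => ZMod.natCast_eq_zero_iff_even.1 (h.trans e),
    fun e => ?_⟩
  obtain ⟨n, h1, h2⟩ := ((red_lev 2 h).and e).exists
  exact h1.symm.trans (ZMod.natCast_eq_zero_iff_even.2 h2)

lemma odd_lev {ν : Pos U} (h : 0 ≤ ν) : red 2 ν = 1 ↔ ∀ᶠ n in U, Odd (lev ν n) := by
  refine ⟨fun e => (red_lev 2 h).mono fun n h => ZMod.natCast_eq_one_iff_odd.1 (h.trans e),
    fun e => ?_⟩
  obtain ⟨n, h1, h2⟩ := ((red_lev 2 h).and e).exists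
  exact h1.symm.trans (ZMod.natCast_eq_one_iff_odd.2 h2)

variable {x y u : ∀ n, G n} {c : ∀ n, ℕ → G n → W2 × W2} {σ : ℕ → ℕ → Bil}

lemma fam_of_lcs (hU : Free U) (h : ∀ n, LCS (K n) (x n) (y n) (u n)) : Fam U K :=
  ⟨hU, fun n => (h n).normal, fun n => (h n).ns⟩

lemma cls_of_s1g (S : ∀ n, S1G (K n) (x n) (y n) (u n) (c n) (σ n)) : Cls U K c :=
  ⟨6, Eventually.of_forall fun n => (S n).cls⟩

theorem Fam.s1l (H : Fam U K) (h : ∀ n, LCS (K n) (x n) (y n) (u n))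
    (S : ∀ n, S1G (K n) (x n) (y n) (u n) (c n) (σ n)) : S1L H x y u (H.lead c) (σL σ) := by
  have hc : Cls U K c := cls_of_s1g S
  have hl := H.loc_of_cls hc
  have act : ∀ {ν : Pos U} {a g : ∀ n, G n} (i : ℕ), Inf ν → a ∈ Ev K ν →
      (∀ᶠ n in U, g n ∈ K n i) → ∀ᶠ n in U, c n (lev ν n + i) ⁅g n, a n⁆ =
        H.lead c (ν + i) (H.ρ g (H.cls ν a) - H.cls ν a) := by
    intro ν a g i hν ha hg
    have m : ⁅g, a⁆ ∈ Ev K (ν + i : Pos U) := H.pns.comm' (mem_Ev_nat.2 hg) ha (by rw [add_comm])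
    rw [H.pns.ρ_sub_cls g hν ha, H.pns.cls_near (Near.add_nat ν i)]
    filter_upwards [H.lead_cls hl (hν.add_nat i) m, lev_add_nat hν.nonneg i] with n h1 h2
    rw [← h2]; exact h1
  have m1 : ∀ g : ∀ n, G n, ∀ᶠ n in U, g n ∈ K n 1 := fun g =>
    Eventually.of_forall fun n => (h n).mem_one _
  have mv : ∀ p i n, vG x y u p i n ∈ K n i := fun p i n => vG_apply x y u p i n ▸ (h n).vG_mem p i
  refine ⟨H.lead_add hc, H.lead_zero hc, fun {ν a} hν e ha' => ?_, fun {ν} hν w hw => ?_,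
    fun ν v w => ?_, fun {ν} hν e => ?_, fun {ν} hν e z => ?_,
    fun g ha => by simpa using H.ρ_deg (m1 g) ha, fun {ν a} hν ha' => ?_, fun {ν a} hν ha' r => ?_,
    fun {ν a} hν ha' r => ?_, fun {ν a i} hi hν ha' r => ?_, fun {ν μ a b} hν hμ ha' hb' => ?_,
    fun {ν a g i} hi hν hg ha' e => ?_, fun g => ?_, fun {g} hg => ?_,
    fun {ν a g i} hi hν hg ha' => ?_, mv, fun V ν a => H.compact hc V a⟩
  · obtain ⟨a, ha, rfl⟩ := (H.pns.mem_F hν).1 ha'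
    obtain ⟨n, h1, h2, h3⟩ := ((H.lead_cls hl hν ha).and ((hν.le_lev 6).and
      ((even_lev hν.nonneg).1 e))).exists
    exact h1 ▸ (S n).even _ h2 h3 _
  · refine H.lead_surj hl hν ?_
    filter_upwards [hν.le_lev 6, red_lev 2 hν.nonneg] with n h1 h2
    exact (S n).surj _ h1 w fun e => hw (h2.symm.trans (ZMod.natCast_eq_zero_iff_even.2 e))
  · obtain ⟨n, h1⟩ := (σL_spec σ ν).exists
    exact h1 ▸ (S n).symm _ v w
  · obtain ⟨n, h1, h2⟩ := ((σL_spec σ ν).and ((even_lev hν.nonneg).1 e)).exists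
    exact h1 ▸ (S n).σ_even _ h2
  · obtain ⟨n, h1, h2, h3⟩ := ((σL_spec σ ν).and ((hν.le_lev 7).and
      ((odd_lev hν.nonneg).1 e))).exists
    exact h1 ▸ (S n).σ_span _ h2 h3 z
  · obtain ⟨a, ha, rfl⟩ := (H.pns.mem_F hν).1 ha'
    obtain ⟨n, h1, h2, h3, h4⟩ := ((act 1 hν ha (m1 y)).and ((H.lead_cls hl hν ha).and
      ((hν.le_lev 6).and ha))).exists
    rw [Nat.cast_one] at h1
    rw [← h1, ← h2]
    exact (S n).yy _ h3 _ h4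
  · obtain ⟨a, ha, rfl⟩ := (H.pns.mem_F hν).1 ha'
    obtain ⟨n, h1, h2, h3, h4, h5, h6, h7⟩ := ((act 1 hν ha (m1 (vG x y u r 1))).and
      ((H.lead_cls hl hν ha).and ((hν.le_lev 6).and ((mem_Ev.1 ha).and ((red_lev 2 hν.nonneg).and
      ((σL_spec σ (ν + 1)).and (lev_succ hν.nonneg))))))).exists
    rw [Nat.cast_one] at h1
    rw [← h1, ← h2, ← h5, ← h6, h7, vG_apply]
    exact (S n).one _ h3 r _ h4
  · obtain ⟨a, ha, rfl⟩ := (H.pns.mem_F hν).1 ha'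
    obtain ⟨n, h1, h2, h3, h4, h6, h7⟩ := ((act 2 hν ha (.of_forall (mv r 2))).and
      ((H.lead_cls hl hν ha).and ((hν.le_lev 6).and ((mem_Ev.1 ha).and
      ((σL_spec σ (ν + 2)).and (lev_add_nat hν.nonneg 2)))))).exists
    rw [Nat.cast_ofNat] at h1 h7
    rw [← h1, ← h2, ← h6, h7, vG_apply]
    exact (S n).two _ h3 r _ h4
  · obtain ⟨a, ha, rfl⟩ := (H.pns.mem_F hν).1 ha'
    obtain ⟨n, h1, h2, h3, h4, h6, h7⟩ := ((act i hν ha (.of_forall (mv r i))).and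
      ((H.lead_cls hl hν ha).and ((hν.le_lev 6).and ((mem_Ev.1 ha).and
      ((σL_spec σ (ν + i : Pos U)).and (lev_add_nat hν.nonneg i)))))).exists
    rw [← h1, ← h2, ← h6, h7, vG_apply, add_comm _ i]
    exact (S n).mid _ _ hi h3 r _ h4
  · obtain ⟨a, ha, rfl⟩ := (H.pns.mem_F hν).1 ha'
    obtain ⟨b, hb, rfl⟩ := (H.pns.mem_F hμ).1 hb'
    rw [H.pns.lie_cls hν hμ ha hb, H.lead_cls_eq hl (hν.add hμ) (H.pns.comm ha hb)]
    filter_upwards [H.lead_cls hl hν ha, H.lead_cls hl hμ hb, hν.le_lev 6, hμ.le_lev 6, ha, hb,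
      σL_spec σ (ν + μ), lev_add hν.nonneg hμ.nonneg] with n h1 h2 h3 h4 h5 h6 h7 h8
    rw [← h1, ← h2, ← h7, h8]
    exact (S n).br _ _ h3 h4 _ h5 _ h6
  · obtain ⟨a, ha, rfl⟩ := (H.pns.mem_F hν).1 ha'
    rw [H.pns.ρ_sub_cls g hν ha, H.pns.cls_mem_iff (a := ⁅g, a⁆) hν (mul_mem
      ((H.pns.normal ν).conj_mem _ ha g) (inv_mem ha)) ⟨i + 1, by push_cast; ring⟩, add_assoc,
      ← Nat.cast_succ, mem_Ev_add_nat hν.nonneg]
    filter_upwards [H.lead_cls hl hν ha, hν.le_lev 6, ha, hg] with n h1 h2 h3 h4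
    exact (h n).ns.anti (by omega) ((S n).cen _ _ hi h2 _ h4 _ h3 (h1 ▸ e))
  · choose s t hst using fun n => (S n).low1 (g n)
    refine ⟨ulim U s, ulim U t, fun {ν a} hν ha' => ?_⟩
    obtain ⟨a, ha, rfl⟩ := (H.pns.mem_F hν).1 ha'
    obtain ⟨n, h1, h2, h3, h4, h5, h6, h7⟩ := ((act 1 hν ha (m1 g)).and
      ((H.lead_cls hl hν ha).and ((hν.le_lev 6).and ((mem_Ev.1 ha).and ((red_lev 2 hν.nonneg).and
      ((ulim_spec U s).and (ulim_spec U t))))))).exists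
    rw [Nat.cast_one] at h1
    rw [← h1, ← h2, ← h5, ← h6, ← h7]
    exact hst n _ h3 _ h4
  · have : ∀ n, ∃ s : ZMod 2, g n ∈ K n 2 → ∀ m, 6 ≤ m → ∀ a ∈ K n m,
        (c n (m + 2) ⁅g n, a⁆).1 = s • (c n m a).1 := fun n => by
      by_cases h : g n ∈ K n 2
      exacts [((S n).low2 _ h).imp fun _ h _ => h, ⟨0, fun h' => (h h').elim⟩]
    choose s hs using this
    refine ⟨ulim U s, fun {ν a} hν ha' => ?_⟩
    obtain ⟨a, ha, rfl⟩ := (H.pns.mem_F hν).1 ha'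
    obtain ⟨n, h1, h2, h3, h4, h5, h6⟩ := ((act 2 hν ha hg).and
      ((H.lead_cls hl hν ha).and ((hν.le_lev 6).and ((mem_Ev.1 ha).and (hg.and (ulim_spec U s)))))).exists
    rw [Nat.cast_ofNat] at h1
    rw [← h1, ← h2, ← h6]
    exact hs n h5 _ h3 _ h4
  · obtain ⟨a, ha, rfl⟩ := (H.pns.mem_F hν).1 ha'
    obtain ⟨n, h1, h3, h4, h5⟩ := ((act i hν ha hg).and ((hν.le_lev 6).and ((mem_Ev.1 ha).and hg))).exists
    rw [← h1, add_comm _ i]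
    exact (S n).low3 _ _ hi h3 _ h5 _ h4

end Pool.Agent.Lib.MP_ffb54b_al.P2
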