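import Pool.Agent.Lib.MP_ffb54b_al.P2.KP

set_option autoImplicit false
set_option linter.unusedSectionVars false

namespace Pool.Agent.Lib.MP_ffb54b_al.P2

open Finset Filter

universe u

/-- a symmetric bilinear map whose values span the plane. -/
def Good (σ : Bil) : Prop :=
  (∀ v w, σ v w = σ w v) ∧ ∀ z, ∃ c₁ c₂ c₃ : ZMod 2, z = c₁ • σ (ee true) (ee true) +
    c₂ • σ (ee true) (ee false) + c₃ • σ (ee false) (ee false)

lemma w2_ext {v w : W2} (h1 : v true = w true) (h2 : v false = w false) : v = w :=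
  funext fun b => by cases b <;> assumption

lemma Good.minor {σ : Bil} (h : Good σ) : ¬ (σ (ee true) (ee true) true * σ (ee true) (ee false) false =
      σ (ee true) (ee true) false * σ (ee true) (ee false) true ∧
    σ (ee true) (ee true) true * σ (ee false) (ee false) false =
      σ (ee true) (ee true) false * σ (ee false) (ee false) true ∧
    σ (ee true) (ee false) true * σ (ee false) (ee false) false =
      σ (ee true) (ee false) false * σ (ee false) (ee false) true) := by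
  obtain ⟨a1, a2, a3, h1⟩ := h.2 (ee true)
  obtain ⟨b1, b2, b3, h2⟩ := h.2 (ee false)
  have e1 := congrFun h1 true
  have e2 := congrFun h1 false
  have e3 := congrFun h2 true
  have e4 := congrFun h2 false
  have t1 : ee true true = 1 := by decide
  have t2 : ee true false = 0 := by decide
  have t3 : ee false true = 0 := by decide
  have t4 : ee false false = 1 := by decide
  simp only [Pi.add_apply, Pi.smul_apply, smul_eq_mul, t1, t2, t3, t4] at e1 e2 e3 e4
  rintro ⟨m1, m2, m3⟩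
  have : (1 : ZMod 2) = 0 := by
    linear_combination e1 + (a1 * σ (ee true) (ee true) true + a2 * σ (ee true) (ee false) true +
      a3 * σ (ee false) (ee false) true) * e4 - (b1 * σ (ee true) (ee true) true +
      b2 * σ (ee true) (ee false) true + b3 * σ (ee false) (ee false) true) * e2 +
      (a1 * b2 - a2 * b1) * m1 + (a1 * b3 - a3 * b1) * m2 + (a2 * b3 - a3 * b2) * m3
  exact one_ne_zero this

lemma Good.left {σ : Bil} (h : Good σ) (v : W2) :
    σ v (ee true) = v true • σ (ee true) (ee true) + v false • σ (ee true) (ee false) ∧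
    σ v (ee false) = v true • σ (ee true) (ee false) + v false • σ (ee false) (ee false) := by
  constructor
  · conv_lhs => rw [W2.eq_sum v]
    simp only [map_add, map_smul, LinearMap.add_apply, LinearMap.smul_apply, h.1 (ee false) (ee true)]
  · conv_lhs => rw [W2.eq_sum v]
    simp only [map_add, map_smul, LinearMap.add_apply, LinearMap.smul_apply]

set_option synthInstance.maxSize 100000 in
lemma fin_pp : ∀ a1 a2 b1 b2 c1 c2 x1 x2 y1 y2 u1 u2 : ZMod 2,
    ¬ (a1 * b2 = a2 * b1 ∧ a1 * c2 = a2 * c1 ∧ b1 * c2 = b2 * c1) →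
    x1 * a1 + x2 * b1 = 0 → x1 * a2 + x2 * b2 = 0 → y1 * b1 + y2 * c1 = 0 → y1 * b2 + y2 * c2 = 0 →
    x1 * b1 + x2 * c1 + (u1 * a1 + u2 * b1) = 0 → x1 * b2 + x2 * c2 + (u1 * a2 + u2 * b2) = 0 →
    y1 * a1 + y2 * b1 + (u1 * b1 + u2 * c1) = 0 → y1 * a2 + y2 * b2 + (u1 * b2 + u2 * c2) = 0 →
    (x1 = 0 ∧ x2 = 0) ∧ (y1 = 0 ∧ y2 = 0) ∧ u1 = 0 ∧ u2 = 0 := by
  decide +kernel

set_option synthInstance.maxSize 100000 in
lemma fin_ab : ∀ a1 a2 b1 b2 c1 c2 x1 x2 y1 y2 : ZMod 2,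
    ¬ (a1 * b2 = a2 * b1 ∧ a1 * c2 = a2 * c1 ∧ b1 * c2 = b2 * c1) →
    x1 * a1 + x2 * b1 = 0 → x1 * a2 + x2 * b2 = 0 → y1 * b1 + y2 * c1 = 0 → y1 * b2 + y2 * c2 = 0 →
    x1 * b1 + x2 * c1 + (y1 * a1 + y2 * b1) = 0 → x1 * b2 + x2 * c2 + (y1 * a2 + y2 * b2) = 0 →
    (x1 = 0 ∧ x2 = 0) ∧ y1 = 0 ∧ y2 = 0 := by
  decide +kernel

lemma Good.pp {σ : Bil} (h : Good σ) {X Y V : W2} (h1 : σ X (ee true) = 0) (h2 : σ Y (ee false) = 0)
    (h3 : σ X (ee false) + σ V (ee true) = 0) (h4 : σ Y (ee true) + σ V (ee false) = 0) :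
    X = 0 ∧ Y = 0 ∧ V = 0 := by
  rw [(h.left _).1] at h1
  rw [(h.left _).2] at h2
  rw [(h.left V).1, (h.left X).2] at h3
  rw [(h.left Y).1, (h.left V).2] at h4
  obtain ⟨⟨e1, e2⟩, ⟨e3, e4⟩, e5, e6⟩ := fin_pp _ _ _ _ _ _ _ _ _ _ _ _ h.minor (congrFun h1 true)
    (congrFun h1 false) (congrFun h2 true) (congrFun h2 false) (congrFun h3 true)
    (congrFun h3 false) (congrFun h4 true) (congrFun h4 false)
  exact ⟨w2_ext e1 e2, w2_ext e3 e4, w2_ext e5 e6⟩

lemma Good.nondeg {σ : Bil} (h : Good σ) {X : W2} (h1 : ∀ t, σ X (ee t) = 0) : X = 0 :=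
  (h.pp (Y := 0) (V := 0) (h1 true) (by simp) (by simpa using h1 false) (by simp)).1

lemma w2_eq_of_add {v w : W2} (h : v + w = 0) : v = w := by
  rw [← w2_neg w]; exact eq_neg_of_add_eq_zero_left h

/-- the `A = B` lemma. -/
lemma Good.ab {σ : Bil} (h : Good σ) {A B : Bool → W2}
    (h1 : ∀ s t, σ (A s) (ee t) = σ (ee s) (B t)) (s : Bool) : A s = B s := by
  have k1 : ∀ s, σ (A s + B s) (ee s) = 0 := fun s => by
    rw [map_add, LinearMap.add_apply, h1, h.1 (B s), w2_add_self]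
  have k2 : σ (A true + B true) (ee false) + σ (A false + B false) (ee true) = 0 := by
    simp only [map_add, LinearMap.add_apply, h1, h.1 (B _)]
    rw [add_comm (σ (ee false) (B true)), w2_add_self]
  have k3 := k1 true
  have k4 := k1 false
  rw [(h.left _).1] at k3
  rw [(h.left _).2] at k4
  rw [(h.left (A false + B false)).1, (h.left (A true + B true)).2] at k2
  obtain ⟨⟨e1, e2⟩, e3, e4⟩ := fin_ab _ _ _ _ _ _ _ _ _ _ h.minor (congrFun k3 true)
    (congrFun k3 false) (congrFun k4 true) (congrFun k4 false) (congrFun k2 true)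
    (congrFun k2 false)
  cases s
  · exact w2_eq_of_add (w2_ext e3 e4)
  · exact w2_eq_of_add (w2_ext e1 e2)

variable {U : Ultrafilter ℕ} {G : ℕ → Type u} [∀ n, Group (G n)] {K : ∀ n, ℕ → Subgroup (G n)}

lemma z2' (t : ZMod 2) : t = 0 ∨ t = 1 := by revert t; decide

lemma exists_small {μ ν : Pos U} (hμ : Inf μ) (hν : Inf ν) (t : ZMod 2) :
    ∃ κ, Inf κ ∧ Inf (μ - κ) ∧ Inf (ν - κ) ∧ red 2 κ = t := by
  have hm : Inf (min μ ν) := fun c => le_min (hμ c) (hν c)
  obtain ⟨κ, r, -, e⟩ := exists_div (min μ ν) (show 0 < 2 by norm_num)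
  have hκ : Inf κ := Inf.of_mul (m := 2) (c := r) (by simpa [e] using hm)
  have h0 : (0 : Pos U) ≤ r := Nat.cast_nonneg r
  have e1 := min_le_left μ ν
  have e2 := min_le_right μ ν
  push_cast at e
  have h1 : Inf (μ - κ) := hκ.mono (by linarith)
  have h2 : Inf (ν - κ) := hκ.mono (by linarith)
  by_cases h : red 2 κ = t
  · exact ⟨κ, hκ, h1, h2, h⟩
  · refine ⟨κ + 1, hκ.succ, h1.of_eq (-1) (by push_cast; ring), h2.of_eq (-1) (by push_cast; ring), ?_⟩
    rw [map_add, map_one]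
    revert h; generalize red 2 κ = s; revert s t; decide

namespace S1L

open Fam

variable {H : Fam U K} {x y u : ∀ n, G n} {c : Pos U → H.L → W2 × W2} {σ : Pos U → Bil}
  (S : S1L H x y u c σ) {ν μ κ : Pos U} {a a' k k' p p' q : H.L}
include S

lemma good (hν : Inf ν) (h : red 2 ν = 1) : Good (σ ν) := ⟨S.symm ν, S.σ_span hν h⟩

/-- `[K, P] ≤ P`. -/
theorem lie_KP (hμ : Inf μ) (hν : Inf ν) (hk : k ∈ H.Ks y μ) (hp : p ∈ H.Ps y ν) :
    ⁅k, p⁆ ∈ H.Ps y (μ + ν) := by
  have key : ∀ r : ℕ, ∀ {μ ν : Pos U} {k p : H.L}, Inf μ → Inf ν → k ∈ H.Ks y μ → p ∈ H.Ps y ν →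
      ⁅k, p⁆ - H.π y ⁅k, p⁆ ∈ H.F (μ + ν + r) := by
    intro r
    induction r with
    | zero =>
      intro μ ν k p hμ hν hk hp
      simpa using K_F (S.π_spec (hμ.add hν) (H.lie_mem (K_F hk) (P_F hp))).2
    | succ r ih =>
      intro μ ν k p hμ hν hk hp
      have hν' : Inf (ν - 1) := hν.of_eq (-1) (by push_cast; ring)
      have hμ' : Inf (μ + 2) := hμ.of_eq 2 (by push_cast; ring)
      obtain ⟨p', hp', rfl⟩ := S.P_div hν' (P_cast hp (by ring))
      have hN := hμ.add hν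
      have m0 := H.lie_mem (K_F hk) (P_F hp')
      have m1 : ⁅H.Y y k, p'⁆ ∈ H.F (μ + ν) :=
        H.up (H.lie_mem (K_F (K_Y hk)) (P_F hp')) 1 (by push_cast; ring)
      have m2 := H.lie_mem (K_F hk) (P_F hp)
      have m3 : ⁅H.Y y k, H.Y y p'⁆ ∈ H.F (μ + ν) :=
        H.up (H.lie_mem (K_F (K_Y hk)) (P_F hp)) 2 (by push_cast; ring)
      have e := S.π_Y (hμ.add hν') m0
      rw [Y_lie, S.π_add hN (add_mem m1 m2) m3, S.π_add hN m1 m2] at e
      have h0 := K_F (K_Y (S.K_of_F (hμ.add hν') (S.π_spec (hμ.add hν') m0).2 r (ih hμ hν' hk hp')))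
      rw [map_sub, Y_lie, ← e] at h0
      have h1 := ih hμ' hν' (K_Y hk) hp'
      have h2 := ih hμ' hν (K_Y hk) hp
      have h3 := sub_mem (sub_mem (H.cast h0 (ν := μ + ν + (r + 1 : ℕ)) (by push_cast; ring))
        (H.cast h1 (by push_cast; ring))) (H.up h2 1 (by push_cast; ring))
      convert h3 using 1
      abel
  exact S.P_of_π (hμ.add hν) (H.lie_mem (K_F hk) (P_F hp)) fun r => key r hμ hν hk hp

/-- a chosen element of `P` with a given class. -/
noncomputable def pw (ν : Pos U) (v : W2) : H.L := by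
  classical exact if h : Inf ν then (S.exists_P h v).choose else 0

lemma pw_P (hν : Inf ν) (v : W2) : S.pw ν v ∈ H.Ps y ν := by
  rw [pw, dif_pos hν]; exact (S.exists_P hν v).choose_spec.1

lemma pw_F (hν : Inf ν) (v : W2) : S.pw ν v ∈ H.F ν := P_F (S.pw_P hν v)

lemma cW_pw (hν : Inf ν) (v : W2) : (c ν (S.pw ν v)).1 = v := by
  rw [pw, dif_pos hν]; exact (S.exists_P hν v).choose_spec.2

lemma P_sub (hν : Inf ν) (hp : p ∈ H.Ps y ν) (hp' : p' ∈ H.Ps y ν) (h : (c ν p).1 = (c ν p').1) :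
    p - p' ∈ H.Ps y (ν + 1) :=
  S.P_succ hν (sub_mem hp hp') (by rw [S.c_sub hν (P_F hp) (P_F hp'), Prod.fst_add, h, w2_add_self])

lemma K_sub (hν : Inf ν) (hk : k ∈ H.Ks y ν) (hk' : k' ∈ H.Ks y ν) (h : (c ν k).2 = (c ν k').2) :
    k - k' ∈ H.Ks y (ν + 1) :=
  S.K_succ' hν (sub_mem hk hk') (by
    rw [S.c_sub hν (K_F hk) (K_F hk'), Prod.snd_add, h, w2_add_self])

/-- induction on the class of an element of `P`. -/
lemma P_ind (hν : Inf ν) {Q : H.L → Prop} (h0 : ∀ p ∈ H.Ps y (ν + 1), Q p)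
    (h1 : ∀ t, Q (S.pw ν (ee t)))
    (h2 : ∀ p ∈ H.Ps y ν, ∀ p' ∈ H.Ps y ν, Q p → Q p' → Q (p + p')) (hp : p ∈ H.Ps y ν) : Q p := by
  have m : ∀ t (s : ZMod 2), s.val • S.pw ν (ee t) ∈ H.Ps y ν := fun t s =>
    nsmul_mem (S.pw_P hν _) _
  have hq : ∀ t (s : ZMod 2), Q (s.val • S.pw ν (ee t)) := fun t s => by
    rcases z2' s with rfl | rfl
    · simpa using h0 0 (zero_mem _)
    · simpa [ZMod.val_one] using h1 t
  have h3 := S.P_sub hν hp (add_mem (m true ((c ν p).1 true)) (m false ((c ν p).1 false))) (by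
    rw [S.add hν (P_F (m _ _)) (P_F (m _ _)), S.c_val hν, S.c_val hν, Prod.fst_add,
      Prod.smul_fst, Prod.smul_fst, S.cW_pw hν, S.cW_pw hν]
    exact W2.eq_sum _)
  have h4 := h2 _ (P_up h3 1 (by simp)) _
    (add_mem (m true ((c ν p).1 true)) (m false ((c ν p).1 false))) (h0 _ h3)
    (h2 _ (m _ _) _ (m _ _) (hq _ _) (hq _ _))
  rwa [sub_add_cancel] at h4

lemma c_cast (e : ν = μ) : c ν a = c μ a := e ▸ rfl

lemma pp_step (r : ℕ) (ih : ∀ {μ ν : Pos U} {p q : H.L}, Inf μ → Inf ν → p ∈ H.Ps y μ →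
      q ∈ H.Ps y ν → H.π y ⁅p, q⁆ ∈ H.F (μ + ν + r)) (hμ : Inf μ) (hν : Inf ν)
    (hp : p ∈ H.Ps y μ) (hq : q ∈ H.Ps y ν) : H.π y ⁅p, q⁆ ∈ H.F (μ + ν + r + 1) := by
  have ihP : ∀ {μ ν : Pos U} {p q : H.L}, Inf μ → Inf ν → p ∈ H.Ps y μ → q ∈ H.Ps y ν →
      H.π y ⁅p, q⁆ ∈ H.Ps y (μ + ν + r) := fun hμ hν hp hq =>
    S.P_of_F (hμ.add hν) (S.π_spec (hμ.add hν) (H.lie_mem (P_F hp) (P_F hq))).1 r (ih hμ hν hp hq)
  have hN : ∀ {μ ν : Pos U}, Inf μ → Inf ν → Inf (μ + ν + r) := fun hμ hν => (hμ.add hν).add_nat r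
  let M : Pos U → Pos U → H.L → H.L → W2 := fun μ ν p q => (c (μ + ν + r) (H.π y ⁅p, q⁆)).1
  have skew : ∀ {μ ν : Pos U} {p q : H.L}, Inf μ → Inf ν → p ∈ H.Ps y μ → q ∈ H.Ps y ν →
      M μ ν p q = M ν μ q p := by
    intro μ ν p q hμ hν hp hq
    simp only [M]
    rw [← lie_skew, S.π_neg (hν.add hμ) (H.lie_mem (P_F hq) (P_F hp)), add_comm μ ν,
      S.c_neg (hN hν hμ) (ih hν hμ hq hp)]
  have congL : ∀ {μ ν : Pos U} {p p' q : H.L}, Inf μ → Inf ν → p ∈ H.Ps y μ → p' ∈ H.Ps y μ →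
      q ∈ H.Ps y ν → (c μ p).1 = (c μ p').1 → M μ ν p q = M μ ν p' q := by
    intro μ ν p p' q hμ hν hp hp' hq e
    have h1 := ih hμ.succ hν (S.P_sub hμ hp hp' e) hq
    rw [sub_lie, S.π_sub (hμ.add hν) (H.lie_mem (P_F hp) (P_F hq))
      (H.lie_mem (P_F hp') (P_F hq))] at h1
    simp only [M]
    rw [S.c_congr (hN hμ hν) (ih hμ hν hp' hq) (H.cast h1 (by ring))]
  let m : Pos U → Pos U → Bool → Bool → W2 := fun μ ν s t => M μ ν (S.pw μ (ee s)) (S.pw ν (ee t))
  have msk : ∀ {μ ν : Pos U} s t, Inf μ → Inf ν → m μ ν s t = m ν μ t s := fun s t hμ hν =>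
    skew hμ hν (S.pw_P hμ _) (S.pw_P hν _)
  have mY : ∀ {μ ν : Pos U} s t, Inf μ → Inf ν → m μ ν s t = m (μ + 1) ν s t + m μ (ν + 1) s t := by
    intro μ ν s t hμ hν
    have hp := S.pw_P hμ (ee s)
    have hq := S.pw_P hν (ee t)
    have e1 : m (μ + 1) ν s t = M (μ + 1) ν (H.Y y (S.pw μ (ee s))) (S.pw ν (ee t)) :=
      congL hμ.succ hν (S.pw_P hμ.succ _) (S.P_Y hp) hq (by
        rw [S.cW_Y hμ (P_F hp), S.cW_pw hμ, S.cW_pw hμ.succ])
    have e2 : m μ (ν + 1) s t = M μ (ν + 1) (S.pw μ (ee s)) (H.Y y (S.pw ν (ee t))) := by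
      rw [msk s t hμ hν.succ, skew hμ hν.succ hp (S.P_Y hq)]
      exact congL hν.succ hμ (S.pw_P hν.succ _) (S.P_Y hq) hp (by
        rw [S.cW_Y hν (P_F hq), S.cW_pw hν, S.cW_pw hν.succ])
    rw [e1, e2]
    simp only [m, M]
    generalize S.pw μ (ee s) = p at hp
    generalize S.pw ν (ee t) = q at hq
    have h0 := hμ.add hν
    have m1 : ⁅H.Y y p, q⁆ ∈ H.F (μ + ν) :=
      H.up (H.lie_mem (S.Y_mem (P_F hp)) (P_F hq)) 1 (by push_cast; ring)
    have m2 : ⁅p, H.Y y q⁆ ∈ H.F (μ + ν) :=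
      H.up (H.lie_mem (P_F hp) (S.Y_mem (P_F hq))) 1 (by push_cast; ring)
    have m3 : ⁅H.Y y p, H.Y y q⁆ ∈ H.F (μ + ν) :=
      H.up (H.lie_mem (S.Y_mem (P_F hp)) (S.Y_mem (P_F hq))) 2 (by push_cast; ring)
    have e := S.π_Y h0 (H.lie_mem (P_F hp) (P_F hq))
    rw [Y_lie, S.π_add h0 (add_mem m1 m2) m3, S.π_add h0 m1 m2] at e
    have n1 := H.cast (ih hμ.succ hν (S.P_Y hp) hq) (ν := μ + ν + r + 1) (by ring)
    have n2 := H.cast (ih hμ hν.succ hp (S.P_Y hq)) (ν := μ + ν + r + 1) (by ring)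
    have n3 := H.cast (ih hμ.succ hν.succ (S.P_Y hp) (S.P_Y hq)) (ν := μ + ν + r + 1 + 1) (by ring)
    rw [← S.cW_Y (hN hμ hν) (ih hμ hν hp hq), ← e,
      S.add (hN hμ hν).succ (add_mem n1 n2) (H.up1 n3), S.c_deep (hN hμ hν).succ n3, add_zero,
      S.add (hN hμ hν).succ n1 n2, Prod.fst_add, S.c_cast (show μ + 1 + ν + r = μ + ν + r + 1 by ring),
      S.c_cast (show μ + (ν + 1) + r = μ + ν + r + 1 by ring)]
  have jac : ∀ {i j l N : Pos U} (s t v : Bool), Inf i → Inf j → Inf l → N = i + j + l + r →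
      σ N (m i j s t) (ee v) + σ N (m j l t v) (ee s) + σ N (m l i v s) (ee t) = 0 := by
    intro i j l N s t v hi hj hl hNe
    have hN' : Inf N := hNe ▸ ((hi.add hj).add hl).add_nat r
    have one : ∀ {i j l : Pos U} (s t v : Bool), Inf i → Inf j → Inf l → N = i + j + l + r →
        ∃ A B, ⁅⁅S.pw i (ee s), S.pw j (ee t)⁆, S.pw l (ee v)⁆ = A + B ∧ A ∈ H.Ps y (N - r) ∧
          B ∈ H.F N ∧ (c N B).2 = σ N (m i j s t) (ee v) := by
      intro i j l s t v hi hj hl hNe
      have hp := S.pw_P hi (ee s)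
      have hq := S.pw_P hj (ee t)
      have hw := S.pw_P hl (ee v)
      have h1 := (S.π_spec (hi.add hj) (H.lie_mem (P_F hp) (P_F hq))).2
      refine ⟨_, _, ?_, P_cast (S.lie_KP (hi.add hj) hl h1 hw) (by rw [hNe]; ring),
        H.cast (H.lie_mem (ih hi hj hp hq) (P_F hw)) (by rw [hNe]; ring), ?_⟩
      · rw [← add_lie, sub_add_cancel]
      · have h2 := S.cZ_lie (hN hi hj) hl (ih hi hj hp hq) (P_F hw)
        rw [S.cW_pw hl, show i + j + r + l = N by rw [hNe]; ring] at h2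
        exact h2
    obtain ⟨A1, B1, e1, a1, b1, c1⟩ := one s t v hi hj hl hNe
    obtain ⟨A2, B2, e2, a2, b2, c2⟩ := one t v s hj hl hi (by rw [hNe]; ring)
    obtain ⟨A3, B3, e3, a3, b3, c3⟩ := one v s t hl hi hj (by rw [hNe]; ring)
    have hJ : A1 + A2 + A3 = -(B1 + B2 + B3) := by
      have h := lie_jacobi (S.pw i (ee s)) (S.pw j (ee t)) (S.pw l (ee v))
      rw [← lie_skew (S.pw i (ee s)), ← lie_skew (S.pw j (ee t)) ⁅_, _⁆,
        ← lie_skew (S.pw l (ee v)) ⁅_, _⁆, e1, e2, e3] at h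
      linear_combination (norm := abel1) -h
    have hB := add_mem (add_mem b1 b2) b3
    have hA := S.P_of_F (hN'.sub_nat r) (add_mem (add_mem a1 a2) a3) r
      (by rw [hJ, sub_add_cancel]; exact neg_mem hB)
    rw [sub_add_cancel] at hA
    have h0 := S.P_cZ hN' hA
    rw [hJ, S.c_neg hN' hB, S.add hN' (add_mem b1 b2) b3, S.add hN' b1 b2, Prod.snd_add,
      Prod.snd_add, c1, c2, c3] at h0
    exact h0
  let ms : Pos U → Pos U → Fin 3 → W2 := fun i j =>
    ![m i j true true, m i j false false, m i j true false + m i j false true]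
  have cocy : ∀ {i j l : Pos U}, Inf i → Inf j → Inf l → red 2 (i + j + l + r : Pos U) = 1 →
      ms i j + ms j l + ms l i = 0 := by
    intro i j l hi hj hl hodd
    have g := S.good (((hi.add hj).add hl).add_nat r) hodd
    have J := fun s t v => jac s t v hi hj hl rfl
    have h := g.pp (X := m i j true true + m j l true true + m l i true true)
      (Y := m i j false false + m j l false false + m l i false false)
      (V := m i j true false + m i j false true + (m j l true false + m j l false true) +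
        (m l i true false + m l i false true))
      (by simp only [map_add, LinearMap.add_apply]; exact J _ _ _)
      (by simp only [map_add, LinearMap.add_apply]; exact J _ _ _)
      (by
        simp only [map_add, LinearMap.add_apply]
        linear_combination (norm := abel1) J true true false + J true false true + J false true true)
      (by
        simp only [map_add, LinearMap.add_apply]
        linear_combination (norm := abel1) J false false true + J false true false + J true false false)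
    funext n
    fin_cases n
    exacts [h.1, h.2.1, h.2.2]
  have mssk : ∀ {i j : Pos U}, Inf i → Inf j → ms i j = ms j i := by
    intro i j hi hj
    simp only [ms]
    rw [msk true true hi hj, msk false false hi hj, msk true false hi hj, msk false true hi hj,
      add_comm (m j i false true)]
  have two : ∀ {X : Type} [AddCommGroup X] (f : Pos U → Pos U → X), (∀ v : X, v + v = 0) →
      (∀ {i j : Pos U}, Inf i → Inf j → f i j = f (i + 1) j + f i (j + 1)) →
      ∀ {i j : Pos U}, Inf i → Inf j → f i j = f (i + 2) j + f i (j + 2) := by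
    intro X _ f h2 hf i j hi hj
    rw [hf hi hj, hf hi.succ hj, hf hi hj.succ, show i + 1 + 1 = i + 2 by ring,
      show j + 1 + 1 = j + 2 by ring]
    linear_combination (norm := abel1) h2 (f (i + 1) (j + 1))
  have par : ∀ i j : Pos U, ∃ l, Inf l ∧ red 2 (i + j + l + r : Pos U) = 1 := by
    intro i j
    obtain ⟨l, hl, -, -, e⟩ := exists_small hμ hμ (1 - red 2 (i + j + r : Pos U))
    exact ⟨l, hl, by rw [show i + j + l + r = i + j + r + l by ring, map_add, e]; ring⟩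
  have r2 : red 2 (2 : Pos U) = 0 := by rw [map_ofNat]; rfl
  have f2 : ∀ v : Fin 3 → W2, v + v = 0 := fun v => funext fun n => w2_add_self _
  have ms0 : ∀ {i j : Pos U}, Inf i → Inf j → ms i j = 0 := by
    intro i' j' hi' hj'
    obtain ⟨i, rfl⟩ : ∃ i, i' = i + 2 := ⟨i' - 2, by ring⟩
    obtain ⟨j, rfl⟩ : ∃ j, j' = j + 2 := ⟨j' - 2, by ring⟩
    have hi : Inf i := hi'.of_eq (-2) (by push_cast; ring)
    have hj : Inf j := hj'.of_eq (-2) (by push_cast; ring)
    obtain ⟨l, hl, e⟩ := par i j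
    have c1 := cocy hi hj hl e
    have c2 := cocy hi' hj hl (by rw [← e]; simp only [map_add, r2, add_zero])
    have c3 := cocy hi hj' hl (by rw [← e]; simp only [map_add, r2, add_zero])
    have c4 := cocy hi' hj' hl (by rw [← e]; simp only [map_add, r2, add_zero])
    have c5 := two ms f2 (fun {i j} hi hj => by
      funext n
      fin_cases n
      · exact mY _ _ hi hj
      · exact mY _ _ hi hj
      · change m i j true false + m i j false true = m (i + 1) j true false +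
          m (i + 1) j false true + (m i (j + 1) true false + m i (j + 1) false true)
        rw [mY true false hi hj, mY false true hi hj]; abel) hi hj
    linear_combination (norm := abel1) c1 + c2 + c3 + c4 - c5 - f2 (ms j l) - f2 (ms l i) -
      f2 (ms (j + 2) l) - f2 (ms l (i + 2)) - f2 (ms (i + 2) j) - f2 (ms i (j + 2))
  have maa : ∀ {i j : Pos U} s, Inf i → Inf j → m i j s s = 0 := fun s hi hj => by
    cases s
    exacts [congrFun (ms0 hi hj) 1, congrFun (ms0 hi hj) 0]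
  have mab : ∀ {i j : Pos U}, Inf i → Inf j → m i j false true = m i j true false := fun hi hj =>
    (w2_eq_of_add (congrFun (ms0 hi hj) 2)).symm
  have weq : ∀ {i j l : Pos U}, Inf i → Inf j → Inf l → red 2 (i + j + l + r : Pos U) = 1 →
      m j l true false = m i l true false := by
    intro i j l hi hj hl hodd
    have g := S.good (((hi.add hj).add hl).add_nat r) hodd
    refine w2_eq_of_add (g.nondeg fun t => ?_)
    have J := jac t t (!t) hi hj hl rfl
    rw [maa t hi hj, map_zero, LinearMap.zero_apply, zero_add, msk _ _ hl hi] at J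
    rw [map_add, LinearMap.add_apply]
    cases t
    · rwa [Bool.not_false, mab hj hl, mab hi hl] at J
    · exact J
  have w0 : ∀ {i j : Pos U}, Inf i → Inf j → m i j true false = 0 := by
    intro i j hi hj
    have hi' : Inf (i + 2) := hi.of_eq 2 (by push_cast; ring)
    have hj' : Inf (j + 2) := hj.of_eq 2 (by push_cast; ring)
    have sh : ∀ {i j : Pos U}, Inf i → Inf j → m (i + 2) j true false = m i j true false := by
      intro i j hi hj
      obtain ⟨l, hl, e⟩ := par i j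
      rw [weq hl (hi.of_eq 2 (by push_cast; ring)) hj (by
        rw [← e]; simp only [map_add, r2, add_zero]; ring),
        weq hl hi hj (by rw [← e]; simp only [map_add]; ring)]
    have h1 := two (fun i j => m i j true false) w2_add_self (mY true false) hi hj
    rw [h1, sh hi hj, msk _ _ hi hj', mab hj' hi, sh hj hi, msk _ _ hj hi, mab hi hj, w2_add_self]
  have m0 : ∀ s t, m μ ν s t = 0 := fun s t => by
    cases s <;> cases t
    exacts [maa _ hμ hν, (mab hμ hν).trans (w0 hμ hν), w0 hμ hν, maa _ hμ hν]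
  have h0 := hμ.add hν
  refine S.P_ind hμ (Q := fun p => H.π y ⁅p, q⁆ ∈ H.F (μ + ν + r + 1))
    (fun p hp => H.cast (ih hμ.succ hν hp hq) (by ring)) (fun s => ?_) (fun p hp p' hp' h1 h2 => by
      rw [add_lie, S.π_add h0 (H.lie_mem (P_F hp) (P_F hq)) (H.lie_mem (P_F hp') (P_F hq))]
      exact add_mem h1 h2) hp
  have hp := S.pw_P hμ (ee s)
  refine S.P_ind hν (Q := fun q => H.π y ⁅S.pw μ (ee s), q⁆ ∈ H.F (μ + ν + r + 1))
    (fun q hq => H.cast (ih hμ hν.succ hp hq) (by ring)) (fun t => ?_) (fun q hq q' hq' h1 h2 => by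
      rw [lie_add, S.π_add h0 (H.lie_mem (P_F hp) (P_F hq)) (H.lie_mem (P_F hp) (P_F hq'))]
      exact add_mem h1 h2) hq
  exact P_F (S.P_succ (hN hμ hν) (ihP hμ hν hp (S.pw_P hν _)) (m0 s t))

/-- `[P, P] ≤ K`. -/
theorem lie_PP (hμ : Inf μ) (hν : Inf ν) (hp : p ∈ H.Ps y μ) (hq : q ∈ H.Ps y ν) :
    ⁅p, q⁆ ∈ H.Ks y (μ + ν) := by
  have key : ∀ r : ℕ, ∀ {μ ν : Pos U} {p q : H.L}, Inf μ → Inf ν → p ∈ H.Ps y μ →
      q ∈ H.Ps y ν → H.π y ⁅p, q⁆ ∈ H.F (μ + ν + r) := by
    intro r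
    induction r with
    | zero =>
      intro μ ν p q hμ hν hp hq
      simpa using P_F (S.π_spec (hμ.add hν) (H.lie_mem (P_F hp) (P_F hq))).1
    | succ r ih =>
      intro μ ν p q hμ hν hp hq
      exact H.cast (S.pp_step r ih hμ hν hp hq) (by push_cast; ring)
  exact S.K_of_π (hμ.add hν) (H.lie_mem (P_F hp) (P_F hq)) fun r => key r hμ hν hp hq

end S1L

end Pool.Agent.Lib.MP_ffb54b_al.P2
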