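import Pool.Agent.Lib.MP_ffb54b_al.P2.S1b

set_option autoImplicit false
set_option linter.unusedSectionVars false

namespace Pool.Agent.Lib.MP_ffb54b_al.P2

open Filter

universe u

/-- Linear maps of the plane. -/
abbrev Mat : Type := Module.End (ZMod 2) W2

instance : Finite Mat := DFunLike.finite _

lemma mat_ext {A B : Mat} (h : ∀ p, A (ee p) = B (ee p)) : A = B :=
  LinearMap.ext fun w => by rw [W2.eq_sum w]; simp only [map_add, map_smul, h]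

lemma w_add_self (w : W2) : w + w = 0 := funext fun p => CharTwo.add_self_eq_zero (w p)

lemma mat_add_self (A : Mat) : A + A = 0 := LinearMap.ext fun w => w_add_self (A w)

lemma mat_neg (A : Mat) : -A = A := neg_eq_of_add_eq_zero_right (mat_add_self A)

lemma mat_eq_of_add {A B : Mat} (h : A + B = 0) : A = B := by
  rw [← mat_neg B]; exact eq_neg_of_add_eq_zero_left h

/-- The linear map with given values on the basis. -/
def mkM (f : Bool → W2) : Mat where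
  toFun w := w true • f true + w false • f false
  map_add' v w := by simp only [Pi.add_apply]; module
  map_smul' t w := by simp only [Pi.smul_apply, smul_eq_mul, RingHom.id_apply]; module

lemma mkM_ee (f : Bool → W2) (p : Bool) : mkM f (ee p) = f p := by
  cases p <;> simp [mkM, ee]

/-- A complete filtered abelian group with two-dimensional layers and a basis. -/
structure FS (V : Type u) [AddCommGroup V] where
  /-- The filtration. -/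
  F : ℤ → AddSubgroup V
  /-- The class maps. -/
  c : ℤ → V → W2
  /-- The basis. -/
  e : Bool → ℤ → V
  anti : Antitone F
  add : ∀ {i : ℤ} {a b : V}, a ∈ F i → b ∈ F i → c i (a + b) = c i a + c i b
  zero : ∀ {i : ℤ} {a : V}, a ∈ F i → (c i a = 0 ↔ a ∈ F (i + 1))
  e_mem : ∀ p i, e p i ∈ F i
  e_c : ∀ p i, c i (e p i) = ee p
  two : ∀ {i : ℤ} {a : V}, a ∈ F i → a + a ∈ F (i + 3)
  sep : ∀ a : V, (∀ i, a ∈ F i) → a = 0
  exh : ∀ a : V, ∃ i, a ∈ F i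
  compact : ∀ (𝒱 : Ultrafilter ℕ) (i : ℤ) (a : ℕ → V), (∀ᶠ t in 𝒱, a t ∈ F i) →
    ∃ b, ∀ d : ℕ, ∀ᶠ t in 𝒱, b - a t ∈ F (i + d)

namespace FS

variable {V : Type u} [AddCommGroup V] (Φ : FS V) {i j d d' : ℤ} {a b v : V}

lemma mono (h : a ∈ Φ.F i) (hj : j ≤ i) : a ∈ Φ.F j := Φ.anti hj h

lemma c_deep (h : a ∈ Φ.F j) (hj : i < j) : Φ.c i a = 0 :=
  (Φ.zero (Φ.mono h hj.le)).2 (Φ.mono h hj)

lemma c_zero : Φ.c i 0 = 0 := Φ.c_deep (zero_mem _) (lt_add_one i)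

lemma c_neg (ha : a ∈ Φ.F i) : Φ.c i (-a) = Φ.c i a := by
  have h := Φ.add (neg_mem ha) ha
  rw [neg_add_cancel, c_zero] at h
  rw [← add_zero (Φ.c i (-a)), ← w_add_self (Φ.c i a), ← add_assoc, ← h, zero_add]

lemma c_sub (ha : a ∈ Φ.F i) (hb : b ∈ Φ.F i) : Φ.c i (a - b) = Φ.c i a + Φ.c i b := by
  rw [sub_eq_add_neg, Φ.add ha (neg_mem hb), Φ.c_neg hb]

lemma c_congr (ha : a ∈ Φ.F i) (h : b - a ∈ Φ.F (i + 1)) : Φ.c i b = Φ.c i a := by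
  have := Φ.add ha (Φ.mono h (lt_add_one i).le)
  rwa [add_sub_cancel, Φ.c_deep h (lt_add_one i), add_zero] at this

lemma c_val (ha : a ∈ Φ.F i) (t : ZMod 2) : Φ.c i (t.val • a) = t • Φ.c i a := by
  have : t = 0 ∨ t = 1 := by revert t; decide
  rcases this with rfl | rfl
  · simp [Φ.c_zero]
  · simp [ZMod.val_one]

/-- The lift of a class. -/
def ι (i : ℤ) (w : W2) : V := (w true).val • Φ.e true i + (w false).val • Φ.e false i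

lemma ι_mem (i : ℤ) (w : W2) : Φ.ι i w ∈ Φ.F i :=
  add_mem (nsmul_mem (Φ.e_mem _ _) _) (nsmul_mem (Φ.e_mem _ _) _)

lemma c_ι (i : ℤ) (w : W2) : Φ.c i (Φ.ι i w) = w := by
  rw [ι, Φ.add (nsmul_mem (Φ.e_mem _ _) _) (nsmul_mem (Φ.e_mem _ _) _), Φ.c_val (Φ.e_mem _ _),
    Φ.c_val (Φ.e_mem _ _), Φ.e_c, Φ.e_c, ← W2.eq_sum]

lemma ι_zero (i : ℤ) : Φ.ι i 0 = 0 := by simp [ι]

lemma ι_ee (i : ℤ) (p : Bool) : Φ.ι i (ee p) = Φ.e p i := by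
  cases p <;> simp [ι, ee, ZMod.val_one]

lemma val_add (ha : a ∈ Φ.F i) (s t : ZMod 2) :
    (s + t).val • a - (s.val • a + t.val • a) ∈ Φ.F (i + 3) := by
  have hs : s = 0 ∨ s = 1 := by revert s; decide
  have ht : t = 0 ∨ t = 1 := by revert t; decide
  rcases hs with rfl | rfl
  · simp
  rcases ht with rfl | rfl
  · simp
  rw [show (1 : ZMod 2) + 1 = 0 by decide]
  simpa [ZMod.val_one] using neg_mem (Φ.two ha)

lemma ι_add (i : ℤ) (w w' : W2) : Φ.ι i (w + w') - (Φ.ι i w + Φ.ι i w') ∈ Φ.F (i + 3) := by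
  convert add_mem (Φ.val_add (Φ.e_mem true i) (w true) (w' true))
    (Φ.val_add (Φ.e_mem false i) (w false) (w' false)) using 1
  simp only [ι, Pi.add_apply]; abel

/-- The remainder after removing the leading term. -/
def r (i : ℤ) (v : V) : V := v - Φ.ι i (Φ.c i v)

lemma r_mem (h : v ∈ Φ.F i) : Φ.r i v ∈ Φ.F (i + 1) := by
  rw [r, ← Φ.zero (sub_mem h (Φ.ι_mem _ _)), Φ.c_sub h (Φ.ι_mem _ _), c_ι, w_add_self]

lemma r_deep (h : v ∈ Φ.F j) (hj : i < j) : Φ.r i v = v := by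
  rw [r, Φ.c_deep h hj, ι_zero, sub_zero]

lemma r_add (ha : a ∈ Φ.F i) (hb : b ∈ Φ.F i) :
    Φ.r i (a + b) - (Φ.r i a + Φ.r i b) ∈ Φ.F (i + 3) := by
  convert neg_mem (Φ.ι_add i (Φ.c i a) (Φ.c i b)) using 1
  simp only [r, Φ.add ha hb]; abel

lemma r_congr (ha : a ∈ Φ.F i) (h : b - a ∈ Φ.F (i + 1)) : Φ.r i b - Φ.r i a = b - a := by
  simp only [r, Φ.c_congr ha h]; abel

/-- The second coordinate. -/
def c1 (i : ℤ) (v : V) : W2 := Φ.c (i + 1) (Φ.r i v)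

/-- The third coordinate. -/
def c2 (i : ℤ) (v : V) : W2 := Φ.c1 (i + 1) (Φ.r i v)

lemma c1_congr (ha : a ∈ Φ.F i) (h : b - a ∈ Φ.F (i + 2)) : Φ.c1 i b = Φ.c1 i a :=
  Φ.c_congr (Φ.r_mem ha) (by
    rw [Φ.r_congr ha (Φ.mono h (by omega))]; exact Φ.mono h (by omega))

lemma c2_congr (ha : a ∈ Φ.F i) (h : b - a ∈ Φ.F (i + 3)) : Φ.c2 i b = Φ.c2 i a :=
  Φ.c1_congr (Φ.r_mem ha) (by
    rw [Φ.r_congr ha (Φ.mono h (by omega))]; exact Φ.mono h (by omega))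

lemma c1_add (ha : a ∈ Φ.F i) (hb : b ∈ Φ.F i) : Φ.c1 i (a + b) = Φ.c1 i a + Φ.c1 i b := by
  rw [c1, Φ.c_congr (add_mem (Φ.r_mem ha) (Φ.r_mem hb)) (Φ.mono (Φ.r_add ha hb) (by omega)),
    Φ.add (Φ.r_mem ha) (Φ.r_mem hb), c1, c1]

lemma c2_add (ha : a ∈ Φ.F i) (hb : b ∈ Φ.F i) : Φ.c2 i (a + b) = Φ.c2 i a + Φ.c2 i b := by
  rw [c2, Φ.c1_congr (add_mem (Φ.r_mem ha) (Φ.r_mem hb)) (Φ.mono (Φ.r_add ha hb) (by omega)),
    Φ.c1_add (Φ.r_mem ha) (Φ.r_mem hb), c2, c2]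

lemma c1_succ (h : v ∈ Φ.F (i + 1)) : Φ.c1 i v = Φ.c (i + 1) v := by
  rw [c1, Φ.r_deep h (lt_add_one i)]

lemma c2_succ (h : v ∈ Φ.F (i + 1)) : Φ.c2 i v = Φ.c1 (i + 1) v := by
  rw [c2, Φ.r_deep h (lt_add_one i)]

lemma c1_deep (h : v ∈ Φ.F (i + 2)) : Φ.c1 i v = 0 := by
  rw [Φ.c1_succ (Φ.mono h (by omega)), Φ.c_deep h (by omega)]

lemma c2_deep (h : v ∈ Φ.F (i + 3)) : Φ.c2 i v = 0 := by
  rw [Φ.c2_succ (Φ.mono h (by omega)), Φ.c1_deep (Φ.mono h (by omega))]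

lemma r_ι (i : ℤ) (w : W2) : Φ.r i (Φ.ι i w) = 0 := by rw [r, c_ι, sub_self]

lemma c1_ι (i : ℤ) (w : W2) : Φ.c1 i (Φ.ι i w) = 0 := by rw [c1, r_ι, c_zero]

lemma c2_ι (i : ℤ) (w : W2) : Φ.c2 i (Φ.ι i w) = 0 := by rw [c2, r_ι, Φ.c1_deep (zero_mem _)]

lemma c1_neg (ha : a ∈ Φ.F i) : Φ.c1 i (-a) = Φ.c1 i a :=
  Φ.c1_congr ha (by simpa [sub_eq_add_neg] using Φ.mono (neg_mem (Φ.two ha)) (by omega))

lemma c2_neg (ha : a ∈ Φ.F i) : Φ.c2 i (-a) = Φ.c2 i a :=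
  Φ.c2_congr ha (by simpa [sub_eq_add_neg] using neg_mem (Φ.two ha))

lemma c1_val (ha : a ∈ Φ.F i) (t : ZMod 2) : Φ.c1 i (t.val • a) = t • Φ.c1 i a := by
  have : t = 0 ∨ t = 1 := by revert t; decide
  rcases this with rfl | rfl
  · simp [Φ.c1_deep (zero_mem _)]
  · simp [ZMod.val_one]

lemma c2_val (ha : a ∈ Φ.F i) (t : ZMod 2) : Φ.c2 i (t.val • a) = t • Φ.c2 i a := by
  have : t = 0 ∨ t = 1 := by revert t; decide
  rcases this with rfl | rfl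
  · simp [Φ.c2_deep (zero_mem _)]
  · simp [ZMod.val_one]

/-- Operators of degree at least `d`. -/
def N (d : ℤ) : AddSubgroup (AddMonoid.End V) where
  carrier := {T | ∀ ⦃i : ℤ⦄ ⦃v : V⦄, v ∈ Φ.F i → T v ∈ Φ.F (i + d)}
  zero_mem' _ _ _ := zero_mem _
  add_mem' h h' _ _ hv := add_mem (h hv) (h' hv)
  neg_mem' h _ _ hv := neg_mem (h hv)

variable {Φ} {T T' R : AddMonoid.End V}

lemma app (h : T ∈ Φ.N d) (hv : v ∈ Φ.F i) (hj : j ≤ i + d) : T v ∈ Φ.F j := Φ.mono (h hv) hj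

lemma N_mono (h : T ∈ Φ.N d) (hd : d' ≤ d) : T ∈ Φ.N d' := fun _ _ hv => app h hv (by omega)

lemma N_mul (h : T ∈ Φ.N d) (h' : T' ∈ Φ.N d') (hj : j ≤ d + d') : T * T' ∈ Φ.N j :=
  fun i v hv => app (v := T' v) h (h' hv) (by omega)

lemma N_one : (1 : AddMonoid.End V) ∈ Φ.N 0 := fun _ _ hv => by simpa using hv

lemma N_pow (h : T ∈ Φ.N d) : ∀ n : ℕ, T ^ n ∈ Φ.N (n * d)
  | 0 => by simpa using N_one
  | n + 1 => by rw [pow_succ]; exact N_mul (N_pow h n) h (by push_cast; linarith)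

lemma N_sep (h : ∀ n : ℕ, T ∈ Φ.N n) : T = 0 := by
  refine AddMonoidHom.ext fun v => Φ.sep _ fun i => ?_
  obtain ⟨j, hj⟩ := Φ.exh v
  exact app (h (i - j).toNat) hj (by omega)

variable (Φ)

/-- The leading symbol. -/
def s0 (T : AddMonoid.End V) (d i : ℤ) : Mat := mkM fun p => Φ.c (i + d) (T (Φ.e p i))

/-- The second symbol. -/
def s1 (T : AddMonoid.End V) (d i : ℤ) : Mat := mkM fun p => Φ.c1 (i + d) (T (Φ.e p i))

/-- The third symbol. -/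
def s2 (T : AddMonoid.End V) (d i : ℤ) : Mat := mkM fun p => Φ.c2 (i + d) (T (Φ.e p i))

lemma s0_ee (T : AddMonoid.End V) (d i : ℤ) (p : Bool) :
    Φ.s0 T d i (ee p) = Φ.c (i + d) (T (Φ.e p i)) := mkM_ee _ _

lemma s1_ee (T : AddMonoid.End V) (d i : ℤ) (p : Bool) :
    Φ.s1 T d i (ee p) = Φ.c1 (i + d) (T (Φ.e p i)) := mkM_ee _ _

lemma s2_ee (T : AddMonoid.End V) (d i : ℤ) (p : Bool) :
    Φ.s2 T d i (ee p) = Φ.c2 (i + d) (T (Φ.e p i)) := mkM_ee _ _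

variable {Φ}

lemma s0_ι (h : T ∈ Φ.N d) (i : ℤ) (w : W2) : Φ.c (i + d) (T (Φ.ι i w)) = Φ.s0 T d i w := by
  have m := fun p => h (Φ.e_mem p i)
  rw [ι, map_add, map_nsmul, map_nsmul, Φ.add (nsmul_mem (m _) _) (nsmul_mem (m _) _),
    Φ.c_val (m _), Φ.c_val (m _)]
  rfl

lemma s1_ι (h : T ∈ Φ.N d) (i : ℤ) (w : W2) : Φ.c1 (i + d) (T (Φ.ι i w)) = Φ.s1 T d i w := by
  have m := fun p => h (Φ.e_mem p i)
  rw [ι, map_add, map_nsmul, map_nsmul, Φ.c1_add (nsmul_mem (m _) _) (nsmul_mem (m _) _),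
    Φ.c1_val (m _), Φ.c1_val (m _)]
  rfl

lemma s2_ι (h : T ∈ Φ.N d) (i : ℤ) (w : W2) : Φ.c2 (i + d) (T (Φ.ι i w)) = Φ.s2 T d i w := by
  have m := fun p => h (Φ.e_mem p i)
  rw [ι, map_add, map_nsmul, map_nsmul, Φ.c2_add (nsmul_mem (m _) _) (nsmul_mem (m _) _),
    Φ.c2_val (m _), Φ.c2_val (m _)]
  rfl

lemma split (T : AddMonoid.End V) (i : ℤ) (v : V) : T v = T (Φ.ι i (Φ.c i v)) + T (Φ.r i v) := by
  rw [← map_add, r, add_sub_cancel]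

lemma c_app (h : T ∈ Φ.N d) (hv : v ∈ Φ.F i) (e : j = i + d) :
    Φ.c j (T v) = Φ.s0 T d i (Φ.c i v) := by
  subst e
  rw [split T i v, Φ.add (h (Φ.ι_mem _ _)) (app h (Φ.r_mem hv) (by omega)), s0_ι h,
    Φ.c_deep (h (Φ.r_mem hv)) (by omega), add_zero]

lemma c1_app (h : T ∈ Φ.N d) (hv : v ∈ Φ.F i) (e : j = i + d) :
    Φ.c1 j (T v) = Φ.s1 T d i (Φ.c i v) + Φ.s0 T d (i + 1) (Φ.c1 i v) := by
  subst e
  rw [split T i v, Φ.c1_add (h (Φ.ι_mem _ _)) (app h (Φ.r_mem hv) (by omega)), s1_ι h,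
    Φ.c1_succ (app h (Φ.r_mem hv) (by omega)), c_app h (Φ.r_mem hv) (by omega), c1]

lemma c2_app (h : T ∈ Φ.N d) (hv : v ∈ Φ.F i) (e : j = i + d) :
    Φ.c2 j (T v) = Φ.s2 T d i (Φ.c i v) + Φ.s1 T d (i + 1) (Φ.c1 i v) +
      Φ.s0 T d (i + 2) (Φ.c2 i v) := by
  subst e
  rw [split T i v, Φ.c2_add (h (Φ.ι_mem _ _)) (app h (Φ.r_mem hv) (by omega)), s2_ι h,
    Φ.c2_succ (app h (Φ.r_mem hv) (by omega)), c1_app h (Φ.r_mem hv) (by omega),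
    add_assoc, add_assoc, one_add_one_eq_two]
  rfl

lemma s0_add (h : T ∈ Φ.N d) (h' : T' ∈ Φ.N d) (i : ℤ) :
    Φ.s0 (T + T') d i = Φ.s0 T d i + Φ.s0 T' d i := mat_ext fun p => by
  simp only [s0, mkM_ee, LinearMap.add_apply]
  exact Φ.add (h (Φ.e_mem p i)) (h' (Φ.e_mem p i))

lemma s1_add (h : T ∈ Φ.N d) (h' : T' ∈ Φ.N d) (i : ℤ) :
    Φ.s1 (T + T') d i = Φ.s1 T d i + Φ.s1 T' d i := mat_ext fun p => by
  simp only [s1, mkM_ee, LinearMap.add_apply]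
  exact Φ.c1_add (h (Φ.e_mem p i)) (h' (Φ.e_mem p i))

lemma s2_add (h : T ∈ Φ.N d) (h' : T' ∈ Φ.N d) (i : ℤ) :
    Φ.s2 (T + T') d i = Φ.s2 T d i + Φ.s2 T' d i := mat_ext fun p => by
  simp only [s2, mkM_ee, LinearMap.add_apply]
  exact Φ.c2_add (h (Φ.e_mem p i)) (h' (Φ.e_mem p i))

lemma s0_sub (h : T ∈ Φ.N d) (h' : T' ∈ Φ.N d) (i : ℤ) :
    Φ.s0 (T - T') d i = Φ.s0 T d i + Φ.s0 T' d i := mat_ext fun p => by
  simp only [s0, mkM_ee, LinearMap.add_apply]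
  exact Φ.c_sub (h (Φ.e_mem p i)) (h' (Φ.e_mem p i))

lemma s1_sub (h : T ∈ Φ.N d) (h' : T' ∈ Φ.N d) (i : ℤ) :
    Φ.s1 (T - T') d i = Φ.s1 T d i + Φ.s1 T' d i := by
  rw [sub_eq_add_neg, s1_add h (neg_mem h')]
  congr 1
  exact mat_ext fun p => by
    simp only [s1, mkM_ee]
    exact Φ.c1_neg (h' (Φ.e_mem p i))

lemma s2_sub (h : T ∈ Φ.N d) (h' : T' ∈ Φ.N d) (i : ℤ) :
    Φ.s2 (T - T') d i = Φ.s2 T d i + Φ.s2 T' d i := by
  rw [sub_eq_add_neg, s2_add h (neg_mem h')]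
  congr 1
  exact mat_ext fun p => by
    simp only [s2, mkM_ee]
    exact Φ.c2_neg (h' (Φ.e_mem p i))

lemma s0_mul (h : T ∈ Φ.N d) (h' : T' ∈ Φ.N d') (e : j = d + d') (i : ℤ) :
    Φ.s0 (T * T') j i = Φ.s0 T d (i + d') * Φ.s0 T' d' i := mat_ext fun p => by
  simp only [s0, mkM_ee, Module.End.mul_apply]
  exact c_app h (h' (Φ.e_mem p i)) (by omega)

lemma s1_mul (h : T ∈ Φ.N d) (h' : T' ∈ Φ.N d') (e : j = d + d') (i : ℤ) :
    Φ.s1 (T * T') j i = Φ.s1 T d (i + d') * Φ.s0 T' d' i +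
      Φ.s0 T d (i + d' + 1) * Φ.s1 T' d' i := mat_ext fun p => by
  simp only [s0, s1, mkM_ee, Module.End.mul_apply, LinearMap.add_apply]
  exact c1_app h (h' (Φ.e_mem p i)) (by omega)

lemma s2_mul (h : T ∈ Φ.N d) (h' : T' ∈ Φ.N d') (e : j = d + d') (i : ℤ) :
    Φ.s2 (T * T') j i = Φ.s2 T d (i + d') * Φ.s0 T' d' i + Φ.s1 T d (i + d' + 1) * Φ.s1 T' d' i +
      Φ.s0 T d (i + d' + 2) * Φ.s2 T' d' i := mat_ext fun p => by
  have := c2_app h (h' (Φ.e_mem p i)) (show i + j = _ by omega)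
  simp only [Module.End.mul_apply, LinearMap.add_apply, s0_ee, s1_ee, s2_ee]
  exact this

lemma s0_deep (h : T ∈ Φ.N d') (hd : d + 1 ≤ d') (i : ℤ) : Φ.s0 T d i = 0 := mat_ext fun p => by
  simp only [s0, mkM_ee]
  exact Φ.c_deep (h (Φ.e_mem p i)) (by omega)

lemma s1_deep (h : T ∈ Φ.N d') (hd : d + 2 ≤ d') (i : ℤ) : Φ.s1 T d i = 0 := mat_ext fun p => by
  simp only [s1, mkM_ee]
  exact Φ.c1_deep (app h (Φ.e_mem p i) (by omega))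

lemma s2_deep (h : T ∈ Φ.N d') (hd : d + 3 ≤ d') (i : ℤ) : Φ.s2 T d i = 0 := mat_ext fun p => by
  simp only [s2, mkM_ee]
  exact Φ.c2_deep (app h (Φ.e_mem p i) (by omega))

lemma s1_succ (h : T ∈ Φ.N d') (e : d' = d + 1) (i : ℤ) : Φ.s1 T d i = Φ.s0 T d' i :=
  mat_ext fun p => by
    simp only [s0, s1, mkM_ee]
    rw [Φ.c1_succ (app h (Φ.e_mem p i) (by omega)), e, add_assoc]

lemma s2_succ (h : T ∈ Φ.N d') (e : d' = d + 1) (i : ℤ) : Φ.s2 T d i = Φ.s1 T d' i :=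
  mat_ext fun p => by
    simp only [s1, s2, mkM_ee]
    rw [Φ.c2_succ (app h (Φ.e_mem p i) (by omega)), e, add_assoc]

lemma N_succ (h : T ∈ Φ.N d) (h0 : ∀ i, Φ.s0 T d i = 0) (hd : d' ≤ d + 1) : T ∈ Φ.N d' :=
  fun i v hv => Φ.mono ((Φ.zero (h hv)).1 (by rw [c_app h hv rfl, h0]; rfl)) (by omega)

lemma N_succ2 (h : T ∈ Φ.N d) (h0 : ∀ i, Φ.s0 T d i = 0) (h1 : ∀ i, Φ.s1 T d i = 0)
    (hd : d' ≤ d + 2) : T ∈ Φ.N d' :=
  N_succ (N_succ h h0 le_rfl) (fun i => by rw [← s1_succ (N_succ h h0 le_rfl) rfl, h1]) (by omega)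

lemma s0_congr (h : T ∈ Φ.N d) (h' : T' - T ∈ Φ.N d') (hd : d + 1 ≤ d') (i : ℤ) :
    Φ.s0 T' d i = Φ.s0 T d i := by
  rw [← add_sub_cancel T T', s0_add h (N_mono h' (by omega)), s0_deep h' hd, add_zero]

lemma s1_congr (h : T ∈ Φ.N d) (h' : T' - T ∈ Φ.N d') (hd : d + 2 ≤ d') (i : ℤ) :
    Φ.s1 T' d i = Φ.s1 T d i := by
  rw [← add_sub_cancel T T', s1_add h (N_mono h' (by omega)), s1_deep h' hd, add_zero]

lemma s0_one (i : ℤ) : Φ.s0 1 0 i = 1 := mat_ext fun p => by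
  simp [s0, mkM_ee, Φ.e_c]

lemma s1_one (i : ℤ) : Φ.s1 1 0 i = 0 := mat_ext fun p => by
  simp only [s1, mkM_ee, add_zero, ← Φ.ι_ee]
  exact Φ.c1_ι i _

lemma N_of_basis (h0 : T ∈ Φ.N d') (h : ∀ p i, T (Φ.e p i) ∈ Φ.F (i + d)) : T ∈ Φ.N d := by
  have : ∀ n : ℕ, d' + n ≤ d → T ∈ Φ.N (d' + n) := fun n => by
    induction n with
    | zero => simpa using fun _ => h0
    | succ n ih =>
      push_cast
      exact fun hn => N_succ (ih (by omega)) (fun i => mat_ext fun p => by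
        simp only [s0, mkM_ee]
        exact Φ.c_deep (h p i) (by omega)) (by omega)
  rcases le_total d d' with h1 | h1
  · exact N_mono h0 h1
  · exact N_mono (this (d - d').toNat (by omega)) (by omega)

/-- Symbols from a window on the basis. -/
lemma of_window (h0 : T ∈ Φ.N d') {w0 w1 w2 : Bool → ℤ → W2}
    (h : ∀ p i, T (Φ.e p i) - (Φ.ι (i + d) (w0 p i) + Φ.ι (i + d + 1) (w1 p i) +
      Φ.ι (i + d + 2) (w2 p i)) ∈ Φ.F (i + d + 3)) :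
    T ∈ Φ.N d ∧ ∀ i p, Φ.s0 T d i (ee p) = w0 p i ∧ Φ.s1 T d i (ee p) = w1 p i ∧
      Φ.s2 T d i (ee p) = w2 p i := by
  have m0 := fun p i => Φ.ι_mem (i + d) (w0 p i)
  have m1 := fun p i => Φ.ι_mem (i + d + 1) (w1 p i)
  have m2 := fun p i => Φ.ι_mem (i + d + 2) (w2 p i)
  have m1' := fun p i => Φ.mono (m1 p i) (show i + d ≤ _ by omega)
  have m2' := fun p i => Φ.mono (m2 p i) (show i + d ≤ _ by omega)
  have m := fun p i => add_mem (add_mem (m0 p i) (m1' p i)) (m2' p i)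
  refine ⟨N_of_basis h0 fun p i => by
    simpa using add_mem (Φ.mono (h p i) (show i + d ≤ _ by omega)) (m p i), fun i p => ?_⟩
  simp only [s0, s1, s2, mkM_ee]
  rw [Φ.c_congr (m p i) (Φ.mono (h p i) (by omega)), Φ.c1_congr (m p i) (Φ.mono (h p i) (by omega)),
    Φ.c2_congr (m p i) (h p i), Φ.add (add_mem (m0 p i) (m1' p i)) (m2' p i),
    Φ.c1_add (add_mem (m0 p i) (m1' p i)) (m2' p i), Φ.c2_add (add_mem (m0 p i) (m1' p i)) (m2' p i),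
    Φ.add (m0 p i) (m1' p i), Φ.c1_add (m0 p i) (m1' p i), Φ.c2_add (m0 p i) (m1' p i), c_ι, c1_ι,
    c2_ι, Φ.c_deep (m1 p i) (by omega), Φ.c_deep (m2 p i) (by omega), Φ.c1_succ (m1 p i), c_ι,
    Φ.c1_deep (m2 p i), Φ.c2_succ (m1 p i), c1_ι, Φ.c2_succ (Φ.mono (m2 p i) (by omega)),
    Φ.c1_succ (Φ.mono (m2 p i) (by omega)), show i + d + 1 + 1 = i + d + 2 by omega, c_ι]
  simp

end FS

end Pool.Agent.Lib.MP_ffb54b_al.P2
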