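import Pool.Agent.Lib.MP_ffb54b_al.P2.Sym
import Pool.Agent.Lib.MP_ffb54b_al.P2.Pos

set_option autoImplicit false
set_option linter.unusedSectionVars false

namespace Pool.Agent.Lib.MP_ffb54b_al.P2

open Filter
open scoped commutatorElement

universe u v

namespace FS

variable {V : Type u} [AddCommGroup V] {Φ : FS V} {i j d d' : ℤ} {a b v : V}
  {T T' R : AddMonoid.End V}

lemma strict (h : T ∈ Φ.N d) (h1 : ∀ i, Φ.s0 T d i = 1) (hv : T v ∈ Φ.F (i + d)) : v ∈ Φ.F i := by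
  obtain ⟨j, hj⟩ := Φ.exh v
  have : ∀ n : ℕ, j + n ≤ i → v ∈ Φ.F (j + n) := fun n => by
    induction n with
    | zero => simpa using fun _ => hj
    | succ n ih =>
      push_cast
      intro hn
      have h2 := c_app h (ih (by omega)) rfl
      rw [Φ.c_deep hv (by omega), h1] at h2
      exact Φ.mono ((Φ.zero (ih (by omega))).1 h2.symm) (by omega)
  rcases le_total i j with h2 | h2
  · exact Φ.mono hj h2
  · exact Φ.mono (this (i - j).toNat (by omega)) (by omega)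

lemma exists_inv (h : T ∈ Φ.N d) (h1 : ∀ i, Φ.s0 T d i = 1) :
    ∃ Z ∈ Φ.N (-d), Z * T = 1 ∧ T * Z = 1 := by
  have inj : Function.Injective T := (injective_iff_map_eq_zero T).2 fun v hv =>
    Φ.sep v fun i => strict h h1 (hv ▸ zero_mem _)
  have surj : Function.Surjective T := fun w => by
    obtain ⟨j, hj⟩ := Φ.exh w
    have : ∀ n : ℕ, ∃ v ∈ Φ.F (j - d), w - T v ∈ Φ.F (j + n) := fun n => by
      induction n with
      | zero => exact ⟨0, zero_mem _, by simpa using hj⟩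
      | succ n ih =>
        obtain ⟨v, hv, h2⟩ := ih
        have m := Φ.ι_mem (j + n - d) (Φ.c (j + n) (w - T v))
        refine ⟨v + Φ.ι (j + n - d) (Φ.c (j + n) (w - T v)), add_mem hv (Φ.mono m (by omega)), ?_⟩
        rw [map_add, ← sub_sub, Nat.cast_succ, ← add_assoc, ← Φ.zero (sub_mem h2 (app h m (by omega))),
          Φ.c_sub h2 (app h m (by omega)), c_app h m (by omega), h1, c_ι]
        exact w_add_self _
    choose v hv h2 using this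
    obtain ⟨b, hb⟩ := Φ.compact (hyperfilter ℕ) _ v (.of_forall hv)
    refine ⟨b, (sub_eq_zero.1 (Φ.sep _ fun i => ?_)).symm⟩
    obtain ⟨n, h3, h4⟩ := ((hb (i - j).toNat).and (free_hyper (i - j).toNat)).exists
    convert sub_mem (Φ.mono (h2 n) (show i ≤ _ by omega)) (app h h3 (show i ≤ _ by omega)) using 1
    rw [map_sub]; abel
  let Z := (AddEquiv.ofBijective (T : V →+ V) ⟨inj, surj⟩).symm
  have e1 : ∀ w, T (Z w) = w := fun w => (AddEquiv.ofBijective (T : V →+ V) ⟨inj, surj⟩).apply_symm_apply w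
  refine ⟨Z.toAddMonoidHom, fun i w hw => strict h h1 ?_, AddMonoidHom.ext fun w => inj (e1 _),
    AddMonoidHom.ext e1⟩
  change T (Z w) ∈ _
  rw [e1]; exact Φ.mono hw (by omega)

lemma s0_inv (h : T ∈ Φ.N d) (h1 : ∀ i, Φ.s0 T d i = 1) {Z : AddMonoid.End V} (hZ : Z ∈ Φ.N (-d))
    (e : Z * T = 1) (i : ℤ) : Φ.s0 Z (-d) i = 1 := by
  have := s0_mul hZ h (show 0 = _ by omega) (i - d)
  rw [e, s0_one, h1, mul_one, sub_add_cancel] at this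
  exact this.symm

lemma s1_inv (h : T ∈ Φ.N d) (h1 : ∀ i, Φ.s0 T d i = 1) (h2 : ∀ i, Φ.s1 T d i = 0)
    {Z : AddMonoid.End V} (hZ : Z ∈ Φ.N (-d)) (e : Z * T = 1) (i : ℤ) : Φ.s1 Z (-d) i = 0 := by
  have := s1_mul hZ h (show 0 = _ by omega) (i - d)
  rw [e, s1_one, h1, h2, mul_one, mul_zero, add_zero, sub_add_cancel] at this
  exact this.symm

variable (Φ) in
/-- Pointwise limit of operators. -/
def IsLim (U : Ultrafilter ℕ) (S : ℕ → AddMonoid.End V) (T : AddMonoid.End V) : Prop :=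
  ∀ v j, ∀ᶠ n in U, T v - S n v ∈ Φ.F j

variable {U : Ultrafilter ℕ} {S S' : ℕ → AddMonoid.End V}

lemma IsLim.unique (h : Φ.IsLim U S T) (h' : Φ.IsLim U S T') : T = T' :=
  AddMonoidHom.ext fun v => sub_eq_zero.1 (Φ.sep _ fun j => by
    obtain ⟨n, h1, h2⟩ := ((h v j).and (h' v j)).exists
    have := sub_mem h1 h2
    rwa [sub_sub_sub_cancel_right] at this)

lemma IsLim.const (T : AddMonoid.End V) : Φ.IsLim U (fun _ => T) T := fun v j =>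
  .of_forall fun _ => by simp

lemma IsLim.add (h : Φ.IsLim U S T) (h' : Φ.IsLim U S' T') :
    Φ.IsLim U (fun n => S n + S' n) (T + T') := fun v j => ((h v j).and (h' v j)).mono fun n hn => by
  convert add_mem hn.1 hn.2 using 1
  change T v + T' v - (S n v + S' n v) = _
  abel

lemma IsLim.mul (h : Φ.IsLim U S T) (h' : Φ.IsLim U S' T') (hd : ∀ᶠ n in U, S n ∈ Φ.N d) :
    Φ.IsLim U (fun n => S n * S' n) (T * T') := fun v j => by
  filter_upwards [h (T' v) j, h' v (j - d), hd] with n h1 h2 h3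
  convert add_mem h1 (app h3 h2 (by omega)) using 1
  change T (T' v) - S n (S' n v) = _
  rw [map_sub]; abel

lemma IsLim.congr (h : Φ.IsLim U S T) (h' : ∀ m : ℕ, ∀ᶠ n in U, S n - S' n ∈ Φ.N m) :
    Φ.IsLim U S' T := fun v j => by
  obtain ⟨i, hi⟩ := Φ.exh v
  filter_upwards [h v j, h' (j - i).toNat] with n h1 h2
  convert add_mem h1 (app h2 hi (by omega)) using 1
  change _ = _ + (S n v - S' n v)
  abel

lemma IsLim.mem (h : Φ.IsLim U S T) (hd : ∀ᶠ n in U, S n ∈ Φ.N d) : T ∈ Φ.N d := fun i v hv => by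
  obtain ⟨n, h1, h2⟩ := ((h v (i + d)).and hd).exists
  simpa using add_mem h1 (h2 hv)

lemma IsLim.s0 (h : Φ.IsLim U S T) (hd : ∀ᶠ n in U, S n ∈ Φ.N d) (i : ℤ) :
    ∀ᶠ n in U, Φ.s0 T d i = Φ.s0 (S n) d i := by
  filter_upwards [h (Φ.e true i) (i + d + 1), h (Φ.e false i) (i + d + 1), hd] with n h1 h2 h3
  refine mat_ext fun p => ?_
  rw [s0_ee, s0_ee]
  cases p
  exacts [Φ.c_congr (h3 (Φ.e_mem _ _)) h2, Φ.c_congr (h3 (Φ.e_mem _ _)) h1]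

lemma IsLim.s1 (h : Φ.IsLim U S T) (hd : ∀ᶠ n in U, S n ∈ Φ.N d) (i : ℤ) :
    ∀ᶠ n in U, Φ.s1 T d i = Φ.s1 (S n) d i := by
  filter_upwards [h (Φ.e true i) (i + d + 2), h (Φ.e false i) (i + d + 2), hd] with n h1 h2 h3
  refine mat_ext fun p => ?_
  rw [s1_ee, s1_ee]
  cases p
  exacts [Φ.c1_congr (h3 (Φ.e_mem _ _)) h2, Φ.c1_congr (h3 (Φ.e_mem _ _)) h1]

lemma exists_lim (U : Ultrafilter ℕ) (hd : ∀ᶠ n in U, S n ∈ Φ.N d) : ∃ T, Φ.IsLim U S T := by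
  have : ∀ v, ∃ w, ∀ j, ∀ᶠ n in U, w - S n v ∈ Φ.F j := fun v => by
    obtain ⟨i, hi⟩ := Φ.exh v
    obtain ⟨w, hw⟩ := Φ.compact U (i + d) (fun n => S n v) (hd.mono fun n h => h hi)
    exact ⟨w, fun j => (hw (j - (i + d)).toNat).mono fun n h => Φ.mono h (by omega)⟩
  choose f hf using this
  refine ⟨AddMonoidHom.mk' f fun a b => sub_eq_zero.1 (Φ.sep _ fun j => ?_), hf⟩
  obtain ⟨n, h1, h2, h3⟩ := ((hf (a + b) j).and ((hf a j).and (hf b j))).exists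
  convert sub_mem h1 (add_mem h2 h3) using 1
  rw [map_add]; abel

lemma IsLim.commute (h : Φ.IsLim U S T) (hR : R ∈ Φ.N d) (hd : ∀ᶠ n in U, S n ∈ Φ.N d')
    (hc : ∀ᶠ n in U, Commute (S n) R) : Commute T R :=
  (h.mul (.const R) hd).unique (((IsLim.const R).mul h (.of_forall fun _ => hR)).congr fun m =>
    hc.mono fun n e => by rw [e.eq, sub_self]; exact zero_mem _)

/-- The commutator of two operators. -/
def cm (A B : AddMonoid.End V) : AddMonoid.End V := A * B - B * A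

lemma cm_mem (h : T ∈ Φ.N d) (h' : T' ∈ Φ.N d') (hj : j ≤ d + d') : cm T T' ∈ Φ.N j :=
  sub_mem (N_mul h h' hj) (N_mul h' h (by omega))

lemma s0_cm (h : T ∈ Φ.N d) (h' : T' ∈ Φ.N d') (e : j = d + d') (i : ℤ) :
    Φ.s0 (cm T T') j i = Φ.s0 T d (i + d') * Φ.s0 T' d' i + Φ.s0 T' d' (i + d) * Φ.s0 T d i := by
  rw [cm, s0_sub (N_mul h h' e.le) (N_mul h' h (by omega)), s0_mul h h' e, s0_mul h' h (by omega)]

lemma s1_cm (h : T ∈ Φ.N d) (h' : T' ∈ Φ.N d') (e : j = d + d') (i : ℤ) :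
    Φ.s1 (cm T T') j i = Φ.s1 T d (i + d') * Φ.s0 T' d' i + Φ.s0 T d (i + d' + 1) * Φ.s1 T' d' i +
      (Φ.s1 T' d' (i + d) * Φ.s0 T d i + Φ.s0 T' d' (i + d + 1) * Φ.s1 T d i) := by
  rw [cm, s1_sub (N_mul h h' e.le) (N_mul h' h (by omega)), s1_mul h h' e, s1_mul h' h (by omega)]

lemma mul_one_add (h : T ∈ Φ.N d) (hR : R - 1 ∈ Φ.N 1) : T * R - T ∈ Φ.N (d + 1) := by
  simpa [mul_sub] using N_mul h hR le_rfl

lemma s0_mul_one (h : T ∈ Φ.N d) (hR : R - 1 ∈ Φ.N 1) (i : ℤ) :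
    Φ.s0 (T * R) d i = Φ.s0 T d i := s0_congr h (mul_one_add h hR) le_rfl i

lemma s1_mul_one (h : T ∈ Φ.N d) (hR : R - 1 ∈ Φ.N 1) (i : ℤ) :
    Φ.s1 (T * R) d i = Φ.s1 T d i + Φ.s0 T d (i + 1) * Φ.s0 (R - 1) 1 i := by
  rw [show T * R = T + T * (R - 1) by noncomm_ring, s1_add h (N_mul h hR (by omega)),
    s1_succ (N_mul h hR le_rfl) rfl, s0_mul h hR rfl]

end FS

/-- The projector on the first basis vector. -/
def Ea : Mat := mkM fun p => if p then ee true else 0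

/-- A group acting on a filtered group. -/
structure GA (G : Type v) [Group G] (V : Type u) [AddCommGroup V] extends FS V where
  /-- The action. -/
  ρ : G →* AddMonoid.End V
  deg : ∀ g, ρ g - 1 ∈ toFS.N 1
  /-- The parity of the position. -/
  par : ℤ → ZMod 2
  par_succ : ∀ i, par (i + 1) = par i + 1

namespace GA

open FS

variable {G : Type v} [Group G] {V : Type u} [AddCommGroup V] (Φ : GA G V) {i j d d' : ℤ}
  {g g' : G} {T : AddMonoid.End V}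

/-- The operator `g - 1`. -/
def δ (g : G) : AddMonoid.End V := Φ.ρ g - 1

lemma δ_mem (g : G) : Φ.δ g ∈ Φ.N 1 := Φ.deg g

lemma ρ_mem (g : G) : Φ.ρ g ∈ Φ.N 0 := by
  simpa using add_mem (N_mono (Φ.deg g) zero_le_one) N_one

lemma par_add (i k : ℤ) : Φ.par (i + k) = Φ.par i + (k : ZMod 2) := by
  induction k using Int.induction_on with
  | zero => simp
  | succ k ih => rw [← add_assoc, Φ.par_succ, ih]; push_cast; ring
  | pred k ih =>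
    have h := Φ.par_succ (i + (-(k : ℤ) - 1))
    have e : i + (-(k : ℤ) - 1) + 1 = i + -(k : ℤ) := by ring
    rw [e, ih] at h
    push_cast at h ⊢
    linear_combination -h

lemma par_even (k : ℤ) (e : j = i + 2 * k) : Φ.par j = Φ.par i := by
  rw [e, par_add]; push_cast
  rw [show (2 : ZMod 2) = 0 by decide]; simp

lemma par_odd (k : ℤ) (e : j = i + 2 * k + 1) : Φ.par j = Φ.par i + 1 := by
  rw [e, par_succ, Φ.par_even k rfl]

lemma δ_mul (g g' : G) : Φ.δ (g * g') = Φ.δ g + Φ.δ g' + Φ.δ g * Φ.δ g' := by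
  simp only [δ, map_mul]; noncomm_ring

lemma δ_inv (g : G) : Φ.δ g⁻¹ = -(Φ.δ g * Φ.ρ g⁻¹) := by
  simp only [δ, sub_mul, ← map_mul, mul_inv_cancel, map_one, one_mul, neg_sub]

lemma δ_comm (g g' : G) : Φ.δ ⁅g, g'⁆ = cm (Φ.δ g) (Φ.δ g') * Φ.ρ (g⁻¹ * g'⁻¹) := by
  have : cm (Φ.δ g) (Φ.δ g') = Φ.ρ (g * g') - Φ.ρ (g' * g) := by
    simp only [δ, cm, map_mul]; noncomm_ring
  rw [this, sub_mul, ← map_mul, ← map_mul, δ, ← map_one Φ.ρ]
  congr 2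
  · simp only [commutatorElement_def]; group
  · group

lemma conj_sub (g : G) (T : AddMonoid.End V) :
    Φ.ρ g * T * Φ.ρ g⁻¹ - T = cm (Φ.δ g) T * Φ.ρ g⁻¹ := by
  have : cm (Φ.δ g) T = Φ.ρ g * T - T * Φ.ρ g := by simp only [δ, cm]; noncomm_ring
  rw [this, sub_mul, mul_assoc T, ← map_mul, mul_inv_cancel, map_one, mul_one]

variable {Φ}

lemma δ_inv_mem (h : Φ.δ g ∈ Φ.N d) : Φ.δ g⁻¹ ∈ Φ.N d := by
  rw [δ_inv]; exact neg_mem (N_mul h (Φ.ρ_mem _) (by omega))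

lemma δ_mul_mem (h : Φ.δ g ∈ Φ.N d) (h' : Φ.δ g' ∈ Φ.N d) : Φ.δ (g * g') ∈ Φ.N d := by
  rw [δ_mul]; exact add_mem (add_mem h h') (N_mul h (Φ.δ_mem _) (by omega))

lemma s0_δ_mul (h : Φ.δ g ∈ Φ.N d) (h' : Φ.δ g' ∈ Φ.N d) (i : ℤ) :
    Φ.s0 (Φ.δ (g * g')) d i = Φ.s0 (Φ.δ g) d i + Φ.s0 (Φ.δ g') d i := by
  rw [← s0_add h h']
  exact s0_congr (add_mem h h') (by simpa [δ_mul] using N_mul h (Φ.δ_mem g') le_rfl) le_rfl i

lemma s1_δ_mul (h : Φ.δ g ∈ Φ.N d) (h' : Φ.δ g' ∈ Φ.N d) (hd : 2 ≤ d) (i : ℤ) :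
    Φ.s1 (Φ.δ (g * g')) d i = Φ.s1 (Φ.δ g) d i + Φ.s1 (Φ.δ g') d i := by
  rw [← s1_add h h']
  exact s1_congr (add_mem h h') (by simpa [δ_mul] using N_mul h h' le_rfl) (by omega) i

lemma s0_δ_inv (h : Φ.δ g ∈ Φ.N d) (i : ℤ) : Φ.s0 (Φ.δ g⁻¹) d i = Φ.s0 (Φ.δ g) d i := by
  have := s0_δ_mul (δ_inv_mem h) h i
  rw [inv_mul_cancel, s0_deep (d' := d + 1) (by simp [δ]) le_rfl] at this
  exact mat_eq_of_add this.symm

lemma s1_δ_inv (h : Φ.δ g ∈ Φ.N d) (hd : 2 ≤ d) (i : ℤ) :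
    Φ.s1 (Φ.δ g⁻¹) d i = Φ.s1 (Φ.δ g) d i := by
  have := s1_δ_mul (δ_inv_mem h) h hd i
  rw [inv_mul_cancel, s1_deep (d' := d + 2) (by simp [δ]) le_rfl] at this
  exact mat_eq_of_add this.symm

lemma δ_comm_mem (h : cm (Φ.δ g) (Φ.δ g') ∈ Φ.N d) : Φ.δ ⁅g, g'⁆ ∈ Φ.N d := by
  rw [δ_comm]; exact N_mul h (Φ.ρ_mem _) (by omega)

lemma s0_δ_comm (h : cm (Φ.δ g) (Φ.δ g') ∈ Φ.N d) (i : ℤ) :
    Φ.s0 (Φ.δ ⁅g, g'⁆) d i = Φ.s0 (cm (Φ.δ g) (Φ.δ g')) d i := by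
  rw [δ_comm, s0_mul_one h (Φ.deg _)]

lemma s1_δ_comm (h : cm (Φ.δ g) (Φ.δ g') ∈ Φ.N d) (h' : Φ.δ g' ∈ Φ.N 2) (i : ℤ) :
    Φ.s1 (Φ.δ ⁅g, g'⁆) d i = Φ.s1 (cm (Φ.δ g) (Φ.δ g')) d i +
      Φ.s0 (cm (Φ.δ g) (Φ.δ g')) d (i + 1) * Φ.s0 (Φ.δ g) 1 i := by
  rw [δ_comm, s1_mul_one h (Φ.deg _), ← δ, s0_δ_mul (Φ.δ_mem _) (Φ.δ_mem _), s0_δ_inv (Φ.δ_mem _),
    s0_δ_inv (Φ.δ_mem _), s0_deep h' (by omega), add_zero]

lemma cm_of_δ (h : Φ.δ ⁅g, g'⁆ ∈ Φ.N d) : cm (Φ.δ g) (Φ.δ g') ∈ Φ.N d := by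
  have := N_mul h (Φ.ρ_mem (g' * g)) (show d ≤ _ by omega)
  rwa [δ_comm, mul_assoc, ← map_mul, show g⁻¹ * g'⁻¹ * (g' * g) = 1 by group, map_one,
    mul_one] at this

lemma conj_mem (h : T ∈ Φ.N d) (g : G) : Φ.ρ g * T * Φ.ρ g⁻¹ ∈ Φ.N d :=
  N_mul (N_mul (Φ.ρ_mem g) h le_rfl) (Φ.ρ_mem _) (by omega)

lemma conj_sub_mem (h : cm (Φ.δ g) T ∈ Φ.N d) : Φ.ρ g * T * Φ.ρ g⁻¹ - T ∈ Φ.N d := by
  rw [conj_sub]; exact N_mul h (Φ.ρ_mem _) (by omega)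

lemma s0_conj_sub (h : cm (Φ.δ g) T ∈ Φ.N d) (i : ℤ) :
    Φ.s0 (Φ.ρ g * T * Φ.ρ g⁻¹ - T) d i = Φ.s0 (cm (Φ.δ g) T) d i := by
  rw [conj_sub, s0_mul_one h (Φ.deg _)]

end GA

end Pool.Agent.Lib.MP_ffb54b_al.P2
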