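import Pool.Agent.Lib.MP_ffb54b_al.P2.S2

set_option autoImplicit false
set_option linter.unusedSectionVars false

namespace Pool.Agent.Lib.MP_ffb54b_al.P2

open Finset Filter

universe u

variable {U : Ultrafilter ℕ} {G : ℕ → Type u} [∀ n, Group (G n)] {K : ∀ n, ℕ → Subgroup (G n)}

lemma red_two : red 2 (2 : Pos U) = 0 := by rw [map_ofNat]; rfl

lemma red_succ_of {ν : Pos U} (h : red 2 ν = 0) : red 2 (ν + 1) = 1 := by
  rw [map_add, map_one, h, zero_add]

lemma red_succ_of' {ν : Pos U} (h : red 2 ν = 1) : red 2 (ν + 1) = 0 := by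
  rw [map_add, map_one, h]; rfl

/-- `K` acts on `P` with excess at least `e`. -/
def Fam.ExKP (H : Fam U K) (y : ∀ n, G n) (e : ℕ) : Prop :=
  ∀ {m j : Pos U} {k p : H.L}, Inf m → Inf j → k ∈ H.Ks y m → p ∈ H.Ps y j →
    ⁅k, p⁆ ∈ H.F (m + j + e)

/-- `2` has degree at least `d` on `P`. -/
def Fam.ExTwo (H : Fam U K) (y : ∀ n, G n) (d : ℕ) : Prop :=
  ∀ {j : Pos U} {p : H.L}, Inf j → p ∈ H.Ps y j → p + p ∈ H.F (j + d)

namespace S1L

open Fam

variable {H : Fam U K} {x y u : ∀ n, G n} {c : Pos U → H.L → W2 × W2} {σ : Pos U → Bil}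
  (S : S1L H x y u c σ) {ν μ κ m m' i j l : Pos U} {a a' k k' p p' q r : H.L} {e : ℕ}
include S

lemma exKP_zero : H.ExKP y 0 := fun _ _ hk hp => by
  simpa using H.lie_mem (K_F hk) (P_F hp)

lemma exTwo_zero : H.ExTwo y 0 := fun _ hp => by simpa using add_mem (P_F hp) (P_F hp)

lemma PP_even (hi : Inf i) (hj : Inf j) (hp : p ∈ H.Ps y i) (hq : q ∈ H.Ps y j)
    (h : red 2 (i + j) = 0) : ⁅p, q⁆ ∈ H.Ks y (i + j + 1) :=
  S.K_even (hi.add hj) (S.lie_PP hi hj hp hq) h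

/-- induction on the class of an element of `K`. -/
lemma K_ind (hi : Inf i) (hj : Inf j) {Q : H.L → Prop} (h0 : ∀ k ∈ H.Ks y (i + j + 1), Q k)
    (h1 : ∀ s t, red 2 (i + j) = 1 → Q ⁅S.pw i (ee s), S.pw j (ee t)⁆)
    (h2 : ∀ k ∈ H.Ks y (i + j), ∀ k' ∈ H.Ks y (i + j), Q k → Q k' → Q (k + k'))
    (hk : k ∈ H.Ks y (i + j)) : Q k := by
  have hN := hi.add hj
  rcases z2' (red 2 (i + j)) with ho | ho
  · exact h0 k (S.K_even hN hk ho)
  obtain ⟨c1, c2, c3, h⟩ := S.σ_span hN ho (c (i + j) k).2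
  have mm : ∀ s t (z : ZMod 2), z.val • ⁅S.pw i (ee s), S.pw j (ee t)⁆ ∈ H.Ks y (i + j) :=
    fun s t z => nsmul_mem (S.lie_PP hi hj (S.pw_P hi _) (S.pw_P hj _)) _
  have hq : ∀ s t (z : ZMod 2), Q (z.val • ⁅S.pw i (ee s), S.pw j (ee t)⁆) := fun s t z => by
    rcases z2' z with rfl | rfl
    · simpa using h0 0 (zero_mem _)
    · simpa [ZMod.val_one] using h1 s t ho
  have m12 := add_mem (mm true true c1) (mm true false c2)
  have m123 := add_mem m12 (mm false false c3)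
  have h3 := S.K_sub hN hk m123 (by
    rw [S.add hN (K_F m12) (K_F (mm _ _ _)), S.add hN (K_F (mm _ _ _)) (K_F (mm _ _ _)),
      S.c_val hN, S.c_val hN, S.c_val hN]
    simp only [Prod.snd_add, Prod.smul_snd, S.cZ_lie hi hj (S.pw_F hi _) (S.pw_F hj _),
      S.cW_pw hi, S.cW_pw hj]
    exact h)
  have h4 := h2 _ (K_up h3 1 (by simp)) _ m123 (h0 _ h3)
    (h2 _ m12 _ (mm _ _ _) (h2 _ (mm _ _ _) _ (mm _ _ _) (hq _ _ _) (hq _ _ _)) (hq _ _ _))
  rwa [sub_add_cancel] at h4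

/-- an additive property of all brackets of `P` up to depth `d` holds on `K`. -/
lemma K_desc (hm : Inf m) (T : AddSubgroup H.L) (d : ℕ) (h0 : ∀ k ∈ H.Ks y (m + d), k ∈ T)
    (h1 : ∀ {i j : Pos U} {p q : H.L} (t : ℕ), Inf i → Inf j → i + j = m + t →
      red 2 (i + j) = 1 → p ∈ H.Ps y i → q ∈ H.Ps y j → ⁅p, q⁆ ∈ T) (hk : k ∈ H.Ks y m) : k ∈ T := by
  induction d with
  | zero => exact h0 k (by simpa using hk)
  | succ d ih =>
    refine ih fun k hk => ?_
    obtain ⟨κ, hκ, h3, -, -⟩ := exists_small hm hm 0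
    have h4 : Inf (m - κ + d) := h3.add_nat d
    refine S.K_ind hκ h4 (Q := fun k => k ∈ T) (fun k hk => h0 k (K_cast hk (by push_cast; ring)))
      (fun s t ho => h1 d hκ h4 (by ring) ho (S.pw_P hκ _) (S.pw_P h4 _))
      (fun _ _ _ _ h h' => add_mem h h') (K_cast hk (by ring))

lemma exKK (hT : H.ExKP y e) (hm : Inf m) (hm' : Inf m') (hk : k ∈ H.Ks y m)
    (hk' : k' ∈ H.Ks y m') : ⁅k, k'⁆ ∈ H.F (m + m' + e) := by
  refine S.K_desc hm' ((H.F (m + m' + e)).comap (AddMonoidHom.mk' (fun b => ⁅k, b⁆) (lie_add k))) e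
    (fun k' hk' => H.cast (H.lie_mem (K_F hk) (K_F hk')) (by ring))
    (fun {i j p q} t hi hj ht _ hp hq => ?_) hk'
  change ⁅k, ⁅p, q⁆⁆ ∈ H.F (m + m' + e)
  rw [leibniz_lie]
  exact add_mem (H.up (H.lie_mem (hT hm hi hk hp) (P_F hq)) t (by linear_combination ht))
    (H.up (H.lie_mem (P_F hp) (hT hm hj hk hq)) t (by linear_combination ht))

/-- the symbol of the action of `k` on `P`. -/
noncomputable def Th (e : ℕ) (m j : Pos U) (k : H.L) (v : W2) : W2 :=
  (c (m + j + e) ⁅k, S.pw j v⁆).1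

lemma Th_eq (hT : H.ExKP y e) (hm : Inf m) (hj : Inf j) (hk : k ∈ H.Ks y m) (hp : p ∈ H.Ps y j) :
    (c (m + j + e) ⁅k, p⁆).1 = S.Th e m j k (c j p).1 := by
  have h1 := hT hm hj.succ hk (S.P_sub hj hp (S.pw_P hj (c j p).1) (S.cW_pw hj _).symm)
  rw [lie_sub] at h1
  rw [Th, S.c_congr ((hm.add hj).add_nat e) (hT hm hj hk (S.pw_P hj _)) (H.cast h1 (by ring))]

lemma Th_congr (hT : H.ExKP y e) (hm : Inf m) (hj : Inf j) (hk : k ∈ H.Ks y m)
    (hk' : k' ∈ H.Ks y m) (h : (c m k).2 = (c m k').2) (v : W2) :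
    S.Th e m j k v = S.Th e m j k' v := by
  have h1 := hT hm.succ hj (S.K_sub hm hk hk' h) (S.pw_P hj v)
  rw [sub_lie] at h1
  rw [Th, Th, S.c_congr ((hm.add hj).add_nat e) (hT hm hj hk' (S.pw_P hj _)) (H.cast h1 (by ring))]

lemma Th_add (hT : H.ExKP y e) (hm : Inf m) (hj : Inf j) (hk : k ∈ H.Ks y m) (v w : W2) :
    S.Th e m j k (v + w) = S.Th e m j k v + S.Th e m j k w := by
  have h1 := S.Th_eq hT hm hj hk (add_mem (S.pw_P hj v) (S.pw_P hj w))
  rw [S.add hj (S.pw_F hj _) (S.pw_F hj _), Prod.fst_add, S.cW_pw hj, S.cW_pw hj, lie_add,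
    S.add ((hm.add hj).add_nat e) (hT hm hj hk (S.pw_P hj _)) (hT hm hj hk (S.pw_P hj _))] at h1
  exact h1.symm

lemma Th_ext (hT : H.ExKP y e) (hm : Inf m) (hm' : Inf m') (hi : Inf i) (hj : Inf j)
    (hk : k ∈ H.Ks y m) (hk' : k' ∈ H.Ks y m')
    (h : ∀ t, S.Th e m i k (ee t) = S.Th e m' j k' (ee t)) (v : W2) :
    S.Th e m i k v = S.Th e m' j k' v := by
  have z1 : S.Th e m i k 0 = 0 := by simpa using S.Th_add hT hm hi hk 0 0
  have z2 : S.Th e m' j k' 0 = 0 := by simpa using S.Th_add hT hm' hj hk' 0 0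
  rw [W2.eq_sum v, S.Th_add hT hm hi hk, S.Th_add hT hm' hj hk']
  rcases z2' (v true) with h1 | h1 <;> rcases z2' (v false) with h2 | h2 <;>
    simp only [h1, h2, zero_smul, one_smul, z1, z2, h]

lemma Th_succ (hT : H.ExKP y e) (hm : Inf m) (hj : Inf j) (hk : k ∈ H.Ks y m) (v : W2) :
    S.Th e m (j + 1) k v = S.Th e m j k v := by
  have hp := S.pw_P hj v
  have hN := (hm.add hj).add_nat e
  have hm' : Inf (m + 2) := hm.of_eq 2 (by push_cast; ring)
  have h1 := S.Th_eq hT hm hj.succ hk (S.P_Y hp)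
  rw [S.cW_Y hj (P_F hp), S.cW_pw hj] at h1
  have n1 := H.cast (hT hm' hj (K_Y hk) hp) (ν := m + j + e + 1 + 1) (by ring)
  have n2 := H.cast (hT hm hj.succ hk (S.P_Y hp)) (ν := m + j + e + 1) (by ring)
  have n3 := H.up (hT hm' hj.succ (K_Y hk) (S.P_Y hp)) (ν := m + j + e + 1 + 1) 1
    (by push_cast; ring)
  rw [← h1, Th, ← S.cW_Y hN (hT hm hj hk hp), Y_lie,
    S.c_cast (show m + (j + 1) + e = m + j + e + 1 by ring),
    S.c_congr hN.succ n2 (a' := _ + _ + _) (by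
      have := add_mem n1 n3
      convert this using 1
      abel)]

lemma four_leg (hT : H.ExKP y e) (hm : Inf m) (hi : Inf i) (hj : Inf j) (hk : k ∈ H.Ks y m)
    (v w : W2) : (c (m + (i + j) + e) ⁅k, ⁅S.pw i v, S.pw j w⁆⁆).2 =
      σ (m + (i + j) + e) (S.Th e m i k v) w + σ (m + (i + j) + e) v (S.Th e m j k w) := by
  have hp := S.pw_P hi v
  have hq := S.pw_P hj w
  have h1 := S.cZ_lie ((hm.add hi).add_nat e) hj (hT hm hi hk hp) (P_F hq)
  have h2 := S.cZ_lie hi ((hm.add hj).add_nat e) (P_F hp) (hT hm hj hk hq)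
  have m1 := H.lie_mem (hT hm hi hk hp) (P_F hq)
  have m2 := H.lie_mem (P_F hp) (hT hm hj hk hq)
  rw [show m + i + e + j = m + (i + j) + e by ring] at h1 m1
  rw [show i + (m + j + e) = m + (i + j) + e by ring] at h2 m2
  rw [leibniz_lie, S.add ((hm.add (hi.add hj)).add_nat e) m1 m2, Prod.snd_add, h1, h2, S.cW_pw hi,
    S.cW_pw hj]
  rfl

/-- the symbol does not depend on the position. -/
theorem Th_const (hT : H.ExKP y e) (hm : Inf m) (hi : Inf i) (hj : Inf j) (hk : k ∈ H.Ks y m)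
    (v : W2) : S.Th e m i k v = S.Th e m j k v := by
  rcases z2' (red 2 m) with ho | ho
  · have hk' := S.K_even hm hk ho
    rw [Th, Th, S.cW_deep ((hm.add hi).add_nat e) (H.cast (hT hm.succ hi hk' (S.pw_P hi _)) (by ring)),
      S.cW_deep ((hm.add hj).add_nat e) (H.cast (hT hm.succ hj hk' (S.pw_P hj _)) (by ring))]
  have key : ∀ {i j : Pos U}, Inf i → Inf j → red 2 (m + (i + j) + e : Pos U) = 1 → ∀ t,
      S.Th e m i k (ee t) = S.Th e m j k (ee t) := by
    intro i j hi hj hN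
    have hij := hi.add hj
    have hN' := (hm.add hij).add_nat e
    have g := S.good hN' hN
    rcases z2' (red 2 (i + j)) with hp | hp
    · refine g.ab fun s t => w2_eq_of_add ?_
      rw [← S.four_leg hT hm hi hj hk]
      exact S.cZ_deep hN' (H.cast (S.exKK hT hm hij.succ hk
        (S.PP_even hi hj (S.pw_P hi _) (S.pw_P hj _) hp)) (by ring))
    · obtain ⟨h, hh⟩ : ∃ h, i + j = h + 1 + h := by
        rcases even_or_odd (i + j) with ⟨h, hh⟩ | ⟨h, hh⟩
        · rw [hh, map_mul, red_two, zero_mul] at hp; exact absurd hp zero_ne_one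
        · exact ⟨h, by rw [hh]; ring⟩
      have hi' : Inf h := Inf.of_mul (m := 2) (c := 1) (by
        rw [show ((2 : ℕ) : Pos U) * h + (1 : ℤ) = i + j by rw [hh]; push_cast; ring]; exact hij)
      intro t
      have h1 := g.ab (A := fun s => S.Th e m i k (ee s) + S.Th e m h k (ee s))
        (B := fun s => S.Th e m j k (ee s) + S.Th e m h k (ee s)) (fun s t => by
        have f1 := S.four_leg hT hm hi hj hk (ee s) (ee t)
        have f2 := S.four_leg hT hm hi'.succ hi' hk (ee s) (ee t)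
        have k1 := S.lie_PP hi hj (S.pw_P hi (ee s)) (S.pw_P hj (ee t))
        have k2 := S.lie_PP hi'.succ hi' (S.pw_P hi'.succ (ee s)) (S.pw_P hi' (ee t))
        have z2 := S.cZ_lie hi'.succ hi' (S.pw_F hi'.succ (ee s)) (S.pw_F hi' (ee t))
        rw [← hh] at f2 k2 z2
        have k3 := S.exKK hT hm hij.succ hk (S.K_sub hij k1 k2 (by
          rw [z2, S.cZ_lie hi hj (S.pw_F hi _) (S.pw_F hj _), S.cW_pw hi, S.cW_pw hj,
            S.cW_pw hi', S.cW_pw hi'.succ]))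
        rw [lie_sub] at k3
        rw [S.c_congr hN' (S.exKK hT hm hij hk k2) (H.cast k3 (by ring)), f2,
          S.Th_succ hT hm hi' hk] at f1
        simp only [map_add, LinearMap.add_apply]
        linear_combination (norm := abel1) f1 + w2_add_self (σ (m + (i + j) + e)
          (S.Th e m i k (ee s)) (ee t)) - w2_add_self (σ (m + (i + j) + e) (ee s)
          (S.Th e m h k (ee t)))) t
      exact add_right_cancel h1
  refine S.Th_ext hT hm hm hi hj hk hk (fun t => ?_) v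
  rcases z2' (red 2 (m + (i + j) + e : Pos U)) with hN | hN
  · rw [← S.Th_succ hT hm hj hk]
    exact key hi hj.succ (by rw [← red_succ_of hN]; congr 1; ring) t
  · exact key hi hj hN t

lemma Th_jac (hT : H.ExKP y e) (hi : Inf i) (hj : Inf j) (hl : Inf l) (h : red 2 (l + i) = 0)
    (s t v : W2) : S.Th e (i + j) l ⁅S.pw i s, S.pw j t⁆ v =
      S.Th e (j + l) i ⁅S.pw j t, S.pw l v⁆ s := by
  have hp := S.pw_P hi s
  have hq := S.pw_P hj t
  have hr := S.pw_P hl v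
  have n1 := hT (hi.add hj) hl (S.lie_PP hi hj hp hq) hr
  have n2 := H.cast (hT (hj.add hl) hi (S.lie_PP hj hl hq hr) hp) (ν := i + j + l + e) (by ring)
  have n3 := H.cast (hT (hl.add hi).succ hj (S.PP_even hl hi hr hp h) hq)
    (ν := i + j + l + e + 1) (by ring)
  have hN := ((hi.add hj).add hl).add_nat e
  rw [Th, Th, S.c_cast (show j + l + i + e = i + j + l + e by ring), ← S.c_neg hN n2]
  congr 1
  refine S.c_congr hN (neg_mem n2) ?_
  have hJ := lie_jacobi (S.pw i s) (S.pw j t) (S.pw l v)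
  rw [← lie_skew (S.pw i s), ← lie_skew (S.pw j t) ⁅_, _⁆, ← lie_skew (S.pw l v) ⁅_, _⁆] at hJ
  convert neg_mem n3 using 1
  linear_combination (norm := abel1) -hJ

/-- The leading term of triple brackets is a constant totally symmetric map. -/
theorem T_const (hT : H.ExKP y e) (hν : Inf ν) : ∃ T : W2 → W2 → W2 → W2,
    (∀ s t v, T s t v = T t s v) ∧ (∀ s t v, T s t v = T t v s) ∧
    ∀ {i j l : Pos U} {p q r : H.L}, Inf i → Inf j → Inf l → red 2 (i + j) = 1 →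
      p ∈ H.Ps y i → q ∈ H.Ps y j → r ∈ H.Ps y l →
      (c (i + j + l + e) ⁅⁅p, q⁆, r⁆).1 = T (c i p).1 (c j q).1 (c l r).1 := by
  let t : Pos U → Pos U → Pos U → W2 → W2 → W2 → W2 := fun i j l s t v =>
    S.Th e (i + j) l ⁅S.pw i s, S.pw j t⁆ v
  have t1 : ∀ {i j i' j' l l' : Pos U} {s t' s' t'' : W2} v, Inf i → Inf j → Inf i' → Inf j' →
      Inf l → Inf l' → i' + j' = i + j → σ (i + j) s t' = σ (i + j) s' t'' →
      t i j l s t' v = t i' j' l' s' t'' v := by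
    intro i j i' j' l l' s t' s' t'' v hi hj hi' hj' hl hl' e1 e2
    have k1 := S.lie_PP hi hj (S.pw_P hi s) (S.pw_P hj t')
    have k2 := S.lie_PP hi' hj' (S.pw_P hi' s') (S.pw_P hj' t'')
    have z2 := S.cZ_lie hi' hj' (S.pw_F hi' s') (S.pw_F hj' t'')
    simp only [t]
    rw [e1] at k2 z2 ⊢
    rw [S.Th_const hT (hi.add hj) hl hl' k1]
    exact S.Th_congr hT (hi.add hj) hl' k1 k2 (by
      rw [z2, S.cZ_lie hi hj (S.pw_F hi _) (S.pw_F hj _), S.cW_pw hi, S.cW_pw hj, S.cW_pw hi',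
        S.cW_pw hj', e2]) v
  have t2 : ∀ {i j l i' j' l' : Pos U} (s t' v : W2), Inf i → Inf j → Inf l → Inf i' → Inf j' →
      Inf l' → red 2 (i + j) = 1 → red 2 (i' + j') = 1 → t i j l s t' v = t i' j' l' t' v s := by
    intro i j l i' j' l' s t' v hi hj hl hi' hj' hl' o1 o2
    obtain ⟨κ, hκ, h1, h2, -⟩ := exists_small (hi.add hj) (hi'.add hj') 0
    rw [t1 (i' := i + j - κ) (j' := κ) v hi hj h1 hκ hl h2 (by ring) rfl]
    simp only [t]
    rw [S.Th_jac hT h1 hκ h2 (by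
      simp only [map_add, map_sub] at o1 o2 ⊢
      rw [o1, o2]; generalize red 2 κ = z; revert z; decide)]
    exact t1 s hκ h2 hi' hj' h1 hl' (by ring) rfl
  have o : red 2 (ν + (ν + 1)) = 1 := by
    rw [show ν + (ν + 1) = 2 * ν + 1 by ring, map_add, map_mul, red_two, map_one]; ring
  refine ⟨t ν (ν + 1) ν, fun s t' v => t1 v hν hν.succ hν hν.succ hν hν rfl (S.symm _ _ _),
    fun s t' v => t2 s t' v hν hν.succ hν hν hν.succ hν o o, ?_⟩
  intro i j l p q r hi hj hl ho hp hq hr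
  rw [S.Th_eq hT (hi.add hj) hl (S.lie_PP hi hj hp hq) hr,
    S.Th_congr hT (hi.add hj) hl (S.lie_PP hi hj hp hq)
      (S.lie_PP hi hj (S.pw_P hi (c i p).1) (S.pw_P hj (c j q).1)) (by
      rw [S.cZ_lie hi hj (S.pw_F hi _) (S.pw_F hj _), S.cW_pw hi, S.cW_pw hj,
        S.cZ_lie hi hj (P_F hp) (P_F hq)])]
  change t i j l _ _ _ = _
  rw [t2 _ _ _ hi hj hl hν hν.succ hν ho o, t2 _ _ _ hν hν.succ hν hν hν.succ hν o o,
    t2 _ _ _ hν hν.succ hν hν hν.succ hν o o]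

/-- If the leading term vanishes for one triple of positions, the excess increases. -/
theorem exKP_succ (hT : H.ExKP y e) (hi : Inf i) (hj : Inf j) (hl : Inf l) (ho : red 2 (i + j) = 1)
    (h : ∀ s t v, (c (i + j + l + e) ⁅⁅S.pw i s, S.pw j t⁆, S.pw l v⁆).1 = 0) :
    H.ExKP y (e + 1) := by
  obtain ⟨T, -, -, hT'⟩ := S.T_const hT hi
  have T0 : ∀ s t v, T s t v = 0 := fun s t v => by
    have := hT' hi hj hl ho (S.pw_P hi s) (S.pw_P hj t) (S.pw_P hl v)
    rwa [h, S.cW_pw hi, S.cW_pw hj, S.cW_pw hl, eq_comm] at this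
  intro m j k p hm hj hk hp
  refine S.K_desc hm ((H.F (m + j + (e + 1 : ℕ))).comap
    (AddMonoidHom.mk' (fun b => ⁅b, p⁆) fun a b => add_lie a b p)) 1
    (fun k hk => H.cast (hT (hm.add_nat 1) hj hk hp) (by push_cast; ring))
    (fun {i' j' p' q'} t hi' hj' ht ho' hp' hq' => ?_) hk
  have k1 := S.lie_PP hi' hj' hp' hq'
  have h1 := S.P_succ (((hi'.add hj').add hj).add_nat e)
    (S.P_of_F ((hi'.add hj').add hj) (S.lie_KP (hi'.add hj') hj k1 hp) e (hT (hi'.add hj') hj k1 hp))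
    (by rw [hT' hi' hj' hj ho' hp' hq' hp, T0])
  exact H.up (P_F h1) t (by push_cast; linear_combination ht)

/-- the symbol of multiplication by two. -/
theorem two_const {d : ℕ} (h2 : H.ExTwo y d) (hν : Inf ν) : ∃ M : W2 → W2,
    ∀ {j : Pos U} {p : H.L}, Inf j → p ∈ H.Ps y j → (c (j + d) (p + p)).1 = M (c j p).1 := by
  let M : Pos U → W2 → W2 := fun j v => (c (j + d) (S.pw j v + S.pw j v)).1
  have m1 : ∀ {j : Pos U} {p : H.L}, Inf j → p ∈ H.Ps y j → (c (j + d) (p + p)).1 = M j (c j p).1 := by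
    intro j p hj hp
    have h := h2 hj.succ (S.P_sub hj hp (S.pw_P hj (c j p).1) (S.cW_pw hj _).symm)
    simp only [M]
    rw [S.c_congr (hj.add_nat d) (h2 hj (S.pw_P hj _)) (a' := p + p)
      (by convert H.cast h (ν := j + d + 1) (by ring) using 1; abel)]
  have madd : ∀ {j : Pos U} v w, Inf j → M j (v + w) = M j v + M j w := by
    intro j v w hj
    have h := m1 hj (add_mem (S.pw_P hj v) (S.pw_P hj w))
    rw [S.add hj (S.pw_F hj _) (S.pw_F hj _), Prod.fst_add, S.cW_pw hj, S.cW_pw hj,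
      add_add_add_comm, S.add (hj.add_nat d) (h2 hj (S.pw_P hj _)) (h2 hj (S.pw_P hj _))] at h
    exact h.symm
  have mY : ∀ {j : Pos U} v, Inf j → M (j + 1) v = M j v := by
    intro j v hj
    have h := m1 hj.succ (S.P_Y (S.pw_P hj v))
    rw [S.cW_Y hj (S.pw_F hj _), S.cW_pw hj, ← map_add, S.c_cast (show j + 1 + d = j + d + 1 by ring),
      S.cW_Y (hj.add_nat d) (h2 hj (S.pw_P hj _))] at h
    exact h.symm
  have key : ∀ {i j : Pos U}, Inf i → Inf j → red 2 (i + j + d : Pos U) = 1 → ∀ t,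
      M i (ee t) = M j (ee t) := by
    intro i j hi hj ho
    refine (S.good ((hi.add hj).add_nat d) ho).ab fun s t => ?_
    have h1 := S.cZ_lie (hi.add_nat d) hj (h2 hi (S.pw_P hi (ee s))) (S.pw_F hj (ee t))
    have h3 := S.cZ_lie hi (hj.add_nat d) (S.pw_F hi (ee s)) (h2 hj (S.pw_P hj (ee t)))
    rw [show i + d + j = i + j + d by ring, add_lie, S.cW_pw hj] at h1
    rw [show i + (j + d) = i + j + d by ring, lie_add, S.cW_pw hi] at h3
    exact h1.symm.trans h3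
  refine ⟨M ν, fun {j p} hj hp => ?_⟩
  have hb : ∀ t, M j (ee t) = M ν (ee t) := fun t => by
    rcases z2' (red 2 (j + ν + d : Pos U)) with h | h
    · rw [← mY _ hν]
      exact key hj hν.succ (by rw [← red_succ_of h]; congr 1; ring) t
    · exact key hj hν h t
  have z1 : M j 0 = 0 := by simpa using madd 0 0 hj
  have z2 : M ν 0 = 0 := by simpa using madd 0 0 hν
  rw [m1 hj hp, W2.eq_sum (c j p).1, madd _ _ hj, madd _ _ hν]
  rcases z2' ((c j p).1 true) with h1 | h1 <;> rcases z2' ((c j p).1 false) with h3 | h3 <;>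
    simp only [h1, h3, zero_smul, one_smul, z1, z2, hb]

theorem exTwo_succ {d : ℕ} (h2 : H.ExTwo y d) (hν : Inf ν)
    (h : ∀ v, (c (ν + d) (S.pw ν v + S.pw ν v)).1 = 0) : H.ExTwo y (d + 1) := by
  obtain ⟨M, hM⟩ := S.two_const h2 hν
  have M0 : ∀ v, M v = 0 := fun v => by
    have := hM hν (S.pw_P hν v)
    rwa [h, S.cW_pw hν, eq_comm] at this
  intro j p hj hp
  exact H.cast (P_F (S.P_succ (hj.add_nat d) (S.P_of_F hj (add_mem hp hp) d (h2 hj hp))
    (by rw [hM hj hp, M0]))) (by push_cast; ring)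

/-- `2` has the same degree on `K`. -/
lemma exTwo_K {d : ℕ} (h2 : H.ExTwo y d) (hm : Inf m) (hk : k ∈ H.Ks y m) :
    k + k ∈ H.F (m + d) := by
  refine S.K_desc hm ((H.F (m + d)).comap (AddMonoidHom.mk' (fun b => b + b)
    fun a b => add_add_add_comm a b a b)) d (fun k hk => add_mem (K_F hk) (K_F hk))
    (fun {i j p q} t hi hj ht _ hp hq => ?_) hk
  change ⁅p, q⁆ + ⁅p, q⁆ ∈ H.F (m + d)
  rw [← add_lie]
  exact H.up (H.lie_mem (h2 hi hp) (P_F hq)) t (by linear_combination ht)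

lemma exTwo_F {d : ℕ} (h2 : H.ExTwo y d) (hν : Inf ν) (ha : a ∈ H.F ν) : a + a ∈ H.F (ν + d) := by
  obtain ⟨k, hk, p, hp, rfl⟩ := S.decomp hν ha
  rw [add_add_add_comm]
  exact add_mem (S.exTwo_K h2 hν hk) (h2 hν hp)

/-- characteristic two from one galaxy. -/
theorem char_two (hν : Inf ν) (h : ∀ a ∈ H.F ν, a + a = 0) (a : H.L) : a + a = 0 := by
  have h2 : ∀ d, H.ExTwo y d := fun d => by
    induction d with
    | zero => exact S.exTwo_zero
    | succ d ih =>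
      exact S.exTwo_succ ih hν fun v => by rw [h _ (S.pw_F hν v), S.c_zero (hν.add_nat d)]; rfl
  refine H.pns.induction_F a (fun μ hμ a ha => H.pns.F_sep fun d => S.exTwo_F (h2 d) hμ ha)
    (add_zero _) fun a b h1 h2 => by rw [add_add_add_comm, h1, h2, add_zero]

/-- if `K` acts with infinite excess it is central. -/
theorem K_central (hT : ∀ e, H.ExKP y e) (hm : Inf m) (hk : k ∈ H.Ks y m) (a : H.L) :
    ⁅k, a⁆ = 0 := by
  refine H.pns.induction_F a (fun μ hμ a ha => ?_) (lie_zero _)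
    fun a b h1 h2 => by rw [lie_add, h1, h2, add_zero]
  obtain ⟨k', hk', p, hp, rfl⟩ := S.decomp hμ ha
  rw [lie_add]
  exact H.pns.F_sep fun d => add_mem (S.exKK (hT d) hm hμ hk hk') (hT d hm hμ hk hp)

/-- central elements lie in `K`. -/
theorem K_of_central (hν : Inf ν) (ha : a ∈ H.F ν) (hT : ∀ e, H.ExKP y e) (h : ∀ b : H.L, ⁅a, b⁆ = 0) :
    a ∈ H.Ks y ν := by
  have h1 := S.π_spec hν ha
  have h2 : ∀ b : H.L, ⁅H.π y a, b⁆ = 0 := fun b => by
    have := S.K_central hT hν h1.2 b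
    rwa [sub_lie, h, zero_sub, neg_eq_zero] at this
  refine S.K_of_π hν ha fun d => P_F (y := y) ?_
  induction d with
  | zero => simpa using h1.1
  | succ d ih =>
    rw [Nat.cast_succ, ← add_assoc]
    have hd := hν.add_nat d
    have o : red 2 (ν + d + (ν + d + 1) : Pos U) = 1 := by
      rw [show ν + d + (ν + d + 1) = 2 * (ν + d) + 1 by ring, map_add, map_mul, red_two, map_one]
      ring
    refine S.P_succ hd ih ((S.good (hd.add hd.succ) o).nondeg fun t => ?_)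
    have := S.cZ_lie hd hd.succ (P_F ih) (S.pw_F hd.succ (ee t))
    rw [h2, S.cW_pw hd.succ, S.c_zero (hd.add hd.succ)] at this
    exact this.symm

theorem exKP_all (hi : Inf i) (hj : Inf j) (hl : Inf l) (ho : red 2 (i + j) = 1)
    (h : ∀ p ∈ H.F i, ∀ q ∈ H.F j, ∀ r ∈ H.F l, ⁅⁅p, q⁆, r⁆ = 0) (e : ℕ) : H.ExKP y e := by
  induction e with
  | zero => exact S.exKP_zero
  | succ e ih =>
    exact S.exKP_succ ih hi hj hl ho fun s t v => by
      rw [h _ (S.pw_F hi s) _ (S.pw_F hj t) _ (S.pw_F hl v),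
        S.c_zero (((hi.add hj).add hl).add_nat e)]; rfl

lemma lie_K (hT : ∀ e, H.ExKP y e) (hμ : Inf μ) (hν : Inf ν) (ha : a ∈ H.F μ) (ha' : a' ∈ H.F ν) :
    ⁅a, a'⁆ ∈ H.Ks y (μ + ν) := by
  obtain ⟨k, hk, p, hp, rfl⟩ := S.decomp hμ ha
  obtain ⟨k', hk', p', hp', rfl⟩ := S.decomp hν ha'
  rw [add_lie, S.K_central hT hμ hk, zero_add, lie_add, ← lie_skew, S.K_central hT hν hk',
    neg_zero, zero_add]
  exact S.lie_PP hμ hν hp hp'

/-- class two. -/
theorem class_two (hT : ∀ e, H.ExKP y e) (a b d : H.L) : ⁅⁅a, b⁆, d⁆ = 0 := by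
  refine H.pns.induction_F a (fun μ hμ a ha => ?_) (by simp)
    fun a a' h1 h2 => by rw [add_lie, add_lie, h1, h2, add_zero]
  refine H.pns.induction_F b (fun ν hν b hb => ?_) (by simp)
    fun b b' h1 h2 => by rw [lie_add, add_lie, h1, h2, add_zero]
  exact S.K_central hT (hμ.add hν) (S.lie_K hT hμ hν ha hb) d

end S1L

end Pool.Agent.Lib.MP_ffb54b_al.P2
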